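import Mathlib

/-!
# Definitions shared by the modules of MP_186633_lc

`R` is a relation between points of Baire space `ℕ → ℕ`.
-/

namespace MP186633L

open Cardinal Ordinal

/-- the relation is a Borel subset of `(ℕ → ℕ) × (ℕ → ℕ)` -/
def BorelRel (R : (ℕ → ℕ) → (ℕ → ℕ) → Prop) : Prop :=
  MeasurableSet {p : (ℕ → ℕ) × (ℕ → ℕ) | R p.1 p.2}

/-- every set of fewer than `ℵ_ω` points has a well-order in which every point has only countably
many smaller neighbours -/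
def F1 (R : (ℕ → ℕ) → (ℕ → ℕ) → Prop) : Prop :=
  ∀ Z : Set (ℕ → ℕ), #Z < Cardinal.aleph Ordinal.omega0 →
    ∃ κ : Z → Ordinal.{0}, Function.Injective κ ∧
      ∀ z : Z, {z' : Z | κ z' < κ z ∧ (R z'.1 z.1 ∨ R z.1 z'.1)}.Countable

/-- for every ternary function `F` there are a set `Z` closed under `F` and a point `b` outside `Z`
with uncountably many neighbours in `Z` -/
def F2 (R : (ℕ → ℕ) → (ℕ → ℕ) → Prop) : Prop :=
  ∀ F : (ℕ → ℕ) → (ℕ → ℕ) → ℕ → (ℕ → ℕ), ∃ (Z : Set (ℕ → ℕ)) (b : ℕ → ℕ),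
    (∀ x ∈ Z, ∀ y ∈ Z, ∀ n, F x y n ∈ Z) ∧ b ∉ Z ∧ ¬ {a : ℕ → ℕ | a ∈ Z ∧ R a b}.Countable

/-- there is a group structure on the type of real numbers with Borel multiplication, all of whose
subgroups of cardinality less than `ℵ_ω` are free, and which is not free -/
def BadGroup : Prop :=
  ∃ G : Group ℝ, Measurable (fun p : ℝ × ℝ => G.mul p.1 p.2) ∧
    (∀ H : @Subgroup ℝ G, #H < Cardinal.aleph Ordinal.omega0 → @IsFreeGroup H _) ∧
    ¬ @IsFreeGroup ℝ G

/-- the statement of the group part -/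
def GroupPart : Prop :=
  ∀ R : (ℕ → ℕ) → (ℕ → ℕ) → Prop, BorelRel R → F1 R → F2 R → BadGroup

end MP186633L
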