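import Pool.Agent.Lib.MP_186633_lc.Defs

/-!
# MP_186633_lc: the notion of forcing

Finite conditions (`Raw`), graphs (`Gr`), large conditions (`Big`), countable collapsing
conditions (`Coll`) and the final notion of forcing (`SS`); names for reals (`RN`).
-/

namespace MP186633L

open Cardinal

/-! ### The relation on codes -/

/-- values of points of the left type -/
abbrev Pt : Type := ℤ × ℤ

/-- values of points of the right type -/
abbrev Gt : Type := List Pt →₀ ℤ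

theorem exists_slope : ∃ f : List Gt → ℤ, Function.Injective f := by
  obtain ⟨f, hf⟩ := exists_injective_nat (List Gt)
  refine ⟨fun x => (f x : ℤ), fun x y h => hf ?_⟩
  have h' : (f x : ℤ) = f y := h
  exact_mod_cast h'

/-- the slope of a node of the right type -/
noncomputable def slope : List Gt → ℤ := exists_slope.choose

theorem slope_inj : Function.Injective slope := exists_slope.choose_spec

/-- code of a node of the left type (an even number) -/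
noncomputable def cX (l : List Pt) : ℕ := 2 * (exists_injective_nat (List Pt)).choose l

/-- code of a node of the right type (an odd number) -/
noncomputable def cY (l : List Gt) : ℕ := 2 * (exists_injective_nat (List Gt)).choose l + 1

theorem cX_inj {l l' : List Pt} (h : cX l = cX l') : l = l' := by
  apply (exists_injective_nat (List Pt)).choose_spec
  unfold cX at h
  omega

theorem cY_inj {l l' : List Gt} (h : cY l = cY l') : l = l' := by
  apply (exists_injective_nat (List Gt)).choose_spec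
  unfold cY at h
  omega

theorem cX_ne_cY (l : List Pt) (l' : List Gt) : cX l ≠ cY l' := by
  unfold cX cY
  omega

/-- the last values of the two nodes lie on a common line -/
def Ed (l : List Pt) (l' : List Gt) : Prop :=
  ∃ l0 x l0' y, l = l0 ++ [x] ∧ l' = l0' ++ [y] ∧ l0.length = l0'.length ∧
    x.2 = slope l0' * x.1 + y l0

/-- `m'` is the code of a child of the node coded by `m` -/
def dR (m m' : ℕ) : Prop :=
  (∃ (l : List Pt) (x : Pt), m = cX l ∧ m' = cX (l ++ [x])) ∨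
    (∃ (l : List Gt) (y : Gt), m = cY l ∧ m' = cY (l ++ [y]))

/-- the nodes coded by `m` (left) and `m'` (right) are in relation -/
def eR (m m' : ℕ) : Prop := ∃ l l', m = cX l ∧ m' = cY l' ∧ Ed l l'

/-- The relation on Baire space given by two relations on `ℕ`. -/
def PRel (d e : ℕ → ℕ → Prop) (f g : ℕ → ℕ) : Prop :=
  (∀ n, d (f n) (f (n + 1))) ∧ (∀ n, d (g n) (g (n + 1))) ∧ ∃ k, ∀ n ≥ k, e (f n) (g n)

/-- the two properties of `dR` and `eR` which are used -/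
structure Good (d e : ℕ → ℕ → Prop) : Prop where
  par : ∀ {m m' n : ℕ}, d m n → d m' n → m = m'
  line : ∀ {x0 x1 x1' y0 y1 y0' y1' : ℕ}, d x0 x1 → d x0 x1' → d y0 y1 → d y0' y1' → y0 ≠ y0' →
    e x1 y1 → e x1' y1 → e x1 y1' → e x1' y1' → x1 = x1'

/-! ### Graphs -/

/-- A graph in which every right vertex `ξ ∈ W` is joined to the elements of `E ξ ⊆ U`, and
which is free: `E ξ \ c ξ` are pairwise disjoint and `c ξ` is countable. -/
structure Gr (L S : Type) where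
  U : Set L
  W : Set S
  E : S → Set L
  c : S → Set L
  E_sub : ∀ ξ ∈ W, E ξ ⊆ U
  c_sub : ∀ ξ ∈ W, c ξ ⊆ E ξ
  c_ctbl : ∀ ξ ∈ W, (c ξ).Countable
  disj : ∀ ξ ∈ W, ∀ ζ ∈ W, ξ ≠ ζ → ∀ v, v ∈ E ξ → v ∈ E ζ → v ∈ c ξ ∨ v ∈ c ζ
  E_card : ∀ ξ ∈ W, #(E ξ) ≤ ℵ_ 1

variable {L S : Type}

/-- all vertices of a graph -/
def Gr.dom (Γ : Gr L S) : Set (L ⊕ S) := Sum.inl '' Γ.U ∪ Sum.inr '' Γ.W

/-- closed sets of vertices -/
def Closed (Γ : Gr L S) (Y : Set (L ⊕ S)) : Prop :=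
  ∀ ξ ∈ Γ.W, Sum.inr ξ ∈ Y → ∀ v ∈ Γ.c ξ, Sum.inl v ∈ Y

/-- strongly closed sets of vertices -/
structure Strong (Γ : Gr L S) (Y : Set (L ⊕ S)) : Prop where
  full : ∀ ξ ∈ Γ.W, Sum.inr ξ ∈ Y → ∀ v ∈ Γ.E ξ, Sum.inl v ∈ Y
  up : ∀ ξ ∈ Γ.W, ∀ v ∈ Γ.E ξ, v ∉ Γ.c ξ → Sum.inl v ∈ Y → Sum.inr ξ ∈ Y

/-! ### Finite conditions -/

/-- Finite conditions, without reference to a graph. -/
structure Raw (L S : Type) where
  n : ℕ
  u : Finset L
  w : Finset S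
  a : L → List Pt
  b : S → List Gt
  c : L → S → ℕ

instance : Preorder (Raw L S) where
  le p q := q.n ≤ p.n ∧ q.u ⊆ p.u ∧ q.w ⊆ p.w ∧ (∀ v ∈ q.u, q.a v <+: p.a v) ∧
    (∀ ξ ∈ q.w, q.b ξ <+: p.b ξ) ∧ ∀ v ∈ q.u, ∀ ξ ∈ q.w, p.c v ξ = q.c v ξ
  le_refl p := ⟨le_rfl, subset_rfl, subset_rfl, fun _ _ => List.prefix_rfl,
    fun _ _ => List.prefix_rfl, fun _ _ _ _ => rfl⟩
  le_trans p q r hpq hqr := by
    obtain ⟨h1, h2, h3, h4, h5, h6⟩ := hpq
    obtain ⟨k1, k2, k3, k4, k5, k6⟩ := hqr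
    exact ⟨k1.trans h1, k2.trans h2, k3.trans h3, fun v hv => (k4 v hv).trans (h4 v (k2 hv)),
      fun ξ hξ => (k5 ξ hξ).trans (h5 ξ (k3 hξ)),
      fun v hv ξ hξ => (h6 v (k2 hv) ξ (k3 hξ)).trans (k6 v hv ξ hξ)⟩

/-- the support is contained in `Y` -/
def Raw.In (p : Raw L S) (Y : Set (L ⊕ S)) : Prop :=
  (∀ v ∈ p.u, Sum.inl v ∈ Y) ∧ ∀ ξ ∈ p.w, Sum.inr ξ ∈ Y

open Classical in
/-- restriction of a condition to a set of vertices -/
noncomputable def Raw.res (Y : Set (L ⊕ S)) (p : Raw L S) : Raw L S where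
  n := p.n
  u := p.u.filter fun v => Sum.inl v ∈ Y
  w := p.w.filter fun ξ => Sum.inr ξ ∈ Y
  a v := if Sum.inl v ∈ Y then p.a v else []
  b ξ := if Sum.inr ξ ∈ Y then p.b ξ else []
  c v ξ := if Sum.inl v ∈ Y ∧ Sum.inr ξ ∈ Y then p.c v ξ else 0

/-- `p` is a condition for the graph `Γ`. -/
structure OK (Γ : Gr L S) (p : Raw L S) : Prop where
  uU : ∀ v ∈ p.u, v ∈ Γ.U
  wW : ∀ ξ ∈ p.w, ξ ∈ Γ.W
  a_len : ∀ v ∈ p.u, (p.a v).length = p.n
  a_out : ∀ v ∉ p.u, p.a v = []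
  b_len : ∀ ξ ∈ p.w, (p.b ξ).length = p.n
  b_out : ∀ ξ ∉ p.w, p.b ξ = []
  a_inj : ∀ v ∈ p.u, ∀ v' ∈ p.u, p.a v = p.a v' → v = v'
  b_inj : ∀ ξ ∈ p.w, ∀ ξ' ∈ p.w, p.b ξ = p.b ξ' → ξ = ξ'
  c_out : ∀ v ξ, ¬ (v ∈ p.u ∧ ξ ∈ p.w ∧ v ∈ Γ.E ξ) → p.c v ξ = 0
  edge : ∀ v ∈ p.u, ∀ ξ ∈ p.w, v ∈ Γ.E ξ → ∀ m, p.c v ξ < m → m ≤ p.n →
    Ed ((p.a v).take m) ((p.b ξ).take m)

/-- compatibility of finite conditions for the graph `Γ` -/
def Cpt (Γ : Gr L S) (p q : Raw L S) : Prop := ∃ r, OK Γ r ∧ r ≤ p ∧ r ≤ q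

/-! ### Names for reals -/

/-- candidates for names of functions `ℕ → ℕ` -/
abbrev Nm (L S : Type) : Type := ℕ → ℕ → Set (Raw L S)

/-- `D` is a name for a function, all whose conditions are supported in `Y`. -/
structure RN (Γ : Gr L S) (Y : Set (L ⊕ S)) (D : Nm L S) : Prop where
  ok : ∀ {n m p}, p ∈ D n m → OK Γ p
  supp : ∀ {n m p}, p ∈ D n m → p.In Y
  ctbl : ∀ n m, (D n m).Countable
  func : ∀ {n m m' p p'}, p ∈ D n m → p' ∈ D n m' → Cpt Γ p p' → m = m'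
  total : ∀ n {p}, OK Γ p → ∃ m, ∃ b ∈ D n m, Cpt Γ p b

/-- `p` forces `D n = m` -/
def Vl (Γ : Gr L S) (D : Nm L S) (n m : ℕ) (p : Raw L S) : Prop :=
  ∀ p' ≤ p, OK Γ p' → ∃ p'' ≤ p', OK Γ p'' ∧ ∃ b ∈ D n m, p'' ≤ b

/-- `p` forces `D = D'` -/
def EqN (Γ : Gr L S) (D D' : Nm L S) (p : Raw L S) : Prop :=
  ∀ n m m', ∀ p' ≤ p, OK Γ p' → Vl Γ D n m p' → Vl Γ D' n m' p' → m = m'

/-- `p` forces `R_k(D, D')` -/
structure RelK (Γ : Gr L S) (d e : ℕ → ℕ → Prop) (k : ℕ) (D D' : Nm L S) (p : Raw L S) :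
    Prop where
  brL : ∀ {n m m' p'}, p' ≤ p → OK Γ p' → Vl Γ D n m p' → Vl Γ D (n + 1) m' p' → d m m'
  brR : ∀ {n m m' p'}, p' ≤ p → OK Γ p' → Vl Γ D' n m p' → Vl Γ D' (n + 1) m' p' → d m m'
  rel : ∀ {n m m' p'}, k ≤ n → p' ≤ p → OK Γ p' → Vl Γ D n m p' → Vl Γ D' n m' p' → e m m'

/-- `p` forces `R(D, D')` -/
def RelN (Γ : Gr L S) (d e : ℕ → ℕ → Prop) (D D' : Nm L S) (p : Raw L S) : Prop :=
  ∀ p' ≤ p, OK Γ p' → ∃ p'' ≤ p', OK Γ p'' ∧ ∃ k, RelK Γ d e k D D' p''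

/-! ### The collapse -/

/-- a well-order of type `ω₁` -/
abbrev Om1 : Type := (Ordinal.omega 1).ToType

/-- countable partial functions from `ω₁` to the continuum -/
@[ext] structure Coll where
  f : Om1 → Option (ℕ → ℕ)
  ctbl : {i | f i ≠ none}.Countable

instance : PartialOrder Coll where
  le h' h := ∀ i x, h.f i = some x → h'.f i = some x
  le_refl _ _ _ := id
  le_trans _ _ _ h1 h2 i x hx := h1 i x (h2 i x hx)
  le_antisymm h h' h1 h2 := by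
    ext i x
    exact ⟨fun hx => h2 i x hx, fun hx => h1 i x hx⟩

/-! ### Cardinals -/

/-- `ν m` is the `m`-th successor of the continuum -/
noncomputable def ν : ℕ → Cardinal.{0}
  | 0 => 𝔠
  | m + 1 => Order.succ (ν m)

/-- the bound for the size of large conditions -/
noncomputable def Θ : Cardinal.{0} := 2 ^ (⨆ m, ν m)

/-- the type of vertices -/
abbrev Lam : Type := (Order.succ Θ).ord.ToType

/-! ### Large conditions and the final forcing -/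

/-- large conditions -/
structure Big where
  g : Gr Lam Lam
  U_card : #g.U ≤ Θ
  W_card : #g.W ≤ Θ

/-- `q'` is a stronger large condition than `q` -/
structure Big.Le (q' q : Big) : Prop where
  U : q.g.U ⊆ q'.g.U
  W : q.g.W ⊆ q'.g.W
  E : ∀ ξ ∈ q.g.W, q'.g.E ξ = q.g.E ξ
  tr : ∀ ξ ∈ q'.g.W, ξ ∉ q.g.W → {v | v ∈ q'.g.E ξ ∧ v ∈ q.g.U}.Countable

theorem Big.Le.refl (q : Big) : Big.Le q q :=
  ⟨subset_rfl, subset_rfl, fun _ _ => rfl, fun _ h h' => absurd h h'⟩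

theorem Big.Le.trans {q2 q1 q0 : Big} (h : Big.Le q2 q1) (k : Big.Le q1 q0) : Big.Le q2 q0 := by
  refine ⟨k.U.trans h.U, k.W.trans h.W, fun ξ hξ => (h.E ξ (k.W hξ)).trans (k.E ξ hξ), ?_⟩
  intro ξ hξ hξ'
  by_cases h' : ξ ∈ q1.g.W
  · rw [h.E ξ h']
    exact k.tr ξ h' hξ'
  · refine Set.Countable.mono ?_ (h.tr ξ hξ h')
    rintro v ⟨h1, h2⟩
    exact ⟨h1, k.U h2⟩

instance : Preorder Big where
  le := Big.Le
  le_refl := Big.Le.refl
  le_trans _ _ _ h k := Big.Le.trans h k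

/-- the notion of forcing -/
structure SS where
  q : Big
  h : Coll
  p : Raw Lam Lam
  ok : OK q.g p

instance : Preorder SS where
  le s' s := s'.q ≤ s.q ∧ s'.h ≤ s.h ∧ s'.p ≤ s.p
  le_refl _ := ⟨le_rfl, le_rfl, le_rfl⟩
  le_trans _ _ _ h h' := ⟨le_trans h.1 h'.1, le_trans h.2.1 h'.2.1, le_trans h.2.2 h'.2.2⟩

end MP186633L

/-!
# MP_186633_lc: finite conditions, part A

Restriction and the trivial condition.
-/

namespace MP186633L

variable {L S : Type} {Γ : Gr L S} {p q r : Raw L S} {Y Z : Set (L ⊕ S)}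

theorem Raw.In.mono (h : p.In Y) (hY : Y ⊆ Z) : p.In Z :=
  ⟨fun v hv => hY (h.1 v hv), fun ξ hξ => hY (h.2 ξ hξ)⟩

theorem Raw.res_n (p : Raw L S) (Y : Set (L ⊕ S)) : (p.res Y).n = p.n := rfl

theorem Raw.mem_res_u {v : L} : v ∈ (p.res Y).u ↔ v ∈ p.u ∧ Sum.inl v ∈ Y := by
  simp [Raw.res]

theorem Raw.mem_res_w {ξ : S} : ξ ∈ (p.res Y).w ↔ ξ ∈ p.w ∧ Sum.inr ξ ∈ Y := by
  simp [Raw.res]

theorem Raw.res_a {v : L} (h : Sum.inl v ∈ Y) : (p.res Y).a v = p.a v := by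
  simp [Raw.res, h]

theorem Raw.res_a_out {v : L} (h : Sum.inl v ∉ Y) : (p.res Y).a v = [] := by
  simp [Raw.res, h]

theorem Raw.res_b {ξ : S} (h : Sum.inr ξ ∈ Y) : (p.res Y).b ξ = p.b ξ := by
  simp [Raw.res, h]

theorem Raw.res_b_out {ξ : S} (h : Sum.inr ξ ∉ Y) : (p.res Y).b ξ = [] := by
  simp [Raw.res, h]

theorem Raw.res_c {v : L} {ξ : S} (h : Sum.inl v ∈ Y) (h' : Sum.inr ξ ∈ Y) :
    (p.res Y).c v ξ = p.c v ξ := by
  simp [Raw.res, h, h']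

theorem Raw.res_c_out {v : L} {ξ : S} (h : ¬ (Sum.inl v ∈ Y ∧ Sum.inr ξ ∈ Y)) :
    (p.res Y).c v ξ = 0 := by
  simp only [Raw.res, if_neg h]

theorem Raw.In.res (h : p.In Z) (Y : Set (L ⊕ S)) : (p.res Y).In (Y ∩ Z) := by
  constructor
  · intro v hv
    rw [Raw.mem_res_u] at hv
    exact ⟨hv.2, h.1 v hv.1⟩
  · intro ξ hξ
    rw [Raw.mem_res_w] at hξ
    exact ⟨hξ.2, h.2 ξ hξ.1⟩

theorem Raw.res_In (p : Raw L S) (Y : Set (L ⊕ S)) : (p.res Y).In Y :=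
  ⟨fun _ hv => (Raw.mem_res_u.1 hv).2, fun _ hξ => (Raw.mem_res_w.1 hξ).2⟩

theorem le_res (p : Raw L S) (Y : Set (L ⊕ S)) : p ≤ p.res Y := by
  refine ⟨le_rfl, fun v hv => (Raw.mem_res_u.1 hv).1, fun ξ hξ => (Raw.mem_res_w.1 hξ).1,
    fun v hv => ?_, fun ξ hξ => ?_, fun v hv ξ hξ => ?_⟩
  · rw [Raw.res_a (Raw.mem_res_u.1 hv).2]
  · rw [Raw.res_b (Raw.mem_res_w.1 hξ).2]
  · rw [Raw.res_c (Raw.mem_res_u.1 hv).2 (Raw.mem_res_w.1 hξ).2]

theorem res_le_res (h : p ≤ q) (Y : Set (L ⊕ S)) : p.res Y ≤ q.res Y := by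
  obtain ⟨h1, h2, h3, h4, h5, h6⟩ := h
  refine ⟨h1, fun v hv => ?_, fun ξ hξ => ?_, fun v hv => ?_, fun ξ hξ => ?_,
    fun v hv ξ hξ => ?_⟩
  · rw [Raw.mem_res_u] at hv ⊢
    exact ⟨h2 hv.1, hv.2⟩
  · rw [Raw.mem_res_w] at hξ ⊢
    exact ⟨h3 hξ.1, hξ.2⟩
  · rw [Raw.mem_res_u] at hv
    rw [Raw.res_a hv.2, Raw.res_a hv.2]
    exact h4 v hv.1
  · rw [Raw.mem_res_w] at hξ
    rw [Raw.res_b hξ.2, Raw.res_b hξ.2]
    exact h5 ξ hξ.1
  · rw [Raw.mem_res_u] at hv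
    rw [Raw.mem_res_w] at hξ
    rw [Raw.res_c hv.2 hξ.2, Raw.res_c hv.2 hξ.2]
    exact h6 v hv.1 ξ hξ.1

/-- if `q` is supported in `Y` and `p ≤ q` then `p.res Y ≤ q` -/
theorem res_le (h : p ≤ q) (hq : q.In Y) : p.res Y ≤ q := by
  obtain ⟨h1, h2, h3, h4, h5, h6⟩ := h
  refine ⟨h1, fun v hv => ?_, fun ξ hξ => ?_, fun v hv => ?_, fun ξ hξ => ?_,
    fun v hv ξ hξ => ?_⟩
  · rw [Raw.mem_res_u]
    exact ⟨h2 hv, hq.1 v hv⟩
  · rw [Raw.mem_res_w]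
    exact ⟨h3 hξ, hq.2 ξ hξ⟩
  · rw [Raw.res_a (hq.1 v hv)]
    exact h4 v hv
  · rw [Raw.res_b (hq.2 ξ hξ)]
    exact h5 ξ hξ
  · rw [Raw.res_c (hq.1 v hv) (hq.2 ξ hξ)]
    exact h6 v hv ξ hξ

theorem Raw.ext' {p q : Raw L S} (hn : p.n = q.n) (hu : p.u = q.u) (hw : p.w = q.w)
    (ha : ∀ v, p.a v = q.a v) (hb : ∀ ξ, p.b ξ = q.b ξ) (hc : ∀ v ξ, p.c v ξ = q.c v ξ) :
    p = q := by
  obtain ⟨n, u, w, a, b, c⟩ := p
  obtain ⟨n', u', w', a', b', c'⟩ := q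
  obtain rfl : n = n' := hn
  obtain rfl : u = u' := hu
  obtain rfl : w = w' := hw
  obtain rfl : a = a' := funext ha
  obtain rfl : b = b' := funext hb
  obtain rfl : c = c' := funext fun v => funext fun ξ => hc v ξ
  rfl

theorem res_res (p : Raw L S) (Y Z : Set (L ⊕ S)) : (p.res Y).res Z = p.res (Y ∩ Z) := by
  apply Raw.ext'
  · rfl
  · ext v
    simp only [Raw.mem_res_u, Set.mem_inter_iff]
    tauto
  · ext ξ
    simp only [Raw.mem_res_w, Set.mem_inter_iff]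
    tauto
  · intro v
    by_cases hZ : Sum.inl v ∈ Z
    · rw [Raw.res_a hZ]
      by_cases hY : Sum.inl v ∈ Y
      · rw [Raw.res_a hY, Raw.res_a (Y := Y ∩ Z) ⟨hY, hZ⟩]
      · rw [Raw.res_a_out hY, Raw.res_a_out fun h => hY h.1]
    · rw [Raw.res_a_out hZ, Raw.res_a_out fun h => hZ h.2]
  · intro ξ
    by_cases hZ : Sum.inr ξ ∈ Z
    · rw [Raw.res_b hZ]
      by_cases hY : Sum.inr ξ ∈ Y
      · rw [Raw.res_b hY, Raw.res_b (Y := Y ∩ Z) ⟨hY, hZ⟩]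
      · rw [Raw.res_b_out hY, Raw.res_b_out fun h => hY h.1]
    · rw [Raw.res_b_out hZ, Raw.res_b_out fun h => hZ h.2]
  · intro v ξ
    by_cases hZ : Sum.inl v ∈ Z ∧ Sum.inr ξ ∈ Z
    · rw [Raw.res_c hZ.1 hZ.2]
      by_cases hY : Sum.inl v ∈ Y ∧ Sum.inr ξ ∈ Y
      · rw [Raw.res_c hY.1 hY.2, Raw.res_c (Y := Y ∩ Z) ⟨hY.1, hZ.1⟩ ⟨hY.2, hZ.2⟩]
      · rw [Raw.res_c_out hY, Raw.res_c_out fun h => hY ⟨h.1.1, h.2.1⟩]
    · rw [Raw.res_c_out hZ, Raw.res_c_out fun h => hZ ⟨h.1.2, h.2.2⟩]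

theorem res_eq (hp : OK Γ p) (h : p.In Y) : p.res Y = p := by
  apply Raw.ext'
  · rfl
  · ext v
    rw [Raw.mem_res_u]
    exact ⟨fun h' => h'.1, fun h' => ⟨h', h.1 v h'⟩⟩
  · ext ξ
    rw [Raw.mem_res_w]
    exact ⟨fun h' => h'.1, fun h' => ⟨h', h.2 ξ h'⟩⟩
  · intro v
    by_cases hY : Sum.inl v ∈ Y
    · exact Raw.res_a hY
    · rw [Raw.res_a_out hY, hp.a_out v fun h' => hY (h.1 v h')]
  · intro ξ
    by_cases hY : Sum.inr ξ ∈ Y
    · exact Raw.res_b hY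
    · rw [Raw.res_b_out hY, hp.b_out ξ fun h' => hY (h.2 ξ h')]
  · intro v ξ
    by_cases hY : Sum.inl v ∈ Y ∧ Sum.inr ξ ∈ Y
    · exact Raw.res_c hY.1 hY.2
    · rw [Raw.res_c_out hY, hp.c_out v ξ fun h' => hY ⟨h.1 v h'.1, h.2 ξ h'.2.1⟩]

theorem OK.res (hp : OK Γ p) (Y : Set (L ⊕ S)) : OK Γ (p.res Y) where
  uU v hv := hp.uU v (Raw.mem_res_u.1 hv).1
  wW ξ hξ := hp.wW ξ (Raw.mem_res_w.1 hξ).1
  a_len v hv := by
    rw [Raw.mem_res_u] at hv
    rw [Raw.res_a hv.2]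
    exact hp.a_len v hv.1
  a_out v hv := by
    by_cases hY : Sum.inl v ∈ Y
    · rw [Raw.res_a hY]
      exact hp.a_out v fun h => hv (Raw.mem_res_u.2 ⟨h, hY⟩)
    · exact Raw.res_a_out hY
  b_len ξ hξ := by
    rw [Raw.mem_res_w] at hξ
    rw [Raw.res_b hξ.2]
    exact hp.b_len ξ hξ.1
  b_out ξ hξ := by
    by_cases hY : Sum.inr ξ ∈ Y
    · rw [Raw.res_b hY]
      exact hp.b_out ξ fun h => hξ (Raw.mem_res_w.2 ⟨h, hY⟩)
    · exact Raw.res_b_out hY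
  a_inj v hv v' hv' h := by
    rw [Raw.mem_res_u] at hv hv'
    rw [Raw.res_a hv.2, Raw.res_a hv'.2] at h
    exact hp.a_inj v hv.1 v' hv'.1 h
  b_inj ξ hξ ξ' hξ' h := by
    rw [Raw.mem_res_w] at hξ hξ'
    rw [Raw.res_b hξ.2, Raw.res_b hξ'.2] at h
    exact hp.b_inj ξ hξ.1 ξ' hξ'.1 h
  c_out v ξ h := by
    by_cases hY : Sum.inl v ∈ Y ∧ Sum.inr ξ ∈ Y
    · rw [Raw.res_c hY.1 hY.2]
      exact hp.c_out v ξ fun h' =>
        h ⟨Raw.mem_res_u.2 ⟨h'.1, hY.1⟩, Raw.mem_res_w.2 ⟨h'.2.1, hY.2⟩, h'.2.2⟩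
    · exact Raw.res_c_out hY
  edge v hv ξ hξ hE m hm hmn := by
    rw [Raw.mem_res_u] at hv
    rw [Raw.mem_res_w] at hξ
    rw [Raw.res_c hv.2 hξ.2] at hm
    rw [Raw.res_a hv.2, Raw.res_b hξ.2]
    exact hp.edge v hv.1 ξ hξ.1 hE m hm hmn

theorem OK.In_dom (hp : OK Γ p) : p.In Γ.dom :=
  ⟨fun v hv => Or.inl ⟨v, hp.uU v hv, rfl⟩, fun ξ hξ => Or.inr ⟨ξ, hp.wW ξ hξ, rfl⟩⟩

/-- the trivial condition -/
def Raw.triv (L S : Type) : Raw L S := ⟨0, ∅, ∅, fun _ => [], fun _ => [], fun _ _ => 0⟩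

theorem ok_triv (Γ : Gr L S) : OK Γ (Raw.triv L S) where
  uU v hv := absurd hv (Finset.notMem_empty v)
  wW ξ hξ := absurd hξ (Finset.notMem_empty ξ)
  a_len v hv := absurd hv (Finset.notMem_empty v)
  a_out _ _ := rfl
  b_len ξ hξ := absurd hξ (Finset.notMem_empty ξ)
  b_out _ _ := rfl
  a_inj v hv := absurd hv (Finset.notMem_empty v)
  b_inj ξ hξ := absurd hξ (Finset.notMem_empty ξ)
  c_out _ _ _ := rfl
  edge v hv := absurd hv (Finset.notMem_empty v)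

theorem le_triv (_hp : OK Γ p) : p ≤ Raw.triv L S :=
  ⟨Nat.zero_le _, Finset.empty_subset _, Finset.empty_subset _,
    fun v hv => absurd hv (Finset.notMem_empty v), fun ξ hξ => absurd hξ (Finset.notMem_empty ξ),
    fun v hv => absurd hv (Finset.notMem_empty v)⟩

end MP186633L

/-!
# MP_186633_lc: finite conditions, part B

One-level extension, the projection lemma, density lemmas.
-/

namespace MP186633L

variable {L S : Type} {Γ : Gr L S} {p q r : Raw L S} {Y Z : Set (L ⊕ S)}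

/-! ### one-level step -/

/-- an element of an infinite family avoiding a finite set -/
theorem CB_avoid {α : Type} (f : ℤ → α) (hf : Function.Injective f) (F : Finset α) :
    ∃ s : ℤ, f s ∉ F := by
  by_contra h
  push Not at h
  have h1 : (Set.range f).Finite := F.finite_toSet.subset (by rintro _ ⟨s, rfl⟩; exact h s)
  exact Set.infinite_range_of_injective hf h1

theorem CB_append_inj {α : Type} (l : List α) {x y : α} (h : l ++ [x] = l ++ [y]) : x = y := by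
  have := List.append_cancel_left h
  simpa using this

/-- values for the left vertices outside `Y` -/
theorem CB_left (hY : Closed Γ Y) (hp : OK Γ p) (x : L → Pt) (y : S → Gt)
    (FX : Finset (List Pt)) :
    ∃ x' : L → Pt, (∀ v, Sum.inl v ∈ Y → x' v = x v) ∧
      (∀ v ∈ p.u, Sum.inl v ∉ Y → p.a v ++ [x' v] ∉ FX) ∧
      ∀ v ∈ p.u, Sum.inl v ∉ Y → ∀ ξ ∈ p.w, Sum.inr ξ ∈ Y → v ∈ Γ.E ξ →
        (x' v).2 = slope (p.b ξ) * (x' v).1 + y ξ (p.a v) := by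
  classical
  have key : ∀ v : L, ∃ z : Pt, (Sum.inl v ∈ Y → z = x v) ∧
      (v ∈ p.u → Sum.inl v ∉ Y → p.a v ++ [z] ∉ FX ∧
        ∀ ξ ∈ p.w, Sum.inr ξ ∈ Y → v ∈ Γ.E ξ → z.2 = slope (p.b ξ) * z.1 + y ξ (p.a v)) := by
    intro v
    by_cases hv : v ∈ p.u ∧ Sum.inl v ∉ Y
    swap
    · exact ⟨x v, fun _ => rfl, fun h1 h2 => absurd ⟨h1, h2⟩ hv⟩
    by_cases hn : ∃ ξ ∈ p.w, Sum.inr ξ ∈ Y ∧ v ∈ Γ.E ξ
    · obtain ⟨ξ, hξ, hξY, hvξ⟩ := hn
      obtain ⟨s, hs⟩ := CB_avoid (fun s : ℤ => p.a v ++ [((s, slope (p.b ξ) * s + y ξ (p.a v)) : Pt)])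
        (by
          intro s t hst
          have := CB_append_inj _ hst
          exact congrArg Prod.fst this) FX
      refine ⟨(s, slope (p.b ξ) * s + y ξ (p.a v)), fun h => absurd h hv.2, fun _ _ => ⟨hs, ?_⟩⟩
      intro ζ hζ hζY hvζ
      have : ζ = ξ := by
        by_contra hne
        rcases Γ.disj ζ (hp.wW ζ hζ) ξ (hp.wW ξ hξ) hne v hvζ hvξ with h | h
        · exact hv.2 (hY ζ (hp.wW ζ hζ) hζY v h)
        · exact hv.2 (hY ξ (hp.wW ξ hξ) hξY v h)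
      subst this
      rfl
    · obtain ⟨s, hs⟩ := CB_avoid (fun s : ℤ => p.a v ++ [((s, 0) : Pt)])
        (by
          intro s t hst
          have := CB_append_inj _ hst
          exact congrArg Prod.fst this) FX
      refine ⟨(s, 0), fun h => absurd h hv.2, fun _ _ => ⟨hs, ?_⟩⟩
      intro ζ hζ hζY hvζ
      exact absurd ⟨ζ, hζ, hζY, hvζ⟩ hn
  choose f hf1 hf2 using key
  exact ⟨f, hf1, fun v hv hvY => (hf2 v hv hvY).1, fun v hv hvY => (hf2 v hv hvY).2⟩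

/-- values for the right vertices outside `Y` -/
theorem CB_right (hp : OK Γ p) (x : L → Pt) (y : S → Gt) (FY : Finset (List Gt)) :
    ∃ y' : S → Gt, (∀ ξ, Sum.inr ξ ∈ Y → y' ξ = y ξ) ∧
      (∀ ξ ∈ p.w, Sum.inr ξ ∉ Y → p.b ξ ++ [y' ξ] ∉ FY) ∧
      ∀ v ∈ p.u, ∀ ξ ∈ p.w, Sum.inr ξ ∉ Y →
        (x v).2 = slope (p.b ξ) * (x v).1 + y' ξ (p.a v) := by
  classical
  have key : ∀ ξ : S, ∃ z : Gt, (Sum.inr ξ ∈ Y → z = y ξ) ∧
      (ξ ∈ p.w → Sum.inr ξ ∉ Y → p.b ξ ++ [z] ∉ FY ∧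
        ∀ v ∈ p.u, (x v).2 = slope (p.b ξ) * (x v).1 + z (p.a v)) := by
    intro ξ
    by_cases hξ : ξ ∈ p.w ∧ Sum.inr ξ ∉ Y
    swap
    · exact ⟨y ξ, fun _ => rfl, fun h1 h2 => absurd ⟨h1, h2⟩ hξ⟩
    -- a list which is not one of the nodes
    set l0 : List Pt := List.replicate (p.n + 1) 0 with hl0
    have hl0' : ∀ v ∈ p.u, p.a v ≠ l0 := by
      intro v hv h
      have := hp.a_len v hv
      rw [h, hl0, List.length_replicate] at this
      omega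
    let g0 : Gt := ∑ v ∈ p.u, Finsupp.single (p.a v) ((x v).2 - slope (p.b ξ) * (x v).1)
    have hg0 : ∀ v ∈ p.u, g0 (p.a v) = (x v).2 - slope (p.b ξ) * (x v).1 := by
      intro v hv
      simp only [g0, Finsupp.finsetSum_apply]
      rw [Finset.sum_eq_single v]
      · simp
      · intro v' hv' hne
        rw [Finsupp.single_apply, if_neg]
        intro h
        exact hne (hp.a_inj v' hv' v hv h)
      · intro h; exact absurd hv h
    obtain ⟨s, hs⟩ := CB_avoid (fun s : ℤ => p.b ξ ++ [(g0 + Finsupp.single l0 s : Gt)])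
      (by
        intro s t hst
        have h1 := CB_append_inj _ hst
        have h2 := add_left_cancel h1
        exact Finsupp.single_injective l0 h2) FY
    refine ⟨g0 + Finsupp.single l0 s, fun h => absurd h hξ.2, fun _ _ => ⟨hs, ?_⟩⟩
    intro v hv
    rw [Finsupp.add_apply, hg0 v hv, Finsupp.single_apply, if_neg (fun h => hl0' v hv h.symm)]
    ring
  choose f hf1 hf2 using key
  exact ⟨f, hf1, fun ξ hξ hξY => (hf2 ξ hξ hξY).1, fun v hv ξ hξ hξY => (hf2 ξ hξ hξY).2 v hv⟩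

open Classical in
/-- one more level -/
noncomputable def Raw.up (p : Raw L S) (x : L → Pt) (y : S → Gt) : Raw L S where
  n := p.n + 1
  u := p.u
  w := p.w
  a v := if v ∈ p.u then p.a v ++ [x v] else []
  b ξ := if ξ ∈ p.w then p.b ξ ++ [y ξ] else []
  c := p.c

theorem CB_up_ok (hp : OK Γ p) {x : L → Pt} {y : S → Gt}
    (h : ∀ v ∈ p.u, ∀ ξ ∈ p.w, v ∈ Γ.E ξ → p.c v ξ < p.n + 1 →
      (x v).2 = slope (p.b ξ) * (x v).1 + y ξ (p.a v)) : OK Γ (p.up x y) := by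
  refine ⟨hp.uU, hp.wW, ?_, ?_, ?_, ?_, ?_, ?_, hp.c_out, ?_⟩
  · intro v hv
    have hv : v ∈ p.u := hv
    simp [Raw.up, hv, hp.a_len v hv]
  · intro v hv
    have hv : v ∉ p.u := hv
    simp [Raw.up, hv]
  · intro v hv
    have hv : v ∈ p.w := hv
    simp [Raw.up, hv, hp.b_len v hv]
  · intro v hv
    have hv : v ∉ p.w := hv
    simp [Raw.up, hv]
  · intro v hv v' hv' he
    have hv : v ∈ p.u := hv
    have hv' : v' ∈ p.u := hv'
    simp only [Raw.up, hv, hv', if_true] at he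
    have := List.append_inj_left' he rfl
    exact hp.a_inj v hv v' hv' this
  · intro v hv v' hv' he
    have hv : v ∈ p.w := hv
    have hv' : v' ∈ p.w := hv'
    simp only [Raw.up, hv, hv', if_true] at he
    have := List.append_inj_left' he rfl
    exact hp.b_inj v hv v' hv' this
  · intro v hv ξ hξ hvξ m hm hmn
    have hv : v ∈ p.u := hv
    have hξ : ξ ∈ p.w := hξ
    have hmn : m ≤ p.n + 1 := hmn
    have hm : p.c v ξ < m := hm
    simp only [Raw.up, hv, hξ, if_true]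
    rcases Nat.lt_or_ge p.n m with h1 | h1
    · have hmn' : m = p.n + 1 := by omega
      subst hmn'
      rw [List.take_of_length_le (by simp [hp.a_len v hv]),
        List.take_of_length_le (by simp [hp.b_len ξ hξ])]
      exact ⟨p.a v, x v, p.b ξ, y ξ, rfl, rfl, by rw [hp.a_len v hv, hp.b_len ξ hξ],
        h v hv ξ hξ hvξ hm⟩
    · rw [List.take_append_of_le_length (by rw [hp.a_len v hv]; exact h1),
        List.take_append_of_le_length (by rw [hp.b_len ξ hξ]; exact h1)]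
      exact hp.edge v hv ξ hξ hvξ m hm h1

theorem CB_up_le (p : Raw L S) (x : L → Pt) (y : S → Gt) : p.up x y ≤ p := by
  refine ⟨Nat.le_succ _, subset_rfl, subset_rfl, ?_, ?_, fun _ _ _ _ => rfl⟩
  · intro v hv
    simp only [Raw.up, hv, if_true]
    exact List.prefix_append _ _
  · intro ξ hξ
    simp only [Raw.up, hξ, if_true]
    exact List.prefix_append _ _

/-- the one-level step -/
theorem CB_step (hY : Closed Γ Y) (hp : OK Γ p) (x : L → Pt) (y : S → Gt)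
    (h : ∀ v ∈ p.u, ∀ ξ ∈ p.w, Sum.inl v ∈ Y → Sum.inr ξ ∈ Y → v ∈ Γ.E ξ → p.c v ξ < p.n + 1 →
      (x v).2 = slope (p.b ξ) * (x v).1 + y ξ (p.a v))
    (FX : Finset (List Pt)) (FY : Finset (List Gt)) :
    ∃ r, OK Γ r ∧ r ≤ p ∧ r.n = p.n + 1 ∧ r.u = p.u ∧ r.w = p.w ∧
      (∀ v ∈ p.u, Sum.inl v ∈ Y → r.a v = p.a v ++ [x v]) ∧
      (∀ ξ ∈ p.w, Sum.inr ξ ∈ Y → r.b ξ = p.b ξ ++ [y ξ]) ∧
      (∀ v ∈ p.u, Sum.inl v ∉ Y → r.a v ∉ FX) ∧
      (∀ ξ ∈ p.w, Sum.inr ξ ∉ Y → r.b ξ ∉ FY) := by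
  obtain ⟨x', hx1, hx2, hx3⟩ := CB_left hY hp x y FX
  obtain ⟨y', hy1, hy2, hy3⟩ := CB_right (Y := Y) hp x' y FY
  refine ⟨p.up x' y', CB_up_ok hp ?_, CB_up_le _ _ _, rfl, rfl, rfl, ?_, ?_, ?_, ?_⟩
  · intro v hv ξ hξ hvξ hc
    by_cases hξY : Sum.inr ξ ∈ Y
    · rw [hy1 ξ hξY]
      by_cases hvY : Sum.inl v ∈ Y
      · rw [hx1 v hvY]
        exact h v hv ξ hξ hvY hξY hvξ hc
      · exact hx3 v hv hvY ξ hξ hξY hvξ
    · exact hy3 v hv ξ hξ hξY
  · intro v hv hvY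
    simp only [Raw.up, hv, if_true, hx1 v hvY]
  · intro ξ hξ hξY
    simp only [Raw.up, hξ, if_true, hy1 ξ hξY]
  · intro v hv hvY
    simp only [Raw.up, hv, if_true]
    exact hx2 v hv hvY
  · intro ξ hξ hξY
    simp only [Raw.up, hξ, if_true]
    exact hy2 ξ hξ hξY

theorem CB_closed_empty (Γ : Gr L S) : Closed Γ (∅ : Set (L ⊕ S)) := fun _ _ h => absurd h (Set.notMem_empty _)

/-- plain one-level extension -/
theorem CB_step0 (hp : OK Γ p) : ∃ r, OK Γ r ∧ r ≤ p ∧ r.n = p.n + 1 ∧ r.u = p.u ∧ r.w = p.w := by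
  obtain ⟨r, h1, h2, h3, h4, h5, -⟩ := CB_step (CB_closed_empty Γ) hp (fun _ => 0) (fun _ => 0)
    (fun v _ ξ _ h => absurd h (Set.notMem_empty _)) ∅ ∅
  exact ⟨r, h1, h2, h3, h4, h5⟩

theorem CB_take_succ {α : Type} (l : List α) (k : ℕ) (d : α) (h : k < l.length) :
    l.take (k + 1) = l.take k ++ [l.getD k d] := by
  rw [List.take_add_one, List.getElem?_eq_getElem h]
  simp [List.getD, h]

/-- one step of the iteration -/
theorem CB_one (hY : Closed Γ Y) (hr : OK Γ r) (hq : OK Γ q) (hk : r.n + 1 ≤ q.n)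
    (hu : ∀ v ∈ r.u, Sum.inl v ∈ Y → v ∈ q.u ∧ r.a v = (q.a v).take r.n)
    (hw : ∀ ξ ∈ r.w, Sum.inr ξ ∈ Y → ξ ∈ q.w ∧ r.b ξ = (q.b ξ).take r.n)
    (hc : ∀ v ∈ r.u, ∀ ξ ∈ r.w, Sum.inl v ∈ Y → Sum.inr ξ ∈ Y → r.c v ξ = q.c v ξ)
    (FX : Finset (List Pt)) (FY : Finset (List Gt)) :
    ∃ r', OK Γ r' ∧ r' ≤ r ∧ r'.n = r.n + 1 ∧ r'.u = r.u ∧ r'.w = r.w ∧
      (∀ v ∈ r.u, Sum.inl v ∈ Y → r'.a v = (q.a v).take (r.n + 1)) ∧
      (∀ ξ ∈ r.w, Sum.inr ξ ∈ Y → r'.b ξ = (q.b ξ).take (r.n + 1)) ∧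
      (∀ v ∈ r.u, Sum.inl v ∉ Y → r'.a v ∉ FX) ∧
      (∀ ξ ∈ r.w, Sum.inr ξ ∉ Y → r'.b ξ ∉ FY) := by
  have ta : ∀ v ∈ r.u, Sum.inl v ∈ Y → (q.a v).take (r.n + 1) = r.a v ++ [(q.a v).getD r.n 0] := by
    intro v hv hvY
    rw [CB_take_succ _ _ 0 (by rw [hq.a_len v (hu v hv hvY).1]; omega), (hu v hv hvY).2]
  have tb : ∀ ξ ∈ r.w, Sum.inr ξ ∈ Y → (q.b ξ).take (r.n + 1) = r.b ξ ++ [(q.b ξ).getD r.n 0] := by
    intro ξ hξ hξY
    rw [CB_take_succ _ _ 0 (by rw [hq.b_len ξ (hw ξ hξ hξY).1]; omega), (hw ξ hξ hξY).2]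
  obtain ⟨r', h1, h2, h3, h4, h5, h6, h7, h8, h9⟩ := CB_step hY hr (fun v => (q.a v).getD r.n 0)
    (fun ξ => (q.b ξ).getD r.n 0) (by
      intro v hv ξ hξ hvY hξY hvξ hcr
      have he := hq.edge v (hu v hv hvY).1 ξ (hw ξ hξ hξY).1 hvξ (r.n + 1)
        (by rw [← hc v hv ξ hξ hvY hξY]; exact hcr) hk
      obtain ⟨l0, z, l0', g, e1, e2, -, e4⟩ := he
      rw [ta v hv hvY] at e1
      rw [tb ξ hξ hξY] at e2
      obtain ⟨f1, f2⟩ := List.append_inj' e1 rfl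
      obtain ⟨f3, f4⟩ := List.append_inj' e2 rfl
      have f2' : (q.a v).getD r.n 0 = z := by simpa using f2
      have f4' : (q.b ξ).getD r.n 0 = g := by simpa using f4
      simp only [f2', f4', f1, f3]
      exact e4) FX FY
  refine ⟨r', h1, h2, h3, h4, h5, ?_, ?_, h8, h9⟩
  · intro v hv hvY
    rw [h6 v hv hvY, ta v hv hvY]
  · intro ξ hξ hξY
    rw [h7 ξ hξ hξY, tb ξ hξ hξY]

theorem CB_res_u {v : L} : v ∈ (p.res Y).u ↔ v ∈ p.u ∧ Sum.inl v ∈ Y := by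
  classical
  simp [Raw.res]

theorem CB_res_w {ξ : S} : ξ ∈ (p.res Y).w ↔ ξ ∈ p.w ∧ Sum.inr ξ ∈ Y := by
  classical
  simp [Raw.res]

theorem CB_res_a {v : L} (h : Sum.inl v ∈ Y) : (p.res Y).a v = p.a v := by
  simp [Raw.res, h]

theorem CB_res_b {ξ : S} (h : Sum.inr ξ ∈ Y) : (p.res Y).b ξ = p.b ξ := by
  simp [Raw.res, h]

theorem CB_res_c {v : L} {ξ : S} (h : Sum.inl v ∈ Y) (h' : Sum.inr ξ ∈ Y) :
    (p.res Y).c v ξ = p.c v ξ := by
  simp [Raw.res, h, h']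

theorem CB_iter (hY : Closed Γ Y) (hp : OK Γ p) (hq : OK Γ q) (hqp : q ≤ p.res Y)
    (FX : Finset (List Pt)) (FY : Finset (List Gt)) (k : ℕ) (hk : p.n < k) (hkq : k ≤ q.n) :
    ∃ r, OK Γ r ∧ r ≤ p ∧ r.n = k ∧ r.u = p.u ∧ r.w = p.w ∧
      (∀ v ∈ p.u, Sum.inl v ∈ Y → r.a v = (q.a v).take k) ∧
      (∀ ξ ∈ p.w, Sum.inr ξ ∈ Y → r.b ξ = (q.b ξ).take k) ∧
      (∀ v ∈ p.u, Sum.inl v ∉ Y → (r.a v).take (p.n + 1) ∉ FX) ∧
      (∀ ξ ∈ p.w, Sum.inr ξ ∉ Y → (r.b ξ).take (p.n + 1) ∉ FY) := by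
  obtain ⟨-, l2, l3, l4, l5, l6⟩ := hqp
  have qu : ∀ v ∈ p.u, Sum.inl v ∈ Y → v ∈ q.u := fun v hv hvY => l2 (CB_res_u.2 ⟨hv, hvY⟩)
  have qw : ∀ ξ ∈ p.w, Sum.inr ξ ∈ Y → ξ ∈ q.w := fun ξ hξ hξY => l3 (CB_res_w.2 ⟨hξ, hξY⟩)
  have qc : ∀ v ∈ p.u, ∀ ξ ∈ p.w, Sum.inl v ∈ Y → Sum.inr ξ ∈ Y → p.c v ξ = q.c v ξ := by
    intro v hv ξ hξ hvY hξY
    rw [l6 v (CB_res_u.2 ⟨hv, hvY⟩) ξ (CB_res_w.2 ⟨hξ, hξY⟩), CB_res_c hvY hξY]
  induction k, hk using Nat.le_induction with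
  | base =>
    obtain ⟨r, h1, h2, h3, h4, h5, h6, h7, h8, h9⟩ := CB_one hY hp hq (by omega)
      (fun v hv hvY => ⟨qu v hv hvY, by
        have := l4 v (CB_res_u.2 ⟨hv, hvY⟩)
        rw [CB_res_a hvY, List.prefix_iff_eq_take, hp.a_len v hv] at this
        exact this⟩)
      (fun ξ hξ hξY => ⟨qw ξ hξ hξY, by
        have := l5 ξ (CB_res_w.2 ⟨hξ, hξY⟩)
        rw [CB_res_b hξY, List.prefix_iff_eq_take, hp.b_len ξ hξ] at this
        exact this⟩) qc FX FY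
    refine ⟨r, h1, h2, h3, h4, h5, h6, h7, ?_, ?_⟩
    · intro v hv hvY
      rw [List.take_of_length_le (by rw [h1.a_len v (h4 ▸ hv), h3])]
      exact h8 v hv hvY
    · intro ξ hξ hξY
      rw [List.take_of_length_le (by rw [h1.b_len ξ (h5 ▸ hξ), h3])]
      exact h9 ξ hξ hξY
  | succ k hk ih =>
    obtain ⟨r, h1, h2, h3, h4, h5, h6, h7, h8, h9⟩ := ih (by omega)
    have hk' : p.n + 1 ≤ k := hk
    obtain ⟨r', g1, g2, g3, g4, g5, g6, g7, -, -⟩ := CB_one hY h1 hq (by omega)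
      (fun v hv hvY => ⟨qu v (h4 ▸ hv) hvY, by rw [h3]; exact h6 v (h4 ▸ hv) hvY⟩)
      (fun ξ hξ hξY => ⟨qw ξ (h5 ▸ hξ) hξY, by rw [h3]; exact h7 ξ (h5 ▸ hξ) hξY⟩)
      (by
        intro v hv ξ hξ hvY hξY
        rw [h4] at hv
        rw [h5] at hξ
        rw [h2.2.2.2.2.2 v hv ξ hξ]
        exact qc v hv ξ hξ hvY hξY) ∅ ∅
    rw [h4, h3] at g6
    rw [h5, h3] at g7
    refine ⟨r', g1, g2.trans h2, by rw [g3, h3], by rw [g4, h4], by rw [g5, h5], g6, g7, ?_, ?_⟩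
    · intro v hv hvY
      have e1 : r.a v <+: r'.a v := g2.2.2.2.1 v (h4.symm ▸ hv)
      rw [List.prefix_iff_eq_take, h1.a_len v (h4.symm ▸ hv), h3] at e1
      have e2 : (r'.a v).take (p.n + 1) = (r.a v).take (p.n + 1) := by
        rw [e1, List.take_take, min_eq_left hk']
      rw [e2]
      exact h8 v hv hvY
    · intro ξ hξ hξY
      have e1 : r.b ξ <+: r'.b ξ := g2.2.2.2.2.1 ξ (h5.symm ▸ hξ)
      rw [List.prefix_iff_eq_take, h1.b_len ξ (h5.symm ▸ hξ), h3] at e1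
      have e2 : (r'.b ξ).take (p.n + 1) = (r.b ξ).take (p.n + 1) := by
        rw [e1, List.take_take, min_eq_left hk']
      rw [e2]
      exact h9 ξ hξ hξY

open Classical in
/-- the union of a condition and an extension of one of its restrictions -/
noncomputable def Raw.un (Γ : Gr L S) (p r q : Raw L S) : Raw L S where
  n := q.n
  u := p.u ∪ q.u
  w := p.w ∪ q.w
  a v := if v ∈ q.u then q.a v else r.a v
  b ξ := if ξ ∈ q.w then q.b ξ else r.b ξ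
  c v ξ := if v ∈ q.u ∧ ξ ∈ q.w then q.c v ξ else if v ∈ p.u ∧ ξ ∈ p.w then p.c v ξ else
    if v ∈ p.u ∪ q.u ∧ ξ ∈ p.w ∪ q.w ∧ v ∈ Γ.E ξ then q.n else 0

/-- the projection lemma when `q` has a larger level than `p` -/
theorem CB_proj (hY : Closed Γ Y) (hp : OK Γ p) (hq : OK Γ q) (hqY : q.In Y) (hqp : q ≤ p.res Y)
    (hn : p.n < q.n) (FX : Finset (List Pt)) (FY : Finset (List Gt)) :
    ∃ r, OK Γ r ∧ r ≤ p ∧ r ≤ q ∧ p.n < r.n ∧
      (∀ v ∈ p.u, Sum.inl v ∉ Y → (r.a v).take (p.n + 1) ∉ FX) ∧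
      (∀ ξ ∈ p.w, Sum.inr ξ ∉ Y → (r.b ξ).take (p.n + 1) ∉ FY) := by
  classical
  obtain ⟨r, h1, h2, h3, h4, h5, h6, h7, h8, h9⟩ := CB_iter hY hp hq hqp
    (FX ∪ q.u.image fun v => (q.a v).take (p.n + 1))
    (FY ∪ q.w.image fun ξ => (q.b ξ).take (p.n + 1)) q.n hn le_rfl
  obtain ⟨-, l2, l3, l4, l5, l6⟩ := hqp
  have qu : ∀ v ∈ p.u, Sum.inl v ∈ Y → v ∈ q.u := fun v hv hvY => l2 (CB_res_u.2 ⟨hv, hvY⟩)
  have qw : ∀ ξ ∈ p.w, Sum.inr ξ ∈ Y → ξ ∈ q.w := fun ξ hξ hξY => l3 (CB_res_w.2 ⟨hξ, hξY⟩)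
  have qu' : ∀ v ∈ p.u, v ∉ q.u → Sum.inl v ∉ Y := fun v hv hvq hvY => hvq (qu v hv hvY)
  have qw' : ∀ ξ ∈ p.w, ξ ∉ q.w → Sum.inr ξ ∉ Y := fun v hv hvq hvY => hvq (qw v hv hvY)
  have qc : ∀ v ∈ p.u, ∀ ξ ∈ p.w, v ∈ q.u → ξ ∈ q.w → q.c v ξ = p.c v ξ := by
    intro v hv ξ hξ hvq hξq
    have hvY := hqY.1 v hvq
    have hξY := hqY.2 ξ hξq
    rw [l6 v (CB_res_u.2 ⟨hv, hvY⟩) ξ (CB_res_w.2 ⟨hξ, hξY⟩), CB_res_c hvY hξY]
  -- `r.a = q.a` on the common part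
  have ra : ∀ v ∈ p.u, v ∈ q.u → r.a v = q.a v := by
    intro v hv hvq
    rw [h6 v hv (hqY.1 v hvq), List.take_of_length_le (by rw [hq.a_len v hvq])]
  have rb : ∀ ξ ∈ p.w, ξ ∈ q.w → r.b ξ = q.b ξ := by
    intro v hv hvq
    rw [h7 v hv (hqY.2 v hvq), List.take_of_length_le (by rw [hq.b_len v hvq])]
  have ra' : ∀ v ∈ p.u, (Raw.un Γ p r q).a v = r.a v := by
    intro v hv
    simp only [Raw.un]
    split_ifs with h
    · exact (ra v hv h).symm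
    · rfl
  have rb' : ∀ ξ ∈ p.w, (Raw.un Γ p r q).b ξ = r.b ξ := by
    intro v hv
    simp only [Raw.un]
    split_ifs with h
    · exact (rb v hv h).symm
    · rfl
  have qa' : ∀ v ∈ q.u, (Raw.un Γ p r q).a v = q.a v := by
    intro v hv
    simp only [Raw.un, hv, if_true]
  have qb' : ∀ v ∈ q.w, (Raw.un Γ p r q).b v = q.b v := by
    intro v hv
    simp only [Raw.un, hv, if_true]
  have rc : ∀ v ∈ p.u, ∀ ξ ∈ p.w, (Raw.un Γ p r q).c v ξ = p.c v ξ := by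
    intro v hv ξ hξ
    simp only [Raw.un, hv, hξ, and_self, if_true]
    split_ifs with h
    · exact qc v hv ξ hξ h.1 h.2
    · rfl
  have rc' : ∀ v ∈ q.u, ∀ ξ ∈ q.w, (Raw.un Γ p r q).c v ξ = q.c v ξ := by
    intro v hv ξ hξ
    simp only [Raw.un, hv, hξ, and_self, if_true]
  have hsep : ∀ v ∈ p.u, v ∉ q.u → ∀ v' ∈ q.u, r.a v ≠ q.a v' := by
    intro v hv hvq v' hv' he
    apply h8 v hv (qu' v hv hvq)
    rw [Finset.mem_union, Finset.mem_image]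
    exact Or.inr ⟨v', hv', by rw [he]⟩
  have hsepw : ∀ v ∈ p.w, v ∉ q.w → ∀ v' ∈ q.w, r.b v ≠ q.b v' := by
    intro v hv hvq v' hv' he
    apply h9 v hv (qw' v hv hvq)
    rw [Finset.mem_union, Finset.mem_image]
    exact Or.inr ⟨v', hv', by rw [he]⟩
  refine ⟨Raw.un Γ p r q, ?_, ?_, ?_, hn, ?_, ?_⟩
  · refine ⟨?_, ?_, ?_, ?_, ?_, ?_, ?_, ?_, ?_, ?_⟩
    · intro v hv
      rcases Finset.mem_union.1 hv with h | h
      · exact hp.uU v h
      · exact hq.uU v h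
    · intro v hv
      rcases Finset.mem_union.1 hv with h | h
      · exact hp.wW v h
      · exact hq.wW v h
    · intro v hv
      rcases Finset.mem_union.1 hv with h | h
      · rw [ra' v h, h1.a_len v (h4.symm ▸ h), h3]; rfl
      · rw [qa' v h, hq.a_len v h]; rfl
    · intro v hv
      have hv' : v ∉ p.u ∧ v ∉ q.u := by
        constructor
        · exact fun h => hv (Finset.mem_union_left _ h)
        · exact fun h => hv (Finset.mem_union_right _ h)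
      simp only [Raw.un, hv'.2, if_false]
      exact h1.a_out v (by rw [h4]; exact hv'.1)
    · intro v hv
      rcases Finset.mem_union.1 hv with h | h
      · rw [rb' v h, h1.b_len v (h5.symm ▸ h), h3]; rfl
      · rw [qb' v h, hq.b_len v h]; rfl
    · intro v hv
      have hv' : v ∉ p.w ∧ v ∉ q.w := by
        constructor
        · exact fun h => hv (Finset.mem_union_left _ h)
        · exact fun h => hv (Finset.mem_union_right _ h)
      simp only [Raw.un, hv'.2, if_false]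
      exact h1.b_out v (by rw [h5]; exact hv'.1)
    · intro v hv v' hv' he
      by_cases hvq : v ∈ q.u
      · rw [qa' v hvq] at he
        by_cases hvq' : v' ∈ q.u
        · rw [qa' v' hvq'] at he
          exact hq.a_inj v hvq v' hvq' he
        · have hvp : v' ∈ p.u := (Finset.mem_union.1 hv').resolve_right hvq'
          rw [ra' v' hvp] at he
          exact absurd he.symm (hsep v' hvp hvq' v hvq)
      · have hvp : v ∈ p.u := (Finset.mem_union.1 hv).resolve_right hvq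
        rw [ra' v hvp] at he
        by_cases hvq' : v' ∈ q.u
        · rw [qa' v' hvq'] at he
          exact absurd he (hsep v hvp hvq v' hvq')
        · have hvp' : v' ∈ p.u := (Finset.mem_union.1 hv').resolve_right hvq'
          rw [ra' v' hvp'] at he
          exact h1.a_inj v (h4.symm ▸ hvp) v' (h4.symm ▸ hvp') he
    · intro v hv v' hv' he
      by_cases hvq : v ∈ q.w
      · rw [qb' v hvq] at he
        by_cases hvq' : v' ∈ q.w
        · rw [qb' v' hvq'] at he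
          exact hq.b_inj v hvq v' hvq' he
        · have hvp : v' ∈ p.w := (Finset.mem_union.1 hv').resolve_right hvq'
          rw [rb' v' hvp] at he
          exact absurd he.symm (hsepw v' hvp hvq' v hvq)
      · have hvp : v ∈ p.w := (Finset.mem_union.1 hv).resolve_right hvq
        rw [rb' v hvp] at he
        by_cases hvq' : v' ∈ q.w
        · rw [qb' v' hvq'] at he
          exact absurd he (hsepw v hvp hvq v' hvq')
        · have hvp' : v' ∈ p.w := (Finset.mem_union.1 hv').resolve_right hvq'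
          rw [rb' v' hvp'] at he
          exact h1.b_inj v (h5.symm ▸ hvp) v' (h5.symm ▸ hvp') he
    · intro v ξ hne
      by_cases hvq : v ∈ q.u ∧ ξ ∈ q.w
      · rw [rc' v hvq.1 ξ hvq.2]
        apply hq.c_out
        rintro ⟨k1, k2, k3⟩
        exact hne ⟨Finset.mem_union_right _ k1, Finset.mem_union_right _ k2, k3⟩
      · by_cases hvp : v ∈ p.u ∧ ξ ∈ p.w
        · rw [rc v hvp.1 ξ hvp.2]
          apply hp.c_out
          rintro ⟨k1, k2, k3⟩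
          exact hne ⟨Finset.mem_union_left _ k1, Finset.mem_union_left _ k2, k3⟩
        · simp only [Raw.un, hvq, hvp, if_false]
          rw [if_neg]
          exact hne
    · intro v hv ξ hξ hvξ m hm hmn
      by_cases hvq : v ∈ q.u ∧ ξ ∈ q.w
      · rw [rc' v hvq.1 ξ hvq.2] at hm
        rw [qa' v hvq.1, qb' ξ hvq.2]
        exact hq.edge v hvq.1 ξ hvq.2 hvξ m hm hmn
      · by_cases hvp : v ∈ p.u ∧ ξ ∈ p.w
        · rw [rc v hvp.1 ξ hvp.2] at hm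
          rw [ra' v hvp.1, rb' ξ hvp.2]
          have k1 : v ∈ r.u := h4.symm ▸ hvp.1
          have k2 : ξ ∈ r.w := h5.symm ▸ hvp.2
          refine h1.edge v k1 ξ k2 hvξ m ?_ (by rw [h3]; exact hmn)
          rw [h2.2.2.2.2.2 v hvp.1 ξ hvp.2]
          exact hm
        · exfalso
          simp only [Raw.un, hvq, hvp, if_false] at hm
          rw [if_pos ⟨hv, hξ, hvξ⟩] at hm
          have hmn' : m ≤ q.n := hmn
          omega
  · refine ⟨hn.le, Finset.subset_union_left, Finset.subset_union_left, ?_, ?_, rc⟩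
    · intro v hv
      rw [ra' v hv]
      exact h2.2.2.2.1 v hv
    · intro v hv
      rw [rb' v hv]
      exact h2.2.2.2.2.1 v hv
  · refine ⟨le_rfl, Finset.subset_union_right, Finset.subset_union_right, ?_, ?_, rc'⟩
    · intro v hv
      rw [qa' v hv]
    · intro v hv
      rw [qb' v hv]
  · intro v hv hvY hF
    rw [ra' v hv] at hF
    exact h8 v hv hvY (Finset.mem_union_left _ hF)
  · intro v hv hvY hF
    rw [rb' v hv] at hF
    exact h9 v hv hvY (Finset.mem_union_left _ hF)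

/-- the projection lemma: if `q` is supported in the closed set `Y` and extends `p.res Y` then `p`
and `q` have a common extension, and the new nodes can avoid finitely many values -/
theorem proj (hY : Closed Γ Y) (hp : OK Γ p) (hq : OK Γ q) (hqY : q.In Y) (hqp : q ≤ p.res Y)
    (FX : Finset (List Pt)) (FY : Finset (List Gt)) :
    ∃ r, OK Γ r ∧ r ≤ p ∧ r ≤ q ∧ p.n < r.n ∧
      (∀ v ∈ p.u, Sum.inl v ∉ Y → (r.a v).take (p.n + 1) ∉ FX) ∧
      (∀ ξ ∈ p.w, Sum.inr ξ ∉ Y → (r.b ξ).take (p.n + 1) ∉ FY) := by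
  obtain ⟨q', h1, h2, h3, h4, h5⟩ := CB_step0 hq
  have hn : p.n ≤ q.n := hqp.1
  obtain ⟨r, g1, g2, g3, g4⟩ := CB_proj hY hp h1
    ⟨fun v hv => hqY.1 v (h4 ▸ hv), fun ξ hξ => hqY.2 ξ (h5 ▸ hξ)⟩ (h2.trans hqp) (by omega) FX FY
  exact ⟨r, g1, g2, g3.trans h2, g4⟩

/-- the projection lemma, short form -/
theorem proj' (hY : Closed Γ Y) (hp : OK Γ p) (hq : OK Γ q) (hqY : q.In Y)
    (hqp : q ≤ p.res Y) : ∃ r, OK Γ r ∧ r ≤ p ∧ r ≤ q := by
  obtain ⟨r, h1, h2, h3, -⟩ := proj hY hp hq hqY hqp ∅ ∅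
  exact ⟨r, h1, h2, h3⟩

theorem ext_n (hp : OK Γ p) (N : ℕ) : ∃ r ≤ p, OK Γ r ∧ N ≤ r.n := by
  induction N with
  | zero => exact ⟨p, le_rfl, hp, Nat.zero_le _⟩
  | succ N ih =>
    obtain ⟨r, h1, h2, h3⟩ := ih
    obtain ⟨r', g1, g2, g3, -⟩ := CB_step0 h2
    exact ⟨r', g2.trans h1, g1, by omega⟩

open Classical in
theorem ext_u (hp : OK Γ p) {v : L} (hv : v ∈ Γ.U) : ∃ r ≤ p, OK Γ r ∧ v ∈ r.u := by
  by_cases hvp : v ∈ p.u
  · exact ⟨p, le_rfl, hp, hvp⟩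
  let q : Raw L S := ⟨p.n, {v}, ∅, fun v' => if v' = v then List.replicate p.n 0 else [],
    fun _ => [], fun _ _ => 0⟩
  have hq : OK Γ q := by
    refine ⟨?_, ?_, ?_, ?_, ?_, ?_, ?_, ?_, fun _ _ _ => rfl, ?_⟩
    · intro v' hv'
      rw [Finset.mem_singleton.1 hv']; exact hv
    · intro ξ hξ; exact absurd hξ (Finset.notMem_empty _)
    · intro v' hv'
      rw [Finset.mem_singleton.1 hv']
      simp [q]
    · intro v' hv'
      have : v' ≠ v := fun h => hv' (Finset.mem_singleton.2 h)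
      simp [q, this]
    · intro ξ hξ; exact absurd hξ (Finset.notMem_empty _)
    · intro ξ _; rfl
    · intro v1 h1 v2 h2 _
      rw [Finset.mem_singleton.1 h1, Finset.mem_singleton.1 h2]
    · intro ξ hξ; exact absurd hξ (Finset.notMem_empty _)
    · intro _ _ ξ hξ; exact absurd hξ (Finset.notMem_empty _)
  obtain ⟨r, h1, h2, h3⟩ := proj' (Y := {Sum.inl v}) (by
      intro ξ _ hξ
      exact absurd hξ (by simp)) hp hq
    ⟨fun v' hv' => by rw [Finset.mem_singleton.1 hv']; rfl, fun ξ hξ => absurd hξ (Finset.notMem_empty _)⟩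
    (by
      have hu : (p.res {Sum.inl v}).u = ∅ := by
        apply Finset.eq_empty_of_forall_notMem
        intro v' hv'
        rw [CB_res_u] at hv'
        have : v' = v := by simpa using hv'.2
        exact hvp (this ▸ hv'.1)
      have hw : (p.res {Sum.inl v}).w = ∅ := by
        apply Finset.eq_empty_of_forall_notMem
        intro ξ hξ
        rw [CB_res_w] at hξ
        simp at hξ
      refine ⟨le_rfl, by rw [hu]; exact Finset.empty_subset _, by rw [hw],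
        ?_, ?_, ?_⟩
      · rw [hu]; intro v' hv'; exact absurd hv' (Finset.notMem_empty _)
      · rw [hw]; intro v' hv'; exact absurd hv' (Finset.notMem_empty _)
      · rw [hu]; intro v' hv'; exact absurd hv' (Finset.notMem_empty _))
  exact ⟨r, h2, h1, h3.2.1 (Finset.mem_singleton_self v)⟩

open Classical in
theorem ext_w (hp : OK Γ p) {ξ : S} (hξ : ξ ∈ Γ.W) : ∃ r ≤ p, OK Γ r ∧ ξ ∈ r.w := by
  by_cases hξp : ξ ∈ p.w
  · exact ⟨p, le_rfl, hp, hξp⟩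
  let Y : Set (L ⊕ S) := {z | z = Sum.inr ξ ∨ ∃ v, z = Sum.inl v}
  have hYl : ∀ v : L, Sum.inl v ∈ Y := fun v => Or.inr ⟨v, rfl⟩
  have hYr : ∀ ζ : S, Sum.inr ζ ∈ Y → ζ = ξ := by
    intro ζ hζ
    rcases hζ with h | ⟨v, h⟩
    · exact Sum.inr.inj h
    · exact absurd h (by simp)
  let q : Raw L S := ⟨p.n, p.u, {ξ}, p.a, fun ζ => if ζ = ξ then List.replicate p.n 0 else [],
    fun v ζ => if v ∈ p.u ∧ ζ = ξ ∧ v ∈ Γ.E ξ then p.n else 0⟩
  have hq : OK Γ q := by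
    refine ⟨hp.uU, ?_, hp.a_len, hp.a_out, ?_, ?_, hp.a_inj, ?_, ?_, ?_⟩
    · intro ζ hζ
      rw [Finset.mem_singleton.1 hζ]; exact hξ
    · intro ζ hζ
      rw [Finset.mem_singleton.1 hζ]
      simp [q]
    · intro ζ hζ
      have : ζ ≠ ξ := fun h => hζ (Finset.mem_singleton.2 h)
      simp [q, this]
    · intro v1 h1 v2 h2 _
      rw [Finset.mem_singleton.1 h1, Finset.mem_singleton.1 h2]
    · intro v ζ hne
      show (if v ∈ p.u ∧ ζ = ξ ∧ v ∈ Γ.E ξ then p.n else 0) = 0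
      rw [if_neg]
      rintro ⟨k1, k2, k3⟩
      exact hne ⟨k1, Finset.mem_singleton.2 k2, k2 ▸ k3⟩
    · intro v hv ζ hζ hvζ m hm hmn
      exfalso
      have hζ' : ζ = ξ := Finset.mem_singleton.1 hζ
      subst hζ'
      have hm' : (if v ∈ p.u ∧ ζ = ζ ∧ v ∈ Γ.E ζ then p.n else 0) < m := hm
      rw [if_pos ⟨hv, rfl, hvζ⟩] at hm'
      have hmn' : m ≤ p.n := hmn
      omega
  obtain ⟨r, h1, h2, h3⟩ := proj' (Y := Y) (fun _ _ _ v _ => hYl v) hp hq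
    ⟨fun v _ => hYl v, fun ζ hζ => Or.inl (congrArg Sum.inr (Finset.mem_singleton.1 hζ))⟩
    (by
      have hw : (p.res Y).w = ∅ := by
        apply Finset.eq_empty_of_forall_notMem
        intro ζ hζ
        rw [CB_res_w] at hζ
        exact hξp (hYr ζ hζ.2 ▸ hζ.1)
      refine ⟨le_rfl, ?_, by rw [hw]; exact Finset.empty_subset _, ?_, ?_, ?_⟩
      · intro v hv
        exact (CB_res_u.1 hv).1
      · intro v hv
        rw [CB_res_a (hYl v)]
      · rw [hw]; intro v' hv'; exact absurd hv' (Finset.notMem_empty _)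
      · rw [hw]; intro v _ v' hv'; exact absurd hv' (Finset.notMem_empty _))
  exact ⟨r, h2, h1, h3.2.2.1 (Finset.mem_singleton_self ξ)⟩

end MP186633L

/-!
# MP_186633_lc: counting conditions
-/

namespace MP186633L

open Cardinal

variable {L S : Type} {Γ : Gr L S} {p q r s : Raw L S} {Y Z C : Set (L ⊕ S)}

theorem card_finset_le {α : Type} {κ : Cardinal.{0}} (hκ : ℵ₀ ≤ κ) (h : #α ≤ κ) :
    #(Finset α) ≤ κ := by
  classical
  have h1 : #(Finset α) ≤ #(List α) := by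
    refine Cardinal.mk_le_of_surjective (f := fun l : List α => l.toFinset) ?_
    intro s
    exact ⟨s.toList, by simp⟩
  exact h1.trans ((Cardinal.mk_list_le_max α).trans (max_le hκ h))

theorem card_prod_le {α β : Type} {κ : Cardinal.{0}} (hκ : ℵ₀ ≤ κ) (h : #α ≤ κ) (h' : #β ≤ κ) :
    #(α × β) ≤ κ := by
  rw [Cardinal.mk_prod, Cardinal.lift_id, Cardinal.lift_id]
  exact Cardinal.mul_le_of_le hκ h h'

open Classical in
/-- the code of a condition -/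
noncomputable def codeOK (Y : Set (L ⊕ S)) (p : Raw L S) (h : p.In Y) :
    ℕ × Finset (Y × List Pt) × Finset (Y × List Gt) × Finset (Y × (Y × ℕ)) :=
  (p.n, p.u.attach.image fun v => (⟨Sum.inl v.1, h.1 v.1 v.2⟩, p.a v.1),
    p.w.attach.image fun ξ => (⟨Sum.inr ξ.1, h.2 ξ.1 ξ.2⟩, p.b ξ.1),
    (p.u.attach ×ˢ p.w.attach).image fun x =>
      (⟨Sum.inl x.1.1, h.1 x.1.1 x.1.2⟩, (⟨Sum.inr x.2.1, h.2 x.2.1 x.2.2⟩, p.c x.1.1 x.2.1)))

theorem codeOK_inj (hp : OK Γ p) (hq : OK Γ q) (h : p.In Y) (h' : q.In Y)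
    (e : codeOK Y p h = codeOK Y q h') : p = q := by
  classical
  unfold codeOK at e
  simp only [Prod.mk.injEq] at e
  obtain ⟨e1, e2, e3, e4⟩ := e
  have f2 : ∀ (p q : Raw L S) (h : p.In Y) (h' : q.In Y),
      (p.u.attach.image fun v => ((⟨Sum.inl v.1, h.1 v.1 v.2⟩ : Y), p.a v.1)) =
        (q.u.attach.image fun v => ((⟨Sum.inl v.1, h'.1 v.1 v.2⟩ : Y), q.a v.1)) →
      ∀ v ∈ p.u, v ∈ q.u ∧ q.a v = p.a v := by
    intro p q h h' e v hv
    have h1 : ((⟨Sum.inl v, h.1 v hv⟩ : Y), p.a v) ∈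
        (p.u.attach.image fun v => ((⟨Sum.inl v.1, h.1 v.1 v.2⟩ : Y), p.a v.1)) :=
      Finset.mem_image.2 ⟨⟨v, hv⟩, Finset.mem_attach _ _, rfl⟩
    rw [e, Finset.mem_image] at h1
    obtain ⟨⟨v', hv'⟩, -, h2⟩ := h1
    simp only [Prod.mk.injEq, Subtype.mk.injEq, Sum.inl.injEq] at h2
    obtain ⟨rfl, h3⟩ := h2
    exact ⟨hv', h3⟩
  have f3 : ∀ (p q : Raw L S) (h : p.In Y) (h' : q.In Y),
      (p.w.attach.image fun v => ((⟨Sum.inr v.1, h.2 v.1 v.2⟩ : Y), p.b v.1)) =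
        (q.w.attach.image fun v => ((⟨Sum.inr v.1, h'.2 v.1 v.2⟩ : Y), q.b v.1)) →
      ∀ v ∈ p.w, v ∈ q.w ∧ q.b v = p.b v := by
    intro p q h h' e v hv
    have h1 : ((⟨Sum.inr v, h.2 v hv⟩ : Y), p.b v) ∈
        (p.w.attach.image fun v => ((⟨Sum.inr v.1, h.2 v.1 v.2⟩ : Y), p.b v.1)) :=
      Finset.mem_image.2 ⟨⟨v, hv⟩, Finset.mem_attach _ _, rfl⟩
    rw [e, Finset.mem_image] at h1
    obtain ⟨⟨v', hv'⟩, -, h2⟩ := h1
    simp only [Prod.mk.injEq, Subtype.mk.injEq, Sum.inr.injEq] at h2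
    obtain ⟨rfl, h3⟩ := h2
    exact ⟨hv', h3⟩
  have g2 := f2 p q h h' e2
  have g2' := f2 q p h' h e2.symm
  have g3 := f3 p q h h' e3
  have g3' := f3 q p h' h e3.symm
  have hu : p.u = q.u := by
    ext v
    exact ⟨fun hv => (g2 v hv).1, fun hv => (g2' v hv).1⟩
  have hw : p.w = q.w := by
    ext v
    exact ⟨fun hv => (g3 v hv).1, fun hv => (g3' v hv).1⟩
  have ha : p.a = q.a := by
    funext v
    by_cases hv : v ∈ p.u
    · exact (g2 v hv).2.symm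
    · rw [hp.a_out v hv, hq.a_out v (hu ▸ hv)]
  have hb : p.b = q.b := by
    funext v
    by_cases hv : v ∈ p.w
    · exact (g3 v hv).2.symm
    · rw [hp.b_out v hv, hq.b_out v (hw ▸ hv)]
  have hc : p.c = q.c := by
    funext v ξ
    by_cases hv : v ∈ p.u ∧ ξ ∈ p.w
    · have h1 : (((⟨Sum.inl v, h.1 v hv.1⟩ : Y), ((⟨Sum.inr ξ, h.2 ξ hv.2⟩ : Y), p.c v ξ))) ∈
          ((p.u.attach ×ˢ p.w.attach).image fun x =>
      ((⟨Sum.inl x.1.1, h.1 x.1.1 x.1.2⟩ : Y),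
        ((⟨Sum.inr x.2.1, h.2 x.2.1 x.2.2⟩ : Y), p.c x.1.1 x.2.1))) :=
        Finset.mem_image.2 ⟨(⟨v, hv.1⟩, ⟨ξ, hv.2⟩),
          Finset.mem_product.2 ⟨Finset.mem_attach _ _, Finset.mem_attach _ _⟩, rfl⟩
      rw [e4, Finset.mem_image] at h1
      obtain ⟨⟨⟨v', hv'⟩, ⟨ξ', hξ'⟩⟩, -, h2⟩ := h1
      simp only [Prod.mk.injEq, Subtype.mk.injEq, Sum.inr.injEq, Sum.inl.injEq] at h2
      obtain ⟨rfl, rfl, h3⟩ := h2
      exact h3.symm
    · have hv' : ¬ (v ∈ q.u ∧ ξ ∈ q.w) := by rwa [← hu, ← hw]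
      rw [hp.c_out v ξ (fun h => hv ⟨h.1, h.2.1⟩), hq.c_out v ξ (fun h => hv' ⟨h.1, h.2.1⟩)]
  cases p
  cases q
  simp only [Raw.mk.injEq]
  exact ⟨e1, hu, hw, ha, hb, hc⟩

/-- cardinality of the set of conditions supported in a set -/
theorem card_ok (Γ : Gr L S) (Y : Set (L ⊕ S)) (κ : Cardinal.{0}) (hκ : ℵ₀ ≤ κ) (hY : #Y ≤ κ) :
    #{p : Raw L S | OK Γ p ∧ p.In Y} ≤ κ := by
  have h1 : #{p : Raw L S | OK Γ p ∧ p.In Y} ≤
      #(ℕ × Finset (Y × List Pt) × Finset (Y × List Gt) × Finset (Y × (Y × ℕ))) := by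
    refine Cardinal.mk_le_of_injective
      (f := fun p : {p : Raw L S | OK Γ p ∧ p.In Y} => codeOK Y p.1 p.2.2) ?_
    intro p q e
    exact Subtype.ext (codeOK_inj p.2.1 q.2.1 p.2.2 q.2.2 e)
  have hN : #ℕ ≤ κ := by rwa [Cardinal.mk_nat]
  have hP : #(List Pt) ≤ κ := (Cardinal.mk_le_aleph0).trans hκ
  have hG : #(List Gt) ≤ κ := (Cardinal.mk_le_aleph0).trans hκ
  refine h1.trans ?_
  refine card_prod_le hκ hN (card_prod_le hκ (card_finset_le hκ (card_prod_le hκ hY hP)) ?_)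
  exact card_prod_le hκ (card_finset_le hκ (card_prod_le hκ hY hG))
    (card_finset_le hκ (card_prod_le hκ hY (card_prod_le hκ hY hN)))

/-- there are only countably many conditions supported in a countable set -/
theorem countable_ok (Γ : Gr L S) (hC : C.Countable) : {p : Raw L S | OK Γ p ∧ p.In C}.Countable := by
  rw [← Cardinal.le_aleph0_iff_set_countable] at hC ⊢
  exact card_ok Γ C ℵ₀ le_rfl hC

end MP186633L

/-!
# MP_186633_lc: counting names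
-/

namespace MP186633L

open Cardinal

variable {L S : Type} {Γ : Gr L S} {p q r s : Raw L S} {Y Z C : Set (L ⊕ S)}

/-- cardinality of the set of names -/
theorem card_RN (Γ : Gr L S) (Y : Set (L ⊕ S)) (κ : Cardinal.{0}) (hκ : κ ^ ℵ₀ = κ)
    (hκ0 : ℵ₀ ≤ κ) (hY : #Y ≤ κ) : #{D : Nm L S | RN Γ Y D} ≤ κ := by
  have hP := card_ok Γ Y κ hκ0 hY
  set P : Set (Raw L S) := {p : Raw L S | OK Γ p ∧ p.In Y} with hPdef
  have hT : #{t : Set (Raw L S) // t ⊆ P ∧ #t ≤ ℵ₀} ≤ κ := by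
    refine (Cardinal.mk_bounded_subset_le P ℵ₀).trans ?_
    calc (max #P ℵ₀) ^ ℵ₀ ≤ κ ^ ℵ₀ :=
          Cardinal.power_le_power_right (max_le hP hκ0)
      _ = κ := hκ
  have h1 : #{D : Nm L S | RN Γ Y D} ≤
      #(ℕ → ℕ → {t : Set (Raw L S) // t ⊆ P ∧ #t ≤ ℵ₀}) := by
    refine Cardinal.mk_le_of_injective
      (f := fun D : {D : Nm L S | RN Γ Y D} => fun n m =>
        (⟨D.1 n m, fun p hp => ⟨D.2.ok hp, D.2.supp hp⟩,
          (Cardinal.le_aleph0_iff_set_countable).2 (D.2.ctbl n m)⟩ :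
          {t : Set (Raw L S) // t ⊆ P ∧ #t ≤ ℵ₀})) ?_
    intro D D' e
    refine Subtype.ext ?_
    funext n m
    have := congrFun (congrFun e n) m
    exact congrArg Subtype.val this
  refine h1.trans ?_
  have h2 : ∀ {β : Type}, #β ≤ κ → #(ℕ → β) ≤ κ := by
    intro β hβ
    rw [← Cardinal.power_def, Cardinal.mk_nat]
    calc #β ^ ℵ₀ ≤ κ ^ ℵ₀ := Cardinal.power_le_power_right hβ
      _ = κ := hκ
  exact h2 (h2 hT)

end MP186633L

/-!
# MP_186633_lc: the cardinals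
-/

namespace MP186633L

open Cardinal

theorem cont_le_ν (m : ℕ) : 𝔠 ≤ ν m := by
  induction m with
  | zero => exact le_rfl
  | succ m ih => exact ih.trans (Order.le_succ _)

theorem aleph0_le_ν (m : ℕ) : ℵ₀ ≤ ν m := aleph0_le_continuum.trans (cont_le_ν m)

theorem aleph1_le_ν (m : ℕ) : ℵ_ 1 ≤ ν m := aleph_one_le_continuum.trans (cont_le_ν m)

theorem ν_mono {m n : ℕ} (h : m ≤ n) : ν m ≤ ν n :=
  monotone_nat_of_le_succ (f := ν) (fun _ => Order.le_succ _) h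

theorem ν_le_Θ (m : ℕ) : ν m ≤ Θ :=
  (le_ciSup bddAbove_of_small m).trans (cantor _).le

theorem cont_le_Θ : 𝔠 ≤ Θ := ν_le_Θ 0

theorem aleph0_le_Θ : ℵ₀ ≤ Θ := (aleph0_le_ν 0).trans (ν_le_Θ 0)

theorem Θ_pow : Θ ^ ℵ₀ = Θ := by
  unfold Θ
  rw [← power_mul]
  congr 1
  have h : ℵ₀ ≤ ⨆ m, ν m := (aleph0_le_ν 0).trans (le_ciSup bddAbove_of_small 0)
  exact mul_eq_left h h aleph0_ne_zero

theorem mk_Lam : #Lam = Order.succ Θ := mk_ord_toType _

/-- outside a set of size at most `Θ` there is a point -/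
theorem exists_new (U : Set Lam) (hU : #U ≤ Θ) : ∃ v, v ∉ U := by
  by_contra h
  push Not at h
  have h1 : U = Set.univ := Set.eq_univ_of_forall h
  rw [h1, mk_univ, mk_Lam] at hU
  exact (Order.lt_succ Θ).not_ge hU

end MP186633L

/-!
# MP_186633_lc: strong closures
-/

namespace MP186633L

open Cardinal

variable {L S : Type} {Γ : Gr L S} {p q r s : Raw L S} {Y Z C : Set (L ⊕ S)}

/-- the vertices which have to be added because of one vertex -/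
def strongNb (Γ : Gr L S) : L ⊕ S → Set (L ⊕ S)
  | Sum.inl v => {x | ∃ ξ ∈ Γ.W, x = Sum.inr ξ ∧ v ∈ Γ.E ξ ∧ v ∉ Γ.c ξ}
  | Sum.inr ξ => {x | ξ ∈ Γ.W ∧ ∃ v ∈ Γ.E ξ, x = Sum.inl v}

theorem strongNb_card (Γ : Gr L S) (x : L ⊕ S) : #(strongNb Γ x) ≤ ℵ_ 1 := by
  have h1 : (1 : Cardinal.{0}) ≤ ℵ_ 1 := one_le_aleph0.trans (aleph0_le_aleph 1)
  rcases x with v | ξ
  · refine le_trans ?_ h1
    rw [le_one_iff_subsingleton]
    constructor
    rintro ⟨x, ξ, hξ, rfl, h2, h3⟩ ⟨y, ζ, hζ, rfl, h4, h5⟩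
    by_cases h : ξ = ζ
    · subst h
      rfl
    · rcases Γ.disj ξ hξ ζ hζ h v h2 h4 with h6 | h6
      · exact absurd h6 h3
      · exact absurd h6 h5
  · by_cases hξ : ξ ∈ Γ.W
    · have h2 : strongNb Γ (Sum.inr ξ) ⊆ Sum.inl '' Γ.E ξ := by
        rintro x ⟨-, v, hv, rfl⟩
        exact ⟨v, hv, rfl⟩
      exact (mk_le_mk_of_subset h2).trans (mk_image_le.trans (Γ.E_card ξ hξ))
    · have h2 : strongNb Γ (Sum.inr ξ) = ∅ := by
        ext x
        simp only [strongNb, Set.mem_ofPred_eq, Set.mem_empty_iff_false, iff_false]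
        exact fun h => hξ h.1
      rw [h2]
      simp

theorem strongNb_dom (Γ : Gr L S) (x : L ⊕ S) : strongNb Γ x ⊆ Γ.dom := by
  rcases x with v | ξ
  · rintro y ⟨ξ, hξ, rfl, -, -⟩
    exact Or.inr ⟨ξ, hξ, rfl⟩
  · rintro y ⟨hξ, v, hv, rfl⟩
    exact Or.inl ⟨v, Γ.E_sub ξ hξ hv, rfl⟩

/-- iterated closure -/
def strongIt (Γ : Gr L S) (X : Set (L ⊕ S)) : ℕ → Set (L ⊕ S)
  | 0 => X
  | n + 1 => strongIt Γ X n ∪ ⋃ x ∈ strongIt Γ X n, strongNb Γ x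

/-- every set of vertices is contained in a strong set of the same cardinality -/
theorem exists_strong (Γ : Gr L S) (X : Set (L ⊕ S)) (hX : X ⊆ Γ.dom) (κ : Cardinal.{0})
    (hκ : ℵ_ 1 ≤ κ) (hXκ : #X ≤ κ) : ∃ Y, X ⊆ Y ∧ Y ⊆ Γ.dom ∧ #Y ≤ κ ∧ Strong Γ Y := by
  have hκ0 : ℵ₀ ≤ κ := (aleph0_le_aleph 1).trans hκ
  refine ⟨⋃ n, strongIt Γ X n, ?_, ?_, ?_, ?_, ?_⟩
  · exact Set.subset_iUnion (strongIt Γ X) 0
  · refine Set.iUnion_subset fun n => ?_
    induction n with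
    | zero => exact hX
    | succ n ih =>
      exact Set.union_subset ih (Set.iUnion₂_subset fun x _ => strongNb_dom Γ x)
  · have h1 : ∀ n, #(strongIt Γ X n) ≤ κ := by
      intro n
      induction n with
      | zero => exact hXκ
      | succ n ih =>
        refine (mk_union_le _ _).trans ?_
        have h2 : #(⋃ x ∈ strongIt Γ X n, strongNb Γ x : Set (L ⊕ S)) ≤ κ := by
          refine (mk_biUnion_le _ _).trans ?_
          have h3 : (⨆ x : strongIt Γ X n, #(strongNb Γ x.1)) ≤ κ :=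
            ciSup_le' fun x => (strongNb_card Γ x.1).trans hκ
          calc #(strongIt Γ X n) * (⨆ x : strongIt Γ X n, #(strongNb Γ x.1)) ≤ κ * κ :=
                mul_le_mul' ih h3
            _ = κ := mul_eq_self hκ0
        calc #(strongIt Γ X n) + #(⋃ x ∈ strongIt Γ X n, strongNb Γ x : Set (L ⊕ S)) ≤ κ + κ :=
              add_le_add ih h2
          _ = κ := add_eq_self hκ0
    have h4 := mk_iUnion_le_lift (fun n : ℕ => strongIt Γ X n)
    simp only [lift_uzero, mk_eq_aleph0] at h4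
    refine h4.trans ?_
    calc ℵ₀ * (⨆ n : ℕ, #(strongIt Γ X n)) ≤ κ * κ := mul_le_mul' hκ0 (ciSup_le' h1)
      _ = κ := mul_eq_self hκ0
  · intro ξ hξ hY v hv
    obtain ⟨n, hn⟩ := Set.mem_iUnion.1 hY
    exact Set.mem_iUnion.2 ⟨n + 1, Or.inr (Set.mem_iUnion₂.2 ⟨_, hn, hξ, v, hv, rfl⟩)⟩
  · intro ξ hξ v hv hvc hY
    obtain ⟨n, hn⟩ := Set.mem_iUnion.1 hY
    exact Set.mem_iUnion.2 ⟨n + 1, Or.inr (Set.mem_iUnion₂.2 ⟨_, hn, ξ, hξ, rfl, hv, hvc⟩)⟩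

end MP186633L

/-!
# MP_186633_lc: two lines meet in at most one point (finite form)
-/

namespace MP186633L

/-- values at a later place determine the values at earlier places -/
theorem anc_unique {d e : ℕ → ℕ → Prop} (h : Good d e) {n N : ℕ} (x x' : ℕ → ℕ)
    (hx : ∀ j, n ≤ j → j < N → d (x j) (x (j + 1)))
    (hx' : ∀ j, n ≤ j → j < N → d (x' j) (x' (j + 1)))
    (hnN : n ≤ N) (heq : x N = x' N) : x n = x' n := by
  induction N, hnN using Nat.le_induction with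
  | base => exact heq
  | succ N hN ih =>
    refine ih (fun j hj hj' => hx j hj (by omega)) (fun j hj hj' => hx' j hj (by omega)) ?_
    have h1 := hx N hN (Nat.lt_succ_self N)
    have h2 := hx' N hN (Nat.lt_succ_self N)
    rw [← heq] at h2
    exact h.par h1 h2

/-- If two left points are related to two right points which differ at `n`, and the left points
agree at `n`, then the left points agree from `n` on. -/
theorem line_unique {d e : ℕ → ℕ → Prop} (h : Good d e) {n N : ℕ} (x x' y y' : ℕ → ℕ)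
    (hx : ∀ j, n ≤ j → j < N → d (x j) (x (j + 1)))
    (hx' : ∀ j, n ≤ j → j < N → d (x' j) (x' (j + 1)))
    (hy : ∀ j, n ≤ j → j < N → d (y j) (y (j + 1)))
    (hy' : ∀ j, n ≤ j → j < N → d (y' j) (y' (j + 1)))
    (h1 : ∀ j, n ≤ j → j ≤ N → e (x j) (y j)) (h2 : ∀ j, n ≤ j → j ≤ N → e (x' j) (y j))
    (h3 : ∀ j, n ≤ j → j ≤ N → e (x j) (y' j)) (h4 : ∀ j, n ≤ j → j ≤ N → e (x' j) (y' j))
    (hne : y n ≠ y' n) (heq : x n = x' n) (hnN : n ≤ N) : x N = x' N := by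
  induction N, hnN using Nat.le_induction with
  | base => exact heq
  | succ N hN ih =>
    have hxN : x N = x' N := ih (fun j hj hj' => hx j hj (by omega))
      (fun j hj hj' => hx' j hj (by omega)) (fun j hj hj' => hy j hj (by omega))
      (fun j hj hj' => hy' j hj (by omega)) (fun j hj hj' => h1 j hj (by omega))
      (fun j hj hj' => h2 j hj (by omega)) (fun j hj hj' => h3 j hj (by omega))
      (fun j hj hj' => h4 j hj (by omega))
    have hyN : y N ≠ y' N := by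
      intro hc
      exact hne (anc_unique h y y' (fun j hj hj' => hy j hj (by omega))
        (fun j hj hj' => hy' j hj (by omega)) hN hc)
    have a1 := hx N hN (Nat.lt_succ_self N)
    have a2 := hx' N hN (Nat.lt_succ_self N)
    rw [← hxN] at a2
    exact h.line a1 a2 (hy N hN (Nat.lt_succ_self N)) (hy' N hN (Nat.lt_succ_self N)) hyN
      (h1 (N + 1) (by omega) le_rfl) (h2 (N + 1) (by omega) le_rfl)
      (h3 (N + 1) (by omega) le_rfl) (h4 (N + 1) (by omega) le_rfl)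

end MP186633L
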