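import Pool.Agent.Lib.MP_186633_lc.QA

/-!
# MP_186633_lc: gluing, the countable chain condition
-/

namespace MP186633L

open Cardinal

variable {L S : Type} {Γ : Gr L S} {p q r s : Raw L S} {Y Z C : Set (L ⊕ S)}

theorem Closed.union (hY : Closed Γ Y) (hZ : Closed Γ Z) : Closed Γ (Y ∪ Z) := by
  intro ξ hξ h v hv
  rcases h with h | h
  · exact Or.inl (hY ξ hξ h v hv)
  · exact Or.inr (hZ ξ hξ h v hv)

theorem Closed.inter (hY : Closed Γ Y) (hZ : Closed Γ Z) : Closed Γ (Y ∩ Z) := by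
  intro ξ hξ h v hv
  exact ⟨hY ξ hξ h.1 v hv, hZ ξ hξ h.2 v hv⟩

theorem Strong.closed (hY : Strong Γ Y) : Closed Γ Y := by
  intro ξ hξ h v hv
  exact hY.full ξ hξ h v (Γ.c_sub ξ hξ hv)

theorem Strong.dom (Γ : Gr L S) : Strong Γ Γ.dom := by
  constructor
  · intro ξ hξ _ v hv
    exact Or.inl ⟨v, Γ.E_sub ξ hξ hv, rfl⟩
  · intro ξ hξ v _ _ _
    exact Or.inr ⟨ξ, hξ, rfl⟩

/-- gluing over a strong set and a closed set -/
theorem glue (hY : Strong Γ Y) (hC : Closed Γ C) (hs : OK Γ s) (hp : OK Γ p)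
    (hsupp : p.In (C ∪ Y)) (h1 : s ≤ p.res C) (h2 : s ≤ p.res Y) : s ≤ p := by
  classical
  obtain ⟨g1, g2, g3, g4, g5, g6⟩ := h1
  obtain ⟨_, k2, k3, k4, k5, k6⟩ := h2
  have muC : ∀ v ∈ p.u, Sum.inl v ∈ C → v ∈ (p.res C).u := by
    intro v hv h
    simp only [Raw.res, Finset.mem_filter]
    exact ⟨hv, h⟩
  have muY : ∀ v ∈ p.u, Sum.inl v ∈ Y → v ∈ (p.res Y).u := by
    intro v hv h
    simp only [Raw.res, Finset.mem_filter]
    exact ⟨hv, h⟩
  have mwC : ∀ ξ ∈ p.w, Sum.inr ξ ∈ C → ξ ∈ (p.res C).w := by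
    intro v hv h
    simp only [Raw.res, Finset.mem_filter]
    exact ⟨hv, h⟩
  have mwY : ∀ ξ ∈ p.w, Sum.inr ξ ∈ Y → ξ ∈ (p.res Y).w := by
    intro v hv h
    simp only [Raw.res, Finset.mem_filter]
    exact ⟨hv, h⟩
  have hu : ∀ v ∈ p.u, v ∈ s.u := by
    intro v hv
    rcases hsupp.1 v hv with h | h
    · exact g2 (muC v hv h)
    · exact k2 (muY v hv h)
  have hw : ∀ ξ ∈ p.w, ξ ∈ s.w := by
    intro ξ hξ
    rcases hsupp.2 ξ hξ with h | h
    · exact g3 (mwC ξ hξ h)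
    · exact k3 (mwY ξ hξ h)
  refine ⟨g1, hu, hw, ?_, ?_, ?_⟩
  · intro v hv
    rcases hsupp.1 v hv with h | h
    · have := g4 v (muC v hv h)
      simpa [Raw.res, h] using this
    · have := k4 v (muY v hv h)
      simpa [Raw.res, h] using this
  · intro ξ hξ
    rcases hsupp.2 ξ hξ with h | h
    · have := g5 ξ (mwC ξ hξ h)
      simpa [Raw.res, h] using this
    · have := k5 ξ (mwY ξ hξ h)
      simpa [Raw.res, h] using this
  · intro v hv ξ hξ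
    by_cases hE : v ∈ Γ.E ξ
    · have key : (Sum.inl v ∈ C ∧ Sum.inr ξ ∈ C) ∨ (Sum.inl v ∈ Y ∧ Sum.inr ξ ∈ Y) := by
        rcases hsupp.2 ξ hξ with h | h
        · rcases hsupp.1 v hv with h' | h'
          · exact Or.inl ⟨h', h⟩
          · by_cases hc : v ∈ Γ.c ξ
            · exact Or.inl ⟨hC ξ (hp.wW ξ hξ) h v hc, h⟩
            · exact Or.inr ⟨h', hY.up ξ (hp.wW ξ hξ) v hE hc h'⟩
        · exact Or.inr ⟨hY.full ξ (hp.wW ξ hξ) h v hE, h⟩
      rcases key with ⟨a, b⟩ | ⟨a, b⟩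
      · have := g6 v (muC v hv a) ξ (mwC ξ hξ b)
        simpa [Raw.res, a, b] using this
      · have := k6 v (muY v hv a) ξ (mwY ξ hξ b)
        simpa [Raw.res, a, b] using this
    · rw [hs.c_out v ξ (fun h => hE h.2.2), hp.c_out v ξ (fun h => hE h.2.2)]

/-- every countable set of vertices is contained in a countable closed set -/
theorem exists_closed (Γ : Gr L S) (X : Set (L ⊕ S)) (hX : X.Countable) :
    ∃ C, X ⊆ C ∧ C.Countable ∧ Closed Γ C := by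
  refine ⟨X ∪ ⋃ ξ ∈ {ξ | Sum.inr ξ ∈ X ∧ ξ ∈ Γ.W}, Sum.inl '' Γ.c ξ, Set.subset_union_left,
    ?_, ?_⟩
  · refine hX.union (Set.Countable.biUnion ?_ ?_)
    · have : Set.Countable (Sum.inr ⁻¹' X : Set S) := hX.preimage Sum.inr_injective
      exact this.mono fun ξ h => h.1
    · intro ξ h
      exact (Γ.c_ctbl ξ h.2).image _
  · intro ξ hξ h v hv
    rcases h with h | h
    · refine Or.inr ?_
      simp only [Set.mem_iUnion]
      exact ⟨ξ, ⟨h, hξ⟩, v, hv, rfl⟩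
    · simp only [Set.mem_iUnion] at h
      obtain ⟨_, _, w, _, hw⟩ := h
      cases hw

/-- the support of a condition -/
def Raw.sp (p : Raw L S) : Set (L ⊕ S) := Sum.inl '' (p.u : Set L) ∪ Sum.inr '' (p.w : Set S)

theorem Raw.sp_finite (p : Raw L S) : p.sp.Finite :=
  (p.u.finite_toSet.image _).union (p.w.finite_toSet.image _)

theorem Raw.In_iff_sp (p : Raw L S) (Y : Set (L ⊕ S)) : p.In Y ↔ p.sp ⊆ Y := by
  constructor
  · rintro ⟨h1, h2⟩ x (⟨v, hv, rfl⟩ | ⟨ξ, hξ, rfl⟩)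
    · exact h1 v hv
    · exact h2 ξ hξ
  · intro h
    exact ⟨fun v hv => h (Or.inl ⟨v, hv, rfl⟩), fun ξ hξ => h (Or.inr ⟨ξ, hξ, rfl⟩)⟩

/-- the countable chain condition -/
theorem ccc (Γ : Gr L S) (A : Set (Raw L S)) (hA : ∀ p ∈ A, OK Γ p)
    (hanti : ∀ p ∈ A, ∀ q ∈ A, p ≠ q → ¬ Cpt Γ p q) : A.Countable := by
  classical
  -- the support of a chosen member of `A` below `q`
  let ps : Raw L S → Raw L S := fun q => if h : ∃ p ∈ A, p ≤ q then h.choose else q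
  have hps : ∀ q, (∃ p ∈ A, p ≤ q) → ps q ∈ A ∧ ps q ≤ q := by
    intro q h
    have : ps q = h.choose := dif_pos h
    rw [this]
    exact h.choose_spec
  have step : ∀ K : {K : Set (L ⊕ S) // K.Countable ∧ Closed Γ K},
      ∃ K' : {K : Set (L ⊕ S) // K.Countable ∧ Closed Γ K}, K.1 ⊆ K'.1 ∧
        ∀ q, OK Γ q → q.In K.1 → (ps q).In K'.1 := by
    intro K
    obtain ⟨C, h1, h2, h3⟩ := exists_closed Γ
      (K.1 ∪ ⋃ q ∈ {q : Raw L S | OK Γ q ∧ q.In K.1}, (ps q).sp)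
      (K.2.1.union ((countable_ok Γ K.2.1).biUnion fun q _ => (ps q).sp_finite.countable))
    refine ⟨⟨C, h2, h3⟩, Set.subset_union_left.trans h1, ?_⟩
    intro q hq hqK
    rw [Raw.In_iff_sp]
    refine Set.Subset.trans ?_ h1
    refine Set.Subset.trans ?_ Set.subset_union_right
    intro x hx
    simp only [Set.mem_iUnion]
    exact ⟨q, ⟨hq, hqK⟩, hx⟩
  choose f hf1 hf2 using step
  obtain ⟨C0, _, c2, c3⟩ := exists_closed Γ ∅ Set.countable_empty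
  let K : ℕ → {K : Set (L ⊕ S) // K.Countable ∧ Closed Γ K} :=
    fun n => Nat.rec ⟨C0, c2, c3⟩ (fun _ K => f K) n
  have hK : ∀ n, K (n + 1) = f (K n) := fun n => rfl
  have hmono : Monotone fun n => (K n).1 := by
    apply monotone_nat_of_le_succ
    intro n
    change (K n).1 ⊆ (K (n + 1)).1
    rw [hK]
    exact hf1 _
  have hUc : (⋃ n, (K n).1).Countable := Set.countable_iUnion fun n => (K n).2.1
  have hUcl : Closed Γ (⋃ n, (K n).1) := by
    intro ξ hξ h v hv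
    rw [Set.mem_iUnion] at h ⊢
    obtain ⟨n, h⟩ := h
    exact ⟨n, (K n).2.2 ξ hξ h v hv⟩
  refine (countable_ok Γ hUc).mono ?_
  intro p hp
  refine ⟨hA p hp, ?_⟩
  have hq : OK Γ (p.res (⋃ n, (K n).1)) := (hA p hp).res _
  have hqU : (p.res (⋃ n, (K n).1)).In (⋃ n, (K n).1) := Raw.res_In _ _
  have hqn : ∃ n, (p.res (⋃ n, (K n).1)).In (K n).1 := by
    rw [Raw.In_iff_sp] at hqU
    have := DirectedOn.exists_mem_subset_of_finite_of_subset_sUnion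
      (c := Set.range fun n => (K n).1) (Set.range_nonempty _)
      (by
        rintro _ ⟨m, rfl⟩ _ ⟨n, rfl⟩
        exact ⟨_, ⟨max m n, rfl⟩, hmono (le_max_left m n), hmono (le_max_right m n)⟩)
      (Raw.sp_finite _) (by rw [Set.sUnion_range]; exact hqU)
    obtain ⟨_, ⟨n, rfl⟩, h⟩ := this
    exact ⟨n, (Raw.In_iff_sp _ _).2 h⟩
  obtain ⟨n, hn⟩ := hqn
  obtain ⟨h1, h2⟩ := hps _ ⟨p, hp, le_res p (⋃ n, (K n).1)⟩
  have h3 : (ps (p.res (⋃ n, (K n).1))).In (⋃ n, (K n).1) := by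
    refine (hf2 _ _ hq hn).mono ?_
    rw [← hK]
    exact Set.subset_iUnion (fun n => (K n).1) (n + 1)
  have h4 : Cpt Γ p (ps (p.res (⋃ n, (K n).1))) := proj' hUcl (hA p hp) (hA _ h1) h3 h2
  by_cases h5 : p = ps (p.res (⋃ n, (K n).1))
  · rw [h5]
    exact h3
  · exact absurd h4 (hanti p hp _ h1 h5)

/-- every set of conditions has a countable subset which is predense below every member -/
theorem exists_predense (Γ : Gr L S) (A : Set (Raw L S)) (hA : ∀ p ∈ A, OK Γ p) :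
    ∃ B ⊆ A, B.Countable ∧ (∀ p ∈ B, ∀ q ∈ B, p ≠ q → ¬ Cpt Γ p q) ∧
      ∀ p ∈ A, ∃ q ∈ B, Cpt Γ p q := by
  classical
  have csymm : ∀ {p q : Raw L S}, Cpt Γ p q → Cpt Γ q p := by
    rintro p q ⟨r, h1, h2, h3⟩
    exact ⟨r, h1, h3, h2⟩
  obtain ⟨B, hB⟩ := zorn_subset
    {B : Set (Raw L S) | B ⊆ A ∧ ∀ p ∈ B, ∀ q ∈ B, p ≠ q → ¬ Cpt Γ p q}
    (by
      intro c hc hchain
      refine ⟨⋃₀ c, ⟨?_, ?_⟩, fun s hs => Set.subset_sUnion_of_mem hs⟩
      · exact Set.sUnion_subset fun s hs => (hc hs).1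
      · rintro p ⟨s, hs, hps⟩ q ⟨t, ht, hqt⟩ hpq
        rcases hchain.total hs ht with h | h
        · exact (hc ht).2 p (h hps) q hqt hpq
        · exact (hc hs).2 p hps q (h hqt) hpq)
  refine ⟨B, hB.prop.1, ccc Γ B (fun p hp => hA p (hB.prop.1 hp)) hB.prop.2, hB.prop.2, ?_⟩
  intro p hp
  by_contra hcon
  push Not at hcon
  have hmem : insert p B ∈
      {B : Set (Raw L S) | B ⊆ A ∧ ∀ p ∈ B, ∀ q ∈ B, p ≠ q → ¬ Cpt Γ p q} := by
    refine ⟨Set.insert_subset hp hB.prop.1, ?_⟩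
    rintro x (rfl | hx) y (rfl | hy) hxy
    · exact absurd rfl hxy
    · exact hcon y hy
    · exact fun h => hcon x hx (csymm h)
    · exact hB.prop.2 x hx y hy hxy
  have hpB : p ∈ B := hB.le_of_ge hmem (Set.subset_insert p B) (Set.mem_insert p B)
  exact hcon p hpB ⟨p, hA p hp, le_rfl, le_rfl⟩

end MP186633L

/-!
# MP_186633_lc: names for reals over a fixed graph
-/

namespace MP186633L

open Cardinal

variable {L S : Type} {Γ : Gr L S} {p q r s : Raw L S} {Y Z C : Set (L ⊕ S)}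
  {D D' D'' : Nm L S} {d e : ℕ → ℕ → Prop} {n m m' k N : ℕ}

theorem RN.mono (hD : RN Γ Y D) (h : Y ⊆ Z) : RN Γ Z D :=
  ⟨hD.ok, fun hp => (hD.supp hp).mono h, hD.ctbl, hD.func, hD.total⟩

theorem RN.dom (hD : RN Γ Y D) : RN Γ Γ.dom D :=
  ⟨hD.ok, fun hp => (hD.ok hp).In_dom, hD.ctbl, hD.func, hD.total⟩

theorem RN.exists_ctbl (hD : RN Γ Y D) : ∃ C ⊆ Y, C.Countable ∧ RN Γ C D := by
  refine ⟨⋃ n, ⋃ m, ⋃ p ∈ D n m, (Sum.inl '' (p.u : Set L) ∪ Sum.inr '' (p.w : Set S)),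
    ?_, ?_, ?_⟩
  · refine Set.iUnion_subset fun n => Set.iUnion_subset fun m => Set.iUnion₂_subset fun p hp => ?_
    rintro x (⟨v, hv, rfl⟩ | ⟨ξ, hξ, rfl⟩)
    · exact (hD.supp hp).1 v hv
    · exact (hD.supp hp).2 ξ hξ
  · refine Set.countable_iUnion fun n => Set.countable_iUnion fun m =>
      (hD.ctbl n m).biUnion fun p _ => ?_
    exact ((p.u.countable_toSet.image _).union (p.w.countable_toSet.image _))
  · refine ⟨hD.ok, fun {n m p} hp => ⟨fun v hv => ?_, fun ξ hξ => ?_⟩, hD.ctbl, hD.func, hD.total⟩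
    · exact Set.mem_iUnion.2 ⟨n, Set.mem_iUnion.2 ⟨m, Set.mem_iUnion₂.2 ⟨p, hp,
        Or.inl ⟨v, hv, rfl⟩⟩⟩⟩
    · exact Set.mem_iUnion.2 ⟨n, Set.mem_iUnion.2 ⟨m, Set.mem_iUnion₂.2 ⟨p, hp,
        Or.inr ⟨ξ, hξ, rfl⟩⟩⟩⟩

theorem Vl.mono (h : Vl Γ D n m p) (hq : q ≤ p) : Vl Γ D n m q :=
  fun p' hp' hok => h p' (hp'.trans hq) hok

theorem Vl.func (hD : RN Γ Y D) (hp : OK Γ p) (h : Vl Γ D n m p) (h' : Vl Γ D n m' p) :
    m = m' := by
  obtain ⟨p1, hp1, hok1, b, hb, hb1⟩ := h p le_rfl hp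
  obtain ⟨p2, hp2, hok2, b', hb', hb2⟩ := h' p1 hp1 hok1
  exact hD.func hb hb' ⟨p2, hok2, hp2.trans hb1, hb2⟩

theorem Vl.reg (h : ∀ q ≤ p, OK Γ q → ∃ r ≤ q, OK Γ r ∧ Vl Γ D n m r) : Vl Γ D n m p := by
  intro p' hp' hok
  obtain ⟨r, hr, hrok, hV⟩ := h p' hp' hok
  obtain ⟨s, hs, hsok, b, hb, hsb⟩ := hV r le_rfl hrok
  exact ⟨s, hs.trans hr, hsok, b, hb, hsb⟩

theorem exists_Vl (hD : RN Γ Y D) (hp : OK Γ p) (n : ℕ) :
    ∃ q ≤ p, OK Γ q ∧ ∃ m, Vl Γ D n m q := by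
  obtain ⟨m, b, hb, r, hr, hrp, hrb⟩ := hD.total n hp
  exact ⟨r, hrp, hr, m, fun p' hp' hok => ⟨p', le_rfl, hok, b, hb, hp'.trans hrb⟩⟩

/-- decide finitely many values -/
theorem exists_Vl_all (hD : RN Γ Y D) (hp : OK Γ p) (N : ℕ) :
    ∃ q ≤ p, OK Γ q ∧ ∃ x : ℕ → ℕ, ∀ n ≤ N, Vl Γ D n (x n) q := by
  induction N with
  | zero =>
    obtain ⟨q, hq, hok, m, hm⟩ := exists_Vl hD hp 0
    refine ⟨q, hq, hok, fun _ => m, fun n hn => ?_⟩
    obtain rfl : n = 0 := Nat.le_zero.1 hn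
    exact hm
  | succ N ih =>
    obtain ⟨q, hq, hok, x, hx⟩ := ih
    obtain ⟨r, hr, hrok, m, hm⟩ := exists_Vl hD hok (N + 1)
    refine ⟨r, hr.trans hq, hrok, fun n => if n = N + 1 then m else x n, fun n hn => ?_⟩
    by_cases h : n = N + 1
    · subst h
      simpa using hm
    · have h1 : n ≤ N := by omega
      simp only [h, if_false]
      exact (hx n h1).mono hr

/-- the restriction of an extension of `p.res Y` to `Y` is below `p.res Y` -/
theorem res_le_res' (h : q ≤ p.res Y) : q.res Y ≤ p.res Y :=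
  res_le h (Raw.res_In p Y)

/-- values depend only on the restriction to the support -/
theorem Vl.res_iff (hY : Closed Γ Y) (hD : RN Γ Y D) (hp : OK Γ p) :
    Vl Γ D n m (p.res Y) ↔ Vl Γ D n m p := by
  constructor
  · intro h p' hp' hok
    obtain ⟨q, hq, hqok, b, hb, hqb⟩ := h (p'.res Y) (res_le_res hp' Y) (hok.res Y)
    obtain ⟨r, hr, hrp, hrq⟩ := proj' hY hok (hqok.res Y) (Raw.res_In q Y) (res_le_res' hq)
    exact ⟨r, hrp, hr, b, hb, hrq.trans (res_le hqb (hD.supp hb))⟩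
  · intro h q hq hqok
    obtain ⟨q1, hq1, hq1ok, m1, hm1⟩ := exists_Vl hD hqok n
    obtain ⟨q2, hq2, hq2ok, b1, hb1, hqb1⟩ := hm1 q1 le_rfl hq1ok
    have h2 : q2 ≤ p.res Y := hq2.trans (hq1.trans hq)
    obtain ⟨r, hr, hrp, hrq⟩ := proj' hY hp (hq2ok.res Y) (Raw.res_In q2 Y) (res_le_res' h2)
    obtain ⟨r', hr', hr'ok, b, hb, hrb⟩ := h r hrp hr
    have h3 : m = m1 := hD.func hb hb1 ⟨r', hr'ok, hrb,
      hr'.trans (hrq.trans (res_le hqb1 (hD.supp hb1)))⟩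
    subst h3
    exact ⟨q2, hq2.trans hq1, hq2ok, b1, hb1, hqb1⟩

theorem EqN.mono (h : EqN Γ D D' p) (hq : q ≤ p) : EqN Γ D D' q :=
  fun n m m' p' hp' => h n m m' p' (hp'.trans hq)

theorem EqN.refl (hD : RN Γ Y D) (p : Raw L S) : EqN Γ D D p :=
  fun _ _ _ _ _ hok h h' => Vl.func hD hok h h'

theorem EqN.symm (h : EqN Γ D D' p) : EqN Γ D' D p :=
  fun n m m' p' hp' hok h1 h2 => (h n m' m p' hp' hok h2 h1).symm

theorem EqN.trans (hD' : RN Γ Y D') (h : EqN Γ D D' p) (h' : EqN Γ D' D'' p) :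
    EqN Γ D D'' p := by
  intro n m m' p' hp' hok h1 h2
  obtain ⟨q, hq, hqok, m1, hm1⟩ := exists_Vl hD' hok n
  exact (h n m m1 q (hq.trans hp') hqok (h1.mono hq) hm1).trans
    (h' n m1 m' q (hq.trans hp') hqok hm1 (h2.mono hq))

theorem EqN.vl (hD' : RN Γ Y D') (h : EqN Γ D D' p) (hV : Vl Γ D n m p) :
    Vl Γ D' n m p := by
  refine Vl.reg fun q hq hok => ?_
  obtain ⟨r, hr, hrok, m1, hm1⟩ := exists_Vl hD' hok n
  have h1 : m = m1 := h n m m1 r (hr.trans hq) hrok (hV.mono (hr.trans hq)) hm1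
  subst h1
  exact ⟨r, hr, hrok, hm1⟩

theorem EqN.reg (hD : RN Γ Y D) (hD' : RN Γ Z D')
    (h : ∀ q ≤ p, OK Γ q → ∃ r ≤ q, OK Γ r ∧ EqN Γ D D' r) : EqN Γ D D' p := by
  intro n m m' p' hp' hok h1 h2
  obtain ⟨r, hr, hrok, hE⟩ := h p' hp' hok
  exact hE n m m' r le_rfl hrok (h1.mono hr) (h2.mono hr)

theorem EqN.res_iff (hY : Closed Γ Y) (hD : RN Γ Y D) (hD' : RN Γ Y D') (hp : OK Γ p) :
    EqN Γ D D' (p.res Y) ↔ EqN Γ D D' p := by
  constructor
  · intro h n m m' p' hp' hok h1 h2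
    exact h n m m' (p'.res Y) (res_le_res hp' Y) (hok.res Y) ((Vl.res_iff hY hD hok).2 h1)
      ((Vl.res_iff hY hD' hok).2 h2)
  · intro h n m m' q hq hok h1 h2
    obtain ⟨r, hr, hrp, hrq⟩ := proj' hY hp (hok.res Y) (Raw.res_In q Y) (res_le_res' hq)
    exact h n m m' r hrp hr (((Vl.res_iff hY hD hok).2 h1).mono hrq)
      (((Vl.res_iff hY hD' hok).2 h2).mono hrq)

theorem RelK.mono (h : RelK Γ d e k D D' p) (hq : q ≤ p) : RelK Γ d e k D D' q :=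
  ⟨fun h1 h2 => h.brL (h1.trans hq) h2, fun h1 h2 => h.brR (h1.trans hq) h2,
    fun h0 h1 h2 => h.rel h0 (h1.trans hq) h2⟩

theorem RelK.res_iff (hY : Closed Γ Y) (hD : RN Γ Y D) (hD' : RN Γ Y D') (hp : OK Γ p) :
    RelK Γ d e k D D' (p.res Y) ↔ RelK Γ d e k D D' p := by
  constructor
  · intro h
    refine ⟨fun {n m m' p'} hp' hok h1 h2 => ?_, fun {n m m' p'} hp' hok h1 h2 => ?_,
      fun {n m m' p'} hk hp' hok h1 h2 => ?_⟩
    · exact h.brL (res_le_res hp' Y) (hok.res Y) ((Vl.res_iff hY hD hok).2 h1)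
        ((Vl.res_iff hY hD hok).2 h2)
    · exact h.brR (res_le_res hp' Y) (hok.res Y) ((Vl.res_iff hY hD' hok).2 h1)
        ((Vl.res_iff hY hD' hok).2 h2)
    · exact h.rel hk (res_le_res hp' Y) (hok.res Y) ((Vl.res_iff hY hD hok).2 h1)
        ((Vl.res_iff hY hD' hok).2 h2)
  · intro h
    refine ⟨fun {n m m' q} hq hok h1 h2 => ?_, fun {n m m' q} hq hok h1 h2 => ?_,
      fun {n m m' q} hk hq hok h1 h2 => ?_⟩
    · obtain ⟨r, hr, hrp, hrq⟩ := proj' hY hp (hok.res Y) (Raw.res_In q Y) (res_le_res' hq)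
      exact h.brL hrp hr (((Vl.res_iff hY hD hok).2 h1).mono hrq)
        (((Vl.res_iff hY hD hok).2 h2).mono hrq)
    · obtain ⟨r, hr, hrp, hrq⟩ := proj' hY hp (hok.res Y) (Raw.res_In q Y) (res_le_res' hq)
      exact h.brR hrp hr (((Vl.res_iff hY hD' hok).2 h1).mono hrq)
        (((Vl.res_iff hY hD' hok).2 h2).mono hrq)
    · obtain ⟨r, hr, hrp, hrq⟩ := proj' hY hp (hok.res Y) (Raw.res_In q Y) (res_le_res' hq)
      exact h.rel hk hrp hr (((Vl.res_iff hY hD hok).2 h1).mono hrq)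
        (((Vl.res_iff hY hD' hok).2 h2).mono hrq)

theorem RelN.mono (h : RelN Γ d e D D' p) (hq : q ≤ p) : RelN Γ d e D D' q :=
  fun p' hp' hok => h p' (hp'.trans hq) hok

theorem RelN.res_iff (hY : Closed Γ Y) (hD : RN Γ Y D) (hD' : RN Γ Y D') (hp : OK Γ p) :
    RelN Γ d e D D' (p.res Y) ↔ RelN Γ d e D D' p := by
  constructor
  · intro h p' hp' hok
    obtain ⟨q, hq, hqok, k, hk⟩ := h (p'.res Y) (res_le_res hp' Y) (hok.res Y)
    obtain ⟨r, hr, hrp, hrq⟩ := proj' hY hok (hqok.res Y) (Raw.res_In q Y) (res_le_res' hq)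
    exact ⟨r, hrp, hr, k, ((RelK.res_iff hY hD hD' hqok).2 hk).mono hrq⟩
  · intro h q hq hok
    obtain ⟨r, hr, hrp, hrq⟩ := proj' hY hp (hok.res Y) (Raw.res_In q Y) (res_le_res' hq)
    obtain ⟨r', hr', hr'ok, k, hk⟩ := h r hrp hr
    have h1 : r'.res Y ≤ q.res Y := res_le (hr'.trans hrq) (Raw.res_In q Y)
    obtain ⟨s, hs, hsq, hsr⟩ := proj' hY hok (hr'ok.res Y) (Raw.res_In r' Y) h1
    exact ⟨s, hsq, hs, k, ((RelK.res_iff hY hD hD' hr'ok).2 hk).mono hsr⟩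

/-- the relation respects equality of names -/
theorem RelN.congr {D1 D2 D1' D2' : Nm L S} (h1 : RN Γ Y D1) (h1' : RN Γ Y D1')
    (h2 : RN Γ Y D2) (h2' : RN Γ Y D2') (e1 : EqN Γ D1 D1' p) (e2 : EqN Γ D2 D2' p)
    (h : RelN Γ d e D1 D2 p) : RelN Γ d e D1' D2' p := by
  intro p' hp' hok
  obtain ⟨q, hq, hqok, k, hk⟩ := h p' hp' hok
  refine ⟨q, hq, hqok, k, ?_, ?_, ?_⟩
  · intro n m m' r hr hrok h3 h4
    have e1' : EqN Γ D1' D1 r := (e1.mono (hr.trans (hq.trans hp'))).symm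
    exact hk.brL hr hrok (EqN.vl h1 e1' h3) (EqN.vl h1 e1' h4)
  · intro n m m' r hr hrok h3 h4
    have e2' : EqN Γ D2' D2 r := (e2.mono (hr.trans (hq.trans hp'))).symm
    exact hk.brR hr hrok (EqN.vl h2 e2' h3) (EqN.vl h2 e2' h4)
  · intro n m m' r hkn hr hrok h3 h4
    have e1' : EqN Γ D1' D1 r := (e1.mono (hr.trans (hq.trans hp'))).symm
    have e2' : EqN Γ D2' D2 r := (e2.mono (hr.trans (hq.trans hp'))).symm
    exact hk.rel hkn hr hrok (EqN.vl h1 e1' h3) (EqN.vl h2 e2' h4)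

end MP186633L

/-!
# MP_186633_lc: the generic points attached to the vertices
-/

namespace MP186633L

variable {L S : Type} {Γ : Gr L S} {p q r s : Raw L S} {Y Z C : Set (L ⊕ S)}
  {D D' D'' : Nm L S} {n m m' k N : ℕ}

/-- the generic point attached to the left vertex `v` -/
def aN (v : L) : Nm L S := fun n m => {p | p.n = n ∧ p.u = {v} ∧ p.w = ∅ ∧
  (∀ v' ≠ v, p.a v' = []) ∧ (∀ ξ, p.b ξ = []) ∧ (∀ v' ξ, p.c v' ξ = 0) ∧
  (p.a v).length = n ∧ cX (p.a v) = m}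

/-- the generic point attached to the right vertex `ξ` -/
def bN (ξ : S) : Nm L S := fun n m => {p | p.n = n ∧ p.u = ∅ ∧ p.w = {ξ} ∧
  (∀ ξ' ≠ ξ, p.b ξ' = []) ∧ (∀ v, p.a v = []) ∧ (∀ v ξ', p.c v ξ' = 0) ∧
  (p.b ξ).length = n ∧ cY (p.b ξ) = m}

open Classical in
/-- the condition with only vertex `v` and node `l` -/
noncomputable def sA (S : Type) (v : L) (l : List Pt) : Raw L S :=
  ⟨l.length, {v}, ∅, fun x => if x = v then l else [], fun _ => [], fun _ _ => 0⟩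

open Classical in
/-- the condition with only vertex `ξ` and node `l` -/
noncomputable def sB (L : Type) (ξ : S) (l : List Gt) : Raw L S :=
  ⟨l.length, ∅, {ξ}, fun _ => [], fun x => if x = ξ then l else [], fun _ _ => 0⟩

theorem sA_mem (v : L) (l : List Pt) (hl : l.length = n) :
    sA S v l ∈ (aN v : Nm L S) n (cX l) := by
  refine ⟨hl, rfl, rfl, fun v' hv' => by simp [sA, hv'], fun _ => rfl, fun _ _ => rfl, ?_, ?_⟩
  · simpa [sA] using hl
  · simp [sA]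

theorem sB_mem (ξ : S) (l : List Gt) (hl : l.length = n) :
    sB L ξ l ∈ (bN ξ : Nm L S) n (cY l) := by
  refine ⟨hl, rfl, rfl, fun v' hv' => by simp [sB, hv'], fun _ => rfl, fun _ _ => rfl, ?_, ?_⟩
  · simpa [sB] using hl
  · simp [sB]

theorem aN_eq {v : L} (h : p ∈ (aN v : Nm L S) n m) : p = sA S v (p.a v) := by
  obtain ⟨h1, h2, h3, h4, h5, h6, h7, h8⟩ := h
  obtain ⟨pn, pu, pw, pa, pb, pc⟩ := p
  simp only at h1 h2 h3 h4 h5 h6 h7 h8
  subst h2 h3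
  simp only [sA, Raw.mk.injEq, true_and]
  refine ⟨h1.trans h7.symm, ?_, funext h5, funext fun v' => funext (h6 v')⟩
  funext x
  by_cases hx : x = v
  · simp [hx]
  · simp [hx, h4 x hx]

theorem bN_eq {ξ : S} (h : p ∈ (bN ξ : Nm L S) n m) : p = sB L ξ (p.b ξ) := by
  obtain ⟨h1, h2, h3, h4, h5, h6, h7, h8⟩ := h
  obtain ⟨pn, pu, pw, pa, pb, pc⟩ := p
  simp only at h1 h2 h3 h4 h5 h6 h7 h8
  subst h2 h3
  simp only [sB, Raw.mk.injEq, true_and]
  refine ⟨h1.trans h7.symm, funext h5, ?_, funext fun v' => funext (h6 v')⟩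
  funext x
  by_cases hx : x = ξ
  · simp [hx]
  · simp [hx, h4 x hx]

theorem le_sA {v : L} {l : List Pt} (h1 : l.length ≤ r.n) (h2 : v ∈ r.u) (h3 : l <+: r.a v) :
    r ≤ sA S v l := by
  refine ⟨h1, by simpa [sA] using h2, by simp [sA], ?_, by simp [sA], by simp [sA]⟩
  intro v' hv'
  have : v' = v := by simpa [sA] using hv'
  subst this
  simpa [sA] using h3

theorem le_sB {ξ : S} {l : List Gt} (h1 : l.length ≤ r.n) (h2 : ξ ∈ r.w) (h3 : l <+: r.b ξ) :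
    r ≤ sB L ξ l := by
  refine ⟨h1, by simp [sB], by simpa [sB] using h2, by simp [sB], ?_, by simp [sB]⟩
  intro v' hv'
  have : v' = ξ := by simpa [sB] using hv'
  subst this
  simpa [sB] using h3

theorem of_le_aN {v : L} (hb : q ∈ (aN v : Nm L S) n m) (h : r ≤ q) :
    v ∈ r.u ∧ q.a v <+: r.a v := by
  have hv : v ∈ q.u := by rw [hb.2.1]; simp
  exact ⟨h.2.1 hv, h.2.2.2.1 v hv⟩

theorem of_le_bN {ξ : S} (hb : q ∈ (bN ξ : Nm L S) n m) (h : r ≤ q) :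
    ξ ∈ r.w ∧ q.b ξ <+: r.b ξ := by
  have hv : ξ ∈ q.w := by rw [hb.2.2.1]; simp
  exact ⟨h.2.2.1 hv, h.2.2.2.2.1 ξ hv⟩

theorem RN_aN {v : L} (hv : v ∈ Γ.U) : RN Γ {Sum.inl v} (aN v) := by
  refine ⟨?_, ?_, ?_, ?_, ?_⟩
  · intro n m p hp
    obtain ⟨h1, h2, h3, h4, h5, h6, h7, h8⟩ := hp
    refine ⟨?_, ?_, ?_, ?_, ?_, ?_, ?_, ?_, ?_, ?_⟩
    · intro v' hv'
      rw [h2, Finset.mem_singleton] at hv'
      exact hv' ▸ hv
    · intro ξ hξ
      rw [h3] at hξ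
      simp at hξ
    · intro v' hv'
      rw [h2, Finset.mem_singleton] at hv'
      rw [hv', h7, h1]
    · intro v' hv'
      rw [h2, Finset.mem_singleton] at hv'
      exact h4 v' hv'
    · intro ξ hξ
      rw [h3] at hξ
      simp at hξ
    · intro ξ _
      exact h5 ξ
    · intro v' hv' v'' hv'' _
      rw [h2, Finset.mem_singleton] at hv' hv''
      rw [hv', hv'']
    · intro ξ hξ
      rw [h3] at hξ
      simp at hξ
    · intro v' ξ _
      exact h6 v' ξ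
    · intro v' _ ξ hξ
      rw [h3] at hξ
      simp at hξ
  · intro n m p hp
    refine ⟨?_, ?_⟩
    · intro v' hv'
      rw [hp.2.1, Finset.mem_singleton] at hv'
      simp [hv']
    · intro ξ hξ
      rw [hp.2.2.1] at hξ
      simp at hξ
  · intro n m
    refine Set.Subsingleton.countable ?_
    intro p hp q hq
    rw [aN_eq hp, aN_eq hq, cX_inj (hp.2.2.2.2.2.2.2.trans hq.2.2.2.2.2.2.2.symm)]
  · intro n m m' p p' hp hp' hc
    obtain ⟨r, -, h1, h2⟩ := hc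
    have e1 := (of_le_aN hp h1).2
    have e2 := (of_le_aN hp' h2).2
    have e3 : (p.a v).length = (p'.a v).length :=
      hp.2.2.2.2.2.2.1.trans hp'.2.2.2.2.2.2.1.symm
    have e4 : p.a v = p'.a v := by
      rw [List.prefix_iff_eq_take.1 e1, List.prefix_iff_eq_take.1 e2, e3]
    rw [← hp.2.2.2.2.2.2.2, ← hp'.2.2.2.2.2.2.2, e4]
  · intro n p hp
    obtain ⟨r, hr, hrok, hvr⟩ := ext_u hp hv
    obtain ⟨t, ht, htok, hn⟩ := ext_n hrok n
    have hvt : v ∈ t.u := ht.2.1 hvr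
    have hlen : ((t.a v).take n).length = n := by
      rw [List.length_take, htok.a_len v hvt]
      exact min_eq_left hn
    refine ⟨cX ((t.a v).take n), sA S v ((t.a v).take n), sA_mem v _ hlen, t, htok,
      ht.trans hr, le_sA (hlen.le.trans hn) hvt (List.take_prefix _ _)⟩

theorem RN_bN {ξ : S} (hξ : ξ ∈ Γ.W) : RN Γ {Sum.inr ξ} (bN ξ) := by
  refine ⟨?_, ?_, ?_, ?_, ?_⟩
  · intro n m p hp
    obtain ⟨h1, h2, h3, h4, h5, h6, h7, h8⟩ := hp
    refine ⟨?_, ?_, ?_, ?_, ?_, ?_, ?_, ?_, ?_, ?_⟩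
    · intro v' hv'
      rw [h2] at hv'
      simp at hv'
    · intro ξ' hξ'
      rw [h3, Finset.mem_singleton] at hξ'
      exact hξ' ▸ hξ
    · intro v' hv'
      rw [h2] at hv'
      simp at hv'
    · intro v' _
      exact h5 v'
    · intro ξ' hξ'
      rw [h3, Finset.mem_singleton] at hξ'
      rw [hξ', h7, h1]
    · intro ξ' hξ'
      rw [h3, Finset.mem_singleton] at hξ'
      exact h4 ξ' hξ'
    · intro v' hv'
      rw [h2] at hv'
      simp at hv'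
    · intro v' hv' v'' hv'' _
      rw [h3, Finset.mem_singleton] at hv' hv''
      rw [hv', hv'']
    · intro v' ξ _
      exact h6 v' ξ
    · intro v' hv'
      rw [h2] at hv'
      simp at hv'
  · intro n m p hp
    refine ⟨?_, ?_⟩
    · intro v' hv'
      rw [hp.2.1] at hv'
      simp at hv'
    · intro ξ hξ
      rw [hp.2.2.1, Finset.mem_singleton] at hξ
      simp [hξ]
  · intro n m
    refine Set.Subsingleton.countable ?_
    intro p hp q hq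
    rw [bN_eq hp, bN_eq hq, cY_inj (hp.2.2.2.2.2.2.2.trans hq.2.2.2.2.2.2.2.symm)]
  · intro n m m' p p' hp hp' hc
    obtain ⟨r, -, h1, h2⟩ := hc
    have e1 := (of_le_bN hp h1).2
    have e2 := (of_le_bN hp' h2).2
    have e3 : (p.b ξ).length = (p'.b ξ).length :=
      hp.2.2.2.2.2.2.1.trans hp'.2.2.2.2.2.2.1.symm
    have e4 : p.b ξ = p'.b ξ := by
      rw [List.prefix_iff_eq_take.1 e1, List.prefix_iff_eq_take.1 e2, e3]
    rw [← hp.2.2.2.2.2.2.2, ← hp'.2.2.2.2.2.2.2, e4]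
  · intro n p hp
    obtain ⟨r, hr, hrok, hvr⟩ := ext_w hp hξ
    obtain ⟨t, ht, htok, hn⟩ := ext_n hrok n
    have hvt : ξ ∈ t.w := ht.2.2.1 hvr
    have hlen : ((t.b ξ).take n).length = n := by
      rw [List.length_take, htok.b_len ξ hvt]
      exact min_eq_left hn
    refine ⟨cY ((t.b ξ).take n), sB L ξ ((t.b ξ).take n), sB_mem ξ _ hlen, t, htok,
      ht.trans hr, le_sB (hlen.le.trans hn) hvt (List.take_prefix _ _)⟩

theorem Vl_aN (hp : OK Γ p) {v : L} (hv : v ∈ p.u) (hn : n ≤ p.n) :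
    Vl Γ (aN v) n (cX ((p.a v).take n)) p := by
  intro p' hp' hok
  have hlen : ((p.a v).take n).length = n := by
    rw [List.length_take, hp.a_len v hv]
    exact min_eq_left hn
  refine ⟨p', le_rfl, hok, sA S v ((p.a v).take n), sA_mem v _ hlen, ?_⟩
  refine le_sA (hlen.le.trans (hn.trans hp'.1)) (hp'.2.1 hv) ?_
  exact (List.take_prefix _ _).trans (hp'.2.2.2.1 v hv)

theorem Vl_bN (hp : OK Γ p) {ξ : S} (hξ : ξ ∈ p.w) (hn : n ≤ p.n) :
    Vl Γ (bN ξ) n (cY ((p.b ξ).take n)) p := by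
  intro p' hp' hok
  have hlen : ((p.b ξ).take n).length = n := by
    rw [List.length_take, hp.b_len ξ hξ]
    exact min_eq_left hn
  refine ⟨p', le_rfl, hok, sB L ξ ((p.b ξ).take n), sB_mem ξ _ hlen, ?_⟩
  refine le_sB (hlen.le.trans (hn.trans hp'.1)) (hp'.2.2.1 hξ) ?_
  exact (List.take_prefix _ _).trans (hp'.2.2.2.2.1 ξ hξ)

theorem aN_ne (hp : OK Γ p) {v v' : L} (hv : v ∈ Γ.U) (hv' : v' ∈ Γ.U) (hne : v ≠ v') :
    ¬ EqN Γ (aN v) (aN v') p := by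
  intro h
  obtain ⟨q, hq, hqok, hvq⟩ := ext_u hp hv
  obtain ⟨r, hr, hrok, hvr'⟩ := ext_u hqok hv'
  have hvr : v ∈ r.u := hr.2.1 hvq
  have h1 := h r.n _ _ r (hr.trans hq) hrok (Vl_aN hrok hvr le_rfl) (Vl_aN hrok hvr' le_rfl)
  have h2 := cX_inj h1
  rw [List.take_of_length_le (hrok.a_len v hvr).le,
    List.take_of_length_le (hrok.a_len v' hvr').le] at h2
  exact hne (hrok.a_inj v hvr v' hvr' h2)

/-- values of `aN v` below a condition containing `v` -/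
theorem aN_val (hok : OK Γ p) {v : L} (hv : v ∈ p.u) (h : Vl Γ (aN v) n m p) (N : ℕ) :
    ∃ q ≤ p, OK Γ q ∧ N ≤ q.n ∧ n ≤ q.n ∧ m = cX ((q.a v).take n) := by
  obtain ⟨q, hq, hqok, hn⟩ := ext_n hok (max n N)
  have hvq : v ∈ q.u := hq.2.1 hv
  refine ⟨q, hq, hqok, (le_max_right _ _).trans hn, (le_max_left _ _).trans hn, ?_⟩
  exact Vl.func (RN_aN (hok.uU v hv)) hqok (h.mono hq)
    (Vl_aN hqok hvq ((le_max_left _ _).trans hn))

theorem RelN_ab (hp : OK Γ p) {v : L} {ξ : S} (hξ : ξ ∈ Γ.W) (hv : v ∈ Γ.E ξ) :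
    RelN Γ dR eR (aN v) (bN ξ) p := by
  have hvU : v ∈ Γ.U := Γ.E_sub ξ hξ hv
  intro p' _ hok'
  obtain ⟨q, hq, hqok, hvq⟩ := ext_u hok' hvU
  obtain ⟨p'', hp'', hok, hξp⟩ := ext_w hqok hξ
  have hvp : v ∈ p''.u := hp''.2.1 hvq
  refine ⟨p'', hp''.trans hq, hok, p''.c v ξ + 1, ?_, ?_, ?_⟩
  · intro n m m' s hs hsok h1 h2
    obtain ⟨r, hr, hrok, hn⟩ := ext_n hsok (n + 1)
    have hvr : v ∈ r.u := hr.2.1 (hs.2.1 hvp)
    have e1 := Vl.func (RN_aN hvU) hrok (h1.mono hr) (Vl_aN hrok hvr (by omega))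
    have e2 := Vl.func (RN_aN hvU) hrok (h2.mono hr) (Vl_aN hrok hvr hn)
    have hlt : n < (r.a v).length := by rw [hrok.a_len v hvr]; omega
    refine Or.inl ⟨(r.a v).take n, (r.a v)[n], e1, ?_⟩
    rw [e2, List.take_append_getElem]
  · intro n m m' s hs hsok h1 h2
    obtain ⟨r, hr, hrok, hn⟩ := ext_n hsok (n + 1)
    have hvr : ξ ∈ r.w := hr.2.2.1 (hs.2.2.1 hξp)
    have e1 := Vl.func (RN_bN hξ) hrok (h1.mono hr) (Vl_bN hrok hvr (by omega))
    have e2 := Vl.func (RN_bN hξ) hrok (h2.mono hr) (Vl_bN hrok hvr hn)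
    have hlt : n < (r.b ξ).length := by rw [hrok.b_len ξ hvr]; omega
    refine Or.inr ⟨(r.b ξ).take n, (r.b ξ)[n], e1, ?_⟩
    rw [e2, List.take_append_getElem]
  · intro n m m' s hk hs hsok h1 h2
    obtain ⟨r, hr, hrok, hn⟩ := ext_n hsok n
    have hvr : v ∈ r.u := hr.2.1 (hs.2.1 hvp)
    have hξr : ξ ∈ r.w := hr.2.2.1 (hs.2.2.1 hξp)
    have e1 := Vl.func (RN_aN hvU) hrok (h1.mono hr) (Vl_aN hrok hvr hn)
    have e2 := Vl.func (RN_bN hξ) hrok (h2.mono hr) (Vl_bN hrok hξr hn)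
    have hc : r.c v ξ = p''.c v ξ := (hr.trans hs).2.2.2.2.2 v hvp ξ hξp
    exact ⟨_, _, e1, e2, hrok.edge v hvr ξ hξr hv n (by omega) hn⟩

/-- the generic point of a right vertex outside a closed set `Y` is not named by a name with
support in `Y` -/
theorem bN_new (hY : Closed Γ Y) {ξ : S} (hξ : ξ ∈ Γ.W) (hξY : Sum.inr ξ ∉ Y)
    (hD : RN Γ Y D) (hp : OK Γ p) : ¬ EqN Γ D (bN ξ) p := by
  intro h
  obtain ⟨q, hq, hqok, hξq⟩ := ext_w hp hξ
  obtain ⟨p1, hp1, hp1ok, m, hm⟩ := exists_Vl hD hqok (q.n + 1)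
  have htok : OK Γ (p1.res Y) := hp1ok.res Y
  have hmt : Vl Γ D (q.n + 1) m (p1.res Y) := (Vl.res_iff hY hD hp1ok).2 hm
  obtain ⟨FY, hFY⟩ : ∃ FY : Finset (List Gt), ∀ l, cY l = m → l ∈ FY := by
    by_cases hex : ∃ l, cY l = m
    · obtain ⟨l, hl⟩ := hex
      exact ⟨{l}, fun l' hl' => Finset.mem_singleton.2 (cY_inj (hl'.trans hl.symm))⟩
    · exact ⟨∅, fun l hl => absurd ⟨l, hl⟩ hex⟩
  obtain ⟨r, hrok, hrq, hrt, hn, -, hb⟩ := proj hY hqok htok (Raw.res_In p1 Y)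
    (res_le_res hp1 Y) ∅ FY
  have h1 := hb ξ hξq hξY
  have hξr : ξ ∈ r.w := hrq.2.2.1 hξq
  have h2 := h (q.n + 1) _ _ r (hrq.trans hq) hrok (hmt.mono hrt) (Vl_bN hrok hξr hn)
  exact h1 (hFY _ h2.symm)

theorem good_dR_eR : Good dR eR := by
  constructor
  · intro m m' n h1 h2
    rcases h1 with ⟨l, x, rfl, rfl⟩ | ⟨l, x, rfl, rfl⟩
    · rcases h2 with ⟨l', x', rfl, h⟩ | ⟨l', x', rfl, h⟩
      · have := (List.append_inj' (cX_inj h) rfl).1
        rw [this]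
      · exact absurd h (cX_ne_cY _ _)
    · rcases h2 with ⟨l', x', rfl, h⟩ | ⟨l', x', rfl, h⟩
      · exact absurd h.symm (cX_ne_cY _ _)
      · have := (List.append_inj' (cY_inj h) rfl).1
        rw [this]
  · intro x0 x1 x1' y0 y1 y0' y1' d1 d2 d3 d4 hne e1 e2 e3 e4
    obtain ⟨a1, b1, rfl, rfl, l0, x, k0, y, rfl, rfl, -, E1⟩ := e1
    obtain ⟨a2, b2, rfl, hb2, l0', x', k1, y2, rfl, rfl, -, E2⟩ := e2
    obtain ⟨a3, b3, ha3, rfl, l1, x2, k0', y', rfl, rfl, -, E3⟩ := e3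
    obtain ⟨a4, b4, ha4, hb4, l2, x3, k2, y4, rfl, rfl, -, E4⟩ := e4
    -- identify
    have i2 := List.append_inj' (cY_inj hb2) rfl
    have i3 := List.append_inj' (cX_inj ha3) rfl
    have i4 := List.append_inj' (cX_inj ha4) rfl
    have i4' := List.append_inj' (cY_inj hb4) rfl
    obtain ⟨rfl, i2b⟩ := i2
    obtain ⟨rfl, i3b⟩ := i3
    obtain ⟨rfl, i4b⟩ := i4
    obtain ⟨rfl, i4c⟩ := i4'
    obtain rfl : y = y2 := by simpa using i2b
    obtain rfl : x = x2 := by simpa using i3b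
    obtain rfl : x' = x3 := by simpa using i4b
    obtain rfl : y' = y4 := by simpa using i4c
    -- the parents
    have hx0 : x0 = cX l0 := by
      rcases d1 with ⟨l, z, rfl, h⟩ | ⟨l, z, rfl, h⟩
      · rw [(List.append_inj' (cX_inj h) rfl).1]
      · exact absurd h (cX_ne_cY _ _)
    have hx0' : x0 = cX l0' := by
      rcases d2 with ⟨l, z, rfl, h⟩ | ⟨l, z, rfl, h⟩
      · rw [(List.append_inj' (cX_inj h) rfl).1]
      · exact absurd h (cX_ne_cY _ _)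
    have hy0 : y0 = cY k0 := by
      rcases d3 with ⟨l, z, rfl, h⟩ | ⟨l, z, rfl, h⟩
      · exact absurd h.symm (cX_ne_cY _ _)
      · rw [(List.append_inj' (cY_inj h) rfl).1]
    have hy0' : y0' = cY k0' := by
      rcases d4 with ⟨l, z, rfl, h⟩ | ⟨l, z, rfl, h⟩
      · exact absurd h.symm (cX_ne_cY _ _)
      · rw [(List.append_inj' (cY_inj h) rfl).1]
    obtain rfl : l0 = l0' := cX_inj (hx0.symm.trans hx0')
    have hk : slope k0 ≠ slope k0' := by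
      intro hk
      exact hne (by rw [hy0, hy0', slope_inj hk])
    have key : (slope k0 - slope k0') * (x.1 - x'.1) = 0 := by
      linear_combination E2 - E1 + E3 - E4
    have h1 : x.1 = x'.1 := by
      rcases mul_eq_zero.1 key with h | h
      · exact absurd (sub_eq_zero.1 h) hk
      · exact sub_eq_zero.1 h
    have h2 : x.2 = x'.2 := by
      rw [E1, E2, h1]
    rw [Prod.ext h1 h2]

end MP186633L

/-!
# MP_186633_lc: the collapse and the product of the collapse with the finite conditions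
-/

namespace MP186633L

open Cardinal

variable {L S : Type} {Γ : Gr L S}

theorem mk_Om1 : #Om1 = ℵ₁ := by
  simp [Om1]

theorem Om1_countable_Iio (i : Om1) : (Set.Iio i).Countable := by
  rw [← le_aleph0_iff_set_countable, ← lt_aleph_one_iff, ← mk_Om1]
  apply mk_Iio_lt
  simp

theorem Om1_countable_Iic (i : Om1) : (Set.Iic i).Countable := by
  rw [← Set.Iio_insert]
  exact (Om1_countable_Iio i).insert i

theorem Om1_uncountable : ¬ (Set.univ : Set Om1).Countable := by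
  rw [← le_aleph0_iff_set_countable, ← lt_aleph_one_iff, mk_univ, mk_Om1]
  exact lt_irrefl _

/-- every countable subset of `ω₁` is bounded -/
theorem Om1_bdd (x : ℕ → Om1) : ∃ i, ∀ n, x n < i := by
  by_contra hcon
  push Not at hcon
  apply Om1_uncountable
  refine Set.Countable.mono ?_ (Set.countable_iUnion fun n => Om1_countable_Iic (x n))
  intro i _
  obtain ⟨n, hn⟩ := hcon i
  exact Set.mem_iUnion.2 ⟨n, hn⟩

theorem mk_Coll : #Coll ≤ 𝔠 := by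
  have key : ∀ h : Coll, ∃ e : ℕ → Option (Om1 × (ℕ → ℕ)),
      ∀ i x, h.f i = some x ↔ ∃ n, e n = some (i, x) := by
    intro h
    have hc : {y : Om1 × (ℕ → ℕ) | h.f y.1 = some y.2}.Countable := by
      have h1 : Set.InjOn Prod.fst {y : Om1 × (ℕ → ℕ) | h.f y.1 = some y.2} := by
        rintro ⟨i, x⟩ hx ⟨j, y⟩ hy hij
        simp only [Set.mem_ofPred_eq] at hx hy hij
        subst hij
        rw [hx] at hy
        rw [Option.some.inj hy]
      refine Set.MapsTo.countable_of_injOn (t := {i | h.f i ≠ none}) ?_ h1 h.ctbl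
      rintro ⟨i, x⟩ hx
      simp only [Set.mem_ofPred_eq] at hx ⊢
      rw [hx]
      exact Option.some_ne_none x
    rcases Set.eq_empty_or_nonempty {y : Om1 × (ℕ → ℕ) | h.f y.1 = some y.2} with he | hne
    · refine ⟨fun _ => none, fun i x => ⟨fun hx => ?_, ?_⟩⟩
      · have : ((i, x) : Om1 × (ℕ → ℕ)) ∈ {y : Om1 × (ℕ → ℕ) | h.f y.1 = some y.2} := hx
        rw [he] at this
        exact absurd this (Set.notMem_empty _)
      · rintro ⟨n, hn⟩
        cases hn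
    · obtain ⟨e, he⟩ := hc.exists_eq_range hne
      refine ⟨fun n => some (e n), fun i x => ?_⟩
      have : (h.f i = some x) ↔ ((i, x) : Om1 × (ℕ → ℕ)) ∈ Set.range e := by
        rw [← he]
        rfl
      rw [this]
      constructor
      · rintro ⟨n, hn⟩
        exact ⟨n, by simp only [hn]⟩
      · rintro ⟨n, hn⟩
        exact ⟨n, Option.some.inj hn⟩
  choose e he using key
  have hinj : Function.Injective e := by
    intro h h' hh
    ext i x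
    rw [he, he, hh]
  have hO : #(Om1 × (ℕ → ℕ)) ≤ 𝔠 := by
    rw [mk_prod, lift_id, lift_id, mk_Om1]
    have : #(ℕ → ℕ) = 𝔠 := by simp
    rw [this]
    exact (mul_le_mul' aleph_one_le_continuum le_rfl).trans (by rw [continuum_mul_self])
  have hO' : #(Option (Om1 × (ℕ → ℕ))) ≤ 𝔠 := by
    rw [mk_option]
    exact (add_le_add hO (nat_lt_continuum 1).le).trans (by rw [continuum_add_self])
  calc #Coll ≤ #(ℕ → Option (Om1 × (ℕ → ℕ))) := mk_le_of_injective hinj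
    _ = #(Option (Om1 × (ℕ → ℕ))) ^ ℵ₀ := by simp
    _ ≤ 𝔠 ^ ℵ₀ := power_le_power_right hO'
    _ = 𝔠 := continuum_power_aleph0

/-- a countable chain of countable conditions has a lower bound -/
theorem Coll.lower_chain (A : Set Coll) (hA : A.Countable)
    (hc : ∀ h ∈ A, ∀ h' ∈ A, h ≤ h' ∨ h' ≤ h) : ∃ h0, ∀ h ∈ A, h0 ≤ h := by
  classical
  let F : Om1 → Option (ℕ → ℕ) := fun i =>
    if H : ∃ x, ∃ h ∈ A, h.f i = some x then some H.choose else none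
  have hF : {i | F i ≠ none}.Countable := by
    refine Set.Countable.mono ?_ (hA.biUnion (fun h _ => h.ctbl))
    intro i hi
    simp only [Set.mem_ofPred_eq, F] at hi
    split_ifs at hi with H
    · obtain ⟨x, h, hh, hx⟩ := H
      refine Set.mem_biUnion hh ?_
      simp only [Set.mem_ofPred_eq]
      rw [hx]
      exact Option.some_ne_none x
    · exact absurd rfl hi
  refine ⟨⟨F, hF⟩, fun h hh i x hx => ?_⟩
  have H : ∃ x, ∃ h ∈ A, h.f i = some x := ⟨x, h, hh, hx⟩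
  have hFi : F i = some H.choose := dif_pos H
  obtain ⟨h', hh', hx'⟩ := H.choose_spec
  have : some H.choose = some x := by
    rw [← hx', ← hx]
    rcases hc h hh h' hh' with h1 | h1
    · rw [hx]
      have := h1 i _ hx'
      rw [hx] at this
      rw [hx', this]
    · rw [hx']
      have := h1 i _ hx
      rw [hx'] at this
      rw [hx, this]
  exact hFi.trans this

/-- descending sequences of countable conditions have lower bounds -/
theorem Coll.lower (h : ℕ → Coll) (hh : ∀ n, h (n + 1) ≤ h n) : ∃ h', ∀ n, h' ≤ h n := by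
  have hanti : Antitone h := antitone_nat_of_succ_le hh
  obtain ⟨h0, hh0⟩ := Coll.lower_chain (Set.range h) (Set.countable_range h) (by
    rintro _ ⟨n, rfl⟩ _ ⟨m, rfl⟩
    rcases le_total n m with hnm | hnm
    · exact Or.inr (hanti hnm)
    · exact Or.inl (hanti hnm))
  exact ⟨h0, fun n => hh0 _ ⟨n, rfl⟩⟩

private theorem cpt_self_c {p : Raw L S} (hp : OK Γ p) : Cpt Γ p p := ⟨p, hp, le_rfl, le_rfl⟩

private theorem cpt_symm_c {p q : Raw L S} (h : Cpt Γ p q) : Cpt Γ q p := by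
  obtain ⟨r, h1, h2, h3⟩ := h
  exact ⟨r, h1, h3, h2⟩

/-- the mixing lemma for one dense open set -/
theorem mix_one (Γ : Gr L S) (D : Coll → Raw L S → Prop)
    (hopen : ∀ h p h' p', D h p → h' ≤ h → p' ≤ p → OK Γ p' → D h' p')
    (hdense : ∀ h p, OK Γ p → ∃ h' ≤ h, ∃ p' ≤ p, OK Γ p' ∧ D h' p') (h0 : Coll) :
    ∃ h ≤ h0, ∀ p, OK Γ p → ∃ p' ≤ p, OK Γ p' ∧ D h p' := by
  let P : Set (Set (Coll × Raw L S)) := {T | (∀ x ∈ T, x.1 ≤ h0 ∧ OK Γ x.2 ∧ D x.1 x.2) ∧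
    ∀ x ∈ T, ∀ y ∈ T, x ≠ y → (x.1 ≤ y.1 ∨ y.1 ≤ x.1) ∧ ¬ Cpt Γ x.2 y.2}
  obtain ⟨T, hT⟩ := zorn_subset P (by
    intro c hcP hc
    refine ⟨⋃₀ c, ⟨?_, ?_⟩, fun s hs => Set.subset_sUnion_of_mem hs⟩
    · rintro x ⟨s, hs, hxs⟩
      exact (hcP hs).1 x hxs
    · rintro x ⟨s, hs, hxs⟩ y ⟨t, ht, hyt⟩ hxy
      rcases hc.total hs ht with hst | hst
      · exact (hcP ht).2 x (hst hxs) y hyt hxy
      · exact (hcP hs).2 x hxs y (hst hyt) hxy)
  obtain ⟨⟨hT1, hT2⟩, hTmax⟩ := hT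
  have hinj : Set.InjOn Prod.snd T := by
    intro x hx y hy hxy
    by_contra hne
    apply (hT2 x hx y hy hne).2
    rw [← hxy]
    exact cpt_self_c (hT1 x hx).2.1
  have hTc : T.Countable := by
    refine Set.MapsTo.countable_of_injOn (Set.mapsTo_image Prod.snd T) hinj ?_
    apply ccc Γ
    · rintro _ ⟨x, hx, rfl⟩
      exact (hT1 x hx).2.1
    · rintro _ ⟨x, hx, rfl⟩ _ ⟨y, hy, rfl⟩ hxy
      exact (hT2 x hx y hy (fun h => hxy (by rw [h]))).2
  obtain ⟨hs, hhs⟩ := Coll.lower_chain (insert h0 (Prod.fst '' T)) ((hTc.image _).insert h0) (by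
    rintro a ha b hb
    rcases ha with rfl | ⟨x, hx, rfl⟩
    · rcases hb with rfl | ⟨y, hy, rfl⟩
      · exact Or.inl le_rfl
      · exact Or.inr (hT1 y hy).1
    · rcases hb with rfl | ⟨y, hy, rfl⟩
      · exact Or.inl (hT1 x hx).1
      · by_cases hxy : x = y
        · rw [hxy]
          exact Or.inl le_rfl
        · exact (hT2 x hx y hy hxy).1)
  have hs0 : hs ≤ h0 := hhs h0 (Set.mem_insert _ _)
  have hsT : ∀ x ∈ T, hs ≤ x.1 := fun x hx => hhs _ (Set.mem_insert_of_mem _ ⟨x, hx, rfl⟩)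
  refine ⟨hs, hs0, fun p hp => ?_⟩
  by_contra hcon
  push Not at hcon
  obtain ⟨h', hh', p', hp', hok, hD⟩ := hdense hs p hp
  have hinc : ∀ x ∈ T, ¬ Cpt Γ p' x.2 := by
    rintro x hx ⟨r, hr, hr1, hr2⟩
    exact hcon r (hr1.trans hp') hr (hopen x.1 x.2 hs r (hT1 x hx).2.2 (hsT x hx) hr2 hr)
  have hins : insert (h', p') T ∈ P := by
    refine ⟨?_, ?_⟩
    · rintro x (rfl | hx)
      · exact ⟨hh'.trans hs0, hok, hD⟩
      · exact hT1 x hx
    · rintro x (rfl | hx) y (rfl | hy) hxy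
      · exact absurd rfl hxy
      · exact ⟨Or.inl (hh'.trans (hsT y hy)), hinc y hy⟩
      · exact ⟨Or.inr (hh'.trans (hsT x hx)), fun h => hinc x hx (cpt_symm_c h)⟩
      · exact hT2 x hx y hy hxy
  have hmem : (h', p') ∈ T := hTmax hins (Set.subset_insert _ _) (Set.mem_insert _ _)
  exact hinc _ hmem (cpt_self_c hok)

/-- **Mixing lemma**: countably many dense open subsets of the product become dense in the second
factor after strengthening the first coordinate. -/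
theorem mix (Γ : Gr L S) (D : ℕ → Coll → Raw L S → Prop)
    (hopen : ∀ n h p h' p', D n h p → h' ≤ h → p' ≤ p → OK Γ p' → D n h' p')
    (hdense : ∀ n h p, OK Γ p → ∃ h' ≤ h, ∃ p' ≤ p, OK Γ p' ∧ D n h' p') (h0 : Coll) :
    ∃ h ≤ h0, ∀ n p, OK Γ p → ∃ p' ≤ p, OK Γ p' ∧ D n h p' := by
  have key : ∀ n (h : Coll), ∃ h' ≤ h, ∀ p, OK Γ p → ∃ p' ≤ p, OK Γ p' ∧ D n h' p' :=
    fun n h => mix_one Γ (D n) (hopen n) (hdense n) h
  choose f hf1 hf2 using key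
  let g : ℕ → Coll := fun n => Nat.rec h0 (fun n h => f n h) n
  have hg : ∀ n, g (n + 1) = f n (g n) := fun n => rfl
  obtain ⟨h', hh'⟩ := Coll.lower g (fun n => by rw [hg]; exact hf1 n (g n))
  refine ⟨h', hh' 0, fun n p hp => ?_⟩
  obtain ⟨p', hp', hok, hD⟩ := hf2 n (g n) p hp
  refine ⟨p', hp', hok, hopen n _ p' h' p' hD ?_ le_rfl hok⟩
  have := hh' (n + 1)
  rwa [hg] at this

/-- the product satisfies the chain condition for the successor of the continuum -/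
theorem cc_prod (Γ : Gr L S) {J : Type} (A : J → Coll × Raw L S) (hA : ∀ j, OK Γ (A j).2)
    (hanti : ∀ i j, i ≠ j → ¬ ((∃ h, h ≤ (A i).1 ∧ h ≤ (A j).1) ∧ Cpt Γ (A i).2 (A j).2)) :
    #J ≤ 𝔠 := by
  have hfib : ∀ h : Coll, #{j // (A j).1 = h} ≤ ℵ₀ := by
    intro h
    have h1 : ∀ i j, (A i).1 = h → (A j).1 = h → i ≠ j → ¬ Cpt Γ (A i).2 (A j).2 := by
      intro i j hi hj hij hc
      exact hanti i j hij ⟨⟨h, hi ▸ le_rfl, hj ▸ le_rfl⟩, hc⟩
    have h2 : ({j | (A j).1 = h} : Set J).Countable := by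
      refine Set.MapsTo.countable_of_injOn
        (Set.mapsTo_image (fun j => (A j).2) {j | (A j).1 = h}) ?_ ?_
      · intro i hi j hj hij
        by_contra hne
        apply h1 i j hi hj hne
        have : (A i).2 = (A j).2 := hij
        rw [← this]
        exact cpt_self_c (hA i)
      · apply ccc Γ
        · rintro _ ⟨j, _, rfl⟩
          exact hA j
        · rintro _ ⟨i, hi, rfl⟩ _ ⟨j, hj, rfl⟩ hij
          exact h1 i j hi hj (fun h => hij (by rw [h]))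
    exact le_aleph0_iff_set_countable.2 h2
  calc #J = #(Σ h : Coll, {j // (A j).1 = h}) :=
        (Cardinal.mk_congr (Equiv.sigmaFiberEquiv fun j => (A j).1)).symm
    _ = Cardinal.sum fun h : Coll => #{j // (A j).1 = h} := mk_sigma _
    _ ≤ Cardinal.sum fun _ : Coll => ℵ₀ := sum_le_sum _ _ hfib
    _ = #Coll * ℵ₀ := by simp
    _ ≤ 𝔠 * ℵ₀ := mul_le_mul' mk_Coll le_rfl
    _ = 𝔠 := continuum_mul_aleph0

/-- every set of pairs has a subset of size at most the continuum which is predense -/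
theorem exists_predense_prod (Γ : Gr L S) (A : Set (Coll × Raw L S))
    (hA : ∀ x ∈ A, OK Γ x.2) :
    ∃ B ⊆ A, #B ≤ 𝔠 ∧ ∀ x ∈ A, ∃ y ∈ B, (∃ h, h ≤ x.1 ∧ h ≤ y.1) ∧ Cpt Γ x.2 y.2 := by
  let P : Set (Set (Coll × Raw L S)) := {T | T ⊆ A ∧
    ∀ x ∈ T, ∀ y ∈ T, x ≠ y → ¬ ((∃ h, h ≤ x.1 ∧ h ≤ y.1) ∧ Cpt Γ x.2 y.2)}
  obtain ⟨T, hT⟩ := zorn_subset P (by
    intro c hcP hc
    refine ⟨⋃₀ c, ⟨?_, ?_⟩, fun s hs => Set.subset_sUnion_of_mem hs⟩
    · rintro x ⟨s, hs, hxs⟩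
      exact (hcP hs).1 hxs
    · rintro x ⟨s, hs, hxs⟩ y ⟨t, ht, hyt⟩ hxy
      rcases hc.total hs ht with hst | hst
      · exact (hcP ht).2 x (hst hxs) y hyt hxy
      · exact (hcP hs).2 x hxs y (hst hyt) hxy)
  obtain ⟨⟨hT1, hT2⟩, hTmax⟩ := hT
  refine ⟨T, hT1, ?_, fun x hx => ?_⟩
  · refine cc_prod Γ (fun j : T => j.1) (fun j => hA _ (hT1 j.2)) ?_
    intro i j hij
    exact hT2 i.1 i.2 j.1 j.2 (fun h => hij (Subtype.ext h))
  · by_contra hcon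
    push Not at hcon
    have hins : insert x T ∈ P := by
      refine ⟨Set.insert_subset hx hT1, ?_⟩
      rintro y (rfl | hy) z (rfl | hz) hyz
      · exact absurd rfl hyz
      · rintro ⟨⟨h, h1, h2⟩, hc⟩
        exact hcon z hz ⟨h, h1, h2⟩ hc
      · rintro ⟨⟨h, h1, h2⟩, hc⟩
        exact hcon y hy ⟨h, h2, h1⟩ (cpt_symm_c hc)
      · exact hT2 y hy z hz hyz
    have hmem : x ∈ T := hTmax hins (Set.subset_insert _ _) (Set.mem_insert _ _)
    exact hcon x hmem ⟨x.1, le_rfl, le_rfl⟩ (cpt_self_c (hA x hx))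

end MP186633L

/-!
# MP_186633_lc: key functions
-/

namespace MP186633L

open Cardinal

variable {L S : Type}

/-- `κ D k h p` means: `(h, p)` forces that the key of `D` is `k`. The keys are injective modulo
forced equality, and the names with smaller key related to `D` are (forced to be) covered by a
countable functional family `J`. -/
structure KeyFun (Γ : Gr L S) (d e : ℕ → ℕ → Prop) (Y : Set (L ⊕ S)) (K : Type) [LinearOrder K]
    (κ : Nm L S → K → Coll → Raw L S → Prop) : Prop where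
  mono : ∀ {D k h p h' p'}, κ D k h p → h' ≤ h → p' ≤ p → OK Γ p' → κ D k h' p'
  total : ∀ {D h p}, RN Γ Y D → OK Γ p → ∃ h' ≤ h, ∃ p' ≤ p, OK Γ p' ∧ ∃ k, κ D k h' p'
  func : ∀ {D D' k k' h p}, RN Γ Y D → RN Γ Y D' → OK Γ p → κ D k h p → κ D' k' h p →
    EqN Γ D D' p → k = k'
  inj : ∀ {D D' k h p}, RN Γ Y D → RN Γ Y D' → OK Γ p → κ D k h p → κ D' k h p →
    EqN Γ D D' p
  back : ∀ {D h p}, RN Γ Y D → OK Γ p → ∃ h' ≤ h, ∃ p' ≤ p, OK Γ p' ∧
    ∃ J : ℕ → Nm L S → Coll → Raw L S → Prop,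
      (∀ n D' h1 p1 h2 p2, J n D' h1 p1 → h2 ≤ h1 → p2 ≤ p1 → OK Γ p2 → J n D' h2 p2) ∧
      (∀ n D1 D2 h1 p1, RN Γ Y D1 → RN Γ Y D2 → OK Γ p1 → J n D1 h1 p1 → J n D2 h1 p1 →
        EqN Γ D1 D2 p1) ∧
      ∀ h1 ≤ h', ∀ p1 ≤ p', OK Γ p1 → ∀ D' k k', RN Γ Y D' → κ D k h1 p1 → κ D' k' h1 p1 →
        k' < k → (RelN Γ d e D' D p1 ∨ RelN Γ d e D D' p1) →
        ∃ h2 ≤ h1, ∃ p2 ≤ p1, OK Γ p2 ∧ ∃ n, J n D' h2 p2

end MP186633L

/-!
# MP_186633_lc: a name which is decided by the part in `Y` has an equivalent name with support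
in `Y`
-/

namespace MP186633L

variable {L S : Type} {Γ : Gr L S} {p q r s : Raw L S} {Y Z C : Set (L ⊕ S)}
  {D D' D'' : Nm L S} {d e : ℕ → ℕ → Prop} {n m m' k N : ℕ}

/-- amalgamation of `t` (supported in `Y`) and `r` (supported in `C`) -/
theorem amalg (hY : Strong Γ Y) (hC : Closed Γ C) {t r : Raw L S} (ht : OK Γ t) (htY : t.In Y)
    (hr : OK Γ r) (hrC : r.In C) (h : t ≤ r.res (C ∩ Y)) :
    ∃ s, OK Γ s ∧ s ≤ t ∧ s ≤ r := by
  have h1 : r.res Y = r.res (C ∩ Y) := by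
    have h2 := res_res r C Y
    rw [res_eq hr hrC] at h2
    exact h2
  rw [← h1] at h
  obtain ⟨s, h3, h4, h5⟩ := proj' hY.closed hr ht htY h
  exact ⟨s, h3, h5, h4⟩

theorem res_le_res_inter (s : Raw L S) (C Y : Set (L ⊕ S)) :
    s.res Y ≤ (s.res C).res (C ∩ Y) := by
  rw [res_res]
  have h : C ∩ (C ∩ Y) = C ∩ Y := by
    rw [← Set.inter_assoc, Set.inter_self]
  rw [h]
  exact res_le (le_res s (C ∩ Y)) ((Raw.res_In s (C ∩ Y)).mono Set.inter_subset_right)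

/-- no splitting: `D` (a name with support in `C`) is equal, below a common extension of `r0` and
`t0`, to a name with support in `Y`, provided that its values are determined by the part of the
conditions in `Y` -/
theorem noSplit (hY : Strong Γ Y) (hC : Closed Γ C) (hD : RN Γ C D)
    {r0 t0 s0 : Raw L S} (hr0 : OK Γ r0) (hr0C : r0.In C) (ht0 : OK Γ t0) (ht0Y : t0.In Y)
    (hs0 : OK Γ s0) (h1 : s0 ≤ r0) (h2 : s0 ≤ t0) (hcC : C.Countable)
    (hns : ∀ n t r1 r2 m1 m2, OK Γ t → t.In Y → t ≤ t0 → OK Γ r1 → r1.In C → r1 ≤ r0 →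
      OK Γ r2 → r2.In C → r2 ≤ r0 → t ≤ r1.res (C ∩ Y) → t ≤ r2.res (C ∩ Y) →
      Vl Γ D n m1 r1 → Vl Γ D n m2 r2 → m1 = m2) :
    ∃ D', RN Γ Y D' ∧ EqN Γ D D' s0 := by
  classical
  let Pr : ℕ → ℕ → Raw L S → Prop := fun n m t => OK Γ t ∧ t.In Y ∧ t ≤ t0 ∧
    ∃ r, OK Γ r ∧ r.In C ∧ r ≤ r0 ∧ t ≤ r.res (C ∩ Y) ∧ Vl Γ D n m r
  let Jk : Raw L S → Prop := fun t => OK Γ t ∧ t.In Y ∧
    (¬ Cpt Γ t t0 ∨ ¬ Cpt Γ t (r0.res (C ∩ Y)))
  let T : ℕ → Set (Raw L S) := fun n => {t | (∃ m, Pr n m t) ∨ Jk t}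
  have hTok : ∀ n, ∀ t ∈ T n, OK Γ t := by
    rintro n t (⟨m, h⟩ | h)
    · exact h.1
    · exact h.1
  have hTY : ∀ n, ∀ t ∈ T n, t.In Y := by
    rintro n t (⟨m, h⟩ | h)
    · exact h.2.1
    · exact h.2.1
  choose B hBT hBc hBa hBp using fun n => exists_predense Γ (T n) (hTok n)
  -- proper conditions are not junk
  have hPJ : ∀ n m t, Pr n m t → ¬ Jk t := by
    rintro n m t ⟨h3, h4, h5, r, h6, h7, h8, h9, h10⟩ ⟨-, -, h | h⟩
    · exact h ⟨t, h3, le_rfl, h5⟩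
    · exact h ⟨t, h3, le_rfl, h9.trans (res_le_res h8 _)⟩
  have hPP : ∀ n m m' t, Pr n m t → Pr n m' t → m = m' := by
    rintro n m m' t ⟨h3, h4, h5, r, h6, h7, h8, h9, h10⟩ ⟨-, -, -, r', h6', h7', h8', h9', h10'⟩
    exact hns n t r r' m m' h3 h4 h5 h6 h7 h8 h6' h7' h8' h9 h9' h10 h10'
  refine ⟨fun n m => {t | t ∈ B n ∧ (Pr n m t ∨ (m = 0 ∧ Jk t))}, ⟨?_, ?_, ?_, ?_, ?_⟩, ?_⟩
  · rintro n m p ⟨hp, -⟩
    exact hTok n p (hBT n hp)
  · rintro n m p ⟨hp, -⟩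
    exact hTY n p (hBT n hp)
  · intro n m
    exact (hBc n).mono fun p hp => hp.1
  · rintro n m m' p p' ⟨hp, hp1⟩ ⟨hp', hp1'⟩ hc
    have hpp : p = p' := by
      by_contra hne
      exact hBa n p hp p' hp' hne hc
    subst hpp
    rcases hp1 with hp1 | ⟨rfl, hp1⟩
    · rcases hp1' with hp1' | ⟨-, hp1'⟩
      · exact hPP n m m' p hp1 hp1'
      · exact absurd hp1' (hPJ n m p hp1)
    · rcases hp1' with hp1' | ⟨rfl, -⟩
      · exact absurd hp1 (hPJ n m' p hp1')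
      · rfl
  · intro n p hp
    -- find a member of `T n` below `p.res Y`
    have key : ∃ t ∈ T n, t ≤ p.res Y := by
      by_cases hA : ∃ t, OK Γ t ∧ t.In Y ∧ t ≤ p.res Y ∧ ¬ Cpt Γ t t0
      · obtain ⟨t, h3, h4, h5, h6⟩ := hA
        exact ⟨t, Or.inr ⟨h3, h4, Or.inl h6⟩, h5⟩
      by_cases hB : ∃ t, OK Γ t ∧ t.In Y ∧ t ≤ p.res Y ∧ ¬ Cpt Γ t (r0.res (C ∩ Y))
      · obtain ⟨t, h3, h4, h5, h6⟩ := hB
        exact ⟨t, Or.inr ⟨h3, h4, Or.inr h6⟩, h5⟩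
      have hA' : Cpt Γ (p.res Y) t0 := by
        by_contra hcon
        exact hA ⟨p.res Y, hp.res Y, Raw.res_In p Y, le_rfl, hcon⟩
      obtain ⟨q1, hq1, hq1p, hq1t⟩ := hA'
      have ht1 : q1.res Y ≤ p.res Y := res_le hq1p (Raw.res_In p Y)
      have ht1' : q1.res Y ≤ t0 := res_le hq1t ht0Y
      have hB' : Cpt Γ (q1.res Y) (r0.res (C ∩ Y)) := by
        by_contra hcon
        exact hB ⟨q1.res Y, hq1.res Y, Raw.res_In q1 Y, ht1, hcon⟩
      obtain ⟨q2, hq2, hq2p, hq2r⟩ := hB'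
      have ht2 : q2.res Y ≤ q1.res Y := res_le hq2p (Raw.res_In q1 Y)
      have ht2' : q2.res Y ≤ r0.res (C ∩ Y) :=
        res_le hq2r ((Raw.res_In r0 (C ∩ Y)).mono Set.inter_subset_right)
      obtain ⟨s, hs, hst, hsr⟩ := amalg hY hC (hq2.res Y) (Raw.res_In q2 Y) hr0 hr0C ht2'
      obtain ⟨s', hs's, hs', m, hm⟩ := exists_Vl hD hs n
      have ht : s'.res Y ≤ q2.res Y := res_le (hs's.trans hst) (Raw.res_In q2 Y)
      refine ⟨s'.res Y, Or.inl ⟨m, hs'.res Y, Raw.res_In s' Y, ht.trans (ht2.trans ht1'),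
        s'.res C, hs'.res C, Raw.res_In s' C, res_le (hs's.trans hsr) hr0C,
        res_le_res_inter s' C Y, (Vl.res_iff hC hD hs').2 hm⟩, ht.trans (ht2.trans ht1)⟩
    obtain ⟨t, htT, htp⟩ := key
    obtain ⟨b, hb, r, hr, hrt, hrb⟩ := hBp n t htT
    have hbY := hTY n b (hBT n hb)
    have h3 : r.res Y ≤ t := res_le hrt (hTY n t htT)
    have h4 : r.res Y ≤ b := res_le hrb hbY
    obtain ⟨s, hs, hsp, hsr⟩ := proj' hY.closed hp (hr.res Y) (Raw.res_In r Y) (h3.trans htp)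
    have hcb : Cpt Γ p b := ⟨s, hs, hsp, hsr.trans h4⟩
    rcases hBT n hb with ⟨m, hm⟩ | hj
    · exact ⟨m, b, ⟨hb, Or.inl hm⟩, hcb⟩
    · exact ⟨0, b, ⟨hb, Or.inr ⟨rfl, hj⟩⟩, hcb⟩
  · intro n m m' p' hp's hp' hV hV'
    obtain ⟨s, hsp, hs, b, ⟨hb, hb'⟩, hsb⟩ := hV' p' le_rfl hp'
    have hbY := hTY n b (hBT n hb)
    rcases hb' with ⟨h3, h4, h5, r2, h6, h7, h8, h9, h10⟩ | ⟨-, -, -, hj⟩
    · have hss0 : s ≤ s0 := hsp.trans hp's
      have ht : s.res Y ≤ b := res_le hsb hbY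
      exact hns n (s.res Y) (s.res C) r2 m m' (hs.res Y) (Raw.res_In s Y)
        (res_le (hss0.trans h2) ht0Y) (hs.res C) (Raw.res_In s C)
        (res_le (hss0.trans h1) hr0C) h6 h7 h8 (res_le_res_inter s C Y) (ht.trans h9)
        ((Vl.res_iff hC hD hs).2 (hV.mono hsp)) h10
    · rcases hj with hj | hj
      · exact absurd ⟨s, hs, hsb, (hsp.trans hp's).trans h2⟩ hj
      · exact absurd ⟨s, hs, hsb, ((hsp.trans hp's).trans h1).trans (le_res r0 _)⟩ hj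

end MP186633L

/-!
# MP_186633_lc: Lemma B
-/

namespace MP186633L

variable {L S : Type} {Γ : Gr L S}

namespace LB

variable {p q r t a a' : Raw L S} {Y Z C i : Set (L ⊕ S)} {D D' D1 D2 : Nm L S}
  {d e : ℕ → ℕ → Prop} {k n N n0 s : ℕ}

theorem res_sub (p : Raw L S) (h : Z ⊆ Y) : (p.res Y).res Z = p.res Z := by
  rw [res_res, Set.inter_eq_right.2 h]

theorem le_res_sub (h : t ≤ p.res Y) (hZ : Z ⊆ Y) : t ≤ p.res Z := by
  rw [← res_sub p hZ]
  exact h.trans (le_res _ _)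

/-- one run: amalgamate and decide -/
theorem run (hY : Strong Γ Y) (hCc : Closed Γ C) (hD : RN Γ C D) (ht : OK Γ t) (htY : t.In Y)
    (hr : OK Γ r) (hrC : r.In C) (h : t ≤ r.res (C ∩ Y)) (N : ℕ) :
    ∃ s, OK Γ s ∧ s ≤ t ∧ s ≤ r ∧ ∃ y : ℕ → ℕ, ∀ n ≤ N, Vl Γ D n (y n) s := by
  obtain ⟨s, hs, hst, hsr⟩ := amalg hY hCc ht htY hr hrC h
  obtain ⟨s', hs's, hs', y, hy⟩ := exists_Vl_all hD hs N
  exact ⟨s', hs', hs's.trans hst, hs's.trans hsr, y, hy⟩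

/-- the numerical content of `RelK` along two runs -/
def Steps (d e : ℕ → ℕ → Prop) (k N : ℕ) (x y : ℕ → ℕ) : Prop :=
  (∀ j, j < N → d (x j) (x (j + 1))) ∧ (∀ j, j < N → d (y j) (y (j + 1))) ∧
    ∀ j, k ≤ j → j ≤ N → e (x j) (y j)

theorem steps (hs : OK Γ p) (R : RelK Γ d e k D D' p) {x y : ℕ → ℕ}
    (hx : ∀ j ≤ N, Vl Γ D j (x j) p) (hy : ∀ j ≤ N, Vl Γ D' j (y j) p) : Steps d e k N x y :=
  ⟨fun j hj => R.brL le_rfl hs (hx j hj.le) (hx (j + 1) hj),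
    fun j hj => R.brR le_rfl hs (hy j hj.le) (hy (j + 1) hj),
    fun j hk hj => R.rel hk le_rfl hs (hx j hj) (hy j hj)⟩

theorem four (hde : Good d e) {x x' y y' : ℕ → ℕ} (h11 : Steps d e k N x y)
    (h12 : Steps d e k N x y') (h21 : Steps d e k N x' y) (h22 : Steps d e k N x' y')
    (hk : k ≤ n0) (hn0 : n0 ≤ N) (hne : y n0 ≠ y' n0) (heq : x n0 = x' n0) :
    ∀ n ≤ N, x n = x' n := by
  intro n hn
  have h1 : x N = x' N :=
    line_unique hde x x' y y' (fun j _ hj => h11.1 j hj) (fun j _ hj => h21.1 j hj)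
      (fun j _ hj => h11.2.1 j hj) (fun j _ hj => h12.2.1 j hj)
      (fun j hj hjN => h11.2.2 j (hk.trans hj) hjN) (fun j hj hjN => h21.2.2 j (hk.trans hj) hjN)
      (fun j hj hjN => h12.2.2 j (hk.trans hj) hjN) (fun j hj hjN => h22.2.2 j (hk.trans hj) hjN)
      hne heq hn0
  exact anc_unique hde x x' (fun j _ hj => h11.1 j hj) (fun j _ hj => h21.1 j hj) hn h1

variable {K : Type} [LinearOrder K] {Yb : K → Set (L ⊕ S)} {α b b1 b2 : K} {a0 p1 p2 : Raw L S}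

/-- the data common to the two cases -/
structure JD (Γ : Gr L S) (Yb : K → Set (L ⊕ S)) (C : Set (L ⊕ S)) (α : K) (a0 : Raw L S)
    (i : Set (L ⊕ S)) (q : Raw L S) (D' : Nm L S) (a : Raw L S) (b : K) (p : Raw L S) : Prop where
  lt : b < α
  hi : C ∩ Yb b = i
  rn : RN Γ (Yb b) D'
  ok : OK Γ p
  supp : p.In (C ∪ Yb b)
  le0 : p ≤ a0
  hq : p.res C = q
  le : a ≤ p.res (Yb b)

theorem JD.mono (h : JD Γ Yb C α a0 i q D' a b p) (ha : a' ≤ a) :
    JD Γ Yb C α a0 i q D' a' b p :=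
  ⟨h.lt, h.hi, h.rn, h.ok, h.supp, h.le0, h.hq, ha.trans h.le⟩

/-- a splitting of `D` over `a` -/
def Split (Γ : Gr L S) (C : Set (L ⊕ S)) (D : Nm L S) (i : Set (L ⊕ S)) (q : Raw L S) (N : ℕ)
    (a : Raw L S) : Prop :=
  ∃ (r1 r2 : Raw L S) (c1 c2 : ℕ), OK Γ r1 ∧ r1.In C ∧ r1 ≤ q ∧ OK Γ r2 ∧ r2.In C ∧ r2 ≤ q ∧
    a ≤ r1.res i ∧ a ≤ r2.res i ∧ Vl Γ D N c1 r1 ∧ Vl Γ D N c2 r2 ∧ c1 ≠ c2

theorem Split.mono (h : Split Γ C D i q N a) (ha : a' ≤ a) : Split Γ C D i q N a' := by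
  obtain ⟨r1, r2, c1, c2, h1, h2, h3, h4, h5, h6, h7, h8, h9⟩ := h
  exact ⟨r1, r2, c1, c2, h1, h2, h3, h4, h5, h6, ha.trans h7, ha.trans h8, h9⟩

/-- case 1: `D` is of the right type -/
def JY (Γ : Gr L S) (d e : ℕ → ℕ → Prop) (Yb : K → Set (L ⊕ S)) (C : Set (L ⊕ S)) (D : Nm L S)
    (α : K) (a0 : Raw L S) (i : Set (L ⊕ S)) (q : Raw L S) (k N s : ℕ) (D' : Nm L S)
    (a : Raw L S) : Prop :=
  ∃ b p, JD Γ Yb C α a0 i q D' a b p ∧ RelK Γ d e k D' D p ∧ k ≤ N ∧ Vl Γ D' N s a ∧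
    Split Γ C D i q N a

/-- case 2: `D` is of the left type -/
def JX (Γ : Gr L S) (d e : ℕ → ℕ → Prop) (Yb : K → Set (L ⊕ S)) (C : Set (L ⊕ S)) (D : Nm L S)
    (α : K) (a0 : Raw L S) (i : Set (L ⊕ S)) (q : Raw L S) (k : ℕ) (D' : Nm L S)
    (a : Raw L S) : Prop :=
  ∃ b p, JD Γ Yb C α a0 i q D' a b p ∧ RelK Γ d e k D D' p

theorem JY.mono (h : JY Γ d e Yb C D α a0 i q k N s D' a) (ha : a' ≤ a) :
    JY Γ d e Yb C D α a0 i q k N s D' a' := by
  obtain ⟨b, p, h1, h2, h3, h4, h5⟩ := h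
  exact ⟨b, p, h1.mono ha, h2, h3, h4.mono ha, h5.mono ha⟩

theorem JX.mono (h : JX Γ d e Yb C D α a0 i q k D' a) (ha : a' ≤ a) :
    JX Γ d e Yb C D α a0 i q k D' a' := by
  obtain ⟨b, p, h1, h2⟩ := h
  exact ⟨b, p, h1.mono ha, h2⟩

/-- conditions below the two parts of `p` are below `p` -/
theorem JD.glue (h : JD Γ Yb C α a0 i q D' a b p) (hstrong : ∀ b, Strong Γ (Yb b))
    (hCc : Closed Γ C) (hr : OK Γ r) (h1 : r ≤ q) (h2 : r ≤ p.res (Yb b)) : r ≤ p :=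
  MP186633L.glue (hstrong b) hCc hr h.ok h.supp (h.hq ▸ h1) h2

/-- functionality, case 1 -/
theorem funcY (hde : Good d e) (hmono : Monotone Yb) (hstrong : ∀ b, Strong Γ (Yb b))
    (hCc : Closed Γ C) (hD : RN Γ C D) (hb : b1 ≤ b2)
    (J1 : JD Γ Yb C α a0 i q D1 a b1 p1) (J2 : JD Γ Yb C α a0 i q D2 a b2 p2)
    (R1 : RelK Γ d e k D1 D p1) (R2 : RelK Γ d e k D2 D p2) (hkN : k ≤ N)
    (hV1 : Vl Γ D1 N s a) (hV2 : Vl Γ D2 N s a) (hS : Split Γ C D i q N a) :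
    EqN Γ D1 D2 a := by
  obtain ⟨r1, r2, c1, c2, hr1, hr1C, hr1q, hr2, hr2C, hr2q, har1, har2, hc1, hc2, hc⟩ := hS
  intro n m m' p' hp'a hp' hV hV'
  set n' := max n N with hn'
  obtain ⟨p3', hp3'le, hp3', x, hx⟩ := exists_Vl_all J1.rn hp' n'
  obtain ⟨p3, hp3le, hp3, x', hx'⟩ := exists_Vl_all J2.rn hp3' n'
  have hp3a : p3 ≤ a := hp3le.trans (hp3'le.trans hp'a)
  have hYc : Closed Γ (Yb b2) := (hstrong b2).closed
  have hD1Y : RN Γ (Yb b2) D1 := J1.rn.mono (hmono hb)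
  have hi : C ∩ Yb b2 = i := J2.hi
  have ht : OK Γ (p3.res (Yb b2)) := hp3.res _
  have htY : (p3.res (Yb b2)).In (Yb b2) := Raw.res_In _ _
  have htx : ∀ j ≤ n', Vl Γ D1 j (x j) (p3.res (Yb b2)) := fun j hj =>
    (Vl.res_iff hYc hD1Y hp3).2 ((hx j hj).mono hp3le)
  have htx' : ∀ j ≤ n', Vl Γ D2 j (x' j) (p3.res (Yb b2)) := fun j hj =>
    (Vl.res_iff hYc J2.rn hp3).2 (hx' j hj)
  have ht1 : p3.res (Yb b2) ≤ p1.res (Yb b1) :=
    res_le (hp3a.trans J1.le) ((Raw.res_In _ _).mono (hmono hb))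
  have ht2 : p3.res (Yb b2) ≤ p2.res (Yb b2) := res_le (hp3a.trans J2.le) (Raw.res_In _ _)
  have hiY : i ⊆ Yb b2 := hi ▸ Set.inter_subset_right
  have htr1 : p3.res (Yb b2) ≤ r1.res (C ∩ Yb b2) := by
    rw [hi]
    exact res_le (hp3a.trans har1) ((Raw.res_In _ _).mono hiY)
  have htr2 : p3.res (Yb b2) ≤ r2.res (C ∩ Yb b2) := by
    rw [hi]
    exact res_le (hp3a.trans har2) ((Raw.res_In _ _).mono hiY)
  obtain ⟨s1, hs1, hs1t, hs1r, y, hy⟩ := run (hstrong b2) hCc hD ht htY hr1 hr1C htr1 n'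
  have ht' : OK Γ (s1.res (Yb b2)) := hs1.res _
  have ht't : s1.res (Yb b2) ≤ p3.res (Yb b2) := res_le hs1t htY
  obtain ⟨s2, hs2, hs2t', hs2r, y', hy'⟩ := run (hstrong b2) hCc hD ht' (Raw.res_In _ _) hr2 hr2C
    (ht't.trans htr2) n'
  have hs2t := hs2t'.trans ht't
  have g11 : s1 ≤ p1 := J1.glue hstrong hCc hs1 (hs1r.trans hr1q) (hs1t.trans ht1)
  have g12 : s1 ≤ p2 := J2.glue hstrong hCc hs1 (hs1r.trans hr1q) (hs1t.trans ht2)
  have g21 : s2 ≤ p1 := J1.glue hstrong hCc hs2 (hs2r.trans hr2q) (hs2t.trans ht1)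
  have g22 : s2 ≤ p2 := J2.glue hstrong hCc hs2 (hs2r.trans hr2q) (hs2t.trans ht2)
  have hNn : N ≤ n' := le_max_right _ _
  have hnn : n ≤ n' := le_max_left _ _
  have hyc : y N = c1 := Vl.func hD hs1 (hy N hNn) (hc1.mono hs1r)
  have hyc' : y' N = c2 := Vl.func hD hs2 (hy' N hNn) (hc2.mono hs2r)
  have hxs : x N = s := Vl.func J1.rn hp3 ((hx N hNn).mono hp3le) (hV1.mono hp3a)
  have hxs' : x' N = s := Vl.func J2.rn hp3 (hx' N hNn) (hV2.mono hp3a)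
  have hfour := four hde (n0 := N) (N := n')
    (steps hs1 (R1.mono g11) (fun j hj => (htx j hj).mono hs1t) hy)
    (steps hs2 (R1.mono g21) (fun j hj => (htx j hj).mono hs2t) hy')
    (steps hs1 (R2.mono g12) (fun j hj => (htx' j hj).mono hs1t) hy)
    (steps hs2 (R2.mono g22) (fun j hj => (htx' j hj).mono hs2t) hy')
    hkN hNn (by rw [hyc, hyc']; exact hc) (by rw [hxs, hxs']) n hnn
  have e1 : m = x n := Vl.func J1.rn hp3 (hV.mono (hp3le.trans hp3'le)) ((hx n hnn).mono hp3le)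
  have e2 : m' = x' n := Vl.func J2.rn hp3 (hV'.mono (hp3le.trans hp3'le)) (hx' n hnn)
  rw [e1, e2, hfour]

/-- functionality, case 2 -/
theorem funcX (hde : Good d e) (hmono : Monotone Yb) (hstrong : ∀ b, Strong Γ (Yb b))
    (hC : C.Countable) (hCc : Closed Γ C) (hD : RN Γ C D) (ha0C : a0.In C) (hb : b1 ≤ b2)
    (hno : ∀ b < α, ∀ D', RN Γ (Yb b) D' → ∀ a ≤ a0, OK Γ a → ¬ EqN Γ D D' a)
    (J1 : JD Γ Yb C α a0 i q D1 a b1 p1) (J2 : JD Γ Yb C α a0 i q D2 a b2 p2)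
    (R1 : RelK Γ d e k D D1 p1) (R2 : RelK Γ d e k D D2 p2) : EqN Γ D1 D2 a := by
  intro n m m' p' hp'a hp' hV hV'
  by_contra hne
  set n0 := max n k with hn0
  have hYc : Closed Γ (Yb b2) := (hstrong b2).closed
  have hD1Y : RN Γ (Yb b2) D1 := J1.rn.mono (hmono hb)
  have hi : C ∩ Yb b2 = i := J2.hi
  obtain ⟨p3', hp3'le, hp3', z, hz⟩ := exists_Vl_all J1.rn hp' n0
  obtain ⟨p3, hp3le, hp3, z', hz'⟩ := exists_Vl_all J2.rn hp3' n0
  have hp3a : p3 ≤ a := hp3le.trans (hp3'le.trans hp'a)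
  have ht : OK Γ (p3.res (Yb b2)) := hp3.res _
  have htY : (p3.res (Yb b2)).In (Yb b2) := Raw.res_In _ _
  have htz : ∀ j ≤ n0, Vl Γ D1 j (z j) (p3.res (Yb b2)) := fun j hj =>
    (Vl.res_iff hYc hD1Y hp3).2 ((hz j hj).mono hp3le)
  have htz' : ∀ j ≤ n0, Vl Γ D2 j (z' j) (p3.res (Yb b2)) := fun j hj =>
    (Vl.res_iff hYc J2.rn hp3).2 (hz' j hj)
  have ht1 : p3.res (Yb b2) ≤ p1.res (Yb b1) :=
    res_le (hp3a.trans J1.le) ((Raw.res_In _ _).mono (hmono hb))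
  have ht2 : p3.res (Yb b2) ≤ p2.res (Yb b2) := res_le (hp3a.trans J2.le) (Raw.res_In _ _)
  have hqok : OK Γ q := J2.hq ▸ J2.ok.res C
  have hqC : q.In C := J2.hq ▸ Raw.res_In _ _
  have hqa0 : q ≤ a0 := J2.hq ▸ res_le J2.le0 ha0C
  have htq : p3.res (Yb b2) ≤ q.res (C ∩ Yb b2) := by
    rw [← J2.hq, res_sub p2 Set.inter_subset_left]
    exact le_res_sub ht2 Set.inter_subset_right
  have hnn : n ≤ n0 := le_max_left _ _
  have hkn : k ≤ n0 := le_max_right _ _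
  -- first run
  obtain ⟨s0, hs0, hs0t, hs0q, x0, hx0⟩ := run (hstrong b2) hCc hD ht htY hqok hqC htq n0
  have g01 : s0 ≤ p1 := J1.glue hstrong hCc hs0 hs0q (hs0t.trans ht1)
  have g02 : s0 ≤ p2 := J2.glue hstrong hCc hs0 hs0q (hs0t.trans ht2)
  have hstep1 := steps hs0 (R1.mono g01) hx0 (fun j hj => (htz j hj).mono hs0t)
  have hstep2 := steps hs0 (R2.mono g02) hx0 (fun j hj => (htz' j hj).mono hs0t)
  have hm : m = z n := Vl.func J1.rn hp3 (hV.mono (hp3le.trans hp3'le)) ((hz n hnn).mono hp3le)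
  have hm' : m' = z' n := Vl.func J2.rn hp3 (hV'.mono (hp3le.trans hp3'le)) (hz' n hnn)
  have hzne : z n0 ≠ z' n0 := by
    intro h
    apply hne
    rw [hm, hm']
    exact anc_unique hde z z' (fun j _ hj => hstep1.2.1 j hj) (fun j _ hj => hstep2.2.1 j hj)
      hnn h
  -- no splitting
  have hr0q : s0.res C ≤ q := res_le hs0q hqC
  have ht0t : s0.res (Yb b2) ≤ p3.res (Yb b2) := res_le hs0t htY
  have hr0x : Vl Γ D n0 (x0 n0) (s0.res C) := (Vl.res_iff hCc hD hs0).2 (hx0 n0 le_rfl)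
  obtain ⟨D', hD', hE⟩ := noSplit (hstrong b2) hCc hD (hs0.res C) (Raw.res_In _ _)
    (hs0.res (Yb b2)) (Raw.res_In _ _) hs0 (le_res _ _) (le_res _ _) hC (by
      intro n1 t r1 r2 m1 m2 ht htY htt0 hr1 hr1C hr1r0 hr2 hr2C hr2r0 htr1 htr2 hv1 hv2
      set N0 := max n1 n0 with hN0
      have hn1 : n1 ≤ N0 := le_max_left _ _
      have hn0N : n0 ≤ N0 := le_max_right _ _
      have glue' : ∀ w, OK Γ w → w ≤ t → w ≤ s0.res C → w ≤ p1 ∧ w ≤ p2 := by
        intro w hw hwt hwr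
        have h1 := hwt.trans (htt0.trans ht0t)
        exact ⟨J1.glue hstrong hCc hw (hwr.trans hr0q) (h1.trans ht1),
          J2.glue hstrong hCc hw (hwr.trans hr0q) (h1.trans ht2)⟩
      obtain ⟨s1a, hs1a, hs1at, hs1ar, x, hxa⟩ := run (hstrong b2) hCc hD ht htY hr1 hr1C htr1 N0
      obtain ⟨s1b, hs1ble, hs1b, y, hyb⟩ := exists_Vl_all J1.rn hs1a N0
      obtain ⟨s1, hs1le, hs1, y', hy'⟩ := exists_Vl_all J2.rn hs1b N0
      have hs1a' : s1 ≤ s1a := hs1le.trans hs1ble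
      have hx : ∀ j ≤ N0, Vl Γ D j (x j) s1 := fun j hj => (hxa j hj).mono hs1a'
      have hy : ∀ j ≤ N0, Vl Γ D1 j (y j) s1 := fun j hj => (hyb j hj).mono hs1le
      have hs1t : s1 ≤ t := hs1a'.trans hs1at
      have hs1r : s1 ≤ r1 := hs1a'.trans hs1ar
      have ht' : OK Γ (s1.res (Yb b2)) := hs1.res _
      have ht't : s1.res (Yb b2) ≤ t := res_le hs1t htY
      have hty : ∀ j ≤ N0, Vl Γ D1 j (y j) (s1.res (Yb b2)) := fun j hj =>
        (Vl.res_iff hYc hD1Y hs1).2 (hy j hj)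
      have hty' : ∀ j ≤ N0, Vl Γ D2 j (y' j) (s1.res (Yb b2)) := fun j hj =>
        (Vl.res_iff hYc J2.rn hs1).2 (hy' j hj)
      obtain ⟨s2, hs2, hs2t', hs2r, x', hx'⟩ := run (hstrong b2) hCc hD ht' (Raw.res_In _ _)
        hr2 hr2C (ht't.trans htr2) N0
      have hs2t := hs2t'.trans ht't
      obtain ⟨g11, g12⟩ := glue' s1 hs1 hs1t (hs1r.trans hr1r0)
      obtain ⟨g21, g22⟩ := glue' s2 hs2 hs2t (hs2r.trans hr2r0)
      have hxn0 : x n0 = x0 n0 :=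
        Vl.func hD hs1 (hx n0 hn0N) (hr0x.mono (hs1r.trans hr1r0))
      have hxn0' : x' n0 = x0 n0 :=
        Vl.func hD hs2 (hx' n0 hn0N) (hr0x.mono (hs2r.trans hr2r0))
      have hyn0 : y n0 = z n0 :=
        Vl.func J1.rn hs1 (hy n0 hn0N) ((htz n0 le_rfl).mono (hs1t.trans (htt0.trans ht0t)))
      have hyn0' : y' n0 = z' n0 :=
        Vl.func J2.rn hs1 (hy' n0 hn0N) ((htz' n0 le_rfl).mono (hs1t.trans (htt0.trans ht0t)))
      have hfour := four hde (n0 := n0) (N := N0)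
        (steps hs1 (R1.mono g11) hx hy)
        (steps hs1 (R2.mono g12) hx hy')
        (steps hs2 (R1.mono g21) hx' (fun j hj => (hty j hj).mono hs2t'))
        (steps hs2 (R2.mono g22) hx' (fun j hj => (hty' j hj).mono hs2t'))
        hkn hn0N (by rw [hyn0, hyn0']; exact hzne) (by rw [hxn0, hxn0']) n1 hn1
      have e1 : m1 = x n1 := Vl.func hD hs1 (hv1.mono hs1r) (hx n1 hn1)
      have e2 : m2 = x' n1 := Vl.func hD hs2 (hv2.mono hs2r) (hx' n1 hn1)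
      rw [e1, e2, hfour])
  exact hno b2 J2.lt D' hD' s0 (hs0q.trans hqa0) hs0 hE

/-- the sets `C ∩ Yb b` form a countable family -/
theorem countable_traces [WellFoundedLT K] (hmono : Monotone Yb) (hC : C.Countable) :
    (Set.range fun b => C ∩ Yb b).Countable := by
  have h1 : (Set.range fun b => C ∩ Yb b) ⊆
      (fun c => {x | x ∈ C ∧ ∃ b', c ∉ Yb b' ∧ x ∈ Yb b'}) '' C ∪ {{x | x ∈ C ∧ ∃ b', x ∈ Yb b'}} := by
    rintro A ⟨b, rfl⟩
    by_cases h : ∃ b', ¬ (C ∩ Yb b' ⊆ C ∩ Yb b)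
    · left
      have hwf : WellFounded (fun x y : K => x < y) := wellFounded_lt
      obtain ⟨bp, hbp, hmin⟩ := hwf.has_min {b' | ¬ (C ∩ Yb b' ⊆ C ∩ Yb b)} h
      have hbp' : ¬ (C ∩ Yb bp ⊆ C ∩ Yb b) := hbp
      rw [Set.not_subset] at hbp'
      obtain ⟨c, hc, hcb⟩ := hbp'
      refine ⟨c, hc.1, ?_⟩
      ext x
      constructor
      · rintro ⟨hxC, b', hcb', hxb'⟩
        by_contra hx
        have h2 : ¬ b' < bp := by
          apply hmin
          intro h3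
          exact hx (h3 ⟨hxC, hxb'⟩)
        exact hcb' (hmono (not_lt.1 h2) hc.2)
      · rintro ⟨hxC, hxb⟩
        exact ⟨hxC, b, fun h3 => hcb ⟨hc.1, h3⟩, hxb⟩
    · right
      push Not at h
      rw [Set.mem_singleton_iff]
      ext x
      constructor
      · rintro ⟨hxC, hxb⟩
        exact ⟨hxC, b, hxb⟩
      · rintro ⟨hxC, b', hxb'⟩
        exact h b' ⟨hxC, hxb'⟩
  exact ((hC.image _).union (Set.countable_singleton _)).mono h1

/-- covering, case 1 -/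
theorem coverY (hde : Good d e) (hstrong : ∀ b, Strong Γ (Yb b))
    (hC : C.Countable) (hCc : Closed Γ C) (hD : RN Γ C D) (ha0C : a0.In C)
    (hno : ∀ b < α, ∀ D', RN Γ (Yb b) D' → ∀ a ≤ a0, OK Γ a → ¬ EqN Γ D D' a)
    (hb : b < α) (hD' : RN Γ (Yb b) D') (ha0 : a ≤ a0) (ha : OK Γ a)
    (hR : RelN Γ d e D' D a) : ∃ a' ≤ a, OK Γ a' ∧ ∃ i q k N s,
      i = C ∩ Yb b ∧ OK Γ q ∧ q.In C ∧ JY Γ d e Yb C D α a0 i q k N s D' a' := by
  obtain ⟨a1, ha1, hok1, k, hRk⟩ := hR a le_rfl ha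
  have hYc : Closed Γ (Yb b) := (hstrong b).closed
  have hUc : Closed Γ (C ∪ Yb b) := hCc.union hYc
  have hRp : RelK Γ d e k D' D (a1.res (C ∪ Yb b)) :=
    (RelK.res_iff hUc (hD'.mono Set.subset_union_right) (hD.mono Set.subset_union_left) hok1).2 hRk
  set p := a1.res (C ∪ Yb b) with hp
  have hpok : OK Γ p := hok1.res _
  have hpa0 : p ≤ a0 := res_le (ha1.trans ha0) (ha0C.mono Set.subset_union_left)
  have hpC : p.res C = a1.res C := res_sub a1 Set.subset_union_left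
  have hpY : p.res (Yb b) = a1.res (Yb b) := res_sub a1 Set.subset_union_right
  have hqa0 : a1.res C ≤ a0 := res_le (ha1.trans ha0) ha0C
  -- the splitting
  obtain ⟨a2, ha2, hok2, N, hkN, hS⟩ : ∃ a2 ≤ a1, OK Γ a2 ∧ ∃ N, k ≤ N ∧
      Split Γ C D (C ∩ Yb b) (a1.res C) N a2 := by
    by_contra hcon
    push Not at hcon
    obtain ⟨Ds, hDs, hE⟩ := noSplit (hstrong b) hCc hD (hok1.res C) (Raw.res_In _ _)
      (hok1.res (Yb b)) (Raw.res_In _ _) hok1 (le_res _ _) (le_res _ _) hC (by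
        intro n t r1 r2 m1 m2 ht htY htt0 hr1 hr1C hr1q hr2 hr2C hr2q htr1 htr2 hv1 hv2
        by_contra hne
        set N := max n k with hN
        have hnN : n ≤ N := le_max_left _ _
        have hkN : k ≤ N := le_max_right _ _
        have glue' : ∀ w, OK Γ w → w ≤ t → w ≤ a1.res C → w ≤ p := fun w hw hwt hwq =>
          MP186633L.glue (hstrong b) hCc hw hpok (Raw.res_In _ _) (hpC ▸ hwq)
            (hpY ▸ hwt.trans htt0)
        obtain ⟨s1, hs1, hs1t, hs1r, y, hy⟩ := run (hstrong b) hCc hD ht htY hr1 hr1C htr1 N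
        have ht' : OK Γ (s1.res (Yb b)) := hs1.res _
        have ht't : s1.res (Yb b) ≤ t := res_le hs1t htY
        obtain ⟨s2, hs2, hs2t', hs2r, y', hy'⟩ := run (hstrong b) hCc hD ht' (Raw.res_In _ _)
          hr2 hr2C (ht't.trans htr2) N
        have hs2t := hs2t'.trans ht't
        have g1 : s1 ≤ p := glue' s1 hs1 hs1t (hs1r.trans hr1q)
        have g2 : s2 ≤ p := glue' s2 hs2 hs2t (hs2r.trans hr2q)
        have hyn : y n = m1 := Vl.func hD hs1 (hy n hnN) (hv1.mono hs1r)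
        have hyn' : y' n = m2 := Vl.func hD hs2 (hy' n hnN) (hv2.mono hs2r)
        have hyN : y N ≠ y' N := by
          intro h
          apply hne
          rw [← hyn, ← hyn']
          exact anc_unique hde y y'
            (fun j _ hj => (hRp.mono g1).brR le_rfl hs1 (hy j hj.le) (hy (j + 1) hj))
            (fun j _ hj => (hRp.mono g2).brR le_rfl hs2 (hy' j hj.le) (hy' (j + 1) hj)) hnN h
        -- the amalgam with `a1`
        have ht'' : OK Γ (s2.res (Yb b)) := hs2.res _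
        have ht''t : s2.res (Yb b) ≤ t := res_le hs2t htY
        obtain ⟨a2, hok2, ha21, ha22⟩ := proj' hYc hok1 ht'' (Raw.res_In _ _) (ht''t.trans htt0)
        refine hcon a2 ha21 hok2 N hkN ⟨s1.res C, s2.res C, y N, y' N, hs1.res C, Raw.res_In _ _,
          (res_le hs1r hr1C).trans hr1q, hs2.res C, Raw.res_In _ _, (res_le hs2r hr2C).trans hr2q,
          ?_, ?_, (Vl.res_iff hCc hD hs1).2 (hy N le_rfl), (Vl.res_iff hCc hD hs2).2 (hy' N le_rfl),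
          hyN⟩
        · rw [res_sub s1 Set.inter_subset_left]
          have h1 : s2.res (Yb b) ≤ s1.res (Yb b) := res_le hs2t' (Raw.res_In _ _)
          exact ha22.trans (le_res_sub h1 Set.inter_subset_right)
        · rw [res_sub s2 Set.inter_subset_left]
          exact ha22.trans (le_res_sub le_rfl Set.inter_subset_right))
    exact hno b hb Ds hDs a1 (ha1.trans ha0) hok1 hE
  obtain ⟨a3, ha3, hok3, s, hs⟩ := exists_Vl hD' hok2 N
  refine ⟨a3, ha3.trans (ha2.trans ha1), hok3, C ∩ Yb b, a1.res C, k, N, s, rfl, hok1.res C,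
    Raw.res_In _ _, b, p, ⟨hb, rfl, hD', hpok, Raw.res_In _ _, hpa0, hpC, ?_⟩, hRp, hkN, hs,
    hS.mono ha3⟩
  rw [hpY]
  exact (ha3.trans ha2).trans (le_res _ _)

/-- covering, case 2 -/
theorem coverX (hstrong : ∀ b, Strong Γ (Yb b)) (hCc : Closed Γ C) (hD : RN Γ C D)
    (ha0C : a0.In C) (hb : b < α) (hD' : RN Γ (Yb b) D') (ha0 : a ≤ a0) (ha : OK Γ a)
    (hR : RelN Γ d e D D' a) : ∃ a' ≤ a, OK Γ a' ∧ ∃ i q k,
      i = C ∩ Yb b ∧ OK Γ q ∧ q.In C ∧ JX Γ d e Yb C D α a0 i q k D' a' := by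
  obtain ⟨a1, ha1, hok1, k, hRk⟩ := hR a le_rfl ha
  have hYc : Closed Γ (Yb b) := (hstrong b).closed
  have hUc : Closed Γ (C ∪ Yb b) := hCc.union hYc
  have hRp : RelK Γ d e k D D' (a1.res (C ∪ Yb b)) :=
    (RelK.res_iff hUc (hD.mono Set.subset_union_left) (hD'.mono Set.subset_union_right) hok1).2 hRk
  refine ⟨a1, ha1, hok1, C ∩ Yb b, a1.res C, k, rfl, hok1.res C, Raw.res_In _ _, b,
    a1.res (C ∪ Yb b), ⟨hb, rfl, hD', hok1.res _, Raw.res_In _ _,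
      res_le (ha1.trans ha0) (ha0C.mono Set.subset_union_left),
      res_sub a1 Set.subset_union_left, ?_⟩, hRp⟩
  rw [res_sub a1 Set.subset_union_right]
  exact le_res _ _

end LB

open LB in
/-- **Lemma B.** Let `Yb` be an increasing well-ordered family of strong sets, `D` a name with
countable support which is not equal, below `a0`, to a name supported in one of the `Yb b`,
`b < α`.  Then the names with support in some `Yb b`, `b < α`, which are related to `D` are covered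
by a countable functional family. -/
theorem lemmaB {d e : ℕ → ℕ → Prop} (hde : Good d e) {K : Type} [LinearOrder K]
    [WellFoundedLT K] (Yb : K → Set (L ⊕ S)) (hmono : Monotone Yb)
    (hstrong : ∀ b, Strong Γ (Yb b)) {C : Set (L ⊕ S)} (hC : C.Countable)
    (hCc : Closed Γ C) {D : Nm L S} (hD : RN Γ C D) (α : K) {a0 : Raw L S} (ha0 : OK Γ a0)
    (ha0C : a0.In C)
    (hno : ∀ b < α, ∀ D', RN Γ (Yb b) D' → ∀ a ≤ a0, OK Γ a → ¬ EqN Γ D D' a) :
    ∃ J : ℕ → Nm L S → Raw L S → Prop,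
      (∀ n D' a a', J n D' a → a' ≤ a → OK Γ a' → J n D' a') ∧
      (∀ n D1 D2 a, OK Γ a → J n D1 a → J n D2 a → EqN Γ D1 D2 a) ∧
      ∀ b < α, ∀ D', RN Γ (Yb b) D' → ∀ a ≤ a0, OK Γ a →
        (RelN Γ d e D' D a ∨ RelN Γ d e D D' a) → ∃ a' ≤ a, OK Γ a' ∧ ∃ n, J n D' a' := by
  obtain ⟨fi, hfi⟩ := Set.countable_iff_exists_injOn.1 (countable_traces (Yb := Yb) hmono hC)
  obtain ⟨fq, hfq⟩ := Set.countable_iff_exists_injOn.1 (countable_ok Γ hC)
  set code : Bool → Set (L ⊕ S) → Raw L S → ℕ → ℕ → ℕ → ℕ := fun t i q k N s =>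
    Encodable.encode (t, fi i, fq q, k, N, s) with hcode
  have hinj : ∀ {t t' : Bool} {i i' : Set (L ⊕ S)} {q q' : Raw L S} {k k' N N' s s' : ℕ},
      i ∈ (Set.range fun b => C ∩ Yb b) → i' ∈ (Set.range fun b => C ∩ Yb b) →
      q ∈ {p : Raw L S | OK Γ p ∧ p.In C} → q' ∈ {p : Raw L S | OK Γ p ∧ p.In C} →
      code t i q k N s = code t' i' q' k' N' s' →
      t = t' ∧ i = i' ∧ q = q' ∧ k = k' ∧ N = N' ∧ s = s' := by
    intro t t' i i' q q' k k' N N' s s' hi hi' hq hq' h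
    have h1 := Encodable.encode_injective h
    simp only [Prod.mk.injEq] at h1
    obtain ⟨h1, h2, h3, h4, h5, h6⟩ := h1
    exact ⟨h1, hfi hi hi' h2, hfq hq hq' h3, h4, h5, h6⟩
  refine ⟨fun n D' a => ∃ i q k N s, i ∈ (Set.range fun b => C ∩ Yb b) ∧
    q ∈ {p : Raw L S | OK Γ p ∧ p.In C} ∧
    ((n = code true i q k N s ∧ JY Γ d e Yb C D α a0 i q k N s D' a) ∨
      (n = code false i q k N s ∧ JX Γ d e Yb C D α a0 i q k D' a)), ?_, ?_, ?_⟩
  · rintro n D' a a' ⟨i, q, k, N, s, hi, hq, h⟩ ha' _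
    refine ⟨i, q, k, N, s, hi, hq, ?_⟩
    rcases h with ⟨h1, h2⟩ | ⟨h1, h2⟩
    · exact Or.inl ⟨h1, h2.mono ha'⟩
    · exact Or.inr ⟨h1, h2.mono ha'⟩
  · rintro n D1 D2 a ha ⟨i, q, k, N, s, hi, hq, h⟩ ⟨i', q', k', N', s', hi', hq', h'⟩
    rcases h with ⟨h1, h2⟩ | ⟨h1, h2⟩ <;> rcases h' with ⟨h1', h2'⟩ | ⟨h1', h2'⟩
    · obtain ⟨-, rfl, rfl, rfl, rfl, rfl⟩ := hinj hi hi' hq hq' (h1.symm.trans h1')
      obtain ⟨b1, p1, J1, R1, hkN, hV1, hS⟩ := h2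
      obtain ⟨b2, p2, J2, R2, -, hV2, -⟩ := h2'
      rcases le_total b1 b2 with hb | hb
      · exact funcY hde hmono hstrong hCc hD hb J1 J2 R1 R2 hkN hV1 hV2 hS
      · exact (funcY hde hmono hstrong hCc hD hb J2 J1 R2 R1 hkN hV2 hV1 hS).symm
    · exact absurd (hinj hi hi' hq hq' (h1.symm.trans h1')).1 (by decide)
    · exact absurd (hinj hi hi' hq hq' (h1.symm.trans h1')).1 (by decide)
    · obtain ⟨-, rfl, rfl, rfl, rfl, rfl⟩ := hinj hi hi' hq hq' (h1.symm.trans h1')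
      obtain ⟨b1, p1, J1, R1⟩ := h2
      obtain ⟨b2, p2, J2, R2⟩ := h2'
      rcases le_total b1 b2 with hb | hb
      · exact funcX hde hmono hstrong hC hCc hD ha0C hb hno J1 J2 R1 R2
      · exact (funcX hde hmono hstrong hC hCc hD ha0C hb hno J2 J1 R2 R1).symm
  · intro b hb D' hD' a haa0 ha hR
    rcases hR with hR | hR
    · obtain ⟨a', ha', hok', i, q, k, N, s, hi, hq, hqC, hJ⟩ :=
        coverY hde hstrong hC hCc hD ha0C hno hb hD' haa0 ha hR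
      exact ⟨a', ha', hok', code true i q k N s, i, q, k, N, s, ⟨b, hi.symm⟩, ⟨hq, hqC⟩,
        Or.inl ⟨rfl, hJ⟩⟩
    · obtain ⟨a', ha', hok', i, q, k, hi, hq, hqC, hJ⟩ :=
        coverX hstrong hCc hD ha0C hb hD' haa0 ha hR
      exact ⟨a', ha', hok', code false i q k 0 0, i, q, k, 0, 0, ⟨b, hi.symm⟩, ⟨hq, hqC⟩,
        Or.inr ⟨rfl, hJ⟩⟩

end MP186633L
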