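import Pool.Agent.Lib.MP_186633_lc.QA
import Pool.Agent.Lib.MP_186633_lc.QB

/-!
# MP_186633_lc: Lemma C, base case
-/

namespace MP186633L

open Cardinal

variable {L S : Type}

/-- the names supported in a set of size at most the continuum can be coded injectively by
functions from `ℕ` to `ℕ` -/
theorem exists_code (Γ : Gr L S) (Y : Set (L ⊕ S)) (hY : #Y ≤ 𝔠) :
    ∃ code : Nm L S → (ℕ → ℕ), ∀ D D', RN Γ Y D → RN Γ Y D' → code D = code D' → D = D' := by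
  classical
  have h1 : #{D : Nm L S | RN Γ Y D} ≤ 𝔠 :=
    card_RN Γ Y 𝔠 continuum_power_aleph0 aleph0_le_continuum hY
  have h2 : #(ℕ → ℕ) = 𝔠 := by simp
  rw [← h2] at h1
  obtain ⟨f⟩ := h1
  refine ⟨fun D => if hD : RN Γ Y D then f ⟨D, hD⟩ else fun _ => 0, ?_⟩
  intro D D' hD hD' h
  simp only [dif_pos hD, dif_pos hD'] at h
  have := f.injective h
  simpa using this

/-- extend a countable condition so that its domain contains the initial segment given by `k` and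
has the value `x` at `k`, for some `k` -/
theorem Coll.exists_ext (h : Coll) (x : ℕ → ℕ) : ∃ h' ≤ h, ∃ k, h'.f k = some x ∧
    ∀ j ≤ k, h'.f j ≠ none := by
  classical
  have hb : ∃ k, ∀ i, h.f i ≠ none → i < k := by
    by_cases hne : {i | h.f i ≠ none}.Nonempty
    · obtain ⟨g, hg⟩ := h.ctbl.exists_eq_range hne
      obtain ⟨k, hk⟩ := Om1_bdd g
      refine ⟨k, fun i hi => ?_⟩
      have : i ∈ Set.range g := by rw [← hg]; exact hi
      obtain ⟨n, rfl⟩ := this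
      exact hk n
    · obtain ⟨k, -⟩ : ∃ k : Om1, True := by
        by_contra hcon
        push Not at hcon
        apply Om1_uncountable
        have : (Set.univ : Set Om1) = ∅ := by
          ext i
          simp only [Set.mem_univ, Set.mem_empty_iff_false, iff_false, not_true_eq_false]
          exact (hcon i).elim
        rw [this]
        exact Set.countable_empty
      refine ⟨k, fun i hi => ?_⟩
      exact absurd ⟨i, hi⟩ hne
  obtain ⟨k, hk⟩ := hb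
  refine ⟨⟨fun i => if h.f i ≠ none then h.f i else if i ≤ k then some x else none, ?_⟩, ?_, k,
    ?_, ?_⟩
  · refine ((Om1_countable_Iic k).union h.ctbl).mono ?_
    intro i hi
    change (if h.f i ≠ none then h.f i else if i ≤ k then some x else none) ≠ none at hi
    by_cases h1 : h.f i ≠ none
    · right; exact h1
    · left
      rw [if_neg h1] at hi
      by_contra h2
      exact hi (if_neg h2)
  · intro i y hy
    have h1 : h.f i ≠ none := by rw [hy]; simp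
    change (if h.f i ≠ none then h.f i else if i ≤ k then some x else none) = some y
    rw [if_pos h1, hy]
  · have h1 : ¬ h.f k ≠ none := fun h1 => lt_irrefl _ (hk k h1)
    change (if h.f k ≠ none then h.f k else if k ≤ k then some x else none) = some x
    rw [if_neg h1, if_pos le_rfl]
  · intro j hj
    change (if h.f j ≠ none then h.f j else if j ≤ k then some x else none) ≠ none
    by_cases h1 : h.f j ≠ none
    · rw [if_pos h1]; exact h1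
    · rw [if_neg h1, if_pos hj]; simp

/-- the key function in the base case -/
def key0 (Γ : Gr L S) (Y : Set (L ⊕ S)) (code : Nm L S → (ℕ → ℕ)) (D : Nm L S) (k : Om1)
    (h : Coll) (p : Raw L S) : Prop :=
  ∃ D', RN Γ Y D' ∧ h.f k = some (code D') ∧ EqN Γ D D' p ∧
    ∀ j < k, h.f j ≠ none ∧ ∀ D'', RN Γ Y D'' → h.f j = some (code D'') →
      ∀ q ≤ p, OK Γ q → ¬ EqN Γ D D'' q

theorem key0_lt_false {Γ : Gr L S} {Y : Set (L ⊕ S)} {code : Nm L S → (ℕ → ℕ)} {D D' : Nm L S}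
    {k k' : Om1} {h : Coll} {p : Raw L S} (hD : RN Γ Y D) (hp : OK Γ p)
    (h1 : key0 Γ Y code D k h p) (h2 : key0 Γ Y code D' k' h p) (he : EqN Γ D D' p)
    (hlt : k < k') : False := by
  obtain ⟨D1, hD1, hf1, he1, -⟩ := h1
  obtain ⟨D2, hD2, hf2, he2, hm2⟩ := h2
  exact (hm2 k hlt).2 D1 hD1 hf1 p le_rfl hp (EqN.trans hD he.symm he1)

/-- key functions for sets of size at most the continuum, from the collapse -/
theorem lemmaC_zero (Γ : Gr L S) (d e : ℕ → ℕ → Prop) (Y : Set (L ⊕ S)) (hY : #Y ≤ 𝔠) :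
    ∃ κ : Nm L S → Om1 → Coll → Raw L S → Prop, KeyFun Γ d e Y Om1 κ := by
  classical
  obtain ⟨code, hcode⟩ := exists_code Γ Y hY
  have hfunc : ∀ {D D' k k' h p}, RN Γ Y D → RN Γ Y D' → OK Γ p → key0 Γ Y code D k h p →
      key0 Γ Y code D' k' h p → EqN Γ D D' p → k = k' := by
    intro D D' k k' h p hD hD' hp h1 h2 he
    rcases lt_trichotomy k k' with hlt | heq | hgt
    · exact (key0_lt_false hD hp h1 h2 he hlt).elim
    · exact heq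
    · exact (key0_lt_false hD' hp h2 h1 he.symm hgt).elim
  have hinj : ∀ {D D' k h p}, RN Γ Y D → RN Γ Y D' → OK Γ p → key0 Γ Y code D k h p →
      key0 Γ Y code D' k h p → EqN Γ D D' p := by
    intro D D' k h p hD hD' hp h1 h2
    obtain ⟨D1, hD1, hf1, he1, -⟩ := h1
    obtain ⟨D2, hD2, hf2, he2, -⟩ := h2
    have h12 : D1 = D2 := by
      apply hcode D1 D2 hD1 hD2
      rw [hf1] at hf2
      exact Option.some.inj hf2
    subst h12
    exact EqN.trans hD1 he1 he2.symm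
  have henum : ∀ k : Om1, ∃ f : Om1 → ℕ, Set.InjOn f (Set.Iio k) := by
    intro k
    exact Set.countable_iff_exists_injOn.1 (Om1_countable_Iio k)
  choose enum henum using henum
  refine ⟨key0 Γ Y code, ?_, ?_, hfunc, hinj, ?_⟩
  · -- mono
    intro D k h p h' p' hk hh hp hok
    obtain ⟨D1, hD1, hf1, he1, hm1⟩ := hk
    refine ⟨D1, hD1, hh k _ hf1, he1.mono hp, ?_⟩
    intro j hj
    obtain ⟨hj1, hj2⟩ := hm1 j hj
    obtain ⟨x, hx⟩ := Option.ne_none_iff_exists'.1 hj1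
    have hx' := hh j x hx
    refine ⟨by rw [hx']; simp, ?_⟩
    intro D'' hD'' hf q hq hqok
    rw [hx'] at hf
    rw [hf] at hx
    exact hj2 D'' hD'' hx q (hq.trans hp) hqok
  · -- total
    intro D h p hD hp
    obtain ⟨h1, hh1, k, hk, hk'⟩ := h.exists_ext (code D)
    let A : Set Om1 := {j | ∃ q ≤ p, OK Γ q ∧ ∃ D'', RN Γ Y D'' ∧ h1.f j = some (code D'') ∧
      EqN Γ D D'' q}
    have hA : A.Nonempty := ⟨k, p, le_rfl, hp, D, hD, hk, EqN.refl hD p⟩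
    have hwf : WellFounded ((· < ·) : Om1 → Om1 → Prop) := wellFounded_lt
    obtain ⟨q, hq, hqok, D1, hD1, hf1, he1⟩ := hwf.min_mem A hA
    have hmink : hwf.min A hA ≤ k := by
      by_contra hcon
      exact hwf.not_lt_min A (x := k) ⟨p, le_rfl, hp, D, hD, hk, EqN.refl hD p⟩ (not_le.1 hcon)
    refine ⟨h1, hh1, q, hq, hqok, hwf.min A hA, D1, hD1, hf1, he1, ?_⟩
    intro j hj
    refine ⟨hk' j (hj.le.trans hmink), ?_⟩
    intro D'' hD'' hf q' hq' hqok' hE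
    exact hwf.not_lt_min A (x := j) ⟨q', hq'.trans hq, hqok', D'', hD'', hf, hE⟩ hj
  · -- back
    intro D h p hD hp
    refine ⟨h, le_rfl, p, le_rfl, hp, fun n D' h1 p1 => ∃ j k, key0 Γ Y code D k h1 p1 ∧
      key0 Γ Y code D' j h1 p1 ∧ j < k ∧ enum k j = n ∧ OK Γ p1, ?_, ?_, ?_⟩
    · intro n D' h1 p1 h2 p2 hJ hh hp2 hok2
      obtain ⟨j, k, hk, hj, hjk, hn, hok⟩ := hJ
      refine ⟨j, k, ?_, ?_, hjk, hn, hok2⟩
      · obtain ⟨D1, hD1, hf1, he1, hm1⟩ := hk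
        refine ⟨D1, hD1, hh k _ hf1, he1.mono hp2, ?_⟩
        intro j hj
        obtain ⟨hj1, hj2⟩ := hm1 j hj
        obtain ⟨x, hx⟩ := Option.ne_none_iff_exists'.1 hj1
        have hx' := hh j x hx
        refine ⟨by rw [hx']; simp, ?_⟩
        intro D'' hD'' hf q hq hqok
        rw [hx'] at hf
        rw [hf] at hx
        exact hj2 D'' hD'' hx q (hq.trans hp2) hqok
      · obtain ⟨D1, hD1, hf1, he1, hm1⟩ := hj
        refine ⟨D1, hD1, hh j _ hf1, he1.mono hp2, ?_⟩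
        intro j hj
        obtain ⟨hj1, hj2⟩ := hm1 j hj
        obtain ⟨x, hx⟩ := Option.ne_none_iff_exists'.1 hj1
        have hx' := hh j x hx
        refine ⟨by rw [hx']; simp, ?_⟩
        intro D'' hD'' hf q hq hqok
        rw [hx'] at hf
        rw [hf] at hx
        exact hj2 D'' hD'' hx q (hq.trans hp2) hqok
    · intro n D1 D2 h1 p1 hD1 hD2 hok hJ1 hJ2
      obtain ⟨j1, k1, hk1, hj1, hjk1, hn1, -⟩ := hJ1
      obtain ⟨j2, k2, hk2, hj2, hjk2, hn2, -⟩ := hJ2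
      have hkk : k1 = k2 := hfunc hD hD hok hk1 hk2 (EqN.refl hD p1)
      subst hkk
      have hjj : j1 = j2 := henum k1 hjk1 hjk2 (hn1.trans hn2.symm)
      subst hjj
      exact hinj hD1 hD2 hok hj1 hj2
    · intro h1 hh1 p1 hp1 hok1 D' k k' hD' hk hk' hlt _
      exact ⟨h1, le_rfl, p1, le_rfl, hok1, enum k k', k', k, hk, hk', hlt, rfl, hok1⟩

end MP186633L

/-!
# MP_186633_lc: Lemma C, successor step
-/

namespace MP186633L

open Cardinal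

variable {L S : Type}

namespace LemCs

/-- `p` forces that the name `D` appears at stage `b` of the filtration `Yb` -/
structure At (Γ : Gr L S) {K : Type} [LinearOrder K] (Yb : K → Set (L ⊕ S)) (b : K)
    (D : Nm L S) (p : Raw L S) : Prop where
  ex : ∃ D1, RN Γ (Yb b) D1 ∧ EqN Γ D D1 p
  new : ∀ b' < b, ∀ q ≤ p, OK Γ q → ∀ D1, RN Γ (Yb b') D1 → ¬ EqN Γ D D1 q

variable {Γ : Gr L S} {K : Type} [LinearOrder K] {Yb : K → Set (L ⊕ S)}

theorem At.mono {b : K} {D : Nm L S} {p q : Raw L S} (h : At Γ Yb b D p) (hq : q ≤ p) :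
    At Γ Yb b D q := by
  refine ⟨?_, fun b' hb' r hr hr' D1 hD1 => h.new b' hb' r (hr.trans hq) hr' D1 hD1⟩
  obtain ⟨D1, h1, h2⟩ := h.ex
  exact ⟨D1, h1, h2.mono hq⟩

theorem At.le {Y : Set (L ⊕ S)} {b b' : K} {D D' : Nm L S} {p : Raw L S} (hp : OK Γ p)
    (hD : RN Γ Y D) (h : At Γ Yb b D p) (h' : At Γ Yb b' D' p) (he : EqN Γ D D' p) :
    b' ≤ b := by
  by_contra hlt
  have hlt' : b < b' := not_le.mp hlt
  obtain ⟨D1, h1, h2⟩ := h.ex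
  exact h'.new b hlt' p le_rfl hp D1 h1 (EqN.trans hD he.symm h2)

theorem At.eq {Y : Set (L ⊕ S)} {b b' : K} {D D' : Nm L S} {p : Raw L S} (hp : OK Γ p)
    (hD : RN Γ Y D) (hD' : RN Γ Y D') (h : At Γ Yb b D p) (h' : At Γ Yb b' D' p)
    (he : EqN Γ D D' p) : b = b' :=
  le_antisymm (At.le hp hD' h' h he.symm) (At.le hp hD h h' he)

/-- the key: first the stage, then the key at this stage -/
def kap (Γ : Gr L S) (Yb : K → Set (L ⊕ S)) (K' : K → Type)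
    (κ' : ∀ b, Nm L S → K' b → Coll → Raw L S → Prop) (D : Nm L S) (k : Σₗ b, K' b)
    (h : Coll) (p : Raw L S) : Prop :=
  At Γ Yb (ofLex k).1 D p ∧ ∃ D1, RN Γ (Yb (ofLex k).1) D1 ∧ EqN Γ D D1 p ∧
    κ' (ofLex k).1 D1 (ofLex k).2 h p

theorem exists_at [WellFoundedLT K] {Y : Set (L ⊕ S)}
    (hcov : ∀ C ⊆ Y, C.Countable → ∃ b, C ⊆ Yb b) {D : Nm L S} (hD : RN Γ Y D) {p : Raw L S}
    (hp : OK Γ p) :
    ∃ b, ∃ q ≤ p, OK Γ q ∧ At Γ Yb b D q := by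
  classical
  let P : K → Prop := fun b => ∃ q ≤ p, OK Γ q ∧ ∃ D1, RN Γ (Yb b) D1 ∧ EqN Γ D D1 q
  have hne : ∃ b, P b := by
    obtain ⟨C, hC, hCc, hDC⟩ := hD.exists_ctbl
    obtain ⟨b, hb⟩ := hcov C hC hCc
    exact ⟨b, p, le_rfl, hp, D, hDC.mono hb, EqN.refl hD p⟩
  obtain ⟨b, hb, hmin⟩ := WellFounded.has_min (wellFounded_lt (α := K)) {b | P b} hne
  obtain ⟨q, hq, hqok, D1, hD1, he⟩ := hb
  refine ⟨b, q, hq, hqok, ⟨D1, hD1, he⟩, ?_⟩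
  intro b' hb' r hr hrok D2 hD2 he2
  exact hmin b' ⟨r, hr.trans hq, hrok, D2, hD2, he2⟩ hb'

end LemCs

open LemCs in
/-- the successor step of Lemma C: `Y` is the union of a well-ordered increasing family of strong
sets carrying key functions, and every countable subset of `Y` is contained in a member -/
theorem lemmaC_succ (Γ : Gr L S) {d e : ℕ → ℕ → Prop} (hde : Good d e) {Y : Set (L ⊕ S)}
    (hY : Closed Γ Y) {K : Type} [LinearOrder K] [WellFoundedLT K] (Yb : K → Set (L ⊕ S))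
    (hmono : Monotone Yb) (hstrong : ∀ b, Strong Γ (Yb b)) (hsub : ∀ b, Yb b ⊆ Y)
    (hcov : ∀ C ⊆ Y, C.Countable → ∃ b, C ⊆ Yb b) (K' : K → Type)
    [∀ b, LinearOrder (K' b)] [∀ b, WellFoundedLT (K' b)]
    (κ' : ∀ b, Nm L S → K' b → Coll → Raw L S → Prop)
    (hκ' : ∀ b, KeyFun Γ d e (Yb b) (K' b) (κ' b)) :
    ∃ κ : Nm L S → (Σₗ b, K' b) → Coll → Raw L S → Prop, KeyFun Γ d e Y (Σₗ b, K' b) κ := by
  classical
  have hmono' : ∀ {D k h p h' p'}, kap Γ Yb K' κ' D k h p → h' ≤ h → p' ≤ p → OK Γ p' →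
      kap Γ Yb K' κ' D k h' p' := by
    intro D k h p h' p' hk hh hp hok
    obtain ⟨h1, D1, h2, h3, h4⟩ := hk
    exact ⟨h1.mono hp, D1, h2, h3.mono hp, (hκ' _).mono h4 hh hp hok⟩
  have htotal : ∀ {D h p}, RN Γ Y D → OK Γ p → ∃ h' ≤ h, ∃ p' ≤ p, OK Γ p' ∧
      ∃ k, kap Γ Yb K' κ' D k h' p' := by
    intro D h p hD hp
    obtain ⟨b, q, hq, hqok, hat⟩ := exists_at hcov hD hp
    obtain ⟨D1, hD1, he⟩ := hat.ex
    obtain ⟨h', hh', p', hp', hok', k, hk⟩ := (hκ' b).total (h := h) hD1 hqok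
    exact ⟨h', hh', p', hp'.trans hq, hok', toLex ⟨b, k⟩, hat.mono hp', D1, hD1, he.mono hp', hk⟩
  refine ⟨kap Γ Yb K' κ', ⟨hmono', htotal, ?_, ?_, ?_⟩⟩
  · -- func
    intro D D' k k' h p hD hD' hp hk hk' he
    obtain ⟨h1, D1, h2, h3, h4⟩ := hk
    obtain ⟨h1', D1', h2', h3', h4'⟩ := hk'
    have hb := At.eq hp hD hD' h1 h1' he
    obtain ⟨b, k⟩ := k
    obtain ⟨b', k'⟩ := k'
    change b = b' at hb
    subst hb
    have : k = k' := (hκ' b).func h2 h2' hp h4 h4'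
      (EqN.trans hD h3.symm (EqN.trans hD' he h3'))
    subst this
    rfl
  · -- inj
    intro D D' k h p hD hD' hp hk hk'
    obtain ⟨h1, D1, h2, h3, h4⟩ := hk
    obtain ⟨h1', D1', h2', h3', h4'⟩ := hk'
    have := (hκ' _).inj h2 h2' hp h4 h4'
    exact EqN.trans h2 h3 (EqN.trans h2' this h3'.symm)
  · -- back
    intro D h p hD hp
    obtain ⟨h0, hh0, p0, hp0, hok0, k0, hat0, D1, hD1, he1, hk1⟩ := htotal (h := h) hD hp
    obtain ⟨b, k0⟩ := k0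
    change At Γ Yb b D p0 at hat0
    change RN Γ (Yb b) D1 at hD1
    change κ' b D1 k0 h0 p0 at hk1
    have hD1Y : RN Γ Y D1 := hD1.mono (hsub b)
    obtain ⟨h', hh', p', hp', hok', J1, hJ1m, hJ1f, hJ1c⟩ := (hκ' b).back (h := h0) hD1 hok0
    -- the countable closed set
    obtain ⟨C1, hC1, hC1c, hDC1⟩ := hD1.exists_ctbl
    obtain ⟨C, hXC, hCc, hCcl⟩ := exists_closed Γ
      (C1 ∪ ((Sum.inl '' (↑(p'.res Y).u : Set L)) ∪ Sum.inr '' (↑(p'.res Y).w : Set S)))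
      (hC1c.union (((p'.res Y).u.countable_toSet.image _).union
        ((p'.res Y).w.countable_toSet.image _)))
    have ha0C : (p'.res Y).In C := by
      refine ⟨fun v hv => hXC (Or.inr (Or.inl ⟨v, hv, rfl⟩)),
        fun ξ hξ => hXC (Or.inr (Or.inr ⟨ξ, hξ, rfl⟩))⟩
    have hDC : RN Γ C D1 := hDC1.mono fun x hx => hXC (Or.inl hx)
    have hat' : At Γ Yb b D p' := hat0.mono hp'
    have he' : EqN Γ D D1 p' := he1.mono hp'
    obtain ⟨JB, hJBm, hJBf, hJBc⟩ := lemmaB hde Yb hmono hstrong hCc hCcl hDC b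
      (a0 := p'.res Y) (hok'.res Y) ha0C (by
        intro b' hb' D' hD' a ha haok hEq
        have hD'Y : RN Γ Y D' := hD'.mono (hsub b')
        have h1 : EqN Γ D1 D' (a.res Y) := (EqN.res_iff hY hD1Y hD'Y haok).mpr hEq
        have h2 : a.res Y ≤ p'.res Y := res_le ha (Raw.res_In p' Y)
        obtain ⟨r, hr, hr1, hr2⟩ := proj' hY hok' (haok.res Y) (Raw.res_In a Y) h2
        exact hat'.new b' hb' r hr1 hr D' hD' (EqN.trans hD1Y (he'.mono hr1) (h1.mono hr2)))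
    let J : ℕ → Nm L S → Coll → Raw L S → Prop := fun n D' h1 p1 =>
      (∃ i, n = 2 * i ∧ ∃ D2, RN Γ (Yb b) D2 ∧ EqN Γ D' D2 p1 ∧ J1 i D2 h1 p1) ∨
      (∃ i, n = 2 * i + 1 ∧ ∃ D2, RN Γ Y D2 ∧ EqN Γ D' D2 p1 ∧ JB i D2 p1)
    refine ⟨h', hh'.trans hh0, p', hp'.trans hp0, hok', J, ?_, ?_, ?_⟩
    · rintro n D' h1 p1 h2 p2 hJ hh hpp hok2
      rcases hJ with ⟨i, hi, D2, hD2, hE, hJ⟩ | ⟨i, hi, D2, hD2, hE, hJ⟩
      · exact Or.inl ⟨i, hi, D2, hD2, hE.mono hpp, hJ1m i D2 h1 p1 h2 p2 hJ hh hpp hok2⟩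
      · exact Or.inr ⟨i, hi, D2, hD2, hE.mono hpp, hJBm i D2 p1 p2 hJ hpp hok2⟩
    · intro n Da Db h1 p1 hDa hDb hok1 hJa hJb
      rcases hJa with ⟨i, hi, D2, hD2, hE, hJ⟩ | ⟨i, hi, D2, hD2, hE, hJ⟩ <;>
      rcases hJb with ⟨i', hi', D2', hD2', hE', hJ'⟩ | ⟨i', hi', D2', hD2', hE', hJ'⟩
      · have : i' = i := by omega
        subst this
        exact EqN.trans hD2 hE (EqN.trans hD2' (hJ1f i' D2 D2' h1 p1 hD2 hD2' hok1 hJ hJ')
          hE'.symm)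
      · omega
      · omega
      · have : i' = i := by omega
        subst this
        exact EqN.trans hD2 hE (EqN.trans hD2' (hJBf i' D2 D2' p1 hok1 hJ hJ') hE'.symm)
    · intro h1 hh1 p1 hp1 hok1 D' k k' hD' hk hk' hlt hrel
      obtain ⟨hat, D3, hD3, hE3, hk3⟩ := hk
      obtain ⟨hat2, D4, hD4, hE4, hk4⟩ := hk'
      have hb := At.eq hok1 hD hD hat (hat'.mono hp1) (EqN.refl hD p1)
      obtain ⟨b2, k2⟩ := k
      obtain ⟨b3, k3⟩ := k'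
      change b2 = b at hb
      subst hb
      change RN Γ (Yb b2) D3 at hD3
      change κ' b2 D3 k2 h1 p1 at hk3
      change RN Γ (Yb b3) D4 at hD4
      change κ' b3 D4 k3 h1 p1 at hk4
      have hD4Y : RN Γ Y D4 := hD4.mono (hsub b3)
      have hE1 : EqN Γ D D1 p1 := he'.mono hp1
      have hrel' : RelN Γ d e D4 D1 p1 ∨ RelN Γ d e D1 D4 p1 := by
        rcases hrel with hrel | hrel
        · exact Or.inl (RelN.congr hD' hD4Y hD hD1Y hE4 hE1 hrel)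
        · exact Or.inr (RelN.congr hD hD1Y hD' hD4Y hE1 hE4 hrel)
      have hlt' : b3 < b2 ∨ ∃ hb : b3 = b2, hb ▸ k3 < k2 := by
        have := (Sigma.lex_iff).mp hlt
        rcases this with h | ⟨h, h'⟩
        · exact Or.inl h
        · exact Or.inr ⟨h, h'⟩
      rcases hlt' with hlt' | ⟨hb, hlt'⟩
      · obtain ⟨a', ha', hoka', n, hn⟩ := hJBc b3 hlt' D4 hD4 p1 (hp1.trans (le_res p' Y)) hok1 hrel'
        exact ⟨h1, le_rfl, a', ha', hoka', 2 * n + 1,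
          Or.inr ⟨n, rfl, D4, hD4Y, hE4.mono ha', hn⟩⟩
      · subst hb
        have hk1' : κ' b3 D1 k0 h1 p1 :=
          (hκ' b3).mono hk1 (hh1.trans hh') (hp1.trans hp') hok1
        have hkk : k0 = k2 := (hκ' b3).func hD1 hD3 hok1 hk1' hk3 (EqN.trans hD hE1.symm hE3)
        subst hkk
        obtain ⟨h2, hh2, p2, hp2, hok2, n, hn⟩ := hJ1c h1 hh1 p1 hp1 hok1 D4 k0 k3 hD4 hk1' hk4
          hlt' hrel'
        exact ⟨h2, hh2, p2, hp2, hok2, 2 * n, Or.inl ⟨n, rfl, D4, hD4, hE4.mono hp2, hn⟩⟩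

end MP186633L

/-!
# MP_186633_lc: Lemma C
-/

namespace MP186633L

open Cardinal Set

variable {L S : Type}

/-- the strong closure of `X` inside `Y` -/
def lemCHull (Γ : Gr L S) (Y X : Set (L ⊕ S)) : Set (L ⊕ S) :=
  {z | ∀ T, Strong Γ T → X ⊆ T → T ⊆ Y → z ∈ T}

theorem subset_lemCHull (Γ : Gr L S) (Y X : Set (L ⊕ S)) : X ⊆ lemCHull Γ Y X :=
  fun _ hx _ _ hT _ => hT hx

theorem lemCHull_mono (Γ : Gr L S) (Y : Set (L ⊕ S)) {X X' : Set (L ⊕ S)} (h : X ⊆ X') :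
    lemCHull Γ Y X ⊆ lemCHull Γ Y X' := fun _ hz T hT hX hTY => hz T hT (h.trans hX) hTY

theorem lemCHull_sub {Γ : Gr L S} {Y X T : Set (L ⊕ S)} (hT : Strong Γ T) (hX : X ⊆ T)
    (hTY : T ⊆ Y) : lemCHull Γ Y X ⊆ T := fun _ hz => hz T hT hX hTY

theorem lemCHull_strong (Γ : Gr L S) (Y X : Set (L ⊕ S)) : Strong Γ (lemCHull Γ Y X) where
  full ξ hξ hz v hv T hT hX hTY := hT.full ξ hξ (hz T hT hX hTY) v hv
  up ξ hξ v hv hvc hz T hT hX hTY := hT.up ξ hξ v hv hvc (hz T hT hX hTY)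

theorem lemC_strong_inter {Γ : Gr L S} {Y Z : Set (L ⊕ S)} (h : Strong Γ Y) (h' : Strong Γ Z) :
    Strong Γ (Y ∩ Z) where
  full ξ hξ hz v hv := ⟨h.full ξ hξ hz.1 v hv, h'.full ξ hξ hz.2 v hv⟩
  up ξ hξ v hv hvc hz := ⟨h.up ξ hξ v hv hvc hz.1, h'.up ξ hξ v hv hvc hz.2⟩

theorem lemC_exists_upper (m : ℕ) {I : Set (ν (m + 1)).ord.ToType} (hI : I.Countable) :
    ∃ b, ∀ i ∈ I, i < b := by
  by_contra hcon
  push Not at hcon
  have hcof : IsCofinal I := fun x => by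
    obtain ⟨i, hi, hxi⟩ := hcon x
    exact ⟨i, hi, hxi⟩
  have h1 : (Order.cof (ν (m + 1)).ord.ToType) ≤ #I := Order.cof_le hcof
  rw [Ordinal.cof_toType] at h1
  have h2 : (ν (m + 1)).IsRegular := isRegular_succ (aleph0_le_ν m)
  rw [h2.cof_ord] at h1
  have h3 : #I ≤ ℵ₀ := hI.le_aleph0
  have h4 : ν m < ν (m + 1) := Order.lt_succ (ν m)
  exact absurd (h4.trans_le (h1.trans (h3.trans (aleph0_le_ν m)))) (lt_irrefl _)

theorem lemC_sigmaLex_wf {ι : Type*} {α : ι → Type*} {r : ι → ι → Prop}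
    {s : ∀ i, α i → α i → Prop} (hr : WellFounded r) (hs : ∀ i, WellFounded (s i)) :
    WellFounded (Sigma.Lex r s) := by
  have key : ∀ i, ∀ x : α i, Acc (Sigma.Lex r s) ⟨i, x⟩ := by
    intro i
    refine hr.induction (C := fun i => ∀ x : α i, Acc (Sigma.Lex r s) ⟨i, x⟩) i ?_
    intro i ih x
    refine (hs i).induction (C := fun x => Acc (Sigma.Lex r s) ⟨i, x⟩) x ?_
    intro x ihx
    refine ⟨_, ?_⟩
    rintro ⟨j, y⟩ hab
    cases hab with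
    | left _ _ h => exact ih j h y
    | right _ _ h => exact ihx y h
  exact ⟨fun a => key a.1 a.2⟩

/-- **Lemma C.** -/
theorem lemmaC (Γ : Gr L S) {d e : ℕ → ℕ → Prop} (hde : Good d e) (m : ℕ) (Y : Set (L ⊕ S))
    (hYd : Y ⊆ Γ.dom) (hYs : Strong Γ Y) (hY : #Y ≤ ν m) :
    ∃ (K : Type) (_ : LinearOrder K) (_ : WellFoundedLT K)
      (κ : Nm L S → K → Coll → Raw L S → Prop), KeyFun Γ d e Y K κ := by
  induction m generalizing Y with
  | zero =>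
    obtain ⟨κ, hκ⟩ := lemmaC_zero Γ d e Y hY
    exact ⟨Om1, inferInstance, inferInstance, κ, hκ⟩
  | succ m ih =>
    by_cases hsmall : #Y ≤ ν m
    · exact ih Y hYd hYs hsmall
    have hcard : #Y = ν (m + 1) :=
      le_antisymm hY (Order.succ_le_of_lt (not_le.1 hsmall))
    let K : Type := (ν (m + 1)).ord.ToType
    have hK : #K = #Y := by rw [hcard]; exact mk_ord_toType _
    obtain ⟨e0⟩ := Cardinal.eq.1 hK
    let Yb : K → Set (L ⊕ S) := fun b => lemCHull Γ Y {z | ∃ i ≤ b, z = (e0 i : L ⊕ S)}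
    have hmono : Monotone Yb := fun b b' hbb => lemCHull_mono Γ Y (by
      rintro z ⟨i, hi, rfl⟩
      exact ⟨i, hi.trans hbb, rfl⟩)
    have hstrong : ∀ b, Strong Γ (Yb b) := fun b => lemCHull_strong _ _ _
    have hsub : ∀ b, Yb b ⊆ Y := fun b => lemCHull_sub hYs (by
      rintro z ⟨i, hi, rfl⟩
      exact (e0 i).2) subset_rfl
    have hcov : ∀ C ⊆ Y, C.Countable → ∃ b, C ⊆ Yb b := by
      intro C hC hCc
      have hI : {i : K | (e0 i : L ⊕ S) ∈ C}.Countable := by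
        refine Countable.preimage_of_injOn (f := fun i : K => (e0 i : L ⊕ S)) hCc ?_
        intro i _ j _ hij
        exact e0.injective (Subtype.ext hij)
      obtain ⟨b, hb⟩ := lemC_exists_upper m hI
      refine ⟨b, fun z hz => subset_lemCHull _ _ _ ⟨e0.symm ⟨z, hC hz⟩, (hb _ ?_).le, ?_⟩⟩
      · show (e0 (e0.symm ⟨z, hC hz⟩) : L ⊕ S) ∈ C
        rw [e0.apply_symm_apply]; exact hz
      · rw [e0.apply_symm_apply]
    have hsize : ∀ b, #(Yb b) ≤ ν m := by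
      intro b
      have hX : #{z | ∃ i ≤ b, z = (e0 i : L ⊕ S)} ≤ ν m := by
        have h1 : {z | ∃ i ≤ b, z = (e0 i : L ⊕ S)} = (fun i : K => (e0 i : L ⊕ S)) '' Iic b := by
          ext z
          constructor
          · rintro ⟨i, hi, rfl⟩
            exact ⟨i, hi, rfl⟩
          · rintro ⟨i, hi, rfl⟩
            exact ⟨i, hi, rfl⟩
        rw [h1]
        refine mk_image_le.trans ?_
        have h2 : #(Iio b) < ν (m + 1) := mk_Iio_toType_ord_lt b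
        have h3 : #(Iio b) ≤ ν m := Order.lt_succ_iff.1 h2
        have h4 : Iic b = insert b (Iio b) := by
          ext x; simp [le_iff_eq_or_lt]
        rw [h4]
        refine (mk_insert_le).trans ?_
        exact (add_le_add_left h3 1).trans (by
          rw [add_one_eq (aleph0_le_ν m)])
      obtain ⟨T, hXT, hTd, hTc, hTs⟩ := exists_strong Γ {z | ∃ i ≤ b, z = (e0 i : L ⊕ S)}
        (by
          rintro z ⟨i, hi, rfl⟩
          exact hYd (e0 i).2) (ν m) (aleph1_le_ν m) hX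
      have hsubT : Yb b ⊆ T ∩ Y := lemCHull_sub (lemC_strong_inter hTs hYs) (subset_inter hXT (by
        rintro z ⟨i, hi, rfl⟩
        exact (e0 i).2)) inter_subset_right
      exact (mk_le_mk_of_subset (hsubT.trans inter_subset_left)).trans hTc
    have hex := fun b => ih (Yb b) ((hsub b).trans hYd) (hstrong b) (hsize b)
    choose K' i1 i2 κ' hκ' using hex
    obtain ⟨κ, hκ⟩ := @lemmaC_succ L S Γ d e hde Y
      (fun ξ hξ hz v hv => hYs.full ξ hξ hz v (Γ.c_sub ξ hξ hv)) K _ _ Yb hmono hstrong hsub hcov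
      K' i1 i2 κ' hκ'
    refine ⟨Σₗ b, K' b, inferInstance, ⟨?_⟩, κ, hκ⟩
    exact lemC_sigmaLex_wf wellFounded_lt fun b => wellFounded_lt

end MP186633L

/-!
# MP_186633_lc: unions of continuous chains of large conditions
-/

namespace MP186633L

open Cardinal

/-- `Q` is the union of `q0` and of the `f k`, `k ∈ I` -/
structure Rec_IsUn {K : Type} (q0 : Big) (I : Set K) (f : K → Big) (Q : Big) : Prop where
  U : Q.g.U = q0.g.U ∪ ⋃ k ∈ I, (f k).g.U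
  W : Q.g.W = q0.g.W ∪ ⋃ k ∈ I, (f k).g.W
  le : ∀ k ∈ I, Q ≤ f k
  le0 : Q ≤ q0

theorem Rec_IsUn.congr {K : Type} {q0 : Big} {I : Set K} {f f' : K → Big} {Q : Big}
    (h : Rec_IsUn q0 I f Q) (hf : ∀ k ∈ I, f k = f' k) : Rec_IsUn q0 I f' Q := by
  refine ⟨?_, ?_, fun k hk => hf k hk ▸ h.le k hk, h.le0⟩
  · rw [h.U]
    congr 1
    exact Set.iUnion₂_congr fun k hk => by rw [hf k hk]
  · rw [h.W]
    congr 1
    exact Set.iUnion₂_congr fun k hk => by rw [hf k hk]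

theorem Rec_card {K : Type} (hK : #K ≤ Θ) (A : Set Lam) (hA : #A ≤ Θ) (I : Set K)
    (B : K → Set Lam) (hB : ∀ k, #(B k) ≤ Θ) : #(A ∪ ⋃ k ∈ I, B k : Set Lam) ≤ Θ := by
  have h1 : (A ∪ ⋃ k ∈ I, B k : Set Lam) ⊆ A ∪ ⋃ k, B k := by
    apply Set.union_subset_union_right
    exact Set.iUnion₂_subset fun k _ => Set.subset_iUnion B k
  refine (mk_le_mk_of_subset h1).trans ((mk_union_le _ _).trans ?_)
  refine add_le_of_le aleph0_le_Θ hA ?_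
  refine (mk_iUnion_le_sum_mk).trans ((sum_le_sum _ (fun _ => Θ) hB).trans ?_)
  rw [sum_const', ]
  exact mul_le_of_le aleph0_le_Θ hK le_rfl

open Classical in
/-- the union of a chain of large conditions is a large condition -/
theorem Rec_exists {K : Type} [LinearOrder K] [WellFoundedLT K] (hK : #K ≤ Θ) (q0 : Big)
    (I : Set K) (hI : ∀ k ∈ I, ∀ j < k, j ∈ I) (f g : K → Big) (hfg : ∀ k ∈ I, f k ≤ g k)
    (hg : ∀ k ∈ I, Rec_IsUn q0 (Set.Iio k) f (g k)) : ∃ Q, Rec_IsUn q0 I f Q := by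
  rcases isEmpty_or_nonempty K with hE | hE
  · refine ⟨q0, ?_, ?_, fun k => (hE.false k).elim, le_rfl⟩
    · simp
    · simp
  -- the least index
  have hκ : ∀ ξ : Lam, ∃ k : K, (∃ j ∈ I, ξ ∈ (f j).g.W) →
      k ∈ I ∧ ξ ∈ (f k).g.W ∧ ∀ j ∈ I, ξ ∈ (f j).g.W → k ≤ j := by
    intro ξ
    by_cases h : ∃ j ∈ I, ξ ∈ (f j).g.W
    · have hne : {j | j ∈ I ∧ ξ ∈ (f j).g.W}.Nonempty := h
      have hwf : WellFounded ((· < ·) : K → K → Prop) := wellFounded_lt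
      refine ⟨hwf.min _ hne, fun _ => ⟨(hwf.min_mem _ hne).1, (hwf.min_mem _ hne).2, ?_⟩⟩
      intro j hj hξ
      exact hwf.min_le (show j ∈ {j | j ∈ I ∧ ξ ∈ (f j).g.W} from ⟨hj, hξ⟩)
    · exact ⟨Classical.arbitrary K, fun h' => absurd h' h⟩
  choose κ hκ using hκ
  have hf0 : ∀ k ∈ I, f k ≤ q0 := fun k hk => le_trans (hfg k hk) (hg k hk).le0
  have hgf : ∀ k ∈ I, ∀ j < k, g k ≤ f j := fun k hk j hj => (hg k hk).le j hj
  have hff : ∀ k ∈ I, ∀ j ≤ k, f k ≤ f j := by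
    intro k hk j hj
    rcases hj.eq_or_lt with h | h
    · rw [h]
    · exact le_trans (hfg k hk) (hgf k hk j h)
  have hgW : ∀ k ∈ I, ∀ ξ ∉ q0.g.W, ξ ∈ (f k).g.W → κ ξ = k → ξ ∉ (g k).g.W := by
    intro k hk ξ hξ0 hξk hκk h
    rw [(hg k hk).W] at h
    rcases h with h | h
    · exact hξ0 h
    · simp only [Set.mem_iUnion, exists_prop] at h
      obtain ⟨j, hj, hξj⟩ := h
      have hjI : j ∈ I := hI k hk j hj
      have h1 := (hκ ξ ⟨j, hjI, hξj⟩).2.2 j hjI hξj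
      rw [hκk] at h1
      exact absurd hj (not_lt.2 h1)
  -- membership in the union
  have hmem : ∀ ξ ∈ (q0.g.W ∪ ⋃ k ∈ I, (f k).g.W : Set Lam), ξ ∉ q0.g.W →
      κ ξ ∈ I ∧ ξ ∈ (f (κ ξ)).g.W ∧ ∀ j ∈ I, ξ ∈ (f j).g.W → κ ξ ≤ j := by
    intro ξ hξ hξ0
    rcases hξ with h | h
    · exact absurd h hξ0
    · simp only [Set.mem_iUnion, exists_prop] at h
      exact hκ ξ h
  have htr : ∀ ξ ∈ (q0.g.W ∪ ⋃ k ∈ I, (f k).g.W : Set Lam), ξ ∉ q0.g.W →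
      {v | v ∈ (f (κ ξ)).g.E ξ ∧ v ∈ (g (κ ξ)).g.U}.Countable := by
    intro ξ hξ hξ0
    obtain ⟨h1, h2, h3⟩ := hmem ξ hξ hξ0
    exact (hfg _ h1).tr ξ h2 (hgW _ h1 ξ hξ0 h2 rfl)
  have hUf : ∀ k ∈ I, (f k).g.U ⊆ q0.g.U ∪ ⋃ k ∈ I, (f k).g.U := fun k hk =>
    (Set.subset_biUnion_of_mem (u := fun k => (f k).g.U) hk).trans Set.subset_union_right
  have hWf : ∀ k ∈ I, (f k).g.W ⊆ q0.g.W ∪ ⋃ k ∈ I, (f k).g.W := fun k hk =>
    (Set.subset_biUnion_of_mem (u := fun k => (f k).g.W) hk).trans Set.subset_union_right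
  let E : Lam → Set Lam := fun ξ => if ξ ∈ q0.g.W then q0.g.E ξ else (f (κ ξ)).g.E ξ
  let c : Lam → Set Lam := fun ξ => if ξ ∈ q0.g.W then q0.g.c ξ else
    (f (κ ξ)).g.c ξ ∪ {v | v ∈ (f (κ ξ)).g.E ξ ∧ v ∈ (g (κ ξ)).g.U}
  have hE0 : ∀ ξ, ξ ∈ q0.g.W → E ξ = q0.g.E ξ := fun ξ h => if_pos h
  have hE1 : ∀ ξ, ξ ∉ q0.g.W → E ξ = (f (κ ξ)).g.E ξ := fun ξ h => if_neg h
  have hc0 : ∀ ξ, ξ ∈ q0.g.W → c ξ = q0.g.c ξ := fun ξ h => if_pos h
  have hc1 : ∀ ξ, ξ ∉ q0.g.W → c ξ = (f (κ ξ)).g.c ξ ∪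
    {v | v ∈ (f (κ ξ)).g.E ξ ∧ v ∈ (g (κ ξ)).g.U} := fun ξ h => if_neg h
  -- an edge from an earlier to a later vertex is in `c` of the later one
  have hearly : ∀ ξ ∈ (q0.g.W ∪ ⋃ k ∈ I, (f k).g.W : Set Lam),
      ∀ ζ ∈ (q0.g.W ∪ ⋃ k ∈ I, (f k).g.W : Set Lam), ζ ∉ q0.g.W →
      (ξ ∈ q0.g.W ∨ (ξ ∉ q0.g.W ∧ κ ξ < κ ζ)) → ∀ v, v ∈ E ξ → v ∈ E ζ → v ∈ c ζ := by
    intro ξ hξ ζ hζ hζ0 h v hv hv'
    obtain ⟨k1, k2, k3⟩ := hmem ζ hζ hζ0
    rw [hE1 ζ hζ0] at hv'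
    rw [hc1 ζ hζ0]
    refine Or.inr ⟨hv', ?_⟩
    rcases h with h | ⟨h, h'⟩
    · rw [hE0 ξ h] at hv
      exact (hg _ k1).le0.U (q0.g.E_sub ξ h hv)
    · obtain ⟨l1, l2, l3⟩ := hmem ξ hξ h
      rw [hE1 ξ h] at hv
      exact (hgf _ k1 _ h').U ((f (κ ξ)).g.E_sub ξ l2 hv)
  let Γ : Gr Lam Lam :=
    { U := q0.g.U ∪ ⋃ k ∈ I, (f k).g.U
      W := q0.g.W ∪ ⋃ k ∈ I, (f k).g.W
      E := E
      c := c
      E_sub := by
        intro ξ hξ
        by_cases h0 : ξ ∈ q0.g.W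
        · rw [hE0 ξ h0]
          exact (q0.g.E_sub ξ h0).trans Set.subset_union_left
        · obtain ⟨k1, k2, k3⟩ := hmem ξ hξ h0
          rw [hE1 ξ h0]
          exact ((f (κ ξ)).g.E_sub ξ k2).trans (hUf _ k1)
      c_sub := by
        intro ξ hξ
        by_cases h0 : ξ ∈ q0.g.W
        · rw [hE0 ξ h0, hc0 ξ h0]
          exact q0.g.c_sub ξ h0
        · obtain ⟨k1, k2, k3⟩ := hmem ξ hξ h0
          rw [hE1 ξ h0, hc1 ξ h0]
          exact Set.union_subset ((f (κ ξ)).g.c_sub ξ k2) fun v hv => hv.1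
      c_ctbl := by
        intro ξ hξ
        by_cases h0 : ξ ∈ q0.g.W
        · rw [hc0 ξ h0]
          exact q0.g.c_ctbl ξ h0
        · obtain ⟨k1, k2, k3⟩ := hmem ξ hξ h0
          rw [hc1 ξ h0]
          exact ((f (κ ξ)).g.c_ctbl ξ k2).union (htr ξ hξ h0)
      disj := by
        intro ξ hξ ζ hζ hne v hv hv'
        by_cases h0 : ξ ∈ q0.g.W
        · by_cases h1 : ζ ∈ q0.g.W
          · rw [hE0 ξ h0] at hv
            rw [hE0 ζ h1] at hv'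
            rw [hc0 ξ h0, hc0 ζ h1]
            exact q0.g.disj ξ h0 ζ h1 hne v hv hv'
          · exact Or.inr (hearly ξ hξ ζ hζ h1 (Or.inl h0) v hv hv')
        · by_cases h1 : ζ ∈ q0.g.W
          · exact Or.inl (hearly ζ hζ ξ hξ h0 (Or.inl h1) v hv' hv)
          · rcases lt_trichotomy (κ ξ) (κ ζ) with h | h | h
            · exact Or.inr (hearly ξ hξ ζ hζ h1 (Or.inr ⟨h0, h⟩) v hv hv')
            · obtain ⟨k1, k2, k3⟩ := hmem ξ hξ h0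
              obtain ⟨l1, l2, l3⟩ := hmem ζ hζ h1
              rw [hE1 ξ h0] at hv
              rw [hE1 ζ h1, ← h] at hv'
              rw [hc1 ξ h0, hc1 ζ h1, ← h]
              rw [← h] at l2
              rcases (f (κ ξ)).g.disj ξ k2 ζ l2 hne v hv hv' with h' | h'
              · exact Or.inl (Or.inl h')
              · exact Or.inr (Or.inl h')
            · exact Or.inl (hearly ζ hζ ξ hξ h0 (Or.inr ⟨h1, h⟩) v hv' hv)
      E_card := by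
        intro ξ hξ
        by_cases h0 : ξ ∈ q0.g.W
        · rw [hE0 ξ h0]
          exact q0.g.E_card ξ h0
        · obtain ⟨k1, k2, k3⟩ := hmem ξ hξ h0
          rw [hE1 ξ h0]
          exact (f (κ ξ)).g.E_card ξ k2 }
  refine ⟨⟨Γ, Rec_card hK _ q0.U_card I _ fun k => (f k).U_card,
    Rec_card hK _ q0.W_card I _ fun k => (f k).W_card⟩, rfl, rfl, ?_, ?_⟩
  · intro k hk
    refine ⟨hUf k hk, hWf k hk, ?_, ?_⟩
    · intro ξ hξ
      change E ξ = _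
      by_cases h0 : ξ ∈ q0.g.W
      · rw [hE0 ξ h0, (hf0 k hk).E ξ h0]
      · obtain ⟨k1, k2, k3⟩ := hmem ξ (hWf k hk hξ) h0
        rw [hE1 ξ h0]
        exact ((hff k hk (κ ξ) (k3 k hk hξ)).E ξ k2).symm
    · intro ξ hξ hξk
      have h0 : ξ ∉ q0.g.W := fun h => hξk ((hf0 k hk).W h)
      obtain ⟨k1, k2, k3⟩ := hmem ξ hξ h0
      have hlt : k < κ ξ := by
        by_contra h
        exact hξk ((hff k hk (κ ξ) (not_lt.1 h)).W k2)
      refine (htr ξ hξ h0).mono ?_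
      rintro v ⟨hv1, hv2⟩
      have hv1' : v ∈ E ξ := hv1
      rw [hE1 ξ h0] at hv1'
      exact ⟨hv1', (hgf _ k1 k hlt).U hv2⟩
  · refine ⟨Set.subset_union_left, Set.subset_union_left, fun ξ hξ => hE0 ξ hξ, ?_⟩
    intro ξ hξ h0
    obtain ⟨k1, k2, k3⟩ := hmem ξ hξ h0
    refine (htr ξ hξ h0).mono ?_
    rintro v ⟨hv1, hv2⟩
    have hv1' : v ∈ E ξ := hv1
    rw [hE1 ξ h0] at hv1'
    exact ⟨hv1', (hg _ k1).le0.U hv2⟩

open Classical in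
/-- **Recursion lemma.** -/
theorem rec_chain {K : Type} [LinearOrder K] [WellFoundedLT K] (hK : #K ≤ Θ)
    (Next : K → Big → Big → Prop) (hN : ∀ k q, ∃ q' ≤ q, Next k q q') (q0 : Big) :
    ∃ (q q' : K → Big) (qs : Big), (∀ k, Next k (q k) (q' k)) ∧ (∀ k, q' k ≤ q k) ∧
      (∀ k, q k ≤ q0) ∧ (∀ k1 k2, k1 < k2 → q k2 ≤ q' k1) ∧ (∀ k, qs ≤ q' k) ∧ qs ≤ q0 ∧
      qs.g.U = q0.g.U ∪ ⋃ k, (q' k).g.U ∧ qs.g.W = q0.g.W ∪ ⋃ k, (q' k).g.W := by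
  choose nx hnx1 hnx2 using hN
  -- the union, if it exists
  let un : Set K → (K → Big) → Big := fun I f =>
    if h : ∃ Q, Rec_IsUn q0 I f Q then h.choose else q0
  have hun : ∀ I f, (∃ Q, Rec_IsUn q0 I f Q) → Rec_IsUn q0 I f (un I f) := by
    intro I f h
    change Rec_IsUn q0 I f (if h : ∃ Q, Rec_IsUn q0 I f Q then h.choose else q0)
    rw [dif_pos h]
    exact h.choose_spec
  have hwf : WellFounded ((· < ·) : K → K → Prop) := wellFounded_lt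
  let step : (k : K) → ((j : K) → j < k → Big) → Big := fun k prev =>
    nx k (un (Set.Iio k) (fun j => if h : j < k then prev j h else q0))
  let q' : K → Big := hwf.fix step
  let q : K → Big := fun k => un (Set.Iio k) (fun j => if j < k then q' j else q0)
  have hq' : ∀ k, q' k = nx k (q k) := by
    intro k
    change hwf.fix step k = _
    rw [hwf.fix_eq]
    rfl
  have hle : ∀ k, q' k ≤ q k := fun k => by
    rw [hq' k]
    exact hnx1 k (q k)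
  have hmain : ∀ k, Rec_IsUn q0 (Set.Iio k) q' (q k) := by
    intro k
    induction k using hwf.induction with
    | _ k ih =>
      have h1 : ∃ Q, Rec_IsUn q0 (Set.Iio k) q' Q :=
        Rec_exists hK q0 (Set.Iio k) (fun a ha j hj => lt_trans hj ha) q' q
          (fun a _ => hle a) (fun a ha => ih a ha)
      obtain ⟨Q, hQ⟩ := h1
      have h2 : ∃ Q, Rec_IsUn q0 (Set.Iio k) (fun j => if j < k then q' j else q0) Q :=
        ⟨Q, hQ.congr fun j hj => (if_pos hj).symm⟩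
      exact (hun _ _ h2).congr fun j hj => if_pos hj
  obtain ⟨qs, hqs⟩ := Rec_exists hK q0 Set.univ (fun _ _ _ _ => Set.mem_univ _) q' q
    (fun k _ => hle k) (fun k _ => hmain k)
  refine ⟨q, q', qs, fun k => ?_, hle, fun k => (hmain k).le0, fun k1 k2 h => (hmain k2).le k1 h,
    fun k => hqs.le k (Set.mem_univ k), hqs.le0, ?_, ?_⟩
  · rw [hq' k]
    exact hnx2 k (q k)
  · rw [hqs.U]
    simp only [Set.mem_univ, Set.iUnion_true]
  · rw [hqs.W]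
    simp only [Set.mem_univ, Set.iUnion_true]

open Classical in
/-- adding a right vertex joined to a set all whose traces are countable -/
theorem add_vertex {qs : Big} {K : Type} (q' : K → Big) (hq : ∀ k, qs ≤ q' k) (q0 : Big)
    (hq0 : qs ≤ q0) (hqs0 : ∀ k, q' k ≤ q0)
    (hW : qs.g.W ⊆ q0.g.W ∪ ⋃ k, (q' k).g.W) (hne : Nonempty K) (E : Set Lam)
    (hE : E ⊆ qs.g.U) (hE1 : #E ≤ ℵ_ 1) (htr : ∀ k, {v | v ∈ E ∧ v ∈ (q' k).g.U}.Countable)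
    (ξ : Lam) (hξ : ξ ∉ qs.g.W) :
    ∃ qp : Big, (∀ k, qp ≤ q' k) ∧ qp ≤ q0 ∧ qp.g.U = qs.g.U ∧ qp.g.W = insert ξ qs.g.W ∧
      qp.g.E ξ = E ∧ ∀ ζ ∈ qs.g.W, qp.g.E ζ = qs.g.E ζ := by
  let E' : Lam → Set Lam := fun ζ => if ζ = ξ then E else qs.g.E ζ
  let c' : Lam → Set Lam := fun ζ => if ζ = ξ then ∅ else qs.g.c ζ ∪ {v | v ∈ E ∧ v ∈ qs.g.E ζ}
  have hEξ : E' ξ = E := if_pos rfl
  have hcξ : c' ξ = ∅ := if_pos rfl
  have hneξ : ∀ ζ ∈ qs.g.W, ζ ≠ ξ := fun ζ hζ h => hξ (h ▸ hζ)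
  have hEζ : ∀ ζ ∈ qs.g.W, E' ζ = qs.g.E ζ := fun ζ hζ => if_neg (hneξ ζ hζ)
  have hcζ : ∀ ζ ∈ qs.g.W, c' ζ = qs.g.c ζ ∪ {v | v ∈ E ∧ v ∈ qs.g.E ζ} := fun ζ hζ =>
    if_neg (hneξ ζ hζ)
  obtain ⟨k0⟩ := hne
  have hctbl : ∀ ζ ∈ qs.g.W, {v | v ∈ E ∧ v ∈ qs.g.E ζ}.Countable := by
    intro ζ hζ
    have h1 : ∃ k, ζ ∈ (q' k).g.W := by
      rcases hW hζ with h | h
      · exact ⟨k0, (hqs0 k0).W h⟩
      · exact Set.mem_iUnion.1 h
    obtain ⟨k, hk⟩ := h1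
    refine (htr k).mono ?_
    rintro v ⟨hv1, hv2⟩
    rw [(hq k).E ζ hk] at hv2
    exact ⟨hv1, (q' k).g.E_sub ζ hk hv2⟩
  let Γ : Gr Lam Lam :=
    { U := qs.g.U
      W := insert ξ qs.g.W
      E := E'
      c := c'
      E_sub := by
        rintro ζ (rfl | hζ)
        · rw [hEξ]
          exact hE
        · rw [hEζ ζ hζ]
          exact qs.g.E_sub ζ hζ
      c_sub := by
        rintro ζ (rfl | hζ)
        · rw [hcξ]
          exact Set.empty_subset _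
        · rw [hEζ ζ hζ, hcζ ζ hζ]
          exact Set.union_subset (qs.g.c_sub ζ hζ) fun v hv => hv.2
      c_ctbl := by
        rintro ζ (rfl | hζ)
        · rw [hcξ]
          exact Set.countable_empty
        · rw [hcζ ζ hζ]
          exact (qs.g.c_ctbl ζ hζ).union (hctbl ζ hζ)
      disj := by
        rintro ζ (h1 | h1) ζ' (h2 | h2) hne v hv hv'
        · exact absurd (h1.trans h2.symm) hne
        · refine Or.inr ?_
          rw [h1, hEξ] at hv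
          rw [hEζ ζ' h2] at hv'
          rw [hcζ ζ' h2]
          exact Or.inr ⟨hv, hv'⟩
        · refine Or.inl ?_
          rw [h2, hEξ] at hv'
          rw [hEζ ζ h1] at hv
          rw [hcζ ζ h1]
          exact Or.inr ⟨hv', hv⟩
        · rw [hEζ ζ h1] at hv
          rw [hEζ ζ' h2] at hv'
          rw [hcζ ζ h1, hcζ ζ' h2]
          rcases qs.g.disj ζ h1 ζ' h2 hne v hv hv' with h | h
          · exact Or.inl (Or.inl h)
          · exact Or.inr (Or.inl h)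
      E_card := by
        rintro ζ (rfl | hζ)
        · rw [hEξ]
          exact hE1
        · rw [hEζ ζ hζ]
          exact qs.g.E_card ζ hζ }
  have hWcard : #Γ.W ≤ Θ := by
    refine (mk_insert_le).trans ?_
    exact add_le_of_le aleph0_le_Θ qs.W_card (one_le_aleph0.trans aleph0_le_Θ)
  refine ⟨⟨Γ, qs.U_card, hWcard⟩, ?_, ?_, rfl, rfl, hEξ, hEζ⟩
  · intro k
    refine ⟨(hq k).U, (hq k).W.trans (Set.subset_insert _ _), ?_, ?_⟩
    · intro ζ hζ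
      exact (hEζ ζ ((hq k).W hζ)).trans ((hq k).E ζ hζ)
    · intro ζ hζ hζk
      rcases hζ with h | hζ
      · refine (htr k).mono ?_
        rintro v ⟨hv1, hv2⟩
        have hv1' : v ∈ E' ζ := hv1
        rw [h, hEξ] at hv1'
        exact ⟨hv1', hv2⟩
      · refine ((hq k).tr ζ hζ hζk).mono ?_
        rintro v ⟨hv1, hv2⟩
        have hv1' : v ∈ E' ζ := hv1
        rw [hEζ ζ hζ] at hv1'
        exact ⟨hv1', hv2⟩
  · refine ⟨hq0.U, hq0.W.trans (Set.subset_insert _ _), ?_, ?_⟩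
    · intro ζ hζ
      exact (hEζ ζ (hq0.W hζ)).trans (hq0.E ζ hζ)
    · intro ζ hζ hζk
      rcases hζ with h | hζ
      · refine (htr k0).mono ?_
        rintro v ⟨hv1, hv2⟩
        have hv1' : v ∈ E' ζ := hv1
        rw [h, hEξ] at hv1'
        exact ⟨hv1', (hqs0 k0).U hv2⟩
      · refine (hq0.tr ζ hζ hζk).mono ?_
        rintro v ⟨hv1, hv2⟩
        have hv1' : v ∈ E' ζ := hv1
        rw [hEζ ζ hζ] at hv1'
        exact ⟨hv1', hv2⟩

end MP186633L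

/-!
# MP_186633_lc: persistence under strengthening the large condition

The statements are for general graphs: `Γ'` extends `Γ` with the same edges for the old right
vertices.
-/

namespace MP186633L

open Cardinal

variable {L S : Type} {Γ Γ' : Gr L S} {p q r s : Raw L S} {Y Z C : Set (L ⊕ S)}
  {D D' D'' : Nm L S} {d e : ℕ → ℕ → Prop} {n m m' k N : ℕ}

/-- `Γ'` is an extension of `Γ` -/
structure Ext (Γ Γ' : Gr L S) : Prop where
  U : Γ.U ⊆ Γ'.U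
  W : Γ.W ⊆ Γ'.W
  E : ∀ ξ ∈ Γ.W, Γ'.E ξ = Γ.E ξ

theorem Big.ext {q' q : Big} (h : q' ≤ q) : Ext q.g q'.g := ⟨h.U, h.W, h.E⟩

theorem Ext.trans {Γ'' : Gr L S} (h : Ext Γ Γ') (h' : Ext Γ' Γ'') : Ext Γ Γ'' :=
  ⟨h.U.trans h'.U, h.W.trans h'.W, fun ξ hξ => (h'.E ξ (h.W hξ)).trans (h.E ξ hξ)⟩

theorem Gr.inl_mem_dom {Γ : Gr L S} {v : L} : (Sum.inl v : L ⊕ S) ∈ Γ.dom ↔ v ∈ Γ.U := by
  unfold Gr.dom
  simp

theorem Gr.inr_mem_dom {Γ : Gr L S} {ξ : S} : (Sum.inr ξ : L ⊕ S) ∈ Γ.dom ↔ ξ ∈ Γ.W := by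
  unfold Gr.dom
  simp

theorem Ext.ok (h : Ext Γ Γ') (hp : OK Γ p) : OK Γ' p where
  uU v hv := h.U (hp.uU v hv)
  wW ξ hξ := h.W (hp.wW ξ hξ)
  a_len := hp.a_len
  a_out := hp.a_out
  b_len := hp.b_len
  b_out := hp.b_out
  a_inj := hp.a_inj
  b_inj := hp.b_inj
  c_out v ξ hn := by
    apply hp.c_out v ξ
    rintro ⟨h1, h2, h3⟩
    exact hn ⟨h1, h2, by rw [h.E ξ (hp.wW ξ h2)]; exact h3⟩
  edge v hv ξ hξ hE := by
    rw [h.E ξ (hp.wW ξ hξ)] at hE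
    exact hp.edge v hv ξ hξ hE

theorem Ext.dom (h : Ext Γ Γ') : Γ.dom ⊆ Γ'.dom := by
  unfold Gr.dom
  exact Set.union_subset_union (Set.image_mono h.U) (Set.image_mono h.W)

/-- conditions for the larger graph supported in the smaller one -/
theorem Ext.ok_of (h : Ext Γ Γ') (hp : OK Γ' p) (hpd : p.In Γ.dom) : OK Γ p where
  uU v hv := Gr.inl_mem_dom.1 (hpd.1 v hv)
  wW ξ hξ := Gr.inr_mem_dom.1 (hpd.2 ξ hξ)
  a_len := hp.a_len
  a_out := hp.a_out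
  b_len := hp.b_len
  b_out := hp.b_out
  a_inj := hp.a_inj
  b_inj := hp.b_inj
  c_out v ξ hn := by
    apply hp.c_out v ξ
    rintro ⟨h1, h2, h3⟩
    exact hn ⟨h1, h2, by rw [h.E ξ (Gr.inr_mem_dom.1 (hpd.2 ξ h2))] at h3; exact h3⟩
  edge v hv ξ hξ hE := by
    rw [← h.E ξ (Gr.inr_mem_dom.1 (hpd.2 ξ hξ))] at hE
    exact hp.edge v hv ξ hξ hE

theorem Ext.ok_res (h : Ext Γ Γ') (hp : OK Γ' p) : OK Γ (p.res Γ.dom) :=
  h.ok_of (hp.res _) (Raw.res_In _ _)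

theorem Ext.closed (h : Ext Γ Γ') : Closed Γ' Γ.dom := by
  intro ξ hξ hξd v hv
  have hW := Gr.inr_mem_dom.1 hξd
  have h1 : v ∈ Γ'.E ξ := Γ'.c_sub ξ hξ hv
  rw [h.E ξ hW] at h1
  exact Gr.inl_mem_dom.2 (Γ.E_sub ξ hW h1)

theorem Ext.closed_of (h : Ext Γ Γ') (hY : Y ⊆ Γ.dom) (hYs : Strong Γ Y) : Closed Γ' Y := by
  intro ξ hξ hξY v hv
  have hW := Gr.inr_mem_dom.1 (hY hξY)
  have h1 : v ∈ Γ'.E ξ := Γ'.c_sub ξ hξ hv
  rw [h.E ξ hW] at h1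
  exact hYs.full ξ hW hξY v h1

theorem Ext.cpt_iff (h : Ext Γ Γ') (hp : OK Γ p) (hq : OK Γ q) : Cpt Γ' p q ↔ Cpt Γ p q := by
  constructor
  · rintro ⟨r, hr, h1, h2⟩
    exact ⟨r.res Γ.dom, h.ok_res hr, res_le h1 hp.In_dom, res_le h2 hq.In_dom⟩
  · rintro ⟨r, hr, h1, h2⟩
    exact ⟨r, h.ok hr, h1, h2⟩

/-- lifting: an extension (for `Γ`) of the restriction of `p` is compatible with `p` -/
theorem Ext.lift (h : Ext Γ Γ') (hp : OK Γ' p) (hq : OK Γ q) (hqp : q ≤ p.res Γ.dom) :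
    ∃ r, OK Γ' r ∧ r ≤ p ∧ r ≤ q :=
  proj' h.closed hp (h.ok hq) hq.In_dom hqp

theorem Ext.rn (h : Ext Γ Γ') (hD : RN Γ Y D) : RN Γ' Y D where
  ok hp := h.ok (hD.ok hp)
  supp hp := hD.supp hp
  ctbl := hD.ctbl
  func {_ _ _ _ _} hp hp' hc := hD.func hp hp' ((h.cpt_iff (hD.ok hp) (hD.ok hp')).1 hc)
  total n {p} hp := by
    obtain ⟨m, b, hb, r, hr, h1, h2⟩ := hD.total n (h.ok_res hp)
    obtain ⟨r', hr', h3, h4⟩ := h.lift hp hr h1
    exact ⟨m, b, hb, r', hr', h3, h4.trans h2⟩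

theorem Ext.rn_of (h : Ext Γ Γ') (hY : Y ⊆ Γ.dom) (hD : RN Γ' Y D) : RN Γ Y D where
  ok hp := h.ok_of (hD.ok hp) ((hD.supp hp).mono hY)
  supp hp := hD.supp hp
  ctbl := hD.ctbl
  func {_ _ _ _ _} hp hp' hc := by
    obtain ⟨r, hr, h1, h2⟩ := hc
    exact hD.func hp hp' ⟨r, h.ok hr, h1, h2⟩
  total n {p} hp := by
    obtain ⟨m, b, hb, hc⟩ := hD.total n (h.ok hp)
    exact ⟨m, b, hb, (h.cpt_iff hp (h.ok_of (hD.ok hb) ((hD.supp hb).mono hY))).1 hc⟩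

theorem Ext.vl (h : Ext Γ Γ') (hD : RN Γ Y D) (hp : OK Γ' p) :
    Vl Γ' D n m p ↔ Vl Γ D n m (p.res Γ.dom) := by
  constructor
  · intro hV q hq hqok
    obtain ⟨r, hr, h1, h2⟩ := h.lift hp hqok hq
    obtain ⟨r', h3, hr', b, hb, h4⟩ := hV r h1 hr
    exact ⟨r'.res Γ.dom, res_le (h3.trans h2) hqok.In_dom, h.ok_res hr', b, hb,
      res_le h4 (hD.ok hb).In_dom⟩
  · intro hV q hq hqok
    obtain ⟨r, h1, hr, b, hb, h2⟩ := hV (q.res Γ.dom) (res_le_res hq _) (h.ok_res hqok)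
    obtain ⟨r', hr', h3, h4⟩ := h.lift hqok hr h1
    exact ⟨r', h3, hr', b, hb, h4.trans h2⟩

theorem Ext.vl' (h : Ext Γ Γ') (hD : RN Γ Y D) (hp : OK Γ p) :
    Vl Γ' D n m p ↔ Vl Γ D n m p := by
  rw [h.vl hD (h.ok hp), res_eq hp hp.In_dom]

theorem Ext.eqN (h : Ext Γ Γ') (hD : RN Γ Y D) (hD' : RN Γ Z D') (hp : OK Γ' p) :
    EqN Γ' D D' p ↔ EqN Γ D D' (p.res Γ.dom) := by
  constructor
  · intro hE n m m' q hq hqok hV hV'
    obtain ⟨r, hr, h1, h2⟩ := h.lift hp hqok hq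
    refine hE n m m' r h1 hr ?_ ?_
    · exact (h.vl hD hr).2 (hV.mono (res_le h2 hqok.In_dom))
    · exact (h.vl hD' hr).2 (hV'.mono (res_le h2 hqok.In_dom))
  · intro hE n m m' q hq hqok hV hV'
    exact hE n m m' (q.res Γ.dom) (res_le_res hq _) (h.ok_res hqok) ((h.vl hD hqok).1 hV)
      ((h.vl hD' hqok).1 hV')

theorem Ext.relK (h : Ext Γ Γ') (hD : RN Γ Y D) (hD' : RN Γ Z D') (hp : OK Γ' p) :
    RelK Γ' d e k D D' p ↔ RelK Γ d e k D D' (p.res Γ.dom) := by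
  constructor
  · intro hR
    refine ⟨?_, ?_, ?_⟩
    · intro n m m' q hq hqok hV hV'
      obtain ⟨r, hr, h1, h2⟩ := h.lift hp hqok hq
      exact hR.brL h1 hr ((h.vl hD hr).2 (hV.mono (res_le h2 hqok.In_dom)))
        ((h.vl hD hr).2 (hV'.mono (res_le h2 hqok.In_dom)))
    · intro n m m' q hq hqok hV hV'
      obtain ⟨r, hr, h1, h2⟩ := h.lift hp hqok hq
      exact hR.brR h1 hr ((h.vl hD' hr).2 (hV.mono (res_le h2 hqok.In_dom)))
        ((h.vl hD' hr).2 (hV'.mono (res_le h2 hqok.In_dom)))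
    · intro n m m' q hk hq hqok hV hV'
      obtain ⟨r, hr, h1, h2⟩ := h.lift hp hqok hq
      exact hR.rel hk h1 hr ((h.vl hD hr).2 (hV.mono (res_le h2 hqok.In_dom)))
        ((h.vl hD' hr).2 (hV'.mono (res_le h2 hqok.In_dom)))
  · intro hR
    refine ⟨?_, ?_, ?_⟩
    · intro n m m' q hq hqok hV hV'
      exact hR.brL (res_le_res hq _) (h.ok_res hqok) ((h.vl hD hqok).1 hV)
        ((h.vl hD hqok).1 hV')
    · intro n m m' q hq hqok hV hV'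
      exact hR.brR (res_le_res hq _) (h.ok_res hqok) ((h.vl hD' hqok).1 hV)
        ((h.vl hD' hqok).1 hV')
    · intro n m m' q hk hq hqok hV hV'
      exact hR.rel hk (res_le_res hq _) (h.ok_res hqok) ((h.vl hD hqok).1 hV)
        ((h.vl hD' hqok).1 hV')

theorem Ext.relN (h : Ext Γ Γ') (hD : RN Γ Y D) (hD' : RN Γ Z D') (hp : OK Γ' p) :
    RelN Γ' d e D D' p ↔ RelN Γ d e D D' (p.res Γ.dom) := by
  constructor
  · intro hR q hq hqok
    obtain ⟨r, hr, h1, h2⟩ := h.lift hp hqok hq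
    obtain ⟨r', h3, hr', k, hK⟩ := hR r h1 hr
    exact ⟨r'.res Γ.dom, res_le (h3.trans h2) hqok.In_dom, h.ok_res hr', k,
      (h.relK hD hD' hr').1 hK⟩
  · intro hR q hq hqok
    obtain ⟨r, h1, hr, k, hK⟩ := hR (q.res Γ.dom) (res_le_res hq _) (h.ok_res hqok)
    obtain ⟨r', hr', h3, h4⟩ := h.lift hqok hr h1
    exact ⟨r', h3, hr', k, (h.relK hD hD' hr').2 (hK.mono (res_le h4 hr.In_dom))⟩

end MP186633L

/-!
# MP_186633_lc: distributivity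
-/

namespace MP186633L

open Cardinal

/-- the set `D` is dense over the large condition `q` -/
def DOver (D : Set SS) (q : Big) : Prop :=
  ∀ h p, OK q.g p → ∃ h' ≤ h, ∃ p' ≤ p, ∃ hp' : OK q.g p', (⟨q, h', p', hp'⟩ : SS) ∈ D

/-- one step of the recursion in `dist_one` -/
theorem dist_step (D : Set SS) (hopen : ∀ s ∈ D, ∀ s' ≤ s, s' ∈ D)
    (hdense : ∀ s, ∃ s' ≤ s, s' ∈ D) (q : Big) (hq : ¬ DOver D q) :
    ∃ s ∈ D, s.q ≤ q ∧ ∀ s1 ∈ D, s1.q = q →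
      ¬ ((∃ h, h ≤ s.h ∧ h ≤ s1.h) ∧ Cpt s.q.g s.p s1.p) := by
  unfold DOver at hq
  push Not at hq
  obtain ⟨h, p, hp, hno⟩ := hq
  obtain ⟨s', hs', hs'D⟩ := hdense ⟨q, h, p, hp⟩
  refine ⟨s', hs'D, hs'.1, ?_⟩
  rintro ⟨q1, h1, p1, hp1⟩ hs1D rfl ⟨⟨h'', hh1, hh2⟩, r, hr, hr1, hr2⟩
  have hext : Ext q1.g s'.q.g := Big.ext hs'.1
  have hr0 : OK q1.g (r.res q1.g.dom) := hext.ok_res hr
  have hle1 : r.res q1.g.dom ≤ p := res_le (hr1.trans hs'.2.2) hp.In_dom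
  have hle2 : r.res q1.g.dom ≤ p1 := res_le hr2 hp1.In_dom
  have hD : (⟨q1, h'', r.res q1.g.dom, hr0⟩ : SS) ∈ D :=
    hopen _ hs1D _ ⟨le_rfl, hh2, hle2⟩
  exact hno h'' (hh1.trans hs'.2.1) _ hle1 hr0 hD

/-- a single dense open set of the final forcing becomes dense over one large condition -/
theorem dist_one (D : Set SS) (hopen : ∀ s ∈ D, ∀ s' ≤ s, s' ∈ D)
    (hdense : ∀ s, ∃ s' ≤ s, s' ∈ D) (q0 : Big) :
    ∃ q ≤ q0, ∀ h p, OK q.g p → ∃ h' ≤ h, ∃ p' ≤ p, ∃ hp' : OK q.g p',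
      (⟨q, h', p', hp'⟩ : SS) ∈ D := by
  let K : Type := (ν 1).ord.ToType
  have hK : #K = ν 1 := mk_ord_toType _
  let Next : K → Big → Big → Prop := fun _ q q' => (DOver D q ∧ q' = q) ∨
    ∃ s ∈ D, s.q = q' ∧ ∀ s1 ∈ D, s1.q = q → ¬ ((∃ h, h ≤ s.h ∧ h ≤ s1.h) ∧ Cpt q'.g s.p s1.p)
  have hN : ∀ k q, ∃ q' ≤ q, Next k q q' := by
    intro k q
    by_cases hq : DOver D q
    · exact ⟨q, le_rfl, Or.inl ⟨hq, rfl⟩⟩
    · obtain ⟨s, hsD, hsq, hs⟩ := dist_step D hopen hdense q hq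
      exact ⟨s.q, hsq, Or.inr ⟨s, hsD, rfl, hs⟩⟩
  obtain ⟨q, q', qs, hNext, hle, hq0, hdec, hqs, -, -, -⟩ :=
    rec_chain (K := K) (hK.le.trans (ν_le_Θ 1)) Next hN q0
  by_contra hcon
  have hnot : ∀ k, ¬ DOver D (q k) := fun k hk => hcon ⟨q k, hq0 k, hk⟩
  have hs : ∀ k, ∃ s ∈ D, s.q = q' k ∧ ∀ s1 ∈ D, s1.q = q k →
      ¬ ((∃ h, h ≤ s.h ∧ h ≤ s1.h) ∧ Cpt (q' k).g s.p s1.p) := by
    intro k
    rcases hNext k with h | h
    · exact absurd h.1 (hnot k)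
    · exact h
  choose s hsD hsq hsno using hs
  have hok : ∀ k, OK (q' k).g (s k).p := by
    intro k
    rw [← hsq k]
    exact (s k).ok
  have key : ∀ i j, i < j → ¬ ((∃ h, h ≤ (s i).h ∧ h ≤ (s j).h) ∧
      Cpt qs.g (s i).p (s j).p) := by
    rintro i j hij ⟨⟨h, hh1, hh2⟩, hcpt⟩
    have hle' : q j ≤ q' i := hdec i j hij
    have hoki : OK (q j).g (s i).p := (Big.ext hle').ok (hok i)
    have hmem : (⟨q j, (s i).h, (s i).p, hoki⟩ : SS) ∈ D :=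
      hopen _ (hsD i) _ ⟨by rw [hsq i]; exact hle', le_rfl, le_rfl⟩
    refine hsno j _ hmem rfl ⟨⟨h, hh2, hh1⟩, ?_⟩
    have hoki' : OK (q' j).g (s i).p := (Big.ext (hle j)).ok hoki
    obtain ⟨r, hr, hr1, hr2⟩ := hcpt
    exact ((Big.ext (hqs j)).cpt_iff (hok j) hoki').1 ⟨r, hr, hr2, hr1⟩
  have hcc : #K ≤ 𝔠 := by
    refine cc_prod qs.g (fun k : K => ((s k).h, (s k).p))
      (fun k => (Big.ext (hqs k)).ok (hok k)) ?_
    intro i j hij hc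
    rcases lt_or_gt_of_ne hij with h | h
    · exact key i j h hc
    · obtain ⟨⟨h', h1, h2⟩, r, hr, hr1, hr2⟩ := hc
      exact key j i h ⟨⟨h', h2, h1⟩, r, hr, hr2, hr1⟩
  rw [hK] at hcc
  have h1 : ν 1 = Order.succ 𝔠 := rfl
  rw [h1] at hcc
  exact absurd hcc (not_le.2 (Order.lt_succ 𝔠))

/-- density over a large condition is preserved when it is strengthened -/
theorem dist_mono {D : Set SS} (hopen : ∀ s ∈ D, ∀ s' ≤ s, s' ∈ D) {q q' : Big} (hq : q' ≤ q)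
    (h : ∀ h p, OK q.g p → ∃ h' ≤ h, ∃ p' ≤ p, ∃ hp' : OK q.g p', (⟨q, h', p', hp'⟩ : SS) ∈ D) :
    ∀ h p, OK q'.g p → ∃ h' ≤ h, ∃ p' ≤ p, ∃ hp' : OK q'.g p',
      (⟨q', h', p', hp'⟩ : SS) ∈ D := by
  intro h0 p hp
  have hext : Ext q.g q'.g := Big.ext hq
  obtain ⟨h', hh', p', hp', hok, hD⟩ := h h0 (p.res q.g.dom) (hext.ok_res hp)
  obtain ⟨r, hr, hrp, hrp'⟩ := hext.lift hp hok hp'
  exact ⟨h', hh', r, hrp, hr, hopen _ hD _ ⟨hq, le_rfl, hrp'⟩⟩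

/-- **Distributivity**: at most `Θ` many dense open sets. -/
theorem dist {J : Type} (hJ : #J ≤ Θ) (D : J → Set SS)
    (hopen : ∀ j, ∀ s ∈ D j, ∀ s' ≤ s, s' ∈ D j) (hdense : ∀ j s, ∃ s' ≤ s, s' ∈ D j)
    (q0 : Big) :
    ∃ q ≤ q0, ∀ j h p, OK q.g p → ∃ h' ≤ h, ∃ p' ≤ p, ∃ hp' : OK q.g p',
      (⟨q, h', p', hp'⟩ : SS) ∈ D j := by
  let K : Type := (#J).ord.ToType
  have hK : #K = #J := mk_ord_toType _
  obtain ⟨e⟩ := Cardinal.eq.1 hK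
  obtain ⟨q, q', qs, hNext, hle, -, -, hqs, hqs0, -, -⟩ :=
    rec_chain (K := K) (hK.le.trans hJ) (fun k _ q' => DOver (D (e k)) q')
      (fun k q => dist_one (D (e k)) (hopen _) (hdense _) q) q0
  refine ⟨qs, hqs0, fun j => ?_⟩
  have h1 := hNext (e.symm j)
  rw [e.apply_symm_apply] at h1
  exact dist_mono (hopen j) (hqs (e.symm j)) h1

end MP186633L

/-!
# MP_186633_lc: the combinatorial facts about the final forcing used by the names, part A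

Values of names and the reduction of names for functions.
-/

namespace MP186633L

open Cardinal

theorem combA_le {q q' : Big} {h h' : Coll} {p p' : Raw Lam Lam} {hp : OK q.g p}
    {hp' : OK q'.g p'} (h1 : q' ≤ q) (h2 : h' ≤ h) (h3 : p' ≤ p) :
    (⟨q', h', p', hp'⟩ : SS) ≤ ⟨q, h, p, hp⟩ := ⟨h1, h2, h3⟩

theorem combA_q {s s' : SS} (h : s' ≤ s) : s'.q ≤ s.q := h.1
theorem combA_h {s s' : SS} (h : s' ≤ s) : s'.h ≤ s.h := h.2.1
theorem combA_p {s s' : SS} (h : s' ≤ s) : s'.p ≤ s.p := h.2.2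

/-- the dense set of a question -/
def combA_D {X : Type*} (T : X → SS → Prop) : Set SS :=
  {s | (∃ x, T x s) ∨ ∀ s' ≤ s, ∀ x, ¬ T x s'}

theorem combA_D_open {X : Type*} (T : X → SS → Prop)
    (hmono : ∀ x s s', T x s → s' ≤ s → T x s') : ∀ s ∈ combA_D T, ∀ s' ≤ s, s' ∈ combA_D T := by
  intro s hs s' hs'
  rcases hs with ⟨x, hx⟩ | h
  · exact Or.inl ⟨x, hmono x s s' hx hs'⟩
  · exact Or.inr fun s'' hs'' => h s'' (hs''.trans hs')

theorem combA_D_dense {X : Type*} (T : X → SS → Prop) : ∀ s, ∃ s' ≤ s, s' ∈ combA_D T := by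
  intro s
  by_cases h : ∃ s' ≤ s, ∃ x, T x s'
  · obtain ⟨s', hs', x, hx⟩ := h
    exact ⟨s', hs', Or.inl ⟨x, hx⟩⟩
  · refine ⟨s, le_rfl, Or.inr fun s' hs' x hx => h ⟨s', hs', x, hx⟩⟩

/-- at most continuum many values for each of `Θ` many questions -/
theorem values {I X : Type} (hI : #I ≤ Θ) (T : I → X → SS → Prop)
    (hmono : ∀ i x s s', T i x s → s' ≤ s → T i x s') (q0 : Big) :
    ∃ q ≤ q0, ∃ g : I → Set X, (∀ i, #(g i) ≤ 𝔠) ∧
      (∀ i, ∀ x ∈ g i, ∃ s : SS, s.q = q ∧ T i x s) ∧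
      ∀ i x (s : SS), s.q ≤ q → T i x s → ∃ s' ≤ s, ∃ x' ∈ g i, T i x' s' := by
  obtain ⟨q, hq, hden⟩ := dist hI (fun i => combA_D (T i))
    (fun i => combA_D_open (T i) (hmono i)) (fun i => combA_D_dense (T i)) q0
  have hB : ∀ i, ∃ B ⊆ {y : Coll × Raw Lam Lam | ∃ hp : OK q.g y.2, ∃ x, T i x ⟨q, y.1, y.2, hp⟩},
      #B ≤ 𝔠 ∧ ∀ x ∈ {y : Coll × Raw Lam Lam | ∃ hp : OK q.g y.2, ∃ x, T i x ⟨q, y.1, y.2, hp⟩},
        ∃ y ∈ B, (∃ h, h ≤ x.1 ∧ h ≤ y.1) ∧ Cpt q.g x.2 y.2 := by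
    intro i
    exact exists_predense_prod q.g _ (fun x hx => hx.1)
  choose B hBA hBc hBp using hB
  have hx : ∀ i, ∀ y : B i, ∃ x, ∃ hp : OK q.g y.1.2, T i x ⟨q, y.1.1, y.1.2, hp⟩ := by
    intro i y
    obtain ⟨hp, x, hx⟩ := hBA i y.2
    exact ⟨x, hp, hx⟩
  choose xv hxv using hx
  refine ⟨q, hq, fun i => Set.range (xv i), ?_, ?_, ?_⟩
  · intro i
    exact mk_range_le.trans (hBc i)
  · rintro i x ⟨y, rfl⟩
    obtain ⟨hp, h⟩ := hxv i y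
    exact ⟨_, rfl, h⟩
  · intro i x s hsq hT
    have hext := Big.ext hsq
    have hres := hext.ok_res s.ok
    obtain ⟨h', hh', p', hp', hok', hD⟩ := hden i s.h _ hres
    obtain ⟨r, hr, hr1, hr2⟩ := hext.lift s.ok hok' hp'
    have hA : (h', p') ∈ {y : Coll × Raw Lam Lam | ∃ hp : OK q.g y.2, ∃ x,
        T i x ⟨q, y.1, y.2, hp⟩} := by
      rcases hD with ⟨x2, hx2⟩ | hno
      · exact ⟨hok', x2, hx2⟩
      · exfalso
        refine hno ⟨s.q, h', r, hr⟩ (combA_le hsq le_rfl hr2) x ?_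
        exact hmono i x s _ hT ⟨le_rfl, hh', hr1⟩
    obtain ⟨y, hyB, ⟨h'', hh1, hh2⟩, r', hr', hr'1, hr'2⟩ := hBp i _ hA
    obtain ⟨r2, hr2', h21, h22⟩ := hext.lift s.ok hr' (le_trans hr'1 hp')
    obtain ⟨hpy, hTy⟩ := hxv i ⟨y, hyB⟩
    refine ⟨⟨s.q, h'', r2, hr2'⟩, ⟨le_rfl, le_trans hh1 hh', h21⟩, xv i ⟨y, hyB⟩,
      ⟨⟨y, hyB⟩, rfl⟩, ?_⟩
    exact hmono i _ _ _ hTy (combA_le hsq hh2 (le_trans h22 hr'2))

/-- mixing over one large condition -/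
theorem combA_mix (D : ℕ → Set SS) (hopen : ∀ j, ∀ s ∈ D j, ∀ s' ≤ s, s' ∈ D j)
    (hdense : ∀ j s, ∃ s' ≤ s, s' ∈ D j) (q0 : Big) (h0 : Coll) :
    ∃ q ≤ q0, ∃ h ≤ h0, ∀ n p, OK q.g p → ∃ p' ≤ p, ∃ hp' : OK q.g p',
      (⟨q, h, p', hp'⟩ : SS) ∈ D n := by
  obtain ⟨q, hq, hden⟩ := dist (J := ℕ) (by rw [mk_nat]; exact aleph0_le_Θ) D hopen hdense q0
  obtain ⟨h, hh, hmix⟩ := mix q.g (fun n h p => ∃ hp : OK q.g p, (⟨q, h, p, hp⟩ : SS) ∈ D n)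
    (by
      rintro n h p h' p' ⟨hp, hD⟩ hh hpp hok'
      exact ⟨hok', hopen n _ hD _ (combA_le le_rfl hh hpp)⟩)
    (by
      intro n h p hp
      obtain ⟨h', hh', p', hp', hok', hD⟩ := hden n h p hp
      exact ⟨h', hh', p', hp', hok', hok', hD⟩) h0
  refine ⟨q, hq, h, hh, fun n p hp => ?_⟩
  obtain ⟨p', hp', _, hok', hD⟩ := hmix n p hp
  exact ⟨p', hp', hok', hD⟩

/-- countably many values for each of countably many questions -/
theorem values_ctbl {X : Type*} (T : ℕ → X → SS → Prop)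
    (hmono : ∀ i x s s', T i x s → s' ≤ s → T i x s') (s0 : SS) :
    ∃ s ≤ s0, s.p = s0.p ∧ ∃ g : ℕ → Set X, (∀ i, (g i).Countable) ∧
      ∀ i x, ∀ s' ≤ s, T i x s' → ∃ s'' ≤ s', ∃ x' ∈ g i, T i x' s'' := by
  obtain ⟨q, hq, h, hh, hden⟩ := combA_mix (fun i => combA_D (T i))
    (fun i => combA_D_open (T i) (hmono i)) (fun i => combA_D_dense (T i)) s0.q s0.h
  have hB : ∀ i, ∃ B ⊆ {p : Raw Lam Lam | ∃ hp : OK q.g p, ∃ x, T i x ⟨q, h, p, hp⟩},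
      B.Countable ∧ ∀ x ∈ {p : Raw Lam Lam | ∃ hp : OK q.g p, ∃ x, T i x ⟨q, h, p, hp⟩},
        ∃ y ∈ B, Cpt q.g x y := by
    intro i
    obtain ⟨B, h1, h2, -, h3⟩ := exists_predense q.g
      {p : Raw Lam Lam | ∃ hp : OK q.g p, ∃ x, T i x ⟨q, h, p, hp⟩} (fun x hx => hx.1)
    exact ⟨B, h1, h2, h3⟩
  choose B hBA hBc hBp using hB
  have hx : ∀ i, ∀ y : B i, ∃ x, ∃ hp : OK q.g y.1, T i x ⟨q, h, y.1, hp⟩ := by
    intro i y
    obtain ⟨hp, x, hx⟩ := hBA i y.2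
    exact ⟨x, hp, hx⟩
  choose xv hxv using hx
  refine ⟨⟨q, h, s0.p, (Big.ext hq).ok s0.ok⟩, ⟨hq, hh, le_rfl⟩, rfl,
    fun i => Set.range (xv i), ?_, ?_⟩
  · intro i
    have : Countable (B i) := (hBc i).to_subtype
    exact Set.countable_range _
  · intro i x s hs hT
    have hsq : s.q ≤ q := combA_q hs
    have hsh : s.h ≤ h := combA_h hs
    have hext := Big.ext hsq
    have hres := hext.ok_res s.ok
    obtain ⟨p', hp', hok', hD⟩ := hden i _ hres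
    obtain ⟨r, hr, hr1, hr2⟩ := hext.lift s.ok hok' hp'
    have hA : p' ∈ {p : Raw Lam Lam | ∃ hp : OK q.g p, ∃ x, T i x ⟨q, h, p, hp⟩} := by
      rcases hD with ⟨x2, hx2⟩ | hno
      · exact ⟨hok', x2, hx2⟩
      · exfalso
        refine hno ⟨s.q, s.h, r, hr⟩ (combA_le hsq hsh hr2) x ?_
        exact hmono i x s _ hT ⟨le_rfl, le_rfl, hr1⟩
    obtain ⟨y, hyB, r', hr', hr'1, hr'2⟩ := hBp i _ hA
    obtain ⟨r2, hr2', h21, h22⟩ := hext.lift s.ok hr' (le_trans hr'1 hp')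
    obtain ⟨hpy, hTy⟩ := hxv i ⟨y, hyB⟩
    refine ⟨⟨s.q, s.h, r2, hr2'⟩, ⟨le_rfl, le_rfl, h21⟩, xv i ⟨y, hyB⟩,
      ⟨⟨y, hyB⟩, rfl⟩, ?_⟩
    exact hmono i _ _ _ hTy (combA_le hsq hsh (le_trans h22 hr'2))

/-- every function from `ℕ` to `ℕ` in the extension has a name over a large condition -/
theorem red (T : ℕ → ℕ → SS → Prop) (hmono : ∀ n m s s', T n m s → s' ≤ s → T n m s')
    (hreg : ∀ n m s, (∀ s' ≤ s, ∃ s'' ≤ s', T n m s'') → T n m s) (s0 : SS)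
    (hfunc : ∀ n m m', ∀ s ≤ s0, T n m s → T n m' s → m = m')
    (htotal : ∀ n, ∀ s ≤ s0, ∃ s' ≤ s, ∃ m, T n m s') :
    ∃ s ≤ s0, ∃ D, RN s.q.g s.q.g.dom D ∧
      ∀ n m, ∀ s' ≤ s, (Vl s'.q.g D n m s'.p ↔ T n m s') := by
  obtain ⟨q, hq, h, hh, hden⟩ := combA_mix
    (fun n => {s : SS | (∃ m, T n m s) ∨ ∀ s' ≤ s, ¬ s' ≤ s0})
    (by
      intro n s hs s' hs'
      rcases hs with ⟨m, hm⟩ | hno
      · exact Or.inl ⟨m, hmono n m s s' hm hs'⟩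
      · exact Or.inr fun s'' hs'' => hno s'' (hs''.trans hs'))
    (by
      intro n s
      by_cases hex : ∃ s' ≤ s, s' ≤ s0
      · obtain ⟨s', hs', hs0⟩ := hex
        obtain ⟨s'', hs'', m, hm⟩ := htotal n s' hs0
        exact ⟨s'', hs''.trans hs', Or.inl ⟨m, hm⟩⟩
      · exact ⟨s, le_rfl, Or.inr fun s' hs' hs0 => hex ⟨s', hs', hs0⟩⟩) s0.q s0.h
  have hok0 : OK q.g s0.p := (Big.ext hq).ok s0.ok
  -- the sets of conditions deciding the values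
  let A : ℕ → ℕ → Set (Raw Lam Lam) := fun n m =>
    {p | ∃ hp : OK q.g p, (p ≤ s0.p ∧ T n m ⟨q, h, p, hp⟩) ∨ (m = 0 ∧ ¬ Cpt q.g p s0.p)}
  have hAfunc : ∀ n m m' p p', p ∈ A n m → p' ∈ A n m' → Cpt q.g p p' → m = m' := by
    rintro n m m' p p' ⟨hp, h1⟩ ⟨hp', h1'⟩ ⟨r, hr, hr1, hr2⟩
    rcases h1 with ⟨h2, h3⟩ | ⟨h2, h3⟩ <;> rcases h1' with ⟨h2', h3'⟩ | ⟨h2', h3'⟩
    · refine hfunc n m m' ⟨q, h, r, hr⟩ ⟨hq, hh, hr1.trans h2⟩ ?_ ?_
      · exact hmono n m _ _ h3 (combA_le le_rfl le_rfl hr1)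
      · exact hmono n m' _ _ h3' (combA_le le_rfl le_rfl hr2)
    · exact absurd ⟨r, hr, hr2, hr1.trans h2⟩ h3'
    · exact absurd ⟨r, hr, hr1, hr2.trans h2'⟩ h3
    · rw [h2, h2']
  have hApre : ∀ n p, OK q.g p → ∃ p' ≤ p, ∃ m, p' ∈ A n m := by
    intro n p hp
    by_cases hc : Cpt q.g p s0.p
    · obtain ⟨r, hr, hr1, hr2⟩ := hc
      obtain ⟨p', hp', hok', hD⟩ := hden n r hr
      have hle : (⟨q, h, p', hok'⟩ : SS) ≤ s0 := ⟨hq, hh, hp'.trans hr2⟩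
      rcases hD with ⟨m, hm⟩ | hno
      · exact ⟨p', hp'.trans hr1, m, hok', Or.inl ⟨hp'.trans hr2, hm⟩⟩
      · exact absurd hle (hno _ le_rfl)
    · exact ⟨p, le_rfl, 0, hp, Or.inr ⟨rfl, hc⟩⟩
  have hB : ∀ n, ∃ B ⊆ {p | ∃ m, p ∈ A n m}, B.Countable ∧
      ∀ x ∈ {p | ∃ m, p ∈ A n m}, ∃ y ∈ B, Cpt q.g x y := by
    intro n
    obtain ⟨B, h1, h2, -, h3⟩ := exists_predense q.g {p | ∃ m, p ∈ A n m}
      (fun x ⟨m, hx⟩ => hx.1)
    exact ⟨B, h1, h2, h3⟩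
  choose B hBA hBc hBp using hB
  have hRN : RN q.g q.g.dom (fun n m => B n ∩ A n m) := by
    refine ⟨fun hp => hp.2.1, fun hp => hp.2.1.In_dom, fun n m => (hBc n).mono
      Set.inter_subset_left, fun hp hp' hc => hAfunc _ _ _ _ _ hp.2 hp'.2 hc, ?_⟩
    intro n p hp
    obtain ⟨p', hp', hA⟩ := hApre n p hp
    obtain ⟨b, hb, r, hr, hr1, hr2⟩ := hBp n p' hA
    obtain ⟨m, hm⟩ := hBA n hb
    exact ⟨m, b, ⟨hb, hm⟩, r, hr, hr1.trans hp', hr2⟩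
  refine ⟨⟨q, h, s0.p, hok0⟩, ⟨hq, hh, le_rfl⟩, fun n m => B n ∩ A n m, hRN, ?_⟩
  intro n m s' hs'
  have hsq : s'.q ≤ q := combA_q hs'
  have hsh : s'.h ≤ h := combA_h hs'
  have hsp : s'.p ≤ s0.p := by
    have h5 := combA_p hs'
    exact h5
  have hin0 : s0.p.In q.g.dom := hok0.In_dom
  constructor
  · intro hV
    have hV' : Vl q.g (fun n m => B n ∩ A n m) n m (s'.p.res q.g.dom) :=
      ((Big.ext hsq).vl hRN s'.ok).1 hV
    apply hreg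
    intro s'' hs''
    have hsq2 : s''.q ≤ q := (combA_q hs'').trans hsq
    have hsh2 : s''.h ≤ h := (combA_h hs'').trans hsh
    have hext := Big.ext hsq2
    have hres := hext.ok_res s''.ok
    obtain ⟨p'', hp'', hok'', b, hb, hb'⟩ := hV' _ (res_le_res (combA_p hs'') q.g.dom) hres
    obtain ⟨r, hr, hr1, hr2⟩ := hext.lift s''.ok hok'' hp''
    refine ⟨⟨s''.q, s''.h, r, hr⟩, ⟨le_rfl, le_rfl, hr1⟩, ?_⟩
    obtain ⟨hokb, hb2⟩ := hb.2
    rcases hb2 with ⟨h2, h3⟩ | ⟨h2, h3⟩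
    · exact hmono n m _ _ h3 (combA_le hsq2 hsh2 (hr2.trans hb'))
    · exfalso
      apply h3
      refine ⟨p'', hok'', hb', hp''.trans ?_⟩
      exact res_le ((combA_p hs'').trans hsp) hin0
  · intro hT p' hp' hok'
    have hext := Big.ext hsq
    have hres := hext.ok_res hok'
    obtain ⟨m', b, hb, r, hr, hr1, hr2⟩ := hRN.total n hres
    obtain ⟨r2, hr2', h21, h22⟩ := hext.lift hok' hr hr1
    have hle : (⟨s'.q, s'.h, r2, hr2'⟩ : SS) ≤ s' := ⟨le_rfl, le_rfl, h21.trans hp'⟩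
    obtain ⟨hokb, hb2⟩ := hb.2
    rcases hb2 with ⟨h2, h3⟩ | ⟨h2, h3⟩
    · have hT2 : T n m' ⟨s'.q, s'.h, r2, hr2'⟩ :=
        hmono n m' _ _ h3 (combA_le hsq hsh (h22.trans hr2))
      have hT1 : T n m ⟨s'.q, s'.h, r2, hr2'⟩ := hmono n m _ _ hT hle
      have hle0 : (⟨s'.q, s'.h, r2, hr2'⟩ : SS) ≤ s0 :=
        ⟨hsq.trans hq, le_trans hsh hh, (h21.trans hp').trans hsp⟩
      have hmm : m = m' := hfunc n m m' _ hle0 hT1 hT2
      subst hmm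
      exact ⟨r2, h21, hr2', b, hb, h22.trans hr2⟩
    · exfalso
      apply h3
      refine ⟨r, hr, hr2, hr1.trans ?_⟩
      exact res_le (hp'.trans hsp) hin0

end MP186633L

/-!
# MP_186633_lc: genericity of the graph

The theorem `spread`.
-/

namespace MP186633L

open Cardinal

theorem CombB_mk_Om1 : #Om1 = ℵ_ 1 := by
  rw [Om1, Cardinal.mk_toType, Ordinal.card_omega]

theorem CombB_mk_dom (q : Big) : #q.g.dom ≤ Θ := by
  unfold Gr.dom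
  refine (Cardinal.mk_union_le _ _).trans ?_
  refine (add_le_add Cardinal.mk_image_le Cardinal.mk_image_le).trans ?_
  exact Cardinal.add_le_of_le aleph0_le_Θ q.U_card q.W_card

/-- the closure property of one step -/
def CombB_Next (T : Nm Lam Lam → Nm Lam Lam → ℕ → Nm Lam Lam → SS → Prop) (q q' : Big) : Prop :=
  (∀ D1 D2 n D3 (s : SS), RN q.g q.g.dom D1 → RN q.g q.g.dom D2 → s.q ≤ q' →
    RN s.q.g s.q.g.dom D3 → T D1 D2 n D3 s →
    ∃ s' ≤ s, ∃ D3', RN q'.g q'.g.dom D3' ∧ T D1 D2 n D3' s') ∧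
  ∃ v ∈ q'.g.U, v ∉ q.g.U

/-- adding a new left vertex -/
theorem CombB_add_left (q : Big) : ∃ q' ≤ q, ∃ v ∈ q'.g.U, v ∉ q.g.U := by
  obtain ⟨v, hv⟩ := exists_new q.g.U q.U_card
  refine ⟨⟨⟨insert v q.g.U, q.g.W, q.g.E, q.g.c, fun ξ hξ => (q.g.E_sub ξ hξ).trans
    (Set.subset_insert _ _), q.g.c_sub, q.g.c_ctbl, q.g.disj, q.g.E_card⟩, ?_, q.W_card⟩,
    ⟨Set.subset_insert _ _, subset_rfl, fun _ _ => rfl, fun _ h h' => absurd h h'⟩,
    v, Set.mem_insert _ _, hv⟩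
  refine Cardinal.mk_insert_le.trans ?_
  exact Cardinal.add_le_of_le aleph0_le_Θ q.U_card
    ((Cardinal.one_lt_aleph0.le).trans aleph0_le_Θ)

theorem CombB_next (T : Nm Lam Lam → Nm Lam Lam → ℕ → Nm Lam Lam → SS → Prop)
    (hmono : ∀ D1 D2 n D3 s s', T D1 D2 n D3 s → s' ≤ s → T D1 D2 n D3 s') (q : Big) :
    ∃ q' ≤ q, CombB_Next T q q' := by
  obtain ⟨q1, hq1, v, hv1, hv⟩ := CombB_add_left q
  let R : Set (Nm Lam Lam) := {D | RN q.g q.g.dom D}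
  have hR : #R ≤ Θ := card_RN q.g q.g.dom Θ Θ_pow aleph0_le_Θ (CombB_mk_dom q)
  have hI : #(R × R × ℕ) ≤ Θ := by
    rw [Cardinal.mk_prod, Cardinal.mk_prod]
    simp only [Cardinal.lift_id]
    refine (mul_le_mul' hR (mul_le_mul' hR (Cardinal.mk_le_aleph0 (α := ℕ)))).trans ?_
    rw [Cardinal.mul_aleph0_eq aleph0_le_Θ, Cardinal.mul_eq_self aleph0_le_Θ]
  obtain ⟨q', hq', g, -, hg, hT⟩ := values (X := Nm Lam Lam) hI
    (fun i D3 s => RN s.q.g s.q.g.dom D3 ∧ T i.1 i.2.1 i.2.2 D3 s)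
    (fun i D3 s s' h hs => ⟨((Big.ext hs.1).rn h.1).dom, hmono _ _ _ _ _ _ h.2 hs⟩) q1
  refine ⟨q', hq'.trans hq1, ?_, v, hq'.U hv1, hv⟩
  intro D1 D2 n D3 s h1 h2 hs h3 hTs
  obtain ⟨s', hs', D3', hD3', -, hT'⟩ := hT (⟨D1, h1⟩, ⟨D2, h2⟩, n) D3 s hs ⟨h3, hTs⟩
  obtain ⟨t, ht, hRt, -⟩ := hg _ D3' hD3'
  refine ⟨s', hs', D3', ?_, hT'⟩
  rw [← ht]
  exact hRt

/-- genericity of the graph -/
theorem spread (T : Nm Lam Lam → Nm Lam Lam → ℕ → Nm Lam Lam → SS → Prop)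
    (hmono : ∀ D1 D2 n D3 s s', T D1 D2 n D3 s → s' ≤ s → T D1 D2 n D3 s') (s0 : SS) :
    ∃ s ≤ s0, ∃ (Y : Set (Lam ⊕ Lam)) (ξ : Lam) (v : Om1 → Lam), Function.Injective v ∧
      Y ⊆ s.q.g.dom ∧ Closed s.q.g Y ∧ ξ ∈ s.q.g.W ∧ Sum.inr ξ ∉ Y ∧
      (∀ i, v i ∈ s.q.g.E ξ ∧ Sum.inl (v i) ∈ Y) ∧
      ∀ D1 D2 n D3 (s' : SS), RN s.q.g Y D1 → RN s.q.g Y D2 → s' ≤ s →
        RN s'.q.g s'.q.g.dom D3 → T D1 D2 n D3 s' →
        ∃ s'' ≤ s', ∃ D3', RN s.q.g Y D3' ∧ T D1 D2 n D3' s'' := by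
  have hK : #Om1 ≤ Θ := by
    rw [CombB_mk_Om1]
    exact (aleph1_le_ν 0).trans (ν_le_Θ 0)
  obtain ⟨q, q', qs, hNext, hqq, hq0, hlt, hqs, hqs0, hU, hW⟩ :=
    rec_chain (K := Om1) hK (fun _ q q' => CombB_Next T q q')
      (fun _ q => CombB_next T hmono q) s0.q
  choose v hv hvn using fun k => (hNext k).2
  have hmonoU : ∀ {i j}, i < j → (q' i).g.U ⊆ (q j).g.U := fun {i j} hij => (hlt i j hij).U
  have hqU : ∀ k, (q k).g.U ⊆ (q' k).g.U := fun k => (hqq k).U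
  have hvinj : Function.Injective v := by
    intro i j hij
    rcases lt_trichotomy i j with h | h | h
    · exact absurd (hmonoU h (hij ▸ hv i)) (hvn j)
    · exact h
    · exact absurd (hmonoU h (hij ▸ hv j)) (hvn i)
  obtain ⟨ξ, hξ⟩ := exists_new qs.g.W qs.W_card
  have hne : Nonempty Om1 := by
    by_contra h
    rw [not_nonempty_iff] at h
    apply Om1_uncountable
    exact Set.to_countable _
  obtain ⟨qp, hp1, hp2, hp3, hp4, hp5, hp6⟩ := add_vertex (qs := qs) q' hqs s0.q hqs0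
    (fun k => (hqq k).trans (hq0 k)) hW.le hne (Set.range v)
    (by
      rintro _ ⟨k, rfl⟩
      exact (hqs k).U (hv k))
    (Cardinal.mk_range_le.trans CombB_mk_Om1.le)
    (by
      intro k
      refine ((Om1_countable_Iic k).image v).mono ?_
      rintro _ ⟨⟨i, rfl⟩, hi⟩
      refine ⟨i, ?_, rfl⟩
      by_contra hik
      have hik' : k < i := not_le.1 hik
      exact hvn i (hmonoU hik' hi)) ξ hξ
  set Y : Set (Lam ⊕ Lam) := ⋃ k, (q' k).g.dom with hY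
  have hYdom : Y ⊆ qp.g.dom := Set.iUnion_subset fun k => (Big.ext (hp1 k)).dom
  have hξY : Sum.inr ξ ∉ Y := by
    intro h
    obtain ⟨k, hk⟩ := Set.mem_iUnion.1 h
    rcases hk with ⟨x, _, hx⟩ | ⟨x, hx, hx'⟩
    · exact absurd hx (by simp)
    · rw [Sum.inr.injEq] at hx'
      subst hx'
      exact hξ ((hqs k).W hx)
  -- a name with support in `Y` is a name over some `q k`
  have hname : ∀ D, RN qp.g Y D → ∃ k0, ∀ k, k0 < k → RN (q k).g (q k).g.dom D := by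
    intro D hD
    obtain ⟨C, hCY, hC, hDC⟩ := hD.exists_ctbl
    have hk : ∀ x : C, ∃ k, (x : Lam ⊕ Lam) ∈ (q' k).g.dom := fun x => Set.mem_iUnion.1 (hCY x.2)
    choose f hf using hk
    have : Countable C := hC
    have hb : ∃ i, ∀ x : C, f x < i := by
      rcases isEmpty_or_nonempty C with h | h
      · obtain ⟨i⟩ := hne
        exact ⟨i, fun x => h.elim x⟩
      · obtain ⟨e, he⟩ := exists_surjective_nat C
        obtain ⟨i, hi⟩ := Om1_bdd (fun n => f (e n))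
        refine ⟨i, fun x => ?_⟩
        obtain ⟨n, rfl⟩ := he x
        exact hi n
    obtain ⟨i, hi⟩ := hb
    refine ⟨i, fun k hk => ?_⟩
    have hCk : C ⊆ (q k).g.dom := by
      intro x hx
      exact (Big.ext (hlt _ _ ((hi ⟨x, hx⟩).trans hk))).dom (hf ⟨x, hx⟩)
    have hext : Ext (q k).g qp.g := Big.ext ((hp1 k).trans (hqq k))
    exact (hext.rn_of hCk hDC).dom
  refine ⟨⟨qp, s0.h, s0.p, (Big.ext hp2).ok s0.ok⟩, ⟨hp2, le_rfl, le_rfl⟩, Y, ξ, v, hvinj, hYdom,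
    ?_, ?_, hξY, ?_, ?_⟩
  · -- closed
    intro ζ hζ hζY w hw
    obtain ⟨k, hk⟩ := Set.mem_iUnion.1 hζY
    rcases hk with ⟨x, _, hx⟩ | ⟨x, hx, hx'⟩
    · exact absurd hx (by simp)
    · rw [Sum.inr.injEq] at hx'
      subst hx'
      have h1 : w ∈ qp.g.E x := qp.g.c_sub x hζ hw
      rw [(hp1 k).E x hx] at h1
      exact Set.mem_iUnion.2 ⟨k, Or.inl ⟨w, (q' k).g.E_sub x hx h1, rfl⟩⟩
  · change ξ ∈ qp.g.W
    rw [hp4]
    exact Set.mem_insert _ _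
  · intro i
    refine ⟨?_, Set.mem_iUnion.2 ⟨i, Or.inl ⟨v i, hv i, rfl⟩⟩⟩
    change v i ∈ qp.g.E ξ
    rw [hp5]
    exact ⟨i, rfl⟩
  · intro D1 D2 n D3 s' h1 h2 hs' h3 hT
    obtain ⟨k1, hk1⟩ := hname D1 h1
    obtain ⟨k2, hk2⟩ := hname D2 h2
    obtain ⟨k, hk⟩ := Om1_bdd (fun j => if j = 0 then k1 else k2)
    have hkk1 : k1 < k := by simpa using hk 0
    have hkk2 : k2 < k := by simpa using hk 1
    have hsq : s'.q ≤ q' k := hs'.1.trans (hp1 k)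
    obtain ⟨s'', hs'', D3', hD3', hT'⟩ := (hNext k).1 D1 D2 n D3 s' (hk1 k hkk1) (hk2 k hkk2)
      hsq h3 hT
    refine ⟨s'', hs'', D3', ?_, hT'⟩
    exact ((Big.ext (hp1 k)).rn hD3').mono (Set.subset_iUnion (fun k => (q' k).g.dom) k)

end MP186633L

/-!
# MP_186633_lc: the combinatorial facts about the final forcing used by the names

The transport of Lemma C.
-/

namespace MP186633L

open Cardinal

/-- the support of a name -/
def suppN (D : Nm Lam Lam) : Set (Lam ⊕ Lam) :=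
  ⋃ n, ⋃ m, ⋃ p ∈ D n m, (Sum.inl '' (p.u : Set Lam) ∪ Sum.inr '' (p.w : Set Lam))

theorem suppN_ctbl {Γ : Gr Lam Lam} {Y : Set (Lam ⊕ Lam)} {D : Nm Lam Lam} (hD : RN Γ Y D) :
    (suppN D).Countable := by
  unfold suppN
  refine Set.countable_iUnion fun n => Set.countable_iUnion fun m => ?_
  refine (hD.ctbl n m).biUnion fun p _ => ?_
  exact (((p.u.finite_toSet).image _).countable).union (((p.w.finite_toSet).image _).countable)

theorem suppN_sub {Γ : Gr Lam Lam} {Y : Set (Lam ⊕ Lam)} {D : Nm Lam Lam} (hD : RN Γ Y D) :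
    suppN D ⊆ Y := by
  intro x hx
  simp only [suppN, Set.mem_iUnion] at hx
  obtain ⟨n, m, p, hp, hx⟩ := hx
  have h := hD.supp hp
  rcases hx with ⟨v, hv, rfl⟩ | ⟨v, hv, rfl⟩
  · exact h.1 v hv
  · exact h.2 v hv

theorem rn_of_suppN {Γ : Gr Lam Lam} {Y Z : Set (Lam ⊕ Lam)} {D : Nm Lam Lam} (hD : RN Γ Y D)
    (hZ : suppN D ⊆ Z) : RN Γ Z D where
  ok := hD.ok
  supp := by
    intro n m p hp
    constructor
    · intro v hv
      refine hZ ?_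
      simp only [suppN, Set.mem_iUnion]
      exact ⟨n, m, p, hp, Or.inl ⟨v, hv, rfl⟩⟩
    · intro v hv
      refine hZ ?_
      simp only [suppN, Set.mem_iUnion]
      exact ⟨n, m, p, hp, Or.inr ⟨v, hv, rfl⟩⟩
  ctbl := hD.ctbl
  func := hD.func
  total := hD.total

/-- key functions for families of at most `ν m` names -/
theorem keys (s : SS) (F : Set (Nm Lam Lam)) (m : ℕ) (hF : #F ≤ ν m)
    (hFR : ∀ D ∈ F, RN s.q.g s.q.g.dom D) :
    ∃ (K : Type) (_ : LinearOrder K) (_ : WellFoundedLT K)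
      (κ : Nm Lam Lam → K → SS → Prop),
      (∀ D k s1 s2, κ D k s1 → s2 ≤ s1 → κ D k s2) ∧
      (∀ D ∈ F, ∀ s1 ≤ s, ∃ s2 ≤ s1, ∃ k, κ D k s2) ∧
      (∀ D ∈ F, ∀ D' ∈ F, ∀ k k', ∀ s1 ≤ s, κ D k s1 → κ D' k' s1 →
        EqN s1.q.g D D' s1.p → k = k') ∧
      (∀ D ∈ F, ∀ D' ∈ F, ∀ k, ∀ s1 ≤ s, κ D k s1 → κ D' k s1 → EqN s1.q.g D D' s1.p) ∧
      ∀ D ∈ F, ∀ s1 ≤ s, ∃ s2 ≤ s1, ∃ J : ℕ → Nm Lam Lam → SS → Prop,
        (∀ n D' s3 s4, J n D' s3 → s4 ≤ s3 → J n D' s4) ∧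
        (∀ n, ∀ D1 ∈ F, ∀ D2 ∈ F, ∀ s3 ≤ s2, J n D1 s3 → J n D2 s3 →
          EqN s3.q.g D1 D2 s3.p) ∧
        ∀ s3 ≤ s2, ∀ D' ∈ F, ∀ k k', κ D k s3 → κ D' k' s3 → k' < k →
          (RelN s3.q.g dR eR D' D s3.p ∨ RelN s3.q.g dR eR D D' s3.p) →
          ∃ s4 ≤ s3, ∃ n, J n D' s4 := by
  -- the support of the family
  have hXc : #(⋃ D : F, suppN D.1 : Set (Lam ⊕ Lam)) ≤ ν m := by
    have h1 : #(⋃ D : F, suppN D.1 : Set (Lam ⊕ Lam)) ≤ #F * ⨆ D : F, #(suppN D.1) :=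
      mk_iUnion_le _
    refine h1.trans ?_
    have h2 : (⨆ D : F, #(suppN D.1)) ≤ ℵ₀ :=
      ciSup_le' fun D => (suppN_ctbl (hFR D.1 D.2)).le_aleph0
    calc #F * ⨆ D : F, #(suppN D.1) ≤ ν m * ν m :=
          mul_le_mul' hF (h2.trans (aleph0_le_ν m))
      _ = ν m := mul_eq_self (aleph0_le_ν m)
  have hXd : (⋃ D : F, suppN D.1 : Set (Lam ⊕ Lam)) ⊆ s.q.g.dom :=
    Set.iUnion_subset fun D => suppN_sub (hFR D.1 D.2)
  obtain ⟨Y, hXY, hYd, hYc, hYs⟩ := exists_strong s.q.g _ hXd (ν m) (aleph1_le_ν m) hXc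
  have hRN : ∀ D ∈ F, RN s.q.g Y D := fun D hD =>
    rn_of_suppN (hFR D hD) ((Set.subset_iUnion (fun D : F => suppN D.1) ⟨D, hD⟩).trans hXY)
  obtain ⟨K, iK, iW, κ0, hκ⟩ := lemmaC s.q.g good_dR_eR m Y hYd hYs hYc
  -- lifting
  have lift : ∀ s1 : SS, s1.q ≤ s.q → ∀ h' ≤ s1.h, ∀ p' ≤ s1.p.res s.q.g.dom, OK s.q.g p' →
      ∃ s2 ≤ s1, s2.q ≤ s.q ∧ s2.h = h' ∧ s2.p.res s.q.g.dom ≤ p' := by
    intro s1 hs1 h' hh' p' hp' hok
    obtain ⟨r, hr, hr1, hr2⟩ := (Big.ext hs1).lift s1.ok hok hp'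
    exact ⟨⟨s1.q, h', r, hr⟩, ⟨le_rfl, hh', hr1⟩, hs1, rfl, res_le hr2 hok.In_dom⟩
  refine ⟨K, iK, iW, fun D k s1 => s1.q ≤ s.q ∧ κ0 D k s1.h (s1.p.res s.q.g.dom),
    ?_, ?_, ?_, ?_, ?_⟩
  · rintro D k s1 s2 ⟨h1, h2⟩ hs
    exact ⟨hs.1.trans h1, hκ.mono h2 hs.2.1 (res_le_res hs.2.2 _)
      ((Big.ext (hs.1.trans h1)).ok_res s2.ok)⟩
  · intro D hD s1 hs1
    obtain ⟨h', hh', p', hp', hok, k, hk⟩ := hκ.total (h := s1.h) (hRN D hD)
      ((Big.ext hs1.1).ok_res s1.ok)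
    obtain ⟨s2, hs2, hq2, rfl, hp2⟩ := lift s1 hs1.1 h' hh' p' hp' hok
    exact ⟨s2, hs2, k, hq2, hκ.mono hk le_rfl hp2 ((Big.ext hq2).ok_res s2.ok)⟩
  · rintro D hD D' hD' k k' s1 hs1 ⟨-, h1⟩ ⟨-, h2⟩ he
    exact hκ.func (hRN D hD) (hRN D' hD') ((Big.ext hs1.1).ok_res s1.ok) h1 h2
      (((Big.ext hs1.1).eqN (hRN D hD) (hRN D' hD') s1.ok).1 he)
  · rintro D hD D' hD' k s1 hs1 ⟨-, h1⟩ ⟨-, h2⟩
    exact ((Big.ext hs1.1).eqN (hRN D hD) (hRN D' hD') s1.ok).2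
      (hκ.inj (hRN D hD) (hRN D' hD') ((Big.ext hs1.1).ok_res s1.ok) h1 h2)
  · intro D hD s1 hs1
    obtain ⟨h', hh', p', hp', hok, J, hJ1, hJ2, hJ3⟩ := hκ.back (h := s1.h) (hRN D hD)
      ((Big.ext hs1.1).ok_res s1.ok)
    obtain ⟨s2, hs2, hq2, rfl, hp2⟩ := lift s1 hs1.1 h' hh' p' hp' hok
    refine ⟨s2, hs2, fun n D' s3 => s3.q ≤ s.q ∧ J n D' s3.h (s3.p.res s.q.g.dom), ?_, ?_, ?_⟩
    · rintro n D' s3 s4 ⟨h1, h2⟩ hs
      exact ⟨hs.1.trans h1, hJ1 _ _ _ _ _ _ h2 hs.2.1 (res_le_res hs.2.2 _)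
        ((Big.ext (hs.1.trans h1)).ok_res s4.ok)⟩
    · rintro n D1 hD1 D2 hD2 s3 hs3 ⟨h1, h2⟩ ⟨-, h3⟩
      exact ((Big.ext h1).eqN (hRN D1 hD1) (hRN D2 hD2) s3.ok).2
        (hJ2 n D1 D2 _ _ (hRN D1 hD1) (hRN D2 hD2) ((Big.ext h1).ok_res s3.ok) h2 h3)
    · rintro s3 hs3 D' hD' k k' ⟨h1, h2⟩ ⟨-, h3⟩ hkk hrel
      obtain ⟨h4, hh4, p4, hp4, hok4, n, hn⟩ := hJ3 s3.h hs3.2.1 (s3.p.res s.q.g.dom)
        ((res_le_res hs3.2.2 _).trans hp2) ((Big.ext h1).ok_res s3.ok) D' k k' (hRN D' hD')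
        h2 h3 hkk
        (hrel.imp (fun h => ((Big.ext h1).relN (hRN D' hD') (hRN D hD) s3.ok).1 h)
          (fun h => ((Big.ext h1).relN (hRN D hD) (hRN D' hD') s3.ok).1 h))
      obtain ⟨s4, hs4, hq4, rfl, hp5⟩ := lift s3 h1 h4 hh4 p4 hp4 hok4
      exact ⟨s4, hs4, n, hq4, hJ1 _ _ _ _ _ _ hn le_rfl hp5 ((Big.ext hq4).ok_res s4.ok)⟩

end MP186633L
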