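import Pool.Agent.Lib.MP_186633_lc.Stmt
import Pool.Agent.Lib.MP_9708fd_lc.FAxioms
import Pool.Agent.Lib.MP_9708fd_lc.FModel

/-!
# MP_186633_lc: formulas for the principle, and evaluation of the forcing relation
-/

namespace MP186633L

open MP9708F

universe u

/-! ### Formulas -/

/-- Implication. -/
def imp (φ ψ : SetFormula) : SetFormula := .neg (.and φ (.neg ψ))

/-- Disjunction. -/
def or' (φ ψ : SetFormula) : SetFormula := .neg (.and (.neg φ) (.neg ψ))

/-- Equivalence. -/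
def iff' (φ ψ : SetFormula) : SetFormula := .and (imp φ ψ) (imp ψ φ)

/-- `p = (a, b)`. -/
def fPair (p a b : ℕ) : SetFormula :=
  .all (iff' (.mem 0 (p + 1)) (or' (.all (iff' (.mem 0 1) (.eq 0 (a + 2))))
    (.all (iff' (.mem 0 1) (or' (.eq 0 (a + 2)) (.eq 0 (b + 2)))))))

/-- `(a, b) ∈ f`. -/
def fHas (f a b : ℕ) : SetFormula := (SetFormula.and (.mem 0 (f + 1)) (fPair 0 (a + 1) (b + 1))).ex

/-- `((a, n), b) ∈ f`. -/
def fTrip (f a n b : ℕ) : SetFormula :=
  (SetFormula.and (fPair 0 (a + 1) (n + 1)) (fHas (f + 1) 0 (b + 1))).ex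

/-- `(((a, a'), n), b) ∈ f`. -/
def fQuad (f a a' n b : ℕ) : SetFormula :=
  (SetFormula.and (fPair 0 (a + 1) (a' + 1)) (fTrip (f + 1) 0 (n + 1) (b + 1))).ex

/-- `w` is inductive. -/
def fInd (w : ℕ) : SetFormula :=
  .and (SetFormula.and (.mem 0 (w + 1)) (.all (.neg (.mem 0 1)))).ex
    (.all (imp (.mem 0 (w + 1)) (SetFormula.and (.mem 0 (w + 2))
      (.all (iff' (.mem 0 1) (or' (.mem 0 2) (.eq 0 2))))).ex))

/-- `w = ω`. -/
def fOm (w : ℕ) : SetFormula :=
  .and (fInd w) (.all (imp (fInd 0) (.all (imp (.mem 0 (w + 2)) (.mem 0 1)))))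

/-- `f : x → y`. -/
def fFun (f x y : ℕ) : SetFormula :=
  .and (.all (imp (.mem 0 (f + 1)) (SetFormula.and (.mem 1 (x + 3))
      (.and (.mem 0 (y + 3)) (fPair 2 1 0))).ex.ex))
    (.and (.all (imp (.mem 0 (x + 1)) (fHas (f + 2) 1 0).ex))
      (.all (.all (.all (imp (fHas (f + 3) 2 1) (imp (fHas (f + 3) 2 0) (.eq 1 0)))))))

/-- `m = n ∪ {n}`. -/
def fSucc (m n : ℕ) : SetFormula := .all (iff' (.mem 0 (m + 1)) (or' (.mem 0 (n + 1)) (.eq 0 (n + 1))))

/-- `f` is single valued. -/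
def fSV (f : ℕ) : SetFormula :=
  .all (.all (.all (imp (fHas (f + 3) 2 1) (imp (fHas (f + 3) 2 0) (.eq 1 0)))))

/-- `x` is a branch. -/
def fBr (w d x : ℕ) : SetFormula :=
  .and (fFun x w w) (.all (.all (.all (.all (imp (.mem 3 (w + 4)) (imp (fSucc 2 3)
    (imp (fHas (x + 4) 3 1) (imp (fHas (x + 4) 2 0) (fHas (d + 4) 1 0)))))))))

/-- `R(x, y)`. -/
def fRel (w d e x y : ℕ) : SetFormula :=
  .and (fBr w d x) (.and (fBr w d y) (SetFormula.and (.mem 0 (w + 1))
    (.all (imp (.mem 0 (w + 2)) (imp (or' (.eq 0 1) (.mem 1 0))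
      (.all (.all (imp (fHas (x + 4) 2 1) (imp (fHas (y + 4) 2 0) (fHas (e + 4) 1 0))))))))).ex)

/-- `|Z| ≥ ℵ_ω`. -/
def fLarge (w Z : ℕ) : SetFormula :=
  (SetFormula.and (.all (.all (imp (fHas 2 1 0) (.mem 0 (Z + 3)))))
    (.all (.all (imp (.mem 1 (w + 3)) (imp (fSucc 0 1)
      (.neg (SetFormula.and
        (.all (.all (.all (.all (imp (fTrip 4 3 2 1) (imp (fTrip 4 3 2 0) (.eq 1 0)))))))
        (.all (imp (fHas 4 2 0) (SetFormula.and (.mem 0 (w + 7)) (.and (fHas 6 5 1)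
          (fTrip 3 1 0 2))).ex.ex))).ex)))))).ex

/-- `θ` is an ordinal. -/
def fOrd (θ : ℕ) : SetFormula :=
  .and (.all (imp (.mem 0 (θ + 1)) (.all (imp (.mem 0 1) (.mem 0 (θ + 2))))))
    (.all (imp (.mem 0 (θ + 1)) (.all (imp (.mem 0 1) (.all (imp (.mem 0 1) (.mem 0 2)))))))

/-- (F1). -/
def fF1 (w d e : ℕ) : SetFormula :=
  .all (imp (.all (imp (.mem 0 1) (fFun 0 (w + 2) (w + 2)))) (imp (.neg (fLarge (w + 1) 0))
    (SetFormula.and (fOrd 1) (.and (fSV 0)
      (.and (.all (imp (.mem 0 3) (SetFormula.and (.mem 0 3) (fHas 2 1 0)).ex))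
        (.and (.all (.all (.all (imp (.mem 2 5) (imp (.mem 1 5) (imp (fHas 3 2 0)
            (imp (fHas 3 1 0) (.eq 2 1))))))))
          (.all (imp (.mem 0 3) (SetFormula.and (fSV 0)
            (.all (.all (.all (imp (.mem 2 7) (imp (fHas 5 4 1) (imp (fHas 5 2 0)
              (imp (.mem 0 1) (imp (or' (fRel (w + 8) (d + 8) (e + 8) 2 4)
                (fRel (w + 8) (d + 8) (e + 8) 4 2))
                (SetFormula.and (.mem 0 (w + 9)) (fHas 4 0 3)).ex))))))))).ex)))))).ex.ex))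

/-- Hypothesis of (F2). -/
def fF2a : SetFormula :=
  .all (.all (.all (.all (.all (imp (fQuad 5 4 3 2 1) (imp (fQuad 5 4 3 2 0) (.eq 1 0)))))))

/-- Elements of `Z` are functions. -/
def fF2b (w : ℕ) : SetFormula := .all (imp (.mem 0 2) (fFun 0 (w + 4) (w + 4)))

/-- Closure of `Z`. -/
def fF2c (w : ℕ) : SetFormula :=
  .all (.all (.all (.all (imp (.mem 3 5) (imp (.mem 2 5) (imp (.mem 1 (w + 7))
    (imp (fQuad 6 3 2 1 0) (imp (fFun 0 (w + 7) (w + 7)) (.mem 0 5)))))))))

/-- Covering of the neighbours. -/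
def fF2d (w d e : ℕ) : SetFormula :=
  (SetFormula.and (fSV 0) (.all (imp (.mem 0 3) (imp (fRel (w + 5) (d + 5) (e + 5) 0 2)
    (SetFormula.and (.mem 0 (w + 6)) (fHas 2 0 1)).ex)))).ex

/-- (F2). -/
def fF2 (w d e : ℕ) : SetFormula :=
  .all (imp fF2a (SetFormula.and (fF2b w) (.and (fF2c w) (.and (fFun 0 (w + 3) (w + 3))
    (.and (.neg (.mem 0 1)) (.neg (fF2d w d e)))))).ex.ex)

/-- The principle. -/
def princF : SetFormula :=
  (SetFormula.and (fOm 2) (.and (fF1 2 1 0) (fF2 2 1 0))).ex.ex.ex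

section Holds

variable {M : Type u} (E : M → M → Prop) (v : ℕ → M)

@[simp] theorem push_zero' (x : M) : push x v 0 = x := rfl

@[simp] theorem push_succ' (x : M) (n : ℕ) : push x v (n + 1) = v n := rfl

theorem holds_imp (φ ψ : SetFormula) : (imp φ ψ).Holds E v ↔ (φ.Holds E v → ψ.Holds E v) := by
  simp [imp, SetFormula.Holds]

theorem holds_or (φ ψ : SetFormula) : (or' φ ψ).Holds E v ↔ (φ.Holds E v ∨ ψ.Holds E v) := by
  simp [or', SetFormula.Holds]
  tauto

theorem holds_iff (φ ψ : SetFormula) : (iff' φ ψ).Holds E v ↔ (φ.Holds E v ↔ ψ.Holds E v) := by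
  simp only [iff', SetFormula.Holds, holds_imp]
  tauto

theorem holds_ex (φ : SetFormula) : φ.ex.Holds E v ↔ ∃ x, φ.Holds E (push x v) := by
  simp [SetFormula.ex, SetFormula.Holds]

theorem holds_fPair (p a b : ℕ) : (fPair p a b).Holds E v ↔ IsPair E (v p) (v a) (v b) := by
  simp only [fPair, SetFormula.Holds, holds_iff, holds_or]
  rfl

theorem holds_fHas (f a b : ℕ) : (fHas f a b).Holds E v ↔ HasPair E (v f) (v a) (v b) := by
  simp only [fHas, SetFormula.Holds, holds_ex, holds_fPair]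
  rfl

theorem holds_fTrip (f a n b : ℕ) :
    (fTrip f a n b).Holds E v ↔ HasTrip E (v f) (v a) (v n) (v b) := by
  simp only [fTrip, SetFormula.Holds, holds_ex, holds_fPair, holds_fHas]
  rfl

theorem holds_fQuad (f a a' n b : ℕ) :
    (fQuad f a a' n b).Holds E v ↔ HasQuad E (v f) (v a) (v a') (v n) (v b) := by
  simp only [fQuad, SetFormula.Holds, holds_ex, holds_fPair, holds_fTrip]
  rfl

theorem holds_fInd (w : ℕ) : (fInd w).Holds E v ↔ IsInductive E (v w) := by
  simp only [fInd, SetFormula.Holds, holds_ex, holds_imp, holds_iff, holds_or]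
  rfl

theorem holds_fOm (w : ℕ) : (fOm w).Holds E v ↔ IsOmega E (v w) := by
  simp only [fOm, SetFormula.Holds, holds_imp, holds_fInd]
  rfl

theorem holds_fFun (f x y : ℕ) : (fFun f x y).Holds E v ↔ IsFunc E (v f) (v x) (v y) := by
  simp only [fFun, SetFormula.Holds, holds_imp, holds_ex, holds_fPair, holds_fHas]
  rfl

theorem holds_fSucc (m n : ℕ) : (fSucc m n).Holds E v ↔ IsSucc E (v m) (v n) := by
  simp only [fSucc, SetFormula.Holds, holds_iff, holds_or]
  rfl

theorem holds_fSV (f : ℕ) : (fSV f).Holds E v ↔ SingleVal E (v f) := by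
  simp only [fSV, SetFormula.Holds, holds_imp, holds_fHas]
  rfl

theorem holds_fBr (w d x : ℕ) : (fBr w d x).Holds E v ↔ IsBranch E (v w) (v d) (v x) := by
  simp only [fBr, SetFormula.Holds, holds_imp, holds_fHas, holds_fFun, holds_fSucc]
  rfl

theorem holds_fRel (w d e x y : ℕ) :
    (fRel w d e x y).Holds E v ↔ RelR E (v w) (v d) (v e) (v x) (v y) := by
  simp only [fRel, SetFormula.Holds, holds_imp, holds_fHas, holds_fBr, holds_ex, holds_or]
  rfl

theorem holds_fLarge (w Z : ℕ) : (fLarge w Z).Holds E v ↔ IsLarge E (v w) (v Z) := by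
  simp only [fLarge, SetFormula.Holds, holds_imp, holds_fHas, holds_ex, holds_fSucc, holds_fTrip]
  rfl

theorem holds_fOrd (θ : ℕ) : (fOrd θ).Holds E v ↔ IsOrd E (v θ) := by
  simp only [fOrd, SetFormula.Holds, holds_imp]
  rfl

theorem holds_fF1 (w d e : ℕ) : (fF1 w d e).Holds E v ↔ PrF1 E (v w) (v d) (v e) := by
  simp only [fF1, SetFormula.Holds, holds_imp, holds_fHas, holds_ex, holds_or, holds_fLarge,
    holds_fOrd, holds_fSV, holds_fFun, holds_fRel]
  rfl

theorem holds_fF2 (w d e : ℕ) : (fF2 w d e).Holds E v ↔ PrF2 E (v w) (v d) (v e) := by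
  simp only [fF2, fF2a, fF2b, fF2c, fF2d, SetFormula.Holds, holds_imp, holds_fHas, holds_ex,
    holds_fQuad, holds_fSV, holds_fFun, holds_fRel]
  rfl

theorem holds_princF : princF.Holds E v ↔ Principle E := by
  simp only [princF, SetFormula.Holds, holds_ex, holds_fOm, holds_fF1, holds_fF2]
  rfl

end Holds

/-! ### Evaluation of the forcing relation -/

section Connectives

variable {P : Type u} [Preorder P] {φ ψ : SetFormula} {v : ℕ → Nam P} {p : P}

theorem forces_imp : (imp φ ψ).Forces v p ↔ ∀ q ≤ p, φ.Forces v q → ψ.Forces v q := by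
  constructor
  · intro h q hq hφ
    refine (ψ.forces_reg v).reg fun r hr => ?_
    by_contra hcon
    push Not at hcon
    exact h r (hr.trans hq) ⟨φ.forces_mono v hr hφ, hcon⟩
  · intro h q hq hφψ
    exact hφψ.2 q le_rfl (h q hq hφψ.1)

theorem forces_or : (or' φ ψ).Forces v p ↔ DB (fun r => φ.Forces v r ∨ ψ.Forces v r) p := by
  constructor
  · intro h q hq
    by_contra hcon
    push Not at hcon
    exact h q hq ⟨fun r hr => (hcon r hr).1, fun r hr => (hcon r hr).2⟩
  · intro h q hq hφψ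
    obtain ⟨r, hr, h' | h'⟩ := h q hq
    · exact hφψ.1 r hr h'
    · exact hφψ.2 r hr h'

theorem forces_iff : (iff' φ ψ).Forces v p ↔ ∀ q ≤ p, (φ.Forces v q ↔ ψ.Forces v q) := by
  constructor
  · rintro ⟨h1, h2⟩ q hq
    exact ⟨forces_imp.1 h1 q hq, forces_imp.1 h2 q hq⟩
  · intro h
    exact ⟨forces_imp.2 fun q hq => (h q hq).1, forces_imp.2 fun q hq => (h q hq).2⟩

theorem forces_ex' : φ.ex.Forces v p ↔ DB (fun r => ∃ x, φ.Forces (push x v) r) p :=
  SetFormula.forces_ex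

end Connectives

section Pairs

variable {P : Type u} [Preorder P]

/-- The ordered pair name. -/
def opair (x y : Nam P) : Nam P := Nam.pair (Nam.pair x x) (Nam.pair x y)

theorem fmem_single {a w : Nam P} {p : P} : fmem w (Nam.pair a a) p ↔ feq w a p := by
  rw [fmem_pair]
  constructor
  · intro h
    refine feq_reg fun q hq => ?_
    obtain ⟨r, hr, h' | h'⟩ := h q hq
    · exact ⟨r, hr, h'⟩
    · exact ⟨r, hr, h'⟩
  · intro h q hq
    exact ⟨q, le_rfl, Or.inl (feq_mono hq h)⟩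

theorem feq_single {z a : Nam P} {p : P} :
    (∀ w, ∀ q ≤ p, (fmem w z q ↔ feq w a q)) ↔ feq z (Nam.pair a a) p := by
  rw [feq_iff_fmem]
  simp only [fmem_single]

theorem feq_pair' {z a b : Nam P} {p : P} :
    (∀ w, ∀ q ≤ p, (fmem w z q ↔ DB (fun r => feq w a r ∨ feq w b r) q)) ↔
      feq z (Nam.pair a b) p := by
  rw [feq_iff_fmem]
  simp only [fmem_pair]

theorem forces_fPair {v : ℕ → Nam P} {c : P} {p a b : ℕ} :
    (fPair p a b).Forces v c ↔ feq (v p) (opair (v a) (v b)) c := by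
  unfold fPair opair
  simp only [SetFormula.Forces, forces_iff, forces_or, push_succ', push_zero']
  rw [← feq_pair']
  simp only [← feq_single (P := P), ← feq_pair' (P := P) (a := v a) (b := v b)]

theorem forces_fHas {v : ℕ → Nam P} {c : P} {f a b : ℕ} :
    (fHas f a b).Forces v c ↔ fmem (opair (v a) (v b)) (v f) c := by
  unfold fHas
  simp only [SetFormula.Forces, forces_ex', forces_fPair, push_succ', push_zero']
  constructor
  · intro h
    refine fmem_reg fun q hq => ?_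
    obtain ⟨r, hr, x, h1, h2⟩ := h q hq
    exact ⟨r, hr, fmem_congr_left h2 h1⟩
  · intro h q hq
    exact ⟨q, le_rfl, opair (v a) (v b), fmem_mono hq h, feq_refl _ _⟩

theorem feq_pair_congr {a a' b b' : Nam P} {p : P} (h1 : feq a a' p) (h2 : feq b b' p) :
    feq (Nam.pair a b) (Nam.pair a' b') p := by
  refine feq_of_fmem fun z q hq => ?_
  rw [fmem_pair, fmem_pair]
  constructor
  · refine DB.imp fun r hr h => ?_
    rcases h with h | h
    · exact Or.inl (feq_trans h (feq_mono (hr.trans hq) h1))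
    · exact Or.inr (feq_trans h (feq_mono (hr.trans hq) h2))
  · refine DB.imp fun r hr h => ?_
    rcases h with h | h
    · exact Or.inl (feq_trans h (feq_symm (feq_mono (hr.trans hq) h1)))
    · exact Or.inr (feq_trans h (feq_symm (feq_mono (hr.trans hq) h2)))

theorem feq_opair {a a' b b' : Nam P} {p : P} (h1 : feq a a' p) (h2 : feq b b' p) :
    feq (opair a b) (opair a' b') p :=
  feq_pair_congr (feq_pair_congr h1 h1) (feq_pair_congr h1 h2)

theorem fmem_pair_left (a b : Nam P) (p : P) : fmem a (Nam.pair a b) p :=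
  fmem_pair.2 fun q _ => ⟨q, le_rfl, Or.inl (feq_refl _ _)⟩

theorem fmem_pair_right (a b : Nam P) (p : P) : fmem b (Nam.pair a b) p :=
  fmem_pair.2 fun q _ => ⟨q, le_rfl, Or.inr (feq_refl _ _)⟩

theorem opair_inj {a a' b b' : Nam P} {p : P} (h : feq (opair a b) (opair a' b') p) :
    feq a a' p ∧ feq b b' p := by
  have hA : ∀ q ≤ p, feq a a' q := by
    intro q hq
    refine feq_reg fun r hr => ?_
    have h1 : fmem (Nam.pair a a) (opair a' b') r :=
      fmem_congr_right (feq_mono (hr.trans hq) h) (fmem_pair_left _ _ _)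
    obtain ⟨s, hs, h2 | h2⟩ := fmem_pair.1 h1 r le_rfl
    · exact ⟨s, hs, feq_symm (fmem_single.1 (fmem_congr_right (feq_symm h2)
        (fmem_pair_left a' a' s)))⟩
    · exact ⟨s, hs, feq_symm (fmem_single.1 (fmem_congr_right (feq_symm h2)
        (fmem_pair_left a' b' s)))⟩
  refine ⟨hA p le_rfl, feq_reg fun q hq => ?_⟩
  have haa := hA q hq
  have h1 : fmem (Nam.pair a b) (opair a' b') q :=
    fmem_congr_right (feq_mono hq h) (fmem_pair_right _ _ _)
  obtain ⟨r, hr, h2⟩ := fmem_pair.1 h1 q le_rfl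
  have h3 : fmem (Nam.pair a' b') (opair a b) r :=
    fmem_congr_right (feq_symm (feq_mono (hr.trans hq) h)) (fmem_pair_right _ _ _)
  obtain ⟨s, hs, h4⟩ := fmem_pair.1 h3 r le_rfl
  have haa' := feq_mono (hs.trans hr) haa
  rcases h4 with h4 | h4
  · -- `b' = a`
    have hb' : feq b' a s := fmem_single.1 (fmem_congr_right h4 (fmem_pair_right _ _ _))
    rcases h2 with h2 | h2
    · have hb : feq b a' s := fmem_single.1 (fmem_congr_right (feq_mono hs h2)
        (fmem_pair_right _ _ _))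
      exact ⟨s, hs.trans hr, feq_trans hb (feq_trans (feq_symm haa') (feq_symm hb'))⟩
    · have hb : fmem b (Nam.pair a' b') s :=
        fmem_congr_right (feq_mono hs h2) (fmem_pair_right _ _ _)
      have hb2 : feq b a s := fmem_single.1 (fmem_congr_right h4 hb)
      exact ⟨s, hs.trans hr, feq_trans hb2 (feq_symm hb')⟩
  · -- `b' ∈ {a, b}`
    have hb' : fmem b' (Nam.pair a b) s := fmem_congr_right h4 (fmem_pair_right _ _ _)
    obtain ⟨t, ht, h5 | h5⟩ := fmem_pair.1 hb' s le_rfl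
    · have hb : fmem b (Nam.pair a' b') t :=
        fmem_congr_right (feq_symm (feq_mono ht h4)) (fmem_pair_right _ _ _)
      obtain ⟨w, hw, h6 | h6⟩ := fmem_pair.1 hb t le_rfl
      · exact ⟨w, ((hw.trans ht).trans hs).trans hr, feq_trans h6
          (feq_trans (feq_symm (feq_mono (hw.trans ht) haa')) (feq_symm (feq_mono hw h5)))⟩
      · exact ⟨w, ((hw.trans ht).trans hs).trans hr, h6⟩
    · exact ⟨t, (ht.trans hs).trans hr, feq_symm h5⟩

theorem not_fmem_self (x : Nam P) : ∀ p : P, ¬ fmem x x p := by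
  induction x with
  | mk ι w e ih =>
    intro p h
    obtain ⟨r, hr, j, h1, h2⟩ := h p le_rfl
    exact ih j r (fmem_congr_right h2 (fmem_of_wt h1))

theorem fin_mem_fin {n m : ℕ} (h : n < m) (p : P) : fmem (Nam.fin n) (Nam.fin m : Nam P) p := by
  induction m with
  | zero => omega
  | succ m ih =>
    refine fmem_succ.2 fun q _ => ⟨q, le_rfl, ?_⟩
    rcases Nat.lt_succ_iff_lt_or_eq.1 h with h | h
    · exact Or.inl (fmem_mono (by assumption) (ih h))
    · subst h
      exact Or.inr (feq_refl _ _)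

theorem fin_inj {n m : ℕ} {p : P} (h : feq (Nam.fin n) (Nam.fin m) p) : n = m := by
  rcases lt_trichotomy n m with h' | h' | h'
  · exact absurd (fmem_congr_right (feq_symm h) (fin_mem_fin h' p)) (not_fmem_self _ _)
  · exact h'
  · exact absurd (fmem_congr_right h (fin_mem_fin h' p)) (not_fmem_self _ _)

theorem fmem_omega {z : Nam P} {p : P} :
    fmem z Nam.omega p ↔ DB (fun q => ∃ n, feq z (Nam.fin n) q) p := by
  constructor
  · intro h q hq
    obtain ⟨r, hr, ⟨n⟩, -, h2⟩ := h q hq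
    exact ⟨r, hr, n, h2⟩
  · intro h q hq
    obtain ⟨r, hr, n, h2⟩ := h q hq
    exact ⟨r, hr, ⟨n⟩, trivial, h2⟩

theorem forces_fInd {v : ℕ → Nam P} {p : P} {w : ℕ} : (fInd w).Forces v p ↔
    fmem Nam.empty (v w) p ∧ ∀ y, ∀ q ≤ p, fmem y (v w) q → fmem (Nam.succ y) (v w) q := by
  unfold fInd
  simp only [SetFormula.Forces, forces_ex', forces_iff, forces_or, forces_imp, push_succ',
    push_zero']
  constructor
  · rintro ⟨h1, h2⟩
    constructor
    · refine fmem_reg fun q hq => ?_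
      obtain ⟨r, hr, y, h3, h4⟩ := h1 q hq
      refine ⟨r, hr, fmem_congr_left ?_ h3⟩
      exact feq_of_fmem fun z s hs => iff_of_false (h4 z s hs) (not_fmem_empty z s)
    · intro y q hq hy
      refine fmem_reg fun r hr => ?_
      obtain ⟨s, hs, z, h3, h4⟩ := h2 y q hq hy r hr
      refine ⟨s, hs, fmem_congr_left ?_ h3⟩
      refine feq_of_fmem fun u t ht => ?_
      rw [fmem_succ]
      exact h4 u t ht
  · rintro ⟨h1, h2⟩
    constructor
    · intro q hq
      exact ⟨q, le_rfl, Nam.empty, fmem_mono hq h1, fun z s _ => not_fmem_empty z s⟩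
    · intro y q hq hy r hr
      exact ⟨r, le_rfl, Nam.succ y, fmem_mono hr (h2 y q hq hy), fun u t _ => fmem_succ⟩

theorem forces_fOm {v : ℕ → Nam P} {p : P} {w : ℕ} :
    (fOm w).Forces v p ↔ feq (v w) Nam.omega p := by
  unfold fOm
  simp only [SetFormula.Forces, forces_imp, forces_fInd, push_succ', push_zero']
  constructor
  · rintro ⟨⟨h1, h2⟩, h3⟩
    have h4 := h3 Nam.omega p le_rfl ⟨infinity_forced.1 p, fun y q _ h => infinity_forced.2 y q h⟩
    have h5 : ∀ n : ℕ, fmem (Nam.fin n) (v w) p := by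
      intro n
      induction n with
      | zero => exact h1
      | succ n ih => exact h2 _ p le_rfl ih
    refine feq_of_fmem fun z q hq => ⟨fun h => h4 z q hq h, fun h => fmem_reg fun r hr => ?_⟩
    obtain ⟨s, hs, n, h6⟩ := fmem_omega.1 h r hr
    exact ⟨s, hs, fmem_congr_left (feq_symm h6) (fmem_mono ((hs.trans hr).trans hq) (h5 n))⟩
  · intro h
    refine ⟨⟨fmem_congr_right (feq_symm h) (infinity_forced.1 p), fun y q hq hy => ?_⟩, ?_⟩
    · have h' := feq_mono hq h
      exact fmem_congr_right (feq_symm h') (infinity_forced.2 y q (fmem_congr_right h' hy))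
    · intro w' q hq hw' y r hr hy
      have h5 : ∀ n : ℕ, fmem (Nam.fin n) w' q := by
        intro n
        induction n with
        | zero => exact hw'.1
        | succ n ih => exact hw'.2 _ q le_rfl ih
      refine fmem_reg fun s hs => ?_
      obtain ⟨t, ht, n, h6⟩ := fmem_omega.1 (fmem_congr_right (feq_mono (hr.trans hq) h) hy) s hs
      exact ⟨t, ht, fmem_congr_left (feq_symm h6) (fmem_mono ((ht.trans hs).trans hr) (h5 n))⟩

theorem forces_fFun {v : ℕ → Nam P} {p : P} {f x y : ℕ} : (fFun f x y).Forces v p ↔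
    (∀ z, ∀ q ≤ p, fmem z (v f) q → DB (fun r => ∃ a, DB (fun s => ∃ b, fmem a (v x) s ∧
      fmem b (v y) s ∧ feq z (opair a b) s) r) q) ∧
    (∀ a, ∀ q ≤ p, fmem a (v x) q → DB (fun r => ∃ b, fmem (opair a b) (v f) r) q) ∧
    ∀ a b b', ∀ q ≤ p, fmem (opair a b) (v f) q → ∀ r ≤ q, fmem (opair a b') (v f) r →
      feq b b' r := by
  unfold fFun
  simp only [SetFormula.Forces, forces_ex', forces_imp, forces_fPair, forces_fHas, push_succ',
    push_zero']

theorem forces_fTrip {v : ℕ → Nam P} {c : P} {f a n b : ℕ} : (fTrip f a n b).Forces v c ↔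
    fmem (opair (opair (v a) (v n)) (v b)) (v f) c := by
  unfold fTrip
  simp only [SetFormula.Forces, forces_ex', forces_fPair, forces_fHas, push_succ', push_zero']
  constructor
  · intro h
    refine fmem_reg fun q hq => ?_
    obtain ⟨r, hr, x, h1, h2⟩ := h q hq
    exact ⟨r, hr, fmem_congr_left (feq_opair h1 (feq_refl _ _)) h2⟩
  · intro h q hq
    exact ⟨q, le_rfl, opair (v a) (v n), feq_refl _ _, fmem_mono hq h⟩

theorem forces_fQuad {v : ℕ → Nam P} {c : P} {f a a' n b : ℕ} :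
    (fQuad f a a' n b).Forces v c ↔
      fmem (opair (opair (opair (v a) (v a')) (v n)) (v b)) (v f) c := by
  unfold fQuad
  simp only [SetFormula.Forces, forces_ex', forces_fPair, forces_fTrip, push_succ', push_zero']
  constructor
  · intro h
    refine fmem_reg fun q hq => ?_
    obtain ⟨r, hr, x, h1, h2⟩ := h q hq
    exact ⟨r, hr, fmem_congr_left (feq_opair (feq_opair h1 (feq_refl _ _)) (feq_refl _ _)) h2⟩
  · intro h q hq
    exact ⟨q, le_rfl, opair (v a) (v a'), feq_refl _ _, fmem_mono hq h⟩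

theorem forces_fSucc {v : ℕ → Nam P} {c : P} {m n : ℕ} :
    (fSucc m n).Forces v c ↔ feq (v m) (Nam.succ (v n)) c := by
  unfold fSucc
  simp only [SetFormula.Forces, forces_iff, forces_or, push_succ', push_zero']
  rw [feq_iff_fmem]
  simp only [fmem_succ]

theorem forces_fSV {v : ℕ → Nam P} {p : P} {f : ℕ} : (fSV f).Forces v p ↔
    ∀ a b b', ∀ q ≤ p, fmem (opair a b) (v f) q → ∀ r ≤ q, fmem (opair a b') (v f) r →
      feq b b' r := by
  unfold fSV
  simp only [SetFormula.Forces, forces_imp, forces_fHas, push_succ', push_zero']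

end Pairs

end MP186633L

/-!
# MP_186633_lc: evaluation of the forcing relation for functions on `ω` and for the relation `R`
-/

namespace MP186633L

open MP9708F

variable {P : Type} [Preorder P] {p : P} {v : ℕ → Nam P}

/-- `p` forces `f(n) = m` -/
def At (f : Nam P) (n m : ℕ) (p : P) : Prop := fmem (opair (Nam.fin n) (Nam.fin m)) f p

/-- `p` forces that `f` is a function from `ω` to `ω` -/
structure NFun (f : Nam P) (p : P) : Prop where
  sub : ∀ z, ∀ q ≤ p, fmem z f q →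
    DB (fun r => ∃ n m, feq z (opair (Nam.fin n) (Nam.fin m)) r) q
  tot : ∀ n, DB (fun r => ∃ m, At f n m r) p
  fn : ∀ n m m', ∀ q ≤ p, At f n m q → At f n m' q → m = m'

theorem NFun.mono {f : Nam P} {q : P} (h : NFun f p) (hq : q ≤ p) : NFun f q :=
  ⟨fun z r hr => h.sub z r (hr.trans hq), fun n => (h.tot n).mono hq,
    fun n m m' r hr => h.fn n m m' r (hr.trans hq)⟩

theorem At.congr {f g : Nam P} {n m : ℕ} (h : feq f g p) (hf : At f n m p) : At g n m p :=
  fmem_congr_right h hf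

theorem At.congr' {f g : Nam P} {n m : ℕ} {q : P} (h : feq f g p) (hq : q ≤ p)
    (hf : At g n m q) : At f n m q :=
  fmem_congr_right (feq_symm (feq_mono hq h)) hf

theorem At.mono {f : Nam P} {n m : ℕ} {q : P} (hf : At f n m p) (hq : q ≤ p) : At f n m q :=
  fmem_mono hq hf

theorem NFun.congr {f g : Nam P} (h : feq f g p) (hf : NFun f p) : NFun g p := by
  refine ⟨fun z q hq hz => ?_, fun n q hq => ?_, fun n m m' q hq h1 h2 => ?_⟩
  · exact hf.sub z q hq (fmem_congr_right (feq_symm (feq_mono hq h)) hz)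
  · obtain ⟨r, hr, m, hm⟩ := hf.tot n q hq
    exact ⟨r, hr, m, At.congr (feq_mono (hr.trans hq) h) hm⟩
  · exact hf.fn n m m' q hq (At.congr' h hq h1) (At.congr' h hq h2)

/-- functions with the same values are equal -/
theorem NFun.ext {f g : Nam P} (hf : NFun f p) (hg : NFun g p)
    (h : ∀ n m m', ∀ q ≤ p, At f n m q → At g n m' q → m = m') : feq f g p := by
  refine feq_of_fmem fun z q hq => ⟨fun hz => fmem_reg fun r hr => ?_,
    fun hz => fmem_reg fun r hr => ?_⟩
  · obtain ⟨s, hs, n, m, hnm⟩ := hf.sub z q hq hz r hr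
    obtain ⟨t, ht, m', hm'⟩ := hg.tot n s ((hs.trans hr).trans hq)
    have h1 : At f n m t := fmem_mono ht (fmem_congr_left hnm (fmem_mono (hs.trans hr) hz))
    have h2 := h n m m' t (((ht.trans hs).trans hr).trans hq) h1 hm'
    subst h2
    exact ⟨t, ht.trans hs, fmem_congr_left (feq_symm (feq_mono ht hnm)) hm'⟩
  · obtain ⟨s, hs, n, m, hnm⟩ := hg.sub z q hq hz r hr
    obtain ⟨t, ht, m', hm'⟩ := hf.tot n s ((hs.trans hr).trans hq)
    have h1 : At g n m t := fmem_mono ht (fmem_congr_left hnm (fmem_mono (hs.trans hr) hz))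
    have h2 := h n m' m t (((ht.trans hs).trans hr).trans hq) hm' h1
    subst h2
    exact ⟨t, ht.trans hs, fmem_congr_left (feq_symm (feq_mono ht hnm)) hm'⟩

/-- the value of a function at a name of a number -/
theorem NFun.at_of_mem {f a b : Nam P} (hf : NFun f p) (h : fmem (opair a b) f p) :
    DB (fun r => ∃ n m, feq a (Nam.fin n) r ∧ feq b (Nam.fin m) r ∧ At f n m r) p := by
  intro q hq
  obtain ⟨r, hr, n, m, hnm⟩ := hf.sub _ p le_rfl h q hq
  obtain ⟨h1, h2⟩ := opair_inj hnm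
  exact ⟨r, hr, n, m, h1, h2, fmem_congr_left hnm (fmem_mono (hr.trans hq) h)⟩

theorem fmem_fin_imp {z : Nam P} {n : ℕ} (h : fmem z (Nam.fin n) p) :
    ∃ q ≤ p, ∃ i < n, feq z (Nam.fin i) q := by
  induction n generalizing p with
  | zero => exact absurd h (not_fmem_empty z p)
  | succ n ih =>
    obtain ⟨q, hq, h1 | h1⟩ := fmem_succ.1 h p le_rfl
    · obtain ⟨r, hr, i, hi, h2⟩ := ih h1
      exact ⟨r, hr.trans hq, i, by omega, h2⟩
    · exact ⟨q, hq, n, by omega, h1⟩

theorem lt_of_fin_mem {k n : ℕ} (h : fmem (Nam.fin k) (Nam.fin n) p) : k < n := by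
  obtain ⟨q, hq, i, hi, h1⟩ := fmem_fin_imp h
  rw [fin_inj h1]
  exact hi

theorem forces_fFun_omega {f x y : ℕ} (hx : v x = Nam.omega) (hy : v y = Nam.omega) :
    (fFun f x y).Forces v p ↔ NFun (v f) p := by
  rw [forces_fFun, hx, hy]
  constructor
  · rintro ⟨h1, h2, h3⟩
    have hsub : ∀ z, ∀ q ≤ p, fmem z (v f) q →
        DB (fun r => ∃ n m, feq z (opair (Nam.fin n) (Nam.fin m)) r) q := by
      intro z q hq hz q' hq'
      obtain ⟨r, hr, a, h4⟩ := h1 z q hq hz q' hq'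
      obtain ⟨s, hs, b, ha, hb, h5⟩ := h4 r le_rfl
      obtain ⟨t, ht, n, hn⟩ := fmem_omega.1 ha s le_rfl
      obtain ⟨u, hu, m, hm⟩ := fmem_omega.1 (fmem_mono ht hb) t le_rfl
      exact ⟨u, ((hu.trans ht).trans hs).trans hr, n, m,
        feq_trans (feq_mono (hu.trans ht) h5) (feq_opair (feq_mono hu hn) hm)⟩
    refine ⟨hsub, ?_, ?_⟩
    · intro n q hq
      obtain ⟨r, hr, b, hb⟩ := h2 (Nam.fin n) p le_rfl (fmem_omega_fin n p) q hq
      obtain ⟨s, hs, n', m', h4⟩ := hsub _ r (hr.trans hq) hb r le_rfl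
      exact ⟨s, hs.trans hr, m', fmem_congr_left (feq_opair (feq_refl _ _) (opair_inj h4).2)
        (fmem_mono hs hb)⟩
    · intro n m m' q hq h4 h5
      exact fin_inj (h3 _ _ _ q hq h4 q le_rfl h5)
  · intro hN
    refine ⟨?_, ?_, ?_⟩
    · intro z q hq hz q' hq'
      obtain ⟨r, hr, n, m, h4⟩ := hN.sub z q hq hz q' hq'
      exact ⟨r, hr, Nam.fin n, fun s hs => ⟨s, le_rfl, Nam.fin m, fmem_omega_fin n s,
        fmem_omega_fin m s, feq_mono hs h4⟩⟩
    · intro a q hq ha q' hq'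
      obtain ⟨r, hr, n, hn⟩ := fmem_omega.1 ha q' hq'
      obtain ⟨s, hs, m, hm⟩ := hN.tot n r ((hr.trans hq').trans hq)
      exact ⟨s, hs.trans hr, Nam.fin m, fmem_congr_left (feq_opair (feq_symm (feq_mono hs hn))
        (feq_refl _ _)) hm⟩
    · intro a b b' q hq h r hr h'
      refine feq_reg fun s hs => ?_
      obtain ⟨t, ht, n, m, h1, h2, h3⟩ :=
        (hN.mono hq).at_of_mem h s (hs.trans hr)
      obtain ⟨u, hu, n', m', h1', h2', h3'⟩ :=
        (hN.mono (hr.trans hq)).at_of_mem h' t (ht.trans hs)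
      have e1 : n = n' := fin_inj (feq_trans (feq_symm (feq_mono hu h1)) h1')
      subst e1
      have e2 : m = m' := hN.fn n m m' u ((((hu.trans ht).trans hs).trans hr).trans hq)
        (h3.mono hu) h3'
      subst e2
      exact ⟨u, hu.trans ht, feq_trans (feq_mono hu h2) (feq_symm h2')⟩

open Classical in
/-- the name of the set of all pairs `(n, m)` with `R n m` -/
noncomputable def chk (R : ℕ → ℕ → Prop) : Nam P :=
  ⟨{x : ℕ × ℕ // R x.1 x.2}, fun _ => ⊤, fun x => opair (Nam.fin x.1.1) (Nam.fin x.1.2)⟩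

theorem fmem_chk {R : ℕ → ℕ → Prop} {n m : ℕ} :
    fmem (opair (Nam.fin n) (Nam.fin m)) (chk R) p ↔ R n m := by
  constructor
  · intro h
    obtain ⟨r, hr, ⟨⟨a, b⟩, hj⟩, -, h1⟩ := h p le_rfl
    obtain ⟨h2, h3⟩ := opair_inj h1
    rw [fin_inj h2, fin_inj h3]
    exact hj
  · intro h q hq
    exact ⟨q, le_rfl, ⟨(n, m), h⟩, trivial, feq_refl _ _⟩

/-- `p` forces that `x` is a branch -/
structure NBr (d : ℕ → ℕ → Prop) (x : Nam P) (p : P) : Prop where
  fn : NFun x p
  br : ∀ n a b, ∀ q ≤ p, At x n a q → At x (n + 1) b q → d a b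

theorem forces_fBr_omega {d : ℕ → ℕ → Prop} {w d' x : ℕ} (hw : v w = Nam.omega)
    (hd : v d' = chk d) : (fBr w d' x).Forces v p ↔ NBr d (v x) p := by
  unfold fBr
  simp only [SetFormula.Forces, forces_imp, forces_fHas, forces_fSucc, push_succ', push_zero',
    forces_fFun_omega hw hw]
  rw [hw, hd]
  constructor
  · rintro ⟨h1, h2⟩
    refine ⟨h1, fun n a b q hq ha hb => ?_⟩
    exact fmem_chk.1 (h2 (Nam.fin n) (Nam.fin (n + 1)) (Nam.fin a) (Nam.fin b) q hq
      (fmem_omega_fin n q) q le_rfl (feq_refl _ _) q le_rfl ha q le_rfl hb)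
  · rintro ⟨h1, h2⟩
    refine ⟨h1, fun n m a b q hq hn r hr hm s hs ha t ht hb => fmem_reg fun u hu => ?_⟩
    have htp : t ≤ p := ((ht.trans hs).trans hr).trans hq
    obtain ⟨u1, hu1, n0, a0, h3, h4, h5⟩ :=
      (h1.mono htp).at_of_mem (fmem_mono ht ha) u hu
    obtain ⟨u2, hu2, m0, b0, h6, h7, h8⟩ :=
      (h1.mono htp).at_of_mem hb u1 (hu1.trans hu)
    have hm' : feq m (Nam.succ n) u2 :=
      feq_mono ((((hu2.trans hu1).trans hu).trans ht).trans hs) hm
    have h9 : feq m (Nam.fin (n0 + 1)) u2 :=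
      feq_trans hm' (feq_succ (feq_mono hu2 h3))
    have e1 : m0 = n0 + 1 := fin_inj (feq_trans (feq_symm h6) h9)
    subst e1
    have h10 : d a0 b0 := h2 n0 a0 b0 u2 (((hu2.trans hu1).trans hu).trans htp)
      (h5.mono hu2) h8
    exact ⟨u2, hu2.trans hu1, fmem_congr_left
      (feq_opair (feq_symm (feq_mono hu2 h4)) (feq_symm h7)) (fmem_chk.2 h10)⟩

theorem NBr.mono {d : ℕ → ℕ → Prop} {x : Nam P} {q : P} (h : NBr d x p) (hq : q ≤ p) :
    NBr d x q :=
  ⟨h.fn.mono hq, fun n a b r hr => h.br n a b r (hr.trans hq)⟩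

theorem NBr.congr {d : ℕ → ℕ → Prop} {x y : Nam P} (h : feq x y p) (hx : NBr d x p) :
    NBr d y p :=
  ⟨hx.fn.congr h, fun n a b q hq h1 h2 =>
    hx.br n a b q hq (At.congr' h hq h1) (At.congr' h hq h2)⟩

/-- `p` forces `R(x, y)` -/
structure NRel (d e : ℕ → ℕ → Prop) (x y : Nam P) (p : P) : Prop where
  left : NBr d x p
  right : NBr d y p
  rel : DB (fun r => ∃ k, ∀ n a b, k ≤ n → ∀ q ≤ r, At x n a q → At y n b q → e a b) p

theorem forces_fRel_omega {d e : ℕ → ℕ → Prop} {w d' e' x y : ℕ} (hw : v w = Nam.omega)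
    (hd : v d' = chk d) (he : v e' = chk e) :
    (fRel w d' e' x y).Forces v p ↔ NRel d e (v x) (v y) p := by
  unfold fRel
  simp only [SetFormula.Forces, forces_imp, forces_fHas, forces_ex', forces_or, push_succ',
    push_zero', forces_fBr_omega hw hd]
  rw [hw, he]
  constructor
  · rintro ⟨h1, h2, h3⟩
    refine ⟨h1, h2, fun q hq => ?_⟩
    obtain ⟨r, hr, k, hk, h4⟩ := h3 q hq
    obtain ⟨s, hs, k0, h5⟩ := fmem_omega.1 hk r le_rfl
    refine ⟨s, hs.trans hr, k0, fun n a b hkn t ht ha hb => ?_⟩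
    refine fmem_chk.1 (h4 (Nam.fin n) t (ht.trans hs) (fmem_omega_fin n t) t le_rfl ?_
      (Nam.fin a) (Nam.fin b) t le_rfl ha t le_rfl hb)
    intro u hu
    have h6 : feq k (Nam.fin k0) u := feq_mono (hu.trans ht) h5
    rcases Nat.lt_or_eq_of_le hkn with h7 | h7
    · exact ⟨u, le_rfl, Or.inr (fmem_congr_left (feq_symm h6) (fin_mem_fin h7 u))⟩
    · subst h7
      exact ⟨u, le_rfl, Or.inl (feq_symm h6)⟩
  · rintro ⟨h1, h2, h3⟩
    refine ⟨h1, h2, fun q hq => ?_⟩
    obtain ⟨r, hr, k0, h4⟩ := h3 q hq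
    refine ⟨r, hr, Nam.fin k0, fmem_omega_fin k0 r, ?_⟩
    intro n q1 hq1 hn q2 hq2 hnk a b s hs ha t ht hb
    refine fmem_reg fun u hu => ?_
    have ht2 : t ≤ q2 := ht.trans hs
    have htr : t ≤ r := (ht2.trans hq2).trans hq1
    have htp : t ≤ p := (htr.trans hr).trans hq
    obtain ⟨u1, hu1, n0, a0, h5, h6, h7⟩ :=
      (h1.fn.mono htp).at_of_mem (fmem_mono ht ha) u hu
    obtain ⟨u2, hu2, m0, b0, h8, h9, h10⟩ :=
      (h2.fn.mono htp).at_of_mem hb u1 (hu1.trans hu)
    have e1 : n0 = m0 := fin_inj (feq_trans (feq_symm (feq_mono hu2 h5)) h8)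
    subst e1
    obtain ⟨u3, hu3, h11⟩ := hnk u2 ((((hu2.trans hu1).trans hu).trans ht2))
    have hle : k0 ≤ n0 := by
      rcases h11 with h11 | h11
      · exact (fin_inj (feq_trans (feq_symm h11) (feq_mono hu3 h8))).le
      · exact (lt_of_fin_mem (fmem_congr_right (feq_mono hu3 h8) h11)).le
    have h12 : e a0 b0 := h4 n0 a0 b0 hle u2 (((hu2.trans hu1).trans hu).trans htr)
      (h7.mono hu2) h10
    exact ⟨u2, hu2.trans hu1, fmem_congr_left
      (feq_opair (feq_symm (feq_mono hu2 h6)) (feq_symm h9)) (fmem_chk.2 h12)⟩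

theorem NRel.mono {d e : ℕ → ℕ → Prop} {x y : Nam P} {q : P} (h : NRel d e x y p)
    (hq : q ≤ p) : NRel d e x y q :=
  ⟨h.left.mono hq, h.right.mono hq, h.rel.mono hq⟩

theorem NRel.congr {d e : ℕ → ℕ → Prop} {x y x' y' : Nam P} (h1 : feq x x' p)
    (h2 : feq y y' p) (h : NRel d e x y p) : NRel d e x' y' p := by
  refine ⟨h.left.congr h1, h.right.congr h2, fun q hq => ?_⟩
  obtain ⟨r, hr, k, hk⟩ := h.rel q hq
  refine ⟨r, hr, k, fun n a b hkn s hs ha hb => ?_⟩
  exact hk n a b hkn s hs (At.congr' h1 ((hs.trans hr).trans hq) ha)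
    (At.congr' h2 ((hs.trans hr).trans hq) hb)

/-- `p` forces that `F` is single valued (functions of one variable) -/
def SV1 (F : Nam P) (p : P) : Prop :=
  ∀ a b b', ∀ q ≤ p, fmem (opair a b) F q → ∀ r ≤ q, fmem (opair a b') F r → feq b b' r

/-- `p` forces that `F` is single valued (functions of two variables) -/
def SV2 (F : Nam P) (p : P) : Prop :=
  ∀ a k b b', ∀ q ≤ p, fmem (opair (opair a k) b) F q → ∀ r ≤ q,
    fmem (opair (opair a k) b') F r → feq b b' r

/-- `p` forces that `F` is single valued (functions of three variables) -/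
def SV3 (F : Nam P) (p : P) : Prop :=
  ∀ a a' k b b', ∀ q ≤ p, fmem (opair (opair (opair a a') k) b) F q → ∀ r ≤ q,
    fmem (opair (opair (opair a a') k) b') F r → feq b b' r

/-- a sufficient condition for `|Z| ≥ ℵ_ω` to be forced -/
theorem forces_fLarge_intro {w Z : ℕ} (hw : v w = Nam.omega) (q : Nam P)
    (h1 : ∀ n z, ∀ r ≤ p, fmem (opair n z) q r → fmem z (v Z) r)
    (h2 : ∀ n : ℕ, ∀ F, ∀ r ≤ p, SV2 F r →
      ¬ ∀ b, ∀ s ≤ r, fmem (opair (Nam.fin (n + 1)) b) q s →
        DB (fun t => ∃ a, ∃ k : ℕ, fmem (opair (Nam.fin n) a) q t ∧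
          fmem (opair (opair a (Nam.fin k)) b) F t) s) :
    (fLarge w Z).Forces v p := by
  unfold fLarge
  simp only [SetFormula.Forces, forces_imp, forces_fHas, forces_ex', forces_fSucc, forces_fTrip,
    push_succ', push_zero']
  rw [hw]
  intro p' hp'
  refine ⟨p', le_rfl, q, fun n z r hr => h1 n z r (hr.trans hp'), ?_⟩
  intro n m r hr hn s hs hm t ht hcon
  obtain ⟨t', ht', F, hSV, hcov⟩ := hcon t le_rfl
  have ht's : t' ≤ s := ht'.trans ht
  have ht'p : t' ≤ p := ((ht's.trans hs).trans hr).trans hp'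
  obtain ⟨u, hu, n0, hn0⟩ := fmem_omega.1 hn t' (ht's.trans hs)
  refine h2 n0 F u (hu.trans ht'p) ?_ ?_
  · intro a k b b' q1 hq1 h3 q2 hq2 h4
    exact hSV a k b b' q1 (hq1.trans hu) h3 q2 hq2 h4
  · intro b s1 hs1 hb
    have hm1 : feq m (Nam.fin (n0 + 1)) s1 :=
      feq_trans (feq_mono ((hs1.trans hu).trans ht's) hm) (feq_succ (feq_mono hs1 hn0))
    have hb' : fmem (opair m b) q s1 :=
      fmem_congr_left (feq_opair (feq_symm hm1) (feq_refl _ _)) hb
    intro s2 hs2
    obtain ⟨s3, hs3, a, h5⟩ := hcov b s1 (hs1.trans hu) hb' s2 hs2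
    obtain ⟨s4, hs4, k, hk, ha, hF⟩ := h5 s3 le_rfl
    obtain ⟨s5, hs5, k0, hk0⟩ := fmem_omega.1 hk s4 le_rfl
    have h51 : s5 ≤ s1 := ((hs5.trans hs4).trans hs3).trans hs2
    refine ⟨s5, (hs5.trans hs4).trans hs3, a, k0, ?_, ?_⟩
    · exact fmem_congr_left (feq_opair (feq_mono (h51.trans hs1) hn0) (feq_refl _ _))
        (fmem_mono hs5 ha)
    · exact fmem_congr_left (feq_opair (feq_opair (feq_refl _ _) hk0) (feq_refl _ _))
        (fmem_mono hs5 hF)

end MP186633L

/-!
# MP_186633_lc: sufficient conditions for (F1) and (F2) to be forced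
-/

namespace MP186633L

open MP9708F

section Vert

variable {P K : Type} [Preorder P] [LinearOrder K] [WellFoundedLT K]

/-- Names for the elements of a well-order. -/
noncomputable def vert : K → Nam P :=
  (wellFounded_lt (α := K)).fix fun α rec => ⟨{β : K // β < α}, fun _ => ⊤, fun β => rec β.1 β.2⟩

theorem vert_eq (α : K) :
    (vert α : Nam P) = ⟨{β : K // β < α}, fun _ => ⊤, fun β => vert β.1⟩ := by
  unfold vert
  rw [WellFounded.fix_eq]

theorem vert_mem {α β : K} (h : β < α) (p : P) : fmem (vert β : Nam P) (vert α) p := by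
  rw [vert_eq α]
  exact fmem_of_wt (y := (⟨{β : K // β < α}, fun _ => ⊤, fun β => vert β.1⟩ : Nam P))
    (j := (⟨β, h⟩ : {β : K // β < α})) trivial

theorem vert_inj {α β : K} {p : P} (h : feq (vert α : Nam P) (vert β) p) : α = β := by
  rcases lt_trichotomy α β with h' | h' | h'
  · exact absurd (fmem_congr_right (feq_symm h) (vert_mem h' p)) (not_fmem_self _ _)
  · exact h'
  · exact absurd (fmem_congr_right h (vert_mem h' p)) (not_fmem_self _ _)

theorem fmem_vert {x : Nam P} {α : K} {p : P} :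
    fmem x (vert α) p ↔ DB (fun q => ∃ β < α, feq x (vert β) q) p := by
  constructor
  · intro h q hq
    rw [vert_eq α] at h
    obtain ⟨r, hr, ⟨β, hβ⟩, -, h2⟩ := h q hq
    exact ⟨r, hr, β, hβ, h2⟩
  · intro h
    refine fmem_reg fun q hq => ?_
    obtain ⟨r, hr, β, hβ, h2⟩ := h q hq
    exact ⟨r, hr, fmem_congr_left (feq_symm h2) (vert_mem hβ r)⟩

theorem vert_mem_iff {α β : K} {p : P} : fmem (vert β : Nam P) (vert α) p ↔ β < α := by
  constructor
  · intro h
    obtain ⟨r, hr, γ, hγ, h2⟩ := fmem_vert.1 h p le_rfl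
    rw [vert_inj h2]
    exact hγ
  · intro h
    exact vert_mem h p

/-- The name of the set of all `vert α`. -/
noncomputable def hN (P K : Type) [Preorder P] [LinearOrder K] [WellFoundedLT K] : Nam P :=
  ⟨K, fun _ => ⊤, vert⟩

theorem fmem_hN_vert (β : K) (p : P) : fmem (vert β) (hN P K) p :=
  fmem_of_wt (y := hN P K) (j := (β : K)) trivial

theorem fmem_hN {x : Nam P} {p : P} :
    fmem x (hN P K) p ↔ DB (fun q => ∃ β : K, feq x (vert β) q) p := by
  constructor
  · intro h q hq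
    obtain ⟨r, hr, β, -, h2⟩ := h q hq
    exact ⟨r, hr, β, h2⟩
  · intro h
    refine fmem_reg fun q hq => ?_
    obtain ⟨r, hr, β, h2⟩ := h q hq
    exact ⟨r, hr, fmem_congr_left (feq_symm h2) (fmem_hN_vert β r)⟩

theorem forces_ord_hN {v : ℕ → Nam P} {n : ℕ} (h : v n = hN P K) (p : P) :
    (fOrd n).Forces v p := by
  unfold fOrd
  simp only [SetFormula.Forces, forces_imp, push_succ', push_zero', h]
  constructor
  · intro x q hq hx y r hr hy
    refine fmem_reg fun s hs => ?_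
    obtain ⟨t, ht, β, h1⟩ := fmem_hN.1 hx s (hs.trans hr)
    obtain ⟨u, hu, γ, hγ, h2⟩ := fmem_vert.1
      (fmem_congr_right h1 (fmem_mono (ht.trans hs) hy)) t le_rfl
    exact ⟨u, hu.trans ht, fmem_congr_left (feq_symm h2) (fmem_hN_vert γ u)⟩
  · intro x q hq hx y r hr hy z r' hr' hz
    refine fmem_reg fun s hs => ?_
    obtain ⟨t, ht, β, h1⟩ := fmem_hN.1 hx s ((hs.trans hr').trans hr)
    obtain ⟨u, hu, γ, hγ, h2⟩ := fmem_vert.1
      (fmem_congr_right h1 (fmem_mono ((ht.trans hs).trans hr') hy)) t le_rfl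
    obtain ⟨w, hw, δ, hδ, h3⟩ := fmem_vert.1
      (fmem_congr_right h2 (fmem_mono ((hu.trans ht).trans hs) hz)) u le_rfl
    refine ⟨w, (hw.trans hu).trans ht, ?_⟩
    exact fmem_congr (feq_symm h3) (feq_symm (feq_mono (hw.trans hu) h1))
      (vert_mem (hδ.trans hγ) w)

end Vert

variable {P : Type} [Preorder P] {p : P} {v : ℕ → Nam P}

theorem FormC_SV1_mono {F : Nam P} {q : P} (h : SV1 F p) (hq : q ≤ p) : SV1 F q :=
  fun a b b' r hr h1 s hs h2 => h a b b' r (hr.trans hq) h1 s hs h2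

theorem FormC_DB_DB {S : P → Prop} {p : P} (h : DB (fun r => DB S r) p) : DB S p := by
  intro q hq
  obtain ⟨r, hr, h1⟩ := h q hq
  obtain ⟨s, hs, h2⟩ := h1 r le_rfl
  exact ⟨s, hs.trans hr, h2⟩

theorem forces_fF1_intro {d e : ℕ → ℕ → Prop} {w d' e' : ℕ} (hw : v w = Nam.omega)
    (hd : v d' = chk d) (he : v e' = chk e)
    (H : ∀ Z : Nam P, ∀ q ≤ p, (∀ z, ∀ r ≤ q, fmem z Z r → NFun z r) →
      (∀ r ≤ q, ¬ (fLarge (w + 1) 0).Forces (push Z v) r) →
      DB (fun r => ∃ (K : Type) (_ : LinearOrder K) (_ : WellFoundedLT K) (κ : Nam P),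
        SV1 κ r ∧
        (∀ z, ∀ s ≤ r, fmem z Z s → DB (fun t => ∃ k : K, fmem (opair z (vert k)) κ t) s) ∧
        (∀ z z' α, ∀ s ≤ r, fmem z Z s → fmem z' Z s → fmem (opair z α) κ s →
          fmem (opair z' α) κ s → feq z z' s) ∧
        ∀ z, ∀ s ≤ r, fmem z Z s → DB (fun t => ∃ u, SV1 u t ∧ ∀ z' α α', ∀ t' ≤ t,
          fmem z' Z t' → fmem (opair z α) κ t' → fmem (opair z' α') κ t' → fmem α' α t' →
          (NRel d e z' z t' ∨ NRel d e z z' t') →
          DB (fun t'' => ∃ n : ℕ, fmem (opair (Nam.fin n) z') u t'') t') s) q) :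
    (fF1 w d' e').Forces v p := by
  unfold fF1
  simp only [SetFormula.Forces, forces_imp, forces_ex', forces_fHas, forces_or, forces_fSV,
    push_succ', push_zero']
  intro Z q hq hZ r hr hL
  have hZ' : ∀ z, ∀ s ≤ r, fmem z Z s → NFun z s := by
    intro z s hs hz
    exact (forces_fFun_omega (v := push z (push Z v)) (f := 0) (x := w + 2) (y := w + 2)
      hw hw).1 (hZ z s (hs.trans hr) hz)
  refine DB.imp (fun s hs hh => ?_) (H Z r (hr.trans hq) hZ' hL)
  obtain ⟨K, _, _, κ, h1, h2, h3, h4⟩ := hh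
  refine ⟨hN P K, fun t ht => ⟨t, le_rfl, κ, ?_, ?_, ?_, ?_, ?_⟩⟩
  · exact forces_ord_hN (v := push κ (push (hN P K) (push Z v))) (n := 1) rfl t
  · exact FormC_SV1_mono h1 ht
  · intro z q1 hq1 hz
    refine DB.imp (fun q2 hq2 hk => ?_) (h2 z q1 (hq1.trans ht) hz)
    obtain ⟨k, hk⟩ := hk
    exact ⟨vert k, fmem_hN_vert k q2, hk⟩
  · intro z z' α q1 hq1 hz q2 hq2 hz' q3 hq3 hκ q4 hq4 hκ'
    exact h3 z z' α q4 ((((hq4.trans hq3).trans hq2).trans hq1).trans ht)
      (fmem_mono ((hq4.trans hq3).trans hq2) hz) (fmem_mono (hq4.trans hq3) hz')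
      (fmem_mono hq4 hκ) hκ'
  · intro z q1 hq1 hz
    refine DB.imp (fun q2 hq2 hu => ?_) (h4 z q1 (hq1.trans ht) hz)
    obtain ⟨u, hu1, hu2⟩ := hu
    refine ⟨u, hu1, ?_⟩
    intro z' α α' q3 hq3 hz' q4 hq4 hκ q5 hq5 hκ' q6 hq6 hα q7 hq7 hrel
    have key : DB (fun t'' => ∃ n : ℕ, fmem (opair (Nam.fin n) z') u t'') q7 := by
      refine FormC_DB_DB (DB.imp (fun q8 hq8 ho => ?_) hrel)
      have hle : q8 ≤ q3 := hq8.trans (hq7.trans (hq6.trans (hq5.trans hq4)))
      refine hu2 z' α α' q8 (hle.trans hq3) (fmem_mono hle hz')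
        (fmem_mono (hq8.trans (hq7.trans (hq6.trans hq5))) hκ)
        (fmem_mono (hq8.trans (hq7.trans hq6)) hκ')
        (fmem_mono (hq8.trans hq7) hα) ?_
      rcases ho with ho | ho
      · exact Or.inl ((forces_fRel_omega
          (v := push α' (push α (push z' (push u (push z (push κ (push (hN P K)
            (push Z v)))))))) (w := w + 8) (d' := d' + 8) (e' := e' + 8) (x := 2) (y := 4)
            hw hd he).1 ho)
      · exact Or.inr ((forces_fRel_omega
          (v := push α' (push α (push z' (push u (push z (push κ (push (hN P K)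
            (push Z v)))))))) (w := w + 8) (d' := d' + 8) (e' := e' + 8) (x := 4) (y := 2)
            hw hd he).1 ho)
    refine DB.imp (fun q8 hq8 hn => ?_) key
    obtain ⟨n, hn⟩ := hn
    refine ⟨Nam.fin n, ?_, hn⟩
    rw [hw]
    exact fmem_omega_fin n q8

theorem forces_fF2_intro {d e : ℕ → ℕ → Prop} {w d' e' : ℕ} (hw : v w = Nam.omega)
    (hd : v d' = chk d) (he : v e' = chk e)
    (H : ∀ F : Nam P, ∀ q ≤ p, SV3 F q → DB (fun r => ∃ Z b : Nam P,
      (∀ z, ∀ s ≤ r, fmem z Z s → NFun z s) ∧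
      (∀ x y z, ∀ n : ℕ, ∀ s ≤ r, fmem x Z s → fmem y Z s →
        fmem (opair (opair (opair x y) (Nam.fin n)) z) F s → NFun z s → fmem z Z s) ∧
      NFun b r ∧ (∀ s ≤ r, ¬ fmem b Z s) ∧
      ∀ s ≤ r, ∀ u, SV1 u s → ¬ ∀ a, ∀ t ≤ s, fmem a Z t → NRel d e a b t →
        DB (fun t' => ∃ n : ℕ, fmem (opair (Nam.fin n) a) u t') t) q) :
    (fF2 w d' e').Forces v p := by
  unfold fF2
  simp only [SetFormula.Forces, forces_imp, forces_ex', push_succ', push_zero']
  intro F q hq hF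
  have hSV : SV3 F q := by
    unfold fF2a at hF
    simp only [SetFormula.Forces, forces_imp, forces_fQuad, push_succ', push_zero'] at hF
    intro a a' k b b' q1 hq1 h1 q2 hq2 h2
    exact hF a a' k b b' q1 hq1 h1 q2 hq2 h2
  refine DB.imp (fun s hs hh => ?_) (H F q hq hSV)
  obtain ⟨Z, b, h1, h2, h3, h4, h5⟩ := hh
  refine ⟨Z, fun t ht => ⟨t, le_rfl, b, ?_, ?_, ?_, ?_, ?_⟩⟩
  · unfold fF2b
    simp only [SetFormula.Forces, forces_imp, push_succ', push_zero']
    intro z q1 hq1 hz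
    exact (forces_fFun_omega (v := push z (push b (push Z (push F v)))) (f := 0) (x := w + 4)
      (y := w + 4) hw hw).2 (h1 z q1 (hq1.trans ht) hz)
  · unfold fF2c
    simp only [SetFormula.Forces, forces_imp, forces_fQuad, push_succ', push_zero']
    intro x y n z q1 hq1 hx q2 hq2 hy q3 hq3 hn q4 hq4 hF4 q5 hq5 hz
    have hzN : NFun z q5 := (forces_fFun_omega
      (v := push z (push n (push y (push x (push b (push Z (push F v))))))) (f := 0)
      (x := w + 7) (y := w + 7) hw hw).1 hz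
    refine fmem_reg fun q6 hq6 => ?_
    rw [hw] at hn
    obtain ⟨q7, hq7, m, hm⟩ := fmem_omega.1 hn q6 (hq6.trans (hq5.trans hq4))
    refine ⟨q7, hq7, ?_⟩
    have h75 : q7 ≤ q5 := hq7.trans hq6
    have h74 : q7 ≤ q4 := h75.trans hq5
    have h73 : q7 ≤ q3 := h74.trans hq4
    have h72 : q7 ≤ q2 := h73.trans hq3
    have h71 : q7 ≤ q1 := h72.trans hq2
    refine h2 x y z m q7 ((h71.trans hq1).trans ht) (fmem_mono h71 hx) (fmem_mono h72 hy)
      (fmem_congr_left ?_ (fmem_mono h74 hF4)) (hzN.mono h75)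
    exact feq_opair (feq_opair (feq_refl _ _) hm) (feq_refl _ _)
  · exact (forces_fFun_omega (v := push b (push Z (push F v))) (f := 0) (x := w + 3)
      (y := w + 3) hw hw).2 (h3.mono ht)
  · intro q1 hq1
    exact h4 q1 (hq1.trans ht)
  · intro q1 hq1 hcon
    unfold fF2d at hcon
    simp only [SetFormula.Forces, forces_imp, forces_ex', forces_fHas, forces_fSV, push_succ',
      push_zero'] at hcon
    obtain ⟨q2, hq2, u, hu1, hu2⟩ := hcon q1 le_rfl
    refine h5 q2 ((hq2.trans hq1).trans ht) u hu1 ?_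
    intro a q3 hq3 ha hr
    have hr' := (forces_fRel_omega (v := push a (push u (push b (push Z (push F v)))))
      (w := w + 5) (d' := d' + 5) (e' := e' + 5) (x := 0) (y := 2) hw hd he).2 hr
    refine FormC_DB_DB (DB.imp (fun q4 hq4 hn => ?_) (hu2 a q3 hq3 ha q3 le_rfl hr'))
    obtain ⟨n, hn1, hn2⟩ := hn
    rw [hw] at hn1
    refine DB.imp (fun q5 hq5 hm => ?_) (fmem_omega.1 hn1)
    obtain ⟨m, hm⟩ := hm
    exact ⟨m, fmem_congr_left (feq_opair hm (feq_refl _ _)) (fmem_mono hq5 hn2)⟩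

end MP186633L
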