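import Pool.Agent.Lib.MP_186633_lc.QB
import Pool.Agent.Lib.MP_186633_lc.QC
import Pool.Agent.Lib.MP_186633_lc.QD

/-!
# MP_186633_lc: the names `toN D` of the reals `D`
-/

namespace MP186633L

open MP9708F Cardinal

/-- `D` is a name for a real over the large condition of `s` -/
def Val (D : Nm Lam Lam) (s : SS) : Prop := RN s.q.g s.q.g.dom D

theorem Val.mono {D : Nm Lam Lam} {s s' : SS} (h : Val D s) (hs : s' ≤ s) : Val D s' :=
  ((Big.ext hs.1).rn h).dom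

/-- restriction of the finite part of a stronger condition -/
theorem SS.res_le {s s' : SS} (hs : s' ≤ s) : s'.p.res s.q.g.dom ≤ s.p :=
  MP186633L.res_le hs.2.2 s.ok.In_dom

theorem SS.ok_res {s s' : SS} (hs : s' ≤ s) : OK s.q.g (s'.p.res s.q.g.dom) :=
  (Big.ext hs.1).ok_res s'.ok

theorem Vl_mono' {D : Nm Lam Lam} {n m : ℕ} {s s' : SS} (hD : Val D s)
    (h : Vl s.q.g D n m s.p) (hs : s' ≤ s) : Vl s'.q.g D n m s'.p :=
  ((Big.ext hs.1).vl hD s'.ok).2 (h.mono (SS.res_le hs))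

theorem EqN_mono' {D D' : Nm Lam Lam} {s s' : SS} (hD : Val D s) (hD' : Val D' s)
    (h : EqN s.q.g D D' s.p) (hs : s' ≤ s) : EqN s'.q.g D D' s'.p :=
  ((Big.ext hs.1).eqN hD hD' s'.ok).2 (h.mono (SS.res_le hs))

theorem RelN_mono' {d e : ℕ → ℕ → Prop} {D D' : Nm Lam Lam} {s s' : SS} (hD : Val D s)
    (hD' : Val D' s) (h : RelN s.q.g d e D D' s.p) (hs : s' ≤ s) :
    RelN s'.q.g d e D D' s'.p :=
  ((Big.ext hs.1).relN hD hD' s'.ok).2 (h.mono (SS.res_le hs))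

/-- the value `D n = m` is forced -/
def sV (D : Nm Lam Lam) (n m : ℕ) (s : SS) : Prop := Val D s ∧ Vl s.q.g D n m s.p

theorem sV.mono {D : Nm Lam Lam} {n m : ℕ} {s s' : SS} (h : sV D n m s) (hs : s' ≤ s) :
    sV D n m s' :=
  ⟨h.1.mono hs, Vl_mono' h.1 h.2 hs⟩

theorem sV.func {D : Nm Lam Lam} {n m m' : ℕ} {s : SS} (h : sV D n m s) (h' : sV D n m' s) :
    m = m' :=
  Vl.func h.1 s.ok h.2 h'.2

theorem exists_sV {D : Nm Lam Lam} {s : SS} (h : Val D s) (n : ℕ) : ∃ s' ≤ s, ∃ m, sV D n m s' := by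
  obtain ⟨q, hq, hok, m, hm⟩ := exists_Vl h s.ok n
  exact ⟨⟨s.q, s.h, q, hok⟩, ⟨le_rfl, le_rfl, hq⟩, m, h, hm⟩

theorem sV.reg {D : Nm Lam Lam} {n m : ℕ} {s : SS} (hD : Val D s)
    (h : ∀ s' ≤ s, ∃ s'' ≤ s', sV D n m s'') : sV D n m s := by
  refine ⟨hD, Vl.reg fun q hq hok => ?_⟩
  obtain ⟨s'', hs'', -, hV⟩ := h ⟨s.q, s.h, q, hok⟩ ⟨le_rfl, le_rfl, hq⟩
  have hle : s'' ≤ (⟨s.q, s.h, q, hok⟩ : SS) := hs''
  refine ⟨s''.p.res s.q.g.dom, SS.res_le hle,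
    SS.ok_res (hle.trans ⟨le_rfl, le_rfl, hq⟩), ?_⟩
  exact ((Big.ext hle.1).vl hD s''.ok).1 hV

/-- the name of the real `D` -/
noncomputable def toN (D : Nm Lam Lam) : Nam SS :=
  ⟨ℕ × ℕ, fun x => ⟨{s | sV D x.1 x.2 s}, fun _ _ h h' => sV.mono h' h⟩,
    fun x => opair (Nam.fin x.1) (Nam.fin x.2)⟩

theorem at_toN {D : Nm Lam Lam} {n m : ℕ} {s : SS} (hD : Val D s) :
    At (toN D) n m s ↔ Vl s.q.g D n m s.p := by
  constructor
  · intro h
    refine (sV.reg hD fun q hq => ?_).2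
    obtain ⟨r, hr, j, h1, h2⟩ := h q hq
    obtain ⟨e1, e2⟩ := opair_inj h2
    have e3 := fin_inj e1
    have e4 := fin_inj e2
    refine ⟨r, hr, ?_⟩
    rw [e3, e4]
    exact h1
  · intro h
    exact fmem_of_wt (y := toN D) (j := ((n, m) : ℕ × ℕ)) (⟨hD, h⟩ : sV D n m s)

theorem NFun_toN {D : Nm Lam Lam} {s : SS} (hD : Val D s) : NFun (toN D) s := by
  refine ⟨?_, ?_, ?_⟩
  · intro z q _ hz q' hq'
    obtain ⟨r, hr, j, -, h2⟩ := hz q' hq'
    exact ⟨r, hr, j.1, j.2, h2⟩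
  · intro n q hq
    obtain ⟨s', hs', m, hm⟩ := exists_sV (hD.mono hq) n
    exact ⟨s', hs', m, (at_toN hm.1).2 hm.2⟩
  · intro n m m' q hq h h'
    have hq' := hD.mono hq
    exact Vl.func hq' q.ok ((at_toN hq').1 h) ((at_toN hq').1 h')

theorem feq_toN {D D' : Nm Lam Lam} {s : SS} (hD : Val D s) (hD' : Val D' s) :
    feq (toN D) (toN D') s ↔ EqN s.q.g D D' s.p := by
  constructor
  · intro h n m m' p' hp' hok h1 h2
    have hs' : (⟨s.q, s.h, p', hok⟩ : SS) ≤ s := ⟨le_rfl, le_rfl, hp'⟩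
    have a1 : At (toN D) n m (⟨s.q, s.h, p', hok⟩ : SS) := (at_toN (hD.mono hs')).2 h1
    have a2 : At (toN D') n m' (⟨s.q, s.h, p', hok⟩ : SS) := (at_toN (hD'.mono hs')).2 h2
    exact (NFun_toN hD').fn n m m' _ hs' (At.congr (feq_mono hs' h) a1) a2
  · intro h
    refine NFun.ext (NFun_toN hD) (NFun_toN hD') fun n m m' q hq a1 a2 => ?_
    exact EqN_mono' hD hD' h hq n m m' q.p le_rfl q.ok ((at_toN (hD.mono hq)).1 a1)
      ((at_toN (hD'.mono hq)).1 a2)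

theorem NRel_toN {D D' : Nm Lam Lam} {s : SS} (hD : Val D s) (hD' : Val D' s) :
    NRel dR eR (toN D) (toN D') s ↔ RelN s.q.g dR eR D D' s.p := by
  constructor
  · intro h p' hp' hok
    have hs' : (⟨s.q, s.h, p', hok⟩ : SS) ≤ s := ⟨le_rfl, le_rfl, hp'⟩
    obtain ⟨r, hr, k, hk⟩ := h.rel _ hs'
    have hrs : r ≤ s := hr.trans hs'
    have hle : r.p.res s.q.g.dom ≤ p' := SS.res_le hr
    refine ⟨r.p.res s.q.g.dom, hle, SS.ok_res hrs, k, ?_, ?_, ?_⟩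
    · intro n m m' p1 hp1 hok1 h1 h2
      have hs1 : (⟨s.q, s.h, p1, hok1⟩ : SS) ≤ s := ⟨le_rfl, le_rfl, hp1.trans (hle.trans hp')⟩
      exact h.left.br n m m' _ hs1 ((at_toN (hD.mono hs1)).2 h1) ((at_toN (hD.mono hs1)).2 h2)
    · intro n m m' p1 hp1 hok1 h1 h2
      have hs1 : (⟨s.q, s.h, p1, hok1⟩ : SS) ≤ s := ⟨le_rfl, le_rfl, hp1.trans (hle.trans hp')⟩
      exact h.right.br n m m' _ hs1 ((at_toN (hD'.mono hs1)).2 h1)
        ((at_toN (hD'.mono hs1)).2 h2)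
    · intro n m m' p1 hkn hp1 hok1 h1 h2
      have hE : Ext s.q.g r.q.g := Big.ext hrs.1
      obtain ⟨r', hr'ok, hr'1, hr'2⟩ := hE.lift r.ok hok1 hp1
      have hq1 : (⟨r.q, r.h, r', hr'ok⟩ : SS) ≤ r := ⟨le_rfl, le_rfl, hr'1⟩
      have hle1 : r'.res s.q.g.dom ≤ p1 := MP186633L.res_le hr'2 hok1.In_dom
      have b1 : Vl r.q.g D n m r' := (hE.vl hD hr'ok).2 (h1.mono hle1)
      have b2 : Vl r.q.g D' n m' r' := (hE.vl hD' hr'ok).2 (h2.mono hle1)
      exact hk n m m' hkn _ hq1 ((at_toN (hD.mono (hq1.trans hrs))).2 b1)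
        ((at_toN (hD'.mono (hq1.trans hrs))).2 b2)
  · intro h
    refine ⟨⟨NFun_toN hD, ?_⟩, ⟨NFun_toN hD', ?_⟩, ?_⟩
    · intro n a b q hq h1 h2
      obtain ⟨p'', hp'', hok, k, hK⟩ := RelN_mono' hD hD' h hq q.p le_rfl q.ok
      exact hK.brL le_rfl hok (((at_toN (hD.mono hq)).1 h1).mono hp'')
        (((at_toN (hD.mono hq)).1 h2).mono hp'')
    · intro n a b q hq h1 h2
      obtain ⟨p'', hp'', hok, k, hK⟩ := RelN_mono' hD hD' h hq q.p le_rfl q.ok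
      exact hK.brR le_rfl hok (((at_toN (hD'.mono hq)).1 h1).mono hp'')
        (((at_toN (hD'.mono hq)).1 h2).mono hp'')
    · intro q hq
      obtain ⟨p'', hp'', hok, k, hK⟩ := RelN_mono' hD hD' h hq q.p le_rfl q.ok
      have hr : (⟨q.q, q.h, p'', hok⟩ : SS) ≤ q := ⟨le_rfl, le_rfl, hp''⟩
      refine ⟨⟨q.q, q.h, p'', hok⟩, hr, k, fun n a b hkn q' hq' h1 h2 => ?_⟩
      have hDq : Val D (⟨q.q, q.h, p'', hok⟩ : SS) := hD.mono (hr.trans hq)
      have hDq' : Val D' (⟨q.q, q.h, p'', hok⟩ : SS) := hD'.mono (hr.trans hq)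
      have b1 := ((Big.ext hq'.1).vl hDq q'.ok).1 ((at_toN (hDq.mono hq')).1 h1)
      have b2 := ((Big.ext hq'.1).vl hDq' q'.ok).1 ((at_toN (hDq'.mono hq')).1 h2)
      exact hK.rel hkn (SS.res_le hq') (SS.ok_res (hq'.trans hr)) b1 b2

/-- every function of the extension has a name `toN D` -/
theorem exists_toN {f : Nam SS} {s : SS} (h : NFun f s) :
    ∃ s' ≤ s, ∃ D, Val D s' ∧ feq f (toN D) s' := by
  obtain ⟨s', hs', D, hD, hT⟩ := red (fun n m s => At f n m s)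
    (fun n m s s' h1 h2 => fmem_mono h2 h1) (fun n m s h1 => fmem_reg h1) s
    (fun n m m' q hq h1 h2 => h.fn n m m' q hq h1 h2) (fun n q hq => h.tot n q hq)
  have hV : Val D s' := hD
  refine ⟨s', hs', D, hV, ?_⟩
  refine NFun.ext (h.mono hs') (NFun_toN hV) fun n m m' q hq a1 a2 => ?_
  have a3 : At f n m' q := (hT n m' q hq).1 ((at_toN (hV.mono hq)).1 a2)
  exact h.fn n m m' q (hq.trans hs') a1 a3

end MP186633L

/-!
# MP_186633_lc: sets of reals which are not large are covered by few names, part A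
-/

namespace MP186633L

open MP9708F Cardinal

theorem notSmA_union {I X : Type} (g : I → Set X) (κ : Cardinal.{0}) (hκ0 : ℵ₀ ≤ κ)
    (hI : #I ≤ κ) (hg : ∀ i, #(g i) ≤ κ) : #(⋃ i, g i) ≤ κ := by
  calc #(⋃ i, g i) ≤ #I * ⨆ i, #(g i) := mk_iUnion_le g
    _ ≤ κ * κ := mul_le_mul' hI (ciSup_le' hg)
    _ = κ := mul_eq_self hκ0

/-- few names: if `s` forces that the names `x j` (`j : J`) cover the set `Z` of reals, then some
stronger condition forces that a family of at most `max #J 𝔠` names of reals covers `Z` -/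
theorem few_names {Z : Nam SS} {s : SS} (hZ : ∀ z, ∀ r ≤ s, fmem z Z r → NFun z r) {J : Type}
    (hJ : #J ≤ Θ) (x : J → Nam SS)
    (hx : ∀ z, ∀ r ≤ s, fmem z Z r → DB (fun t => ∃ j, feq z (x j) t) r) (κ : Cardinal.{0})
    (hκ : #J ≤ κ) (hκ' : 𝔠 ≤ κ) :
    ∃ s' ≤ s, ∃ F : Set (Nm Lam Lam), #F ≤ κ ∧ (∀ D ∈ F, Val D s') ∧
      ∀ z, ∀ r ≤ s', fmem z Z r → DB (fun t => ∃ D ∈ F, feq z (toN D) t) r := by
  obtain ⟨q, hq, g, hg1, hg2, hg3⟩ := values hJ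
    (fun (j : J) (D : Nm Lam Lam) (t : SS) => Val D t ∧ feq (x j) (toN D) t)
    (fun j D t t' h ht => ⟨h.1.mono ht, feq_mono ht h.2⟩) s.q
  have hκ0 : ℵ₀ ≤ κ := aleph0_le_continuum.trans hκ'
  refine ⟨⟨q, s.h, s.p, (Big.ext hq).ok s.ok⟩, ⟨hq, le_rfl, le_rfl⟩, ⋃ j, g j,
    notSmA_union g κ hκ0 hκ (fun j => (hg1 j).trans hκ'), ?_, ?_⟩
  · intro D hD
    obtain ⟨j, hj⟩ := Set.mem_iUnion.1 hD
    obtain ⟨s1, hs1, hV, -⟩ := hg2 j D hj
    unfold Val at hV ⊢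
    rw [hs1] at hV
    exact hV
  · intro z r hr hz r' hr'
    have hrs : r ≤ s := le_trans hr ⟨hq, le_rfl, le_rfl⟩
    obtain ⟨t1, ht1, j, hj⟩ := hx z r hrs hz r' hr'
    have hN : NFun z t1 := (hZ z r hrs hz).mono (ht1.trans hr')
    obtain ⟨t2, ht2, D, hV, hD⟩ := exists_toN hN
    have hqt : t2.q ≤ q := ((ht2.trans ht1).trans hr').1.trans hr.1
    obtain ⟨t3, ht3, D', hD', hT⟩ := hg3 j D t2 hqt
      ⟨hV, feq_trans (feq_symm (feq_mono ht2 hj)) hD⟩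
    refine ⟨t3, (ht3.trans ht2).trans ht1, D', Set.mem_iUnion.2 ⟨j, hD'⟩, ?_⟩
    exact feq_trans (feq_mono (ht3.trans ht2) hj) hT.2

/-- no surjection: `x i` (`i : I`) and `ω` do not cover pairwise different `y j` (`j : J`) by a
single valued function of two variables if `#I < #J` -/
theorem no_cover {I J : Type} (hI : #I ≤ Θ) (hIJ : max #I 𝔠 < #J) (x : I → Nam SS)
    (y : J → Nam SS) {s : SS} (hy : ∀ j j', j ≠ j' → ∀ r ≤ s, ¬ feq (y j) (y j') r)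
    {F : Nam SS} (hF : SV2 F s) :
    ¬ ∀ j, DB (fun t => ∃ i, ∃ k : ℕ, fmem (opair (opair (x i) (Nam.fin k)) (y j)) F t) s := by
  intro hcov
  have hIN : #(I × ℕ) ≤ Θ := by
    rw [mk_prod, lift_id, lift_id, mk_nat]
    calc #I * ℵ₀ ≤ Θ * Θ := mul_le_mul' hI aleph0_le_Θ
      _ = Θ := mul_eq_self aleph0_le_Θ
  obtain ⟨q, hq, g, hg1, -, hg3⟩ := values hIN
    (fun (i : I × ℕ) (j : J) (t : SS) =>
      fmem (opair (opair (x i.1) (Nam.fin i.2)) (y j)) F t)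
    (fun i j t t' h ht => fmem_mono ht h) s.q
  have hκ0 : ℵ₀ ≤ max #I 𝔠 := aleph0_le_continuum.trans (le_max_right _ _)
  have hIN' : #(I × ℕ) ≤ max #I 𝔠 := by
    rw [mk_prod, lift_id, lift_id, mk_nat]
    calc #I * ℵ₀ ≤ max #I 𝔠 * max #I 𝔠 := mul_le_mul' (le_max_left _ _) hκ0
      _ = max #I 𝔠 := mul_eq_self hκ0
  have hU : #(⋃ i, g i) ≤ max #I 𝔠 :=
    notSmA_union g _ hκ0 hIN' (fun i => (hg1 i).trans (le_max_right _ _))
  have hex : ∃ j, j ∉ ⋃ i, g i := by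
    by_contra hcon
    push Not at hcon
    have h1 : (⋃ i, g i) = Set.univ := Set.eq_univ_of_forall hcon
    rw [h1, mk_univ] at hU
    exact absurd hIJ (not_lt.2 hU)
  obtain ⟨j, hj⟩ := hex
  have hs' : (⟨q, s.h, s.p, (Big.ext hq).ok s.ok⟩ : SS) ≤ s := ⟨hq, le_rfl, le_rfl⟩
  obtain ⟨t, ht, i, k, hik⟩ := hcov j _ hs'
  obtain ⟨t', ht', j', hj', hT⟩ := hg3 (i, k) j t ht.1 hik
  have hts : t' ≤ s := (ht'.trans ht).trans hs'
  have hfeq : feq (y j) (y j') t' :=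
    hF (x i) (Nam.fin k) (y j) (y j') t' hts (fmem_mono ht' hik) t' le_rfl hT
  by_cases hjj : j = j'
  · subst hjj
    exact hj (Set.mem_iUnion.2 ⟨(i, k), hj'⟩)
  · exact hy j j' hjj t' hts hfeq

end MP186633L

/-!
# MP_186633_lc: sets of reals which are not large are covered by few names, part B
-/

namespace MP186633L

open MP9708F Cardinal

theorem choose_names {Z : Nam SS} {s : SS} (m : ℕ)
    (h : ∀ s' ≤ s, ∀ (J : Type) (x : J → Nam SS), #J ≤ ν m →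
      ¬ ∀ z, ∀ r ≤ s', fmem z Z r → DB (fun t => ∃ j, feq z (x j) t) r) :
    ∃ x : (ν m).ord.ToType → Nam SS, (∀ j, fmem (x j) Z s) ∧
      ∀ j j', j ≠ j' → ∀ r ≤ s, ¬ feq (x j) (x j') r := by
  classical
  have hfull : ∀ (j : (ν m).ord.ToType) (prev : ∀ i, i < j → Nam SS), ∃ x : Nam SS,
      ∀ p, (∀ q ≤ p, ∃ r ≤ q, ∃ y, fmem y Z r ∧ ∀ i, ∀ hi : i < j, ∀ t ≤ r,
        ¬ feq y (prev i hi) t) → fmem x Z p ∧ ∀ i, ∀ hi : i < j, ∀ t ≤ p,
        ¬ feq x (prev i hi) t := by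
    intro j prev
    refine fullness' (fun y p => fmem y Z p ∧ ∀ i, ∀ hi : i < j, ∀ t ≤ p,
        ¬ feq y (prev i hi) t) ?_ ?_
    · intro x
      refine (fmemReg _ _).and (Reg.all fun i => Reg.all fun hi => Reg.neg ?_)
      intro p q hq hf
      exact feq_mono hq hf
    · intro x y p hxy hx
      exact ⟨fmem_congr_left hxy hx.1, fun i hi t ht hcon =>
        hx.2 i hi t ht (feq_trans (feq_mono ht hxy) hcon)⟩
  choose G hG using hfull
  let x : (ν m).ord.ToType → Nam SS :=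
    (wellFounded_lt (α := (ν m).ord.ToType)).fix G
  have hx : ∀ j, x j = G j fun i _ => x i := fun j => WellFounded.fix_eq _ _ _
  have main : ∀ j, fmem (x j) Z s ∧ ∀ i, i < j → ∀ t ≤ s, ¬ feq (x j) (x i) t := by
    intro j
    have h1 := hG j (fun i _ => x i) s ?_
    · rw [hx j]
      exact h1
    · intro q hq
      have hJ : #{i // i < j} ≤ ν m := by
        refine (mk_subtype_le _).trans ?_
        rw [mk_toType, card_ord]
      have h2 := h q hq {i // i < j} (fun i => x i.1) hJ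
      push Not at h2
      obtain ⟨z, r, hr, hz, hnd⟩ := h2
      unfold DB at hnd
      push Not at hnd
      obtain ⟨r', hr', h3⟩ := hnd
      exact ⟨r', hr'.trans hr, z, fmem_mono hr' hz, fun i hi t ht => h3 t ht ⟨i, hi⟩⟩
  refine ⟨x, fun j => (main j).1, fun j j' hjj r hr hcon => ?_⟩
  rcases lt_or_gt_of_ne hjj with h1 | h1
  · exact (main j').2 j h1 r hr (feq_symm hcon)
  · exact (main j).2 j' h1 r hr hcon

theorem not_large {v : ℕ → Nam SS} {w : ℕ} (hw : v w = Nam.omega) {Z : Nam SS} {s : SS}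
    (hZ : ∀ z, ∀ r ≤ s, fmem z Z r → NFun z r)
    (h : ∀ r ≤ s, ¬ (fLarge (w + 1) 0).Forces (push Z v) r) :
    ∃ s' ≤ s, ∃ m, ∃ F : Set (Nm Lam Lam), #F ≤ ν m ∧ (∀ D ∈ F, Val D s') ∧
      ∀ z, ∀ r ≤ s', fmem z Z r → DB (fun t => ∃ D ∈ F, feq z (toN D) t) r := by
  classical
  by_cases hcov : ∃ s' ≤ s, ∃ (m : ℕ) (J : Type) (x : J → Nam SS), #J ≤ ν m ∧
      ∀ z, ∀ r ≤ s', fmem z Z r → DB (fun t => ∃ j, feq z (x j) t) r
  · obtain ⟨s', hs', m, J, x, hJ, hx⟩ := hcov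
    obtain ⟨s'', hs'', F, hF, hFV, hFc⟩ := few_names (fun z r hr => hZ z r (hr.trans hs'))
      (hJ.trans (ν_le_Θ m)) x hx (ν m) hJ (ν_mono (Nat.zero_le m))
    exact ⟨s'', hs''.trans hs', m, F, hF, hFV, hFc⟩
  · exfalso
    push Not at hcov
    have h1 : ∀ m : ℕ, ∃ x : (ν m).ord.ToType → Nam SS, (∀ j, fmem (x j) Z s) ∧
        ∀ j j', j ≠ j' → ∀ r ≤ s, ¬ feq (x j) (x j') r := by
      intro m
      refine choose_names m fun s' hs' J x hJ hcon => ?_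
      obtain ⟨z, r, hr, hz, hnd⟩ := hcov s' hs' m J x hJ
      exact hnd (hcon z r hr hz)
    choose x hxZ hxne using h1
    let q : Nam SS := ⟨Σ n : ℕ, (ν n).ord.ToType, fun _ => ⊤,
      fun a => opair (Nam.fin a.1) (x a.1 a.2)⟩
    have hq : ∀ {y : Nam SS} {r : SS}, fmem y q r →
        DB (fun t => ∃ n, ∃ j, feq y (opair (Nam.fin n) (x n j)) t) r := by
      intro y r hy t ht
      obtain ⟨t', ht', ⟨n, j⟩, -, h2⟩ := hy t ht
      exact ⟨t', ht', n, j, h2⟩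
    have hq' : ∀ n j (r : SS), fmem (opair (Nam.fin n) (x n j)) q r := by
      intro n j r
      exact fmem_of_wt (y := q) (j := (⟨n, j⟩ : Σ n : ℕ, (ν n).ord.ToType)) trivial
    refine h s le_rfl (forces_fLarge_intro (v := push Z v) (w := w + 1) (Z := 0) hw q ?_ ?_)
    · intro n z r hr hz
      refine fmem_reg fun t ht => ?_
      obtain ⟨t', ht', n', j, h2⟩ := hq hz t ht
      exact ⟨t', ht', fmem_congr_left (feq_symm (opair_inj h2).2)
        (fmem_mono ((ht'.trans ht).trans hr) (hxZ n' j))⟩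
    · intro n F r hr hF hcon
      have hI : #(ν n).ord.ToType ≤ Θ := by
        rw [mk_toType, card_ord]
        exact ν_le_Θ n
      have hIJ : max #(ν n).ord.ToType 𝔠 < #(ν (n + 1)).ord.ToType := by
        rw [mk_toType, card_ord, mk_toType, card_ord]
        refine max_lt (Order.lt_succ _) ?_
        exact lt_of_le_of_lt (ν_mono (Nat.zero_le n)) (Order.lt_succ _)
      refine no_cover hI hIJ (x n) (x (n + 1)) (s := r)
        (fun j j' hj t ht => hxne (n + 1) j j' hj t (ht.trans hr)) hF fun j => ?_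
      intro t ht
      obtain ⟨t1, ht1, a, k, ha, hb⟩ := hcon (x (n + 1) j) r le_rfl (hq' _ _ _) t ht
      obtain ⟨t2, ht2, n', i, h2⟩ := hq ha t1 le_rfl
      obtain ⟨h3, h4⟩ := opair_inj h2
      obtain rfl : n = n' := fin_inj h3
      refine ⟨t2, ht2.trans ht1, i, k, ?_⟩
      exact fmem_congr_left (feq_opair (feq_opair h4 (feq_refl _ _)) (feq_refl _ _))
        (fmem_mono ht2 hb)

end MP186633L

/-!
# MP_186633_lc: (F1) is forced
-/

namespace MP186633L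

open MP9708F Cardinal

/-- a name for a set of ordered pairs -/
def pairN {ι : Type} (W : ι → SS → Prop) (hW : ∀ i s s', W i s → s' ≤ s → W i s')
    (x y : ι → Nam SS) : Nam SS :=
  ⟨ι, fun i => ⟨{s | W i s}, fun _ _ h h' => hW i _ _ h' h⟩, fun i => opair (x i) (y i)⟩

theorem fmem_pairN_of {ι : Type} {W : ι → SS → Prop} {hW : ∀ i s s', W i s → s' ≤ s → W i s'}
    {x y : ι → Nam SS} {i : ι} {s : SS} {a b : Nam SS} (h : W i s) (ha : feq a (x i) s)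
    (hb : feq b (y i) s) : fmem (opair a b) (pairN W hW x y) s := by
  refine fmem_congr_left (feq_symm (feq_opair ha hb)) ?_
  intro q hq
  exact ⟨q, le_rfl, i, hW i _ _ h hq, feq_refl _ _⟩

theorem fmem_pairN {ι : Type} {W : ι → SS → Prop} {hW : ∀ i s s', W i s → s' ≤ s → W i s'}
    {x y : ι → Nam SS} {s : SS} {a b : Nam SS} (h : fmem (opair a b) (pairN W hW x y) s) :
    DB (fun t => ∃ i, W i t ∧ feq a (x i) t ∧ feq b (y i) t) s := by
  intro q hq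
  obtain ⟨r, hr, j, h1, h2⟩ := h q hq
  obtain ⟨h3, h4⟩ := opair_inj h2
  exact ⟨r, hr, j, h1, h3, h4⟩

theorem forces_F1 {v : ℕ → Nam SS} {w d' e' : ℕ} (hw : v w = Nam.omega) (hd : v d' = chk dR)
    (he : v e' = chk eR) (s : SS) : (fF1 w d' e').Forces v s := by
  refine forces_fF1_intro hw hd he ?_
  intro Z q _ hZ hL q1 hq1
  obtain ⟨s0, hs0, m, F, hFc, hFV, hcov⟩ :=
    not_large hw (fun z r hr => hZ z r (hr.trans hq1)) (fun r hr => hL r (hr.trans hq1))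
  obtain ⟨K, iK, wK, κ, kmono, ktot, kfun, kinj, kback⟩ := keys s0 F m hFc hFV
  have kW : ∀ (i : F × K) (t t' : SS), (t ≤ s0 ∧ κ i.1.1 i.2 t) → t' ≤ t →
      (t' ≤ s0 ∧ κ i.1.1 i.2 t') := fun i t t' h h' => ⟨h'.trans h.1, kmono _ _ _ _ h.2 h'⟩
  have hV : ∀ (D : F) (t : SS), t ≤ s0 → Val D.1 t := fun D t ht => (hFV D.1 D.2).mono ht
  -- the name of the key function
  refine ⟨s0, hs0, K, iK, wK,
    pairN (fun (i : F × K) t => t ≤ s0 ∧ κ i.1.1 i.2 t) kW (fun i => toN i.1.1)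
      (fun i => vert i.2), ?_, ?_, ?_, ?_⟩
  · intro a b b' q2 _ h1 r2 hr2 h2
    refine feq_reg fun t ht => ?_
    obtain ⟨t1, ht1, i, ⟨hi1, hi2⟩, hi3, hi4⟩ := fmem_pairN h1 t (ht.trans hr2)
    obtain ⟨t2, ht2, j, ⟨hj1, hj2⟩, hj3, hj4⟩ := fmem_pairN h2 t1 (ht1.trans ht)
    have he1 : EqN t2.q.g i.1.1 j.1.1 t2.p :=
      (feq_toN (hV i.1 t2 hj1) (hV j.1 t2 hj1)).1
        (feq_trans (feq_symm (feq_mono ht2 hi3)) hj3)
    have hk := kfun i.1.1 i.1.2 j.1.1 j.1.2 i.2 j.2 t2 hj1 (kmono _ _ _ _ hi2 ht2) hj2 he1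
    rw [← hk] at hj4
    exact ⟨t2, ht2.trans ht1, feq_trans (feq_mono ht2 hi4) (feq_symm hj4)⟩
  · intro z s1 hs1 hz t ht
    obtain ⟨t1, ht1, D, hD, hzD⟩ := hcov z s1 hs1 hz t ht
    have h1 : t1 ≤ s0 := ht1.trans (ht.trans hs1)
    obtain ⟨t2, ht2, k, hk⟩ := ktot D hD t1 h1
    exact ⟨t2, ht2.trans ht1, k, fmem_pairN_of (i := (⟨D, hD⟩, k)) ⟨ht2.trans h1, hk⟩
      (feq_mono ht2 hzD) (feq_refl _ _)⟩
  · intro z z' α s1 hs1 _ _ h1 h2
    refine feq_reg fun t ht => ?_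
    obtain ⟨t1, ht1, i, ⟨hi1, hi2⟩, hi3, hi4⟩ := fmem_pairN h1 t ht
    obtain ⟨t2, ht2, j, ⟨hj1, hj2⟩, hj3, hj4⟩ := fmem_pairN h2 t1 (ht1.trans ht)
    have hk : i.2 = j.2 := vert_inj (feq_trans (feq_symm (feq_mono ht2 hi4)) hj4)
    have hj2' : κ j.1.1 i.2 t2 := by rw [hk]; exact hj2
    have he1 := kinj i.1.1 i.1.2 j.1.1 j.1.2 i.2 t2 hj1 (kmono _ _ _ _ hi2 ht2) hj2'
    exact ⟨t2, ht2.trans ht1, feq_trans (feq_mono ht2 hi3)
      (feq_trans ((feq_toN (hV i.1 t2 hj1) (hV j.1 t2 hj1)).2 he1) (feq_symm hj3))⟩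
  · intro z s1 hs1 hz t ht
    obtain ⟨t1, ht1, D, hD, hzD⟩ := hcov z s1 hs1 hz t ht
    have h1 : t1 ≤ s0 := ht1.trans (ht.trans hs1)
    obtain ⟨s2, hs2, J, Jmono, Jfun, Jcov⟩ := kback D hD t1 h1
    have hs20 : s2 ≤ s0 := hs2.trans h1
    have JW : ∀ (i : ℕ × F) (t t' : SS), (t ≤ s2 ∧ J i.1 i.2.1 t) → t' ≤ t →
        (t' ≤ s2 ∧ J i.1 i.2.1 t') := fun i t t' h h' => ⟨h'.trans h.1, Jmono _ _ _ _ h.2 h'⟩
    refine ⟨s2, hs2.trans ht1,
      pairN (fun (i : ℕ × F) t => t ≤ s2 ∧ J i.1 i.2.1 t) JW (fun i => Nam.fin i.1)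
        (fun i => toN i.2.1), ?_, ?_⟩
    · intro a b b' q2 _ h1 r2 hr2 h2
      refine feq_reg fun t ht => ?_
      obtain ⟨t1, ht1, i, ⟨hi1, hi2⟩, hi3, hi4⟩ := fmem_pairN h1 t (ht.trans hr2)
      obtain ⟨t2, ht2, j, ⟨hj1, hj2⟩, hj3, hj4⟩ := fmem_pairN h2 t1 (ht1.trans ht)
      have hn : i.1 = j.1 := fin_inj (feq_trans (feq_symm (feq_mono ht2 hi3)) hj3)
      have hj2' : J i.1 j.2.1 t2 := by rw [hn]; exact hj2
      have he1 := Jfun i.1 i.2.1 i.2.2 j.2.1 j.2.2 t2 hj1 (Jmono _ _ _ _ hi2 ht2) hj2'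
      exact ⟨t2, ht2.trans ht1, feq_trans (feq_mono ht2 hi4)
        (feq_trans ((feq_toN (hV i.2 t2 (hj1.trans hs20)) (hV j.2 t2 (hj1.trans hs20))).2 he1)
          (feq_symm hj4))⟩
    · intro z' α α' t' ht' hz' hκ hκ' hα hR t3 ht3
      obtain ⟨t4, ht4, i, ⟨hi1, hi2⟩, hi3, hi4⟩ := fmem_pairN hκ t3 ht3
      obtain ⟨t5, ht5, j, ⟨hj1, hj2⟩, hj3, hj4⟩ := fmem_pairN hκ' t4 (ht4.trans ht3)
      obtain ⟨t6, ht6, k1, hk1⟩ := ktot D hD t5 hj1
      have h6' : t6 ≤ t' := ht6.trans (ht5.trans (ht4.trans ht3))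
      have h62 : t6 ≤ s2 := h6'.trans ht'
      have h60 : t6 ≤ s0 := h62.trans hs20
      have h64 : t6 ≤ t4 := ht6.trans ht5
      have hzD6 : feq z (toN D) t6 := feq_mono (h62.trans hs2) hzD
      have he1 : EqN t6.q.g D i.1.1 t6.p :=
        (feq_toN (hV ⟨D, hD⟩ t6 h60) (hV i.1 t6 h60)).1
          (feq_trans (feq_symm hzD6) (feq_mono h64 hi3))
      have hk := kfun D hD i.1.1 i.1.2 k1 i.2 t6 h60 hk1 (kmono _ _ _ _ hi2 h64) he1
      have hlt : j.2 < k1 := by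
        rw [hk]
        refine (vert_mem_iff (P := SS) (p := t6)).1 ?_
        exact fmem_congr (feq_mono ht6 hj4) (feq_mono h64 hi4) (fmem_mono h6' hα)
      have hR' : RelN t6.q.g dR eR j.1.1 D t6.p ∨ RelN t6.q.g dR eR D j.1.1 t6.p := by
        rcases hR with hR | hR
        · left
          exact (NRel_toN (hV j.1 t6 h60) (hV ⟨D, hD⟩ t6 h60)).1
            (NRel.congr (feq_mono ht6 hj3) hzD6 (hR.mono h6'))
        · right
          exact (NRel_toN (hV ⟨D, hD⟩ t6 h60) (hV j.1 t6 h60)).1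
            (NRel.congr hzD6 (feq_mono ht6 hj3) (hR.mono h6'))
      obtain ⟨t7, ht7, n, hn⟩ := Jcov t6 h62 j.1.1 j.1.2 k1 j.2 hk1 (kmono _ _ _ _ hj2 ht6)
        hlt hR'
      exact ⟨t7, ht7.trans (h64.trans ht4), n, fmem_pairN_of (i := (n, j.1))
        ⟨ht7.trans h62, hn⟩ (feq_refl _ _) (feq_mono (ht7.trans ht6) hj3)⟩

end MP186633L

/-!
# MP_186633_lc: (F2) is forced
-/

namespace MP186633L

open MP9708F Cardinal

/-- pairwise different names `x j` which are covered by a single valued function on `ω` are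
countably many -/
theorem countable_cover {J : Type} (x : J → Nam SS) {s : SS}
    (hx : ∀ j j', j ≠ j' → ∀ r ≤ s, ¬ feq (x j) (x j') r) {u : Nam SS} (hu : SV1 u s)
    (h : ∀ j, DB (fun t => ∃ n : ℕ, fmem (opair (Nam.fin n) (x j)) u t) s) : Countable J := by
  obtain ⟨s1, hs1, -, g, hg, hg'⟩ := values_ctbl
    (fun n j (t : SS) => fmem (opair (Nam.fin n) (x j)) u t)
    (fun _ _ _ _ h hle => fmem_mono hle h) s
  have hall : (Set.univ : Set J) ⊆ ⋃ n, g n := by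
    intro j _
    obtain ⟨t, ht, n, hn⟩ := h j s1 hs1
    obtain ⟨s2, hs2, j', hj', hn'⟩ := hg' n j t ht hn
    have heq : j = j' := by
      by_contra hne
      exact hx j j' hne s2 ((hs2.trans ht).trans hs1)
        (hu _ _ _ s2 ((hs2.trans ht).trans hs1) (fmem_mono hs2 hn) s2 le_rfl hn')
    rw [heq]
    exact Set.mem_iUnion.2 ⟨n, hj'⟩
  exact Set.countable_univ_iff.1 ((Set.countable_iUnion hg).mono hall)

theorem NFun.reg {P : Type} [Preorder P] {f : Nam P} {p : P}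
    (h : ∀ q ≤ p, ∃ r ≤ q, NFun f r) : NFun f p := by
  refine ⟨?_, ?_, ?_⟩
  · intro z q hq hz q' hq'
    obtain ⟨r, hr, hf⟩ := h q' (hq'.trans hq)
    obtain ⟨t, ht, h'⟩ := hf.sub z r le_rfl (fmem_mono (hr.trans hq') hz) r le_rfl
    exact ⟨t, ht.trans hr, h'⟩
  · intro n q hq
    obtain ⟨r, hr, hf⟩ := h q hq
    obtain ⟨t, ht, h'⟩ := hf.tot n r le_rfl
    exact ⟨t, ht.trans hr, h'⟩
  · intro n m m' q hq h1 h2
    obtain ⟨r, hr, hf⟩ := h q hq
    exact hf.fn n m m' r le_rfl (fmem_mono hr h1) (fmem_mono hr h2)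

/-- the name of the set of all `toN D`, `D` a name with support in `Y` -/
noncomputable def ZN (Γ : Gr Lam Lam) (Y : Set (Lam ⊕ Lam)) : Nam SS :=
  ⟨{D : Nm Lam Lam // RN Γ Y D}, fun _ => ⊤, fun D => toN D.1⟩

theorem mem_ZN {Γ : Gr Lam Lam} {Y : Set (Lam ⊕ Lam)} {D : Nm Lam Lam} (hD : RN Γ Y D)
    (s : SS) : fmem (toN D) (ZN Γ Y) s :=
  fmem_of_wt (y := ZN Γ Y) (j := (⟨D, hD⟩ : {D : Nm Lam Lam // RN Γ Y D})) trivial

theorem of_mem_ZN {Γ : Gr Lam Lam} {Y : Set (Lam ⊕ Lam)} {z : Nam SS} {s : SS}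
    (h : fmem z (ZN Γ Y) s) : DB (fun r => ∃ D, RN Γ Y D ∧ feq z (toN D) r) s := by
  intro q hq
  obtain ⟨r, hr, j, -, h2⟩ := h q hq
  exact ⟨r, hr, j.1, j.2, h2⟩

theorem forces_F2 {v : ℕ → Nam SS} {w d' e' : ℕ} (hw : v w = Nam.omega) (hd : v d' = chk dR)
    (he : v e' = chk eR) (s : SS) : (fF2 w d' e').Forces v s := by
  apply forces_fF2_intro hw hd he
  intro F q hq hF q' hq'
  obtain ⟨s1, hs1, Y, ξ, V, hVinj, hYd, hYc, hξW, hξY, hV, hspr⟩ := spread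
    (fun D1 D2 n D3 (t : SS) => Val D3 t ∧
      fmem (opair (opair (opair (toN D1) (toN D2)) (Nam.fin n)) (toN D3)) F t)
    (fun _ _ _ _ _ _ h hle => ⟨h.1.mono hle, fmem_mono hle h.2⟩) q'
  have hvalY : ∀ D, RN s1.q.g Y D → ∀ t ≤ s1, Val D t := by
    intro D hD t ht
    exact Val.mono (s := s1) hD.dom ht
  have hbV : RN s1.q.g {Sum.inr ξ} (bN ξ) := RN_bN hξW
  have hvalb : ∀ t ≤ s1, Val (bN ξ) t := fun t ht => Val.mono (s := s1) hbV.dom ht
  refine ⟨s1, hs1, ZN s1.q.g Y, toN (bN ξ), ?_, ?_, NFun_toN (hvalb s1 le_rfl), ?_, ?_⟩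
  · -- elements of `Z` are functions
    intro z t ht hz
    refine NFun.reg fun r hr => ?_
    obtain ⟨r', hr', D, hD, he'⟩ := of_mem_ZN hz r hr
    exact ⟨r', hr', NFun.congr (feq_symm he') (NFun_toN (hvalY D hD r' ((hr'.trans hr).trans ht)))⟩
  · -- closure
    intro x y z n t ht hx hy hquad hz
    refine fmem_reg fun r hr => ?_
    obtain ⟨r1, hr1, D1, hD1, e1⟩ := of_mem_ZN hx r hr
    obtain ⟨r2, hr2, D2, hD2, e2⟩ := of_mem_ZN hy r1 (hr1.trans hr)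
    have hr2t : r2 ≤ t := (hr2.trans hr1).trans hr
    obtain ⟨r3, hr3, D3, hD3, e3⟩ := exists_toN (hz.mono hr2t)
    have hr3t : r3 ≤ t := hr3.trans hr2t
    have hT : fmem (opair (opair (opair (toN D1) (toN D2)) (Nam.fin n)) (toN D3)) F r3 := by
      refine fmem_congr_left ?_ (fmem_mono hr3t hquad)
      refine feq_opair (feq_opair (feq_opair ?_ ?_) (feq_refl _ _)) e3
      · exact feq_mono (hr3.trans hr2) e1
      · exact feq_mono hr3 e2
    obtain ⟨r4, hr4, D3', hD3', hV3', hT'⟩ := hspr D1 D2 n D3 r3 hD1 hD2 (hr3t.trans ht) hD3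
      ⟨hD3, hT⟩
    have hr4q : r4 ≤ q := (((hr4.trans hr3t).trans ht).trans hs1).trans hq'
    have heq : feq (toN D3) (toN D3') r4 :=
      hF _ _ _ _ _ r4 hr4q (fmem_mono hr4 hT) r4 le_rfl hT'
    refine ⟨r4, ((hr4.trans hr3).trans hr2).trans hr1, ?_⟩
    refine fmem_congr_left ?_ (mem_ZN hD3' r4)
    exact feq_symm (feq_trans (feq_mono hr4 e3) heq)
  · -- `b` is not in `Z`
    intro t ht hb
    obtain ⟨r, hr, D, hD, heq⟩ := of_mem_ZN hb t le_rfl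
    have hrs1 : r ≤ s1 := hr.trans ht
    have hext : Ext s1.q.g r.q.g := Big.ext hrs1.1
    have h1 : EqN r.q.g (bN ξ) D r.p := (feq_toN (hvalb r hrs1) (hvalY D hD r hrs1)).1 heq
    have h2 : EqN s1.q.g (bN ξ) D (r.p.res s1.q.g.dom) := (hext.eqN hbV hD r.ok).1 h1
    exact bN_new hYc hξW hξY hD (hext.ok_res r.ok) h2.symm
  · -- uncountably many neighbours
    intro t ht u hu hcov
    have hcount : Countable Om1 := by
      refine countable_cover (fun i => toN (aN (V i))) (s := t) ?_ hu ?_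
      · intro i j hij r hr heq
        have hrs1 : r ≤ s1 := hr.trans ht
        have hU : ∀ i, V i ∈ s1.q.g.U := fun i => s1.q.g.E_sub ξ hξW (hV i).1
        have hUr : ∀ i, V i ∈ r.q.g.U := fun i => hrs1.1.U (hU i)
        have hval : ∀ i, Val (aN (V i)) r := fun i => (RN_aN (hUr i)).dom
        have h1 := (feq_toN (hval i) (hval j)).1 heq
        exact aN_ne r.ok (hUr i) (hUr j) (fun h => hij (hVinj h)) h1
      · intro i
        have hU : V i ∈ s1.q.g.U := s1.q.g.E_sub ξ hξW (hV i).1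
        have hRN : RN s1.q.g Y (aN (V i)) := by
          refine (RN_aN hU).mono ?_
          intro z hz
          rw [Set.mem_singleton_iff] at hz
          rw [hz]
          exact (hV i).2
        have h1 : fmem (toN (aN (V i))) (ZN s1.q.g Y) t := mem_ZN hRN t
        have h2 : RelN t.q.g dR eR (aN (V i)) (bN ξ) t.p := by
          refine RelN_ab t.ok (ht.1.W hξW) ?_
          rw [ht.1.E ξ hξW]
          exact (hV i).1
        have h3 : NRel dR eR (toN (aN (V i))) (toN (bN ξ)) t :=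
          (NRel_toN (hvalY _ hRN t ht) (hvalb t ht)).2 h2
        exact hcov _ t le_rfl h1 h3
    exact Om1_uncountable (Set.countable_univ_iff.2 hcount)

/-- the empty graph -/
def emptyGr (L S : Type) : Gr L S where
  U := ∅
  W := ∅
  E _ := ∅
  c _ := ∅
  E_sub _ h := absurd h (Set.notMem_empty _)
  c_sub _ h := absurd h (Set.notMem_empty _)
  c_ctbl _ h := absurd h (Set.notMem_empty _)
  disj _ h := absurd h (Set.notMem_empty _)
  E_card _ h := absurd h (Set.notMem_empty _)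

theorem nonempty_SS : Nonempty SS :=
  ⟨{ q := ⟨emptyGr Lam Lam, by simp [emptyGr], by simp [emptyGr]⟩
     h := ⟨fun _ => none, by simp⟩
     p := Raw.triv Lam Lam
     ok := ok_triv _ }⟩

end MP186633L

/-!
# MP_186633_lc: the principle is forced, hence consistent
-/

namespace MP186633L

open MP9708F

theorem forces_princ (v : ℕ → Nam SS) (s : SS) : princF.Forces v s := by
  have h : ∀ r : SS, (SetFormula.and (fOm 2) (.and (fF1 2 1 0) (fF2 2 1 0))).Forces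
      (push (chk eR) (push (chk dR) (push Nam.omega v))) r := by
    intro r
    exact ⟨forces_fOm.2 (feq_refl _ _), forces_F1 rfl rfl rfl r, forces_F2 rfl rfl rfl r⟩
  refine forces_ex'.2 fun q _ => ⟨q, le_rfl, Nam.omega, ?_⟩
  refine forces_ex'.2 fun q _ => ⟨q, le_rfl, chk dR, ?_⟩
  exact forces_ex'.2 fun q _ => ⟨q, le_rfl, chk eR, h q⟩

instance : Nonempty SS := nonempty_SS

/-- **The principle is consistent with ZFC.** -/
theorem consistent_principle : ∃ (M : Type 1) (E : M → M → Prop), ModelsZFC E ∧ Principle E := by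
  obtain ⟨M, E, i, -, h1, h2⟩ := exists_model SS
  exact ⟨M, E, h1, (holds_princF E _).1 (h2 princF (fun _ => Nam.omega) (forces_princ _))⟩

end MP186633L
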