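import Pool.Agent.Lib.MP_186633_lc.Defs

/-!
# MP_186633_lc, group part 1: the telescope groups

For letters `I`, edges `Ed` and `c : Ed → ℕ → FreeGroup I` the telescope group `Tel c` has the
generators `l i` (`i : I`) and `t e k` (`e : Ed`, `k : ℕ`) and the relations
`t e (k+1) ^ 2 = t e k * c e k`.
-/

set_option autoImplicit false

namespace MP186633L

open FreeGroup (of IsReduced toWord mk_toWord toWord_mk isReduced_toWord toWord_eq_nil_iff
  one_eq_mk mul_mk inv_mk lift_apply_of lift_mk invRev)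

/-! ### Reduced words -/

section words

variable {α β : Type}

theorem mk_injOn_isReduced {L L' : List (α × Bool)} (h : IsReduced L) (h' : IsReduced L')
    (he : FreeGroup.mk L = FreeGroup.mk L') : L = L' := by
  classical
  have := congrArg FreeGroup.toWord he
  rw [toWord_mk, toWord_mk, h.reduce_eq, h'.reduce_eq] at this
  exact this

/-- letterwise image of a reduced word under a map which is injective on its letters -/
theorem isReduced_map_of_injOn {L : List (α × Bool)} (h : IsReduced L) (f : α → β)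
    (hf : ∀ a ∈ L, ∀ b ∈ L, f a.1 = f b.1 → a.1 = b.1) :
    IsReduced (L.map fun a => (f a.1, a.2)) := by
  induction L with
  | nil => exact IsReduced.nil
  | cons a L ih =>
    cases L with
    | nil => exact IsReduced.singleton
    | cons b L =>
      rw [FreeGroup.isReduced_cons_cons] at h
      simp only [List.map_cons] at ih ⊢
      rw [FreeGroup.isReduced_cons_cons]
      refine ⟨fun he => h.1 (hf a (by simp) b (by simp) he), ih h.2 fun x hx y hy => ?_⟩
      exact hf x (List.mem_cons_of_mem _ hx) y (List.mem_cons_of_mem _ hy)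

theorem map_ne_one_of_injOn {w : FreeGroup α} [DecidableEq α] (hw : w ≠ 1) (f : α → β)
    (hf : ∀ a ∈ w.toWord, ∀ b ∈ w.toWord, f a.1 = f b.1 → a.1 = b.1) :
    FreeGroup.map f w ≠ 1 := by
  intro h
  have h1 : FreeGroup.map f w = FreeGroup.mk (w.toWord.map fun a => (f a.1, a.2)) := by
    conv_lhs => rw [← mk_toWord (x := w)]
    rw [FreeGroup.map.mk]
  rw [h1, one_eq_mk] at h
  have h2 := mk_injOn_isReduced (isReduced_map_of_injOn isReduced_toWord f hf) IsReduced.nil h
  rw [List.map_eq_nil_iff] at h2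
  exact hw (toWord_eq_nil_iff.1 h2)

/-- double the letters satisfying `D` -/
def dblL (D : α → Bool) (L : List (α × Bool)) : List (α × Bool) :=
  L.flatMap fun a => if D a.1 then [a, a] else [a]

theorem dblL_cons (D : α → Bool) (a : α × Bool) (L : List (α × Bool)) :
    dblL D (a :: L) = (if D a.1 then [a, a] else [a]) ++ dblL D L := by
  simp [dblL]

theorem dblL_reduced (D : α → Bool) {L : List (α × Bool)} (h : IsReduced L) :
    IsReduced (dblL D L) := by
  induction L with
  | nil => exact IsReduced.nil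
  | cons a L ih =>
    cases L with
    | nil =>
      rw [dblL_cons]
      split_ifs
      · simp only [dblL, List.flatMap_nil, List.append_nil]
        rw [FreeGroup.isReduced_cons_cons]
        exact ⟨fun _ => rfl, IsReduced.singleton⟩
      · exact IsReduced.singleton
    | cons b L =>
      rw [FreeGroup.isReduced_cons_cons] at h
      have ih' := ih h.2
      obtain ⟨L', hL'⟩ : ∃ L', dblL D (b :: L) = b :: L' := by
        rw [dblL_cons]
        split_ifs
        · exact ⟨b :: dblL D L, rfl⟩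
        · exact ⟨dblL D L, rfl⟩
      rw [dblL_cons, hL']
      rw [hL'] at ih'
      split_ifs
      · simp only [List.cons_append, List.nil_append]
        rw [FreeGroup.isReduced_cons_cons, FreeGroup.isReduced_cons_cons]
        exact ⟨fun _ => rfl, h.1, ih'⟩
      · simp only [List.cons_append, List.nil_append]
        rw [FreeGroup.isReduced_cons_cons]
        exact ⟨h.1, ih'⟩

theorem dblL_eq_nil {D : α → Bool} {L : List (α × Bool)} (h : dblL D L = []) : L = [] := by
  cases L with
  | nil => rfl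
  | cons a L =>
    rw [dblL_cons] at h
    split_ifs at h <;> simp at h

/-- the endomorphism squaring the letters satisfying `D` -/
def dbl (D : α → Bool) : FreeGroup α →* FreeGroup α :=
  FreeGroup.lift fun a => if D a then of a ^ 2 else of a

theorem dbl_mk (D : α → Bool) (L : List (α × Bool)) :
    dbl D (FreeGroup.mk L) = FreeGroup.mk (dblL D L) := by
  induction L with
  | nil => exact map_one _
  | cons a L ih =>
    have h1 : (FreeGroup.mk (a :: L)) = FreeGroup.mk [a] * FreeGroup.mk L := by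
      rw [mul_mk]; rfl
    rw [h1, map_mul, ih, dblL_cons]
    rw [← mul_mk]
    congr 1
    obtain ⟨a, b⟩ := a
    have h2 : dbl D (FreeGroup.mk [(a, b)]) =
        (bif b then (if D a then of a ^ 2 else of a) else (if D a then of a ^ 2 else of a)⁻¹) := by
      rw [dbl, lift_mk]
      simp
    rw [h2]
    cases b
    · cases hD : D a
      · simp [of, inv_mk, invRev]
      · simp [of, pow_two, mul_mk, inv_mk, invRev]
    · cases hD : D a
      · simp [of]
      · simp [of, pow_two, mul_mk]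

theorem dbl_injective (D : α → Bool) : Function.Injective (dbl D) := by
  classical
  rw [injective_iff_map_eq_one]
  intro w hw
  rw [← mk_toWord (x := w), dbl_mk, one_eq_mk] at hw
  have h1 := mk_injOn_isReduced (dblL_reduced D isReduced_toWord) IsReduced.nil hw
  exact toWord_eq_nil_iff.1 (dblL_eq_nil h1)

end words

/-! ### The telescope group -/

section tel

variable {I Ed : Type}

/-- the relators -/
def telRel (c : Ed → ℕ → FreeGroup I) : Set (FreeGroup (I ⊕ Ed × ℕ)) :=
  Set.range fun p : Ed × ℕ => (of (Sum.inr (p.1, p.2 + 1))) ^ 2 *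
    (of (Sum.inr (p.1, p.2)) * FreeGroup.map Sum.inl (c p.1 p.2))⁻¹

/-- the telescope group -/
def Tel (c : Ed → ℕ → FreeGroup I) : Type := PresentedGroup (telRel c)

instance (c : Ed → ℕ → FreeGroup I) : Group (Tel c) :=
  inferInstanceAs (Group (PresentedGroup (telRel c)))

namespace Tel

variable (c : Ed → ℕ → FreeGroup I)

/-- the letters -/
def l (i : I) : Tel c := PresentedGroup.of (rels := telRel c) (Sum.inl i)

/-- the generators belonging to the edges -/
def t (e : Ed) (k : ℕ) : Tel c := PresentedGroup.of (rels := telRel c) (Sum.inr (e, k))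

/-- the canonical map from the words in the letters -/
def w : FreeGroup I →* Tel c := FreeGroup.lift (l c)

@[simp] theorem w_of (i : I) : w c (of i) = l c i := by simp [w]

theorem t_succ (e : Ed) (k : ℕ) : t c e (k + 1) ^ 2 = t c e k * w c (c e k) := by
  have h1 : PresentedGroup.mk (telRel c) ((of (Sum.inr (e, k + 1))) ^ 2 *
      (of (Sum.inr (e, k)) * FreeGroup.map Sum.inl (c e k))⁻¹) = 1 :=
    PresentedGroup.one_of_mem ⟨(e, k), rfl⟩
  rw [map_mul, map_inv, mul_inv_eq_one, map_pow, map_mul] at h1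
  have h2 : ∀ u : FreeGroup I, PresentedGroup.mk (telRel c) (FreeGroup.map Sum.inl u) =
      w c u := by
    intro u
    have h3 : (PresentedGroup.mk (telRel c)).comp (FreeGroup.map (Sum.inl : I → I ⊕ Ed × ℕ)) =
        w c := by
      ext i
      simp only [MonoidHom.comp_apply, FreeGroup.map.of]
      rfl
    exact DFunLike.congr_fun h3 u
  rw [h2] at h1
  exact h1

variable {c}

/-- universal property -/
def lift {H : Type*} [Group H] (f : I → H) (g : Ed → ℕ → H)
    (h : ∀ e k, g e (k + 1) ^ 2 = g e k * FreeGroup.lift f (c e k)) : Tel c →* H :=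
  PresentedGroup.toGroup (rels := telRel c) (f := Sum.elim f fun p => g p.1 p.2) (by
    rintro r ⟨⟨e, k⟩, rfl⟩
    rw [map_mul, map_inv, mul_inv_eq_one, map_pow, map_mul, lift_apply_of, lift_apply_of]
    simp only [Sum.elim_inr]
    rw [h e k]
    congr 1
    have h3 : (FreeGroup.lift (Sum.elim f fun p : Ed × ℕ => g p.1 p.2)).comp
        (FreeGroup.map (Sum.inl : I → I ⊕ Ed × ℕ)) = FreeGroup.lift f := by
      ext i
      simp
    exact (DFunLike.congr_fun h3 (c e k)).symm)

@[simp] theorem lift_l {H : Type*} [Group H] (f : I → H) (g : Ed → ℕ → H)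
    (h : ∀ e k, g e (k + 1) ^ 2 = g e k * FreeGroup.lift f (c e k)) (i : I) :
    lift f g h (l c i) = f i :=
  PresentedGroup.toGroup.of _

@[simp] theorem lift_t {H : Type*} [Group H] (f : I → H) (g : Ed → ℕ → H)
    (h : ∀ e k, g e (k + 1) ^ 2 = g e k * FreeGroup.lift f (c e k)) (e : Ed) (k : ℕ) :
    lift f g h (t c e k) = g e k :=
  PresentedGroup.toGroup.of _

theorem hom_ext {H : Type*} [Group H] {φ ψ : Tel c →* H} (hl : ∀ i, φ (l c i) = ψ (l c i))
    (ht : ∀ e k, φ (t c e k) = ψ (t c e k)) : φ = ψ := by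
  refine PresentedGroup.ext (rels := telRel c) fun x => ?_
  rcases x with i | ⟨e, k⟩
  · exact hl i
  · exact ht e k

/-- the generators generate -/
theorem closure_gen : Subgroup.closure (Set.range (l c) ∪ Set.range fun p : Ed × ℕ => t c p.1 p.2)
    = ⊤ := by
  rw [eq_top_iff]
  intro x _
  have hx : x ∈ Subgroup.closure (Set.range (PresentedGroup.of (rels := telRel c))) := by
    rw [PresentedGroup.closure_range_of (telRel c)]
    exact Subgroup.mem_top _
  refine Subgroup.closure_mono (G := Tel c) ?_ hx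
  rintro _ ⟨x | ⟨e, k⟩, rfl⟩
  · exact Or.inl ⟨x, rfl⟩
  · exact Or.inr ⟨(e, k), rfl⟩

/-! ### The stages -/

variable (c)

/-- the `k`-th stage: `e ↦ t e k` -/
def stage (k : ℕ) : FreeGroup (I ⊕ Ed) →* Tel c :=
  FreeGroup.lift (Sum.elim (l c) fun e => t c e k)

/-- the transition map of stage `k` -/
def tr (k : ℕ) : FreeGroup (I ⊕ Ed) →* FreeGroup (I ⊕ Ed) :=
  FreeGroup.lift (Sum.elim (fun i => of (Sum.inl i))
    fun e => of (Sum.inr e) ^ 2 * (FreeGroup.map Sum.inl (c e k))⁻¹)

@[simp] theorem stage_inl (k : ℕ) (i : I) : stage c k (of (Sum.inl i)) = l c i := by simp [stage]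

@[simp] theorem stage_inr (k : ℕ) (e : Ed) : stage c k (of (Sum.inr e)) = t c e k := by
  simp [stage]

theorem stage_map_inl (k : ℕ) (u : FreeGroup I) :
    stage c k (FreeGroup.map Sum.inl u) = w c u := by
  have h3 : (stage c k).comp (FreeGroup.map (Sum.inl : I → I ⊕ Ed)) = w c := by
    ext i
    simp
  exact DFunLike.congr_fun h3 u

theorem stage_succ (k : ℕ) (u : FreeGroup (I ⊕ Ed)) :
    stage c (k + 1) (tr c k u) = stage c k u := by
  have h : (stage c (k + 1)).comp (tr c k) = stage c k := by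
    ext x
    rcases x with i | e
    · simp [tr]
    · simp only [tr, MonoidHom.comp_apply, lift_apply_of, Sum.elim_inr, map_mul, map_pow, map_inv,
        stage_inr, stage_map_inl]
      rw [t_succ, mul_inv_cancel_right]
  exact DFunLike.congr_fun h u

/-- the twist `e ↦ e (c e k)⁻¹` -/
def tw (k : ℕ) : FreeGroup (I ⊕ Ed) →* FreeGroup (I ⊕ Ed) :=
  FreeGroup.lift (Sum.elim (fun i => of (Sum.inl i))
    fun e => of (Sum.inr e) * (FreeGroup.map Sum.inl (c e k))⁻¹)

/-- the inverse twist `e ↦ e (c e k)` -/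
def tw' (k : ℕ) : FreeGroup (I ⊕ Ed) →* FreeGroup (I ⊕ Ed) :=
  FreeGroup.lift (Sum.elim (fun i => of (Sum.inl i))
    fun e => of (Sum.inr e) * FreeGroup.map Sum.inl (c e k))

theorem tw'_map_inl (k : ℕ) (u : FreeGroup I) :
    tw' c k (FreeGroup.map Sum.inl u) = FreeGroup.map Sum.inl u := by
  have h3 : (tw' c k).comp (FreeGroup.map (Sum.inl : I → I ⊕ Ed)) = FreeGroup.map Sum.inl := by
    ext i
    simp [tw']
  exact DFunLike.congr_fun h3 u

theorem tw_injective (k : ℕ) : Function.Injective (tw c k) := by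
  have h : (tw' c k).comp (tw c k) = MonoidHom.id _ := by
    ext x
    rcases x with i | e
    · simp [tw, tw']
    · simp only [tw, MonoidHom.comp_apply, lift_apply_of, Sum.elim_inr, map_mul, map_inv,
        tw'_map_inl, MonoidHom.id_apply]
      simp [tw']
  intro a b hab
  have h2 := congrArg (tw' c k) hab
  rw [← MonoidHom.comp_apply, ← MonoidHom.comp_apply, h] at h2
  exact h2

theorem tr_eq (k : ℕ) : tr c k = (dbl (Sum.isRight)).comp (tw c k) := by
  ext x
  rcases x with i | e
  · simp [tr, tw, dbl]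
  · simp only [tr, tw, MonoidHom.comp_apply, lift_apply_of, Sum.elim_inr, map_mul, map_inv]
    have h1 : dbl Sum.isRight (FreeGroup.map Sum.inl (c e k)) =
        FreeGroup.map (Sum.inl : I → I ⊕ Ed) (c e k) := by
      have h3 : (dbl Sum.isRight).comp (FreeGroup.map (Sum.inl : I → I ⊕ Ed)) =
          FreeGroup.map Sum.inl := by
        ext i
        simp [dbl]
      exact DFunLike.congr_fun h3 _
    rw [h1]
    simp [dbl]

theorem tr_injective (k : ℕ) : Function.Injective (tr c k) := by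
  rw [tr_eq]
  exact (dbl_injective _).comp (tw_injective c k)

/-- the iterated transition maps: from stage `k`, `n` steps -/
def trn (k : ℕ) : ℕ → (FreeGroup (I ⊕ Ed) →* FreeGroup (I ⊕ Ed))
  | 0 => MonoidHom.id _
  | n + 1 => (tr c (k + n)).comp (trn k n)

theorem trn_injective (k n : ℕ) : Function.Injective (trn c k n) := by
  induction n with
  | zero => exact fun a b h => h
  | succ n ih => exact (tr_injective c _).comp ih

theorem trn_one_step (k n : ℕ) (u : FreeGroup (I ⊕ Ed)) :
    trn c (k + 1) n (tr c k u) = trn c k (n + 1) u := by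
  induction n with
  | zero => rfl
  | succ n ih =>
    show tr c (k + 1 + n) (trn c (k + 1) n (tr c k u)) = tr c (k + (n + 1)) (trn c k (n + 1) u)
    rw [ih]
    congr 2
    omega

theorem stage_trn (k n : ℕ) (u : FreeGroup (I ⊕ Ed)) :
    stage c (k + n) (trn c k n u) = stage c k u := by
  induction n with
  | zero => rfl
  | succ n ih =>
    show stage c (k + n + 1) (tr c (k + n) (trn c k n u)) = _
    rw [stage_succ, ih]

theorem tr_map_inl (k : ℕ) (u : FreeGroup I) :
    tr c k (FreeGroup.map Sum.inl u) = FreeGroup.map Sum.inl u := by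
  have h3 : (tr c k).comp (FreeGroup.map (Sum.inl : I → I ⊕ Ed)) = FreeGroup.map Sum.inl := by
    ext i
    simp [tr]
  exact DFunLike.congr_fun h3 u

theorem trn_map_inl (k n : ℕ) (u : FreeGroup I) :
    trn c k n (FreeGroup.map Sum.inl u) = FreeGroup.map Sum.inl u := by
  induction n with
  | zero => rfl
  | succ n ih =>
    show tr c (k + n) (trn c k n _) = _
    rw [ih, tr_map_inl]

/-- the germ of a sequence -/
noncomputable abbrev mkG (f : ℕ → FreeGroup (I ⊕ Ed)) :
    Filter.Germ (Filter.atTop : Filter ℕ) (FreeGroup (I ⊕ Ed)) := f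

theorem lift_const (u : FreeGroup I) :
    FreeGroup.lift (fun i => mkG (fun _ => of (Sum.inl i : I ⊕ Ed))) u =
      mkG (fun _ => FreeGroup.map Sum.inl u) := by
  have h : FreeGroup.lift (fun i => mkG (fun _ => of (Sum.inl i : I ⊕ Ed))) =
      ((Filter.Germ.coeMulHom (Filter.atTop : Filter ℕ)).comp
        (Pi.constMonoidHom ℕ (FreeGroup (I ⊕ Ed)))).comp (FreeGroup.map Sum.inl) := by
    ext i
    simp
    rfl
  rw [h]
  rfl

/-- the representation of the telescope group by germs at infinity -/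
noncomputable def germ : Tel c →* Filter.Germ (Filter.atTop : Filter ℕ) (FreeGroup (I ⊕ Ed)) :=
  lift (fun i => mkG (fun _ => of (Sum.inl i)))
    (fun e k => mkG (fun n => trn c k (n - k) (of (Sum.inr e)))) (by
    intro e k
    rw [lift_const, ← Filter.Germ.coe_pow, ← Filter.Germ.coe_mul, Filter.Germ.coe_eq]
    filter_upwards [Filter.eventually_ge_atTop (k + 1)] with n hn
    obtain ⟨m, rfl⟩ := Nat.exists_eq_add_of_le hn
    have e1 : k + 1 + m - (k + 1) = m := by omega
    have e2 : k + 1 + m - k = m + 1 := by omega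
    simp only [Pi.pow_apply, Pi.mul_apply, e1, e2]
    rw [← trn_one_step]
    have h3 : tr c k (of (Sum.inr e)) =
        of (Sum.inr e) ^ 2 * (FreeGroup.map Sum.inl (c e k))⁻¹ := by simp [tr]
    rw [h3, map_mul, map_inv, trn_map_inl, map_pow, inv_mul_cancel_right])

theorem germ_stage (k : ℕ) (u : FreeGroup (I ⊕ Ed)) :
    germ c (stage c k u) = mkG (fun n => trn c k (n - k) u) := by
  have h : (germ c).comp (stage c k) = (Filter.Germ.coeMulHom (Filter.atTop : Filter ℕ)).comp
      (MonoidHom.pi fun n => trn c k (n - k)) := by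
    ext x
    rcases x with i | e
    · simp only [MonoidHom.comp_apply, stage_inl]
      rw [germ, lift_l]
      refine Filter.Germ.coe_eq.2 (Filter.Eventually.of_forall fun n => ?_)
      have := trn_map_inl c k (n - k) (of i)
      rw [FreeGroup.map.of] at this
      exact this.symm
    · simp only [MonoidHom.comp_apply, stage_inr]
      rw [germ, lift_t]
      rfl
  exact DFunLike.congr_fun h u

theorem stage_injective (k : ℕ) : Function.Injective (stage c k) := by
  intro a b hab
  have h := congrArg (germ c) hab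
  rw [germ_stage, germ_stage, Filter.Germ.coe_eq] at h
  obtain ⟨n, hn⟩ := h.exists
  exact trn_injective c _ _ hn

theorem exists_stage (g : Tel c) : ∃ k u, stage c k u = g := by
  have hg : g ∈ Subgroup.closure (Set.range (l c) ∪ Set.range fun p : Ed × ℕ => t c p.1 p.2) := by
    rw [closure_gen]
    exact Subgroup.mem_top g
  induction hg using Subgroup.closure_induction with
  | mem x hx =>
    rcases hx with ⟨i, rfl⟩ | ⟨⟨e, k⟩, rfl⟩
    · exact ⟨0, of (Sum.inl i), stage_inl c 0 i⟩
    · exact ⟨k, of (Sum.inr e), stage_inr c k e⟩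
  | one => exact ⟨0, 1, map_one _⟩
  | mul x y _ _ hx hy =>
    obtain ⟨k, u, rfl⟩ := hx
    obtain ⟨k', u', rfl⟩ := hy
    refine ⟨k + k', trn c k k' u * trn c k' k u', ?_⟩
    rw [map_mul, stage_trn]
    congr 1
    rw [add_comm k k', stage_trn]
  | inv x _ hx =>
    obtain ⟨k, u, rfl⟩ := hx
    exact ⟨k, u⁻¹, map_inv _ _⟩

/-! ### Functoriality -/

variable {c}
variable {I' Ed' : Type} {c' : Ed' → ℕ → FreeGroup I'}

/-- functoriality -/
def map (f : I → I') (g : Ed → Ed') (h : ∀ e k, c' (g e) k = FreeGroup.map f (c e k)) :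
    Tel c →* Tel c' :=
  lift (fun i => l c' (f i)) (fun e k => t c' (g e) k) (by
    intro e k
    rw [t_succ, h]
    congr 1
    have h3 : (w c').comp (FreeGroup.map f) = FreeGroup.lift (fun i => l c' (f i)) := by
      ext i
      simp
    exact DFunLike.congr_fun h3 (c e k))

@[simp] theorem map_l (f : I → I') (g : Ed → Ed')
    (h : ∀ e k, c' (g e) k = FreeGroup.map f (c e k)) (i : I) :
    map f g h (l c i) = l c' (f i) := lift_l _ _ _ _

@[simp] theorem map_t (f : I → I') (g : Ed → Ed')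
    (h : ∀ e k, c' (g e) k = FreeGroup.map f (c e k)) (e : Ed) (k : ℕ) :
    map f g h (t c e k) = t c' (g e) k := lift_t _ _ _ _ _

theorem map_stage (f : I → I') (g : Ed → Ed')
    (h : ∀ e k, c' (g e) k = FreeGroup.map f (c e k)) (k : ℕ) (u : FreeGroup (I ⊕ Ed)) :
    map f g h (stage c k u) = stage c' k (FreeGroup.map (Sum.map f g) u) := by
  have h3 : (map f g h).comp (stage c k) = (stage c' k).comp (FreeGroup.map (Sum.map f g)) := by
    ext x
    rcases x with i | e
    · simp
    · simp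
  exact DFunLike.congr_fun h3 u

theorem map_injective (f : I → I') (g : Ed → Ed')
    (h : ∀ e k, c' (g e) k = FreeGroup.map f (c e k)) (hf : Function.Injective f)
    (hg : Function.Injective g) : Function.Injective (map f g h) := by
  classical
  rw [injective_iff_map_eq_one]
  intro x hx
  obtain ⟨k, u, rfl⟩ := exists_stage c x
  rw [map_stage] at hx
  have h1 : FreeGroup.map (Sum.map f g) u = 1 := stage_injective c' k (hx.trans (map_one _).symm)
  by_contra hne
  have hu : u ≠ 1 := by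
    rintro rfl
    exact hne (map_one _)
  exact map_ne_one_of_injOn hu _ (fun a _ b _ hab => Function.Injective.sumMap hf hg hab) h1

end Tel

end tel

end MP186633L

/-!
# MP_186633_lc, group part 2: an explicit free basis of the telescope group of a graph in which
every vertex has countably many smaller neighbours

Left vertices `X`, right vertices `Y`, nodes `T`; `rX x k` is the `k`-th node of `x`.  The letters
are `a (x, k, s)` and `b (s, k, y)`; the relation of the edge `e = (x, y)` at level `k` is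
`t e (k+1) ^ 2 = t e k * (a (x, k, rY y k) * b (rX x k, k, y))`.
-/

set_option autoImplicit false

namespace MP186633L

open FreeGroup (of)

section

variable {X Y T Ed : Type}

/-- the letters -/
abbrev Let (X Y T : Type) : Type := (X × ℕ × T) ⊕ (T × ℕ × Y)

/-- the left letter of an edge at level `k` -/
def la (rY : Y → ℕ → T) (src : Ed → X) (tgt : Ed → Y) (e : Ed) (k : ℕ) : Let X Y T :=
  Sum.inl (src e, k, rY (tgt e) k)

/-- the right letter of an edge at level `k` -/
def lb (rX : X → ℕ → T) (src : Ed → X) (tgt : Ed → Y) (e : Ed) (k : ℕ) : Let X Y T :=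
  Sum.inr (rX (src e) k, k, tgt e)

/-- the relation of the edge `e` at level `k` -/
def cc (rX : X → ℕ → T) (rY : Y → ℕ → T) (src : Ed → X) (tgt : Ed → Y) (e : Ed) (k : ℕ) :
    FreeGroup (Let X Y T) :=
  of (la rY src tgt e k) * of (lb rX src tgt e k)

/-- the vertex of a letter -/
def vt : Let X Y T → X ⊕ Y
  | Sum.inl p => Sum.inl p.1
  | Sum.inr p => Sum.inr p.2.2

/-- the data of the explicit basis: the owner (`ow e = true`: the left vertex) of every edge, and
the level `kk e` from which on the letters of the owner are eliminated -/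
structure FreeData (rX : X → ℕ → T) (rY : Y → ℕ → T) (src : Ed → X) (tgt : Ed → Y)
    {O : Type*} [LinearOrder O] (rk : X ⊕ Y → O) (ow : Ed → Bool) (kk : Ed → ℕ) : Prop where
  left : ∀ e, ow e = true → rk (Sum.inr (tgt e)) < rk (Sum.inl (src e))
  right : ∀ e, ow e = false → rk (Sum.inl (src e)) < rk (Sum.inr (tgt e))
  sepL : ∀ e e', ow e = true → ow e' = true → src e = src e' → ∀ k, kk e ≤ k → kk e' ≤ k →
    rY (tgt e) k = rY (tgt e') k → e = e'
  sepR : ∀ e e', ow e = false → ow e' = false → tgt e = tgt e' → ∀ k, kk e ≤ k → kk e' ≤ k →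
    rX (src e) k = rX (src e') k → e = e'

variable (rX : X → ℕ → T) (rY : Y → ℕ → T) (src : Ed → X) (tgt : Ed → Y)

/-- the eliminated letter -/
def el (ow : Ed → Bool) (e : Ed) (k : ℕ) : Let X Y T :=
  if ow e then la rY src tgt e k else lb rX src tgt e k

/-- the other letter -/
def ot (ow : Ed → Bool) (e : Ed) (k : ℕ) : Let X Y T :=
  if ow e then lb rX src tgt e k else la rY src tgt e k

/-- the letter `i` is eliminated -/
def Elim (ow : Ed → Bool) (kk : Ed → ℕ) (i : Let X Y T) : Prop :=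
  ∃ p : Ed × ℕ, kk p.1 ≤ p.2 ∧ el rX rY src tgt ow p.1 p.2 = i

/-- the explicit basis -/
def Bas (ow : Ed → Bool) (kk : Ed → ℕ) : Type :=
  {i : Let X Y T // ¬ Elim rX rY src tgt ow kk i} ⊕ {p : Ed × ℕ // kk p.1 ≤ p.2}

/-- the elements of the explicit basis -/
def basEl (ow : Ed → Bool) (kk : Ed → ℕ) : Bas rX rY src tgt ow kk → Tel (cc rX rY src tgt)
  | Sum.inl i => Tel.l _ i.1
  | Sum.inr p => Tel.t _ p.1.1 p.1.2

variable {O : Type*} [LinearOrder O] [WellFoundedLT O] {rk : X ⊕ Y → O} {ow : Ed → Bool}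
  {kk : Ed → ℕ}

variable {rX rY src tgt}

omit [WellFoundedLT O] in
theorem el_inj (h : FreeData rX rY src tgt rk ow kk) {e e' : Ed} {k k' : ℕ} (hk : kk e ≤ k)
    (hk' : kk e' ≤ k') (he : el rX rY src tgt ow e k = el rX rY src tgt ow e' k') :
    e = e' ∧ k = k' := by
  unfold el la lb at he
  cases h1 : ow e <;> cases h2 : ow e' <;> simp only [h1, h2] at he
  · simp only [Bool.false_eq_true, ↓reduceIte, Sum.inr.injEq, Prod.mk.injEq] at he
    obtain ⟨h3, rfl, h4⟩ := he
    exact ⟨h.sepR e e' h1 h2 h4 k hk hk' h3, rfl⟩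
  · simp at he
  · simp at he
  · simp only [↓reduceIte, Sum.inl.injEq, Prod.mk.injEq] at he
    obtain ⟨h3, rfl, h4⟩ := he
    exact ⟨h.sepL e e' h1 h2 h3 k hk hk' h4, rfl⟩

omit [WellFoundedLT O] in
theorem ot_lt (h : FreeData rX rY src tgt rk ow kk) (e : Ed) (k : ℕ) :
    rk (vt (ot rX rY src tgt ow e k)) < rk (vt (el rX rY src tgt ow e k)) := by
  unfold el ot la lb
  cases h1 : ow e
  · simpa [vt] using h.right e h1
  · simpa [vt] using h.left e h1

section lift

variable {H : Type} [Group H]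

/-- the recursion for the images of the letters -/
noncomputable def imgStep (h : FreeData rX rY src tgt rk ow kk) (f : Let X Y T → H)
    (g : Ed → ℕ → H) (i : Let X Y T) (rec : ∀ j : Let X Y T, rk (vt j) < rk (vt i) → H) : H :=
  open Classical in
  if hi : Elim rX rY src tgt ow kk i then
    (if ow hi.choose.1 then
      (g hi.choose.1 hi.choose.2)⁻¹ * g hi.choose.1 (hi.choose.2 + 1) ^ 2 *
        (rec (ot rX rY src tgt ow hi.choose.1 hi.choose.2)
          (by have := ot_lt h hi.choose.1 hi.choose.2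
              rwa [hi.choose_spec.2] at this))⁻¹
    else
      (rec (ot rX rY src tgt ow hi.choose.1 hi.choose.2)
          (by have := ot_lt h hi.choose.1 hi.choose.2
              rwa [hi.choose_spec.2] at this))⁻¹ *
        ((g hi.choose.1 hi.choose.2)⁻¹ * g hi.choose.1 (hi.choose.2 + 1) ^ 2))
  else f i

/-- the images of the letters -/
noncomputable def img (h : FreeData rX rY src tgt rk ow kk) (f : Let X Y T → H)
    (g : Ed → ℕ → H) : Let X Y T → H :=
  WellFounded.fix (InvImage.wf (fun i => rk (vt i)) (wellFounded_lt (α := O)))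
    (imgStep h f g)

theorem img_eq (h : FreeData rX rY src tgt rk ow kk) (f : Let X Y T → H)
    (g : Ed → ℕ → H) (i : Let X Y T) :
    img h f g i = imgStep h f g i (fun j _ => img h f g j) :=
  WellFounded.fix_eq _ _ _

theorem img_not (h : FreeData rX rY src tgt rk ow kk) (f : Let X Y T → H)
    (g : Ed → ℕ → H) {i : Let X Y T} (hi : ¬ Elim rX rY src tgt ow kk i) :
    img h f g i = f i := by
  rw [img_eq, imgStep, dif_neg hi]

theorem img_el (h : FreeData rX rY src tgt rk ow kk) (f : Let X Y T → H)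
    (g : Ed → ℕ → H) {e : Ed} {k : ℕ} (hk : kk e ≤ k) :
    img h f g (el rX rY src tgt ow e k) =
      if ow e then (g e k)⁻¹ * g e (k + 1) ^ 2 * (img h f g (ot rX rY src tgt ow e k))⁻¹
      else (img h f g (ot rX rY src tgt ow e k))⁻¹ * ((g e k)⁻¹ * g e (k + 1) ^ 2) := by
  have hi : Elim rX rY src tgt ow kk (el rX rY src tgt ow e k) := ⟨(e, k), hk, rfl⟩
  rw [img_eq, imgStep, dif_pos hi]
  obtain ⟨h1, h2⟩ := el_inj h hi.choose_spec.1 hk hi.choose_spec.2
  rw [h1, h2]

/-- the images of the generators `t e k` -/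
noncomputable def tim (h : FreeData rX rY src tgt rk ow kk) (f : Let X Y T → H)
    (g : Ed → ℕ → H) (e : Ed) (k : ℕ) : H :=
  if kk e ≤ k then g e k else tim h f g e (k + 1) ^ 2 *
    (img h f g (la rY src tgt e k) * img h f g (lb rX src tgt e k))⁻¹
  termination_by kk e - k

theorem tim_rel (h : FreeData rX rY src tgt rk ow kk) (f : Let X Y T → H)
    (g : Ed → ℕ → H) (e : Ed) (k : ℕ) :
    tim h f g e (k + 1) ^ 2 = tim h f g e k *
      (img h f g (la rY src tgt e k) * img h f g (lb rX src tgt e k)) := by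
  by_cases hk : kk e ≤ k
  · have h1 : tim h f g e k = g e k := by rw [tim, if_pos hk]
    have h2 : tim h f g e (k + 1) = g e (k + 1) := by rw [tim, if_pos (by omega)]
    rw [h1, h2]
    have h3 := img_el h f g hk
    cases h4 : ow e
    · simp only [el, ot, h4, Bool.false_eq_true, ↓reduceIte] at h3
      rw [h3]
      group
    · simp only [el, ot, h4, ↓reduceIte] at h3
      rw [h3]
      group
  · have h1 : tim h f g e k = tim h f g e (k + 1) ^ 2 *
        (img h f g (la rY src tgt e k) * img h f g (lb rX src tgt e k))⁻¹ := by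
      rw [tim, if_neg hk]
    rw [h1, inv_mul_cancel_right]

theorem tim_rel' (h : FreeData rX rY src tgt rk ow kk) (f : Let X Y T → H)
    (g : Ed → ℕ → H) (e : Ed) (k : ℕ) :
    tim h f g e (k + 1) ^ 2 = tim h f g e k *
      FreeGroup.lift (img h f g) (cc rX rY src tgt e k) := by
  rw [tim_rel]
  simp [cc]

/-- the induced homomorphism -/
noncomputable def liftB (h : FreeData rX rY src tgt rk ow kk) (f : Let X Y T → H)
    (g : Ed → ℕ → H) : Tel (cc rX rY src tgt) →* H :=
  Tel.lift (img h f g) (tim h f g) (tim_rel' h f g)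

end lift

theorem t_succ_cc (e : Ed) (k : ℕ) :
    Tel.t (cc rX rY src tgt) e (k + 1) ^ 2 = Tel.t _ e k *
      (Tel.l _ (la rY src tgt e k) * Tel.l _ (lb rX src tgt e k)) := by
  rw [Tel.t_succ]
  simp [cc]

/-- two homomorphisms which agree on the basis are equal -/
theorem hom_ext_bas (h : FreeData rX rY src tgt rk ow kk) {H : Type*} [Group H]
    {F F' : Tel (cc rX rY src tgt) →* H}
    (hF : ∀ a, F (basEl rX rY src tgt ow kk a) = F' (basEl rX rY src tgt ow kk a)) : F = F' := by
  have hb : ∀ e k, kk e ≤ k → F (Tel.t (cc rX rY src tgt) e k) = F' (Tel.t _ e k) :=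
    fun e k hk => hF (Sum.inr ⟨(e, k), hk⟩)
  have key : ∀ i, F (Tel.l _ i) = F' (Tel.l _ i) := by
    intro i
    induction i using (InvImage.wf (fun i : Let X Y T => rk (vt i))
      (wellFounded_lt (α := O))).induction with
    | h i ih =>
      by_cases hi : Elim rX rY src tgt ow kk i
      · obtain ⟨⟨e, k⟩, hk, rfl⟩ := hi
        have hk : kk e ≤ k := hk
        have h1 := ih _ (ot_lt h e k)
        have h2 := t_succ_cc (rX := rX) (rY := rY) (src := src) (tgt := tgt) e k
        show F (Tel.l _ (el rX rY src tgt ow e k)) = F' (Tel.l _ (el rX rY src tgt ow e k))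
        cases h4 : ow e
        · simp only [el, ot, h4, Bool.false_eq_true, ↓reduceIte] at h1 ⊢
          have h5 : Tel.l (cc rX rY src tgt) (lb rX src tgt e k) =
              (Tel.l _ (la rY src tgt e k))⁻¹ * ((Tel.t _ e k)⁻¹ * Tel.t _ e (k + 1) ^ 2) := by
            rw [h2]
            group
          rw [h5]
          simp only [map_mul, map_inv, map_pow, h1, hb e k hk, hb e (k + 1) (by omega)]
        · simp only [el, ot, h4, ↓reduceIte] at h1 ⊢
          have h5 : Tel.l (cc rX rY src tgt) (la rY src tgt e k) =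
              (Tel.t _ e k)⁻¹ * Tel.t _ e (k + 1) ^ 2 * (Tel.l _ (lb rX src tgt e k))⁻¹ := by
            rw [h2]
            group
          rw [h5]
          simp only [map_mul, map_inv, map_pow, h1, hb e k hk, hb e (k + 1) (by omega)]
      · exact hF (Sum.inl ⟨i, hi⟩)
  refine Tel.hom_ext key fun e k => ?_
  have aux : ∀ n k, kk e ≤ k + n → F (Tel.t _ e k) = F' (Tel.t _ e k) := by
    intro n
    induction n with
    | zero => exact fun k hk => hb e k hk
    | succ n ih =>
      intro k hk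
      have h1 := ih (k + 1) (by omega)
      have h5 : Tel.t (cc rX rY src tgt) e k = Tel.t _ e (k + 1) ^ 2 *
          (Tel.l _ (la rY src tgt e k) * Tel.l _ (lb rX src tgt e k))⁻¹ := by
        rw [t_succ_cc]
        group
      rw [h5]
      simp only [map_mul, map_inv, map_pow, h1, key]
  exact aux (kk e) k (by omega)

/-- **(A1)** the telescope group is free with the explicit basis `basEl` -/
theorem existsUnique_lift (h : FreeData rX rY src tgt rk ow kk) {H : Type} [Group H]
    (f : Bas rX rY src tgt ow kk → H) :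
    ∃! F : Tel (cc rX rY src tgt) →* H, ∀ a, F (basEl rX rY src tgt ow kk a) = f a := by
  classical
  let f1 : Let X Y T → H := fun i =>
    if hi : ¬ Elim rX rY src tgt ow kk i then f (Sum.inl ⟨i, hi⟩) else 1
  let g1 : Ed → ℕ → H := fun e k => if hk : kk e ≤ k then f (Sum.inr ⟨(e, k), hk⟩) else 1
  have hF0 : ∀ a, liftB h f1 g1 (basEl rX rY src tgt ow kk a) = f a := by
    rintro (⟨i, hi⟩ | ⟨⟨e, k⟩, hk⟩)
    · show Tel.lift _ _ _ (Tel.l _ i) = _
      rw [Tel.lift_l, img_not h f1 g1 hi]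
      simp only [f1, dif_pos hi]
    · show Tel.lift _ _ _ (Tel.t _ e k) = _
      have hk' : kk e ≤ k := hk
      rw [Tel.lift_t, tim, if_pos hk']
      simp only [g1, dif_pos hk']
  exact ⟨liftB h f1 g1, hF0, fun F hF => hom_ext_bas h fun a => (hF a).trans (hF0 a).symm⟩

theorem isFreeGroup_tel (h : FreeData rX rY src tgt rk ow kk) :
    IsFreeGroup (Tel (cc rX rY src tgt)) :=
  IsFreeGroup.ofUniqueLift (Bas rX rY src tgt ow kk) (basEl rX rY src tgt ow kk)
    fun f => existsUnique_lift h f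

/-! ### Existence of the level function -/

/-- separation of the nodes -/
def Sep (r : X → ℕ → T) : Prop := ∀ x x', x ≠ x' → ∃ n, ∀ k ≥ n, r x k ≠ r x' k

omit [WellFoundedLT O] in
/-- if all vertices have countably many smaller neighbours then there is a suitable `kk` -/
theorem exists_freeData (hX : Sep rX) (hY : Sep rY)
    (hinj : ∀ e e', src e = src e' → tgt e = tgt e' → e = e')
    (hne : ∀ e, rk (Sum.inl (src e)) ≠ rk (Sum.inr (tgt e)))
    (hcX : ∀ x, {e | src e = x ∧ rk (Sum.inr (tgt e)) < rk (Sum.inl x)}.Countable)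
    (hcY : ∀ y, {e | tgt e = y ∧ rk (Sum.inl (src e)) < rk (Sum.inr y)}.Countable) :
    ∃ (ow : Ed → Bool) (kk : Ed → ℕ), FreeData rX rY src tgt rk ow kk := by
  classical
  let ow : Ed → Bool := fun e => decide (rk (Sum.inr (tgt e)) < rk (Sum.inl (src e)))
  have how1 : ∀ e, ow e = true → rk (Sum.inr (tgt e)) < rk (Sum.inl (src e)) :=
    fun e he => of_decide_eq_true he
  have how2 : ∀ e, ow e = false → rk (Sum.inl (src e)) < rk (Sum.inr (tgt e)) :=
    fun e he => lt_of_le_of_ne (not_lt.1 (of_decide_eq_false he)) (hne e)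
  -- enumerate
  have hnX : ∀ x, ∃ f : Ed → ℕ, Set.InjOn f {e | src e = x ∧ ow e = true} := by
    intro x
    have h1 : {e | src e = x ∧ ow e = true}.Countable := by
      refine (hcX x).mono ?_
      rintro e ⟨he1, he2⟩
      refine ⟨he1, ?_⟩
      have := how1 e he2
      rwa [he1] at this
    exact Set.countable_iff_exists_injOn.1 h1
  have hnY : ∀ y, ∃ f : Ed → ℕ, Set.InjOn f {e | tgt e = y ∧ ow e = false} := by
    intro y
    have h1 : {e | tgt e = y ∧ ow e = false}.Countable := by
      refine (hcY y).mono ?_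
      rintro e ⟨he1, he2⟩
      refine ⟨he1, ?_⟩
      have := how2 e he2
      rwa [he1] at this
    exact Set.countable_iff_exists_injOn.1 h1
  choose nX hnX using hnX
  choose nY hnY using hnY
  have hkk : ∀ e, ∃ n, (ow e = true → ∀ e', ow e' = true → src e' = src e →
      nX (src e) e' < nX (src e) e → ∀ k ≥ n, rY (tgt e') k ≠ rY (tgt e) k) ∧
      (ow e = false → ∀ e', ow e' = false → tgt e' = tgt e →
      nY (tgt e) e' < nY (tgt e) e → ∀ k ≥ n, rX (src e') k ≠ rX (src e) k) := by
    intro e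
    cases he : ow e
    · have h1 : {e' | (ow e' = false ∧ tgt e' = tgt e) ∧ nY (tgt e) e' < nY (tgt e) e}.Finite := by
        refine Set.Finite.of_finite_image (f := nY (tgt e))
          ((Set.finite_Iio (nY (tgt e) e)).subset ?_) ?_
        · rintro _ ⟨e', he', rfl⟩
          exact he'.2
        · intro a ha b hb hab
          exact hnY (tgt e) ⟨ha.1.2, ha.1.1⟩ ⟨hb.1.2, hb.1.1⟩ hab
      have h2 : ∀ e', ∃ n, e' ∈ {e' | (ow e' = false ∧ tgt e' = tgt e) ∧
          nY (tgt e) e' < nY (tgt e) e} → ∀ k ≥ n, rX (src e') k ≠ rX (src e) k := by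
        intro e'
        by_cases h3 : src e' = src e
        · refine ⟨0, fun h4 => ?_⟩
          have h5 := hinj e' e h3 h4.1.2
          rw [h5] at h4
          exact absurd h4.2 (lt_irrefl _)
        · obtain ⟨n, hn⟩ := hX _ _ h3
          exact ⟨n, fun _ => hn⟩
      choose N hN using h2
      obtain ⟨M, hM⟩ := (h1.image N).bddAbove
      refine ⟨M, fun h => by simp at h, fun _ e' h3 h4 h5 k hk => ?_⟩
      exact hN e' ⟨⟨h3, h4⟩, h5⟩ k (le_trans (hM ⟨e', ⟨⟨h3, h4⟩, h5⟩, rfl⟩) hk)
    · have h1 : {e' | (ow e' = true ∧ src e' = src e) ∧ nX (src e) e' < nX (src e) e}.Finite := by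
        refine Set.Finite.of_finite_image (f := nX (src e))
          ((Set.finite_Iio (nX (src e) e)).subset ?_) ?_
        · rintro _ ⟨e', he', rfl⟩
          exact he'.2
        · intro a ha b hb hab
          exact hnX (src e) ⟨ha.1.2, ha.1.1⟩ ⟨hb.1.2, hb.1.1⟩ hab
      have h2 : ∀ e', ∃ n, e' ∈ {e' | (ow e' = true ∧ src e' = src e) ∧
          nX (src e) e' < nX (src e) e} → ∀ k ≥ n, rY (tgt e') k ≠ rY (tgt e) k := by
        intro e'
        by_cases h3 : tgt e' = tgt e
        · refine ⟨0, fun h4 => ?_⟩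
          have h5 := hinj e' e h4.1.2 h3
          rw [h5] at h4
          exact absurd h4.2 (lt_irrefl _)
        · obtain ⟨n, hn⟩ := hY _ _ h3
          exact ⟨n, fun _ => hn⟩
      choose N hN using h2
      obtain ⟨M, hM⟩ := (h1.image N).bddAbove
      refine ⟨M, fun _ e' h3 h4 h5 k hk => ?_, fun h => by simp at h⟩
      exact hN e' ⟨⟨h3, h4⟩, h5⟩ k (le_trans (hM ⟨e', ⟨⟨h3, h4⟩, h5⟩, rfl⟩) hk)
  choose kk hkL hkR using hkk
  refine ⟨ow, kk, how1, how2, ?_, ?_⟩
  · intro e e' he he' hs k hk hk' heq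
    rcases lt_trichotomy (nX (src e) e) (nX (src e) e') with h1 | h1 | h1
    · have h2 := hkL e' he' e he hs (by rw [← hs]; exact h1) k hk'
      exact absurd heq h2
    · exact hnX (src e) ⟨rfl, he⟩ ⟨hs.symm, he'⟩ h1
    · have h2 := hkL e he e' he' hs.symm h1 k hk
      exact absurd heq.symm h2
  · intro e e' he he' hs k hk hk' heq
    rcases lt_trichotomy (nY (tgt e) e) (nY (tgt e) e') with h1 | h1 | h1
    · have h2 := hkR e' he' e he hs (by rw [← hs]; exact h1) k hk'
      exact absurd heq h2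
    · exact hnY (tgt e) ⟨rfl, he⟩ ⟨hs.symm, he'⟩ h1
    · have h2 := hkR e he e' he' hs.symm h1 k hk
      exact absurd heq.symm h2

end

end MP186633L

/-!
# MP_186633_lc, group part 3: the group of a relation, and non-freeness
-/

set_option autoImplicit false

namespace MP186633L

open FreeGroup (of)

/-- the first `k` values of `x` -/
def res (x : ℕ → ℕ) (k : ℕ) : List ℕ := (List.range k).map x

section

variable (R : (ℕ → ℕ) → (ℕ → ℕ) → Prop)

/-- the edges -/
def EdR : Type := {p : (ℕ → ℕ) × (ℕ → ℕ) // R p.1 p.2}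

/-- the left endpoint -/
def sR (e : EdR R) : ℕ → ℕ := e.1.1

/-- the right endpoint -/
def tR (e : EdR R) : ℕ → ℕ := e.1.2

/-- the group of the relation `R` -/
abbrev GR : Type := Tel (cc res res (sR R) (tR R))

/-- the letters of `GR R` -/
abbrev lR (i : Let (ℕ → ℕ) (ℕ → ℕ) (List ℕ)) : GR R := Tel.l (cc res res (sR R) (tR R)) i

/-- the edge generators of `GR R` -/
abbrev tE (e : EdR R) (k : ℕ) : GR R := Tel.t (cc res res (sR R) (tR R)) e k

/-- the generators belonging to a set of vertices -/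
def gens (S : Set (ℕ → ℕ)) : Set (GR R) :=
  {g | (∃ x ∈ S, ∃ k s, g = lR R (Sum.inl (x, k, s))) ∨
    (∃ y ∈ S, ∃ k s, g = lR R (Sum.inr (s, k, y))) ∨
    ∃ e : EdR R, sR R e ∈ S ∧ tR R e ∈ S ∧ ∃ k, g = tE R e k}

/-- the subgroup belonging to a set of vertices -/
def Gs (S : Set (ℕ → ℕ)) : Subgroup (GR R) := Subgroup.closure (gens R S)

variable {R}

theorem gens_mono {S S' : Set (ℕ → ℕ)} (h : S ⊆ S') : gens R S ⊆ gens R S' := by
  rintro g (⟨x, hx, k, s, rfl⟩ | ⟨y, hy, k, s, rfl⟩ | ⟨e, h1, h2, k, rfl⟩)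
  · exact Or.inl ⟨x, h hx, k, s, rfl⟩
  · exact Or.inr (Or.inl ⟨y, h hy, k, s, rfl⟩)
  · exact Or.inr (Or.inr ⟨e, h h1, h h2, k, rfl⟩)

theorem Gs_mono {S S' : Set (ℕ → ℕ)} (h : S ⊆ S') : Gs R S ≤ Gs R S' :=
  Subgroup.closure_mono (gens_mono h)

/-- every element belongs to a finite set of vertices -/
theorem exists_suppV (g : GR R) : ∃ S : Set (ℕ → ℕ), S.Finite ∧ g ∈ Gs R S := by
  have hg : g ∈ Subgroup.closure (Set.range (Tel.l (cc res res (sR R) (tR R))) ∪
      Set.range fun p : EdR R × ℕ => Tel.t (cc res res (sR R) (tR R)) p.1 p.2) := by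
    rw [Tel.closure_gen]
    exact Subgroup.mem_top g
  induction hg using Subgroup.closure_induction with
  | mem x hx =>
    rcases hx with ⟨i, rfl⟩ | ⟨⟨e, k⟩, rfl⟩
    · rcases i with ⟨x, k, s⟩ | ⟨s, k, y⟩
      · exact ⟨{x}, Set.finite_singleton x, Subgroup.subset_closure (Or.inl ⟨x, rfl, k, s, rfl⟩)⟩
      · exact ⟨{y}, Set.finite_singleton y,
          Subgroup.subset_closure (Or.inr (Or.inl ⟨y, rfl, k, s, rfl⟩))⟩
    · exact ⟨{sR R e, tR R e}, Set.toFinite _, Subgroup.subset_closure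
        (Or.inr (Or.inr ⟨e, Or.inl rfl, Or.inr rfl, k, rfl⟩))⟩
  | one => exact ⟨∅, Set.finite_empty, Subgroup.one_mem _⟩
  | mul x y _ _ hx hy =>
    obtain ⟨S, hS, hxS⟩ := hx
    obtain ⟨S', hS', hyS⟩ := hy
    exact ⟨S ∪ S', hS.union hS', Subgroup.mul_mem _ (Gs_mono Set.subset_union_left hxS)
      (Gs_mono Set.subset_union_right hyS)⟩
  | inv x _ hx =>
    obtain ⟨S, hS, hxS⟩ := hx
    exact ⟨S, hS, Subgroup.inv_mem _ hxS⟩

/-- a free group is generated by its basis -/
theorem closure_range_basis {G : Type} [Group G] [IsFreeGroup G] :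
    Subgroup.closure (Set.range (IsFreeGroup.of (G := G))) = ⊤ := by
  set H : Subgroup G := Subgroup.closure (Set.range (IsFreeGroup.of (G := G))) with hH
  let F : G →* H := IsFreeGroup.lift fun b => ⟨IsFreeGroup.of b, Subgroup.subset_closure ⟨b, rfl⟩⟩
  have h : H.subtype.comp F = MonoidHom.id G := by
    refine IsFreeGroup.ext_hom fun b => ?_
    simp only [MonoidHom.comp_apply, F, IsFreeGroup.lift_of]
    rfl
  rw [eq_top_iff]
  intro g _
  have h1 := DFunLike.congr_fun h g
  have h2 : (F g : G) = g := h1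
  rw [← h2]
  exact (F g).2

theorem exists_suppX {G : Type} [Group G] [IsFreeGroup G] (g : G) :
    ∃ S : Set (IsFreeGroup.Generators G), S.Finite ∧
      g ∈ Subgroup.closure (IsFreeGroup.of '' S) := by
  have hg : g ∈ Subgroup.closure (Set.range (IsFreeGroup.of (G := G))) := by
    rw [closure_range_basis]
    exact Subgroup.mem_top g
  induction hg using Subgroup.closure_induction with
  | mem x hx =>
    obtain ⟨b, rfl⟩ := hx
    exact ⟨{b}, Set.finite_singleton b, Subgroup.subset_closure ⟨b, rfl, rfl⟩⟩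
  | one => exact ⟨∅, Set.finite_empty, Subgroup.one_mem _⟩
  | mul x y _ _ hx hy =>
    obtain ⟨S, hS, hxS⟩ := hx
    obtain ⟨S', hS', hyS⟩ := hy
    exact ⟨S ∪ S', hS.union hS', Subgroup.mul_mem _
      (Subgroup.closure_mono (Set.image_mono Set.subset_union_left) hxS)
      (Subgroup.closure_mono (Set.image_mono Set.subset_union_right) hyS)⟩
  | inv x _ hx =>
    obtain ⟨S, hS, hxS⟩ := hx
    exact ⟨S, hS, Subgroup.inv_mem _ hxS⟩

/-- the generators belonging to a pair of vertices -/
def gen2 (x y : ℕ → ℕ) : Set (GR R) :=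
  (Set.range fun p : ℕ × List ℕ => lR R (Sum.inl (x, p.1, p.2))) ∪
  (Set.range fun p : ℕ × List ℕ => lR R (Sum.inr (p.2, p.1, y))) ∪
  {g | ∃ (h : R x y) (k : ℕ), g = tE R ⟨(x, y), h⟩ k}

theorem countable_gen2 (x y : ℕ → ℕ) : (gen2 (R := R) x y).Countable := by
  refine ((Set.countable_range _).union (Set.countable_range _)).union ?_
  by_cases h : R x y
  · refine (Set.countable_range fun k => tE R ⟨(x, y), h⟩ k).mono ?_
    rintro g ⟨_, k, rfl⟩
    exact ⟨k, rfl⟩
  · refine (Set.countable_empty).mono ?_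
    rintro g ⟨h', _⟩
    exact absurd h' h

theorem gens_gen2 {S : Set (ℕ → ℕ)} {g : GR R} (hg : g ∈ gens R S) :
    ∃ x ∈ S, ∃ y ∈ S, g ∈ gen2 (R := R) x y := by
  rcases hg with ⟨x, hx, k, s, rfl⟩ | ⟨y, hy, k, s, rfl⟩ | ⟨e, h1, h2, k, rfl⟩
  · exact ⟨x, hx, x, hx, Or.inl (Or.inl ⟨(k, s), rfl⟩)⟩
  · exact ⟨y, hy, y, hy, Or.inl (Or.inr ⟨(k, s), rfl⟩)⟩
  · exact ⟨_, h1, _, h2, Or.inr ⟨e.2, k, rfl⟩⟩

/-- if `GR R` is free then there is a function such that for all sets `Z` closed under it, `Gs Z` is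
generated by elements of the basis -/
theorem exists_closure_fun [IsFreeGroup (GR R)] :
    ∃ F : (ℕ → ℕ) → (ℕ → ℕ) → ℕ → (ℕ → ℕ), ∀ Z : Set (ℕ → ℕ),
      (∀ x ∈ Z, ∀ y ∈ Z, ∀ n, F x y n ∈ Z) →
      Gs R Z ≤ Subgroup.closure (IsFreeGroup.of '' {b | IsFreeGroup.of b ∈ Gs R Z}) := by
  classical
  choose sV hsV hsV' using exists_suppV (R := R)
  choose sX hsX hsX' using exists_suppX (G := GR R)
  let W : (ℕ → ℕ) → (ℕ → ℕ) → Set (ℕ → ℕ) := fun x y =>
    insert x (⋃ g ∈ gen2 (R := R) x y, ⋃ b ∈ sX g, sV (IsFreeGroup.of b))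
  have hW : ∀ x y, (W x y).Countable := by
    intro x y
    refine Set.Countable.insert _ ?_
    refine (countable_gen2 x y).biUnion fun g _ => ?_
    exact (hsX g).countable.biUnion fun b _ => (hsV _).countable
  have hF : ∀ x y, ∃ f : ℕ → (ℕ → ℕ), W x y = Set.range f := fun x y =>
    (hW x y).exists_eq_range ⟨x, Set.mem_insert _ _⟩
  choose F hF using hF
  refine ⟨F, fun Z hZ => ?_⟩
  rw [Gs, Subgroup.closure_le]
  intro g hg
  obtain ⟨x, hx, y, hy, hxy⟩ := gens_gen2 hg
  refine Subgroup.closure_mono (Set.image_mono ?_) (hsX' g)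
  intro b hb
  refine Gs_mono ?_ (hsV' (IsFreeGroup.of b))
  intro v hv
  have h1 : v ∈ W x y := by
    refine Set.mem_insert_of_mem _ ?_
    simp only [Set.mem_iUnion]
    exact ⟨g, hxy, b, hb, hv⟩
  rw [hF] at h1
  obtain ⟨n, rfl⟩ := h1
  exact hZ x hx y hy n

/-- the closure of a point under a function -/
def iterC (F : (ℕ → ℕ) → (ℕ → ℕ) → ℕ → (ℕ → ℕ)) (b : ℕ → ℕ) : ℕ → Set (ℕ → ℕ)
  | 0 => {b}
  | n + 1 => iterC F b n ∪ {z | ∃ x ∈ iterC F b n, ∃ y ∈ iterC F b n, ∃ k, z = F x y k}

theorem exists_countable_closed (F : (ℕ → ℕ) → (ℕ → ℕ) → ℕ → (ℕ → ℕ)) (b : ℕ → ℕ) :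
    ∃ C : Set (ℕ → ℕ), C.Countable ∧ b ∈ C ∧ ∀ x ∈ C, ∀ y ∈ C, ∀ n, F x y n ∈ C := by
  have hmono : Monotone (iterC F b) := monotone_nat_of_le_succ fun n => Set.subset_union_left
  refine ⟨⋃ n, iterC F b n, Set.countable_iUnion fun n => ?_, Set.mem_iUnion.2 ⟨0, rfl⟩, ?_⟩
  · induction n with
    | zero => exact Set.countable_singleton b
    | succ n ih =>
      refine ih.union ?_
      have h1 : {z | ∃ x ∈ iterC F b n, ∃ y ∈ iterC F b n, ∃ k, z = F x y k} ⊆
          ⋃ x ∈ iterC F b n, ⋃ y ∈ iterC F b n, Set.range (F x y) := by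
        rintro z ⟨x, hx, y, hy, k, rfl⟩
        simp only [Set.mem_iUnion]
        exact ⟨x, hx, y, hy, k, rfl⟩
      exact (ih.biUnion fun x _ => ih.biUnion fun y _ => Set.countable_range _).mono h1
  · intro x hx y hy n
    obtain ⟨i, hi⟩ := Set.mem_iUnion.1 hx
    obtain ⟨j, hj⟩ := Set.mem_iUnion.1 hy
    exact Set.mem_iUnion.2 ⟨max i j + 1, Or.inr ⟨x, hmono (le_max_left i j) hi, y,
      hmono (le_max_right i j) hj, n, rfl⟩⟩

open Classical in
/-- the homomorphism to the rationals given by an edge -/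
noncomputable def chi (e₀ : EdR R) : GR R →* Multiplicative ℚ :=
  Tel.lift (fun _ => 1) (fun e k => if e = e₀ then Multiplicative.ofAdd ((1 / 2 : ℚ) ^ k) else 1)
    (by
      intro e k
      have h1 : FreeGroup.lift (fun _ : Let (ℕ → ℕ) (ℕ → ℕ) (List ℕ) => (1 : Multiplicative ℚ))
          (cc res res (sR R) (tR R) e k) = 1 := by
        simp [cc]
      rw [h1, mul_one]
      by_cases he : e = e₀
      · rw [if_pos he, if_pos he, ← ofAdd_nsmul]
        congr 1
        rw [pow_succ, nsmul_eq_mul]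
        push_cast
        ring
      · rw [if_neg he, if_neg he, one_pow])

theorem chi_l (e₀ : EdR R) (i : Let (ℕ → ℕ) (ℕ → ℕ) (List ℕ)) : chi e₀ (lR R i) = 1 :=
  Tel.lift_l _ _ _ _

open Classical in
theorem chi_t (e₀ e : EdR R) (k : ℕ) : chi e₀ (tE R e k) =
    if e = e₀ then Multiplicative.ofAdd ((1 / 2 : ℚ) ^ k) else 1 :=
  Tel.lift_t _ _ _ _ _

theorem chi_Gs (e₀ : EdR R) {S : Set (ℕ → ℕ)} (h : ¬ (sR R e₀ ∈ S ∧ tR R e₀ ∈ S)) :
    Gs R S ≤ (chi e₀).ker := by
  classical
  rw [Gs, Subgroup.closure_le]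
  rintro g (⟨x, hx, k, s, rfl⟩ | ⟨y, hy, k, s, rfl⟩ | ⟨e, h1, h2, k, rfl⟩)
  · exact chi_l _ _
  · exact chi_l _ _
  · have he : e ≠ e₀ := by
      rintro rfl
      exact h ⟨h1, h2⟩
    show chi e₀ (tE R e k) = 1
    rw [chi_t, if_neg he]

/-- **(A2)** -/
theorem not_isFreeGroup_GR (h2 : F2 R) : ¬ IsFreeGroup (GR R) := by
  classical
  intro hfree
  obtain ⟨F, hF⟩ := exists_closure_fun (R := R)
  obtain ⟨Z, b, hZ, hbZ, hunc⟩ := h2 F
  obtain ⟨C, hC, hbC, hCF⟩ := exists_countable_closed F b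
  obtain ⟨x, ⟨hxZ, hxb⟩, hxC⟩ : ∃ x, x ∈ {a : ℕ → ℕ | a ∈ Z ∧ R a b} ∧ x ∉ C := by
    by_contra hcon
    push Not at hcon
    exact hunc (hC.mono hcon)
  let e₀ : EdR R := ⟨(x, b), hxb⟩
  have hZ' := hF Z hZ
  have hC' := hF C hCF
  let X1 : Set (IsFreeGroup.Generators (GR R)) :=
    {a | IsFreeGroup.of a ∈ Gs R Z ∨ IsFreeGroup.of a ∈ Gs R C}
  let π : GR R →* Multiplicative (IsFreeGroup.Generators (GR R) →₀ ℤ) :=
    IsFreeGroup.lift fun a => if a ∈ X1 then 1 else Multiplicative.ofAdd (Finsupp.single a 1)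
  let χ' : Multiplicative (IsFreeGroup.Generators (GR R) →₀ ℤ) →* Multiplicative ℚ :=
    AddMonoidHom.toMultiplicative
      (Finsupp.liftAddHom fun a => (zmultiplesHom ℚ) (Multiplicative.toAdd
        (chi e₀ (IsFreeGroup.of a))))
  have hkZ : Gs R Z ≤ (chi e₀).ker := chi_Gs e₀ fun h => hbZ h.2
  have hkC : Gs R C ≤ (chi e₀).ker := chi_Gs e₀ fun h => hxC h.1
  have hχ : χ'.comp π = chi e₀ := by
    refine IsFreeGroup.ext_hom fun a => ?_
    simp only [MonoidHom.comp_apply, π, IsFreeGroup.lift_of]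
    by_cases ha : a ∈ X1
    · rw [if_pos ha, map_one]
      rcases ha with ha | ha
      · exact (hkZ ha).symm
      · exact (hkC ha).symm
    · rw [if_neg ha]
      simp only [χ', AddMonoidHom.toMultiplicative_apply_apply, toAdd_ofAdd,
        Finsupp.liftAddHom_apply_single, zmultiplesHom_apply, one_smul, ofAdd_toAdd]
  have hπ1 : ∀ a, a ∈ X1 → π (IsFreeGroup.of a) = 1 := by
    intro a ha
    simp only [π, IsFreeGroup.lift_of, if_pos ha]
  have hπZ : Gs R Z ≤ π.ker := by
    refine hZ'.trans ?_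
    rw [Subgroup.closure_le]
    rintro _ ⟨a, ha, rfl⟩
    exact hπ1 a (Or.inl ha)
  have hπC : Gs R C ≤ π.ker := by
    refine hC'.trans ?_
    rw [Subgroup.closure_le]
    rintro _ ⟨a, ha, rfl⟩
    exact hπ1 a (Or.inr ha)
  have hstep : ∀ k, π (tE R e₀ (k + 1)) ^ 2 = π (tE R e₀ k) := by
    intro k
    have h3 := congrArg π (t_succ_cc (rX := res) (rY := res) (src := sR R) (tgt := tR R) e₀ k)
    rw [map_pow, map_mul, map_mul] at h3
    have h4 : π (Tel.l _ (la res (sR R) (tR R) e₀ k)) = 1 :=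
      hπZ (Subgroup.subset_closure (Or.inl ⟨x, hxZ, k, _, rfl⟩))
    have h5 : π (Tel.l _ (lb res (sR R) (tR R) e₀ k)) = 1 :=
      hπC (Subgroup.subset_closure (Or.inr (Or.inl ⟨b, hbC, k, _, rfl⟩)))
    rw [h4, h5, mul_one, mul_one] at h3
    exact h3
  have hpow : ∀ k, π (tE R e₀ k) ^ (2 ^ k) = π (tE R e₀ 0) := by
    intro k
    induction k with
    | zero => rw [pow_zero, pow_one]
    | succ k ih => rw [pow_succ, mul_comm, pow_mul, hstep, ih]
  have hzero : π (tE R e₀ 0) = 1 := by
    refine Multiplicative.toAdd.injective ?_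
    rw [toAdd_one]
    ext a
    have h6 : ∀ k : ℕ, (2 : ℤ) ^ k ∣ (Multiplicative.toAdd (π (tE R e₀ 0))) a := by
      intro k
      rw [← hpow k, toAdd_pow, Finsupp.smul_apply, nsmul_eq_mul]
      push_cast
      exact dvd_mul_right _ _
    by_contra hne
    have h7 := Int.natAbs_le_of_dvd_ne_zero (h6 (Int.natAbs
      ((Multiplicative.toAdd (π (tE R e₀ 0))) a))) hne
    rw [Int.natAbs_pow] at h7
    have h8 := Nat.lt_pow_self (n := Int.natAbs
      ((Multiplicative.toAdd (π (tE R e₀ 0))) a)) (a := 2) (by norm_num)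
    have h9 : Int.natAbs 2 = 2 := rfl
    rw [h9] at h7
    omega
  have h10 := DFunLike.congr_fun hχ (tE R e₀ 0)
  rw [MonoidHom.comp_apply, hzero, map_one, chi_t, if_pos rfl, pow_zero] at h10
  have h11 := congrArg Multiplicative.toAdd h10
  rw [toAdd_one, toAdd_ofAdd] at h11
  exact zero_ne_one h11

end

end MP186633L

/-!
# MP_186633_lc, group part 4: small subgroups are free
-/

set_option autoImplicit false

namespace MP186633L

open FreeGroup (of)
open Cardinal

theorem res_getElem? (x : ℕ → ℕ) {k n : ℕ} (h : n < k) : (res x k)[n]? = some (x n) := by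
  rw [res, List.getElem?_map, List.getElem?_range h]
  rfl

theorem sep_res : Sep res := by
  intro x x' hne
  obtain ⟨n, hn⟩ := Function.ne_iff.1 hne
  refine ⟨n + 1, fun k hk he => hn ?_⟩
  have h1 : (res x k)[n]? = (res x' k)[n]? := by rw [he]
  rw [res_getElem? x (by omega), res_getElem? x' (by omega)] at h1
  exact Option.some.inj h1

section

variable (R : (ℕ → ℕ) → (ℕ → ℕ) → Prop) (Z : Set (ℕ → ℕ))

/-- the nodes of the points of `Z` -/
def rZ (z : Z) (k : ℕ) : List ℕ := res z.1 k

/-- the edges in `Z` -/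
def EdZ : Type := {p : Z × Z // R p.1.1 p.2.1}

/-- the left endpoint -/
def sZ (e : EdZ R Z) : Z := e.1.1

/-- the right endpoint -/
def tZ (e : EdZ R Z) : Z := e.1.2

/-- inclusion of letters -/
def iL : Let Z Z (List ℕ) → Let (ℕ → ℕ) (ℕ → ℕ) (List ℕ) :=
  Sum.map (Prod.map Subtype.val id) (Prod.map id (Prod.map id Subtype.val))

/-- inclusion of edges -/
def iE (e : EdZ R Z) : EdR R := ⟨(e.1.1.1, e.1.2.1), e.2⟩

theorem iL_injective : Function.Injective (iL Z) := by
  refine Function.Injective.sumMap ?_ ?_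
  · exact Function.Injective.prodMap Subtype.val_injective Function.injective_id
  · exact Function.Injective.prodMap Function.injective_id
      (Function.Injective.prodMap Function.injective_id Subtype.val_injective)

theorem iE_injective : Function.Injective (iE R Z) := by
  rintro ⟨⟨x, y⟩, h⟩ ⟨⟨x', y'⟩, h'⟩ he
  have h1 := congrArg Subtype.val he
  simp only [iE, Prod.mk.injEq] at h1
  have h2 : x = x' := Subtype.ext h1.1
  have h3 : y = y' := Subtype.ext h1.2
  subst h2 h3
  rfl

/-- the inclusion of the group of `Z` -/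
def jZ : Tel (cc (rZ Z) (rZ Z) (sZ R Z) (tZ R Z)) →* GR R :=
  Tel.map (iL Z) (iE R Z) (by
    intro e k
    simp [cc, la, lb, iL, sR, tR, iE, sZ, tZ, rZ])

theorem jZ_injective : Function.Injective (jZ R Z) :=
  Tel.map_injective _ _ _ (iL_injective Z) (iE_injective R Z)

theorem Gs_le_range : Gs R Z ≤ (jZ R Z).range := by
  rw [Gs, Subgroup.closure_le]
  rintro g (⟨x, hx, k, s, rfl⟩ | ⟨y, hy, k, s, rfl⟩ | ⟨e, h1, h2, k, rfl⟩)
  · exact ⟨Tel.l _ (Sum.inl (⟨x, hx⟩, k, s)), Tel.map_l _ _ _ _⟩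
  · exact ⟨Tel.l _ (Sum.inr (s, k, ⟨y, hy⟩)), Tel.map_l _ _ _ _⟩
  · exact ⟨Tel.t _ ⟨(⟨sR R e, h1⟩, ⟨tR R e, h2⟩), e.2⟩ k, Tel.map_t _ _ _ _ _⟩

variable {R Z}

theorem isFreeGroup_telZ (κ : Z → Ordinal.{0}) (hκ : Function.Injective κ)
    (hc : ∀ z : Z, {z' : Z | κ z' < κ z ∧ (R z'.1 z.1 ∨ R z.1 z'.1)}.Countable) :
    IsFreeGroup (Tel (cc (rZ Z) (rZ Z) (sZ R Z) (tZ R Z))) := by
  let rk : Z ⊕ Z → Ordinal.{0} ×ₗ Bool :=
    Sum.elim (fun z => toLex (κ z, false)) (fun z => toLex (κ z, true))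
  have hsep : Sep (rZ Z) := by
    intro x x' hne
    exact sep_res x.1 x'.1 fun h => hne (Subtype.ext h)
  have hinj : ∀ e e' : EdZ R Z, sZ R Z e = sZ R Z e' → tZ R Z e = tZ R Z e' → e = e' := by
    rintro ⟨⟨x, y⟩, h⟩ ⟨⟨x', y'⟩, h'⟩ h1 h2
    simp only [sZ, tZ] at h1 h2
    subst h1 h2
    rfl
  have hrl : ∀ x y, rk (Sum.inr y) < rk (Sum.inl x) ↔ κ y < κ x := by
    intro x y
    simp only [rk, Sum.elim_inl, Sum.elim_inr]
    rw [Prod.Lex.toLex_lt_toLex]
    simp
  have hlr : ∀ x y, rk (Sum.inl x) < rk (Sum.inr y) ↔ κ x < κ y ∨ κ x = κ y := by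
    intro x y
    simp only [rk, Sum.elim_inl, Sum.elim_inr]
    rw [Prod.Lex.toLex_lt_toLex]
    simp
  obtain ⟨ow, kk, hfd⟩ := exists_freeData (rX := rZ Z) (rY := rZ Z) (src := sZ R Z)
    (tgt := tZ R Z) (rk := rk) hsep hsep hinj (fun e he => by
      have h1 := congrArg (fun p => (ofLex p).2) he
      simp [rk] at h1) (by
      intro x
      have h1 : Set.MapsTo (tZ R Z) {e | sZ R Z e = x ∧ rk (Sum.inr (tZ R Z e)) < rk (Sum.inl x)}
          {z' : Z | κ z' < κ x ∧ (R z'.1 x.1 ∨ R x.1 z'.1)} := by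
        rintro e ⟨h2, h3⟩
        rw [hrl] at h3
        refine ⟨h3, Or.inr ?_⟩
        rw [← h2]
        exact e.2
      refine Set.MapsTo.countable_of_injOn h1 ?_ (hc x)
      rintro e ⟨h2, -⟩ e' ⟨h3, -⟩ h4
      exact hinj e e' (h2.trans h3.symm) h4) (by
      intro y
      have h1 : Set.MapsTo (sZ R Z) {e | tZ R Z e = y ∧ rk (Sum.inl (sZ R Z e)) < rk (Sum.inr y)}
          ({z' : Z | κ z' < κ y ∧ (R z'.1 y.1 ∨ R y.1 z'.1)} ∪ {y}) := by
        rintro e ⟨h2, h3⟩
        rw [hlr] at h3
        rcases h3 with h3 | h3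
        · refine Or.inl ⟨h3, Or.inl ?_⟩
          rw [← h2]
          exact e.2
        · exact Or.inr (hκ h3)
      refine Set.MapsTo.countable_of_injOn h1 ?_ ((hc y).union (Set.countable_singleton y))
      rintro e ⟨h2, -⟩ e' ⟨h3, -⟩ h4
      exact hinj e e' h4 (h2.trans h3.symm))
  exact isFreeGroup_tel hfd

end

theorem isFreeGroup_of_small {R : (ℕ → ℕ) → (ℕ → ℕ) → Prop} (h1 : F1 R)
    (H : Subgroup (GR R)) (hH : #H < Cardinal.aleph Ordinal.omega0) : IsFreeGroup H := by
  choose sV hsV hsV' using exists_suppV (R := R)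
  let Z : Set (ℕ → ℕ) := ⋃ h : H, sV h.1
  have hal : ℵ₀ < Cardinal.aleph Ordinal.omega0 := by
    rw [← Cardinal.aleph_zero]
    exact Cardinal.aleph_lt_aleph.2 Ordinal.omega0_pos
  have hZ : #Z < Cardinal.aleph Ordinal.omega0 := by
    have h2 : #Z ≤ #H * ⨆ h : H, #(sV h.1) := Cardinal.mk_iUnion_le _
    have h3 : (⨆ h : H, #(sV h.1)) ≤ ℵ₀ :=
      ciSup_le' fun h => (hsV h.1).countable.le_aleph0
    have h4 : #H * (⨆ h : H, #(sV h.1)) ≤ #H * ℵ₀ := by gcongr
    exact (h2.trans h4).trans_lt (Cardinal.mul_lt_of_lt hal.le hH hal)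
  obtain ⟨κ, hκ, hc⟩ := h1 Z hZ
  have hfree : IsFreeGroup (Tel (cc (rZ Z) (rZ Z) (sZ R Z) (tZ R Z))) :=
    isFreeGroup_telZ κ hκ hc
  have hHZ : H ≤ (jZ R Z).range := by
    intro g hg
    refine Gs_le_range R Z (Gs_mono ?_ (hsV' g))
    exact Set.subset_iUnion (fun h : H => sV h.1) ⟨g, hg⟩
  have h5 : IsFreeGroup (Subgroup.comap (jZ R Z) H) := inferInstance
  have h6 : (Subgroup.comap (jZ R Z) H).map (jZ R Z) = H := Subgroup.map_comap_eq_self hHZ
  have h7 : IsFreeGroup ((Subgroup.comap (jZ R Z) H).map (jZ R Z)) :=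
    IsFreeGroup.ofMulEquiv ((Subgroup.comap (jZ R Z) H).equivMapOfInjective _ (jZ_injective R Z))
  rwa [h6] at h7

end MP186633L

/-!
# MP_186633_lc, group part 5: the group of a Borel relation is Borel isomorphic to a group on the
real numbers
-/

set_option autoImplicit false

namespace MP186633L

open FreeGroup (of IsReduced toWord mk_toWord isReduced_toWord)
open Cardinal Set

/-! ### The countable truncated group -/

/-- nodes of nodes -/
def rT (σ : List ℕ) (k : ℕ) : List ℕ := σ.take k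

/-- the truncated group -/
abbrev GT : Type := Tel (cc rT rT (Prod.fst : List ℕ × List ℕ → List ℕ) Prod.snd)

/-- the letters of the truncated group -/
abbrev LT : Type := Let (List ℕ) (List ℕ) (List ℕ) ⊕ List ℕ × List ℕ

theorem countable_freeGroup {α : Type} [Countable α] : Countable (FreeGroup α) := by
  classical
  exact Function.Injective.countable (f := fun w : FreeGroup α => w.toWord)
    FreeGroup.toWord_injective

instance : Countable GT := by
  have h : Countable (FreeGroup (Let (List ℕ) (List ℕ) (List ℕ) ⊕ (List ℕ × List ℕ) × ℕ)) :=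
    countable_freeGroup
  exact (PresentedGroup.mk_surjective _).countable

/-- truncation of the letters -/
def trL (m : ℕ) : Let (ℕ → ℕ) (ℕ → ℕ) (List ℕ) → Let (List ℕ) (List ℕ) (List ℕ)
  | Sum.inl (x, k, s) => Sum.inl (res x m, k, s.take m)
  | Sum.inr (s, k, y) => Sum.inr (s.take m, k, res y m)

theorem take_res (x : ℕ → ℕ) (k m : ℕ) : (res x m).take k = (res x k).take m := by
  simp only [res, ← List.map_take, List.take_range, min_comm]

section

variable (R : (ℕ → ℕ) → (ℕ → ℕ) → Prop)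

/-- truncation of the edges -/
def trE (m : ℕ) (e : EdR R) : List ℕ × List ℕ := (res (sR R e) m, res (tR R e) m)

/-- truncation -/
def trG (m : ℕ) : GR R →* GT :=
  Tel.map (trL m) (trE R m) (by
    intro e k
    simp only [cc, map_mul, FreeGroup.map.of]
    simp only [la, lb, trL, trE, rT, take_res])

/-- all truncations -/
def Th : GR R →* (ℕ → GT) := MonoidHom.pi (trG R)

theorem trL_sep {a b : Let (ℕ → ℕ) (ℕ → ℕ) (List ℕ)} (hab : a ≠ b) :
    ∃ n, ∀ m ≥ n, trL m a ≠ trL m b := by
  rcases a with ⟨x, k, s⟩ | ⟨s, k, y⟩ <;> rcases b with ⟨x', k', s'⟩ | ⟨s', k', y'⟩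
  · by_cases hx : x = x'
    · refine ⟨s.length + s'.length, fun m hm he => hab ?_⟩
      simp only [trL, Sum.inl.injEq, Prod.mk.injEq] at he
      obtain ⟨-, h2, h3⟩ := he
      rw [List.take_of_length_le (by omega), List.take_of_length_le (by omega)] at h3
      rw [hx, h2, h3]
    · obtain ⟨n, hn⟩ := sep_res x x' hx
      refine ⟨n, fun m hm he => hn m hm ?_⟩
      simp only [trL, Sum.inl.injEq, Prod.mk.injEq] at he
      exact he.1
  · exact ⟨0, fun m _ he => by simp [trL] at he⟩
  · exact ⟨0, fun m _ he => by simp [trL] at he⟩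
  · by_cases hy : y = y'
    · refine ⟨s.length + s'.length, fun m hm he => hab ?_⟩
      simp only [trL, Sum.inr.injEq, Prod.mk.injEq] at he
      obtain ⟨h3, h2, -⟩ := he
      rw [List.take_of_length_le (by omega), List.take_of_length_le (by omega)] at h3
      rw [hy, h2, h3]
    · obtain ⟨n, hn⟩ := sep_res y y' hy
      refine ⟨n, fun m hm he => hn m hm ?_⟩
      simp only [trL, Sum.inr.injEq, Prod.mk.injEq] at he
      exact he.2.2

theorem trE_sep {a b : EdR R} (hab : a ≠ b) : ∃ n, ∀ m ≥ n, trE R m a ≠ trE R m b := by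
  by_cases hx : sR R a = sR R b
  · have hy : tR R a ≠ tR R b := fun h => hab (Subtype.ext (Prod.ext hx h))
    obtain ⟨n, hn⟩ := sep_res _ _ hy
    exact ⟨n, fun m hm he => hn m hm (congrArg Prod.snd he)⟩
  · obtain ⟨n, hn⟩ := sep_res _ _ hx
    exact ⟨n, fun m hm he => hn m hm (congrArg Prod.fst he)⟩

/-- truncation of all letters -/
def trA (m : ℕ) : Let (ℕ → ℕ) (ℕ → ℕ) (List ℕ) ⊕ EdR R → LT := Sum.map (trL m) (trE R m)

theorem trA_sep {a b : Let (ℕ → ℕ) (ℕ → ℕ) (List ℕ) ⊕ EdR R} (hab : a ≠ b) :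
    ∃ n, ∀ m ≥ n, trA R m a ≠ trA R m b := by
  rcases a with a | a <;> rcases b with b | b
  · obtain ⟨n, hn⟩ := trL_sep (a := a) (b := b) fun h => hab (by rw [h])
    exact ⟨n, fun m hm he => hn m hm (Sum.inl_injective he)⟩
  · exact ⟨0, fun m _ he => by simp [trA] at he⟩
  · exact ⟨0, fun m _ he => by simp [trA] at he⟩
  · obtain ⟨n, hn⟩ := trE_sep R (a := a) (b := b) fun h => hab (by rw [h])
    exact ⟨n, fun m hm he => hn m hm (Sum.inr_injective he)⟩

theorem exists_sep_list {α β : Type} (f : ℕ → α → β)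
    (hf : ∀ a b, a ≠ b → ∃ n, ∀ m ≥ n, f m a ≠ f m b) (L : List α) :
    ∃ n, ∀ m ≥ n, ∀ a ∈ L, ∀ b ∈ L, f m a = f m b → a = b := by
  classical
  have h : ∀ p : α × α, ∃ n, ∀ m ≥ n, f m p.1 = f m p.2 → p.1 = p.2 := by
    intro p
    by_cases hp : p.1 = p.2
    · exact ⟨0, fun _ _ _ => hp⟩
    · obtain ⟨n, hn⟩ := hf _ _ hp
      exact ⟨n, fun m hm he => absurd he (hn m hm)⟩
  choose N hN using h
  refine ⟨(L.toFinset ×ˢ L.toFinset).sup N, fun m hm a ha b hb he => ?_⟩
  refine hN (a, b) m (le_trans ?_ hm) he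
  exact Finset.le_sup (f := N) (Finset.mem_product.2
    ⟨List.mem_toFinset.2 ha, List.mem_toFinset.2 hb⟩)

theorem trG_stage (m k : ℕ) (u : FreeGroup (Let (ℕ → ℕ) (ℕ → ℕ) (List ℕ) ⊕ EdR R)) :
    trG R m (Tel.stage _ k u) = Tel.stage _ k (FreeGroup.map (trA R m) u) :=
  Tel.map_stage _ _ _ _ _

theorem Th_injective : Function.Injective (Th R) := by
  classical
  rw [injective_iff_map_eq_one]
  intro x hx
  obtain ⟨k, u, rfl⟩ := Tel.exists_stage _ x
  obtain ⟨n, hn⟩ := exists_sep_list (trA R) (fun a b hab => trA_sep R hab)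
    (u.toWord.map Prod.fst)
  have h1 : trG R n (Tel.stage _ k u) = 1 := congrFun hx n
  rw [trG_stage] at h1
  have h2 : FreeGroup.map (trA R n) u = 1 :=
    Tel.stage_injective _ k (h1.trans (map_one _).symm)
  by_contra hne
  have hu : u ≠ 1 := by
    rintro rfl
    exact hne (map_one _)
  refine map_ne_one_of_injOn hu _ (fun a ha b hb hab => ?_) h2
  exact hn n le_rfl a.1 (List.mem_map_of_mem ha) b.1 (List.mem_map_of_mem hb) hab

end

/-! ### Codes of letters -/

local instance : MeasurableSpace (List ℕ) := ⊤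
local instance : MeasurableSpace GT := ⊤
local instance : MeasurableSpace LT := ⊤

/-- codes of letters -/
abbrev Cd : Type := ℕ × (ℕ → ℕ) × (ℕ → ℕ) × ℕ × List ℕ

/-- truncated decoding -/
def dec (m : ℕ) (c : Cd) : LT :=
  if c.1 = 0 then Sum.inl (Sum.inl (res c.2.1 m, c.2.2.2.1, c.2.2.2.2.take m))
  else if c.1 = 1 then Sum.inl (Sum.inr (c.2.2.2.2.take m, c.2.2.2.1, res c.2.2.1 m))
  else Sum.inr (res c.2.1 m, res c.2.2.1 m)

theorem measurable_res (m : ℕ) : Measurable fun x : ℕ → ℕ => res x m := by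
  have h : (fun x : ℕ → ℕ => res x m) =
      (fun f : Fin m → ℕ => List.ofFn f) ∘ fun x : ℕ → ℕ => fun i : Fin m => x i := by
    funext x
    simp only [Function.comp_apply, res]
    apply List.ext_getElem
    · simp
    · intro i h1 h2
      simp
  rw [h]
  exact (measurable_of_countable _).comp (measurable_pi_lambda _ fun i => measurable_pi_apply _)

theorem measurable_dec (m : ℕ) : Measurable (dec m) := by
  have h : dec m = (fun q : ℕ × List ℕ × List ℕ × ℕ × List ℕ =>
      if q.1 = 0 then Sum.inl (Sum.inl (q.2.1, q.2.2.2.1, q.2.2.2.2.take m))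
      else if q.1 = 1 then Sum.inl (Sum.inr (q.2.2.2.2.take m, q.2.2.2.1, q.2.2.1))
      else Sum.inr (q.2.1, q.2.2.1)) ∘ fun c : Cd =>
        (c.1, res c.2.1 m, res c.2.2.1 m, c.2.2.2.1, c.2.2.2.2) := rfl
  rw [h]
  refine (measurable_of_countable _).comp ?_
  refine measurable_fst.prodMk (((measurable_res m).comp (measurable_fst.comp measurable_snd)).prodMk
    (((measurable_res m).comp (measurable_fst.comp (measurable_snd.comp measurable_snd))).prodMk
    ((measurable_fst.comp (measurable_snd.comp (measurable_snd.comp measurable_snd))).prodMk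
    (measurable_snd.comp (measurable_snd.comp (measurable_snd.comp measurable_snd))))))

section

variable (R : (ℕ → ℕ) → (ℕ → ℕ) → Prop)

/-- the code of a letter -/
def cdL : Let (ℕ → ℕ) (ℕ → ℕ) (List ℕ) ⊕ EdR R → Cd
  | Sum.inl (Sum.inl (x, k, s)) => (0, x, 0, k, s)
  | Sum.inl (Sum.inr (s, k, y)) => (1, 0, y, k, s)
  | Sum.inr e => (2, sR R e, tR R e, 0, [])

theorem dec_cdL (m : ℕ) (a : Let (ℕ → ℕ) (ℕ → ℕ) (List ℕ) ⊕ EdR R) :
    dec m (cdL R a) = trA R m a := by
  rcases a with (⟨x, k, s⟩ | ⟨s, k, y⟩) | e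
  · rfl
  · rfl
  · rfl

theorem cdL_injective : Function.Injective (cdL R) := by
  rintro ((⟨x, k, s⟩ | ⟨s, k, y⟩) | e) ((⟨x', k', s'⟩ | ⟨s', k', y'⟩) | e') h
  · simp only [cdL, Prod.mk.injEq, true_and] at h
    rw [h.1, h.2.1, h.2.2]
  · simp [cdL] at h
  · simp [cdL] at h
  · simp [cdL] at h
  · simp only [cdL, Prod.mk.injEq, true_and] at h
    rw [h.1, h.2.1, h.2.2]
  · simp [cdL] at h
  · simp [cdL] at h
  · simp [cdL] at h
  · simp only [cdL, Prod.mk.injEq, true_and, and_true] at h
    have : e = e' := Subtype.ext (Prod.ext h.1 h.2)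
    rw [this]

theorem measurableSet_range_cdL (hR : BorelRel R) : MeasurableSet (range (cdL R)) := by
  have h : range (cdL R) = ({c : Cd | c.1 = 0} ∩ {c : Cd | c.2.2.1 = 0}) ∪
      (({c : Cd | c.1 = 1} ∩ {c : Cd | c.2.1 = 0}) ∪
      ({c : Cd | c.1 = 2} ∩ ({c : Cd | (c.2.2.2.1, c.2.2.2.2) = ((0 : ℕ), ([] : List ℕ))} ∩
        {c : Cd | R c.2.1 c.2.2.1}))) := by
    ext ⟨i, x, y, k, s⟩
    simp only [mem_range, mem_union, mem_inter_iff, mem_ofPred_eq, Prod.mk.injEq]
    constructor
    · rintro ⟨(⟨x', k', s'⟩ | ⟨s', k', y'⟩) | e, he⟩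
      · simp only [cdL, Prod.mk.injEq] at he
        exact Or.inl ⟨he.1.symm, he.2.2.1.symm⟩
      · simp only [cdL, Prod.mk.injEq] at he
        exact Or.inr (Or.inl ⟨he.1.symm, he.2.1.symm⟩)
      · simp only [cdL, Prod.mk.injEq] at he
        refine Or.inr (Or.inr ⟨he.1.symm, ⟨he.2.2.2.1.symm, he.2.2.2.2.symm⟩, ?_⟩)
        rw [← he.2.1, ← he.2.2.1]
        exact e.2
    · rintro (⟨rfl, rfl⟩ | ⟨rfl, rfl⟩ | ⟨rfl, ⟨rfl, rfl⟩, h⟩)
      · exact ⟨Sum.inl (Sum.inl (x, k, s)), rfl⟩
      · exact ⟨Sum.inl (Sum.inr (s, k, y)), rfl⟩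
      · exact ⟨Sum.inr ⟨(x, y), h⟩, rfl⟩
  rw [h]
  have m1 : Measurable fun c : Cd => c.1 := measurable_fst
  have m2 : Measurable fun c : Cd => c.2.1 := measurable_fst.comp measurable_snd
  have m3 : Measurable fun c : Cd => c.2.2.1 :=
    measurable_fst.comp (measurable_snd.comp measurable_snd)
  have m4 : Measurable fun c : Cd => (c.2.2.2.1, c.2.2.2.2) :=
    measurable_snd.comp (measurable_snd.comp measurable_snd)
  refine ((m1 (measurableSet_singleton 0)).inter (m3 (measurableSet_singleton 0))).union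
    (((m1 (measurableSet_singleton 1)).inter (m2 (measurableSet_singleton 0))).union
    ((m1 (measurableSet_singleton 2)).inter ((m4 (measurableSet_singleton (0, []))).inter ?_)))
  exact (m2.prodMk m3) hR

/-- the word map -/
def wmap (n K : ℕ) (w : Fin n → Cd × Bool) : ℕ → GT := fun m =>
  Tel.stage _ K (FreeGroup.mk (List.ofFn fun i => (dec m (w i).1, (w i).2)))

theorem measurable_wmap (n K : ℕ) : Measurable (wmap n K) := by
  refine measurable_pi_lambda _ fun m => ?_
  have h : (fun w : Fin n → Cd × Bool => wmap n K w m) =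
      (fun v : Fin n → LT × Bool => (Tel.stage _ K (FreeGroup.mk (List.ofFn v)) : GT)) ∘
      fun w : Fin n → Cd × Bool => fun i => (dec m (w i).1, (w i).2) := rfl
  rw [h]
  refine (measurable_of_countable _).comp ?_
  refine measurable_pi_lambda _ fun i => ?_
  exact ((measurable_dec m).comp (measurable_fst.comp (measurable_pi_apply i))).prodMk
    (measurable_snd.comp (measurable_pi_apply i))

/-- codes of reduced words -/
def Sred (n : ℕ) : Set (Fin n → Cd × Bool) :=
  {w | (∀ i, (w i).1 ∈ range (cdL R)) ∧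
    ∀ i j : Fin n, (j : ℕ) = i + 1 → (w i).1 = (w j).1 → (w i).2 = (w j).2}

theorem measurableSet_Sred (hR : BorelRel R) (n : ℕ) : MeasurableSet (Sred R n) := by
  have h1 : MeasurableSet {w : Fin n → Cd × Bool | ∀ i, (w i).1 ∈ range (cdL R)} := by
    rw [ofPred_forall]
    exact MeasurableSet.iInter fun i =>
      (measurable_fst.comp (measurable_pi_apply i)) (measurableSet_range_cdL R hR)
  have h2 : MeasurableSet {w : Fin n → Cd × Bool |
      ∀ i j : Fin n, (j : ℕ) = i + 1 → (w i).1 = (w j).1 → (w i).2 = (w j).2} := by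
    rw [ofPred_forall]
    refine MeasurableSet.iInter fun i => ?_
    rw [ofPred_forall]
    refine MeasurableSet.iInter fun j => ?_
    by_cases hij : (j : ℕ) = i + 1
    · have h3 : {w : Fin n → Cd × Bool | (j : ℕ) = i + 1 → (w i).1 = (w j).1 →
          (w i).2 = (w j).2} = {w : Fin n → Cd × Bool | (w i).1 = (w j).1}ᶜ ∪
          {w : Fin n → Cd × Bool | (w i).2 = (w j).2} := by
        ext w
        simp only [mem_ofPred_eq, mem_union, mem_compl_iff, hij, forall_const]
        exact imp_iff_not_or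
      rw [h3]
      refine (measurableSet_eq_fun (measurable_fst.comp (measurable_pi_apply i))
        (measurable_fst.comp (measurable_pi_apply j))).compl.union
        (measurableSet_eq_fun (measurable_snd.comp (measurable_pi_apply i))
        (measurable_snd.comp (measurable_pi_apply j)))
    · have h3 : {w : Fin n → Cd × Bool | (j : ℕ) = i + 1 → (w i).1 = (w j).1 →
          (w i).2 = (w j).2} = Set.univ := by
        ext w
        simp only [mem_ofPred_eq, mem_univ, iff_true]
        exact fun h => absurd h hij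
      rw [h3]
      exact MeasurableSet.univ
  exact h1.inter h2

theorem isReduced_ofFn {α : Type} {n : ℕ} (v : Fin n → α × Bool) :
    IsReduced (List.ofFn v) ↔
      ∀ i j : Fin n, (j : ℕ) = i + 1 → (v i).1 = (v j).1 → (v i).2 = (v j).2 := by
  unfold FreeGroup.IsReduced
  rw [List.isChain_iff_getElem]
  simp only [List.length_ofFn, List.getElem_ofFn]
  constructor
  · intro h i j hij
    obtain ⟨i, hi⟩ := i
    obtain ⟨j, hj⟩ := j
    simp only at hij
    subst hij
    exact h i (by omega)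
  · intro h i hi
    exact h ⟨i, by omega⟩ ⟨i + 1, by omega⟩ rfl

theorem wmap_cdL (n K : ℕ) (v : Fin n → (Let (ℕ → ℕ) (ℕ → ℕ) (List ℕ) ⊕ EdR R) × Bool) :
    wmap n K (fun i => (cdL R (v i).1, (v i).2)) =
      Th R (Tel.stage _ K (FreeGroup.mk (List.ofFn v))) := by
  funext m
  have h1 : Th R (Tel.stage _ K (FreeGroup.mk (List.ofFn v))) m =
      trG R m (Tel.stage _ K (FreeGroup.mk (List.ofFn v))) := rfl
  rw [h1, trG_stage, FreeGroup.map.mk, wmap]
  congr 2
  rw [List.map_ofFn]
  congr 1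
  funext i
  simp [dec_cdL]

theorem exists_of_Sred {n : ℕ} {w : Fin n → Cd × Bool} (hw : w ∈ Sred R n) :
    ∃ v : Fin n → (Let (ℕ → ℕ) (ℕ → ℕ) (List ℕ) ⊕ EdR R) × Bool,
      w = (fun i => (cdL R (v i).1, (v i).2)) ∧ IsReduced (List.ofFn v) := by
  choose a ha using hw.1
  refine ⟨fun i => (a i, (w i).2), ?_, ?_⟩
  · funext i
    exact Prod.ext (ha i).symm rfl
  · rw [isReduced_ofFn]
    intro i j hij he
    refine hw.2 i j hij ?_
    rw [← ha i, ← ha j]
    simp only at he
    rw [he]

theorem injOn_wmap (n K : ℕ) : InjOn (wmap n K) (Sred R n) := by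
  intro w hw w' hw' he
  obtain ⟨v, rfl, hv⟩ := exists_of_Sred R hw
  obtain ⟨v', rfl, hv'⟩ := exists_of_Sred R hw'
  rw [wmap_cdL, wmap_cdL] at he
  have h1 := mk_injOn_isReduced hv hv' (Tel.stage_injective _ K (Th_injective R he))
  rw [List.ofFn_injective h1]

theorem range_Th : range (Th R) = ⋃ K, ⋃ n, wmap n K '' Sred R n := by
  classical
  ext g
  simp only [mem_range, mem_iUnion, mem_image]
  constructor
  · rintro ⟨x, rfl⟩
    obtain ⟨K, u, rfl⟩ := Tel.exists_stage _ x
    have h1 : List.ofFn (fun i : Fin u.toWord.length => u.toWord[i]) = u.toWord :=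
      List.ofFn_getElem
    refine ⟨K, u.toWord.length, fun i => (cdL R (u.toWord[i]).1, (u.toWord[i]).2), ?_, ?_⟩
    · refine ⟨fun i => ⟨_, rfl⟩, fun i j hij he => ?_⟩
      have h2 : IsReduced (List.ofFn (fun i : Fin u.toWord.length => u.toWord[i])) := by
        rw [h1]
        exact isReduced_toWord
      rw [isReduced_ofFn] at h2
      exact h2 i j hij (cdL_injective R he)
    · have h3 := wmap_cdL R u.toWord.length K (fun i => u.toWord[i])
      rw [h3, h1, mk_toWord]
  · rintro ⟨K, n, w, hw, rfl⟩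
    obtain ⟨v, rfl, -⟩ := exists_of_Sred R hw
    exact ⟨_, (wmap_cdL R n K v).symm⟩

theorem measurableSet_range_Th (hR : BorelRel R) : MeasurableSet (range (Th R)) := by
  rw [range_Th]
  refine MeasurableSet.iUnion fun K => MeasurableSet.iUnion fun n => ?_
  exact (measurableSet_Sred R hR n).image_of_measurable_injOn (measurable_wmap n K)
    (injOn_wmap R n K)

end

/-! ### The transfer -/

section

variable {R : (ℕ → ℕ) → (ℕ → ℕ) → Prop}

theorem not_countable_GR : ¬ Countable (GR R) := by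
  intro h
  have h1 : Function.Injective fun x : ℕ → ℕ => lR R (Sum.inl (x, 0, [])) := by
    intro x y hxy
    have h2 : Tel.stage (cc res res (sR R) (tR R)) 0
        (of (Sum.inl (Sum.inl (x, 0, [])))) = Tel.stage (cc res res (sR R) (tR R)) 0
        (of (Sum.inl (Sum.inl (y, 0, [])))) := by
      rw [Tel.stage_inl, Tel.stage_inl]
      exact hxy
    have h3 := FreeGroup.of_injective (Tel.stage_injective _ 0 h2)
    simpa using h3
  have h2 : Countable (ℕ → ℕ) := h1.countable
  have h3 : #(ℕ → ℕ) = 𝔠 := by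
    rw [← Cardinal.power_def, Cardinal.mk_nat, Cardinal.aleph0_power_aleph0]
  have h4 : #(ℕ → ℕ) ≤ ℵ₀ := Cardinal.mk_le_aleph0_iff.2 h2
  rw [h3] at h4
  exact absurd Cardinal.aleph0_lt_continuum (not_lt.2 h4)

theorem transfer (h1 : F1 R) (h2 : F2 R) {S : Type} [MeasurableSpace S]
    (e : S ≃ᵐ (Th R).range) :
    ∃ G : Group S, Measurable (fun p : S × S => G.mul p.1 p.2) ∧
    (∀ H : @Subgroup S G, #H < Cardinal.aleph Ordinal.omega0 → @IsFreeGroup H _) ∧
    ¬ @IsFreeGroup S G := by
  let φ : GR R ≃* (Th R).range := MonoidHom.ofInjective (Th_injective R)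
  let G : Group S := e.toEquiv.group
  let ψ : S ≃* GR R := (e.toEquiv.mulEquiv).trans φ.symm
  refine ⟨G, ?_, ?_, ?_⟩
  · have h3 : (fun p : S × S => G.mul p.1 p.2) = fun p => e.symm (e p.1 * e p.2) := rfl
    rw [h3]
    refine e.symm.measurable.comp ?_
    refine Measurable.subtype_mk (f := fun p : S × S => (e p.1 : ℕ → GT) * (e p.2 : ℕ → GT)) ?_
    refine measurable_pi_lambda _ fun m => ?_
    have h4 : (fun p : S × S => ((e p.1 : ℕ → GT) * (e p.2 : ℕ → GT)) m) =
        (fun q : GT × GT => q.1 * q.2) ∘ fun p : S × S => ((e p.1 : ℕ → GT) m, (e p.2 : ℕ → GT) m) :=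
      rfl
    rw [h4]
    refine (measurable_of_countable _).comp ?_
    have h5 : Measurable fun r : S => (e r : ℕ → GT) m :=
      (measurable_pi_apply m).comp (measurable_subtype_coe.comp e.measurable)
    exact (h5.comp measurable_fst).prodMk (h5.comp measurable_snd)
  · intro H hH
    have h3 : #(H.map ψ.toMonoidHom) < Cardinal.aleph Ordinal.omega0 := by
      refine lt_of_le_of_lt ?_ hH
      exact Cardinal.mk_image_le
    have h4 := isFreeGroup_of_small h1 (H.map ψ.toMonoidHom) h3
    exact IsFreeGroup.ofMulEquiv (H.equivMapOfInjective ψ.toMonoidHom ψ.injective).symm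
  · intro h3
    exact not_isFreeGroup_GR h2 (IsFreeGroup.ofMulEquiv ψ)

/-- **the group part** -/
theorem group_part : GroupPart := by
  intro R hR h1 h2
  have hm := measurableSet_range_Th R hR
  have hD : MeasurableSet ((Th R).range : Set (ℕ → GT)) := by
    have : ((Th R).range : Set (ℕ → GT)) = range (Th R) := MonoidHom.coe_range _
    rw [this]
    exact hm
  have hsb : StandardBorelSpace (Th R).range := hD.standardBorel
  let φ : GR R ≃* (Th R).range := MonoidHom.ofInjective (Th_injective R)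
  have hunc : ¬ Countable (Th R).range := fun h =>
    not_countable_GR (R := R) (φ.toEquiv.countable_iff.2 h)
  have hR' : ¬ Countable ℝ := not_countable
  exact transfer h1 h2 (PolishSpace.measurableEquivOfNotCountable hR' hunc)

end

end MP186633L
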