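import Mathlib
import Pool.Agent.Lib.MP_186633_lc.QG

/-!
# MP_186633_lc: non-freeness, relative version (for the omega-models)
-/

set_option autoImplicit false

namespace MP186633L

open FreeGroup (of)

section

variable {X Y T Ed : Type} (rX : X → ℕ → T) (rY : Y → ℕ → T) (src : Ed → X) (tgt : Ed → Y)

/-- the generators belonging to the sets `SX`, `SY` of vertices -/
def gensS (SX : Set X) (SY : Set Y) : Set (Tel (cc rX rY src tgt)) :=
  {g | (∃ x ∈ SX, ∃ k s, g = Tel.l _ (Sum.inl (x, k, s))) ∨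
    (∃ y ∈ SY, ∃ k s, g = Tel.l _ (Sum.inr (s, k, y))) ∨
    ∃ e : Ed, src e ∈ SX ∧ tgt e ∈ SY ∧ ∃ k, g = Tel.t _ e k}

/-- the subgroup belonging to the sets `SX`, `SY` of vertices -/
def GsS (SX : Set X) (SY : Set Y) : Subgroup (Tel (cc rX rY src tgt)) :=
  Subgroup.closure (gensS rX rY src tgt SX SY)

open Classical in
/-- the homomorphism to the rationals given by an edge -/
noncomputable def chiS (e₀ : Ed) : Tel (cc rX rY src tgt) →* Multiplicative ℚ :=
  Tel.lift (fun _ => 1) (fun e k => if e = e₀ then Multiplicative.ofAdd ((1 / 2 : ℚ) ^ k) else 1)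
    (by
      intro e k
      have h1 : FreeGroup.lift (fun _ : Let X Y T => (1 : Multiplicative ℚ))
          (cc rX rY src tgt e k) = 1 := by
        simp [cc]
      rw [h1, mul_one]
      by_cases he : e = e₀
      · rw [if_pos he, if_pos he, ← ofAdd_nsmul]
        congr 1
        rw [pow_succ, nsmul_eq_mul]
        push_cast
        ring
      · rw [if_neg he, if_neg he, one_pow])

theorem chiS_l (e₀ : Ed) (i : Let X Y T) : chiS rX rY src tgt e₀ (Tel.l _ i) = 1 :=
  Tel.lift_l _ _ _ _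

open Classical in
theorem chiS_t (e₀ e : Ed) (k : ℕ) : chiS rX rY src tgt e₀ (Tel.t _ e k) =
    if e = e₀ then Multiplicative.ofAdd ((1 / 2 : ℚ) ^ k) else 1 :=
  Tel.lift_t _ _ _ _ _

theorem chiS_GsS (e₀ : Ed) {SX : Set X} {SY : Set Y} (h : ¬ (src e₀ ∈ SX ∧ tgt e₀ ∈ SY)) :
    GsS rX rY src tgt SX SY ≤ (chiS rX rY src tgt e₀).ker := by
  classical
  rw [GsS, Subgroup.closure_le]
  rintro g (⟨x, hx, k, s, rfl⟩ | ⟨y, hy, k, s, rfl⟩ | ⟨e, h1, h2, k, rfl⟩)
  · exact chiS_l _ _ _ _ _ _
  · exact chiS_l _ _ _ _ _ _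
  · have he : e ≠ e₀ := by
      rintro rfl
      exact h ⟨h1, h2⟩
    show chiS rX rY src tgt e₀ (Tel.t _ e k) = 1
    rw [chiS_t, if_neg he]

/-- **(A2), relative version**: if `B` is a free basis, the subgroups of `(ZX, ZY)` and `(CX, CY)`
are generated by elements of the basis, then there is no edge from `ZX \ CX` to `CY \ ZY`. -/
theorem no_basis {β : Type} (B : FreeGroupBasis β (Tel (cc rX rY src tgt)))
    {ZX CX : Set X} {ZY CY : Set Y}
    (hZ : GsS rX rY src tgt ZX ZY ≤ Subgroup.closure (Set.range B ∩ GsS rX rY src tgt ZX ZY))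
    (hC : GsS rX rY src tgt CX CY ≤ Subgroup.closure (Set.range B ∩ GsS rX rY src tgt CX CY))
    (e₀ : Ed) (h1 : src e₀ ∈ ZX) (h2 : tgt e₀ ∉ ZY) (h3 : src e₀ ∉ CX) (h4 : tgt e₀ ∈ CY) :
    False := by
  classical
  let χ := chiS rX rY src tgt e₀
  let X1 : Set β := {a | B a ∈ GsS rX rY src tgt ZX ZY ∨ B a ∈ GsS rX rY src tgt CX CY}
  let π : Tel (cc rX rY src tgt) →* Multiplicative (β →₀ ℤ) :=
    B.lift fun a => if a ∈ X1 then 1 else Multiplicative.ofAdd (Finsupp.single a 1)
  have hπ : ∀ a, π (B a) = if a ∈ X1 then 1 else Multiplicative.ofAdd (Finsupp.single a 1) := by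
    intro a
    simp only [π]
    rw [FreeGroupBasis.lift_apply_apply, FreeGroupBasis.repr_apply_coe, FreeGroup.lift_apply_of]
  let χ' : Multiplicative (β →₀ ℤ) →* Multiplicative ℚ :=
    AddMonoidHom.toMultiplicative
      (Finsupp.liftAddHom fun a => (zmultiplesHom ℚ) (Multiplicative.toAdd (χ (B a))))
  have hkZ : GsS rX rY src tgt ZX ZY ≤ χ.ker := chiS_GsS rX rY src tgt e₀ fun h => h2 h.2
  have hkC : GsS rX rY src tgt CX CY ≤ χ.ker := chiS_GsS rX rY src tgt e₀ fun h => h3 h.1
  have hχ : χ'.comp π = χ := by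
    refine B.ext_hom _ _ fun a => ?_
    simp only [MonoidHom.comp_apply, hπ]
    by_cases ha : a ∈ X1
    · rw [if_pos ha, map_one]
      rcases ha with ha | ha
      · exact (hkZ ha).symm
      · exact (hkC ha).symm
    · rw [if_neg ha]
      simp only [χ', AddMonoidHom.toMultiplicative_apply_apply, toAdd_ofAdd,
        Finsupp.liftAddHom_apply_single, zmultiplesHom_apply, one_smul, ofAdd_toAdd]
  have hπZ : GsS rX rY src tgt ZX ZY ≤ π.ker := by
    refine hZ.trans ?_
    rw [Subgroup.closure_le]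
    rintro _ ⟨⟨a, rfl⟩, ha⟩
    show π (B a) = 1
    have ha' : a ∈ X1 := Or.inl ha
    rw [hπ, if_pos ha']
  have hπC : GsS rX rY src tgt CX CY ≤ π.ker := by
    refine hC.trans ?_
    rw [Subgroup.closure_le]
    rintro _ ⟨⟨a, rfl⟩, ha⟩
    show π (B a) = 1
    have ha' : a ∈ X1 := Or.inr ha
    rw [hπ, if_pos ha']
  have hstep : ∀ k, π (Tel.t _ e₀ (k + 1)) ^ 2 = π (Tel.t _ e₀ k) := by
    intro k
    have h5 := congrArg π (t_succ_cc (rX := rX) (rY := rY) (src := src) (tgt := tgt) e₀ k)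
    rw [map_pow, map_mul, map_mul] at h5
    have h6 : π (Tel.l _ (la rY src tgt e₀ k)) = 1 :=
      hπZ (Subgroup.subset_closure (Or.inl ⟨_, h1, k, _, rfl⟩))
    have h7 : π (Tel.l _ (lb rX src tgt e₀ k)) = 1 :=
      hπC (Subgroup.subset_closure (Or.inr (Or.inl ⟨_, h4, k, _, rfl⟩)))
    rw [h6, h7, mul_one, mul_one] at h5
    exact h5
  have hpow : ∀ k, π (Tel.t _ e₀ k) ^ (2 ^ k) = π (Tel.t _ e₀ 0) := by
    intro k
    induction k with
    | zero => rw [pow_zero, pow_one]
    | succ k ih => rw [pow_succ, mul_comm, pow_mul, hstep, ih]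
  have hzero : π (Tel.t _ e₀ 0) = 1 := by
    refine Multiplicative.toAdd.injective ?_
    rw [toAdd_one]
    ext a
    have h6 : ∀ k : ℕ, (2 : ℤ) ^ k ∣ (Multiplicative.toAdd (π (Tel.t _ e₀ 0))) a := by
      intro k
      rw [← hpow k, toAdd_pow, Finsupp.smul_apply, nsmul_eq_mul]
      push_cast
      exact dvd_mul_right _ _
    by_contra hne
    have h7 := Int.natAbs_le_of_dvd_ne_zero (h6 (Int.natAbs
      ((Multiplicative.toAdd (π (Tel.t _ e₀ 0))) a))) hne
    rw [Int.natAbs_pow] at h7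
    have h8 := Nat.lt_pow_self (n := Int.natAbs
      ((Multiplicative.toAdd (π (Tel.t _ e₀ 0))) a)) (a := 2) (by norm_num)
    have h9 : Int.natAbs 2 = 2 := rfl
    rw [h9] at h7
    omega
  have h10 := DFunLike.congr_fun hχ (Tel.t _ e₀ 0)
  rw [MonoidHom.comp_apply, hzero, map_one] at h10
  have h12 : χ (Tel.t _ e₀ 0) = Multiplicative.ofAdd ((1 / 2 : ℚ) ^ 0) := by
    show chiS rX rY src tgt e₀ (Tel.t _ e₀ 0) = _
    rw [chiS_t, if_pos rfl]
  rw [h12, pow_zero] at h10
  have h11 := congrArg Multiplicative.toAdd h10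
  rw [toAdd_one, toAdd_ofAdd] at h11
  exact zero_ne_one h11

end

end MP186633L

/-!
# The group part: the retraction form of the main argument
-/

set_option autoImplicit false

namespace MP186633L

open FreeGroup (of)

/-! ### Two-divisible sequences in free groups -/

/-- in a free commutative-looking subgroup generated by compatible square roots everything is
trivial -/
theorem roots_trivial {G : Type} [Group G] [IsFreeGroup G] (s : ℕ → G)
    (hs : ∀ k, s (k + 1) ^ 2 = s k) : s 0 = 1 := by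
  classical
  have hpow : ∀ j k, s (j + k) ^ (2 ^ k) = s j := by
    intro j k
    induction k with
    | zero => rw [pow_zero, pow_one, add_zero]
    | succ k ih => rw [pow_succ, mul_comm, pow_mul, ← add_assoc, hs, ih]
  have hcomm : ∀ x ∈ Set.range s, ∀ y ∈ Set.range s, x * y = y * x := by
    rintro _ ⟨i, rfl⟩ _ ⟨j, rfl⟩
    have h1 : s i = s (i + j) ^ (2 ^ j) := (hpow i j).symm
    have h2 : s j = s (i + j) ^ (2 ^ i) := by rw [add_comm i j]; exact (hpow j i).symm
    rw [h1, h2]
    exact (Commute.refl (s (i + j))).pow_pow _ _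
  let S : Subgroup G := Subgroup.closure (Set.range s)
  let hS : CommGroup S := Subgroup.closureCommGroupOfComm hcomm
  have hfree : IsFreeGroup S := inferInstance
  let β := IsFreeGroup.Generators S
  let B : FreeGroupBasis β S := IsFreeGroup.basis S
  let π : S →* Multiplicative (β →₀ ℤ) :=
    B.lift fun a => Multiplicative.ofAdd (Finsupp.single a 1)
  have hπ : ∀ a, π (B a) = Multiplicative.ofAdd (Finsupp.single a 1) := by
    intro a
    simp only [π]
    rw [FreeGroupBasis.lift_apply_apply, FreeGroupBasis.repr_apply_coe, FreeGroup.lift_apply_of]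
  let ψ : Multiplicative (β →₀ ℤ) →* Multiplicative (Additive S) :=
    AddMonoidHom.toMultiplicative
      (Finsupp.liftAddHom fun a => (zmultiplesHom (Additive S)) (Additive.ofMul (B a)))
  have hψ : ∀ x : S, ψ (π x) = Multiplicative.ofAdd (Additive.ofMul x) := by
    let θ : S →* Multiplicative (Additive S) :=
      { toFun := fun x => Multiplicative.ofAdd (Additive.ofMul x)
        map_one' := rfl
        map_mul' := fun x y => rfl }
    have h1 : ψ.comp π = θ := by
      refine B.ext_hom _ _ fun a => ?_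
      rw [MonoidHom.comp_apply, hπ]
      simp only [ψ, AddMonoidHom.toMultiplicative_apply_apply, toAdd_ofAdd,
        Finsupp.liftAddHom_apply_single, zmultiplesHom_apply, one_smul]
      rfl
    exact fun x => DFunLike.congr_fun h1 x
  let r : ℕ → S := fun k => ⟨s k, Subgroup.subset_closure ⟨k, rfl⟩⟩
  have hr : ∀ k, r k ^ (2 ^ k) = r 0 := by
    intro k
    refine Subtype.ext ?_
    have := hpow 0 k
    rw [zero_add] at this
    exact this
  have hzero : π (r 0) = 1 := by
    refine Multiplicative.toAdd.injective ?_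
    rw [toAdd_one]
    ext a
    have h6 : ∀ k : ℕ, (2 : ℤ) ^ k ∣ (Multiplicative.toAdd (π (r 0))) a := by
      intro k
      rw [← hr k, map_pow, toAdd_pow, Finsupp.smul_apply, nsmul_eq_mul]
      push_cast
      exact dvd_mul_right _ _
    by_contra hne
    have h7 := Int.natAbs_le_of_dvd_ne_zero (h6 (Int.natAbs
      ((Multiplicative.toAdd (π (r 0))) a))) hne
    rw [Int.natAbs_pow] at h7
    have h8 := Nat.lt_pow_self (n := Int.natAbs
      ((Multiplicative.toAdd (π (r 0))) a)) (a := 2) (by norm_num)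
    have h9 : Int.natAbs 2 = 2 := rfl
    rw [h9] at h7
    omega
  have h10 : r 0 = 1 := by
    have h11 := hψ (r 0)
    rw [hzero, map_one] at h11
    exact (Multiplicative.ofAdd.injective h11).symm
  exact congrArg Subtype.val h10

section

variable {X Y T Ed : Type} (rX : X → ℕ → T) (rY : Y → ℕ → T) (src : Ed → X) (tgt : Ed → Y)

theorem gensS_mono {SX SX' : Set X} {SY SY' : Set Y} (h : SX ⊆ SX') (h' : SY ⊆ SY') :
    gensS rX rY src tgt SX SY ⊆ gensS rX rY src tgt SX' SY' := by
  rintro g (⟨x, hx, k, s, rfl⟩ | ⟨y, hy, k, s, rfl⟩ | ⟨e, h1, h2, k, rfl⟩)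
  · exact Or.inl ⟨x, h hx, k, s, rfl⟩
  · exact Or.inr (Or.inl ⟨y, h' hy, k, s, rfl⟩)
  · exact Or.inr (Or.inr ⟨e, h h1, h' h2, k, rfl⟩)

theorem GsS_mono {SX SX' : Set X} {SY SY' : Set Y} (h : SX ⊆ SX') (h' : SY ⊆ SY') :
    GsS rX rY src tgt SX SY ≤ GsS rX rY src tgt SX' SY' :=
  Subgroup.closure_mono (gensS_mono rX rY src tgt h h')

/-- every element has a finite support -/
theorem exists_suppS (g : Tel (cc rX rY src tgt)) : ∃ (SX : Set X) (SY : Set Y),
    SX.Finite ∧ SY.Finite ∧ g ∈ GsS rX rY src tgt SX SY := by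
  have hg : g ∈ Subgroup.closure (Set.range (Tel.l (cc rX rY src tgt)) ∪
      Set.range fun p : Ed × ℕ => Tel.t (cc rX rY src tgt) p.1 p.2) := by
    rw [Tel.closure_gen]
    exact Subgroup.mem_top g
  induction hg using Subgroup.closure_induction with
  | mem x hx =>
    rcases hx with ⟨i, rfl⟩ | ⟨⟨e, k⟩, rfl⟩
    · rcases i with ⟨x, k, s⟩ | ⟨s, k, y⟩
      · exact ⟨{x}, ∅, Set.finite_singleton x, Set.finite_empty,
          Subgroup.subset_closure (Or.inl ⟨x, rfl, k, s, rfl⟩)⟩
      · exact ⟨∅, {y}, Set.finite_empty, Set.finite_singleton y,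
          Subgroup.subset_closure (Or.inr (Or.inl ⟨y, rfl, k, s, rfl⟩))⟩
    · exact ⟨{src e}, {tgt e}, Set.finite_singleton _, Set.finite_singleton _,
        Subgroup.subset_closure (Or.inr (Or.inr ⟨e, rfl, rfl, k, rfl⟩))⟩
  | one => exact ⟨∅, ∅, Set.finite_empty, Set.finite_empty, Subgroup.one_mem _⟩
  | mul x y _ _ hx hy =>
    obtain ⟨SX, SY, hX, hY, hxS⟩ := hx
    obtain ⟨SX', SY', hX', hY', hyS⟩ := hy
    exact ⟨SX ∪ SX', SY ∪ SY', hX.union hX', hY.union hY', Subgroup.mul_mem _
      (GsS_mono rX rY src tgt Set.subset_union_left Set.subset_union_left hxS)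
      (GsS_mono rX rY src tgt Set.subset_union_right Set.subset_union_right hyS)⟩
  | inv x _ hx =>
    obtain ⟨SX, SY, hX, hY, hxS⟩ := hx
    exact ⟨SX, SY, hX, hY, Subgroup.inv_mem _ hxS⟩

variable {rX rY src tgt}

section sub

variable (rX rY src tgt) (SX : Set X) (SY : Set Y)

/-- the edges between `SX` and `SY` -/
abbrev EdS : Type := {e : Ed // src e ∈ SX ∧ tgt e ∈ SY}

/-- inclusion of letters -/
def iLS : Let SX SY T → Let X Y T :=
  Sum.map (Prod.map Subtype.val id) (Prod.map id (Prod.map id Subtype.val))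

theorem iLS_injective : Function.Injective (iLS (T := T) SX SY) := by
  refine Function.Injective.sumMap ?_ ?_
  · exact Function.Injective.prodMap Subtype.val_injective Function.injective_id
  · exact Function.Injective.prodMap Function.injective_id
      (Function.Injective.prodMap Function.injective_id Subtype.val_injective)

/-- the telescope group of the subsets `SX`, `SY` of vertices -/
abbrev TelS : Type := Tel (cc (fun x : SX => rX x.1) (fun y : SY => rY y.1)
  (fun e : EdS src tgt SX SY => ⟨src e.1, e.2.1⟩) (fun e => ⟨tgt e.1, e.2.2⟩))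

/-- the inclusion of the telescope group of `SX`, `SY` -/
def jS : TelS rX rY src tgt SX SY →* Tel (cc rX rY src tgt) :=
  Tel.map (iLS SX SY) Subtype.val (by
    intro e k
    simp [cc, la, lb, iLS])

theorem jS_injective : Function.Injective (jS rX rY src tgt SX SY) :=
  Tel.map_injective _ _ _ (iLS_injective SX SY) Subtype.val_injective

theorem GsS_le_range : GsS rX rY src tgt SX SY ≤ (jS rX rY src tgt SX SY).range := by
  rw [GsS, Subgroup.closure_le]
  rintro g (⟨x, hx, k, s, rfl⟩ | ⟨y, hy, k, s, rfl⟩ | ⟨e, h1, h2, k, rfl⟩)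
  · exact ⟨Tel.l _ (Sum.inl (⟨x, hx⟩, k, s)), Tel.map_l _ _ _ _⟩
  · exact ⟨Tel.l _ (Sum.inr (s, k, ⟨y, hy⟩)), Tel.map_l _ _ _ _⟩
  · exact ⟨Tel.t _ ⟨e, h1, h2⟩ k, Tel.map_t _ _ _ _ _⟩

theorem range_le_GsS : (jS rX rY src tgt SX SY).range ≤ GsS rX rY src tgt SX SY := by
  rintro _ ⟨g, rfl⟩
  have hg : g ∈ Subgroup.closure (Set.range (Tel.l (cc (fun x : SX => rX x.1)
      (fun y : SY => rY y.1) (fun e : EdS src tgt SX SY => (⟨src e.1, e.2.1⟩ : SX))
      (fun e => (⟨tgt e.1, e.2.2⟩ : SY)))) ∪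
      Set.range fun p : EdS src tgt SX SY × ℕ => Tel.t (cc (fun x : SX => rX x.1)
      (fun y : SY => rY y.1) (fun e : EdS src tgt SX SY => (⟨src e.1, e.2.1⟩ : SX))
      (fun e => (⟨tgt e.1, e.2.2⟩ : SY))) p.1 p.2) := by
    rw [Tel.closure_gen]
    exact Subgroup.mem_top g
  induction hg using Subgroup.closure_induction with
  | mem x hx =>
    rcases hx with ⟨i, rfl⟩ | ⟨⟨e, k⟩, rfl⟩
    · rcases i with ⟨x, k, s⟩ | ⟨s, k, y⟩
      · rw [show jS rX rY src tgt SX SY (Tel.l _ (Sum.inl (x, k, s))) =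
          Tel.l _ (Sum.inl (x.1, k, s)) from Tel.map_l _ _ _ _]
        exact Subgroup.subset_closure (Or.inl ⟨x.1, x.2, k, s, rfl⟩)
      · rw [show jS rX rY src tgt SX SY (Tel.l _ (Sum.inr (s, k, y))) =
          Tel.l _ (Sum.inr (s, k, y.1)) from Tel.map_l _ _ _ _]
        exact Subgroup.subset_closure (Or.inr (Or.inl ⟨y.1, y.2, k, s, rfl⟩))
    · rw [show jS rX rY src tgt SX SY (Tel.t _ e k) = Tel.t _ e.1 k from Tel.map_t _ _ _ _ _]
      exact Subgroup.subset_closure (Or.inr (Or.inr ⟨e.1, e.2.1, e.2.2, k, rfl⟩))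
  | one => exact Subgroup.one_mem _
  | mul x y _ _ hx hy => rw [map_mul]; exact Subgroup.mul_mem _ hx hy
  | inv x _ hx => rw [map_inv]; exact Subgroup.inv_mem _ hx

end sub

/-- the telescope group of countable sets of vertices is free -/
theorem isFreeGroup_countable (hX : Sep rX) (hY : Sep rY)
    (hinj : ∀ e e', src e = src e' → tgt e = tgt e' → e = e')
    {SX : Set X} {SY : Set Y} (hSX : SX.Countable) (hSY : SY.Countable) :
    IsFreeGroup (TelS rX rY src tgt SX SY) := by
  have : Countable SX := hSX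
  have : Countable SY := hSY
  obtain ⟨rk, hrk⟩ := exists_injective_nat (SX ⊕ SY)
  have hinj' : ∀ e e' : EdS src tgt SX SY, (⟨src e.1, e.2.1⟩ : SX) = ⟨src e'.1, e'.2.1⟩ →
      (⟨tgt e.1, e.2.2⟩ : SY) = ⟨tgt e'.1, e'.2.2⟩ → e = e' := by
    intro e e' h1 h2
    exact Subtype.ext (hinj _ _ (congrArg Subtype.val h1) (congrArg Subtype.val h2))
  have : Countable (EdS src tgt SX SY) := by
    refine Function.Injective.countable (f := fun e : EdS src tgt SX SY =>
      ((⟨src e.1, e.2.1⟩ : SX), (⟨tgt e.1, e.2.2⟩ : SY))) ?_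
    intro e e' h
    exact hinj' e e' (congrArg Prod.fst h) (congrArg Prod.snd h)
  obtain ⟨ow, kk, hfd⟩ := exists_freeData (rX := fun x : SX => rX x.1)
    (rY := fun y : SY => rY y.1) (src := fun e : EdS src tgt SX SY => (⟨src e.1, e.2.1⟩ : SX))
    (tgt := fun e => (⟨tgt e.1, e.2.2⟩ : SY)) (rk := rk)
    (fun x x' hne => hX _ _ fun h => hne (Subtype.ext h))
    (fun y y' hne => hY _ _ fun h => hne (Subtype.ext h)) hinj'
    (fun e he => by simpa using hrk he) (fun x => Set.to_countable _) (fun y => Set.to_countable _)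
  exact isFreeGroup_tel hfd

/-- compatible square roots in the telescope group are trivial -/
theorem tel_roots_trivial (hX : Sep rX) (hY : Sep rY)
    (hinj : ∀ e e', src e = src e' → tgt e = tgt e' → e = e')
    (s : ℕ → Tel (cc rX rY src tgt)) (hs : ∀ k, s (k + 1) ^ 2 = s k) : s 0 = 1 := by
  choose SX SY hSX hSY hS using fun k => exists_suppS rX rY src tgt (s k)
  have h1 : ∀ k, s k ∈ (jS rX rY src tgt (⋃ k, SX k) (⋃ k, SY k)).range := fun k =>
    GsS_le_range _ _ _ _ _ _ (GsS_mono rX rY src tgt (Set.subset_iUnion _ k)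
      (Set.subset_iUnion _ k) (hS k))
  choose r hr using h1
  have := isFreeGroup_countable (rX := rX) (rY := rY) hX hY hinj
    (Set.countable_iUnion fun k => (hSX k).countable)
    (Set.countable_iUnion fun k => (hSY k).countable)
  have h2 : r 0 = 1 := roots_trivial r fun k => by
    refine jS_injective rX rY src tgt _ _ ?_
    rw [map_pow, hr, hr, hs]
  rw [← hr 0, h2, map_one]

/-- **(A2), retraction version**: there is no edge from `ZX \ CX` to `CY \ ZY`. -/
theorem no_rho (hX : Sep rX) (hY : Sep rY)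
    (hinj : ∀ e e', src e = src e' → tgt e = tgt e' → e = e')
    {B : Set (Tel (cc rX rY src tgt))} (hB : Subgroup.closure B = ⊤)
    {ZX CX : Set X} {ZY CY : Set Y}
    (hZ : GsS rX rY src tgt ZX ZY ≤ Subgroup.closure (B ∩ GsS rX rY src tgt ZX ZY))
    (hC : GsS rX rY src tgt CX CY ≤ Subgroup.closure (B ∩ GsS rX rY src tgt CX CY))
    (ρ : Tel (cc rX rY src tgt) →* Tel (cc rX rY src tgt))
    (hρ1 : ∀ b ∈ B, (b ∈ GsS rX rY src tgt ZX ZY ∨ b ∈ GsS rX rY src tgt CX CY) → ρ b = 1)
    (hρ2 : ∀ b ∈ B, ¬ (b ∈ GsS rX rY src tgt ZX ZY ∨ b ∈ GsS rX rY src tgt CX CY) → ρ b = b)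
    (e₀ : Ed) (h1 : src e₀ ∈ ZX) (h2 : tgt e₀ ∉ ZY) (h3 : src e₀ ∉ CX) (h4 : tgt e₀ ∈ CY) :
    False := by
  classical
  let χ := chiS rX rY src tgt e₀
  have hkZ : GsS rX rY src tgt ZX ZY ≤ χ.ker := chiS_GsS rX rY src tgt e₀ fun h => h2 h.2
  have hkC : GsS rX rY src tgt CX CY ≤ χ.ker := chiS_GsS rX rY src tgt e₀ fun h => h3 h.1
  have hχ : χ.comp ρ = χ := by
    refine MonoidHom.eq_of_eqOn_dense hB fun b hb => ?_
    rw [MonoidHom.comp_apply]
    by_cases hb' : b ∈ GsS rX rY src tgt ZX ZY ∨ b ∈ GsS rX rY src tgt CX CY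
    · rw [hρ1 b hb hb', map_one]
      rcases hb' with h | h
      · exact (hkZ h).symm
      · exact (hkC h).symm
    · rw [hρ2 b hb hb']
  have hπZ : GsS rX rY src tgt ZX ZY ≤ ρ.ker := by
    refine hZ.trans ?_
    rw [Subgroup.closure_le]
    rintro b ⟨hb, hb'⟩
    exact hρ1 b hb (Or.inl hb')
  have hπC : GsS rX rY src tgt CX CY ≤ ρ.ker := by
    refine hC.trans ?_
    rw [Subgroup.closure_le]
    rintro b ⟨hb, hb'⟩
    exact hρ1 b hb (Or.inr hb')
  have hstep : ∀ k, ρ (Tel.t _ e₀ (k + 1)) ^ 2 = ρ (Tel.t _ e₀ k) := by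
    intro k
    have h5 := congrArg ρ (t_succ_cc (rX := rX) (rY := rY) (src := src) (tgt := tgt) e₀ k)
    rw [map_pow, map_mul, map_mul] at h5
    have h6 : ρ (Tel.l _ (la rY src tgt e₀ k)) = 1 :=
      hπZ (Subgroup.subset_closure (Or.inl ⟨_, h1, k, _, rfl⟩))
    have h7 : ρ (Tel.l _ (lb rX src tgt e₀ k)) = 1 :=
      hπC (Subgroup.subset_closure (Or.inr (Or.inl ⟨_, h4, k, _, rfl⟩)))
    rw [h6, h7, mul_one, mul_one] at h5
    exact h5
  have hzero : ρ (Tel.t _ e₀ 0) = 1 :=
    tel_roots_trivial hX hY hinj (fun k => ρ (Tel.t _ e₀ k)) hstep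
  have h10 := DFunLike.congr_fun hχ (Tel.t _ e₀ 0)
  rw [MonoidHom.comp_apply, hzero, map_one] at h10
  have h12 : χ (Tel.t _ e₀ 0) = Multiplicative.ofAdd ((1 / 2 : ℚ) ^ 0) := by
    show chiS rX rY src tgt e₀ (Tel.t _ e₀ 0) = _
    rw [chiS_t, if_pos rfl]
  rw [h12, pow_zero] at h10
  have h11 := congrArg Multiplicative.toAdd h10
  rw [toAdd_one, toAdd_ofAdd] at h11
  exact zero_ne_one h11

end

end MP186633L

/-!
# The group part: explicit levels
-/

set_option autoImplicit false

namespace MP186633L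

open FreeGroup (of)

section

variable {X Y T Ed : Type} (rX : X → ℕ → T) (rY : Y → ℕ → T) (src : Ed → X) (tgt : Ed → Y)

/-- from the level `n` on the letters of the edge `e` differ from the letters of the edges of smaller
index with the same owner -/
def KK (ow : Ed → Prop) (ix : Ed → ℕ) (e : Ed) (n : ℕ) : Prop :=
  (ow e → ∀ e', ow e' → src e' = src e → ix e' < ix e → ∀ k, n ≤ k → ¬ rY (tgt e') k = rY (tgt e) k) ∧
  (¬ ow e → ∀ e', ¬ ow e' → tgt e' = tgt e → ix e' < ix e → ∀ k, n ≤ k →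
    ¬ rX (src e') k = rX (src e) k)

/-- the least such level -/
noncomputable def kkOf (ow : Ed → Prop) (ix : Ed → ℕ) (e : Ed) : ℕ :=
  sInf {n | KK rX rY src tgt ow ix e n}

variable {rX rY src tgt}

theorem exists_KK (hX : Sep rX) (hY : Sep rY)
    (hinj : ∀ e e', src e = src e' → tgt e = tgt e' → e = e') {ow : Ed → Prop} {ix : Ed → ℕ}
    (hix1 : ∀ e e', ow e → ow e' → src e = src e' → ix e = ix e' → e = e')
    (hix2 : ∀ e e', ¬ ow e → ¬ ow e' → tgt e = tgt e' → ix e = ix e' → e = e') (e : Ed) :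
    ∃ n, KK rX rY src tgt ow ix e n := by
  classical
  by_cases he : ow e
  · have h1 : {e' | (ow e' ∧ src e' = src e) ∧ ix e' < ix e}.Finite := by
      refine Set.Finite.of_finite_image (f := ix) ((Set.finite_Iio (ix e)).subset ?_) ?_
      · rintro _ ⟨e', he', rfl⟩
        exact he'.2
      · intro a ha b hb hab
        exact hix1 a b ha.1.1 hb.1.1 (ha.1.2.trans hb.1.2.symm) hab
    have h2 : ∀ e', ∃ n, e' ∈ {e' | (ow e' ∧ src e' = src e) ∧ ix e' < ix e} →
        ∀ k ≥ n, rY (tgt e') k ≠ rY (tgt e) k := by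
      intro e'
      by_cases h3 : tgt e' = tgt e
      · refine ⟨0, fun h4 => ?_⟩
        have h5 := hinj e' e h4.1.2 h3
        rw [h5] at h4
        exact absurd h4.2 (lt_irrefl _)
      · obtain ⟨n, hn⟩ := hY _ _ h3
        exact ⟨n, fun _ => hn⟩
    choose N hN using h2
    obtain ⟨M, hM⟩ := (h1.image N).bddAbove
    refine ⟨M, fun _ e' h3 h4 h5 k hk => ?_, fun h => absurd he h⟩
    exact hN e' ⟨⟨h3, h4⟩, h5⟩ k (le_trans (hM ⟨e', ⟨⟨h3, h4⟩, h5⟩, rfl⟩) hk)
  · have h1 : {e' | (¬ ow e' ∧ tgt e' = tgt e) ∧ ix e' < ix e}.Finite := by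
      refine Set.Finite.of_finite_image (f := ix) ((Set.finite_Iio (ix e)).subset ?_) ?_
      · rintro _ ⟨e', he', rfl⟩
        exact he'.2
      · intro a ha b hb hab
        exact hix2 a b ha.1.1 hb.1.1 (ha.1.2.trans hb.1.2.symm) hab
    have h2 : ∀ e', ∃ n, e' ∈ {e' | (¬ ow e' ∧ tgt e' = tgt e) ∧ ix e' < ix e} →
        ∀ k ≥ n, rX (src e') k ≠ rX (src e) k := by
      intro e'
      by_cases h3 : src e' = src e
      · refine ⟨0, fun h4 => ?_⟩
        have h5 := hinj e' e h3 h4.1.2
        rw [h5] at h4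
        exact absurd h4.2 (lt_irrefl _)
      · obtain ⟨n, hn⟩ := hX _ _ h3
        exact ⟨n, fun _ => hn⟩
    choose N hN using h2
    obtain ⟨M, hM⟩ := (h1.image N).bddAbove
    refine ⟨M, fun h => absurd h he, fun _ e' h3 h4 h5 k hk => ?_⟩
    exact hN e' ⟨⟨h3, h4⟩, h5⟩ k (le_trans (hM ⟨e', ⟨⟨h3, h4⟩, h5⟩, rfl⟩) hk)

open Classical in
/-- **explicit data** -/
theorem freeData_explicit {O : Type*} [LinearOrder O] {rk : X ⊕ Y → O} (hX : Sep rX) (hY : Sep rY)
    (hinj : ∀ e e', src e = src e' → tgt e = tgt e' → e = e') {ow : Ed → Prop} {ix : Ed → ℕ}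
    (how1 : ∀ e, ow e → rk (Sum.inr (tgt e)) < rk (Sum.inl (src e)))
    (how2 : ∀ e, ¬ ow e → rk (Sum.inl (src e)) < rk (Sum.inr (tgt e)))
    (hix1 : ∀ e e', ow e → ow e' → src e = src e' → ix e = ix e' → e = e')
    (hix2 : ∀ e e', ¬ ow e → ¬ ow e' → tgt e = tgt e' → ix e = ix e' → e = e') :
    FreeData rX rY src tgt rk (fun e => decide (ow e)) (kkOf rX rY src tgt ow ix) := by
  have hkk : ∀ e, KK rX rY src tgt ow ix e (kkOf rX rY src tgt ow ix e) := fun e =>
    Nat.sInf_mem (s := {n | KK rX rY src tgt ow ix e n}) (exists_KK hX hY hinj hix1 hix2 e)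
  refine ⟨fun e he => how1 e (of_decide_eq_true he), fun e he => how2 e (of_decide_eq_false he),
    ?_, ?_⟩
  · intro e e' he he' hs k hk hk' heq
    have he := of_decide_eq_true he
    have he' := of_decide_eq_true he'
    rcases lt_trichotomy (ix e) (ix e') with h1 | h1 | h1
    · exact absurd heq ((hkk e').1 he' e he hs h1 k hk')
    · exact hix1 e e' he he' hs h1
    · exact absurd heq.symm ((hkk e).1 he e' he' hs.symm h1 k hk)
  · intro e e' he he' hs k hk hk' heq
    have he := of_decide_eq_false he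
    have he' := of_decide_eq_false he'
    rcases lt_trichotomy (ix e) (ix e') with h1 | h1 | h1
    · exact absurd heq ((hkk e').2 he' e he hs h1 k hk')
    · exact hix2 e e' he he' hs h1
    · exact absurd heq.symm ((hkk e).2 he e' he' hs.symm h1 k hk)

end

end MP186633L

/-!
# MP_186633_lc: the explicit Schreier basis of a subgroup of a free group

`schreierBasis`: if `b` is a free basis of `G` and `H` is a subgroup of `G`, `T` the set of the
shortlex-least representatives of the right cosets of `H`, then the elements `γ ≠ 1` of `H` of the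
form `t * b x * t'⁻¹` (`t, t' ∈ T`) are a free basis of `H`.
-/

set_option autoImplicit false

namespace MP186633L

open FreeGroup (of toWord)

section schreier

variable {G β : Type} [Group G]

/-- the data of a Schreier transversal -/
structure SchrData (b : β → G) (H : Subgroup G) (rep : G → G) (m : G → ℕ) : Prop where
  mem : ∀ g, g * (rep g)⁻¹ ∈ H
  eq : ∀ g h, g * h⁻¹ ∈ H → rep g = rep h
  one : rep 1 = 1
  pre : ∀ g, rep g = g → g ≠ 1 → ∃ g' x, rep g' = g' ∧ m g' < m g ∧
    (g = g' * b x ∨ g = g' * (b x)⁻¹)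

variable {b : β → G} {H : Subgroup G} {rep : G → G} {m : G → ℕ}

theorem SchrData.idem (h : SchrData b H rep m) (g : G) : rep (rep g) = rep g := by
  refine (h.eq _ _ ?_).symm
  exact h.mem g

theorem SchrData.rep_mul (h : SchrData b H rep m) (g g' : G) : rep (rep g * g') = rep (g * g') := by
  refine (h.eq _ _ ?_).symm
  have := h.mem g
  rw [mul_inv_rev, ← mul_assoc, mul_assoc g, mul_inv_cancel, mul_one]
  exact this

/-- the transversal -/
abbrev Tr (rep : G → G) : Type := {g : G // rep g = g}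

variable {K : Type} [Group K]

open Classical in
/-- the permutation of `T × K` given by a generator -/
noncomputable def schrPerm (h : SchrData b H rep m) (f : Tr rep → β → K) (x : β) :
    Equiv.Perm (Tr rep × K) where
  toFun p := (⟨rep (p.1.1 * b x), h.idem _⟩, p.2 * f p.1 x)
  invFun p := (⟨rep (p.1.1 * (b x)⁻¹), h.idem _⟩, p.2 * (f ⟨rep (p.1.1 * (b x)⁻¹), h.idem _⟩ x)⁻¹)
  left_inv := by
    rintro ⟨⟨t, ht⟩, k⟩
    have h1 : rep (rep (t * b x) * (b x)⁻¹) = t := by
      rw [h.rep_mul, mul_inv_cancel_right, ht]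
    simp only [h1, mul_inv_cancel_right]
  right_inv := by
    rintro ⟨⟨t, ht⟩, k⟩
    have h1 : rep (rep (t * (b x)⁻¹) * b x) = t := by
      rw [h.rep_mul, inv_mul_cancel_right, ht]
    simp only [h1, inv_mul_cancel_right]

/-- the representation of `G` -/
noncomputable def schrRep (B : FreeGroupBasis β G) (h : SchrData B H rep m) (f : Tr rep → β → K) :
    G →* (Equiv.Perm (Tr rep × K))ᵐᵒᵖ :=
  B.lift fun x => MulOpposite.op (schrPerm h f x)

theorem schrRep_basis (B : FreeGroupBasis β G) (h : SchrData B H rep m) (f : Tr rep → β → K)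
    (x : β) : schrRep B h f (B x) = MulOpposite.op (schrPerm h f x) := by
  unfold schrRep
  rw [FreeGroupBasis.lift_apply_apply, FreeGroupBasis.repr_apply_coe, FreeGroup.lift_apply_of]

/-- the action -/
noncomputable def schrAct (B : FreeGroupBasis β G) (h : SchrData B H rep m) (f : Tr rep → β → K)
    (g : G) (p : Tr rep × K) : Tr rep × K := (schrRep B h f g).unop p

theorem schrAct_mul (B : FreeGroupBasis β G) (h : SchrData B H rep m) (f : Tr rep → β → K)
    (g g' : G) (p : Tr rep × K) :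
    schrAct B h f (g * g') p = schrAct B h f g' (schrAct B h f g p) := by
  unfold schrAct
  rw [map_mul, MulOpposite.unop_mul, Equiv.Perm.mul_apply]

theorem schrAct_one (B : FreeGroupBasis β G) (h : SchrData B H rep m) (f : Tr rep → β → K)
    (p : Tr rep × K) : schrAct B h f 1 p = p := by
  unfold schrAct
  rw [map_one, MulOpposite.unop_one, Equiv.Perm.one_apply]

theorem schrAct_inv_eq (B : FreeGroupBasis β G) (h : SchrData B H rep m) (f : Tr rep → β → K)
    (g : G) {p q : Tr rep × K} (hpq : schrAct B h f g p = q) : schrAct B h f g⁻¹ q = p := by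
  rw [← hpq, ← schrAct_mul, mul_inv_cancel, schrAct_one]

theorem schrAct_basis (B : FreeGroupBasis β G) (h : SchrData B H rep m) (f : Tr rep → β → K)
    (x : β) (p : Tr rep × K) :
    schrAct B h f (B x) p = (⟨rep (p.1.1 * B x), h.idem _⟩, p.2 * f p.1 x) := by
  unfold schrAct
  rw [schrRep_basis]
  rfl

theorem schrAct_basis_inv (B : FreeGroupBasis β G) (h : SchrData B H rep m) (f : Tr rep → β → K)
    (x : β) (p : Tr rep × K) :
    schrAct B h f (B x)⁻¹ p = (⟨rep (p.1.1 * (B x)⁻¹), h.idem _⟩,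
      p.2 * (f ⟨rep (p.1.1 * (B x)⁻¹), h.idem _⟩ x)⁻¹) := by
  unfold schrAct
  rw [map_inv, schrRep_basis]
  rfl

/-- induction along a basis -/
theorem basis_induction (B : FreeGroupBasis β G) {p : G → Prop} (h1 : p 1) (hb : ∀ x, p (B x))
    (hb' : ∀ x, p (B x)⁻¹) (hm : ∀ g g', p g → p g' → p (g * g')) (g : G) : p g := by
  have key : ∀ w : FreeGroup β, p (B.repr.symm w) := by
    intro w
    refine FreeGroup.induction_on (C := fun w => p (B.repr.symm w)) w ?_ ?_ ?_ ?_
    · rw [map_one]; exact h1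
    · exact fun x => hb x
    · intro x _
      show p (B.repr.symm (of x)⁻¹)
      rw [map_inv]
      exact hb' x
    · intro x y hx hy
      rw [map_mul]
      exact hm _ _ hx hy
  have := key (B.repr g)
  rwa [MulEquiv.symm_apply_apply] at this

theorem schrAct_fst (B : FreeGroupBasis β G) (h : SchrData B H rep m) (f : Tr rep → β → K)
    (g : G) : ∀ p : Tr rep × K, (schrAct B h f g p).1 = ⟨rep (p.1.1 * g), h.idem _⟩ := by
  induction g using basis_induction B with
  | h1 =>
    intro p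
    rw [schrAct_one]
    apply Subtype.ext
    simp only [mul_one]
    exact p.1.2.symm
  | hb x => intro p; rw [schrAct_basis]
  | hb' x => intro p; rw [schrAct_basis_inv]
  | hm g g' hg hg' =>
    intro p
    rw [schrAct_mul, hg']
    apply Subtype.ext
    simp only [hg]
    rw [h.rep_mul, mul_assoc]

theorem schrAct_left (B : FreeGroupBasis β G) (h : SchrData B H rep m) (f : Tr rep → β → K)
    (g : G) : ∀ (t : Tr rep) (k k' : K), (schrAct B h f g (t, k * k')).2 =
      k * (schrAct B h f g (t, k')).2 := by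
  induction g using basis_induction B with
  | h1 => intro t k k'; rw [schrAct_one, schrAct_one]
  | hb x => intro t k k'; rw [schrAct_basis, schrAct_basis, mul_assoc]
  | hb' x => intro t k k'; rw [schrAct_basis_inv, schrAct_basis_inv, mul_assoc]
  | hm g g' hg hg' =>
    intro t k k'
    have h1 : schrAct B h f g (t, k * k') =
        ((schrAct B h f g (t, k')).1, k * (schrAct B h f g (t, k')).2) := by
      refine Prod.ext ?_ (hg t k k')
      rw [schrAct_fst, schrAct_fst]
    rw [schrAct_mul, schrAct_mul, h1, hg']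

/-- the point `1` of the transversal -/
def trOne (h : SchrData b H rep m) : Tr rep := ⟨1, h.one⟩

/-- the homomorphism on `H` -/
noncomputable def schrHom (B : FreeGroupBasis β G) (h : SchrData B H rep m)
    (f : Tr rep → β → K) : H →* K where
  toFun g := (schrAct B h f g (trOne h, 1)).2
  map_one' := by
    rw [Subgroup.coe_one, schrAct_one]
  map_mul' g g' := by
    have h1 : schrAct B h f g (trOne h, 1) = (trOne h, (schrAct B h f g (trOne h, 1)).2) := by
      refine Prod.ext ?_ rfl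
      rw [schrAct_fst]
      apply Subtype.ext
      simp only [trOne, one_mul]
      rw [← h.one]
      refine h.eq _ _ ?_
      rw [inv_one, mul_one]
      exact g.2
    rw [Subgroup.coe_mul, schrAct_mul, h1]
    have h2 := schrAct_left B h f g' (trOne h) (schrAct B h f g (trOne h, 1)).2 1
    rw [mul_one] at h2
    exact h2

theorem schrAct_tr (B : FreeGroupBasis β G) (h : SchrData B H rep m) (f : Tr rep → β → K)
    (hf : ∀ (t : Tr rep) x, rep (t.1 * B x) = t.1 * B x → f t x = 1) :
    ∀ (n : ℕ) (t : Tr rep), m t.1 ≤ n → schrAct B h f t.1 (trOne h, 1) = (t, 1) := by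
  intro n
  induction n with
  | zero =>
    rintro ⟨t, ht⟩ hn
    by_cases h1 : t = 1
    · subst h1
      rw [schrAct_one]
      rfl
    · obtain ⟨g', x, -, h3, -⟩ := h.pre t ht h1
      simp only at hn
      omega
  | succ n ih =>
    rintro ⟨t, ht⟩ hn
    by_cases h1 : t = 1
    · subst h1
      rw [schrAct_one]
      rfl
    · obtain ⟨g', x, h2, h3, h4 | h4⟩ := h.pre t ht h1
      · subst h4
        simp only at hn
        have h5 := ih ⟨g', h2⟩ (by simp only; omega)
        simp only at h5 ⊢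
        rw [schrAct_mul, h5, schrAct_basis]
        have h6 := hf ⟨g', h2⟩ x ht
        refine Prod.ext (Subtype.ext ?_) ?_
        · exact ht
        · simp only [h6, mul_one]
      · subst h4
        simp only at hn
        have h5 := ih ⟨g', h2⟩ (by simp only; omega)
        simp only at h5 ⊢
        rw [schrAct_mul, h5, schrAct_basis_inv]
        refine Prod.ext (Subtype.ext ?_) ?_
        · exact ht
        · have h6 : f ⟨rep (g' * (B x)⁻¹), h.idem _⟩ x = 1 := by
            refine hf _ x ?_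
            simp only [ht, inv_mul_cancel_right]
            exact h2
          simp only [h6, inv_one, mul_one]

/-- the Schreier generators -/
def gam (rep : G → G) (b : β → G) (p : Tr rep × β) : G := p.1.1 * b p.2 * (rep (p.1.1 * b p.2))⁻¹

theorem schrHom_gam (B : FreeGroupBasis β G) (h : SchrData B H rep m) (f : Tr rep → β → K)
    (hf : ∀ (t : Tr rep) x, rep (t.1 * B x) = t.1 * B x → f t x = 1) (p : Tr rep × β) :
    schrHom B h f ⟨gam rep B p, h.mem _⟩ = f p.1 p.2 := by
  obtain ⟨t, x⟩ := p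
  show (schrAct B h f (t.1 * B x * (rep (t.1 * B x))⁻¹) (trOne h, 1)).2 = f t x
  rw [schrAct_mul, schrAct_mul, schrAct_tr B h f hf (m t.1) t le_rfl, schrAct_basis]
  have h1 := schrAct_tr B h f hf _ ⟨rep (t.1 * B x), h.idem _⟩ le_rfl
  have h2 : schrAct B h f (rep (t.1 * B x)) (trOne h, f t x) =
      (⟨rep (t.1 * B x), h.idem _⟩, f t x) := by
    refine Prod.ext ?_ ?_
    · have := congrArg Prod.fst h1
      rw [schrAct_fst] at this ⊢
      exact this
    · have h3 := schrAct_left B h f (rep (t.1 * B x)) (trOne h) (f t x) 1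
      rw [mul_one] at h3
      rw [h3]
      have := congrArg Prod.snd h1
      simp only at this
      rw [this, mul_one]
  simp only [one_mul]
  rw [schrAct_inv_eq B h f _ h2]

/-- the Schreier generators generate -/
theorem closure_gam (B : FreeGroupBasis β G) (h : SchrData B H rep m) :
    Subgroup.closure (Set.range fun p : Tr rep × β => (⟨gam rep B p, h.mem _⟩ : H)) = ⊤ := by
  rw [eq_top_iff]
  rintro ⟨g, hg⟩ -
  -- `g * (rep (t g))⁻¹`
  have key : ∀ g : G, ∀ t : Tr rep, (⟨t.1 * g * (rep (t.1 * g))⁻¹, h.mem _⟩ : H) ∈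
      Subgroup.closure (Set.range fun p : Tr rep × β => (⟨gam rep B p, h.mem _⟩ : H)) := by
    intro g
    induction g using basis_induction B with
    | h1 =>
      intro t
      have : (⟨t.1 * 1 * (rep (t.1 * 1))⁻¹, h.mem _⟩ : H) = 1 := by
        apply Subtype.ext
        simp only [mul_one, Subgroup.coe_one]
        rw [t.2, mul_inv_cancel]
      rw [this]
      exact Subgroup.one_mem _
    | hb x => exact fun t => Subgroup.subset_closure ⟨(t, x), rfl⟩
    | hb' x =>
      intro t
      have h1 : (⟨t.1 * (B x)⁻¹ * (rep (t.1 * (B x)⁻¹))⁻¹, h.mem _⟩ : H) =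
          (⟨gam rep B (⟨rep (t.1 * (B x)⁻¹), h.idem _⟩, x), h.mem _⟩ : H)⁻¹ := by
        apply Subtype.ext
        simp only [gam, Subgroup.coe_inv]
        rw [h.rep_mul, inv_mul_cancel_right, t.2]
        group
      rw [h1]
      exact Subgroup.inv_mem _ (Subgroup.subset_closure ⟨_, rfl⟩)
    | hm g g' hg hg' =>
      intro t
      have h1 : (⟨t.1 * (g * g') * (rep (t.1 * (g * g')))⁻¹, h.mem _⟩ : H) =
          (⟨t.1 * g * (rep (t.1 * g))⁻¹, h.mem _⟩ : H) *
          (⟨rep (t.1 * g) * g' * (rep (rep (t.1 * g) * g'))⁻¹, h.mem _⟩ : H) := by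
        apply Subtype.ext
        simp only [Subgroup.coe_mul]
        rw [h.rep_mul, ← mul_assoc t.1 g g']
        group
      rw [h1]
      exact Subgroup.mul_mem _ (hg t) (hg' ⟨rep (t.1 * g), h.idem _⟩)
  have h2 := key g (trOne h)
  have h3 : (⟨(trOne h).1 * g * (rep ((trOne h).1 * g))⁻¹, h.mem _⟩ : H) = ⟨g, hg⟩ := by
    apply Subtype.ext
    simp only [trOne, one_mul]
    have h4 : rep g = 1 := by
      rw [← h.one]
      refine h.eq _ _ ?_
      rw [inv_one, mul_one]
      exact hg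
    rw [h4, inv_one, mul_one]
  rwa [h3] at h2

/-- the index type of the Schreier basis -/
def SIdx (rep : G → G) (b : β → G) : Type := {p : Tr rep × β // gam rep b p ≠ 1}

theorem gam_eq_one {p : Tr rep × β} : gam rep b p = 1 ↔ rep (p.1.1 * b p.2) = p.1.1 * b p.2 := by
  unfold gam
  rw [mul_inv_eq_one, eq_comm]

theorem schr_existsUnique (B : FreeGroupBasis β G) (h : SchrData B H rep m)
    (f : SIdx rep B → K) : ∃! F : H →* K, ∀ p : SIdx rep B, F ⟨gam rep B p.1, h.mem _⟩ = f p := by
  classical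
  let f1 : Tr rep → β → K := fun t x => if hp : gam rep B (t, x) ≠ 1 then f ⟨(t, x), hp⟩ else 1
  have hf1 : ∀ (t : Tr rep) x, rep (t.1 * B x) = t.1 * B x → f1 t x = 1 := by
    intro t x htx
    have : ¬ gam rep B (t, x) ≠ 1 := not_not.2 (gam_eq_one.2 htx)
    simp only [f1, dif_neg this]
  have hF : ∀ p : SIdx rep B, schrHom B h f1 ⟨gam rep B p.1, h.mem _⟩ = f p := by
    intro p
    rw [schrHom_gam B h f1 hf1]
    simp only [f1]
    exact dif_pos p.2
  refine ⟨schrHom B h f1, hF, fun F hF' => ?_⟩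
  refine MonoidHom.eq_of_eqOn_dense (closure_gam B h) ?_
  rintro _ ⟨p, rfl⟩
  by_cases hp : gam rep B p = 1
  · have h1 : (⟨gam rep B p, h.mem _⟩ : H) = 1 := Subtype.ext hp
    simp only [h1, map_one]
  · exact (hF' ⟨p, hp⟩).trans (hF ⟨p, hp⟩).symm

theorem ofUniqueLift_apply {G X : Type} [Group G] (o : X → G)
    (h : ∀ {H : Type} [Group H] (f : X → H), ∃! F : G →* H, ∀ a, F (o a) = f a) (x : X) :
    FreeGroupBasis.ofUniqueLift X o h x = o x := by
  show FreeGroup.lift o (FreeGroup.of x) = o x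
  rw [FreeGroup.lift_apply_of]

/-- the Schreier basis -/
noncomputable def schrBasis (B : FreeGroupBasis β G) (h : SchrData B H rep m) :
    FreeGroupBasis (SIdx rep B) H :=
  FreeGroupBasis.ofUniqueLift (SIdx rep B) (fun p => ⟨gam rep B p.1, h.mem _⟩)
    fun f => schr_existsUnique B h f

end schreier

/-! ### The shortlex transversal -/

section shortlex

variable {G β : Type} [Group G]

open Classical in
/-- the reduced word of `g` -/
noncomputable def wd (B : FreeGroupBasis β G) (g : G) : List (β × Bool) := (B.repr g).toWord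

theorem wd_injective (B : FreeGroupBasis β G) : Function.Injective (wd B) := by
  classical
  intro g g' h
  exact B.repr.injective (FreeGroup.toWord_injective h)

/-- the shortlex-least elements of their cosets -/
def slT (B : FreeGroupBasis β G) (H : Subgroup G) (r : β × Bool → β × Bool → Prop) : Set G :=
  {t | ∀ g, g * t⁻¹ ∈ H → ¬ List.Shortlex r (wd B g) (wd B t)}

theorem lex_append_same {α : Type} {r : α → α → Prop} (u : List α) :
    ∀ {s t : List α}, s.length = t.length → List.Lex r s t → List.Lex r (s ++ u) (t ++ u) := by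
  intro s t hl h
  induction h with
  | nil => simp at hl
  | cons h ih =>
    simp only [List.length_cons, Nat.add_right_cancel_iff] at hl
    exact List.Lex.cons (ih hl)
  | rel h => exact List.Lex.rel h

theorem length_reduce_lt {α : Type} [DecidableEq α] {W : List (α × Bool)}
    (h : ¬ FreeGroup.IsReduced W) : (FreeGroup.reduce W).length < W.length := by
  rw [FreeGroup.isReduced_iff_not_step] at h
  push Not at h
  obtain ⟨W', hW'⟩ := h
  have h1 : FreeGroup.reduce W = FreeGroup.reduce W' := FreeGroup.reduce.Step.eq hW'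
  obtain ⟨n, hn⟩ := FreeGroup.Red.length (FreeGroup.reduce.red (L := W'))
  have h2 := FreeGroup.Red.Step.length hW'
  rw [h1]
  omega

variable (B : FreeGroupBasis β G) (H : Subgroup G) (r : β × Bool → β × Bool → Prop)

theorem exists_slT (hwf : WellFounded r) (g : G) : ∃ t ∈ slT B H r, t * g⁻¹ ∈ H := by
  classical
  have hne : ({w | ∃ t : G, t * g⁻¹ ∈ H ∧ wd B t = w} : Set (List (β × Bool))).Nonempty :=
    ⟨wd B g, g, by rw [mul_inv_cancel]; exact H.one_mem, rfl⟩
  obtain ⟨w, ⟨t, ht, rfl⟩, hmin⟩ := (List.Shortlex.wf hwf).has_min _ hne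
  refine ⟨t, fun g' hg' hlt => ?_, ht⟩
  have h1 : g' * g⁻¹ ∈ H := by
    have := H.mul_mem hg' ht
    rwa [mul_assoc, inv_mul_cancel_left] at this
  exact hmin (wd B g') ⟨g', h1, rfl⟩ hlt

theorem slT_unique (htri : ∀ a b, r a b ∨ a = b ∨ r b a) {t t' : G} (ht : t ∈ slT B H r)
    (ht' : t' ∈ slT B H r) (h : t * t'⁻¹ ∈ H) : t = t' := by
  have htr : Std.Trichotomous r := ⟨fun a b h1 h2 => by
    rcases htri a b with h3 | h3 | h3
    · exact absurd h3 h1
    · exact h3
    · exact absurd h3 h2⟩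
  have h1 := ht' t h
  have h2 := ht t' (by
    have := H.inv_mem h
    rwa [mul_inv_rev, inv_inv] at this)
  exact wd_injective B (Std.Trichotomous.trichotomous (r := List.Shortlex r) _ _ h1 h2)

open Classical in
/-- the shortlex-least representative -/
noncomputable def slRep (hwf : WellFounded r) (g : G) : G := (exists_slT B H r hwf g).choose

variable {B H r}

theorem slRep_mem (hwf : WellFounded r) (g : G) : slRep B H r hwf g ∈ slT B H r :=
  (exists_slT B H r hwf g).choose_spec.1

theorem slRep_mul_inv (hwf : WellFounded r) (g : G) : slRep B H r hwf g * g⁻¹ ∈ H :=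
  (exists_slT B H r hwf g).choose_spec.2

theorem slRep_eq (hwf : WellFounded r) (htri : ∀ a b, r a b ∨ a = b ∨ r b a) {t : G}
    (ht : t ∈ slT B H r) {g : G} (h : t * g⁻¹ ∈ H) : slRep B H r hwf g = t := by
  refine slT_unique B H r htri (slRep_mem hwf g) ht ?_
  have := H.mul_mem (slRep_mul_inv (B := B) (r := r) hwf g) (H.inv_mem h)
  rwa [mul_inv_rev, inv_inv, ← mul_assoc, mul_assoc (slRep B H r hwf g), inv_mul_cancel, mul_one]
    at this

theorem slRep_self (hwf : WellFounded r) (htri : ∀ a b, r a b ∨ a = b ∨ r b a) {t : G} :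
    slRep B H r hwf t = t ↔ t ∈ slT B H r := by
  constructor
  · intro h
    rw [← h]
    exact slRep_mem hwf t
  · intro h
    refine slRep_eq hwf htri h ?_
    rw [mul_inv_cancel]
    exact H.one_mem

theorem shortlex_snoc [DecidableEq β] {W L : List (β × Bool)} (a : β × Bool)
    (h : List.Shortlex r W L) : List.Shortlex r (FreeGroup.reduce (W ++ [a])) (L ++ [a]) := by
  by_cases h1 : FreeGroup.IsReduced (W ++ [a])
  · rw [h1.reduce_eq]
    rcases List.shortlex_def.1 h with h2 | ⟨h2, h3⟩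
    · exact List.Shortlex.of_length_lt (by simpa using h2)
    · exact List.Shortlex.of_lex (by simpa using h2) (lex_append_same [a] h2 h3)
  · have h2 := length_reduce_lt h1
    refine List.Shortlex.of_length_lt ?_
    have h3 : W.length ≤ L.length := by
      rcases List.shortlex_def.1 h with h3 | h3
      · exact h3.le
      · exact h3.1.le
    simp only [List.length_append, List.length_singleton] at h2 ⊢
    omega

theorem slData (hwf : WellFounded r) (htri : ∀ a b, r a b ∨ a = b ∨ r b a) :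
    SchrData B H (slRep B H r hwf) (fun g => (wd B g).length) := by
  classical
  refine ⟨fun g => ?_, fun g h hgh => ?_, ?_, fun g hg hne => ?_⟩
  · have := H.inv_mem (slRep_mul_inv (B := B) (r := r) hwf g)
    rwa [mul_inv_rev, inv_inv] at this
  · refine slRep_eq hwf htri (slRep_mem hwf h) ?_
    have := H.mul_mem (slRep_mul_inv (B := B) (r := r) hwf h) (H.inv_mem hgh)
    rwa [mul_inv_rev, inv_inv, mul_assoc, inv_mul_cancel_left] at this
  · rw [slRep_self hwf htri]
    intro g _ hlt
    have h1 : wd B (1 : G) = [] := by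
      unfold wd
      rw [map_one, FreeGroup.toWord_one]
    rw [h1] at hlt
    exact List.not_shortlex_nil_right hlt
  · rw [slRep_self hwf htri] at hg
    have hw : wd B g ≠ [] := by
      intro h
      apply hne
      unfold wd at h
      rw [FreeGroup.toWord_eq_nil_iff] at h
      exact B.repr.injective (h.trans (map_one _).symm)
    obtain ⟨L, a, hLa⟩ := (List.eq_nil_or_concat (wd B g)).resolve_left hw
    rw [List.concat_eq_append] at hLa
    have hred : FreeGroup.IsReduced (L ++ [a]) := by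
      rw [← hLa]
      exact FreeGroup.isReduced_toWord
    have hL : FreeGroup.IsReduced L := List.IsChain.left_of_append hred
    set g' : G := B.repr.symm (FreeGroup.mk L) with hg'
    set c : G := B.repr.symm (FreeGroup.mk [a]) with hc
    have hwg' : wd B g' = L := by
      unfold wd
      rw [hg', MulEquiv.apply_symm_apply, FreeGroup.toWord_mk, hL.reduce_eq]
    have hgg : g = g' * c := by
      apply B.repr.injective
      rw [map_mul, hg', hc, MulEquiv.apply_symm_apply, MulEquiv.apply_symm_apply,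
        FreeGroup.mul_mk, ← hLa]
      exact FreeGroup.mk_toWord.symm
    have hT' : g' ∈ slT B H r := by
      intro g'' hg'' hlt
      rw [hwg'] at hlt
      refine hg (g'' * c) ?_ ?_
      · rw [hgg, mul_inv_rev, mul_assoc, mul_inv_cancel_left]
        exact hg''
      · have h1 : wd B (g'' * c) = FreeGroup.reduce (wd B g'' ++ [a]) := by
          unfold wd
          rw [map_mul, hc, MulEquiv.apply_symm_apply, ← FreeGroup.toWord_mk, ← FreeGroup.mul_mk,
            FreeGroup.mk_toWord]
        rw [h1, hLa]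
        exact shortlex_snoc a hlt
    obtain ⟨x, ε⟩ := a
    refine ⟨g', x, (slRep_self hwf htri).2 hT', ?_, ?_⟩
    · simp only [hwg', hLa, List.length_append, List.length_singleton]
      omega
    · cases ε
      · right
        rw [hgg]
        congr 1
        rw [hc]
        have h1 : FreeGroup.mk [(x, false)] = (of x)⁻¹ := by
          simp [of, FreeGroup.inv_mk, FreeGroup.invRev]
        rw [h1, map_inv]
        rfl
      · left
        rw [hgg]
        rfl

/-- the elements of the explicit Schreier basis -/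
def schrSet (B : FreeGroupBasis β G) (H : Subgroup G) (r : β × Bool → β × Bool → Prop) : Set H :=
  {γ | (γ : G) ≠ 1 ∧ ∃ t ∈ slT B H r, ∃ t' ∈ slT B H r, ∃ x, (γ : G) = t * B x * t'⁻¹}

/-- **the explicit Schreier basis** -/
theorem schreier_explicit (hwf : WellFounded r) (htri : ∀ a b, r a b ∨ a = b ∨ r b a) :
    ∃ C : FreeGroupBasis (schrSet B H r) H, ∀ γ, C γ = γ.1 := by
  classical
  have hD := slData (B := B) (H := H) hwf htri
  let C0 := schrBasis B hD
  have hC0 : ∀ p : SIdx (slRep B H r hwf) B, C0 p = ⟨gam _ B p.1, hD.mem _⟩ := by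
    intro p
    exact ofUniqueLift_apply _ _ p
  let e : SIdx (slRep B H r hwf) B ≃ schrSet B H r := Equiv.ofBijective
    (fun p => ⟨C0 p, by
      rw [hC0]
      refine ⟨p.2, p.1.1.1, (slRep_self hwf htri).1 p.1.1.2, slRep B H r hwf (p.1.1.1 * B p.1.2),
        slRep_mem hwf _, p.1.2, rfl⟩⟩) (by
    constructor
    · intro p q hpq
      exact C0.injective (congrArg Subtype.val hpq)
    · rintro ⟨γ, hγ1, t, ht, t', ht', x, hx⟩
      have h1 : slRep B H r hwf (t * B x) = t' := by
        refine slRep_eq hwf htri ht' ?_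
        have := H.inv_mem γ.2
        rwa [hx, mul_inv_rev, inv_inv] at this
      have h2 : gam (slRep B H r hwf) B (⟨t, (slRep_self hwf htri).2 ht⟩, x) = γ := by
        simp only [gam]
        rw [h1, hx]
      let q : SIdx (slRep B H r hwf) B :=
        ⟨(⟨t, (slRep_self hwf htri).2 ht⟩, x), by rw [h2]; exact hγ1⟩
      refine ⟨q, ?_⟩
      apply Subtype.ext
      exact (hC0 q).trans (Subtype.ext h2))
  refine ⟨C0.reindex e, fun γ => ?_⟩
  rw [FreeGroupBasis.reindex_apply]
  have h3 := congrArg Subtype.val (e.apply_symm_apply γ)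
  exact h3

end shortlex

end MP186633L

/-!
# The group part: explicit bases of subgroups, in a form suitable for definability
-/

set_option autoImplicit false

namespace MP186633L

open FreeGroup (of IsReduced toWord)

/-! ### Transport of bases -/

section transport

/-- the image of a basis under an injective homomorphism -/
theorem basis_of_image {ι G0 G : Type} [Group G0] [Group G] (b0 : FreeGroupBasis ι G0)
    (j : G0 →* G) (hj : Function.Injective j) (S : Subgroup G) (hS : j.range = S)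
    (BZ : Set G) (hBZ : ∀ g, g ∈ BZ ↔ ∃ a, j (b0 a) = g) :
    ∃ b : FreeGroupBasis BZ S, ∀ x, (b x : G) = x.1 := by
  subst hS
  let e : ι ≃ BZ := Equiv.ofBijective (fun a => ⟨j (b0 a), (hBZ _).2 ⟨a, rfl⟩⟩) (by
    constructor
    · intro a a' h
      exact b0.injective (hj (congrArg Subtype.val h))
    · rintro ⟨g, hg⟩
      obtain ⟨a, rfl⟩ := (hBZ g).1 hg
      exact ⟨a, rfl⟩)
  let f : G0 ≃* j.range := j.ofInjective hj
  refine ⟨(b0.map f).reindex e, fun x => ?_⟩
  rw [FreeGroupBasis.reindex_apply]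
  have h1 : ((b0.map f) (e.symm x) : G) = j (b0 (e.symm x)) := rfl
  rw [h1]
  exact congrArg Subtype.val (e.apply_symm_apply x)

end transport

/-! ### Words -/

section words

variable {G : Type} [Group G]

/-- the value of a letter -/
def lval (x : G × Bool) : G := if x.2 = true then x.1 else x.1⁻¹

/-- the value of a word -/
def lprod (l : List (G × Bool)) : G := (l.map lval).prod

/-- the word `l` is reduced, its letters belong to `BZ` and its value is `g` -/
def Wd (BZ : Set G) (g : G) (l : List (G × Bool)) : Prop :=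
  (∀ (i : ℕ) (x : G × Bool), l[i]? = some x → x.1 ∈ BZ) ∧
  (∀ (i : ℕ) (x y : G × Bool), l[i]? = some x → l[i + 1]? = some y → x.1 = y.1 → x.2 = y.2) ∧
  lprod l = g

theorem isReduced_iff_getElem? {α : Type} (l : List (α × Bool)) : IsReduced l ↔
    ∀ (i : ℕ) x y, l[i]? = some x → l[i + 1]? = some y → x.1 = y.1 → x.2 = y.2 := by
  rw [FreeGroup.IsReduced, List.isChain_iff_getElem]
  constructor
  · intro h i x y hx hy
    obtain ⟨h1, rfl⟩ := List.getElem?_eq_some_iff.1 hx
    obtain ⟨h2, rfl⟩ := List.getElem?_eq_some_iff.1 hy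
    exact h i h2
  · intro h i hi
    exact h i _ _ (List.getElem?_eq_some_iff.2 ⟨by omega, rfl⟩)
      (List.getElem?_eq_some_iff.2 ⟨hi, rfl⟩)

variable {S : Subgroup G} {BZ : Set G} (b : FreeGroupBasis BZ S)
  (hb : ∀ x : BZ, (b x : G) = x.1)

/-- the word of `g` with letters in `G` -/
noncomputable def wdG (g : S) : List (G × Bool) := (wd b g).map fun x => (x.1.1, x.2)

include hb in
theorem lprod_map (l : List (BZ × Bool)) :
    lprod (l.map fun x => ((x.1.1, x.2) : G × Bool)) = (b.repr.symm (FreeGroup.mk l) : G) := by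
  induction l with
  | nil => simp [lprod, ← FreeGroup.one_eq_mk]
  | cons x l ih =>
    have h1 : FreeGroup.mk (x :: l) = FreeGroup.mk [x] * FreeGroup.mk l := by simp
    rw [h1, map_mul, Subgroup.coe_mul, ← ih]
    have h2 : lprod (List.map (fun x => ((x.1.1, x.2) : G × Bool)) (x :: l)) =
        lval (x.1.1, x.2) * lprod (List.map (fun x => ((x.1.1, x.2) : G × Bool)) l) := by
      simp [lprod]
    rw [h2]
    congr 1
    obtain ⟨x, ε⟩ := x
    cases ε
    · have h3 : FreeGroup.mk [(x, false)] = (of x)⁻¹ := by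
        rw [FreeGroup.of, FreeGroup.inv_mk]; rfl
      rw [h3, map_inv, Subgroup.coe_inv, ← hb]
      simp only [lval, Bool.false_eq_true, if_false]
      rfl
    · have h3 : FreeGroup.mk [(x, true)] = of x := rfl
      rw [h3, ← hb]
      simp only [lval, if_true]
      rfl

include hb in
theorem Wd_iff (g : S) (l : List (G × Bool)) : Wd BZ (g : G) l ↔ l = wdG b g := by
  let _ : DecidableEq BZ := fun a b => Classical.propDecidable (a = b)
  constructor
  · rintro ⟨h1, h2, h3⟩
    -- lift the word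
    have h4 : ∃ l' : List (BZ × Bool), l'.map (fun x => ((x.1.1, x.2) : G × Bool)) = l := by
      refine ⟨l.attach.map fun x => (⟨x.1.1, ?_⟩, x.1.2), ?_⟩
      · obtain ⟨i, hi⟩ := List.mem_iff_getElem?.1 x.2
        exact h1 i _ hi
      · rw [List.map_map]
        exact List.attach_map_subtype_val l
    obtain ⟨l', rfl⟩ := h4
    have h5 : IsReduced l' := by
      rw [isReduced_iff_getElem?]
      intro i x y hx hy hxy
      exact h2 i (x.1.1, x.2) (y.1.1, y.2) (by rw [List.getElem?_map, hx]; rfl)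
        (by rw [List.getElem?_map, hy]; rfl) (congrArg Subtype.val hxy)
    rw [lprod_map b hb] at h3
    have h6 : b.repr g = FreeGroup.mk l' := by
      rw [← Subtype.ext h3, MulEquiv.apply_symm_apply]
    rw [wdG, wd, h6, FreeGroup.toWord_mk, FreeGroup.IsReduced.reduce_eq h5]
  · rintro rfl
    refine ⟨?_, ?_, ?_⟩
    · intro i x hx
      rw [wdG, List.getElem?_map, Option.map_eq_some_iff] at hx
      obtain ⟨y, -, rfl⟩ := hx
      exact y.1.2
    · intro i x y hx hy hxy
      rw [wdG, List.getElem?_map, Option.map_eq_some_iff] at hx hy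
      obtain ⟨x, hx, rfl⟩ := hx
      obtain ⟨y, hy, rfl⟩ := hy
      exact (isReduced_iff_getElem? _).1 (FreeGroup.isReduced_toWord) i x y hx hy
        (Subtype.ext hxy)
    · rw [wdG, lprod_map b hb, wd, FreeGroup.mk_toWord, MulEquiv.symm_apply_apply]

end words

/-! ### Schreier -/

section schreier

variable {G : Type} [Group G]

/-- shortlex, written out -/
def SLex (r : G × Bool → G × Bool → Prop) (l l' : List (G × Bool)) : Prop :=
  l.length < l'.length ∨ (l.length = l'.length ∧ ∃ (i : ℕ) (x y : G × Bool), l[i]? = some x ∧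
    l'[i]? = some y ∧ r x y ∧ ∀ (j : ℕ) (z : G × Bool), j < i → (l[j]? = some z ↔ l'[j]? = some z))

theorem lex_iff_getElem? {α : Type} (r : α → α → Prop) : ∀ (l l' : List α),
    l.length = l'.length → (List.Lex r l l' ↔ ∃ (i : ℕ) (x y : α), l[i]? = some x ∧
    l'[i]? = some y ∧ r x y ∧ ∀ (j : ℕ) (z : α), j < i → (l[j]? = some z ↔ l'[j]? = some z)) := by
  intro l
  induction l with
  | nil =>
    intro l' h
    have h1 : l' = [] := List.length_eq_zero_iff.1 h.symm
    subst h1
    constructor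
    · intro h2
      cases h2
    · rintro ⟨i, x, y, h2, -⟩
      simp at h2
  | cons a l ih =>
    intro l' h
    cases l' with
    | nil => simp at h
    | cons a' l' =>
      have hl : l.length = l'.length := by simpa using h
      constructor
      · intro h2
        cases h2 with
        | rel h3 => exact ⟨0, a, a', rfl, rfl, h3, fun j z hj => absurd hj (Nat.not_lt_zero j)⟩
        | cons h3 =>
          obtain ⟨i, x, y, h4, h5, h6, h7⟩ := (ih l' hl).1 h3
          refine ⟨i + 1, x, y, by simpa using h4, by simpa using h5, h6, fun j z hj => ?_⟩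
          cases j with
          | zero => simp
          | succ j => simpa using h7 j z (by omega)
      · rintro ⟨i, x, y, h4, h5, h6, h7⟩
        cases i with
        | zero =>
          simp only [List.getElem?_cons_zero, Option.some.injEq] at h4 h5
          subst h4 h5
          exact List.Lex.rel h6
        | succ i =>
          have h8 : a = a' := by
            have := (h7 0 a (by omega)).1 (by simp)
            simpa using this.symm
          subst h8
          refine List.Lex.cons ((ih l' hl).2 ⟨i, x, y, by simpa using h4, by simpa using h5, h6,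
            fun j z hj => ?_⟩)
          simpa using h7 (j + 1) z (by omega)

omit [Group G] in
theorem shortlex_iff (r : G × Bool → G × Bool → Prop) (l l' : List (G × Bool)) :
    List.Shortlex r l l' ↔ SLex r l l' := by
  rw [List.shortlex_def, SLex]
  constructor
  · rintro (h | ⟨h, h'⟩)
    · exact Or.inl h
    · exact Or.inr ⟨h, (lex_iff_getElem? r l l' h).1 h'⟩
  · rintro (h | ⟨h, h'⟩)
    · exact Or.inl h
    · exact Or.inr ⟨h, (lex_iff_getElem? r l l' h).2 h'⟩

/-- the transversal -/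
def TS (S H : Subgroup G) (BZ : Set G) (r : G × Bool → G × Bool → Prop) (t : G) : Prop :=
  t ∈ S ∧ ∀ g l l', g ∈ S → g * t⁻¹ ∈ H → Wd BZ g l → Wd BZ t l' → ¬ SLex r l l'

/-- the explicit Schreier basis -/
def SchrS (S H : Subgroup G) (BZ : Set G) (r : G × Bool → G × Bool → Prop) (γ : G) : Prop :=
  γ ∈ H ∧ ¬ γ = 1 ∧ ∃ t t' x, TS S H BZ r t ∧ TS S H BZ r t' ∧ x ∈ BZ ∧ γ = t * x * t'⁻¹

theorem shortlex_map {α β : Type} (f : α → β) (hf : Function.Injective f) (r : β → β → Prop)
    (l l' : List α) : List.Shortlex r (l.map f) (l'.map f) ↔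
      List.Shortlex (fun a b => r (f a) (f b)) l l' := by
  rw [List.shortlex_def, List.shortlex_def, List.length_map, List.length_map]
  refine or_congr Iff.rfl (and_congr_right fun h => ?_)
  rw [lex_iff_getElem? _ _ _ (by simpa using h), lex_iff_getElem? _ _ _ h]
  simp only [List.getElem?_map, Option.map_eq_some_iff]
  constructor
  · rintro ⟨i, _, _, ⟨x, hx, rfl⟩, ⟨y, hy, rfl⟩, h1, h2⟩
    refine ⟨i, x, y, hx, hy, h1, fun j z hj => ?_⟩
    have h3 := h2 j (f z) hj
    constructor
    · intro h4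
      obtain ⟨w, h5, h6⟩ := h3.1 ⟨z, h4, rfl⟩
      rwa [hf h6] at h5
    · intro h4
      obtain ⟨w, h5, h6⟩ := h3.2 ⟨z, h4, rfl⟩
      rwa [hf h6] at h5
  · rintro ⟨i, x, y, hx, hy, h1, h2⟩
    refine ⟨i, _, _, ⟨x, hx, rfl⟩, ⟨y, hy, rfl⟩, h1, fun j z hj => ?_⟩
    exact exists_congr fun w => and_congr_left fun _ => h2 j w hj

/-- **the explicit Schreier basis of a subgroup of a free subgroup** -/
theorem schreier_in {S H : Subgroup G} (hHS : H ≤ S) {BZ : Set G} (b : FreeGroupBasis BZ S)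
    (hb : ∀ x, (b x : G) = x.1) (r : G × Bool → G × Bool → Prop) (hwf : WellFounded r)
    (htri : ∀ a b, r a b ∨ a = b ∨ r b a) :
    ∃ c : FreeGroupBasis {γ : G | SchrS S H BZ r γ} H, ∀ x, (c x : G) = x.1 := by
  classical
  let em : BZ × Bool → G × Bool := fun x => (x.1.1, x.2)
  have hem : Function.Injective em := by
    rintro ⟨x, ε⟩ ⟨y, δ⟩ h
    simp only [em, Prod.mk.injEq] at h
    exact Prod.ext (Subtype.ext h.1) h.2
  let r' : BZ × Bool → BZ × Bool → Prop := fun x y => r (em x) (em y)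
  have hwf' : WellFounded r' := InvImage.wf em hwf
  have htri' : ∀ a b, r' a b ∨ a = b ∨ r' b a := by
    intro a b
    rcases htri (em a) (em b) with h | h | h
    · exact Or.inl h
    · exact Or.inr (Or.inl (hem h))
    · exact Or.inr (Or.inr h)
  obtain ⟨C, hC⟩ := schreier_explicit (B := b) (H := H.subgroupOf S) (r := r') hwf' htri'
  have hW : ∀ g : S, Wd BZ (g : G) (wdG b g) := fun g => (Wd_iff b hb g _).2 rfl
  have hT : ∀ t : S, t ∈ slT b (H.subgroupOf S) r' ↔ TS S H BZ r t := by
    intro t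
    constructor
    · intro h
      refine ⟨t.2, fun g l l' hg h1 h2 h3 h4 => ?_⟩
      rw [Wd_iff b hb ⟨g, hg⟩] at h2
      rw [Wd_iff b hb t] at h3
      subst h2 h3
      refine h ⟨g, hg⟩ h1 ?_
      rw [← shortlex_iff] at h4
      exact (shortlex_map em hem r _ _).1 h4
    · intro h g h1 h2
      refine h.2 g _ _ g.2 h1 (hW g) (hW t) ?_
      rw [← shortlex_iff]
      exact (shortlex_map em hem r _ _).2 h2
  let f : H.subgroupOf S ≃* H := Subgroup.subgroupOfEquivOfLe hHS
  have hf : ∀ x, (f x : G) = ((x : S) : G) := fun x => rfl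
  obtain ⟨c, hc⟩ := basis_of_image C (H.subtype.comp f.toMonoidHom)
    (fun x y h => f.injective (Subtype.val_injective h)) H (by
      ext g
      constructor
      · rintro ⟨x, rfl⟩
        exact (f x).2
      · intro hg
        exact ⟨f.symm ⟨g, hg⟩, by simp⟩) {γ : G | SchrS S H BZ r γ} (by
      intro γ
      constructor
      · rintro ⟨h1, h2, t, t', x, ht, ht', hx, rfl⟩
        have h3 : (⟨⟨t, ht.1⟩ * b ⟨x, hx⟩ * ⟨t', ht'.1⟩⁻¹, by
            show ((⟨t, ht.1⟩ * b ⟨x, hx⟩ * ⟨t', ht'.1⟩⁻¹ : S) : G) ∈ H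
            simp only [Subgroup.coe_mul, Subgroup.coe_inv, hb]
            exact h1⟩ : H.subgroupOf S) ∈ schrSet b (H.subgroupOf S) r' := by
          refine ⟨fun h4 => h2 ?_, ⟨t, ht.1⟩, (hT _).2 ht, ⟨t', ht'.1⟩, (hT _).2 ht', ⟨x, hx⟩, rfl⟩
          have h5 := congrArg Subtype.val h4
          simp only [Subgroup.coe_mul, Subgroup.coe_inv, hb, OneMemClass.coe_one] at h5
          exact h5
        refine ⟨⟨_, h3⟩, ?_⟩
        rw [hC]
        simp only [MonoidHom.comp_apply, Subgroup.coe_subtype, MulEquiv.toMonoidHom_eq_coe,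
          MonoidHom.coe_coe]
        rw [hf]
        simp only [Subgroup.coe_mul, Subgroup.coe_inv, hb]
      · rintro ⟨⟨a, ha⟩, rfl⟩
        rw [hC]
        obtain ⟨h1, t, ht, t', ht', x, hx⟩ := ha
        have h5 : (((H.subtype.comp f.toMonoidHom) a : G)) = ((a : S) : G) := rfl
        rw [h5]
        refine ⟨a.2, fun h => h1 (Subtype.ext h), t, t', x.1, (hT _).1 ht, (hT _).1 ht', x.2, ?_⟩
        have h6 := congrArg Subtype.val hx
        simp only [Subgroup.coe_mul, Subgroup.coe_inv, hb] at h6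
        exact h6)
  exact ⟨c, hc⟩

end schreier

/-! ### The basis of the subgroup of a set of vertices -/

section vertex

variable {X Y T Ed : Type} (rX : X → ℕ → T) (rY : Y → ℕ → T) (src : Ed → X) (tgt : Ed → Y)
  (SX : Set X) (SY : Set Y)

/-- `KK` for the edges between `SX` and `SY` -/
def KKS (ow : Ed → Prop) (ix : Ed → ℕ) (e : Ed) (n : ℕ) : Prop :=
  (ow e → ∀ e', src e' ∈ SX → tgt e' ∈ SY → ow e' → src e' = src e → ix e' < ix e → ∀ k, n ≤ k →
    ¬ rY (tgt e') k = rY (tgt e) k) ∧
  (¬ ow e → ∀ e', src e' ∈ SX → tgt e' ∈ SY → ¬ ow e' → tgt e' = tgt e → ix e' < ix e → ∀ k,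
    n ≤ k → ¬ rX (src e') k = rX (src e) k)

/-- the least such level -/
noncomputable def kkS (ow : Ed → Prop) (ix : Ed → ℕ) (e : Ed) : ℕ :=
  sInf {n | KKS rX rY src tgt SX SY ow ix e n}

/-- the eliminated letters of the left vertices -/
def ElimL (ow : Ed → Prop) (kk : Ed → ℕ) (x : X) (k : ℕ) (s : T) : Prop :=
  ∃ e, src e ∈ SX ∧ tgt e ∈ SY ∧ ow e ∧ kk e ≤ k ∧ src e = x ∧ rY (tgt e) k = s

/-- the eliminated letters of the right vertices -/
def ElimR (ow : Ed → Prop) (kk : Ed → ℕ) (s : T) (k : ℕ) (y : Y) : Prop :=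
  ∃ e, src e ∈ SX ∧ tgt e ∈ SY ∧ ¬ ow e ∧ kk e ≤ k ∧ tgt e = y ∧ rX (src e) k = s

/-- the explicit basis, seen in the big group -/
def BasS (ow : Ed → Prop) (kk : Ed → ℕ) : Set (Tel (cc rX rY src tgt)) :=
  {g | (∃ (x : X) (k : ℕ) (s : T), x ∈ SX ∧ ¬ ElimL rY src tgt SX SY ow kk x k s ∧
      g = Tel.l _ (Sum.inl (x, k, s))) ∨
    (∃ (y : Y) (k : ℕ) (s : T), y ∈ SY ∧ ¬ ElimR rX src tgt SX SY ow kk s k y ∧
      g = Tel.l _ (Sum.inr (s, k, y))) ∨
    ∃ (e : Ed) (k : ℕ), src e ∈ SX ∧ tgt e ∈ SY ∧ kk e ≤ k ∧ g = Tel.t _ e k}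

variable {rX rY src tgt SX SY}

theorem kkOf_sub (ow : Ed → Prop) (ix : Ed → ℕ) (e : EdS src tgt SX SY) :
    kkOf (fun x : SX => rX x.1) (fun y : SY => rY y.1)
      (fun e : EdS src tgt SX SY => (⟨src e.1, e.2.1⟩ : SX))
      (fun e => (⟨tgt e.1, e.2.2⟩ : SY)) (fun e => ow e.1) (fun e => ix e.1) e =
      kkS rX rY src tgt SX SY ow ix e.1 := by
  rw [kkOf, kkS]
  congr 1
  ext n
  simp only [Set.mem_ofPred_eq, KK, KKS]
  refine and_congr (imp_congr_right fun _ => ?_) (imp_congr_right fun _ => ?_)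
  · constructor
    · intro h e' h1 h2 h3 h4 h5
      exact h ⟨e', h1, h2⟩ h3 (Subtype.ext h4) h5
    · intro h e' h3 h4 h5
      exact h e'.1 e'.2.1 e'.2.2 h3 (congrArg Subtype.val h4) h5
  · constructor
    · intro h e' h1 h2 h3 h4 h5
      exact h ⟨e', h1, h2⟩ h3 (Subtype.ext h4) h5
    · intro h e' h3 h4 h5
      exact h e'.1 e'.2.1 e'.2.2 h3 (congrArg Subtype.val h4) h5

/-- **the explicit basis of the subgroup of a set of vertices** -/
theorem basis_BasS {O : Type*} [LinearOrder O] [WellFoundedLT O] (rk : SX ⊕ SY → O)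
    (hX : Sep rX) (hY : Sep rY) (hinj : ∀ e e', src e = src e' → tgt e = tgt e' → e = e')
    {ow : Ed → Prop} {ix : Ed → ℕ}
    (how1 : ∀ e (h1 : src e ∈ SX) (h2 : tgt e ∈ SY), ow e →
      rk (Sum.inr ⟨tgt e, h2⟩) < rk (Sum.inl ⟨src e, h1⟩))
    (how2 : ∀ e (h1 : src e ∈ SX) (h2 : tgt e ∈ SY), ¬ ow e →
      rk (Sum.inl ⟨src e, h1⟩) < rk (Sum.inr ⟨tgt e, h2⟩))
    (hix1 : ∀ e e', src e ∈ SX → tgt e ∈ SY → tgt e' ∈ SY → ow e → ow e' → src e = src e' →
      ix e = ix e' → e = e')
    (hix2 : ∀ e e', src e ∈ SX → tgt e ∈ SY → src e' ∈ SX → ¬ ow e → ¬ ow e' →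
      tgt e = tgt e' → ix e = ix e' → e = e') :
    ∃ b : FreeGroupBasis (BasS rX rY src tgt SX SY ow (kkS rX rY src tgt SX SY ow ix))
      (GsS rX rY src tgt SX SY), ∀ x, (b x : Tel (cc rX rY src tgt)) = x.1 := by
  classical
  have hfd := freeData_explicit (rX := fun x : SX => rX x.1) (rY := fun y : SY => rY y.1)
    (src := fun e : EdS src tgt SX SY => (⟨src e.1, e.2.1⟩ : SX))
    (tgt := fun e => (⟨tgt e.1, e.2.2⟩ : SY)) (rk := rk)
    (fun x x' hne => hX _ _ fun h => hne (Subtype.ext h))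
    (fun y y' hne => hY _ _ fun h => hne (Subtype.ext h))
    (fun e e' h1 h2 => Subtype.ext (hinj _ _ (congrArg Subtype.val h1) (congrArg Subtype.val h2)))
    (ow := fun e => ow e.1) (ix := fun e => ix e.1)
    (fun e he => how1 e.1 e.2.1 e.2.2 he) (fun e he => how2 e.1 e.2.1 e.2.2 he)
    (fun e e' he he' h1 h2 => Subtype.ext (hix1 _ _ e.2.1 e.2.2 e'.2.2 he he'
      (congrArg Subtype.val h1) h2))
    (fun e e' he he' h1 h2 => Subtype.ext (hix2 _ _ e.2.1 e.2.2 e'.2.1 he he'
      (congrArg Subtype.val h1) h2))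
  let b0 := FreeGroupBasis.ofUniqueLift _ _ fun f => existsUnique_lift hfd f
  have hb0 : ∀ a, b0 a = basEl _ _ _ _ _ _ a := fun a => ofUniqueLift_apply _ _ a
  refine basis_of_image b0 (jS rX rY src tgt SX SY) (jS_injective _ _ _ _ _ _) _
    (le_antisymm (range_le_GsS _ _ _ _ _ _) (GsS_le_range _ _ _ _ _ _)) _ fun g => ?_
  have hel : ∀ i : Let SX SY T, Elim (fun x : SX => rX x.1) (fun y : SY => rY y.1)
      (fun e : EdS src tgt SX SY => (⟨src e.1, e.2.1⟩ : SX))
      (fun e => (⟨tgt e.1, e.2.2⟩ : SY)) (fun e => decide (ow e.1))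
      (kkOf (fun x : SX => rX x.1) (fun y : SY => rY y.1)
      (fun e : EdS src tgt SX SY => (⟨src e.1, e.2.1⟩ : SX))
      (fun e => (⟨tgt e.1, e.2.2⟩ : SY)) (fun e => ow e.1) (fun e => ix e.1)) i ↔
      ∃ (e : EdS src tgt SX SY) (k : ℕ), kkS rX rY src tgt SX SY ow ix e.1 ≤ k ∧
        ((ow e.1 ∧ Sum.inl (⟨src e.1, e.2.1⟩, k, rY (tgt e.1) k) = i) ∨
        (¬ ow e.1 ∧ Sum.inr (rX (src e.1) k, k, ⟨tgt e.1, e.2.2⟩) = i)) := by
    intro i
    rw [Elim]
    constructor
    · rintro ⟨⟨e, k⟩, h1, h2⟩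
      refine ⟨e, k, ?_, ?_⟩
      · rwa [kkOf_sub] at h1
      · by_cases h : ow e.1
        · refine Or.inl ⟨h, ?_⟩
          rw [el, if_pos (decide_eq_true h)] at h2
          exact h2
        · refine Or.inr ⟨h, ?_⟩
          rw [el, if_neg (by simpa using h)] at h2
          exact h2
    · rintro ⟨e, k, h1, h2⟩
      refine ⟨(e, k), ?_, ?_⟩
      · rwa [kkOf_sub]
      · rcases h2 with ⟨h, h2⟩ | ⟨h, h2⟩
        · rw [el, if_pos (decide_eq_true h)]
          exact h2
        · rw [el, if_neg (by simpa using h)]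
          exact h2
  constructor
  · rintro (⟨x, k, s, hx, h1, rfl⟩ | ⟨y, k, s, hy, h1, rfl⟩ | ⟨e, k, h1, h2, h3, rfl⟩)
    · refine ⟨Sum.inl ⟨Sum.inl (⟨x, hx⟩, k, s), ?_⟩, ?_⟩
      · rw [hel]
        rintro ⟨e, k', h2, ⟨h3, h4⟩ | ⟨h3, h4⟩⟩
        · simp only [Sum.inl.injEq, Prod.mk.injEq] at h4
          obtain ⟨h5, rfl, h6⟩ := h4
          exact h1 ⟨e.1, e.2.1, e.2.2, h3, h2, congrArg Subtype.val h5, h6⟩
        · exact absurd h4 (by simp)
      · exact (congrArg (jS rX rY src tgt SX SY) (hb0 _)).trans (Tel.map_l _ _ _ _)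
    · refine ⟨Sum.inl ⟨Sum.inr (s, k, ⟨y, hy⟩), ?_⟩, ?_⟩
      · rw [hel]
        rintro ⟨e, k', h2, ⟨h3, h4⟩ | ⟨h3, h4⟩⟩
        · exact absurd h4 (by simp)
        · simp only [Sum.inr.injEq, Prod.mk.injEq] at h4
          obtain ⟨h6, rfl, h5⟩ := h4
          exact h1 ⟨e.1, e.2.1, e.2.2, h3, h2, congrArg Subtype.val h5, h6⟩
      · exact (congrArg (jS rX rY src tgt SX SY) (hb0 _)).trans (Tel.map_l _ _ _ _)
    · refine ⟨Sum.inr ⟨(⟨e, h1, h2⟩, k), ?_⟩, ?_⟩
      · show kkOf _ _ _ _ _ _ _ ≤ k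
        rw [kkOf_sub]
        exact h3
      · exact (congrArg (jS rX rY src tgt SX SY) (hb0 _)).trans (Tel.map_t _ _ _ _ _)
  · rintro ⟨a, rfl⟩
    rw [show (jS rX rY src tgt SX SY) (b0 a) = (jS rX rY src tgt SX SY) (basEl _ _ _ _ _ _ a) from
      congrArg _ (hb0 a)]
    rcases a with ⟨i, hi⟩ | ⟨⟨e, k⟩, hk⟩
    · rw [hel] at hi
      rcases i with ⟨x, k, s⟩ | ⟨s, k, y⟩
      · refine Or.inl ⟨x.1, k, s, x.2, ?_, Tel.map_l _ _ _ _⟩
        rintro ⟨e, h1, h2, h3, h4, h5, h6⟩
        refine hi ⟨⟨e, h1, h2⟩, k, h4, Or.inl ⟨h3, ?_⟩⟩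
        simp only [Sum.inl.injEq, Prod.mk.injEq, true_and]
        exact ⟨Subtype.ext h5, h6⟩
      · refine Or.inr (Or.inl ⟨y.1, k, s, y.2, ?_, Tel.map_l _ _ _ _⟩)
        rintro ⟨e, h1, h2, h3, h4, h5, h6⟩
        refine hi ⟨⟨e, h1, h2⟩, k, h4, Or.inr ⟨h3, ?_⟩⟩
        simp only [Sum.inr.injEq, Prod.mk.injEq, true_and]
        exact ⟨h6, Subtype.ext h5⟩
    · refine Or.inr (Or.inr ⟨e.1, k, e.2.1, e.2.2, ?_, Tel.map_t _ _ _ _ _⟩)
      have hk : kkOf _ _ _ _ _ _ _ ≤ k := hk
      rwa [kkOf_sub] at hk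

end vertex

end MP186633L
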