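import Pool.Agent.Lib.MP_186633_lc.QD

/-!
# Sentences true in all models of ZFC are forced
-/

namespace MP186633L

open MP9708F

universe u

section Restrict

variable {P : Type u} [Preorder P] (q : P)

/-- Restriction of a weight to the conditions below `q`. -/
def resW (w : LowerSet P) : LowerSet {r : P // r ≤ q} :=
  ⟨{r | r.1 ∈ w}, fun _ _ hba ha => w.lower hba ha⟩

/-- Restriction of a name to the conditions below `q`. -/
def resN : Nam P → Nam {r : P // r ≤ q}
  | ⟨ι, w, x⟩ => ⟨ι, fun i => resW q (w i), fun i => resN (x i)⟩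

/-- Extension of a weight. -/
def extW (w : LowerSet {r : P // r ≤ q}) : LowerSet P :=
  ⟨{r | ∃ h : r ≤ q, (⟨r, h⟩ : {r : P // r ≤ q}) ∈ w}, by
    rintro a b hba ⟨h, ha⟩
    exact ⟨hba.trans h, w.lower (show (⟨b, hba.trans h⟩ : {r : P // r ≤ q}) ≤ ⟨a, h⟩ from hba) ha⟩⟩

/-- Extension of a name. -/
def extN : Nam {r : P // r ≤ q} → Nam P
  | ⟨ι, w, x⟩ => ⟨ι, fun i => extW q (w i), fun i => extN (x i)⟩

theorem resW_extW (w : LowerSet {r : P // r ≤ q}) : resW q (extW q w) = w := by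
  ext r
  constructor
  · rintro ⟨h, hr⟩
    exact hr
  · intro hr
    exact ⟨r.2, hr⟩

theorem resN_extN (x : Nam {r : P // r ≤ q}) : resN q (extN q x) = x := by
  induction x with
  | mk ι w x ih =>
    simp only [extN, resN, resW_extW, ih]

theorem resN_surj : Function.Surjective (resN q) := fun x => ⟨extN q x, resN_extN q x⟩

theorem feq_resN {x y : Nam P} {r : {r : P // r ≤ q}} :
    feq (resN q x) (resN q y) r ↔ feq x y r.1 := by
  induction x generalizing y r with
  | mk ι w x ih =>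
    cases y with
    | mk κ v y =>
      simp only [resN, feq]
      constructor
      · rintro ⟨h1, h2⟩
        constructor
        · intro i s hs hsi
          obtain ⟨t, ht, j, h3, h4⟩ := h1 i ⟨s, hs.trans r.2⟩ hs hsi
          exact ⟨t.1, ht, j, h3, (ih i).1 h4⟩
        · intro j s hs hsj
          obtain ⟨t, ht, i, h3, h4⟩ := h2 j ⟨s, hs.trans r.2⟩ hs hsj
          exact ⟨t.1, ht, i, h3, (ih i).1 h4⟩
      · rintro ⟨h1, h2⟩
        constructor
        · intro i s hs hsi
          obtain ⟨t, ht, j, h3, h4⟩ := h1 i s.1 hs hsi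
          exact ⟨⟨t, le_trans ht s.2⟩, ht, j, h3, (ih i).2 h4⟩
        · intro j s hs hsj
          obtain ⟨t, ht, i, h3, h4⟩ := h2 j s.1 hs hsj
          exact ⟨⟨t, le_trans ht s.2⟩, ht, i, h3, (ih i).2 h4⟩

theorem fmem_resN {x y : Nam P} {r : {r : P // r ≤ q}} :
    fmem (resN q x) (resN q y) r ↔ fmem x y r.1 := by
  cases y with
  | mk κ v y =>
    constructor
    · intro h s hs
      obtain ⟨t, ht, j, h3, h4⟩ := h ⟨s, hs.trans r.2⟩ hs
      exact ⟨t.1, ht, j, h3, (feq_resN q).1 h4⟩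
    · intro h s hs
      obtain ⟨t, ht, j, h3, h4⟩ := h s.1 hs
      exact ⟨⟨t, le_trans ht s.2⟩, ht, j, h3, (feq_resN q).2 h4⟩

theorem push_resN (x : Nam P) (v : ℕ → Nam P) :
    (push (resN q x) fun n => resN q (v n)) = fun n => resN q (push x v n) := by
  funext n
  cases n <;> rfl

theorem forces_resN (φ : SetFormula) : ∀ (v : ℕ → Nam P) (r : {r : P // r ≤ q}),
    φ.Forces (fun n => resN q (v n)) r ↔ φ.Forces v r.1 := by
  induction φ with
  | mem i j => exact fun v r => fmem_resN q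
  | eq i j => exact fun v r => feq_resN q
  | neg φ ih =>
    intro v r
    constructor
    · intro h s hs hφ
      exact h ⟨s, hs.trans r.2⟩ hs ((ih v _).2 hφ)
    · intro h s hs hφ
      exact h s.1 hs ((ih v _).1 hφ)
  | and φ ψ ih ih' => exact fun v r => and_congr (ih v r) (ih' v r)
  | all φ ih =>
    intro v r
    constructor
    · intro h x
      have := h (resN q x)
      rw [push_resN, ih] at this
      exact this
    · intro h x
      obtain ⟨x, rfl⟩ := resN_surj q x
      rw [push_resN, ih]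
      exact h x

end Restrict

/-- Sentences which hold in all models of ZFC are forced. -/
theorem forced_of_valid {P : Type u} [Preorder P] (χ : SetFormula)
    (h : ∀ (M : Type (u + 1)) (E : M → M → Prop), ModelsZFC E → ∀ v, χ.Holds E v)
    (v : ℕ → Nam P) (p : P) : χ.Forces v p := by
  refine Forces_reg fun q hq => ?_
  by_contra hcon
  push Not at hcon
  have : Nonempty {r : P // r ≤ q} := ⟨⟨q, le_rfl⟩⟩
  obtain ⟨M, E, i, -, hZ, hF⟩ := exists_model {r : P // r ≤ q}
  have h1 := hF (.neg χ) (fun n => resN q (v n)) (by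
    intro r
    rw [forces_resN]
    exact fun s hs => hcon s (le_trans hs r.2))
  exact h1 (h M E hZ _)

/-! ### The axioms of ZFC as formulas -/

section Ax

variable {M : Type u} {E : M → M → Prop}


theorem push_tail (V : ℕ → M) : push (V 0) (fun n => V (n + 1)) = V := by
  funext n
  cases n <;> rfl

/-- Extensionality. -/
def aExt : SetFormula := .all (.all (imp (.all (iff' (.mem 0 2) (.mem 0 1))) (.eq 1 0)))

theorem holds_aExt (v : ℕ → M) : aExt.Holds E v ↔ ∀ x y, (∀ z, E z x ↔ E z y) → x = y := by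
  simp only [aExt, SetFormula.Holds, holds_imp, holds_iff]
  rfl

/-- Foundation. -/
def aFound : SetFormula := .all (imp (SetFormula.mem 0 1).ex
  (SetFormula.and (.mem 0 1) (.all (imp (.mem 0 1) (.neg (.mem 0 2))))).ex)

theorem holds_aFound (v : ℕ → M) : aFound.Holds E v ↔
    ∀ x, (∃ y, E y x) → ∃ y, E y x ∧ ∀ z, E z y → ¬ E z x := by
  simp only [aFound, SetFormula.Holds, holds_imp, holds_ex]
  rfl

/-- Pairing. -/
def aPair : SetFormula := .all (.all (SetFormula.all (iff' (.mem 0 1) (or' (.eq 0 3)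
  (.eq 0 2)))).ex)

theorem holds_aPair (v : ℕ → M) : aPair.Holds E v ↔
    ∀ x y, ∃ z, ∀ w, E w z ↔ w = x ∨ w = y := by
  simp only [aPair, SetFormula.Holds, holds_iff, holds_or, holds_ex]
  rfl

/-- Union. -/
def aUnion : SetFormula := .all (SetFormula.all (iff' (.mem 0 1)
  (SetFormula.and (.mem 0 3) (.mem 1 0)).ex)).ex

theorem holds_aUnion (v : ℕ → M) : aUnion.Holds E v ↔
    ∀ x, ∃ y, ∀ z, E z y ↔ ∃ w, E w x ∧ E z w := by
  simp only [aUnion, SetFormula.Holds, holds_iff, holds_ex]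
  rfl

/-- Power set. -/
def aPow : SetFormula := .all (SetFormula.all (iff' (.mem 0 1)
  (.all (imp (.mem 0 1) (.mem 0 3))))).ex

theorem holds_aPow (v : ℕ → M) : aPow.Holds E v ↔
    ∀ x, ∃ y, ∀ z, E z y ↔ ∀ w, E w z → E w x := by
  simp only [aPow, SetFormula.Holds, holds_iff, holds_ex, holds_imp]
  rfl

/-- Infinity. -/
def aInf : SetFormula := (fInd 0).ex

theorem holds_aInf (v : ℕ → M) : aInf.Holds E v ↔ ∃ x, (∃ y, E y x ∧ ∀ z, ¬ E z y) ∧
    ∀ y, E y x → ∃ z, E z x ∧ ∀ w, E w z ↔ E w y ∨ w = y := by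
  simp only [aInf, holds_ex, holds_fInd]
  rfl

/-- Renaming for separation. -/
def sepR : ℕ → ℕ
  | 0 => 0
  | n + 1 => n + 3

/-- Separation. -/
def aSep (φ : SetFormula) : SetFormula := (SetFormula.all (iff' (.mem 0 1)
  (.and (.mem 0 2) (φ.rename sepR)))).ex

theorem holds_aSep (φ : SetFormula) (x : M) (v : ℕ → M) : (aSep φ).Holds E (push x v) ↔
    ∃ y, ∀ z, E z y ↔ E z x ∧ φ.Holds E (push z v) := by
  have h : ∀ y z, (fun n => push z (push y (push x v)) (sepR n)) = push z v := by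
    intro y z
    funext n
    cases n <;> rfl
  simp only [aSep, SetFormula.Holds, holds_iff, holds_ex, holds_rename, h]
  rfl

/-- Renaming for replacement. -/
def repR1 : ℕ → ℕ
  | 0 => 0
  | 1 => 1
  | n + 2 => n + 3

/-- Renaming for replacement. -/
def repR2 : ℕ → ℕ
  | 0 => 0
  | 1 => 2
  | n + 2 => n + 4

/-- Renaming for replacement. -/
def repR3 : ℕ → ℕ
  | 0 => 1
  | 1 => 0
  | n + 2 => n + 4

/-- Replacement. -/
def aRep (φ : SetFormula) : SetFormula :=
  imp (.all (imp (.mem 0 1) (SetFormula.and (φ.rename repR1)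
    (.all (imp (φ.rename repR2) (.eq 0 1)))).ex))
    (SetFormula.all (iff' (.mem 0 1) (SetFormula.and (.mem 0 3) (φ.rename repR3)).ex)).ex

theorem holds_aRep (φ : SetFormula) (x : M) (v : ℕ → M) : (aRep φ).Holds E (push x v) ↔
    ((∀ y, E y x → ∃! z, φ.Holds E (push z (push y v))) →
      ∃ t, ∀ z, E z t ↔ ∃ y, E y x ∧ φ.Holds E (push z (push y v))) := by
  have h1 : ∀ y z, (fun n => push z (push y (push x v)) (repR1 n)) = push z (push y v) := by
    intro y z
    funext n
    match n with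
    | 0 => rfl
    | 1 => rfl
    | n + 2 => rfl
  have h2 : ∀ y z z', (fun n => push z' (push z (push y (push x v))) (repR2 n)) =
      push z' (push y v) := by
    intro y z z'
    funext n
    match n with
    | 0 => rfl
    | 1 => rfl
    | n + 2 => rfl
  have h3 : ∀ t z y, (fun n => push y (push z (push t (push x v))) (repR3 n)) =
      push z (push y v) := by
    intro t z y
    funext n
    match n with
    | 0 => rfl
    | 1 => rfl
    | n + 2 => rfl
  simp only [aRep, SetFormula.Holds, holds_iff, holds_imp, holds_ex, holds_rename, h1, h2, h3]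
  rfl

/-- Choice. -/
def aChoice : SetFormula := .all (imp (.all (imp (.mem 0 1) (SetFormula.mem 0 1).ex))
  (imp (.all (.all (imp (.mem 1 2) (imp (.mem 0 2) (imp
    (SetFormula.and (.mem 0 2) (.mem 0 1)).ex (.eq 1 0))))))
    (SetFormula.all (imp (.mem 0 2) (SetFormula.and (.and (.mem 0 2) (.mem 0 1))
      (.all (imp (.and (.mem 0 3) (.mem 0 2)) (.eq 0 1)))).ex)).ex))

theorem holds_aChoice (v : ℕ → M) : aChoice.Holds E v ↔
    ∀ x, (∀ y, E y x → ∃ z, E z y) →
    (∀ y z, E y x → E z x → (∃ w, E w y ∧ E w z) → y = z) →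
      ∃ c, ∀ y, E y x → ∃! z, E z c ∧ E z y := by
  simp only [aChoice, SetFormula.Holds, holds_ex, holds_imp]
  rfl

end Ax

/-- A structure which satisfies all formulas which hold in all models of ZFC is a model of
ZFC. -/
theorem modelsZFC_of_valid {M : Type (u + 1)} {E : M → M → Prop} (x₀ : M)
    (h : ∀ χ : SetFormula, (∀ (M : Type (u + 1)) (E : M → M → Prop), ModelsZFC E →
      ∀ v, χ.Holds E v) → ∀ v, χ.Holds E v) : ModelsZFC E where
  extensionality := (holds_aExt (fun _ => x₀)).1 (h aExt (fun M E hZ v =>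
    (holds_aExt v).2 hZ.extensionality) _)
  foundation := (holds_aFound (fun _ => x₀)).1 (h aFound (fun M E hZ v =>
    (holds_aFound v).2 hZ.foundation) _)
  pairing := (holds_aPair (fun _ => x₀)).1 (h aPair (fun M E hZ v =>
    (holds_aPair v).2 hZ.pairing) _)
  union := (holds_aUnion (fun _ => x₀)).1 (h aUnion (fun M E hZ v =>
    (holds_aUnion v).2 hZ.union) _)
  powerset := (holds_aPow (fun _ => x₀)).1 (h aPow (fun M E hZ v =>
    (holds_aPow v).2 hZ.powerset) _)
  infinity := (holds_aInf (fun _ => x₀)).1 (h aInf (fun M E hZ v =>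
    (holds_aInf v).2 hZ.infinity) _)
  separation := fun φ v x => (holds_aSep φ x v).1 (h (aSep φ) (fun M E hZ V => by
    rw [← push_tail V]
    exact (holds_aSep φ _ _).2 (hZ.separation φ _ _)) _)
  replacement := fun φ v x => (holds_aRep φ x v).1 (h (aRep φ) (fun M E hZ V => by
    rw [← push_tail V]
    exact (holds_aRep φ _ _).2 (hZ.replacement φ _ _)) _)
  choice := (holds_aChoice (fun _ => x₀)).1 (h aChoice (fun M E hZ v =>
    (holds_aChoice v).2 hZ.choice) _)

end MP186633L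

/-!
# A countable transitive-like (well-founded) generic model

For every countable family of requirements the names in a countable set closed under the relevant
operations give, modulo a sufficiently generic descending sequence of conditions, a well-founded
model of ZFC in which all forced formulas hold.
-/

namespace MP186633L.Ctm

open MP9708F

universe u

/-! ### Countable closures -/

section Closure

variable {X : Type u} {ι : Type*} (F : ι → List X → X)

/-- The stages of the closure. -/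
def cstg : ℕ → Set X
  | 0 => ∅
  | n + 1 => cstg n ∪ ⋃ i, F i '' {l | ∀ x ∈ l, x ∈ cstg n}

theorem cstg_mono {n m : ℕ} (h : n ≤ m) : cstg F n ⊆ cstg F m := by
  induction m, h using Nat.le_induction with
  | base => exact le_rfl
  | succ m _ ih => exact ih.trans Set.subset_union_left

theorem countable_lists {S : Set X} (hS : S.Countable) : {l : List X | ∀ x ∈ l, x ∈ S}.Countable := by
  have : Countable S := hS
  have h1 : {l : List X | ∀ x ∈ l, x ∈ S} ⊆ Set.range (fun l : List S => l.map Subtype.val) := by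
    intro l hl
    refine ⟨l.attach.map fun x => ⟨x.1, hl x.1 x.2⟩, ?_⟩
    simp [List.map_map, Function.comp_def]
  exact (Set.countable_range _).mono h1

theorem countable_cstg [Countable ι] (n : ℕ) : (cstg F n).Countable := by
  induction n with
  | zero => exact Set.countable_empty
  | succ n ih =>
    exact ih.union (Set.countable_iUnion fun i => (countable_lists ih).image _)

theorem exists_cstg (l : List X) (h : ∀ x ∈ l, x ∈ ⋃ n, cstg F n) : ∃ n, ∀ x ∈ l, x ∈ cstg F n := by
  induction l with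
  | nil => exact ⟨0, by simp⟩
  | cons a l ih =>
    obtain ⟨n, hn⟩ := ih fun x hx => h x (List.mem_cons_of_mem _ hx)
    obtain ⟨m, hm⟩ := Set.mem_iUnion.1 (h a List.mem_cons_self)
    refine ⟨max n m, fun x hx => ?_⟩
    rcases List.mem_cons.1 hx with rfl | hx
    · exact cstg_mono F (le_max_right _ _) hm
    · exact cstg_mono F (le_max_left _ _) (hn x hx)

theorem exists_countable_closed [Countable ι] : ∃ S : Set X, S.Countable ∧
    ∀ i l, (∀ x ∈ l, x ∈ S) → F i l ∈ S := by
  refine ⟨⋃ n, cstg F n, Set.countable_iUnion fun n => countable_cstg F n, fun i l hl => ?_⟩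
  obtain ⟨n, hn⟩ := exists_cstg F l hl
  exact Set.mem_iUnion.2 ⟨n + 1, Or.inr (Set.mem_iUnion.2 ⟨i, l, hn, rfl⟩)⟩

end Closure

/-! ### Formulas depend on finitely many variables -/

/-- A bound for the free variables. -/
def bd : SetFormula → ℕ
  | .mem i j => max i j + 1
  | .eq i j => max i j + 1
  | .neg φ => bd φ
  | .and φ ψ => max (bd φ) (bd ψ)
  | .all φ => bd φ

theorem forces_bd {P : Type u} [Preorder P] (φ : SetFormula) : ∀ {v v' : ℕ → Nam P} {p : P},
    (∀ n < bd φ, v n = v' n) → (φ.Forces v p ↔ φ.Forces v' p) := by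
  induction φ with
  | mem i j =>
    intro v v' p h
    have h1 : v i = v' i := h i (by simp [bd])
    have h2 : v j = v' j := h j (by simp [bd])
    simp only [SetFormula.Forces, h1, h2]
  | eq i j =>
    intro v v' p h
    have h1 : v i = v' i := h i (by simp [bd])
    have h2 : v j = v' j := h j (by simp [bd])
    simp only [SetFormula.Forces, h1, h2]
  | neg φ ih =>
    intro v v' p h
    exact forall_congr' fun q => forall_congr' fun _ => not_congr (ih h)
  | and φ ψ ih ih' =>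
    intro v v' p h
    exact and_congr (ih fun n hn => h n (lt_of_lt_of_le hn (le_max_left _ _)))
      (ih' fun n hn => h n (lt_of_lt_of_le hn (le_max_right _ _)))
  | all φ ih =>
    intro v v' p h
    refine forall_congr' fun x => ih fun n hn => ?_
    cases n with
    | zero => rfl
    | succ n => exact h n (lt_trans (Nat.lt_succ_self n) hn)

/-- Code of a formula. -/
def fcode : SetFormula → ℕ
  | .mem i j => 5 * Nat.pair i j
  | .eq i j => 5 * Nat.pair i j + 1
  | .neg φ => 5 * fcode φ + 2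
  | .and φ ψ => 5 * Nat.pair (fcode φ) (fcode ψ) + 3
  | .all φ => 5 * fcode φ + 4

theorem fcode_inj : Function.Injective fcode := by
  intro φ
  induction φ with
  | mem i j =>
    intro ψ h
    cases ψ with
    | mem i' j' =>
      simp only [fcode] at h
      have h1 : Nat.pair i j = Nat.pair i' j' := by omega
      obtain ⟨rfl, rfl⟩ := Nat.pair_eq_pair.1 h1
      rfl
    | _ => simp only [fcode] at h; omega
  | eq i j =>
    intro ψ h
    cases ψ with
    | eq i' j' =>
      simp only [fcode] at h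
      have h1 : Nat.pair i j = Nat.pair i' j' := by omega
      obtain ⟨rfl, rfl⟩ := Nat.pair_eq_pair.1 h1
      rfl
    | _ => simp only [fcode] at h; omega
  | neg φ ih =>
    intro ψ h
    cases ψ with
    | neg ψ =>
      simp only [fcode] at h
      rw [ih (show fcode φ = fcode ψ by omega)]
    | _ => simp only [fcode] at h; omega
  | and φ φ' ih ih' =>
    intro ψ h
    cases ψ with
    | and ψ ψ' =>
      simp only [fcode] at h
      have h1 : Nat.pair (fcode φ) (fcode φ') = Nat.pair (fcode ψ) (fcode ψ') := by omega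
      obtain ⟨h2, h3⟩ := Nat.pair_eq_pair.1 h1
      rw [ih h2, ih' h3]
    | _ => simp only [fcode] at h; omega
  | all φ ih =>
    intro ψ h
    cases ψ with
    | all ψ =>
      simp only [fcode] at h
      rw [ih (show fcode φ = fcode ψ by omega)]
    | _ => simp only [fcode] at h; omega

instance : Countable SetFormula := fcode_inj.countable

/-! ### The generic sequence -/

theorem exists_seq {P : Type*} [Preorder P] {C : Set P} (hC : C.Nonempty) {J : Type*}
    [Countable J] [Nonempty J] (D : J → Set P) (h : ∀ j, ∀ q ∈ C, ∃ r ∈ C, r ≤ q ∧ r ∈ D j) :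
    ∃ g : ℕ → P, (∀ n, g n ∈ C) ∧ (∀ n m, n ≤ m → g m ≤ g n) ∧ ∀ j, ∃ n, g n ∈ D j := by
  obtain ⟨e, he⟩ := exists_surjective_nat J
  choose! f hf1 hf2 hf3 using h
  obtain ⟨p₀, hp₀⟩ := hC
  let g : ℕ → P := fun n => Nat.rec p₀ (fun n q => f (e n) q) n
  have hg : ∀ n, g n ∈ C := by
    intro n
    induction n with
    | zero => exact hp₀
    | succ n ih => exact hf1 (e n) _ ih
  have hmono : Antitone g := antitone_nat_of_succ_le fun n => hf2 (e n) _ (hg n)
  refine ⟨g, hg, fun n m h => hmono h, fun j => ?_⟩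
  obtain ⟨n, rfl⟩ := he j
  exact ⟨n + 1, hf3 (e n) _ (hg n)⟩

/-- The name of a set of natural numbers. -/
def chk {P : Type u} [Preorder P] (A : Set ℕ) : Nam P :=
  ⟨ULift {n // n ∈ A}, fun _ => ⊤, fun n => Nam.fin n.down.1⟩

/-- Closure properties of a countable set of names `N` and a countable set `C` of conditions. -/
structure Closed' {P : Type u} [Preorder P] (A : ℕ → Set ℕ) (N : Set (Nam P)) (C : Set P) :
    Prop where
  cN : N.Countable
  cC : C.Countable
  ne : C.Nonempty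
  full : ∀ (φ : SetFormula) (v : ℕ → Nam P), (∀ n, v n ∈ N) →
    ∃ x ∈ N, ∀ p, φ.ex.Forces v p → φ.Forces (push x v) p
  dec : ∀ (φ : SetFormula) (v : ℕ → Nam P), (∀ n, v n ∈ N) → ∀ q ∈ C, ∃ r ∈ C, r ≤ q ∧
    (φ.Forces v r ∨ φ.neg.Forces v r)
  ele : ∀ x ∈ N, ∀ y ∈ N, ∀ q ∈ C, (∃ j, q ∈ y.wt j ∧ feq x (y.el j) q) →
    ∃ j, (q ∈ y.wt j ∧ feq x (y.el j) q) ∧ y.el j ∈ N
  dmem : ∀ x ∈ N, ∀ y ∈ N, ∀ q ∈ C, ∃ r ∈ C, r ≤ q ∧
    ((∃ j, r ∈ y.wt j ∧ feq x (y.el j) r) ∨ ∀ s ≤ r, ¬ fmem x y s)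
  finN : ∀ n, Nam.fin n ∈ N
  chkN : ∀ i, chk (A i) ∈ N

section Exists

variable {P : Type u} [Preorder P]

/-- The assignment given by a list. -/
def asg (l : List (Nam P ⊕ P)) : ℕ → Nam P := fun n =>
  Sum.elim id (fun _ => Nam.empty) (l.getD n (Sum.inl Nam.empty))

theorem asg_map (v : ℕ → Nam P) (b n : ℕ) (hn : n < b) :
    asg ((List.range b).map fun n => Sum.inl (v n)) n = v n := by
  simp [asg, List.getD, hn]

/-- The witness for fullness. -/
noncomputable def fw (φ : SetFormula) (v : ℕ → Nam P) : Nam P := (fullness φ v).choose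

theorem fw_spec (φ : SetFormula) (v : ℕ → Nam P) (p : P) (h : φ.ex.Forces v p) :
    φ.Forces (push (fw φ v) v) p := (fullness φ v).choose_spec p h

/-- A deciding condition. -/
noncomputable def dc (φ : SetFormula) (v : ℕ → Nam P) (q : P) : P :=
  (φ.exists_decides v q).choose

theorem dc_spec (φ : SetFormula) (v : ℕ → Nam P) (q : P) : dc φ v q ≤ q ∧
    (φ.Forces v (dc φ v q) ∨ φ.neg.Forces v (dc φ v q)) := (φ.exists_decides v q).choose_spec

open Classical in
/-- An element of `y`. -/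
noncomputable def ej (x y : Nam P) (q : P) : Nam P :=
  if h : ∃ j, q ∈ y.wt j ∧ feq x (y.el j) q then y.el h.choose else Nam.empty

theorem ej_spec {x y : Nam P} {q : P} (h : ∃ j, q ∈ y.wt j ∧ feq x (y.el j) q) :
    ∃ j, (q ∈ y.wt j ∧ feq x (y.el j) q) ∧ y.el j = ej x y q :=
  ⟨h.choose, h.choose_spec, by rw [ej, dif_pos h]⟩

open Classical in
/-- A condition deciding membership. -/
noncomputable def dm (x y : Nam P) (q : P) : P :=
  if h : ∃ r ≤ q, ∃ j, r ∈ y.wt j ∧ feq x (y.el j) r then h.choose else q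

theorem dm_spec (x y : Nam P) (q : P) : dm x y q ≤ q ∧
    ((∃ j, dm x y q ∈ y.wt j ∧ feq x (y.el j) (dm x y q)) ∨ ∀ s ≤ dm x y q, ¬ fmem x y s) := by
  by_cases h : ∃ r ≤ q, ∃ j, r ∈ y.wt j ∧ feq x (y.el j) r
  · rw [dm, dif_pos h]
    exact ⟨h.choose_spec.1, Or.inl h.choose_spec.2⟩
  · rw [dm, dif_neg h]
    refine ⟨le_rfl, Or.inr fun s hs hm => ?_⟩
    obtain ⟨r, hr, h1⟩ := hm s le_rfl
    exact h ⟨r, hr.trans hs, h1⟩

/-- The operations. -/
noncomputable def opF (p₀ : P) (A : ℕ → Set ℕ) :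
    SetFormula ⊕ SetFormula ⊕ Bool ⊕ ℕ ⊕ ℕ → List (Nam P ⊕ P) → Nam P ⊕ P
  | .inl φ, l => .inl (fw φ (asg l))
  | .inr (.inl φ), (.inr q :: l) => .inr (dc φ (asg l) q)
  | .inr (.inr (.inl true)), [.inl x, .inl y, .inr q] => .inl (ej x y q)
  | .inr (.inr (.inl false)), [.inl x, .inl y, .inr q] => .inr (dm x y q)
  | .inr (.inr (.inr (.inl n))), _ => .inl (Nam.fin n)
  | .inr (.inr (.inr (.inr i))), _ => .inl (chk (A i))
  | _, _ => .inr p₀

theorem exists_closed (p₀ : P) (A : ℕ → Set ℕ) : ∃ (N : Set (Nam P)) (C : Set P),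
    Closed' A N C := by
  obtain ⟨S, hS, hF⟩ := exists_countable_closed (opF p₀ A)
  have hl : ∀ (v : ℕ → Nam P) (b : ℕ), (∀ n, Sum.inl (v n) ∈ S) →
      ∀ x ∈ (List.range b).map (fun n => (Sum.inl (v n) : Nam P ⊕ P)), x ∈ S := by
    intro v b hv x hx
    obtain ⟨n, -, rfl⟩ := List.mem_map.1 hx
    exact hv n
  have key : ∀ (φ : SetFormula) (v : ℕ → Nam P) (p : P),
      φ.Forces (asg ((List.range (bd φ)).map fun n => Sum.inl (v n))) p ↔ φ.Forces v p :=
    fun φ v p => forces_bd φ fun n hn => asg_map v _ n hn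
  refine ⟨Sum.inl ⁻¹' S, Sum.inr ⁻¹' S, ?_, ?_, ?_, ?_, ?_, ?_, ?_, ?_, ?_⟩
  · exact hS.preimage Sum.inl_injective
  · exact hS.preimage Sum.inr_injective
  · exact ⟨p₀, hF (.inr (.inl (.mem 0 0))) [] (by simp)⟩
  · intro φ v hv
    refine ⟨_, hF (.inl φ) _ (hl v (bd φ) hv), fun p hp => ?_⟩
    have h1 := fw_spec φ (asg ((List.range (bd φ)).map fun n => Sum.inl (v n))) p
      ((key φ.ex v p).2 hp)
    refine (forces_bd φ fun n hn => ?_).1 h1
    cases n with
    | zero => rfl
    | succ n => exact asg_map v _ n (by omega)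
  · intro φ v hv q hq
    refine ⟨_, hF (.inr (.inl φ)) (.inr q :: _) ?_, (dc_spec φ (asg ((List.range (bd φ)).map
      fun n => Sum.inl (v n))) q).1, ?_⟩
    · intro x hx
      rcases List.mem_cons.1 hx with rfl | hx
      · exact hq
      · exact hl v (bd φ) hv x hx
    · refine (dc_spec φ (asg ((List.range (bd φ)).map fun n => Sum.inl (v n))) q).2.imp
        (key φ v _).1 (key φ.neg v _).1
  · intro x hx y hy q hq h
    obtain ⟨j, h1, h2⟩ := ej_spec h
    refine ⟨j, h1, ?_⟩
    rw [h2]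
    exact hF (.inr (.inr (.inl true))) [.inl x, .inl y, .inr q] (by
      intro z hz
      simp only [List.mem_cons, List.not_mem_nil, or_false] at hz
      rcases hz with rfl | rfl | rfl <;> assumption)
  · intro x hx y hy q hq
    refine ⟨dm x y q, hF (.inr (.inr (.inl false))) [.inl x, .inl y, .inr q] (by
      intro z hz
      simp only [List.mem_cons, List.not_mem_nil, or_false] at hz
      rcases hz with rfl | rfl | rfl <;> assumption), dm_spec x y q⟩
  · exact fun n => hF (.inr (.inr (.inr (.inl n)))) [] (by simp)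
  · exact fun i => hF (.inr (.inr (.inr (.inr i)))) [] (by simp)

end Exists

/-! ### The generic model -/

section Generic

variable {P : Type u} [Preorder P] {A : ℕ → Set ℕ} {N : Set (Nam P)} {C : Set P} (g : ℕ → P)

/-- `S` holds at some condition of the generic sequence. -/
def Gen (S : P → Prop) : Prop := ∃ n, S (g n)

/-- The sequence is descending and decides everything about the names in `N`. -/
structure Generic (N : Set (Nam P)) (C : Set P) : Prop where
  inC : ∀ n, g n ∈ C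
  anti : ∀ n m, n ≤ m → g m ≤ g n
  dec : ∀ (φ : SetFormula) (v : ℕ → Nam P), (∀ n, v n ∈ N) →
    ∃ n, φ.Forces v (g n) ∨ φ.neg.Forces v (g n)
  dmem : ∀ x ∈ N, ∀ y ∈ N, ∃ n, (∃ j, g n ∈ y.wt j ∧ feq x (y.el j) (g n)) ∨
    ∀ s ≤ g n, ¬ fmem x y s

variable {g}

theorem Generic.and (hg : Generic g N C) {S T : P → Prop} (hS : ∀ {p q : P}, q ≤ p → S p → S q)
    (hT : ∀ {p q : P}, q ≤ p → T p → T q) : Gen g (fun p => S p ∧ T p) ↔ Gen g S ∧ Gen g T := by
  constructor
  · rintro ⟨n, h1, h2⟩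
    exact ⟨⟨n, h1⟩, ⟨n, h2⟩⟩
  · rintro ⟨⟨n, h1⟩, ⟨m, h2⟩⟩
    exact ⟨max n m, hS (hg.anti _ _ (le_max_left n m)) h1, hT (hg.anti _ _ (le_max_right n m)) h2⟩

theorem Generic.neg (hg : Generic g N C) (φ : SetFormula) {v : ℕ → Nam P} (hv : ∀ n, v n ∈ N) :
    Gen g (φ.neg.Forces v) ↔ ¬ Gen g (φ.Forces v) := by
  constructor
  · rintro ⟨n, h1⟩ ⟨m, h2⟩
    exact h1 _ (hg.anti _ _ (le_max_left n m))
      (Forces_mono (hg.anti _ _ (le_max_right n m)) h2)
  · intro h
    obtain ⟨n, h1 | h1⟩ := hg.dec φ v hv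
    · exact absurd ⟨n, h1⟩ h
    · exact ⟨n, h1⟩

/-- Equality of names. -/
def genSetoid (hg : Generic g N C) : Setoid N where
  r x y := Gen g (feq x.1 y.1)
  iseqv :=
    { refl := fun x => ⟨0, feq_refl _ _⟩
      symm := fun ⟨n, h⟩ => ⟨n, feq_symm h⟩
      trans := fun h h' => by
        obtain ⟨n, h1, h2⟩ := (hg.and feq_mono feq_mono).2 ⟨h, h'⟩
        exact ⟨n, feq_trans h1 h2⟩ }

/-- The generic model. -/
def CGM (hg : Generic g N C) : Type (u + 1) := Quotient (genSetoid hg)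

/-- The class of a name. -/
def gcl (hg : Generic g N C) (x : N) : CGM hg := Quotient.mk (genSetoid hg) x

theorem gcl_surj (hg : Generic g N C) : Function.Surjective (gcl hg) := Quotient.mk_surjective

theorem gcl_eq (hg : Generic g N C) {x y : N} : gcl hg x = gcl hg y ↔ Gen g (feq x.1 y.1) :=
  Quotient.eq (r := genSetoid hg)

theorem gen_fmem_congr (hg : Generic g N C) {x y x' y' : Nam P} (hx : Gen g (feq x x'))
    (hy : Gen g (feq y y')) (h : Gen g (fmem x y)) : Gen g (fmem x' y') := by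
  obtain ⟨n, ⟨h1, h2⟩, h3⟩ := (hg.and (fun hq h => ⟨feq_mono hq h.1, feq_mono hq h.2⟩)
    fmem_mono).2 ⟨(hg.and feq_mono feq_mono).2 ⟨hx, hy⟩, h⟩
  exact ⟨n, fmem_congr h1 h2 h3⟩

/-- Membership. -/
def CGE (hg : Generic g N C) (x y : CGM hg) : Prop :=
  Quotient.liftOn₂ x y (fun x y => Gen g (fmem x.1 y.1)) (by
    intro x y x' y' hx hy
    refine propext ⟨fun h => gen_fmem_congr hg hx hy h, fun h => ?_⟩
    exact gen_fmem_congr hg ((genSetoid hg).symm hx) ((genSetoid hg).symm hy) h)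

theorem CGE_gcl (hg : Generic g N C) {x y : N} :
    CGE hg (gcl hg x) (gcl hg y) ↔ Gen g (fmem x.1 y.1) := Iff.rfl

theorem push_gcl (hg : Generic g N C) (x : N) (v : ℕ → N) :
    (push (gcl hg x) fun n => gcl hg (v n)) = fun n => gcl hg (push x v n) := by
  funext n
  cases n <;> rfl

theorem push_val (x : N) (v : ℕ → N) :
    (push x.1 fun n => (v n).1) = fun n => (push x v n).1 := by
  funext n
  cases n <;> rfl

/-- **The truth lemma.** -/
theorem truth (hN : Closed' A N C) (hg : Generic g N C) (φ : SetFormula) : ∀ v : ℕ → N,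
    φ.Holds (CGE hg) (fun n => gcl hg (v n)) ↔ Gen g (φ.Forces fun n => (v n).1) := by
  induction φ with
  | mem i j => exact fun v => Iff.rfl
  | eq i j => exact fun v => gcl_eq hg
  | neg φ ih =>
    intro v
    rw [hg.neg φ fun n => (v n).2, ← ih v]
    exact Iff.rfl
  | and φ ψ ih ih' =>
    intro v
    have h1 := hg.and (φ.forces_mono fun n => (v n).1) (ψ.forces_mono fun n => (v n).1)
    have h2 : Gen g ((SetFormula.and φ ψ).Forces fun n => (v n).1) ↔
      Gen g (fun p => φ.Forces (fun n => (v n).1) p ∧ ψ.Forces (fun n => (v n).1) p) := Iff.rfl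
    rw [h2, h1, ← ih v, ← ih' v]
    exact Iff.rfl
  | all φ ih =>
    intro v
    constructor
    · intro h
      by_contra hc
      rw [← hg.neg (.all φ) fun n => (v n).2] at hc
      obtain ⟨x, hxN, hx⟩ := hN.full (.neg φ) (fun n => (v n).1) fun n => (v n).2
      obtain ⟨n, hn⟩ := hc
      have h2 := hx (g n) (by
        intro q hq hq'
        refine hn q hq fun y => Forces_reg fun r hr => ?_
        have h3 := hq' y r hr
        by_contra h4
        push Not at h4
        exact h3 fun s hs hs' => h4 s hs hs')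
      have h3 := h (gcl hg ⟨x, hxN⟩)
      rw [push_gcl, ih] at h3
      have h4 := (hg.neg φ (v := push x fun n => (v n).1) (by
        intro n
        cases n with
        | zero => exact hxN
        | succ n => exact (v n).2)).1 ⟨n, h2⟩
      rw [← push_val] at h3
      exact h4 h3
    · rintro ⟨n, hn⟩ x
      obtain ⟨x, rfl⟩ := gcl_surj hg x
      rw [push_gcl, ih, ← push_val]
      exact ⟨n, hn x.1⟩

theorem exists_el (hN : Closed' A N C) (hg : Generic g N C) {z : CGM hg} {y : Nam P} (hy : y ∈ N)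
    (h : CGE hg z (gcl hg ⟨y, hy⟩)) : ∃ (j : y.idx) (hj : y.el j ∈ N), z = gcl hg ⟨y.el j, hj⟩ ∧
      Gen g (fun p => p ∈ y.wt j) := by
  obtain ⟨x, rfl⟩ := gcl_surj hg z
  obtain ⟨n, h1 | h1⟩ := hg.dmem x.1 x.2 y hy
  · obtain ⟨j, ⟨h2, h3⟩, h4⟩ := hN.ele x.1 x.2 y hy (g n) (hg.inC n) h1
    exact ⟨j, h4, (gcl_eq hg).2 ⟨n, h3⟩, n, h2⟩
  · obtain ⟨m, h2⟩ := h
    exact absurd (fmem_mono (hg.anti _ _ (le_max_right n m)) h2)
      (h1 _ (hg.anti _ _ (le_max_left n m)))

theorem CGE_wf (hN : Closed' A N C) (hg : Generic g N C) : WellFounded (CGE hg) := by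
  have key : ∀ (y : Nam P) (hy : y ∈ N), Acc (CGE hg) (gcl hg ⟨y, hy⟩) := by
    intro y
    induction y with
    | mk ι w y ih =>
      intro hy
      refine ⟨_, fun z hz => ?_⟩
      obtain ⟨j, hj, rfl, -⟩ := exists_el hN hg hy hz
      exact ih j hj
  refine ⟨fun x => ?_⟩
  obtain ⟨x, rfl⟩ := gcl_surj hg x
  exact key x.1 x.2

theorem exists_generic (hN : Closed' A N C) : ∃ g : ℕ → P, Generic g N C := by
  have : Countable N := hN.cN
  have hne : Nonempty N := ⟨⟨_, hN.finN 0⟩⟩
  let J : Type (u + 1) := (SetFormula × List N) ⊕ (N × N)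
  have : Nonempty J := ⟨Sum.inr (hne.some, hne.some)⟩
  let as : List N → ℕ → Nam P := fun l n => (l.getD n hne.some).1
  let D : J → Set P := fun j => match j with
    | .inl (φ, l) => {p | φ.Forces (as l) p ∨ φ.neg.Forces (as l) p}
    | .inr (x, y) => {p | (∃ j, p ∈ y.1.wt j ∧ feq x.1 (y.1.el j) p) ∨ ∀ s ≤ p, ¬ fmem x.1 y.1 s}
  obtain ⟨g, h1, h2, h3⟩ := exists_seq hN.ne D (by
    rintro (⟨φ, l⟩ | ⟨x, y⟩) q hq
    · exact hN.dec φ (as l) (fun n => (l.getD n hne.some).2) q hq
    · exact hN.dmem x.1 x.2 y.1 y.2 q hq)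
  refine ⟨g, h1, h2, fun φ v hv => ?_, fun x hx y hy => h3 (.inr (⟨x, hx⟩, ⟨y, hy⟩))⟩
  obtain ⟨n, hn⟩ := h3 (.inl (φ, (List.range (bd φ)).map fun n => ⟨v n, hv n⟩))
  have h4 : ∀ k < bd φ, as ((List.range (bd φ)).map fun n => ⟨v n, hv n⟩) k = v k := by
    intro k hk
    simp [as, List.getD, hk]
  exact ⟨n, hn.imp (forces_bd φ h4).1 (forces_bd φ.neg h4).1⟩

end Generic

/-- **A well-founded model of ZFC in which everything forced holds**, and which contains given
sets of natural numbers. -/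
theorem exists_ctm' (P : Type) [Preorder P] [Nonempty P] (A : ℕ → Set ℕ) :
    ∃ (M : Type 1) (E : M → M → Prop), Countable M ∧ WellFounded E ∧ ModelsZFC E ∧
      (∀ φ : SetFormula, (∀ (v : ℕ → Nam P) p, φ.Forces v p) → ∀ v, φ.Holds E v) ∧
      ∃ nM : ℕ → M, (∀ x, ¬ E x (nM 0)) ∧ (∀ n x, E x (nM (n + 1)) ↔ E x (nM n) ∨ x = nM n) ∧
        ∀ i, ∃ m, ∀ x, E x m ↔ ∃ n ∈ A i, x = nM n := by
  obtain ⟨p₀⟩ := (inferInstance : Nonempty P)
  obtain ⟨N, C, hN⟩ := exists_closed p₀ A
  obtain ⟨g, hg⟩ := exists_generic hN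
  have hT : ∀ φ : SetFormula, (∀ (v : ℕ → Nam P) p, φ.Forces v p) → ∀ v, φ.Holds (CGE hg) v := by
    intro φ h v
    choose f hf using gcl_surj hg
    obtain ⟨v, rfl⟩ : ∃ v' : ℕ → N, v = fun n => gcl hg (v' n) :=
      ⟨fun n => f (v n), funext fun n => (hf (v n)).symm⟩
    exact (truth hN hg φ v).2 ⟨0, h _ _⟩
  have : Countable N := hN.cN
  refine ⟨CGM hg, CGE hg, (gcl_surj hg).countable, CGE_wf hN hg, ?_, hT,
    fun n => gcl hg ⟨Nam.fin n, hN.finN n⟩, ?_, ?_, ?_⟩
  · exact modelsZFC_of_valid (gcl hg ⟨_, hN.finN 0⟩) fun χ hχ v => hT χ (forced_of_valid χ hχ) v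
  · intro x hx
    obtain ⟨x, rfl⟩ := gcl_surj hg x
    obtain ⟨n, hn⟩ := hx
    exact not_fmem_empty _ _ hn
  · intro n x
    obtain ⟨x, rfl⟩ := gcl_surj hg x
    have h1 := truth hN hg (iff' (.mem 0 1) (or' (.mem 0 2) (.eq 0 2)))
      (push x (push ⟨Nam.fin (n + 1), hN.finN (n + 1)⟩ fun _ => ⟨Nam.fin n, hN.finN n⟩))
    rw [holds_iff, holds_or] at h1
    refine h1.2 ⟨0, ?_⟩
    rw [forces_iff]
    intro q hq
    rw [forces_or]
    exact fmem_succ
  · intro i
    refine ⟨gcl hg ⟨chk (A i), hN.chkN i⟩, fun x => ⟨fun h => ?_, ?_⟩⟩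
    · obtain ⟨⟨n⟩, hj, rfl, -⟩ := exists_el hN hg (hN.chkN i) h
      exact ⟨n.1, n.2, rfl⟩
    · rintro ⟨n, hn, rfl⟩
      exact ⟨0, fmem_of_wt (y := chk (A i)) (j := ⟨⟨n, hn⟩⟩) trivial⟩

theorem exists_ctm (P : Type) [Preorder P] [Nonempty P] (A : ℕ → Set ℕ) :
    ∃ (M : Type 1) (E : M → M → Prop), WellFounded E ∧ ModelsZFC E ∧
      (∀ φ : SetFormula, (∀ (v : ℕ → Nam P) p, φ.Forces v p) → ∀ v, φ.Holds E v) ∧
      ∃ nM : ℕ → M, (∀ x, ¬ E x (nM 0)) ∧ (∀ n x, E x (nM (n + 1)) ↔ E x (nM n) ∨ x = nM n) ∧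
        ∀ i, ∃ m, ∀ x, E x m ↔ ∃ n ∈ A i, x = nM n := by
  obtain ⟨M, E, -, h⟩ := exists_ctm' P A
  exact ⟨M, E, h⟩

end MP186633L.Ctm
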