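import Pool.Agent.Lib.MP_186633_lc.Stmt
import Pool.Agent.Lib.MP_9708fd_lc.FStmt

/-!
# MP_186633_lc, plan A, part 1: definable predicates over a well-founded model of ZFC
-/

set_option autoImplicit false

namespace MP186633L

open MP9708F

universe u

/-- a well-founded model of ZFC -/
class ZM (M : Type u) where
  /-- the membership relation -/
  E : M → M → Prop
  zfc : ModelsZFC E
  wf : WellFounded E

open ZM (E)

/-! ### Renaming of variables -/

/-- the renaming under one more quantifier -/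
def upR (τ : ℕ → ℕ) : ℕ → ℕ
  | 0 => 0
  | i + 1 => τ i + 1

/-- renaming of variables -/
def ren : (ℕ → ℕ) → SetFormula → SetFormula
  | τ, .mem i j => .mem (τ i) (τ j)
  | τ, .eq i j => .eq (τ i) (τ j)
  | τ, .neg φ => .neg (ren τ φ)
  | τ, .and φ ψ => .and (ren τ φ) (ren τ ψ)
  | τ, .all φ => .all (ren (upR τ) φ)

section

variable {M : Type u} [ZM M]

theorem holds_ren (φ : SetFormula) (τ : ℕ → ℕ) (v : ℕ → M) :
    (ren τ φ).Holds E v ↔ φ.Holds E (fun i => v (τ i)) := by
  induction φ generalizing τ v with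
  | mem i j => exact Iff.rfl
  | eq i j => exact Iff.rfl
  | neg φ ih => exact not_congr (ih τ v)
  | and φ ψ ih1 ih2 => exact and_congr (ih1 τ v) (ih2 τ v)
  | all φ ih =>
    refine forall_congr' fun x => ?_
    rw [ih]
    have : (fun i => push x v (upR τ i)) = push x fun i => v (τ i) := by
      funext i
      cases i <;> rfl
    rw [this]

/-- `Q` is definable from finitely many parameters -/
def DP (Q : (ℕ → M) → Prop) : Prop :=
  ∃ (φ : SetFormula) (σ : ℕ → ℕ ⊕ M), ∀ v, Q v ↔ φ.Holds E fun i => Sum.elim v id (σ i)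

theorem DP.congr {Q Q' : (ℕ → M) → Prop} (h : DP Q) (he : ∀ v, Q v ↔ Q' v) : DP Q' := by
  obtain ⟨φ, σ, h⟩ := h
  exact ⟨φ, σ, fun v => (he v).symm.trans (h v)⟩

theorem DP.not {Q : (ℕ → M) → Prop} (h : DP Q) : DP fun v => ¬ Q v := by
  obtain ⟨φ, σ, h⟩ := h
  exact ⟨.neg φ, σ, fun v => not_congr (h v)⟩

theorem DP.and {Q Q' : (ℕ → M) → Prop} (h : DP Q) (h' : DP Q') : DP fun v => Q v ∧ Q' v := by
  obtain ⟨φ, σ, h⟩ := h
  obtain ⟨φ', σ', h'⟩ := h'
  refine ⟨.and (ren (fun i => 2 * i) φ) (ren (fun i => 2 * i + 1) φ'),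
    fun i => if i % 2 = 0 then σ (i / 2) else σ' (i / 2), fun v => ?_⟩
  show (Q v ∧ Q' v) ↔ (_ ∧ _)
  rw [holds_ren, holds_ren, h v, h' v]
  beta_reduce
  have e1 : (fun i => Sum.elim v id (if 2 * i % 2 = 0 then σ (2 * i / 2) else σ' (2 * i / 2))) =
      fun i => Sum.elim v id (σ i) := by
    funext i
    have h1 : 2 * i % 2 = 0 := by omega
    have h2 : 2 * i / 2 = i := by omega
    rw [if_pos h1, h2]
  have e2 : (fun i => Sum.elim v id (if (2 * i + 1) % 2 = 0 then σ ((2 * i + 1) / 2)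
      else σ' ((2 * i + 1) / 2))) = fun i => Sum.elim v id (σ' i) := by
    funext i
    have h1 : ¬ (2 * i + 1) % 2 = 0 := by omega
    have h2 : (2 * i + 1) / 2 = i := by omega
    rw [if_neg h1, h2]
  rw [e1, e2]

theorem DP.all {Q : M → (ℕ → M) → Prop} (h : DP fun v => Q (v 0) fun i => v (i + 1)) :
    DP fun v => ∀ x, Q x v := by
  classical
  obtain ⟨φ, σ, h⟩ := h
  refine ⟨.all (ren (fun i => if σ i = Sum.inl 0 then 0 else i + 1) φ),
    fun i => match σ i with
      | Sum.inl 0 => Sum.inl 0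
      | Sum.inl (j + 1) => Sum.inl j
      | Sum.inr m => Sum.inr m, fun v => ?_⟩
  refine forall_congr' fun x => ?_
  rw [holds_ren]
  have h1 : Q x v ↔ φ.Holds E fun i => Sum.elim (push x v) id (σ i) := h (push x v)
  refine h1.trans ?_
  have e2 : (fun i => Sum.elim (push x v) id (σ i)) = fun i =>
      push x (fun i => Sum.elim v id (match σ i with
      | Sum.inl 0 => Sum.inl 0
      | Sum.inl (j + 1) => Sum.inl j
      | Sum.inr m => Sum.inr m)) (if σ i = Sum.inl 0 then 0 else i + 1) := by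
    funext i
    by_cases h0 : σ i = Sum.inl 0
    · rw [if_pos h0, h0]
      rfl
    · rw [if_neg h0]
      show _ = Sum.elim v id _
      rcases hs : σ i with (_ | j) | m
      · exact absurd hs h0
      · rfl
      · rfl
  rw [e2]

/-- substitution of variables and parameters for variables -/
theorem DP.subst {Q : (ℕ → M) → Prop} (h : DP Q) (θ : ℕ → ℕ ⊕ M) :
    DP fun v => Q fun i => Sum.elim v id (θ i) := by
  obtain ⟨φ, σ, h⟩ := h
  refine ⟨φ, fun i => Sum.elim θ Sum.inr (σ i), fun v => ?_⟩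
  beta_reduce
  rw [h]
  have : (fun i => Sum.elim (fun i => Sum.elim v id (θ i)) id (σ i)) =
      fun i => Sum.elim v id (Sum.elim θ Sum.inr (σ i)) := by
    funext i
    rcases σ i with j | m <;> rfl
  rw [this]

theorem DP.or {Q Q' : (ℕ → M) → Prop} (h : DP Q) (h' : DP Q') : DP fun v => Q v ∨ Q' v :=
  (h.not.and h'.not).not.congr fun v => by tauto

theorem DP.imp {Q Q' : (ℕ → M) → Prop} (h : DP Q) (h' : DP Q') : DP fun v => Q v → Q' v :=
  (h.and h'.not).not.congr fun v => by tauto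

theorem DP.iff {Q Q' : (ℕ → M) → Prop} (h : DP Q) (h' : DP Q') : DP fun v => (Q v ↔ Q' v) :=
  ((h.imp h').and (h'.imp h)).congr fun v => by tauto

theorem DP.ex {Q : M → (ℕ → M) → Prop} (h : DP fun v => Q (v 0) fun i => v (i + 1)) :
    DP fun v => ∃ x, Q x v :=
  (DP.all (Q := fun x v => ¬ Q x v) h.not).not.congr fun v => by push Not; rfl

theorem DP.true : DP fun _ : ℕ → M => True :=
  ⟨.eq 0 0, fun _ => Sum.inl 0, fun v => by simp [SetFormula.Holds]⟩

theorem DP.prop (p : Prop) : DP fun _ : ℕ → M => p := by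
  by_cases hp : p
  · exact DP.true.congr fun v => by simp [hp]
  · exact DP.true.not.congr fun v => by simp [hp]

theorem DP.mem0 (i j : ℕ) : DP fun v : ℕ → M => E (v i) (v j) :=
  ⟨.mem i j, Sum.inl, fun _ => Iff.rfl⟩

theorem DP.eq0 (i j : ℕ) : DP fun v : ℕ → M => v i = v j :=
  ⟨.eq i j, Sum.inl, fun _ => Iff.rfl⟩

/-- definable terms -/
def DT (t : (ℕ → M) → M) : Prop := DP fun v => v 0 = t fun i => v (i + 1)

theorem DT.var (i : ℕ) : DT fun v : ℕ → M => v i := DP.eq0 0 (i + 1)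

theorem DT.const (c : M) : DT fun _ : ℕ → M => c :=
  (DP.subst (DP.eq0 (M := M) 0 1) fun i => if i = 0 then Sum.inl 0 else Sum.inr c).congr
    fun v => by simp

theorem DP.comp1 {P : M → Prop} (h : DP fun v => P (v 0)) {t : (ℕ → M) → M} (ht : DT t) :
    DP fun v => P (t v) := by
  have h1 : DP fun v : ℕ → M => P (v 0) ∧ v 0 = t fun i => v (i + 1) := h.and ht
  exact (DP.ex (Q := fun y v => P y ∧ y = t v) h1).congr fun v => by simp

theorem DP.comp2 {P : M → M → Prop} (h : DP fun v => P (v 0) (v 1)) {s t : (ℕ → M) → M}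
    (hs : DT s) (ht : DT t) : DP fun v => P (s v) (t v) := by
  have h1 : DP fun v : ℕ → M => P (v 0) (v 1) ∧ v 0 = (s fun i => v (i + 2)) ∧
      v 1 = t fun i => v (i + 2) := by
    refine h.and ((DP.congr (DP.subst hs fun i => if i = 0 then Sum.inl 0 else Sum.inl (i + 1))
      fun v => ?_).and (DP.congr (DP.subst ht fun i => Sum.inl (i + 1)) fun v => ?_))
    · simp
    · simp
  exact (DP.ex (Q := fun y v => ∃ x, P x y ∧ x = s v ∧ y = t v) (DP.ex
    (Q := fun x v => P x (v 0) ∧ x = (s fun i => v (i + 1)) ∧ v 0 = t fun i => v (i + 1))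
      h1)).congr fun v => by simp

theorem DP.mem {s t : (ℕ → M) → M} (hs : DT s) (ht : DT t) : DP fun v => E (s v) (t v) :=
  DP.comp2 (DP.mem0 0 1) hs ht

theorem DP.eq {s t : (ℕ → M) → M} (hs : DT s) (ht : DT t) : DP fun v => s v = t v :=
  DP.comp2 (DP.eq0 0 1) hs ht

/-- a term with a definable graph is a definable term -/
theorem DT.of_graph {t : (ℕ → M) → M} {Q : M → (ℕ → M) → Prop}
    (h : DP fun v => Q (v 0) fun i => v (i + 1)) (ht : ∀ v x, x = t v ↔ Q x v) : DT t :=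
  h.congr fun _ => (ht _ _).symm

theorem DT.comp1 {f : M → M} (hf : DT fun v => f (v 0)) {t : (ℕ → M) → M} (ht : DT t) :
    DT fun v => f (t v) := by
  have h1 : DP fun v : ℕ → M => v 0 = f (v 1) := hf
  have h2 : DT fun v : ℕ → M => t fun i => v (i + 1) :=
    (DP.subst ht fun i => if i = 0 then Sum.inl 0 else Sum.inl (i + 1)).congr fun v => by simp
  exact DP.comp2 (P := fun x y => x = f y) h1 (DT.var 0) h2

theorem DT.comp2 {f : M → M → M} (hf : DT fun v => f (v 0) (v 1)) {s t : (ℕ → M) → M}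
    (hs : DT s) (ht : DT t) : DT fun v => f (s v) (t v) := by
  have h1 : DP fun v : ℕ → M => ∃ x, ∃ y, (v 0 = f x y ∧ x = (s fun i => v (i + 1))) ∧
      y = t fun i => v (i + 1) := by
    refine DP.ex (Q := fun x v => ∃ y, (v 0 = f x y ∧ x = (s fun i => v (i + 1))) ∧
      y = t fun i => v (i + 1)) (DP.ex (Q := fun y v => (v 1 = f (v 0) y ∧
        v 0 = (s fun i => v (i + 2))) ∧ y = t fun i => v (i + 2)) ?_)
    refine DP.and (DP.and ?_ ?_) ?_
    · exact (DP.subst hf fun i => if i = 0 then Sum.inl 2 else if i = 1 then Sum.inl 1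
        else Sum.inl 0).congr fun v => by simp
    · exact (DP.subst hs fun i => if i = 0 then Sum.inl 1 else Sum.inl (i + 2)).congr
        fun v => by simp
    · exact (DP.subst ht fun i => if i = 0 then Sum.inl 0 else Sum.inl (i + 2)).congr
        fun v => by simp
  exact h1.congr fun v => by simp

end

section

variable {M : Type u} [ZM M]

theorem ext {x y : M} (h : ∀ z, E z x ↔ E z y) : x = y := ZM.zfc.extensionality x y h

theorem DP.isPair {p a b : (ℕ → M) → M} (hp : DT p) (ha : DT a) (hb : DT b) :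
    DP fun v => IsPair E (p v) (a v) (b v) := by
  have h : DP fun v : ℕ → M => IsPair E (v 0) (v 1) (v 2) := by
    exact DP.all (DP.iff (DP.mem (DT.var 0) (DT.var 1)) (DP.or
      (DP.all (DP.iff (DP.mem (DT.var 0) (DT.var 1)) (DP.eq (DT.var 0) (DT.var 3))))
      (DP.all (DP.iff (DP.mem (DT.var 0) (DT.var 1)) (DP.or (DP.eq (DT.var 0) (DT.var 3))
        (DP.eq (DT.var 0) (DT.var 4)))))))
  have h1 : DP fun v : ℕ → M => ∃ x, ∃ y, ∃ z, IsPair E x y z ∧ x = p v ∧ y = a v ∧ z = b v := by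
    refine DP.ex (DP.ex (DP.ex (DP.and ?_ (DP.and ?_ (DP.and ?_ ?_)))))
    · exact (DP.subst h fun i => if i = 0 then Sum.inl 2 else if i = 1 then Sum.inl 1
        else Sum.inl 0).congr fun v => by simp
    · exact (DP.subst hp fun i => if i = 0 then Sum.inl 2 else Sum.inl (i + 2)).congr
        fun v => by simp
    · exact (DP.subst ha fun i => if i = 0 then Sum.inl 1 else Sum.inl (i + 2)).congr
        fun v => by simp
    · exact (DP.subst hb fun i => if i = 0 then Sum.inl 0 else Sum.inl (i + 2)).congr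
        fun v => by simp
  exact h1.congr fun v => by simp


/-! ### Separation and replacement -/

theorem sep {P : M → Prop} (h : DP fun v => P (v 0)) (x : M) :
    ∃ y, ∀ z, E z y ↔ E z x ∧ P z := by
  classical
  obtain ⟨φ, σ, h⟩ := h
  obtain ⟨y, hy⟩ := ZM.zfc.separation (E := E) (ren (fun i => if σ i = Sum.inl 0 then 0 else i + 1) φ)
    (fun i => Sum.elim (fun _ => x) id (σ i)) x
  refine ⟨y, fun z => (hy z).trans (and_congr_right fun _ => ?_)⟩
  rw [holds_ren]
  have h1 : P z ↔ φ.Holds E fun i => Sum.elim (push z fun _ => x) id (σ i) :=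
    h (push z fun _ => x)
  rw [h1]
  have : (fun i => push z (fun i => Sum.elim (fun _ => x) id (σ i))
      (if σ i = Sum.inl 0 then 0 else i + 1)) =
      fun i => Sum.elim (push z fun _ => x) id (σ i) := by
    funext i
    by_cases h0 : σ i = Sum.inl 0
    · rw [if_pos h0, h0]
      rfl
    · rw [if_neg h0]
      show Sum.elim (fun _ => x) id (σ i) = _
      rcases hs : σ i with (_ | j) | m
      · exact absurd hs h0
      · rfl
      · rfl
  rw [this]

theorem repl {R : M → M → Prop} (h : DP fun v => R (v 0) (v 1)) (x : M)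
    (hx : ∀ y, E y x → ∃! z, R y z) : ∃ t, ∀ z, E z t ↔ ∃ y, E y x ∧ R y z := by
  classical
  obtain ⟨φ, σ, h⟩ := h
  have key : ∀ y z, (ren (fun i => if σ i = Sum.inl 0 then 1 else
      if σ i = Sum.inl 1 then 0 else i + 2) φ).Holds E
      (push z (push y fun i => Sum.elim (fun _ => x) id (σ i))) ↔ R y z := by
    intro y z
    rw [holds_ren]
    have h1 : R y z ↔ φ.Holds E fun i => Sum.elim (push y (push z fun _ => x)) id (σ i) :=
      h (push y (push z fun _ => x))
    rw [h1]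
    have : (fun i => push z (push y (fun i => Sum.elim (fun _ => x) id (σ i)))
        (if σ i = Sum.inl 0 then 1 else if σ i = Sum.inl 1 then 0 else i + 2)) =
        fun i => Sum.elim (push y (push z fun _ => x)) id (σ i) := by
      funext i
      by_cases h0 : σ i = Sum.inl 0
      · rw [if_pos h0, h0]
        rfl
      · by_cases h1 : σ i = Sum.inl 1
        · rw [if_neg h0, if_pos h1, h1]
          rfl
        · rw [if_neg h0, if_neg h1]
          show Sum.elim (fun _ => x) id (σ i) = _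
          rcases hs : σ i with (_ | _ | j) | m
          · exact absurd hs h0
          · exact absurd hs h1
          · rfl
          · rfl
    rw [this]
  obtain ⟨t, ht⟩ := ZM.zfc.replacement (E := E) (ren (fun i => if σ i = Sum.inl 0 then 1 else
      if σ i = Sum.inl 1 then 0 else i + 2) φ) (fun i => Sum.elim (fun _ => x) id (σ i)) x
    (fun y hy => by
      obtain ⟨z, hz1, hz2⟩ := hx y hy
      exact ⟨z, (key y z).2 hz1, fun z' hz' => hz2 z' ((key y z').1 hz')⟩)
  exact ⟨t, fun z => (ht z).trans (exists_congr fun y => and_congr_right fun _ => key y z)⟩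

/-! ### Pairs -/

theorem exists_upair (a b : M) : ∃ p : M, ∀ w, E w p ↔ w = a ∨ w = b := ZM.zfc.pairing a b

theorem exists_pair (a b : M) : ∃ p : M, IsPair E p a b := by
  obtain ⟨s, hs⟩ := exists_upair a a
  obtain ⟨t, ht⟩ := exists_upair a b
  obtain ⟨p, hp⟩ := exists_upair s t
  refine ⟨p, fun z => (hp z).trans (or_congr ?_ ?_)⟩
  · constructor
    · rintro rfl w
      rw [hs]
      simp
    · intro h
      refine ext fun w => ?_
      rw [hs, h]
      simp
  · constructor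
    · rintro rfl
      exact ht
    · intro h
      exact ext fun w => (h w).trans (ht w).symm

/-- the pair `(a, b)` -/
noncomputable def pr (a b : M) : M := (exists_pair a b).choose

theorem isPair_pr (a b : M) : IsPair E (pr a b) a b := (exists_pair a b).choose_spec

theorem isPair_iff' {p a b : M} : IsPair E p a b ↔ p = pr a b := by
  constructor
  · intro h
    exact ext fun z => (h z).trans (isPair_pr a b z).symm
  · rintro rfl
    exact isPair_pr a b

theorem pr_inj {a b a' b' : M} (h : pr a b = pr a' b') : a = a' ∧ b = b' := by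
  have h1 := isPair_pr a b
  have h2 := isPair_pr a' b'
  rw [← h] at h2
  obtain ⟨s, hs⟩ := exists_upair a a
  obtain ⟨t, ht⟩ := exists_upair a b
  obtain ⟨s', hs'⟩ := exists_upair a' a'
  obtain ⟨t', ht'⟩ := exists_upair a' b'
  have hs1 : E s (pr a b) := (h1 s).2 (Or.inl fun w => by rw [hs]; simp)
  have ht1 : E t (pr a b) := (h1 t).2 (Or.inr ht)
  have hs1' : E s' (pr a b) := (h2 s').2 (Or.inl fun w => by rw [hs']; simp)
  have ht1' : E t' (pr a b) := (h2 t').2 (Or.inr ht')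
  have ea : a = a' := by
    rcases (h2 s).1 hs1 with h3 | h3
    · exact (h3 a).1 ((hs a).2 (Or.inl rfl))
    · have := (hs a').1 ((h3 a').2 (Or.inl rfl))
      simp only [or_self] at this
      exact this.symm
  subst ea
  refine ⟨rfl, ?_⟩
  rcases (h1 t').1 ht1' with h3 | h3
  · have e1 : b' = a := (h3 b').1 ((ht' b').2 (Or.inr rfl))
    rcases (h2 t).1 ht1 with h4 | h4
    · have e2 : b = a := (h4 b).1 ((ht b).2 (Or.inr rfl))
      rw [e1, e2]
    · have e2 := (h4 b).1 ((ht b).2 (Or.inr rfl))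
      rcases e2 with e2 | e2
      · rw [e1, e2]
      · exact e2
  · have e1 := (h3 b').1 ((ht' b').2 (Or.inr rfl))
    rcases e1 with e1 | e1
    · rcases (h2 t).1 ht1 with h4 | h4
      · have e2 : b = a := (h4 b).1 ((ht b).2 (Or.inr rfl))
        rw [e1, e2]
      · have e2 := (h4 b).1 ((ht b).2 (Or.inr rfl))
        rcases e2 with e2 | e2
        · rw [e1, e2]
        · exact e2
    · exact e1.symm

theorem pr_inj_iff {a b a' b' : M} : pr a b = pr a' b' ↔ a = a' ∧ b = b' :=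
  ⟨pr_inj, fun h => by rw [h.1, h.2]⟩

theorem DT.pr {s t : (ℕ → M) → M} (hs : DT s) (ht : DT t) : DT fun v => pr (s v) (t v) := by
  refine DT.comp2 (f := MP186633L.pr) ?_ hs ht
  exact (DP.isPair (DT.var 0) (DT.var 1) (DT.var 2)).congr fun v => isPair_iff'


theorem hasPair_iff' {f a b : M} : HasPair E f a b ↔ E (pr a b) f := by
  constructor
  · rintro ⟨p, h1, h2⟩
    rwa [← isPair_iff'.1 h2]
  · intro h
    exact ⟨_, h, isPair_pr a b⟩

theorem hasTrip_iff' {f a b c : M} : HasTrip E f a b c ↔ E (pr (pr a b) c) f := by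
  constructor
  · rintro ⟨p, h1, h2⟩
    rw [isPair_iff'] at h1
    subst h1
    exact hasPair_iff'.1 h2
  · intro h
    exact ⟨_, isPair_pr a b, hasPair_iff'.2 h⟩

theorem hasQuad_iff' {f a b c d : M} : HasQuad E f a b c d ↔ E (pr (pr (pr a b) c) d) f := by
  constructor
  · rintro ⟨p, h1, h2⟩
    rw [isPair_iff'] at h1
    subst h1
    exact hasTrip_iff'.1 h2
  · intro h
    exact ⟨_, isPair_pr a b, hasTrip_iff'.2 h⟩

/-! ### Natural numbers -/

theorem exists_empty : ∃ x : M, ∀ z, ¬ E z x := by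
  obtain ⟨x, ⟨y, -, hy⟩, -⟩ := ZM.zfc.infinity (E := (E : M → M → Prop))
  exact ⟨y, hy⟩

theorem exists_adj (x y : M) : ∃ s : M, ∀ z, E z s ↔ E z x ∨ z = y := by
  obtain ⟨a, ha⟩ := exists_upair y y
  obtain ⟨b, hb⟩ := exists_upair x a
  obtain ⟨s, hs⟩ := ZM.zfc.union (E := E) b
  refine ⟨s, fun z => (hs z).trans ?_⟩
  constructor
  · rintro ⟨w, h1, h2⟩
    rcases (hb w).1 h1 with rfl | rfl
    · exact Or.inl h2
    · right
      simpa using (ha z).1 h2
  · rintro (h | rfl)
    · exact ⟨x, (hb x).2 (Or.inl rfl), h⟩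
    · exact ⟨a, (hb a).2 (Or.inr rfl), (ha z).2 (Or.inl rfl)⟩

/-- `x ∪ {y}` -/
noncomputable def adj (x y : M) : M := (exists_adj x y).choose

theorem mem_adj {x y z : M} : E z (adj x y) ↔ E z x ∨ z = y := (exists_adj x y).choose_spec z

variable (M)

/-- the natural number `n` of `M` -/
noncomputable def nM : ℕ → M
  | 0 => (exists_empty (M := M)).choose
  | n + 1 => adj (nM n) (nM n)

variable {M}

theorem not_mem_nM_zero (z : M) : ¬ E z (nM M 0) := (exists_empty (M := M)).choose_spec z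

theorem mem_nM_succ {n : ℕ} {z : M} : E z (nM M (n + 1)) ↔ E z (nM M n) ∨ z = nM M n := mem_adj

theorem mem_nM {n : ℕ} {z : M} : E z (nM M n) ↔ ∃ m < n, z = nM M m := by
  induction n with
  | zero =>
    constructor
    · intro h
      exact absurd h (not_mem_nM_zero z)
    · rintro ⟨m, hm, -⟩
      omega
  | succ n ih =>
    rw [mem_nM_succ, ih]
    constructor
    · rintro (⟨m, hm, rfl⟩ | rfl)
      · exact ⟨m, by omega, rfl⟩
      · exact ⟨n, by omega, rfl⟩
    · rintro ⟨m, hm, rfl⟩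
      rcases Nat.lt_succ_iff_lt_or_eq.1 hm with h | rfl
      · exact Or.inl ⟨m, h, rfl⟩
      · exact Or.inr rfl

theorem not_mem_self (x : M) : ¬ E x x := fun h => by
  have := ZM.wf (M := M)
  exact (WellFounded.irrefl this).irrefl x h

theorem nM_ne {m n : ℕ} (h : m < n) : nM M m ≠ nM M n := by
  intro he
  have h1 : E (nM M m) (nM M n) := mem_nM.2 ⟨m, h, rfl⟩
  rw [← he] at h1
  exact not_mem_self _ h1

theorem nM_inj : Function.Injective (nM M) := by
  intro m n h
  rcases lt_trichotomy m n with h1 | h1 | h1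
  · exact absurd h (nM_ne h1)
  · exact h1
  · exact absurd h.symm (nM_ne h1)

theorem nM_mem_iff {m n : ℕ} : E (nM M m) (nM M n) ↔ m < n := by
  rw [mem_nM]
  constructor
  · rintro ⟨k, hk, h⟩
    rwa [nM_inj h]
  · intro h
    exact ⟨m, h, rfl⟩

theorem isSucc_iff' {m n : M} : IsSucc E m n ↔ m = adj n n := by
  constructor
  · intro h
    exact ext fun z => (h z).trans mem_adj.symm
  · rintro rfl z
    exact mem_adj

theorem isInductive_nM {w : M} (h : IsInductive E w) (n : ℕ) : E (nM M n) w := by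
  induction n with
  | zero =>
    obtain ⟨⟨y, hy, hy'⟩, -⟩ := h
    have : y = nM M 0 := ext fun z => ⟨fun hz => absurd hz (hy' z),
      fun hz => absurd hz (not_mem_nM_zero z)⟩
    rwa [← this]
  | succ n ih =>
    obtain ⟨z, hz, hz'⟩ := h.2 _ ih
    have : z = nM M (n + 1) := ext fun u => (hz' u).trans mem_nM_succ.symm
    rwa [← this]

theorem exists_omega : ∃ w : M, ∀ x, E x w ↔ ∃ n, x = nM M n := by
  obtain ⟨x0, hx0, hx1⟩ := ZM.zfc.infinity (E := (E : M → M → Prop))
  have h0 : IsInductive E x0 := ⟨hx0, hx1⟩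
  -- the intersection of all inductive sets
  have hd : DP fun v : ℕ → M => ∀ w', IsInductive E w' → E (v 0) w' := by
    exact DP.all (DP.imp (DP.and (DP.ex (DP.and (DP.mem (DT.var 0) (DT.var 1))
      (DP.all (DP.not (DP.mem (DT.var 0) (DT.var 1))))))
      (DP.all (DP.imp (DP.mem (DT.var 0) (DT.var 1)) (DP.ex (DP.and (DP.mem (DT.var 0) (DT.var 2))
        (DP.all (DP.iff (DP.mem (DT.var 0) (DT.var 1)) (DP.or (DP.mem (DT.var 0) (DT.var 2))
          (DP.eq (DT.var 0) (DT.var 2)))))))))) (DP.mem (DT.var 1) (DT.var 0)))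
  obtain ⟨w, hw⟩ := sep (P := fun z => ∀ w', IsInductive E w' → E z w') hd x0
  have hw' : ∀ z, E z w ↔ ∀ w', IsInductive E w' → E z w' := fun z =>
    ⟨fun h => ((hw z).1 h).2, fun h => (hw z).2 ⟨h x0 h0, h⟩⟩
  refine ⟨w, fun x => ⟨fun hx => ?_, ?_⟩⟩
  · by_contra hcon
    obtain ⟨y, ⟨hy1, hy2⟩, hy3⟩ := (ZM.wf (M := M)).has_min {x | E x w ∧ ¬ ∃ n, x = nM M n}
      ⟨x, hx, hcon⟩
    obtain ⟨w2, hw2⟩ := sep (P := fun z => z ≠ y) (DP.not (DP.eq (DT.var 0) (DT.const y))) w
    have h2 : IsInductive E w2 := by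
      refine ⟨⟨nM M 0, (hw2 _).2 ⟨(hw' _).2 fun w' h => isInductive_nM h 0, fun h => ?_⟩,
        not_mem_nM_zero⟩, ?_⟩
      · exact hy2 ⟨0, h.symm⟩
      · intro z hz
        have hz1 := (hw2 z).1 hz
        refine ⟨adj z z, (hw2 _).2 ⟨(hw' _).2 fun w' h => ?_, ?_⟩, fun u => mem_adj⟩
        · obtain ⟨z', hz', hz''⟩ := h.2 z ((hw' z).1 hz1.1 w' h)
          rwa [show adj z z = z' from ext fun u => mem_adj.trans (hz'' u).symm]
        · intro he
          have h3 : E z y := by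
            rw [← he]
            exact mem_adj.2 (Or.inr rfl)
          have h4 : ∃ n, z = nM M n := by
            by_contra h5
            exact hy3 z ⟨hz1.1, h5⟩ h3
          obtain ⟨n, rfl⟩ := h4
          exact hy2 ⟨n + 1, he.symm⟩
    exact ((hw2 y).1 ((hw' y).1 hy1 w2 h2)).2 rfl
  · rintro ⟨n, rfl⟩
    exact (hw' _).2 fun w' h => isInductive_nM h n

variable (M)

/-- the set of the natural numbers -/
noncomputable def wM : M := (exists_omega (M := M)).choose

variable {M}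

theorem mem_wM {x : M} : E x (wM M) ↔ ∃ n, x = nM M n := (exists_omega (M := M)).choose_spec x

theorem isOmega_iff' {w : M} : IsOmega E w ↔ w = wM M := by
  have h1 : IsInductive E (wM M) := by
    refine ⟨⟨nM M 0, mem_wM.2 ⟨0, rfl⟩, not_mem_nM_zero⟩, fun y hy => ?_⟩
    obtain ⟨n, rfl⟩ := mem_wM.1 hy
    exact ⟨nM M (n + 1), mem_wM.2 ⟨n + 1, rfl⟩, fun w => mem_nM_succ⟩
  constructor
  · intro h
    refine ext fun z => ⟨fun hz => h.2 _ h1 z hz, fun hz => ?_⟩
    obtain ⟨n, rfl⟩ := mem_wM.1 hz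
    exact isInductive_nM h.1 n
  · rintro rfl
    refine ⟨h1, fun w' hw' y hy => ?_⟩
    obtain ⟨n, rfl⟩ := mem_wM.1 hy
    exact isInductive_nM hw' n

end

end MP186633L

/-!
# MP_186633_lc, plan A, part 2: the calculus of sorts

A sort of the well-founded model `M` of ZFC is a type `A` with an injection `cod : A → M`
whose range is definable (from parameters).  `Dfn M P` says that the predicate `P` on the sort is
definable, `DF M f` that the graph of the function `f` is definable.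
-/

set_option autoImplicit false

namespace MP186633L

open MP9708F ZM

universe u v₁ v₂ v₃ v₄

/-- a sort -/
class Srt (M : Type u) [ZM M] (A : Type v₁) where
  /-- the code in `M` -/
  cod : A → M
  inj : Function.Injective cod
  dp : DP fun v : ℕ → M => ∃ a, v 0 = cod a

section

variable (M : Type u) [ZM M]
variable {A : Type v₁} [Srt M A] {B : Type v₂} [Srt M B] {C : Type v₃} [Srt M C] {D : Type v₄}
  [Srt M D]

/-- the code in `M` -/
def cod (a : A) : M := Srt.cod a

theorem cod_inj : Function.Injective (cod M (A := A)) := Srt.inj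

@[simp] theorem cod_inj_iff {a b : A} : cod M a = cod M b ↔ a = b := (cod_inj M).eq_iff

/-- a definable predicate on a sort -/
def Dfn (P : A → Prop) : Prop := DP fun v : ℕ → M => ∃ a, v 0 = cod M a ∧ P a

variable {M}

theorem DP.rng {t : (ℕ → M) → M} (ht : DT t) : DP fun v => ∃ a : A, t v = cod M a :=
  DP.comp1 (P := fun x => ∃ a : A, x = cod M a) Srt.dp ht

theorem Dfn.dp {P : A → Prop} (h : Dfn M P) {t : (ℕ → M) → M} (ht : DT t) :
    DP fun v => ∃ a : A, t v = cod M a ∧ P a :=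
  DP.comp1 (P := fun x => ∃ a : A, x = cod M a ∧ P a) h ht

theorem Dfn.congr {P Q : A → Prop} (h : Dfn M P) (he : ∀ a, P a ↔ Q a) : Dfn M Q :=
  DP.congr h fun _ => exists_congr fun a => and_congr_right fun _ => he a

theorem Dfn.not {P : A → Prop} (h : Dfn M P) : Dfn M fun a => ¬ P a := by
  refine DP.congr (DP.and (DP.rng (A := A) (DT.var 0)) (DP.not (h.dp (DT.var 0)))) fun v => ?_
  constructor
  · rintro ⟨⟨a, ha⟩, h2⟩
    exact ⟨a, ha, fun h3 => h2 ⟨a, ha, h3⟩⟩
  · rintro ⟨a, ha, h2⟩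
    refine ⟨⟨a, ha⟩, ?_⟩
    rintro ⟨b, hb, h3⟩
    rw [ha, cod_inj_iff] at hb
    subst hb
    exact h2 h3

theorem Dfn.and {P Q : A → Prop} (h : Dfn M P) (h' : Dfn M Q) : Dfn M fun a => P a ∧ Q a := by
  refine DP.congr (DP.and (h.dp (DT.var 0)) (h'.dp (DT.var 0))) fun v => ?_
  constructor
  · rintro ⟨⟨a, ha, ha'⟩, b, hb, hb'⟩
    have : a = b := by
      rw [ha, cod_inj_iff] at hb
      exact hb
    subst this
    exact ⟨a, ha, ha', hb'⟩
  · rintro ⟨a, ha, h2, h3⟩
    exact ⟨⟨a, ha, h2⟩, a, ha, h3⟩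

theorem Dfn.or {P Q : A → Prop} (h : Dfn M P) (h' : Dfn M Q) : Dfn M fun a => P a ∨ Q a :=
  (h.not.and h'.not).not.congr fun v => by tauto

theorem Dfn.imp {P Q : A → Prop} (h : Dfn M P) (h' : Dfn M Q) : Dfn M fun a => P a → Q a :=
  (h.and h'.not).not.congr fun v => by tauto

theorem Dfn.iff {P Q : A → Prop} (h : Dfn M P) (h' : Dfn M Q) : Dfn M fun a => (P a ↔ Q a) :=
  ((h.imp h').and (h'.imp h)).congr fun _ => by tauto

theorem Dfn.true : Dfn M fun _ : A => True :=
  (DP.rng (A := A) (DT.var (M := M) 0)).congr fun v => by simp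

theorem Dfn.prop (p : Prop) : Dfn M fun _ : A => p := by
  by_cases hp : p
  · exact Dfn.true.congr fun v => by simp [hp]
  · exact Dfn.true.not.congr fun v => by simp [hp]

/-! ### Products -/

noncomputable instance : Srt M (A × B) where
  cod p := pr (cod M p.1) (cod M p.2)
  inj := by
    rintro ⟨a, b⟩ ⟨a', b'⟩ h
    obtain ⟨h1, h2⟩ := pr_inj h
    exact Prod.ext (cod_inj M h1) (cod_inj M h2)
  dp := by
    refine DP.congr (DP.ex (DP.ex (DP.and (DP.rng (A := A) (DT.var 1))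
      (DP.and (DP.rng (A := B) (DT.var 0)) (DP.eq (DT.var 2) (DT.pr (DT.var 1) (DT.var 0)))))))
      (Q := fun v => ∃ x, ∃ y, (∃ a : A, x = cod M a) ∧ (∃ b : B, y = cod M b) ∧ v 0 = pr x y)
      fun v => ?_
    constructor
    · rintro ⟨_, _, ⟨a, rfl⟩, ⟨b, rfl⟩, h⟩
      exact ⟨(a, b), h⟩
    · rintro ⟨⟨a, b⟩, h⟩
      exact ⟨_, _, ⟨a, rfl⟩, ⟨b, rfl⟩, h⟩

theorem cod_prod (p : A × B) : cod M p = pr (cod M p.1) (cod M p.2) := rfl

theorem Dfn.all {P : A → B → Prop} (h : Dfn M fun p : A × B => P p.1 p.2) :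
    Dfn M fun a => ∀ b, P a b := by
  refine DP.congr (DP.and (DP.rng (A := A) (DT.var 0)) (DP.all (DP.imp (DP.rng (A := B) (DT.var 0))
    (h.dp (DT.pr (DT.var 1) (DT.var 0))))))
    (Q := fun v => (∃ a : A, v 0 = cod M a) ∧ ∀ y, (∃ b : B, y = cod M b) →
      ∃ p : A × B, pr (v 0) y = cod M p ∧ P p.1 p.2) fun v => ?_
  constructor
  · rintro ⟨⟨a, ha⟩, h2⟩
    refine ⟨a, ha, fun b => ?_⟩
    obtain ⟨p, hp, h3⟩ := h2 _ ⟨b, rfl⟩
    rw [ha, cod_prod, pr_inj_iff, cod_inj_iff, cod_inj_iff] at hp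
    rw [hp.1, hp.2]
    exact h3
  · rintro ⟨a, ha, h2⟩
    refine ⟨⟨a, ha⟩, ?_⟩
    rintro _ ⟨b, rfl⟩
    exact ⟨(a, b), by rw [ha]; rfl, h2 b⟩

theorem Dfn.ex {P : A → B → Prop} (h : Dfn M fun p : A × B => P p.1 p.2) :
    Dfn M fun a => ∃ b, P a b :=
  (Dfn.all (P := fun a b => ¬ P a b) h.not).not.congr fun v => by push Not; rfl

variable (M) in
/-- a definable function between sorts -/
@[fun_prop]
def DF (f : A → B) : Prop := Dfn M fun p : A × B => f p.1 = p.2

theorem DF.congr {f g : A → B} (h : DF M f) (he : ∀ a, f a = g a) : DF M g := by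
  have : f = g := funext he
  rwa [← this]

theorem DF.dp {f : A → B} (h : DF M f) {s t : (ℕ → M) → M} (hs : DT s) (ht : DT t) :
    DP fun v => ∃ a : A, s v = cod M a ∧ t v = cod M (f a) := by
  refine DP.congr (Dfn.dp h (DT.pr hs ht)) fun v => ?_
  constructor
  · rintro ⟨⟨a, b⟩, h1, h2⟩
    rw [cod_prod, pr_inj_iff] at h1
    exact ⟨a, h1.1, by rw [h1.2]; exact congrArg _ h2.symm⟩
  · rintro ⟨a, h1, h2⟩
    exact ⟨(a, f a), by rw [h1, h2]; rfl, rfl⟩

theorem DF.of_dp {f : A → B} (h : DP fun v : ℕ → M => ∃ a : A, v 0 = pr (cod M a) (cod M (f a))) :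
    DF M f := by
  refine DP.congr h fun v => ?_
  constructor
  · rintro ⟨a, h1⟩
    exact ⟨(a, f a), h1, rfl⟩
  · rintro ⟨⟨a, b⟩, h1, h2⟩
    have h2 : f a = b := h2
    subst h2
    exact ⟨a, h1⟩

theorem Dfn.comp {P : B → Prop} (hP : Dfn M P) {f : A → B} (hf : DF M f) :
    Dfn M fun a => P (f a) := by
  refine DP.congr (DP.ex (DP.and (DF.dp hf (DT.var 1) (DT.var 0)) (hP.dp (DT.var 0))))
    (Q := fun v => ∃ y, (∃ a : A, v 0 = cod M a ∧ y = cod M (f a)) ∧ ∃ b : B, y = cod M b ∧ P b)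
    fun v => ?_
  constructor
  · rintro ⟨y, ⟨a, h1, rfl⟩, b, h2, h3⟩
    rw [cod_inj_iff] at h2
    subst h2
    exact ⟨a, h1, h3⟩
  · rintro ⟨a, h1, h2⟩
    exact ⟨_, ⟨a, h1, rfl⟩, _, rfl, h2⟩

@[fun_prop]
theorem DF.comp {g : B → C} (hg : DF M g) {f : A → B} (hf : DF M f) :
    DF M fun a => g (f a) := by
  refine DF.of_dp (DP.congr (DP.ex (DP.ex (DP.ex (DP.and (DF.dp hf (DT.var 2) (DT.var 1)) (DP.and
    (DF.dp hg (DT.var 1) (DT.var 0)) (DP.eq (DT.var 3) (DT.pr (DT.var 2) (DT.var 0))))))))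
    (Q := fun v => ∃ x y z, (∃ a : A, x = cod M a ∧ y = cod M (f a)) ∧
      (∃ b : B, y = cod M b ∧ z = cod M (g b)) ∧ v 0 = pr x z)
    fun v => ?_)
  constructor
  · rintro ⟨x, y, z, ⟨a, rfl, rfl⟩, ⟨b, h1, rfl⟩, h2⟩
    rw [cod_inj_iff] at h1
    subst h1
    exact ⟨a, h2⟩
  · rintro ⟨a, h1⟩
    exact ⟨_, _, _, ⟨a, rfl, rfl⟩, ⟨_, rfl, rfl⟩, h1⟩

@[fun_prop]
theorem DF.id : DF M fun a : A => a := by
  refine DF.of_dp (DP.congr (DP.ex (DP.and (DP.rng (A := A) (DT.var 0))
    (DP.eq (DT.var 1) (DT.pr (DT.var 0) (DT.var 0)))))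
    (Q := fun v => ∃ x, (∃ a : A, x = cod M a) ∧ v 0 = pr x x) fun v => ?_)
  constructor
  · rintro ⟨x, ⟨a, rfl⟩, h⟩
    exact ⟨a, h⟩
  · rintro ⟨a, h⟩
    exact ⟨_, ⟨a, rfl⟩, h⟩

@[fun_prop]
theorem DF.const (b : B) : DF M fun _ : A => b := by
  refine DF.of_dp (DP.congr (DP.ex (DP.and (DP.rng (A := A) (DT.var 0))
    (DP.eq (DT.var 1) (DT.pr (DT.var 0) (DT.const (cod M b))))))
    (Q := fun v => ∃ x, (∃ a : A, x = cod M a) ∧ v 0 = pr x (cod M b)) fun v => ?_)
  constructor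
  · rintro ⟨x, ⟨a, rfl⟩, h⟩
    exact ⟨a, h⟩
  · rintro ⟨a, h⟩
    exact ⟨_, ⟨a, rfl⟩, h⟩

theorem DF.fst0 : DF M fun p : A × B => p.1 := by
  refine DF.of_dp (DP.congr (DP.ex (DP.ex (DP.and (DP.rng (A := A) (DT.var 1))
      (DP.and (DP.rng (A := B) (DT.var 0)) (DP.eq (DT.var 2)
        (DT.pr (DT.pr (DT.var 1) (DT.var 0)) (DT.var 1)))))))
      (Q := fun v => ∃ x, ∃ y, (∃ a : A, x = cod M a) ∧ (∃ b : B, y = cod M b) ∧
        v 0 = pr (pr x y) x)
      fun v => ?_)
  constructor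
  · rintro ⟨_, _, ⟨a, rfl⟩, ⟨b, rfl⟩, h⟩
    exact ⟨(a, b), h⟩
  · rintro ⟨⟨a, b⟩, h⟩
    exact ⟨_, _, ⟨a, rfl⟩, ⟨b, rfl⟩, h⟩

theorem DF.snd0 : DF M fun p : A × B => p.2 := by
  refine DF.of_dp (DP.congr (DP.ex (DP.ex (DP.and (DP.rng (A := A) (DT.var 1))
      (DP.and (DP.rng (A := B) (DT.var 0)) (DP.eq (DT.var 2)
        (DT.pr (DT.pr (DT.var 1) (DT.var 0)) (DT.var 0)))))))
      (Q := fun v => ∃ x, ∃ y, (∃ a : A, x = cod M a) ∧ (∃ b : B, y = cod M b) ∧
        v 0 = pr (pr x y) y)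
      fun v => ?_)
  constructor
  · rintro ⟨_, _, ⟨a, rfl⟩, ⟨b, rfl⟩, h⟩
    exact ⟨(a, b), h⟩
  · rintro ⟨⟨a, b⟩, h⟩
    exact ⟨_, _, ⟨a, rfl⟩, ⟨b, rfl⟩, h⟩

@[fun_prop]
theorem DF.prodMk {f : A → B} {g : A → C} (hf : DF M f) (hg : DF M g) :
    DF M fun a => (f a, g a) := by
  refine DF.of_dp (DP.congr (DP.ex (DP.ex (DP.ex (DP.and (DF.dp hf (DT.var 2) (DT.var 1)) (DP.and
    (DF.dp hg (DT.var 2) (DT.var 0)) (DP.eq (DT.var 3)
      (DT.pr (DT.var 2) (DT.pr (DT.var 1) (DT.var 0)))))))))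
    (Q := fun v => ∃ x y z, (∃ a : A, x = cod M a ∧ y = cod M (f a)) ∧
      (∃ a : A, x = cod M a ∧ z = cod M (g a)) ∧ v 0 = pr x (pr y z))
    fun v => ?_)
  constructor
  · rintro ⟨x, y, z, ⟨a, rfl, rfl⟩, ⟨b, h1, rfl⟩, h2⟩
    rw [cod_inj_iff] at h1
    subst h1
    exact ⟨a, h2⟩
  · rintro ⟨a, h1⟩
    exact ⟨_, _, _, ⟨a, rfl, rfl⟩, ⟨_, rfl, rfl⟩, h1⟩

@[fun_prop]
theorem DF.fst {f : A → B × C} (hf : DF M f) : DF M fun a => (f a).1 := DF.fst0.comp hf

@[fun_prop]
theorem DF.snd {f : A → B × C} (hf : DF M f) : DF M fun a => (f a).2 := DF.snd0.comp hf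

theorem Dfn.eq {f g : A → B} (hf : DF M f) (hg : DF M g) : Dfn M fun a => f a = g a :=
  Dfn.comp (P := fun p : B × B => p.1 = p.2) (DF.id (A := B)) (hf.prodMk hg)

/-! ### The sort of propositions -/

noncomputable instance srtProp : Srt M Prop where
  cod p := open Classical in if p then nM M 1 else nM M 0
  inj := by
    intro p q h
    by_cases hp : p <;> by_cases hq : q <;> simp only [hp, hq, if_true, if_false] at h ⊢
    · exact absurd (nM_inj h) (by decide)
    · exact absurd (nM_inj h) (by decide)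
  dp := by
    refine DP.congr (DP.or (DP.eq (DT.var 0) (DT.const (nM M 1)))
      (DP.eq (DT.var 0) (DT.const (nM M 0)))) fun v => ?_
    constructor
    · rintro (h | h)
      · exact ⟨True, by simp [h]⟩
      · exact ⟨False, by simp [h]⟩
    · rintro ⟨p, h⟩
      by_cases hp : p
      · exact Or.inl (by simp [h, hp])
      · exact Or.inr (by simp [h, hp])

theorem DF.dfn {P : A → Prop} (h : DF M P) : Dfn M P := by
  have h1 : DF M fun a : A => (a, True) := DF.id.prodMk (DF.const True)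
  exact (Dfn.comp h h1).congr fun a => by simp

theorem Dfn.df {P : A → Prop} (h : Dfn M P) : DF M P := by
  have h1 : Dfn M fun p : A × Prop => P p.1 := h.comp DF.fst0
  have h2 : Dfn M fun p : A × Prop => p.2 = True := Dfn.eq DF.snd0 (DF.const True)
  have h3 : Dfn M fun p : A × Prop => p.2 = False := Dfn.eq DF.snd0 (DF.const False)
  refine ((h1.and h2).or (h1.not.and h3)).congr fun p => ?_
  obtain ⟨a, q⟩ := p
  by_cases hp : P a <;> by_cases hq : q <;> simp [hp, hq]

@[fun_prop]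
theorem DF.and {P Q : A → Prop} (h : DF M P) (h' : DF M Q) : DF M fun a => P a ∧ Q a :=
  (h.dfn.and h'.dfn).df

@[fun_prop]
theorem DF.or {P Q : A → Prop} (h : DF M P) (h' : DF M Q) : DF M fun a => P a ∨ Q a :=
  (h.dfn.or h'.dfn).df

@[fun_prop]
theorem DF.not {P : A → Prop} (h : DF M P) : DF M fun a => ¬ P a := h.dfn.not.df

@[fun_prop]
theorem DF.imp {P Q : A → Prop} (h : DF M P) (h' : DF M Q) : DF M fun a => P a → Q a :=
  (h.dfn.imp h'.dfn).df

@[fun_prop]
theorem DF.iff {P Q : A → Prop} (h : DF M P) (h' : DF M Q) : DF M fun a => (P a ↔ Q a) :=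
  (h.dfn.iff h'.dfn).df

@[fun_prop]
theorem DF.all {P : A → B → Prop} (h : DF M fun p : A × B => P p.1 p.2) :
    DF M fun a => ∀ b, P a b := (Dfn.all h.dfn).df

@[fun_prop]
theorem DF.ex {P : A → B → Prop} (h : DF M fun p : A × B => P p.1 p.2) :
    DF M fun a => ∃ b, P a b := (Dfn.ex h.dfn).df

@[fun_prop]
theorem DF.eq {f g : A → B} (hf : DF M f) (hg : DF M g) : DF M fun a => f a = g a :=
  (Dfn.eq hf hg).df

@[fun_prop]
theorem DF.ne {f g : A → B} (hf : DF M f) (hg : DF M g) : DF M fun a => f a ≠ g a :=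
  (Dfn.eq hf hg).not.df

/-- a function with a definable graph is definable -/
theorem DF.of_graph {f : A → B} {P : A → B → Prop} (h : DF M fun p : A × B => P p.1 p.2)
    (hP : ∀ a b, f a = b ↔ P a b) : DF M f :=
  Dfn.congr h.dfn fun p => (hP p.1 p.2).symm

theorem DF.pcongr {P Q : A → Prop} (h : DF M P) (he : ∀ a, P a ↔ Q a) : DF M Q :=
  DF.congr h fun a => propext (he a)

/-- definition by cases -/
@[fun_prop]
theorem DF.ite {P : A → Prop} {dP : ∀ a, Decidable (P a)} {f g : A → B} (h : DF M P)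
    (hf : DF M f) (hg : DF M g) : DF M fun a => if P a then f a else g a := by
  refine DF.of_graph (P := fun a b => (P a ∧ f a = b) ∨ (¬ P a ∧ g a = b)) (by fun_prop)
    fun a b => ?_
  by_cases hp : P a <;> simp [hp]

end

section

variable {M : Type u} [ZM M]
variable {A : Type v₁} [Srt M A] {B : Type v₂} [Srt M B] {C : Type v₃} [Srt M C] {D : Type v₄}
  [Srt M D]

/-! ### `M` itself, and the natural numbers -/

noncomputable instance srtSelf : Srt M M where
  cod x := x
  inj := fun _ _ h => h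
  dp := DP.true.congr fun v => by simp

theorem cod_self (x : M) : cod M x = x := rfl

theorem DF.cod0 : DF M fun a : A => cod M a := by
  refine DF.of_dp (DP.congr (DP.ex (DP.and (DP.rng (A := A) (DT.var 0))
    (DP.eq (DT.var 1) (DT.pr (DT.var 0) (DT.var 0)))))
    (Q := fun v => ∃ x, (∃ a : A, x = cod M a) ∧ v 0 = pr x x) fun v => ?_)
  constructor
  · rintro ⟨x, ⟨a, rfl⟩, h⟩
    exact ⟨a, h⟩
  · rintro ⟨a, h⟩
    exact ⟨_, ⟨a, rfl⟩, h⟩

@[fun_prop]
theorem DF.cod {f : A → B} (hf : DF M f) : DF M fun a => cod M (f a) := DF.cod0.comp hf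

theorem Dfn.E0 : Dfn M fun p : M × M => E p.1 p.2 := by
  refine DP.congr (DP.ex (DP.ex (DP.and (DP.mem (DT.var 1) (DT.var 0)) (DP.eq (DT.var 2)
    (DT.pr (DT.var 1) (DT.var 0))))))
    (Q := fun v => ∃ x y, E x y ∧ v 0 = pr x y) fun v => ?_
  constructor
  · rintro ⟨x, y, h1, h2⟩
    exact ⟨(x, y), h2, h1⟩
  · rintro ⟨⟨x, y⟩, h1, h2⟩
    exact ⟨x, y, h2, h1⟩

@[fun_prop]
theorem DF.E {f g : A → M} (hf : DF M f) (hg : DF M g) : DF M fun a => E (f a) (g a) :=
  (Dfn.E0.comp (hf.prodMk hg)).df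

@[fun_prop]
theorem DF.pr {f g : A → M} (hf : DF M f) (hg : DF M g) : DF M fun a => pr (f a) (g a) := by
  have h : DF M fun p : M × M => MP186633L.pr p.1 p.2 := DF.cod0
  exact h.comp (hf.prodMk hg)

noncomputable instance srtNat : Srt M ℕ where
  cod := nM M
  inj := nM_inj
  dp := by
    refine DP.congr (DP.mem (DT.var 0) (DT.const (wM M))) fun v => ?_
    exact mem_wM

theorem cod_nat (n : ℕ) : cod M n = nM M n := rfl

theorem DF.succ0 : DF M fun n : ℕ => n + 1 := by
  refine DF.of_dp (DP.congr (DP.ex (DP.ex (DP.and (DP.rng (A := ℕ) (DT.var 1)) (DP.and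
    (DP.all (DP.iff (DP.mem (DT.var 0) (DT.var 1)) (DP.or (DP.mem (DT.var 0) (DT.var 2))
      (DP.eq (DT.var 0) (DT.var 2))))) (DP.eq (DT.var 2) (DT.pr (DT.var 1) (DT.var 0)))))))
    (Q := fun v => ∃ x y, (∃ n : ℕ, x = MP186633L.cod M n) ∧ (∀ z, ZM.E z y ↔ ZM.E z x ∨ z = x) ∧
      v 0 = MP186633L.pr x y) fun v => ?_)
  constructor
  · rintro ⟨x, y, ⟨n, rfl⟩, h1, h2⟩
    refine ⟨n, h2.trans (congrArg _ ?_)⟩
    exact ext fun z => (h1 z).trans mem_nM_succ.symm
  · rintro ⟨n, h⟩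
    exact ⟨_, _, ⟨n, rfl⟩, fun z => mem_nM_succ, h⟩

@[fun_prop]
theorem DF.succ {f : A → ℕ} (hf : DF M f) : DF M fun a => f a + 1 := DF.succ0.comp hf

@[fun_prop]
theorem DF.lt {f g : A → ℕ} (hf : DF M f) (hg : DF M g) : DF M fun a => f a < g a :=
  (DF.E hf.cod hg.cod).pcongr fun _ => nM_mem_iff

@[fun_prop]
theorem DF.le {f g : A → ℕ} (hf : DF M f) (hg : DF M g) : DF M fun a => f a ≤ g a :=
  (DF.lt hg hf).not.pcongr fun _ => not_lt

/-! ### Subsorts -/

/-- a type with an injection with definable range into a sort -/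
@[instance_reducible] noncomputable def Srt.sub (e : C → B) (he : Function.Injective e)
    (h : DF M fun b => ∃ c, e c = b) : Srt M C where
  cod c := MP186633L.cod M (e c)
  inj := (cod_inj M).comp he
  dp := DP.congr h.dfn fun v => by
    constructor
    · rintro ⟨_, h1, c, rfl⟩
      exact ⟨c, h1⟩
    · rintro ⟨c, h1⟩
      exact ⟨_, h1, c, rfl⟩

theorem DF.sub0 {C : Type v₃} {e : C → B} {he : Function.Injective e}
    {h : DF M fun b => ∃ c, e c = b} : @DF M _ C (Srt.sub e he h) _ _ e := by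
  let _ := Srt.sub e he h
  refine DF.of_dp (DP.congr (DP.ex (DP.and (DP.rng (A := C) (DT.var 0))
    (DP.eq (DT.var 1) (DT.pr (DT.var 0) (DT.var 0)))))
    (Q := fun v => ∃ x, (∃ a : C, x = MP186633L.cod M a) ∧ v 0 = MP186633L.pr x x) fun v => ?_)
  constructor
  · rintro ⟨x, ⟨a, rfl⟩, h⟩
    exact ⟨a, h⟩
  · rintro ⟨a, h⟩
    exact ⟨_, ⟨a, rfl⟩, h⟩

/-- a map into a subsort is definable iff it is as a map into the big sort -/
theorem DF.of_emb {e : B → C} (he : Function.Injective e) (h : DF M e) {f : A → B}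
    (hf : DF M fun a => e (f a)) : DF M f := by
  have h1 : Dfn M fun p : A × B => e (f p.1) = e p.2 :=
    Dfn.eq (hf.comp DF.fst0) (h.comp DF.snd0)
  exact h1.congr fun p => he.eq_iff

end


section

variable (M : Type u) [ZM M]
variable (A : Type v₁) [Srt M A] (B : Type v₂) [Srt M B] {C : Type v₃} [Srt M C] {D : Type v₄}
  [Srt M D]

/-! ### Small sorts -/

/-- a small sort: the codes form a set of `M` -/
class Sml : Prop where
  out : ∃ m : M, ∀ x, E x m ↔ ∃ a : A, x = cod M a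

/-- the subsets of a sort which are in `M` -/
structure MSet : Type v₁ where
  /-- the underlying set -/
  carrier : Set A
  inM : ∃ m : M, ∀ x, E x m ↔ ∃ a ∈ carrier, x = cod M a

variable {M A B}

instance : Membership A (MSet M A) := ⟨fun S a => a ∈ S.1⟩

theorem MSet.ext {S T : MSet M A} (h : ∀ a, a ∈ S ↔ a ∈ T) : S = T := by
  obtain ⟨S, hS⟩ := S
  obtain ⟨T, hT⟩ := T
  have : S = T := Set.ext h
  subst this
  rfl

noncomputable instance srtMSet : Srt M (MSet M A) where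
  cod S := S.2.choose
  inj := by
    intro S T h
    refine MSet.ext fun a => ?_
    have h1 := S.2.choose_spec (cod M a)
    have h2 := T.2.choose_spec (cod M a)
    beta_reduce at h
    rw [h] at h1
    have h3 := h1.symm.trans h2
    simp only [cod_inj_iff, exists_eq_right'] at h3
    exact h3
  dp := by
    refine DP.congr (DP.all (DP.imp (DP.mem (DT.var 0) (DT.var 1)) (DP.rng (A := A) (DT.var 0))))
      (Q := fun v => ∀ x, E x (v 0) → ∃ a : A, x = cod M a) fun v => ?_
    constructor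
    · intro h
      refine ⟨⟨{a | E (cod M a) (v 0)}, v 0, fun x => ?_⟩, ?_⟩
      · constructor
        · intro hx
          obtain ⟨a, rfl⟩ := h x hx
          exact ⟨a, hx, rfl⟩
        · rintro ⟨a, ha, rfl⟩
          exact ha
      · refine MP186633L.ext fun z => ?_
        have h1 := (⟨{a | E (cod M a) (v 0)}, v 0, fun x => by
          constructor
          · intro hx
            obtain ⟨a, rfl⟩ := h x hx
            exact ⟨a, hx, rfl⟩
          · rintro ⟨a, ha, rfl⟩
            exact ha⟩ : MSet M A).2.choose_spec z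
        refine Iff.trans ?_ h1.symm
        constructor
        · intro hx
          obtain ⟨a, rfl⟩ := h z hx
          exact ⟨a, hx, rfl⟩
        · rintro ⟨a, ha, rfl⟩
          exact ha
    · rintro ⟨S, hS⟩ x hx
      rw [hS] at hx
      obtain ⟨a, -, ha⟩ := (S.2.choose_spec x).1 hx
      exact ⟨a, ha⟩

theorem mem_cod_MSet {S : MSet M A} {x : M} : E x (cod M S) ↔ ∃ a ∈ S, x = cod M a :=
  S.2.choose_spec x

theorem cod_mem_cod {S : MSet M A} {a : A} : E (cod M a) (cod M S) ↔ a ∈ S := by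
  rw [mem_cod_MSet]
  simp

@[fun_prop]
theorem DF.mem {f : C → A} {g : C → MSet M A} (hf : DF M f) (hg : DF M g) :
    DF M fun c => f c ∈ g c :=
  (DF.E hf.cod hg.cod).pcongr fun _ => cod_mem_cod

/-- a function into the power sort is definable if the membership relation is -/
theorem DF.set {g : C → MSet M A} (h : DF M fun p : C × A => p.2 ∈ g p.1) : DF M g := by
  refine DF.of_graph (P := fun c S => ∀ a, a ∈ g c ↔ a ∈ S) (DF.all (DF.iff ?_ ?_)) fun c S =>
    ⟨fun h a => by rw [h], fun h => MSet.ext h⟩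
  · exact h.comp (f := fun q : (C × MSet M A) × A => (q.1.1, q.2))
      ((DF.fst0.comp DF.fst0).prodMk DF.snd0)
  · exact DF.mem DF.snd0 (DF.snd0.comp DF.fst0)

/-- comprehension for small sorts -/
noncomputable def MSet.of [h : Sml M A] (P : A → Prop) (hP : DF M P) : MSet M A :=
  ⟨{a | P a}, by
    obtain ⟨m, hm⟩ := h.out
    obtain ⟨y, hy⟩ := sep (P := fun x => ∃ a : A, x = cod M a ∧ P a) hP.dfn m
    refine ⟨y, fun x => (hy x).trans ?_⟩
    constructor
    · rintro ⟨-, a, rfl, h2⟩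
      exact ⟨a, h2, rfl⟩
    · rintro ⟨a, h2, rfl⟩
      exact ⟨(hm _).2 ⟨a, rfl⟩, a, rfl, h2⟩⟩

@[simp] theorem MSet.mem_of [Sml M A] {P : A → Prop} {hP : DF M P} {a : A} :
    a ∈ MSet.of P hP ↔ P a := Iff.rfl

theorem MSet.df (S : MSet M A) : DF M fun a => a ∈ S := DF.mem DF.id (DF.const S)

instance : Sml M ℕ := ⟨wM M, fun _ => mem_wM⟩

instance [hA : Sml M A] : Sml M (MSet M A) := by
  obtain ⟨m, hm⟩ := hA.out
  obtain ⟨y, hy⟩ := ZM.zfc.powerset (E := E) m
  refine ⟨y, fun x => (hy x).trans ?_⟩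
  constructor
  · intro h
    refine ⟨⟨{a | E (cod M a) x}, x, fun z => ?_⟩, ?_⟩
    · constructor
      · intro hz
        obtain ⟨a, rfl⟩ := (hm z).1 (h z hz)
        exact ⟨a, hz, rfl⟩
      · rintro ⟨a, ha, rfl⟩
        exact ha
    · refine MP186633L.ext fun z => Iff.trans ?_ mem_cod_MSet.symm
      constructor
      · intro hz
        obtain ⟨a, rfl⟩ := (hm z).1 (h z hz)
        exact ⟨a, hz, rfl⟩
      · rintro ⟨a, ha, rfl⟩
        exact ha
  · rintro ⟨S, rfl⟩ z hz
    obtain ⟨a, -, rfl⟩ := mem_cod_MSet.1 hz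
    exact (hm _).2 ⟨a, rfl⟩

/-- replacement: the image of a small sort under a definable function is a set -/
theorem exists_image [hA : Sml M A] {f : A → B} (hf : DF M f) :
    ∃ m : M, ∀ x, E x m ↔ ∃ a, x = cod M (f a) := by
  obtain ⟨m, hm⟩ := hA.out
  obtain ⟨t, ht⟩ := repl (R := fun x y => ∃ a : A, x = cod M a ∧ y = cod M (f a))
    (hf.dp (DT.var 0) (DT.var 1)) m (by
      intro y hy
      obtain ⟨a, rfl⟩ := (hm y).1 hy
      refine ⟨_, ⟨a, rfl, rfl⟩, ?_⟩
      rintro z ⟨b, h1, rfl⟩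
      rw [cod_inj_iff] at h1
      rw [h1])
  refine ⟨t, fun x => (ht x).trans ?_⟩
  constructor
  · rintro ⟨y, -, a, -, rfl⟩
    exact ⟨a, rfl⟩
  · rintro ⟨a, rfl⟩
    exact ⟨cod M a, (hm _).2 ⟨a, rfl⟩, a, rfl, rfl⟩

theorem exists_iUnion [Sml M A] {f : A → M} (hf : DF M f) :
    ∃ m : M, ∀ x, E x m ↔ ∃ a, E x (f a) := by
  obtain ⟨m, hm⟩ := exists_image hf
  obtain ⟨y, hy⟩ := ZM.zfc.union (E := E) m
  refine ⟨y, fun x => (hy x).trans ?_⟩
  constructor
  · rintro ⟨w, h1, h2⟩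
    obtain ⟨a, rfl⟩ := (hm w).1 h1
    exact ⟨a, h2⟩
  · rintro ⟨a, h⟩
    exact ⟨f a, (hm _).2 ⟨a, rfl⟩, h⟩

instance [hA : Sml M A] [hB : Sml M B] : Sml M (A × B) := by
  have h1 : ∀ a : A, ∃ m : M, ∀ x, E x m ↔ ∃ b : B, x = cod M (a, b) := fun a =>
    exists_image (A := B) (B := A × B) (f := fun b => (a, b)) ((DF.const a).prodMk DF.id)
  choose g hg using h1
  have h2 : DF M g := by
    refine DF.of_graph (P := fun a y => ∀ x, E x y ↔ ∃ b : B, x = cod M (a, b)) ?_ fun a y =>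
      ⟨fun h x => by rw [← h]; exact hg a x, fun h => MP186633L.ext fun x => (hg a x).trans (h x).symm⟩
    fun_prop
  obtain ⟨m, hm⟩ := exists_iUnion h2
  refine ⟨m, fun x => (hm x).trans ?_⟩
  constructor
  · rintro ⟨a, h⟩
    obtain ⟨b, h⟩ := (hg a x).1 h
    exact ⟨(a, b), h⟩
  · rintro ⟨⟨a, b⟩, h⟩
    exact ⟨a, (hg a x).2 ⟨b, h⟩⟩

/-- a sort with a definable injection into a small sort is small -/
theorem Sml.of_inj [hB : Sml M B] {e : A → B} (he : Function.Injective e) (h : DF M e) :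
    Sml M A := by
  classical
  by_cases hA : Nonempty A
  · -- the inverse, where it is defined
    let f : B → A := fun b => if hb : ∃ a, e a = b then hb.choose else hA.some
    have hf : DF M f := by
      refine DF.of_graph (P := fun b a => e a = b ∨ ((¬ ∃ a, e a = b) ∧ a = hA.some)) ?_ ?_
      · fun_prop
      · intro b a
        by_cases hb : ∃ a, e a = b
        · simp only [f, dif_pos hb, hb, not_true_eq_false, false_and, or_false]
          constructor
          · rintro rfl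
            exact hb.choose_spec
          · rintro rfl
            exact he hb.choose_spec
        · simp only [f, dif_neg hb, hb, not_false_eq_true, true_and]
          constructor
          · rintro rfl
            exact Or.inr rfl
          · rintro (h | h)
            · exact absurd ⟨a, h⟩ hb
            · exact h.symm
    obtain ⟨m, hm⟩ := exists_image hf
    refine ⟨m, fun x => (hm x).trans ?_⟩
    constructor
    · rintro ⟨b, h⟩
      exact ⟨_, h⟩
    · rintro ⟨a, h⟩
      refine ⟨e a, h.trans (congrArg _ ?_)⟩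
      have hb : ∃ a', e a' = e a := ⟨a, rfl⟩
      simp only [f, dif_pos hb]
      exact (he hb.choose_spec).symm
  · refine ⟨nM M 0, fun x => ⟨fun h => absurd h (not_mem_nM_zero x), ?_⟩⟩
    rintro ⟨a, -⟩
    exact absurd ⟨a⟩ hA

end


end MP186633L
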