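import Pool.Agent.Lib.MP_186633_lc.QS

/-!
# MP_186633_lc, plan A, part 3: lists, recursion, transitive closures and generated subgroups
-/

set_option autoImplicit false

namespace MP186633L

open MP9708F ZM

universe u v₁ v₂ v₃ v₄

section

variable {M : Type u} [ZM M]
variable {A : Type v₁} [Srt M A] {B : Type v₂} [Srt M B] {C : Type v₃} [Srt M C] {D : Type v₄}
  [Srt M D]

/-! ### The sort of optional elements -/

open Classical in
noncomputable instance srtOption : Srt M (Option A) where
  cod o := o.elim (nM M 0) fun a => adj (nM M 0) (MP186633L.cod M a)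
  inj := by
    have h0 : ∀ a : A, E (MP186633L.cod M a) (adj (nM M 0) (MP186633L.cod M a)) :=
      fun a => mem_adj.2 (Or.inr rfl)
    rintro (_ | a) (_ | b) h
    · rfl
    · exact absurd (by rw [show nM M 0 = _ from h]; exact h0 b) (not_mem_nM_zero _)
    · exact absurd (by rw [show nM M 0 = _ from h.symm]; exact h0 a) (not_mem_nM_zero _)
    · have h3 : adj (nM M 0) (MP186633L.cod M a) = adj (nM M 0) (MP186633L.cod M b) := h
      have h1 : E (MP186633L.cod M a) (adj (nM M 0) (MP186633L.cod M b)) := by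
        rw [← h3]
        exact h0 a
      rcases mem_adj.1 h1 with h2 | h2
      · exact absurd h2 (not_mem_nM_zero _)
      · rw [cod_inj M h2]
  dp := by
    refine DP.congr (DP.or (DP.eq (DT.var 0) (DT.const (nM M 0))) (DP.ex (DP.and
      (DP.rng (A := A) (DT.var 0)) (DP.all (DP.iff (DP.mem (DT.var 0) (DT.var 2))
        (DP.eq (DT.var 0) (DT.var 1)))))))
      (Q := fun v => v 0 = nM M 0 ∨ ∃ x, (∃ a : A, x = MP186633L.cod M a) ∧
        ∀ z, E z (v 0) ↔ z = x) fun v => ?_
    constructor
    · rintro (h | ⟨_, ⟨a, rfl⟩, h⟩)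
      · exact ⟨none, h⟩
      · refine ⟨some a, MP186633L.ext fun z => (h z).trans ?_⟩
        show _ ↔ E z (adj (nM M 0) (MP186633L.cod M a))
        rw [mem_adj]
        simp [not_mem_nM_zero]
    · rintro ⟨_ | a, h⟩
      · exact Or.inl h
      · refine Or.inr ⟨_, ⟨a, rfl⟩, fun z => ?_⟩
        rw [h]
        show E z (adj (nM M 0) (MP186633L.cod M a)) ↔ _
        rw [mem_adj]
        simp [not_mem_nM_zero]

theorem mem_cod_some {a : A} {z : M} : E z (cod M (some a)) ↔ z = cod M a := by
  show E z (adj (nM M 0) (MP186633L.cod M a)) ↔ _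
  rw [mem_adj]
  simp [not_mem_nM_zero]

theorem mem_cod_none {z : M} : ¬ E z (cod M (none : Option A)) := not_mem_nM_zero z

@[fun_prop] theorem DF.some {f : C → A} (hf : DF M f) : DF M fun c => some (f c) := by
  have h : DF M fun a : A => Option.some a := by
    refine DF.of_graph (P := fun a o => ∀ z : M, ZM.E z (MP186633L.cod M o) ↔
      z = MP186633L.cod M a) (by fun_prop) ?_
    intro a o
    constructor
    · rintro rfl z
      exact mem_cod_some
    · intro h
      exact cod_inj M (MP186633L.ext fun z => mem_cod_some.trans (h z).symm)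
  exact h.comp hf

/-! ### The sort of lists -/

/-- Finite sets of elements of `M` are in `M`. -/
theorem exists_of_list (L : List M) : ∃ m : M, ∀ x, E x m ↔ x ∈ L := by
  induction L with
  | nil => exact ⟨nM M 0, fun x => by simpa using not_mem_nM_zero x⟩
  | cons a L ih =>
    obtain ⟨m, hm⟩ := ih
    exact ⟨adj m a, fun x => by rw [mem_adj, hm, List.mem_cons, or_comm]⟩

theorem exists_lcode (l : List A) : ∃ m : M, ∀ x, E x m ↔
    ∃ i : ℕ, ∃ a : A, l[i]? = Option.some a ∧ x = cod M (i, a) := by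
  obtain ⟨m, hm⟩ := exists_of_list (l.zipIdx.map fun p => cod M (p.2, p.1))
  refine ⟨m, fun x => (hm x).trans ?_⟩
  rw [List.mem_map]
  constructor
  · rintro ⟨⟨a, i⟩, h1, h2⟩
    exact ⟨i, a, List.mem_zipIdx_iff_getElem?.1 h1, h2.symm⟩
  · rintro ⟨i, a, h1, h2⟩
    exact ⟨(a, i), List.mem_zipIdx_iff_getElem?.2 h1, h2.symm⟩

/-- The predicate on `M` which defines the codes of lists. -/
def IsLCode (M : Type u) [ZM M] (A : Type v₁) [Srt M A] (x : M) : Prop :=
  ∃ n : ℕ, (∀ z : M, E z x → ∃ i : ℕ, ∃ a : A, i < n ∧ z = cod M (i, a)) ∧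
    (∀ i : ℕ, i < n → ∃ a : A, E (cod M (i, a)) x) ∧
      ∀ (i : ℕ) (a b : A), E (cod M (i, a)) x → E (cod M (i, b)) x → a = b

theorem isLCode_iff (x : M) : IsLCode M A x ↔
    ∃ l : List A, x = (exists_lcode (M := M) l).choose := by
  constructor
  · rintro ⟨n, h1, h2, h3⟩
    choose f hf using h2
    refine ⟨List.ofFn fun i : Fin n => f i i.2, ext fun z => ?_⟩
    rw [(exists_lcode (M := M) (List.ofFn fun i : Fin n => f i i.2)).choose_spec z]
    constructor
    · intro hz
      obtain ⟨i, a, hi, rfl⟩ := h1 z hz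
      refine ⟨i, a, ?_, rfl⟩
      rw [List.getElem?_ofFn, dif_pos hi]
      exact congrArg some (h3 i _ _ (hf i hi) hz)
    · rintro ⟨i, a, h4, rfl⟩
      rw [List.getElem?_ofFn] at h4
      by_cases hi : i < n
      · rw [dif_pos hi] at h4
        rw [← Option.some.inj h4]
        exact hf i hi
      · rw [dif_neg hi] at h4
        exact absurd h4 (by simp)
  · rintro ⟨l, rfl⟩
    have hl := (exists_lcode (M := M) l).choose_spec
    refine ⟨l.length, fun z hz => ?_, fun i hi => ?_, fun i a b ha hb => ?_⟩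
    · obtain ⟨i, a, h1, rfl⟩ := (hl z).1 hz
      obtain ⟨hi, -⟩ := List.getElem?_eq_some_iff.1 h1
      exact ⟨i, a, hi, rfl⟩
    · exact ⟨l[i], (hl _).2 ⟨i, l[i], List.getElem?_eq_getElem hi, rfl⟩⟩
    · obtain ⟨j, c, h1, h2⟩ := (hl _).1 ha
      obtain ⟨j', c', h1', h2'⟩ := (hl _).1 hb
      rw [cod_inj_iff, Prod.mk.injEq] at h2 h2'
      obtain ⟨rfl, rfl⟩ := h2
      obtain ⟨rfl, rfl⟩ := h2'
      exact Option.some.inj (h1.symm.trans h1')

theorem dfn_isLCode : DF M fun x : M => IsLCode M A x := by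
  unfold IsLCode
  fun_prop

noncomputable instance srtList : Srt M (List A) where
  cod l := (exists_lcode (M := M) l).choose
  inj := by
    intro l l' h
    refine List.ext_getElem? fun i => Option.ext fun a => ?_
    have h1 := (exists_lcode (M := M) l).choose_spec (cod M (i, a))
    have h2 := (exists_lcode (M := M) l').choose_spec (cod M (i, a))
    beta_reduce at h
    rw [h] at h1
    have h3 := h1.symm.trans h2
    simp only [cod_inj_iff, Prod.mk.injEq] at h3
    constructor
    · intro h4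
      obtain ⟨j, b, h5, rfl, rfl⟩ := h3.1 ⟨i, a, h4, rfl, rfl⟩
      exact h5
    · intro h4
      obtain ⟨j, b, h5, rfl, rfl⟩ := h3.2 ⟨i, a, h4, rfl, rfl⟩
      exact h5
  dp := by
    refine DP.congr (dfn_isLCode (M := M) (A := A)).dfn fun v => ?_
    constructor
    · rintro ⟨x, h1, h2⟩
      obtain ⟨l, hl⟩ := (isLCode_iff x).1 h2
      exact ⟨l, h1.trans hl⟩
    · rintro ⟨l, hl⟩
      exact ⟨_, hl, (isLCode_iff _).2 ⟨l, rfl⟩⟩

theorem mem_cod_list {l : List A} {i : ℕ} {a : A} :
    E (cod M (i, a)) (cod M l) ↔ l[i]? = Option.some a := by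
  refine ((exists_lcode (M := M) l).choose_spec _).trans ?_
  simp only [cod_inj_iff, Prod.mk.injEq]
  constructor
  · rintro ⟨j, b, h5, rfl, rfl⟩
    exact h5
  · intro h4
    exact ⟨i, a, h4, rfl, rfl⟩

@[fun_prop] theorem DF.getElem? {f : C → List A} {g : C → ℕ} (hf : DF M f) (hg : DF M g) :
    DF M fun c => (f c)[g c]? := by
  have h : DF M fun p : List A × ℕ => p.1[p.2]? := by
    refine DF.of_graph (P := fun p o => ∀ a : A, ZM.E (MP186633L.cod M (p.2, a))
      (MP186633L.cod M p.1) ↔ o = Option.some a) (by fun_prop) ?_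
    rintro ⟨l, i⟩ o
    simp only [mem_cod_list]
    constructor
    · rintro rfl a
      exact Iff.rfl
    · exact fun h => Option.ext fun a => h a
  exact h.comp (f := fun c => (f c, g c)) (hf.prodMk hg)

@[fun_prop] theorem DF.length {f : C → List A} (hf : DF M f) : DF M fun c => (f c).length := by
  have h : DF M fun l : List A => l.length := by
    refine DF.of_graph (P := fun l n => ∀ i : ℕ, i < n ↔ ∃ a : A, l[i]? = Option.some a)
      (by fun_prop) ?_
    intro l n
    constructor
    · rintro rfl i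
      constructor
      · intro h
        exact ⟨l[i], List.getElem?_eq_getElem h⟩
      · rintro ⟨a, ha⟩
        exact (List.getElem?_eq_some_iff.1 ha).1
    · intro h
      refine Nat.le_antisymm (Nat.le_of_not_lt fun h1 => ?_) (Nat.le_of_not_lt fun h1 => ?_)
      · exact absurd ((h n).2 ⟨l[n], List.getElem?_eq_getElem h1⟩) (lt_irrefl n)
      · obtain ⟨a, ha⟩ := (h l.length).1 h1
        exact absurd (List.getElem?_eq_some_iff.1 ha).1 (lt_irrefl _)
  exact h.comp hf

/-- Membership in a list. -/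
@[fun_prop] theorem DF.memList {f : C → List A} {h : C → A} (hf : DF M f) (hh : DF M h) :
    DF M fun c => h c ∈ f c := by
  have h2 : DF M fun c => ∃ i : ℕ, (f c)[i]? = Option.some (h c) := by fun_prop
  exact h2.congr fun p => propext List.mem_iff_getElem?.symm

/-! ### Recursion -/

/-- **Definable recursion.** -/
theorem DF.natRec {f : C → A} {g : C → ℕ → A → A} (hf : DF M f)
    (hg : DF M fun p : C × ℕ × A => g p.1 p.2.1 p.2.2) :
    DF M fun p : C × ℕ => (Nat.rec (f p.1) (fun k x => g p.1 k x) p.2 : A) := by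
  refine DF.of_graph (P := fun p a => ∃ l : List A, l[(0 : ℕ)]? = Option.some (f p.1) ∧
    (∀ i : ℕ, ∀ x : A, i < p.2 → l[i]? = Option.some x → l[i + 1]? = Option.some (g p.1 i x)) ∧
      l[p.2]? = Option.some a) (by fun_prop) ?_
  rintro ⟨c, n⟩ a
  constructor
  · rintro rfl
    refine ⟨(List.range (n + 1)).map fun k => (Nat.rec (f c) (fun k x => g c k x) k : A),
      ?_, ?_, ?_⟩
    · simp
    · intro i x hi hx
      have h1 : i < n + 1 := by omega
      have h2 : i + 1 < n + 1 := by omega
      rw [List.getElem?_map, List.getElem?_range h1] at hx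
      rw [List.getElem?_map, List.getElem?_range h2]
      rw [← Option.some.inj hx]
      rfl
    · rw [List.getElem?_map, List.getElem?_range (Nat.lt_succ_self n)]
      rfl
  · rintro ⟨l, h1, h2, h3⟩
    have h4 : ∀ i ≤ n, l[i]? = Option.some (Nat.rec (f c) (fun k x => g c k x) i : A) := by
      intro i
      induction i with
      | zero => exact fun _ => h1
      | succ i ih => exact fun hi => h2 i _ hi (ih (by omega))
    exact Option.some.inj ((h4 n le_rfl).symm.trans h3)

/-- Iteration of a definable function. -/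
@[fun_prop] theorem DF.iterate {g : C → A → A} {n : C → ℕ} {a : C → A}
    (hg : DF M fun p : C × A => g p.1 p.2) (hn : DF M n) (ha : DF M a) :
    DF M fun c => (g c)^[n c] (a c) := by
  have h1 := DF.natRec (C := C) (f := a) (g := fun c _ x => g c x) ha (by fun_prop)
  refine (h1.comp (f := fun c => (c, n c)) (by fun_prop)).congr ?_
  intro c
  show (Nat.rec (a c) (fun _ x => g c x) (n c) : A) = (g c)^[n c] (a c)
  induction n c with
  | zero => rfl
  | succ n ih =>
    rw [Function.iterate_succ_apply', ← ih]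

/-! ### Reflexive transitive closures -/

theorem reflTransGen_iff_list {α : Type*} {R : α → α → Prop} {a b : α} :
    Relation.ReflTransGen R a b ↔ ∃ l : List α, ∃ n : ℕ, l[(0 : ℕ)]? = Option.some a ∧
      l[n]? = Option.some b ∧ ∀ i : ℕ, i < n → ∃ x y : α, l[i]? = some x ∧ l[i + 1]? = some y ∧
        R x y := by
  constructor
  · intro h
    induction h with
    | refl => exact ⟨[a], 0, rfl, rfl, fun i hi => absurd hi (Nat.not_lt_zero i)⟩
    | @tail b c _ hbc ih =>
      obtain ⟨l, n, h1, h2, h3⟩ := ih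
      have hn : n < l.length := (List.getElem?_eq_some_iff.1 h2).1
      have hlen : (l.take (n + 1)).length = n + 1 := by
        rw [List.length_take]
        omega
      have key : ∀ i ≤ n, (l.take (n + 1) ++ [c])[i]? = l[i]? := by
        intro i hi
        rw [List.getElem?_append_left (by omega), List.getElem?_take, if_pos (by omega)]
      have key2 : (l.take (n + 1) ++ [c])[n + 1]? = some c := by
        rw [List.getElem?_append_right (by omega), hlen]
        simp
      refine ⟨l.take (n + 1) ++ [c], n + 1, (key 0 (by omega)).trans h1, key2, fun i hi => ?_⟩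
      rcases Nat.lt_succ_iff_lt_or_eq.1 hi with hi | rfl
      · obtain ⟨x, y, h4, h5, h6⟩ := h3 i hi
        exact ⟨x, y, (key i (by omega)).trans h4, (key (i + 1) (by omega)).trans h5, h6⟩
      · exact ⟨b, c, (key i le_rfl).trans h2, key2, hbc⟩
  · rintro ⟨l, n, h1, h2, h3⟩
    have key : ∀ i ≤ n, ∀ x, l[i]? = some x → Relation.ReflTransGen R a x := by
      intro i
      induction i with
      | zero =>
        intro _ x hx
        rw [Option.some.inj (h1.symm.trans hx)]
      | succ i ih =>
        intro hi y hy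
        obtain ⟨x, y', h4, h5, h6⟩ := h3 i hi
        rw [← Option.some.inj (h5.symm.trans hy)]
        exact (ih (by omega) x h4).tail h6
    exact key n le_rfl b h2

/-- The reflexive transitive closure of a definable relation is definable. -/
@[fun_prop] theorem DF.reflTransGen {R : C → A → A → Prop} {f g : C → A}
    (hR : DF M fun p : C × A × A => R p.1 p.2.1 p.2.2) (hf : DF M f) (hg : DF M g) :
    DF M fun c => Relation.ReflTransGen (R c) (f c) (g c) := by
  have h : DF M fun c => ∃ l : List A, ∃ n : ℕ, l[(0 : ℕ)]? = Option.some (f c) ∧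
      l[n]? = Option.some (g c) ∧ ∀ i : ℕ, i < n → ∃ x y : A, l[i]? = Option.some x ∧
        l[i + 1]? = Option.some y ∧ R c x y := by fun_prop
  exact h.congr fun p => propext reflTransGen_iff_list.symm

end

end MP186633L

/-!
# MP_186633_lc, plan A, part 3: functions, choice, iteration
-/

set_option autoImplicit false

namespace MP186633L

open MP9708F ZM

universe u v₁ v₂ v₃ v₄

section

variable {M : Type u} [ZM M]
variable {A : Type v₁} [Srt M A] {B : Type v₂} [Srt M B] {C : Type v₃} [Srt M C] {D : Type v₄}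
  [Srt M D]

/-! ### Function sorts -/

variable (M A B) in
/-- the definable functions between two (small) sorts -/
structure MFun : Type (max v₁ v₂) where
  /-- the underlying function -/
  toFun : A → B
  df' : DF M toFun

instance : CoeFun (MFun M A B) fun _ => A → B := ⟨fun f => f.toFun⟩

theorem MFun.df (f : MFun M A B) : DF M fun a => f a := f.df'

theorem MFun.ext {f g : MFun M A B} (h : ∀ a, f a = g a) : f = g := by
  obtain ⟨f, hf⟩ := f
  obtain ⟨g, hg⟩ := g
  have : f = g := funext h
  subst this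
  rfl

/-- the graph of a definable function -/
noncomputable def MFun.graph [Sml M A] [Sml M B] (f : MFun M A B) : MSet M (A × B) :=
  MSet.of (fun p => f p.1 = p.2) (by have := f.df; fun_prop)

theorem MFun.mem_graph [Sml M A] [Sml M B] {f : MFun M A B} {p : A × B} :
    p ∈ f.graph ↔ f p.1 = p.2 := Iff.rfl

theorem MFun.graph_injective [Sml M A] [Sml M B] :
    Function.Injective (MFun.graph (M := M) (A := A) (B := B)) := by
  intro f g h
  refine MFun.ext fun a => ?_
  have h1 : (a, f a) ∈ f.graph := MFun.mem_graph.2 rfl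
  rw [h] at h1
  exact (MFun.mem_graph.1 h1).symm

theorem MFun.range_graph [Sml M A] [Sml M B] :
    DF M fun S : MSet M (A × B) => ∃ f : MFun M A B, f.graph = S := by
  have h : DF M fun S : MSet M (A × B) => ∀ a, ∃ b, (a, b) ∈ S ∧ ∀ b', (a, b') ∈ S → b' = b := by
    fun_prop
  refine h.pcongr fun S => ?_
  constructor
  · intro h1
    choose f hf hf' using h1
    have h2 : DF M f := by
      refine DF.of_graph (P := fun a b => (a, b) ∈ S) ?_ fun a b => ⟨?_, fun h3 => (hf' a b h3).symm⟩
      · have := S.df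
        fun_prop
      · rintro rfl
        exact hf a
    refine ⟨⟨f, h2⟩, MSet.ext fun p => ?_⟩
    rw [MFun.mem_graph]
    constructor
    · intro h3
      have h4 := hf p.1
      have h3 : f p.1 = p.2 := h3
      rw [h3] at h4
      exact h4
    · intro h3
      exact (hf' p.1 p.2 h3).symm
  · rintro ⟨f, rfl⟩ a
    exact ⟨f a, MFun.mem_graph.2 rfl, fun b' h3 => (MFun.mem_graph.1 h3).symm⟩

noncomputable instance srtMFun [Sml M A] [Sml M B] : Srt M (MFun M A B) :=
  Srt.sub MFun.graph MFun.graph_injective MFun.range_graph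

theorem MFun.df_graph [Sml M A] [Sml M B] : DF M (MFun.graph (M := M) (A := A) (B := B)) :=
  DF.sub0

instance [Sml M A] [Sml M B] : Sml M (MFun M A B) :=
  Sml.of_inj MFun.graph_injective MFun.df_graph

/-- application -/
@[fun_prop]
theorem DF.app [Sml M A] [Sml M B] {f : C → MFun M A B} {g : C → A} (hf : DF M f)
    (hg : DF M g) : DF M fun c => f c (g c) := by
  refine DF.of_graph (P := fun c b => (g c, b) ∈ (f c).graph) ?_ fun c b => Iff.rfl
  have := MFun.df_graph (M := M) (A := A) (B := B)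
  fun_prop

/-- a map into a function sort is definable if it is in both variables -/
theorem DF.lam [Sml M A] [Sml M B] {f : C → MFun M A B}
    (hf : DF M fun p : C × A => f p.1 p.2) : DF M f := by
  refine DF.of_emb MFun.graph_injective MFun.df_graph (DF.set ?_)
  have h1 : DF M fun p : C × A × B => f p.1 p.2.1 = p.2.2 :=
    DF.eq (hf.comp (f := fun p : C × A × B => (p.1, p.2.1)) (by fun_prop)) (by fun_prop)
  exact h1

/-! ### Choice -/

/-- uniformization of definable relations between small sorts -/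
theorem exists_choice [Sml M A] [Sml M B] {P : A → B → Prop}
    (hP : DF M fun p : A × B => P p.1 p.2) (h : ∀ a, ∃ b, P a b) :
    ∃ f : A → B, DF M f ∧ ∀ a, P a (f a) := by
  classical
  have hd : ∀ a : A, DF M fun p : A × B => p.1 = a ∧ P p.1 p.2 := fun a => by fun_prop
  let S : A → MSet M (A × B) := fun a => MSet.of (fun p => p.1 = a ∧ P p.1 p.2) (hd a)
  have hSm : ∀ a p, p ∈ S a ↔ p.1 = a ∧ P p.1 p.2 := fun a p => Iff.rfl
  have hS : DF M S := DF.set (by
    have h1 : DF M fun q : A × A × B => q.2.1 = q.1 ∧ P q.2.1 q.2.2 :=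
      DF.and (by fun_prop) (hP.comp (f := fun q : A × A × B => (q.2.1, q.2.2)) (by fun_prop))
    exact h1)
  obtain ⟨m, hm⟩ := exists_image hS
  obtain ⟨c, hc⟩ := ZM.zfc.choice (E := E) m (by
    intro y hy
    obtain ⟨a, rfl⟩ := (hm y).1 hy
    obtain ⟨b, hb⟩ := h a
    exact ⟨cod M (a, b), cod_mem_cod.2 ((hSm _ _).2 ⟨rfl, hb⟩)⟩) (by
    intro y z hy hz hyz
    obtain ⟨a, rfl⟩ := (hm y).1 hy
    obtain ⟨a', rfl⟩ := (hm z).1 hz
    obtain ⟨w, hw, hw'⟩ := hyz
    obtain ⟨p, hp, rfl⟩ := mem_cod_MSet.1 hw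
    have h1 := (hSm _ _).1 hp
    have h2 := (hSm _ _).1 (cod_mem_cod.1 hw')
    rw [← h1.1, ← h2.1])
  have key : ∀ a, ∃ b, P a b ∧ E (cod M (a, b)) c ∧
      ∀ b', P a b' → E (cod M (a, b')) c → b = b' := by
    intro a
    obtain ⟨z, ⟨hz1, hz2⟩, hz3⟩ := hc (cod M (S a)) ((hm _).2 ⟨a, rfl⟩)
    obtain ⟨⟨a', b⟩, hp, rfl⟩ := mem_cod_MSet.1 hz2
    obtain ⟨h1, h2⟩ := (hSm _ _).1 hp
    have h1 : a' = a := h1
    subst h1
    refine ⟨b, h2, hz1, fun b' h3 h4 => ?_⟩
    have h5 := hz3 (cod M (a', b')) ⟨h4, cod_mem_cod.2 ((hSm _ _).2 ⟨rfl, h3⟩)⟩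
    exact (congrArg Prod.snd ((cod_inj M) h5)).symm
  choose f hf1 hf2 hf3 using key
  refine ⟨f, ?_, hf1⟩
  refine DF.of_graph (P := fun a b => P a b ∧ E (cod M (a, b)) c) ?_ fun a b =>
    ⟨fun h => h ▸ ⟨hf1 a, hf2 a⟩, fun h => hf3 a b h.1 h.2⟩
  exact DF.and hP (by fun_prop)

theorem DF.of_cod {f : A → B} (h : DF M fun a => MP186633L.cod M (f a)) : DF M f :=
  DF.of_emb (cod_inj M) DF.cod0 h

/-- uniformization with a default value -/
theorem exists_choice' [Sml M A] [Sml M B] [Nonempty B] {P : A → B → Prop}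
    (hP : DF M fun p : A × B => P p.1 p.2) :
    ∃ f : A → B, DF M f ∧ ∀ a, (∃ b, P a b) → P a (f a) := by
  have h1 : DF M fun p : A × B => P p.1 p.2 ∨ ¬ ∃ b, P p.1 b := by
    fun_prop
  obtain ⟨f, hf, hf'⟩ := exists_choice (P := fun a b => P a b ∨ ¬ ∃ b, P a b) h1 fun a => by
    by_cases h : ∃ b, P a b
    · obtain ⟨b, hb⟩ := h
      exact ⟨b, Or.inl hb⟩
    · exact ⟨Classical.arbitrary B, Or.inr h⟩
  exact ⟨f, hf, fun a ha => (hf' a).resolve_right fun h => h ha⟩

/-! ### Recursion -/

/-- definability by recursion -/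
theorem DF.natrec0 {f : A → A} (hf : DF M f) :
    DF M fun p : ℕ × A => f^[p.1] p.2 := by fun_prop

/-- primitive recursion -/
theorem DF.rec {g : B → A} {f : B → ℕ → A → A} (hg : DF M g)
    (hf : DF M fun p : B × ℕ × A => f p.1 p.2.1 p.2.2) :
    DF M fun p : B × ℕ => Nat.rec (motive := fun _ => A) (g p.1) (fun n a => f p.1 n a) p.2 :=
  DF.natRec hg hf

/-- the transitive closure of a definable relation is definable -/
theorem DF.rtg {R : A → A → Prop} (hR : DF M fun p : A × A => R p.1 p.2) :
    DF M fun p : A × A => Relation.ReflTransGen R p.1 p.2 :=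
  DF.reflTransGen (C := A × A) (R := fun _ => R)
    (hR.comp (f := fun p : (A × A) × A × A => p.2) (by fun_prop)) (by fun_prop) (by fun_prop)

@[fun_prop]
theorem DF.add {f g : A → ℕ} (hf : DF M f) (hg : DF M g) : DF M fun a => f a + g a := by
  have h1 : DF M fun p : ℕ × ℕ => p.1 + p.2 := by
    refine (DF.natRec (C := ℕ) (f := fun n => n) (g := fun _ _ x => x + 1) (by fun_prop)
      (by fun_prop)).congr fun p => ?_
    obtain ⟨a, b⟩ := p
    show (Nat.rec a (fun _ x => x + 1) b : ℕ) = a + b
    induction b with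
    | zero => rfl
    | succ b ih =>
      show (Nat.rec a (fun _ x => x + 1) b : ℕ) + 1 = a + (b + 1)
      rw [ih]
      omega
  exact h1.comp (hf.prodMk hg)

@[fun_prop]
theorem DF.mul {f g : A → ℕ} (hf : DF M f) (hg : DF M g) : DF M fun a => f a * g a := by
  have h1 : DF M fun p : ℕ × ℕ => p.1 * p.2 := by
    refine (DF.natRec (C := ℕ) (f := fun _ => 0) (g := fun n _ x => x + n) (by fun_prop)
      (by fun_prop)).congr fun p => ?_
    obtain ⟨a, b⟩ := p
    show (Nat.rec 0 (fun _ x => x + a) b : ℕ) = a * b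
    induction b with
    | zero => rfl
    | succ b ih =>
      show (Nat.rec 0 (fun _ x => x + a) b : ℕ) + a = a * (b + 1)
      rw [ih, Nat.mul_succ]
  exact h1.comp (hf.prodMk hg)

@[fun_prop]
theorem DF.sub {f g : A → ℕ} (hf : DF M f) (hg : DF M g) : DF M fun a => f a - g a :=
  DF.of_graph (P := fun a n => n + g a = f a ∨ (f a < g a ∧ n = 0)) (by fun_prop)
    fun a n => by omega

@[fun_prop]
theorem DF.natPair {f g : A → ℕ} (hf : DF M f) (hg : DF M g) :
    DF M fun a => Nat.pair (f a) (g a) := by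
  unfold Nat.pair
  exact DF.ite (by fun_prop) (by fun_prop) (by fun_prop)

@[fun_prop]
theorem DF.unpair1 {f : A → ℕ} (hf : DF M f) : DF M fun a => (Nat.unpair (f a)).1 := by
  refine DF.of_graph (P := fun a n => ∃ k, Nat.pair n k = f a) (by fun_prop) fun a n => ?_
  constructor
  · rintro rfl
    exact ⟨(Nat.unpair (f a)).2, Nat.pair_unpair _⟩
  · rintro ⟨k, hk⟩
    rw [← hk, Nat.unpair_pair]

@[fun_prop]
theorem DF.unpair2 {f : A → ℕ} (hf : DF M f) : DF M fun a => (Nat.unpair (f a)).2 := by
  refine DF.of_graph (P := fun a n => ∃ k, Nat.pair k n = f a) (by fun_prop) fun a n => ?_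
  constructor
  · rintro rfl
    exact ⟨(Nat.unpair (f a)).1, Nat.pair_unpair _⟩
  · rintro ⟨k, hk⟩
    rw [← hk, Nat.unpair_pair]

/-! ### Sums, subtypes, elements of a set -/

noncomputable instance srtSum : Srt M (A ⊕ B) where
  cod := Sum.elim (fun a => pr (nM M 0) (cod M a)) fun b => pr (nM M 1) (cod M b)
  inj := by
    rintro (a | b) (a' | b') h
    · exact congrArg Sum.inl (cod_inj M (pr_inj h).2)
    · exact absurd (nM_inj (pr_inj h).1) (by omega)
    · exact absurd (nM_inj (pr_inj h).1) (by omega)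
    · exact congrArg Sum.inr (cod_inj M (pr_inj h).2)
  dp := by
    refine DP.congr (DP.or (DP.ex (DP.and (DP.rng (A := A) (DT.var 0)) (DP.eq (DT.var 1)
      (DT.pr (DT.const (nM M 0)) (DT.var 0))))) (DP.ex (DP.and (DP.rng (A := B) (DT.var 0))
        (DP.eq (DT.var 1) (DT.pr (DT.const (nM M 1)) (DT.var 0))))))
      (Q := fun v => (∃ x, (∃ a : A, x = cod M a) ∧ v 0 = pr (nM M 0) x) ∨
        ∃ x, (∃ b : B, x = cod M b) ∧ v 0 = pr (nM M 1) x) fun v => ?_
    constructor
    · rintro (⟨_, ⟨a, rfl⟩, h⟩ | ⟨_, ⟨b, rfl⟩, h⟩)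
      · exact ⟨Sum.inl a, h⟩
      · exact ⟨Sum.inr b, h⟩
    · rintro ⟨a | b, h⟩
      · exact Or.inl ⟨_, ⟨a, rfl⟩, h⟩
      · exact Or.inr ⟨_, ⟨b, rfl⟩, h⟩

@[fun_prop]
theorem DF.inl {f : C → A} (hf : DF M f) : DF M fun c => (Sum.inl (f c) : A ⊕ B) := by
  refine DF.of_cod ?_
  have h : DF M fun c => MP186633L.pr (nM M 0) (MP186633L.cod M (f c)) := by fun_prop
  exact h

@[fun_prop]
theorem DF.inr {f : C → B} (hf : DF M f) : DF M fun c => (Sum.inr (f c) : A ⊕ B) := by
  refine DF.of_cod ?_
  have h : DF M fun c => MP186633L.pr (nM M 1) (MP186633L.cod M (f c)) := by fun_prop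
  exact h

theorem DF.sumElim {f : C → A ⊕ B} {g : C → A → D} {h : C → B → D} (hf : DF M f)
    (hg : DF M fun p : C × A => g p.1 p.2) (hh : DF M fun p : C × B => h p.1 p.2) :
    DF M fun c => Sum.elim (g c) (h c) (f c) := by
  refine DF.of_graph (P := fun c d => (∃ a, f c = Sum.inl a ∧ g c a = d) ∨
    ∃ b, f c = Sum.inr b ∧ h c b = d) (by fun_prop) fun c d => ?_
  rcases hfc : f c with a | b
  · simp
  · simp

theorem exists_union2 (x y : M) : ∃ z : M, ∀ w, E w z ↔ E w x ∨ E w y := by
  obtain ⟨p, hp⟩ := exists_upair x y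
  obtain ⟨z, hz⟩ := ZM.zfc.union (E := E) p
  refine ⟨z, fun w => (hz w).trans ?_⟩
  simp only [hp]
  constructor
  · rintro ⟨_, rfl | rfl, h⟩
    · exact Or.inl h
    · exact Or.inr h
  · rintro (h | h)
    · exact ⟨x, Or.inl rfl, h⟩
    · exact ⟨y, Or.inr rfl, h⟩

instance [Sml M A] [Sml M B] : Sml M (A ⊕ B) := by
  obtain ⟨m, hm⟩ := exists_image (M := M) (f := fun a : A => (Sum.inl a : A ⊕ B)) (by fun_prop)
  obtain ⟨m', hm'⟩ := exists_image (M := M) (f := fun b : B => (Sum.inr b : A ⊕ B)) (by fun_prop)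
  obtain ⟨z, hz⟩ := exists_union2 m m'
  refine ⟨z, fun x => ?_⟩
  rw [hz, hm, hm']
  constructor
  · rintro (⟨a, rfl⟩ | ⟨b, rfl⟩)
    · exact ⟨_, rfl⟩
    · exact ⟨_, rfl⟩
  · rintro ⟨a | b, rfl⟩
    · exact Or.inl ⟨a, rfl⟩
    · exact Or.inr ⟨b, rfl⟩

instance : Sml M Prop := by
  obtain ⟨m, hm⟩ := exists_upair (cod M True) (cod M False)
  refine ⟨m, fun x => ?_⟩
  rw [hm]
  constructor
  · rintro (rfl | rfl)
    · exact ⟨_, rfl⟩
    · exact ⟨_, rfl⟩
  · rintro ⟨p, rfl⟩
    by_cases hp : p
    · left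
      simp [hp]
    · right
      simp [hp]

noncomputable instance srtBool : Srt M Bool :=
  Srt.sub (fun b : Bool => (b = true : Prop)) (by
    intro a b h
    cases a <;> cases b <;> simp_all) (by
    refine (DF.const True).pcongr fun p => ?_
    by_cases hp : p
    · simp only [hp, true_iff, eq_iff_iff, iff_true]
      exact ⟨true, rfl⟩
    · simp only [hp, true_iff, eq_iff_iff, iff_false]
      exact ⟨false, by simp⟩)

instance : Sml M Bool :=
  Sml.of_inj (e := fun b : Bool => (b = true : Prop)) (by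
    intro a b h
    cases a <;> cases b <;> simp_all) DF.sub0

/-- the sort of the elements of an element of `M` -/
def El (K : M) : Type u := {x : M // E x K}

noncomputable instance srtEl (K : M) : Srt M (El K) :=
  Srt.sub (fun x : El K => x.1) (fun _ _ h => Subtype.ext h) (by
    have h : DF M fun x : M => E x K := by fun_prop
    refine h.pcongr fun x => ⟨fun h => ⟨⟨x, h⟩, rfl⟩, ?_⟩
    rintro ⟨y, rfl⟩
    exact y.2)

@[fun_prop]
theorem DF.elVal {K : M} {f : A → El K} (hf : DF M f) : DF M fun a => (f a).1 :=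
  (DF.sub0 (e := fun x : El K => x.1)).comp hf

instance (K : M) : Sml M (El K) := ⟨K, fun x => by
  constructor
  · intro h
    exact ⟨⟨x, h⟩, rfl⟩
  · rintro ⟨y, rfl⟩
    exact y.2⟩

/-- a definable subtype -/
@[instance_reducible] noncomputable def srtSubtype {P : A → Prop} (hP : DF M P) :
    Srt M {a // P a} :=
  Srt.sub Subtype.val Subtype.val_injective (hP.pcongr fun a => by simp)

theorem DF.subVal {P : A → Prop} {hP : DF M P} :
    @DF M _ {a // P a} (srtSubtype hP) A _ Subtype.val :=
  DF.sub0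

theorem sml_subtype [Sml M A] {P : A → Prop} (hP : DF M P) :
    @Sml M _ {a // P a} (srtSubtype hP) := by
  let _ := srtSubtype hP
  exact Sml.of_inj Subtype.val_injective DF.subVal

end

end MP186633L

/-!
# MP_186633_lc, plan A: operations on lists
-/

set_option autoImplicit false

namespace MP186633L

open MP9708F ZM

universe u v₁ v₂ v₃ v₄

section

variable {M : Type u} [ZM M]
variable {A : Type v₁} [Srt M A] {B : Type v₂} [Srt M B] {C : Type v₃} [Srt M C] {D : Type v₄}
  [Srt M D]

/-! ### Optional elements -/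

@[fun_prop]
theorem DF.optElim {o : C → Option A} {x : C → B} {g : C → A → B} (ho : DF M o) (hx : DF M x)
    (hg : DF M fun p : C × A => g p.1 p.2) : DF M fun c => (o c).elim (x c) (g c) := by
  refine DF.of_graph (P := fun c r => (o c = none ∧ x c = r) ∨
    ∃ a, o c = Option.some a ∧ g c a = r) (by fun_prop) fun c r => ?_
  rcases o c with _ | a
  · simp
  · simp

@[fun_prop]
theorem DF.optMap {o : C → Option A} {g : C → A → B} (ho : DF M o)
    (hg : DF M fun p : C × A => g p.1 p.2) : DF M fun c => (o c).map (g c) := by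
  have h : DF M fun c => (o c).elim none (fun a => Option.some (g c a)) := by fun_prop
  refine h.congr fun c => ?_
  rcases o c with _ | a <;> rfl

/-! ### Lists -/

/-- a function to lists is definable if its entries are -/
theorem DF.list {f : C → List A}
    (h : DF M fun p : C × ℕ × A => (f p.1)[p.2.1]? = Option.some p.2.2) : DF M f := by
  have h' : DF M fun p : (C × List A) × ℕ × A => (f p.1.1)[p.2.1]? = Option.some p.2.2 :=
    h.comp (f := fun p : (C × List A) × ℕ × A => (p.1.1, p.2)) (by fun_prop)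
  refine DF.of_graph (P := fun c l => ∀ q : ℕ × A, (f c)[q.1]? = Option.some q.2 ↔
    l[q.1]? = Option.some q.2) (DF.all (DF.iff h' (by fun_prop))) fun c l => ?_
  constructor
  · rintro rfl q
    exact Iff.rfl
  · exact fun h => List.ext_getElem? fun i => Option.ext fun a => h (i, a)

@[fun_prop]
theorem DF.cons {a : C → A} {L : C → List A} (ha : DF M a) (hL : DF M L) :
    DF M fun c => a c :: L c := by
  refine DF.list ?_
  have h : DF M fun p : C × ℕ × A => (p.2.1 = 0 ∧ a p.1 = p.2.2) ∨
    ∃ j, p.2.1 = j + 1 ∧ (L p.1)[j]? = Option.some p.2.2 := by fun_prop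
  refine h.pcongr ?_
  rintro ⟨c, i, x⟩
  cases i with
  | zero => simp
  | succ i => simp

@[fun_prop]
theorem DF.append {L L' : C → List A} (hL : DF M L) (hL' : DF M L') :
    DF M fun c => L c ++ L' c := by
  refine DF.list ?_
  have h : DF M fun p : C × ℕ × A => (p.2.1 < (L p.1).length ∧
      (L p.1)[p.2.1]? = Option.some p.2.2) ∨
      ∃ j, p.2.1 = (L p.1).length + j ∧ (L' p.1)[j]? = Option.some p.2.2 := by fun_prop
  refine h.pcongr ?_
  rintro ⟨c, i, x⟩
  simp only
  rcases lt_or_ge i (L c).length with h1 | h1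
  · rw [List.getElem?_append_left h1]
    constructor
    · rintro (⟨-, h2⟩ | ⟨j, h2, -⟩)
      · exact h2
      · omega
    · exact fun h2 => Or.inl ⟨h1, h2⟩
  · rw [List.getElem?_append_right h1]
    constructor
    · rintro (⟨h2, -⟩ | ⟨j, h2, h3⟩)
      · omega
      · rw [h2, Nat.add_sub_cancel_left]
        exact h3
    · exact fun h2 => Or.inr ⟨i - (L c).length, by omega, h2⟩

@[fun_prop]
theorem DF.take {n : C → ℕ} {L : C → List A} (hn : DF M n) (hL : DF M L) :
    DF M fun c => (L c).take (n c) := by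
  refine DF.list ?_
  have h : DF M fun p : C × ℕ × A => p.2.1 < n p.1 ∧ (L p.1)[p.2.1]? = Option.some p.2.2 := by
    fun_prop
  refine h.pcongr ?_
  rintro ⟨c, i, x⟩
  simp only [List.getElem?_take]
  split_ifs with h1
  · simp [h1]
  · simp [h1]

@[fun_prop]
theorem DF.drop {n : C → ℕ} {L : C → List A} (hn : DF M n) (hL : DF M L) :
    DF M fun c => (L c).drop (n c) := by
  refine DF.list ?_
  have h : DF M fun p : C × ℕ × A => (L p.1)[n p.1 + p.2.1]? = Option.some p.2.2 := by
    fun_prop
  refine h.pcongr ?_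
  rintro ⟨c, i, x⟩
  simp only [List.getElem?_drop]

@[fun_prop]
theorem DF.reverse {L : C → List A} (hL : DF M L) : DF M fun c => (L c).reverse := by
  refine DF.list ?_
  have h : DF M fun p : C × ℕ × A => ∃ j, p.2.1 + j + 1 = (L p.1).length ∧
    (L p.1)[j]? = Option.some p.2.2 := by fun_prop
  refine h.pcongr ?_
  rintro ⟨c, i, x⟩
  simp only
  rcases lt_or_ge i (L c).length with h1 | h1
  · rw [List.getElem?_reverse h1]
    constructor
    · rintro ⟨j, h2, h3⟩
      rw [show (L c).length - 1 - i = j by omega]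
      exact h3
    · exact fun h2 => ⟨(L c).length - 1 - i, by omega, h2⟩
  · constructor
    · rintro ⟨j, h2, -⟩
      omega
    · intro h2
      rw [List.getElem?_eq_none (by rw [List.length_reverse]; exact h1)] at h2
      exact absurd h2 (by simp)

@[fun_prop]
theorem DF.map {f : C → A → B} {L : C → List A} (hf : DF M fun p : C × A => f p.1 p.2)
    (hL : DF M L) : DF M fun c => (L c).map (f c) := by
  refine DF.list ?_
  have h : DF M fun p : C × ℕ × B => ∃ x, (L p.1)[p.2.1]? = Option.some x ∧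
    f p.1 x = p.2.2 := by fun_prop
  refine h.pcongr ?_
  rintro ⟨c, i, x⟩
  simp only [List.getElem?_map, Option.map_eq_some_iff]

/-- the list of the first values of a function -/
@[fun_prop]
theorem DF.rangeMap {f : C → ℕ → A} {m : C → ℕ} (hf : DF M fun p : C × ℕ => f p.1 p.2)
    (hm : DF M m) : DF M fun c => (List.range (m c)).map (f c) := by
  refine DF.list ?_
  have h : DF M fun p : C × ℕ × A => p.2.1 < m p.1 ∧ f p.1 p.2.1 = p.2.2 := by fun_prop
  refine h.pcongr ?_
  rintro ⟨c, i, x⟩
  simp only [List.getElem?_map]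
  rcases lt_or_ge i (m c) with h1 | h1
  · rw [List.getElem?_range h1]
    simp [h1]
  · rw [List.getElem?_eq_none (by rw [List.length_range]; exact h1)]
    simp [not_lt.2 h1]

theorem foldl_eq_rec {α β : Type*} (f : β → α → β) (b : β) (L : List α) (k : ℕ) :
    (L.take k).foldl f b =
      (Nat.rec b (fun i x => (L[i]?).elim x (fun a => f x a)) k : β) := by
  induction k with
  | zero => rfl
  | succ k ih =>
    show _ = (L[k]?).elim (Nat.rec b (fun i x => (L[i]?).elim x (fun a => f x a)) k : β) _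
    rw [← ih, List.take_add_one, List.foldl_append]
    rcases L[k]? with _ | a <;> rfl

@[fun_prop]
theorem DF.foldl {f : C → B → A → B} {b : C → B} {L : C → List A}
    (hf : DF M fun p : C × B × A => f p.1 p.2.1 p.2.2) (hb : DF M b) (hL : DF M L) :
    DF M fun c => (L c).foldl (f c) (b c) := by
  have h := DF.natRec (C := C) (f := b)
    (g := fun c i x => ((L c)[i]?).elim x (fun a => f c x a)) hb (by fun_prop)
  refine (h.comp (f := fun c => (c, (L c).length)) (by fun_prop)).congr fun c => ?_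
  show (Nat.rec (b c) (fun i x => ((L c)[i]?).elim x (fun a => f c x a)) (L c).length : B) = _
  rw [← foldl_eq_rec, List.take_length]

@[fun_prop]
theorem DF.foldr {f : C → A → B → B} {b : C → B} {L : C → List A}
    (hf : DF M fun p : C × A × B => f p.1 p.2.1 p.2.2) (hb : DF M b) (hL : DF M L) :
    DF M fun c => (L c).foldr (f c) (b c) := by
  have h : DF M fun c => (L c).reverse.foldl (fun x y => f c y x) (b c) := by fun_prop
  exact h.congr fun c => List.foldl_reverse

theorem DF.listProd [Monoid A] (hmul : DF M fun p : A × A => p.1 * p.2)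
    {L : C → List A} (hL : DF M L) : DF M fun c => (L c).prod := by
  have h : DF M fun c => (L c).foldl (fun x y => x * y) 1 :=
    DF.foldl (f := fun _ x y => x * y) (b := fun _ => 1)
      (hmul.comp (f := fun p : C × A × A => p.2) (by fun_prop)) (by fun_prop) hL
  exact h.congr fun c => List.prod_eq_foldl.symm

/-- reduced words (chains in general) -/
theorem DF.isChain {R : C → A → A → Prop} (hR : DF M fun p : C × A × A => R p.1 p.2.1 p.2.2)
    {L : C → List A} (hL : DF M L) : DF M fun c => (L c).IsChain (R c) := by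
  have h : DF M fun c => ∀ i : ℕ, ∀ a b : A, (L c)[i]? = Option.some a →
    (L c)[i + 1]? = Option.some b → R c a b := by fun_prop
  refine h.pcongr fun c => ?_
  rw [List.isChain_iff_getElem]
  constructor
  · intro h i hi
    exact h i _ _ (List.getElem?_eq_getElem (by omega)) (List.getElem?_eq_getElem hi)
  · intro h i a b ha hb
    obtain ⟨h1, h2⟩ := List.getElem?_eq_some_iff.1 ha
    obtain ⟨h3, h4⟩ := List.getElem?_eq_some_iff.1 hb
    rw [← h2, ← h4]
    exact h i h3

/-- `∀ a ∈ L, P a` -/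
@[fun_prop]
theorem DF.ballList {P : C → A → Prop} {L : C → List A} (hP : DF M fun p : C × A => P p.1 p.2)
    (hL : DF M L) : DF M fun c => ∀ a ∈ L c, P c a := by
  have h : DF M fun c => ∀ a, a ∈ L c → P c a := by fun_prop
  exact h

end

end MP186633L

/-!
# MP_186633_lc, plan A: every small sort has a definable well-order

Zermelo's theorem by recursion over the ordinals of `M`.  As `M` is well-founded, the well-order is
well-founded outside `M` too.
-/

set_option autoImplicit false

namespace MP186633L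

open MP9708F ZM

universe u v₁ v₂ v₃ v₄

section

variable {M : Type u} [ZM M]

/-! ### Ordinals of `M` -/

theorem IsOrd.elem {x y : M} (h : IsOrd E x) (hy : E y x) : IsOrd E y :=
  ⟨h.2 y hy, fun z hz w hw v hv => h.2 z (h.1 y hy z hz) w hw v hv⟩

theorem IsOrd.trans {x y z : M} (h : IsOrd E x) (hy : E y x) (hz : E z y) : E z x := h.1 y hy z hz

theorem ord_tri : ∀ x y : M, IsOrd E x → IsOrd E y → E x y ∨ x = y ∨ E y x := by
  intro x
  induction x using (ZM.wf (M := M)).induction with
  | _ x ihx =>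
    intro y
    induction y using (ZM.wf (M := M)).induction with
    | _ y ihy =>
      intro hx hy
      by_cases hxy : x = y
      · exact Or.inr (Or.inl hxy)
      have h1 : (∃ z, E z x ∧ ¬ E z y) ∨ ∃ z, E z y ∧ ¬ E z x := by
        by_contra hcon
        push Not at hcon
        exact hxy (ext fun z => ⟨hcon.1 z, hcon.2 z⟩)
      rcases h1 with ⟨z, h2, h3⟩ | ⟨z, h2, h3⟩
      · rcases ihx z h2 y (hx.elem h2) hy with h4 | h4 | h4
        · exact absurd h4 h3
        · exact Or.inr (Or.inr (h4 ▸ h2))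
        · exact Or.inr (Or.inr (hx.trans h2 h4))
      · rcases ihy z h2 hx (hy.elem h2) with h4 | h4 | h4
        · exact Or.inl (hy.trans h2 h4)
        · exact Or.inl (h4 ▸ h2)
        · exact absurd h4 h3

@[fun_prop]
theorem DF.isOrd {C : Type v₁} [Srt M C] {f : C → M} (hf : DF M f) :
    DF M fun c => IsOrd ZM.E (f c) := by
  have h : DF M fun x : M => IsOrd ZM.E x := by
    unfold IsOrd
    fun_prop
  exact h.comp hf

end

section

variable {M : Type u} [ZM M]
variable {A : Type v₁} [Srt M A] {C : Type v₃} [Srt M C]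

/-- bounded comprehension -/
theorem exists_mset {P : C → Prop} (hP : DF M P) (m : M) (hm : ∀ c, P c → E (cod M c) m) :
    ∃ S : MSet M C, ∀ c, c ∈ S ↔ P c := by
  obtain ⟨y, hy⟩ := sep (P := fun x => ∃ c, x = cod M c ∧ P c) hP.dfn m
  refine ⟨⟨{c | P c}, y, fun x => (hy x).trans ?_⟩, fun c => Iff.rfl⟩
  constructor
  · rintro ⟨-, c, h1, h2⟩
    exact ⟨c, h2, h1⟩
  · rintro ⟨c, h1, rfl⟩
    exact ⟨hm c h1, c, rfl, h1⟩

/-! ### The recursion -/

variable (f : MSet M A → A)

/-- `a` is the value of the recursion at a place where the set `U` of values has been used -/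
def NewV (U : A → Prop) (a : A) : Prop :=
  ¬ U a ∧ ∃ S : MSet M A, (∀ a', a' ∈ S ↔ ¬ U a') ∧ f S = a

/-- `h` is the recursion up to `α` -/
def IsAp (α : M) (h : MSet M (M × A)) : Prop :=
  IsOrd E α ∧ ∀ β a, (β, a) ∈ h ↔ (E β α ∨ β = α) ∧ NewV f (fun a' => ∃ γ, E γ β ∧ (γ, a') ∈ h) a

variable {f}

theorem df_isAp (hf : DF M f) : DF M fun p : M × MSet M (M × A) => IsAp f p.1 p.2 := by
  unfold IsAp NewV
  fun_prop

theorem NewV.congr {U U' : A → Prop} (h : ∀ a, U a ↔ U' a) (a : A) :
    NewV f U a ↔ NewV f U' a := by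
  have : U = U' := funext fun a => propext (h a)
  rw [this]

theorem IsAp.agree {α α' : M} {h h' : MSet M (M × A)} (hh : IsAp f α h) (hh' : IsAp f α' h') :
    ∀ β : M, (E β α ∨ β = α) → (E β α' ∨ β = α') → ∀ a, (β, a) ∈ h ↔ (β, a) ∈ h' := by
  intro β
  induction β using (ZM.wf (M := M)).induction with
  | _ β ih =>
    intro h1 h2 a
    rw [hh.2, hh'.2]
    have h3 : ∀ a', (∃ γ, E γ β ∧ (γ, a') ∈ h) ↔ ∃ γ, E γ β ∧ (γ, a') ∈ h' := by
      intro a'
      refine exists_congr fun γ => and_congr_right fun hγ => ih γ hγ (Or.inl ?_) (Or.inl ?_) a'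
      · rcases h1 with h1 | rfl
        · exact hh.1.trans h1 hγ
        · exact hγ
      · rcases h2 with h2 | rfl
        · exact hh'.1.trans h2 hγ
        · exact hγ
    rw [NewV.congr h3]
    tauto

theorem IsAp.uniq {α : M} {h h' : MSet M (M × A)} (hh : IsAp f α h) (hh' : IsAp f α h') :
    h = h' := by
  refine MSet.ext ?_
  rintro ⟨β, a⟩
  by_cases hb : E β α ∨ β = α
  · exact hh.agree hh' β hb hb a
  · rw [hh.2, hh'.2]
    tauto

/-- the value of the recursion at `γ` is `a` -/
def Fr (f : MSet M A → A) (γ : M) (a : A) : Prop := ∃ h, IsAp f γ h ∧ (γ, a) ∈ h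

theorem df_fr (hf : DF M f) : DF M fun p : M × A => Fr f p.1 p.2 := by
  have h1 := df_isAp hf
  unfold Fr
  have h2 : DF M fun q : (M × A) × MSet M (M × A) => IsAp f q.1.1 q.2 :=
    h1.comp (f := fun q : (M × A) × MSet M (M × A) => (q.1.1, q.2)) (by fun_prop)
  fun_prop

theorem exists_isAp [Sml M A] (hf : DF M f) : ∀ α : M, IsOrd E α → ∃ h, IsAp f α h := by
  intro α
  induction α using (ZM.wf (M := M)).induction with
  | _ α ih =>
    intro hα
    have hFr := df_fr hf
    -- the value at `γ` of an approximation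
    have key : ∀ γ h a, E γ α → IsAp f γ h → ((γ, a) ∈ h ↔ Fr f γ a) := by
      intro γ h a _ hh
      constructor
      · intro h1
        exact ⟨h, hh, h1⟩
      · rintro ⟨h', hh', h1⟩
        rwa [hh.uniq hh']
    have key2 : ∀ β h γ a, E β α → IsAp f β h → (E γ β ∨ γ = β) → ((γ, a) ∈ h ↔ Fr f γ a) := by
      intro β h γ a hβ hh hγ
      have hγα : E γ α := by
        rcases hγ with h1 | rfl
        · exact hα.trans hβ h1
        · exact hβ
      obtain ⟨h', hh'⟩ := ih γ hγα (hα.elem hγα)
      rw [← key γ h' a hγα hh']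
      exact hh.agree hh' γ hγ (Or.inr rfl) a
    have hd : DF M fun p : M × A => (E p.1 α ∧ Fr f p.1 p.2) ∨
        (p.1 = α ∧ NewV f (fun a' => ∃ γ, E γ α ∧ Fr f γ a') p.2) := by
      unfold NewV
      have h2 : DF M fun q : ((M × A) × A) × M => Fr f q.2 q.1.2 :=
        hFr.comp (f := fun q : ((M × A) × A) × M => (q.2, q.1.2)) (by fun_prop)
      fun_prop
    obtain ⟨m, hm⟩ := exists_image (M := M) (A := El (adj α α) × A) (B := M × A)
      (f := fun p => (p.1.1, p.2)) (by fun_prop)
    obtain ⟨h, hh⟩ := exists_mset hd m (by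
      rintro ⟨β, a⟩ hc
      rw [hm]
      have hβ : E β (adj α α) := by
        rw [mem_adj]
        rcases hc with hc | hc
        · exact Or.inl hc.1
        · exact Or.inr hc.1
      exact ⟨(⟨β, hβ⟩, a), rfl⟩)
    refine ⟨h, hα, fun β a => ?_⟩
    rw [hh]
    -- the values used before `β ≤ α`
    have hu : ∀ β, (E β α ∨ β = α) → ∀ a', (∃ γ, E γ β ∧ (γ, a') ∈ h) ↔
        ∃ γ, E γ β ∧ Fr f γ a' := by
      intro β hβ a'
      refine exists_congr fun γ => and_congr_right fun hγ => ?_
      have hγα : E γ α := by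
        rcases hβ with h1 | rfl
        · exact hα.trans h1 hγ
        · exact hγ
      rw [hh]
      constructor
      · rintro (h1 | h1)
        · exact h1.2
        · exact absurd (h1.1 ▸ hγα) (not_mem_self _)
      · intro h1
        exact Or.inl ⟨hγα, h1⟩
    constructor
    · rintro (⟨h1, h2⟩ | ⟨h1, h2⟩)
      · refine ⟨Or.inl h1, ?_⟩
        rw [NewV.congr (hu β (Or.inl h1))]
        obtain ⟨h', hh', h3⟩ := h2
        have h4 := ((hh'.2 _ _).1 h3).2
        rwa [NewV.congr fun a' => exists_congr fun γ => and_congr_right fun hγ =>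
          key2 β h' γ a' h1 hh' (Or.inl hγ)] at h4
      · have h1 : β = α := h1
        subst h1
        refine ⟨Or.inr rfl, ?_⟩
        rwa [NewV.congr (hu β (Or.inr rfl))]
    · rintro ⟨h1, h2⟩
      rw [NewV.congr (hu β h1)] at h2
      rcases h1 with h1 | rfl
      · refine Or.inl ⟨h1, ?_⟩
        obtain ⟨h', hh'⟩ := ih β h1 (hα.elem h1)
        refine ⟨h', hh', (hh'.2 _ _).2 ⟨Or.inr rfl, ?_⟩⟩
        rwa [NewV.congr fun a' => exists_congr fun γ => and_congr_right fun hγ =>
          key2 β h' γ a' h1 hh' (Or.inl hγ)]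
      · exact Or.inr ⟨rfl, h2⟩

theorem fr_iff [Sml M A] (hf : DF M f) {α : M} (hα : IsOrd E α) {a : A} :
    Fr f α a ↔ NewV f (fun a' => ∃ γ, E γ α ∧ Fr f γ a') a := by
  obtain ⟨h, hh⟩ := exists_isAp hf α hα
  have h1 : ∀ a', (∃ γ, E γ α ∧ (γ, a') ∈ h) ↔ ∃ γ, E γ α ∧ Fr f γ a' := by
    intro a'
    refine exists_congr fun γ => and_congr_right fun hγ => ?_
    obtain ⟨h', hh'⟩ := exists_isAp hf γ (hα.elem hγ)
    rw [hh.agree hh' γ (Or.inl hγ) (Or.inr rfl)]
    constructor
    · intro h2
      exact ⟨h', hh', h2⟩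
    · rintro ⟨h2, hh2, h3⟩
      rwa [hh'.uniq hh2]
  rw [← NewV.congr h1]
  constructor
  · rintro ⟨h', hh', h2⟩
    rw [← hh.uniq hh'] at h2
    exact ((hh.2 _ _).1 h2).2
  · intro h2
    exact ⟨h, hh, (hh.2 _ _).2 ⟨Or.inr rfl, h2⟩⟩

/-- **Zermelo's theorem** in `M`: every small sort has a definable injection into the ordinals. -/
theorem exists_ord [Sml M A] : ∃ o : A → M, DF M o ∧ Function.Injective o ∧
    ∀ a, IsOrd E (o a) := by
  classical
  by_cases hA : Nonempty A
  swap
  · refine ⟨fun a => cod M a, by fun_prop, cod_inj M, fun a => absurd ⟨a⟩ hA⟩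
  obtain ⟨f, hf, hf'⟩ := exists_choice' (M := M) (A := MSet M A) (B := A)
    (P := fun S a => a ∈ S) (by fun_prop)
  have hFr := df_fr hf
  -- different ordinals have different values
  have h1 : ∀ α β a, IsOrd E α → IsOrd E β → Fr f α a → Fr f β a → α = β := by
    intro α β a hα hβ h2 h3
    rcases ord_tri α β hα hβ with h4 | h4 | h4
    · exact absurd ⟨α, h4, h2⟩ ((fr_iff hf hβ).1 h3).1
    · exact h4
    · exact absurd ⟨β, h4, h3⟩ ((fr_iff hf hα).1 h2).1
  have h2 : ∀ α a b, IsOrd E α → Fr f α a → Fr f α b → a = b := by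
    intro α a b hα h3 h4
    obtain ⟨-, S, h5, h6⟩ := (fr_iff hf hα).1 h3
    obtain ⟨-, S', h7, h8⟩ := (fr_iff hf hα).1 h4
    have : S = S' := MSet.ext fun a' => (h5 a').trans (h7 a').symm
    rw [← h6, ← h8, this]
  -- every point is a value
  have h3 : ∀ a, ∃ α, IsOrd E α ∧ Fr f α a := by
    by_contra hcon
    push Not at hcon
    obtain ⟨a0, ha0⟩ := hcon
    have h4 : ∀ α, IsOrd E α → ∃ b, Fr f α b := by
      intro α hα
      have hd : DF M fun a' : A => ¬ ∃ γ, E γ α ∧ Fr f γ a' := by
        have h5 : DF M fun q : A × M => Fr f q.2 q.1 :=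
          hFr.comp (f := fun q : A × M => (q.2, q.1)) (by fun_prop)
        fun_prop
      let S : MSet M A := MSet.of _ hd
      have hS : ∀ a', a' ∈ S ↔ ¬ ∃ γ, E γ α ∧ Fr f γ a' := fun a' => Iff.rfl
      have h5 : a0 ∈ S := (hS a0).2 fun ⟨γ, h6, h7⟩ => ha0 γ (hα.elem h6) h7
      refine ⟨f S, (fr_iff hf hα).2 ⟨(hS _).1 (hf' S ⟨a0, h5⟩), S, hS, rfl⟩⟩
    obtain ⟨g, hg, hg'⟩ : ∃ g : A → M, DF M g ∧ ∀ α a, IsOrd E α → Fr f α a → g a = α := by
      refine ⟨fun a => if h : ∃ α, IsOrd E α ∧ Fr f α a then h.choose else nM M 0, ?_, ?_⟩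
      · refine DF.of_graph (P := fun a x => (IsOrd E x ∧ Fr f x a) ∨
          ((¬ ∃ α, IsOrd E α ∧ Fr f α a) ∧ x = nM M 0)) ?_ fun a x => ?_
        · have h5 : DF M fun q : (A × M) × M => Fr f q.2 q.1.1 :=
            hFr.comp (f := fun q : (A × M) × M => (q.2, q.1.1)) (by fun_prop)
          have h6 : DF M fun q : A × M => Fr f q.2 q.1 :=
            hFr.comp (f := fun q : A × M => (q.2, q.1)) (by fun_prop)
          fun_prop
        · by_cases h : ∃ α, IsOrd E α ∧ Fr f α a
          · simp only [h, not_true_eq_false, false_and, or_false]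
            constructor
            · rintro rfl
              exact h.choose_spec
            · intro h5
              exact h1 _ _ a h.choose_spec.1 h5.1 h.choose_spec.2 h5.2
          · simp only [h, not_false_eq_true, true_and]
            constructor
            · rintro rfl
              exact Or.inr rfl
            · rintro (h5 | h5)
              · exact absurd ⟨x, h5⟩ h
              · exact h5.symm
      · intro α a hα h5
        have h : ∃ α, IsOrd E α ∧ Fr f α a := ⟨α, hα, h5⟩
        simp only [dif_pos h]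
        exact h1 _ _ a h.choose_spec.1 hα h.choose_spec.2 h5
    obtain ⟨m, hm⟩ := exists_image hg
    obtain ⟨y, hy⟩ := sep (P := fun x : M => IsOrd E x) (by
      have h5 : DF M fun x : M => IsOrd E x := by fun_prop
      have h6 := h5.dfn
      have h7 : DP fun v : ℕ → M => ∃ a : M, v 0 = cod M a ∧ IsOrd E a := h6
      exact h7.congr fun v => by
        constructor
        · rintro ⟨a, ha, h8⟩
          have : v 0 = a := ha
          rwa [this]
        · intro h8
          exact ⟨v 0, rfl, h8⟩) m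
    have hy' : ∀ x, E x y ↔ IsOrd E x := by
      intro x
      rw [hy]
      constructor
      · exact fun h => h.2
      · intro hx
        obtain ⟨b, hb⟩ := h4 x hx
        exact ⟨(hm x).2 ⟨b, (hg' x b hx hb).symm⟩, hx⟩
    have hyo : IsOrd E y := by
      refine ⟨fun x hx z hz => (hy' z).2 (((hy' x).1 hx).elem hz), fun x hx z hz w hw => ?_⟩
      exact ((hy' x).1 hx).trans hz hw
    exact not_mem_self y ((hy' y).2 hyo)
  choose o ho1 ho2 using h3
  refine ⟨o, ?_, ?_, ho1⟩
  · refine DF.of_graph (P := fun a x => IsOrd E x ∧ Fr f x a) ?_ fun a x => ?_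
    · have h6 : DF M fun q : A × M => Fr f q.2 q.1 :=
        hFr.comp (f := fun q : A × M => (q.2, q.1)) (by fun_prop)
      fun_prop
    · constructor
      · rintro rfl
        exact ⟨ho1 a, ho2 a⟩
      · intro h
        exact h1 _ _ a (ho1 a) h.1 (ho2 a) h.2
  · intro a b hab
    refine h2 (o a) a b (ho1 a) (ho2 a) ?_
    rw [hab]
    exact ho2 b

/-- every small sort has a definable well-order -/
theorem exists_wo [Sml M A] : ∃ r : A → A → Prop, (DF M fun p : A × A => r p.1 p.2) ∧
    WellFounded r ∧ ∀ a b, r a b ∨ a = b ∨ r b a := by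
  obtain ⟨o, ho, hi, hord⟩ := exists_ord (M := M) (A := A)
  refine ⟨fun a b => E (o a) (o b), by fun_prop, InvImage.wf o (ZM.wf (M := M)), fun a b => ?_⟩
  rcases ord_tri (o a) (o b) (hord a) (hord b) with h | h | h
  · exact Or.inl h
  · exact Or.inr (Or.inl (hi h))
  · exact Or.inr (Or.inr h)

end

end MP186633L
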