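import Pool.Agent.Lib.MP_9708fd_lc.FStmt

/-!
# MP_186633_lc: the statement, inside a structure `(M, E)`

`M` is a type with a binary relation `E`; `E x y` is read as `x ∈ y`.  Everything below is first
order over `(M, E)`.  The reals are the functions from `ω` to `ω`.
-/

namespace MP186633L

universe u

section

variable {M : Type u} (E : M → M → Prop)

/-! ### Pairs, functions, the set of natural numbers -/

/-- `p` is the Kuratowski pair `(a, b)`. -/
def IsPair (p a b : M) : Prop :=
  ∀ z, E z p ↔ (∀ w, E w z ↔ w = a) ∨ (∀ w, E w z ↔ w = a ∨ w = b)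

/-- `(a, b) ∈ f`. For a function `f` this says `f(a) = b`. -/
def HasPair (f a b : M) : Prop := ∃ p, E p f ∧ IsPair E p a b

/-- `((a, n), b) ∈ f`. For the multiplication `m` of a group, `HasTrip E m a b c` says
`a · b = c`. -/
def HasTrip (f a n b : M) : Prop := ∃ p, IsPair E p a n ∧ HasPair E f p b

/-- `w` is an inductive set: it contains `∅`, and `y ∪ {y}` for every `y ∈ w`. -/
def IsInductive (w : M) : Prop :=
  (∃ y, E y w ∧ ∀ z, ¬ E z y) ∧ ∀ y, E y w → ∃ z, E z w ∧ ∀ u, E u z ↔ E u y ∨ u = y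

/-- `w` is the set `ω` of natural numbers: the least inductive set. -/
def IsOmega (w : M) : Prop :=
  IsInductive E w ∧ ∀ w', IsInductive E w' → ∀ y, E y w → E y w'

/-- `f` is a function from `x` to `y`. -/
def IsFunc (f x y : M) : Prop :=
  (∀ p, E p f → ∃ a b, E a x ∧ E b y ∧ IsPair E p a b) ∧
    (∀ a, E a x → ∃ b, HasPair E f a b) ∧
    ∀ a b b', HasPair E f a b → HasPair E f a b' → b = b'

/-- `m = n ∪ {n}`. -/
def IsSucc (m n : M) : Prop := ∀ z, E z m ↔ E z n ∨ z = n

/-! ### Cardinality at least `ℵ_ω` -/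

/-- `Z` has cardinality at least `ℵ_ω` (`w` is `ω`): there are subsets `Z_n = {z : (n, z) ∈ q}`
of `Z`, `n ∈ ω`, such that for every `n` the set `Z_{n+1}` is not the image of `Z_n × ω` under a
(partial) function `F`, that is, `|Z_{n+1}| > |Z_n| · ℵ₀`.  (Then `|Z_1| ≥ 1` and
`|Z_{n+2}| ≥ ℵ_{n+1}`.  Conversely one can take `Z_n ⊆ Z` of cardinality `ℵ_n`.) -/
def IsLarge (w Z : M) : Prop :=
  ∃ q, (∀ n z, HasPair E q n z → E z Z) ∧ ∀ n m, E n w → IsSucc E m n →
    ¬ ∃ F, (∀ a k b b', HasTrip E F a k b → HasTrip E F a k b' → b = b') ∧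
      ∀ b, HasPair E q m b → ∃ a k, E k w ∧ HasPair E q n a ∧ HasTrip E F a k b

/-! ### Groups -/

/-- `m` is a function from `G × G` to `G`. -/
def IsOp (G m : M) : Prop :=
  (∀ t, E t m → ∃ a b c p, E a G ∧ E b G ∧ E c G ∧ IsPair E p a b ∧ IsPair E t p c) ∧
    (∀ a b, E a G → E b G → ∃ c, HasTrip E m a b c) ∧
      ∀ a b c c', HasTrip E m a b c → HasTrip E m a b c' → c = c'

/-- `(G, m)` is a group: `m : G × G → G` is associative, and there is a two-sided unit `e` such
that every element has a two-sided inverse. -/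
def IsGroup (G m : M) : Prop :=
  IsOp E G m ∧
    (∀ a b c ab bc x, HasTrip E m a b ab → HasTrip E m b c bc → HasTrip E m ab c x →
      HasTrip E m a bc x) ∧
    ∃ e, E e G ∧ ∀ a, E a G → HasTrip E m e a a ∧ HasTrip E m a e a ∧
      ∃ b, E b G ∧ HasTrip E m a b e ∧ HasTrip E m b a e

/-- `H` is a subgroup of the group `(G, m)`: a nonempty subset of `G` such that `a ∈ H`, `b ∈ H`
and `c · b = a` imply `c ∈ H`. -/
def IsSubgroup (G m H : M) : Prop :=
  (∀ a, E a H → E a G) ∧ (∃ a, E a H) ∧ ∀ a b c, E a H → E b H → HasTrip E m c b a → E c H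

/-- `φ` is a homomorphism from the subgroup `H` of a group with multiplication `m` to the group
`(K, k)`. -/
def IsHom (m H K k φ : M) : Prop :=
  IsFunc E φ H K ∧ ∀ a b c a' b' c', E a H → E b H → HasTrip E m a b c →
    HasPair E φ a a' → HasPair E φ b b' → HasPair E φ c c' → HasTrip E k a' b' c'

/-- The subgroup `H` of the group `(G, m)` is a free group: it has a free basis `B`, i.e. `B ⊆ H`
generates `H` (every subgroup which contains `B` contains `H`), and every function from `B` to a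
group `(K, k)` extends to a homomorphism from `H` to `(K, k)`. -/
def IsFree (G m H : M) : Prop :=
  ∃ B, (∀ b, E b B → E b H) ∧
    (∀ S, IsSubgroup E G m S → (∀ b, E b B → E b S) → ∀ a, E a H → E a S) ∧
    ∀ K k f, IsGroup E K k → IsFunc E f B K →
      ∃ φ, IsHom E m H K k φ ∧ ∀ b x, HasPair E f b x → HasPair E φ b x

/-! ### Borel sets -/

/-- `t = ((x, y), z)` with `x, y, z ∈ X`. -/
def IsTriple (X t x y z : M) : Prop :=
  E x X ∧ E y X ∧ E z X ∧ ∃ p, IsPair E p x y ∧ IsPair E t p z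

/-- `𝒮` is a `σ`-algebra of subsets of `X³` which contains the sets
`{(x, y, z) : x(n) = k}`, `{(x, y, z) : y(n) = k}` and `{(x, y, z) : z(n) = k}`, `n, k ∈ w`. -/
structure IsSigma (w X 𝒮 : M) : Prop where
  sub : ∀ S, E S 𝒮 → ∀ t, E t S → ∃ x y z, IsTriple E X t x y z
  basic1 : ∀ S n k, E n w → E k w →
    (∀ t, E t S ↔ ∃ x y z, IsTriple E X t x y z ∧ HasPair E x n k) → E S 𝒮
  basic2 : ∀ S n k, E n w → E k w →
    (∀ t, E t S ↔ ∃ x y z, IsTriple E X t x y z ∧ HasPair E y n k) → E S 𝒮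
  basic3 : ∀ S n k, E n w → E k w →
    (∀ t, E t S ↔ ∃ x y z, IsTriple E X t x y z ∧ HasPair E z n k) → E S 𝒮
  compl : ∀ S T, E S 𝒮 → (∀ t, E t T ↔ (∃ x y z, IsTriple E X t x y z) ∧ ¬ E t S) → E T 𝒮
  union : ∀ g U, IsFunc E g w 𝒮 → (∀ t, E t U ↔ ∃ n S, HasPair E g n S ∧ E t S) → E U 𝒮

/-- `A` is a Borel subset of `X³`, where `X` is the set of all functions from `w = ω` to `w`: it
belongs to every `σ`-algebra of subsets of `X³` which contains the basic open sets. -/
def IsBorel (w X A : M) : Prop := ∀ 𝒮, IsSigma E w X 𝒮 → E A 𝒮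

/-! ### The statement -/

/-- There is a Borel group on the reals which is `ℵ_ω`-free but not free: `w` is `ω`, `X` is the
set of all functions from `ω` to `ω`, `(X, m)` is a group whose multiplication has a Borel graph,
every subgroup of cardinality less than `ℵ_ω` is free, and the group itself is not free. -/
def BadGroupIn : Prop :=
  ∃ w X m, IsOmega E w ∧ (∀ x, E x X ↔ IsFunc E x w w) ∧ IsGroup E X m ∧ IsBorel E w X m ∧
    (∀ H, IsSubgroup E X m H → ¬ IsLarge E w H → IsFree E X m H) ∧ ¬ IsFree E X m X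

end

end MP186633L
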