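import Pool.Agent.Lib.MP_186633_lc.QM
import Pool.Agent.Lib.MP_186633_lc.QT
import Pool.Agent.Lib.MP_186633_lc.Statement

/-!
# MP_186633_lc, plan A: the sort of the reals (functions from `ω` to `ω`)
-/

set_option autoImplicit false

namespace MP186633L

open MP9708F ZM

universe u v₁ v₂ v₃ v₄

section

variable (M : Type u) [ZM M]

/-- the reals of `M`: the functions from `ℕ` to `ℕ` which are in `M` -/
abbrev Re : Type := MFun M ℕ ℕ

variable {M}

theorem Re.ext {x y : Re M} (h : ∀ n, x n = y n) : x = y := MFun.ext h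

/-- a function into the reals is definable if it is definable as a function of two variables -/
theorem DF.reMk {C : Type v₁} [Srt M C] {f : C → Re M}
    (h : DF M fun p : C × ℕ => (f p.1) p.2) : DF M f := DF.lam h

theorem cod_re (x : Re M) : cod M x = cod M x.graph := rfl

theorem mem_cod_re {x : Re M} {z : M} : E z (cod M x) ↔ ∃ n, z = pr (nM M n) (nM M (x n)) := by
  rw [cod_re, mem_cod_MSet]
  constructor
  · rintro ⟨⟨n, k⟩, h, rfl⟩
    have h1 : x n = k := h
    subst h1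
    exact ⟨n, rfl⟩
  · rintro ⟨n, rfl⟩
    exact ⟨(n, x n), rfl, rfl⟩

theorem hasPair_re {x : Re M} {a b : M} :
    HasPair E (cod M x) a b ↔ ∃ n, a = nM M n ∧ b = nM M (x n) := by
  rw [hasPair_iff', mem_cod_re]
  simp only [pr_inj_iff]

theorem hasPair_re_nat {x : Re M} {n k : ℕ} :
    HasPair E (cod M x) (nM M n) (nM M k) ↔ x n = k := by
  rw [hasPair_re]
  constructor
  · rintro ⟨m, h1, h2⟩
    rw [nM_inj h1, nM_inj h2]
  · rintro rfl
    exact ⟨n, rfl, rfl⟩

/-- the functions from `ω` to `ω` in the sense of `M` are the codes of the reals -/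
theorem isFunc_iff_re {x : M} : IsFunc E x (wM M) (wM M) ↔ ∃ r : Re M, x = cod M r := by
  constructor
  · rintro ⟨h1, h2, h3⟩
    have h4 : ∀ n : ℕ, ∃ k : ℕ, E (pr (nM M n) (nM M k)) x := by
      intro n
      obtain ⟨b, hb⟩ := h2 _ (mem_wM.2 ⟨n, rfl⟩)
      obtain ⟨p, hp, hp'⟩ := hb
      obtain ⟨a', b', -, hb', hq⟩ := h1 p hp
      rw [isPair_iff'] at hp' hq
      obtain ⟨k, rfl⟩ := mem_wM.1 hb'
      have h5 := pr_inj (hp'.symm.trans hq)
      refine ⟨k, ?_⟩
      rw [← h5.2, ← hp']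
      exact hp
    choose f hf using h4
    have hu : ∀ n k, E (pr (nM M n) (nM M k)) x → f n = k := fun n k h =>
      nM_inj (h3 (nM M n) _ _ (hasPair_iff'.2 (hf n)) (hasPair_iff'.2 h))
    have hx : DF M fun _ : ℕ × ℕ => x := DF.const x
    have hd : DF M f := DF.of_graph (P := fun n k => E (pr (cod M n) (cod M k)) x)
      (by fun_prop) fun n k => ⟨fun h => h ▸ hf n, hu n k⟩
    refine ⟨⟨f, hd⟩, ext fun z => ?_⟩
    rw [mem_cod_re]
    constructor
    · intro hz
      obtain ⟨a, b, ha, hb, hp⟩ := h1 z hz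
      rw [isPair_iff'] at hp
      obtain ⟨n, rfl⟩ := mem_wM.1 ha
      obtain ⟨k, rfl⟩ := mem_wM.1 hb
      rw [hp] at hz
      refine ⟨n, ?_⟩
      rw [hp]
      exact congrArg _ (congrArg _ (hu n k hz).symm)
    · rintro ⟨n, rfl⟩
      exact hf n
  · rintro ⟨r, rfl⟩
    refine ⟨fun p hp => ?_, fun a ha => ?_, fun a b b' h h' => ?_⟩
    · obtain ⟨n, rfl⟩ := mem_cod_re.1 hp
      exact ⟨_, _, mem_wM.2 ⟨n, rfl⟩, mem_wM.2 ⟨r n, rfl⟩, isPair_pr _ _⟩
    · obtain ⟨n, rfl⟩ := mem_wM.1 ha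
      exact ⟨nM M (r n), hasPair_re.2 ⟨n, rfl, rfl⟩⟩
    · obtain ⟨n, rfl, rfl⟩ := hasPair_re.1 h
      obtain ⟨m, h1, rfl⟩ := hasPair_re.1 h'
      rw [nM_inj h1]

end

end MP186633L

/-!
# MP_186633_lc, plan A: Borel sets inside the model

`SigAlg b 𝒮` says that `𝒮` is a `σ`-algebra of `M` on the small sort `A` which contains the sets
`b i`; `Bor b P` says that `P` is a definable predicate which belongs to all of them.
-/

set_option autoImplicit false

namespace MP186633L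

open MP9708F ZM

universe u v₁ v₂ v₃ v₄ v₅

section

variable {M : Type u} [ZM M]
variable {A : Type v₁} [Srt M A] [Sml M A] {B : Type v₂} [Srt M B] [Sml M B]
variable {ι : Type v₄} {κ : Type v₅}

/-- comprehension -/
noncomputable def mkS (P : A → Prop) (h : DF M P) : MSet M A := MSet.of P h

@[simp] theorem mem_mkS {P : A → Prop} {h : DF M P} {a : A} : a ∈ mkS P h ↔ P a := Iff.rfl

/-- `𝒮` is a `σ`-algebra of `M` containing the sets `b i` -/
structure SigAlg (b : ι → A → Prop) (𝒮 : MSet M (MSet M A)) : Prop where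
  basic : ∀ i S, (∀ a, a ∈ S ↔ b i a) → S ∈ 𝒮
  compl : ∀ S T : MSet M A, S ∈ 𝒮 → (∀ a, a ∈ T ↔ a ∉ S) → T ∈ 𝒮
  union : ∀ g : ℕ → MSet M A, DF M g → (∀ n, g n ∈ 𝒮) →
    ∀ U : MSet M A, (∀ a, a ∈ U ↔ ∃ n, a ∈ g n) → U ∈ 𝒮

variable (M) in
/-- `P` is definable and belongs to every `σ`-algebra of `M` containing the sets `b i` -/
structure Bor (b : ι → A → Prop) (P : A → Prop) : Prop where
  df : DF M P
  mem : ∀ 𝒮 : MSet M (MSet M A), SigAlg b 𝒮 → ∀ S : MSet M A, (∀ a, a ∈ S ↔ P a) → S ∈ 𝒮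

variable {b : ι → A → Prop}

theorem Bor.congr {P Q : A → Prop} (h : Bor M b P) (he : ∀ a, P a ↔ Q a) : Bor M b Q := by
  have : P = Q := funext fun a => propext (he a)
  rwa [← this]

theorem Bor.basic {i : ι} (h : DF M (b i)) : Bor M b (b i) :=
  ⟨h, fun _ hS S hm => hS.basic i S hm⟩

theorem Bor.not {P : A → Prop} (h : Bor M b P) : Bor M b fun a => ¬ P a := by
  refine ⟨DF.not h.df, fun 𝒮 hS S hm => ?_⟩
  exact hS.compl (mkS P h.df) S (h.mem 𝒮 hS _ fun _ => mem_mkS) fun a => by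
    rw [hm, mem_mkS]

theorem Bor.exN {P : ℕ → A → Prop} (hd : DF M fun p : ℕ × A => P p.1 p.2)
    (h : ∀ n, Bor M b (P n)) : Bor M b fun a => ∃ n, P n a := by
  have hd' : DF M fun p : A × ℕ => P p.2 p.1 := hd.comp (DF.snd0.prodMk DF.fst0)
  refine ⟨DF.ex hd', fun 𝒮 hS S hm => ?_⟩
  refine hS.union (fun n => mkS (P n) (h n).df) (DF.set ?_)
    (fun n => (h n).mem 𝒮 hS _ fun _ => mem_mkS) S fun a => ?_
  · exact hd
  · rw [hm]
    rfl

theorem Bor.allN {P : ℕ → A → Prop} (hd : DF M fun p : ℕ × A => P p.1 p.2)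
    (h : ∀ n, Bor M b (P n)) : Bor M b fun a => ∀ n, P n a := by
  have h1 : Bor M b fun a => ∃ n, ¬ P n a :=
    Bor.exN (P := fun n a => ¬ P n a) (DF.not hd) fun n => (h n).not
  exact h1.not.congr fun a => by push Not; rfl

theorem Bor.or {P Q : A → Prop} (h : Bor M b P) (h' : Bor M b Q) :
    Bor M b fun a => P a ∨ Q a := by
  have hP := h.df
  have hQ := h'.df
  refine (Bor.exN (P := fun n a => (n = 0 ∧ P a) ∨ (¬ n = 0 ∧ Q a)) ?_ fun n => ?_).congr
    fun a => ?_
  · fun_prop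
  · rcases n with _ | n
    · exact h.congr fun a => by simp
    · exact h'.congr fun a => by simp
  · constructor
    · rintro ⟨n, h | h⟩
      · exact Or.inl h.2
      · exact Or.inr h.2
    · rintro (h | h)
      · exact ⟨0, Or.inl ⟨rfl, h⟩⟩
      · exact ⟨1, Or.inr ⟨by omega, h⟩⟩

theorem Bor.and {P Q : A → Prop} (h : Bor M b P) (h' : Bor M b Q) :
    Bor M b fun a => P a ∧ Q a :=
  (h.not.or h'.not).not.congr fun a => by tauto

theorem Bor.imp {P Q : A → Prop} (h : Bor M b P) (h' : Bor M b Q) :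
    Bor M b fun a => P a → Q a :=
  (h.not.or h').congr fun a => by tauto

theorem Bor.iff {P Q : A → Prop} (h : Bor M b P) (h' : Bor M b Q) :
    Bor M b fun a => (P a ↔ Q a) :=
  ((h.imp h').and (h'.imp h)).congr fun a => by tauto

theorem Bor.const {i : ι} (h : DF M (b i)) (p : Prop) : Bor M b fun _ => p := by
  by_cases hp : p
  · exact ((Bor.basic h).or (Bor.basic h).not).congr fun a => by tauto
  · exact ((Bor.basic h).and (Bor.basic h).not).congr fun a => by tauto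

/-- the pull-back of a Borel set under a Borel map -/
theorem Bor.pull {c : κ → B → Prop} {F : A → B} (hF : DF M F)
    (h : ∀ k, Bor M b fun a => c k (F a)) {P : B → Prop} (hP : Bor M c P) :
    Bor M b fun a => P (F a) := by
  refine ⟨hP.df.comp hF, fun 𝒮 hS S hm => ?_⟩
  have hd : DF M fun T : MSet M B => ∃ S : MSet M A, S ∈ 𝒮 ∧ ∀ a, a ∈ S ↔ F a ∈ T := by
    have h𝒮 : DF M fun _ : MSet M B × MSet M A => 𝒮 := DF.const 𝒮
    fun_prop
  have key : SigAlg c (mkS _ hd) := by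
    refine ⟨?_, ?_, ?_⟩
    · intro k T hT
      refine ⟨mkS _ (h k).df, (h k).mem 𝒮 hS _ fun _ => mem_mkS, fun a => ?_⟩
      rw [mem_mkS, hT]
    · rintro T T' ⟨S1, h1, h2⟩ h3
      have hd1 : DF M fun a => ¬ a ∈ S1 := by
        have h4 : DF M fun _ : A => S1 := DF.const S1
        fun_prop
      refine ⟨mkS _ hd1, hS.compl S1 _ h1 fun a => mem_mkS, fun a => ?_⟩
      rw [mem_mkS, h3, h2]
    · intro g hg h1 U hU
      have hd1 : DF M fun p : ℕ × A => F p.2 ∈ g p.1 := by fun_prop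
      have hd2 : ∀ n, DF M fun a => F a ∈ g n := fun n => by
        have h4 : DF M fun _ : A => g n := DF.const (g n)
        fun_prop
      have hd3 : DF M fun a => F a ∈ U := by
        have h4 : DF M fun _ : A => U := DF.const U
        fun_prop
      refine ⟨mkS _ hd3, hS.union (fun n => mkS _ (hd2 n)) (DF.set hd1) (fun n => ?_) _
        fun a => ?_, fun a => mem_mkS⟩
      · obtain ⟨S1, h2, h3⟩ := h1 n
        have : mkS _ (hd2 n) = S1 := MSet.ext fun a => by rw [mem_mkS, h3]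
        rwa [this]
      · rw [mem_mkS, hU]
        rfl
  obtain ⟨S1, h1, h2⟩ := hP.mem _ key (mkS P hP.df) fun _ => mem_mkS
  have : S = S1 := MSet.ext fun a => by rw [hm, h2, mem_mkS]
  rwa [this]

end

end MP186633L

/-!
# MP_186633_lc, plan A: Borel maps between reals, Schroeder-Bernstein, the bridge to `IsBorel`
-/

set_option autoImplicit false

namespace MP186633L

open MP9708F ZM

universe u v₁ v₂ v₃ v₄ v₅

/-! ### The Schroeder-Bernstein map for a map with a left inverse -/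

section

variable {X : Type v₁} (g v : X → X) (D : X → Prop)

/-- the points which come from outside `D` -/
def sbA (x : X) : Prop := ∃ n : ℕ, g^[n] (v^[n] x) = x ∧ ¬ D (v^[n] x)

open Classical in
/-- the Schroeder-Bernstein bijection -/
noncomputable def sb (x : X) : X := if sbA g v D x then g x else x

variable {g v D}

theorem sbA_map (hv : ∀ x, v (g x) = x) {x : X} (h : sbA g v D x) : sbA g v D (g x) := by
  obtain ⟨n, h1, h2⟩ := h
  refine ⟨n + 1, ?_, ?_⟩
  · rw [Function.iterate_succ_apply' g, Function.iterate_succ_apply v, hv, h1]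
  · rwa [Function.iterate_succ_apply v, hv]

theorem sbA_of_map (hv : ∀ x, v (g x) = x) {x : X} (hD : D (g x)) (h : sbA g v D (g x)) :
    sbA g v D x := by
  obtain ⟨n, h1, h2⟩ := h
  rcases n with _ | n
  · exact absurd hD h2
  · rw [Function.iterate_succ_apply v, hv] at h2
    rw [Function.iterate_succ_apply' g, Function.iterate_succ_apply v, hv] at h1
    refine ⟨n, ?_, h2⟩
    have h3 := congrArg v h1
    rwa [hv, hv] at h3

theorem sb_injective (hv : ∀ x, v (g x) = x) : Function.Injective (sb g v D) := by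
  intro x y h
  unfold sb at h
  by_cases hx : sbA g v D x <;> by_cases hy : sbA g v D y
  · rw [if_pos hx, if_pos hy] at h
    rw [← hv x, ← hv y, h]
  · rw [if_pos hx, if_neg hy] at h
    exact absurd (h ▸ sbA_map hv hx) hy
  · rw [if_neg hx, if_pos hy] at h
    exact absurd (h.symm ▸ sbA_map hv hy) hx
  · rwa [if_neg hx, if_neg hy] at h

theorem sb_mem (hD : ∀ x, D (g x)) (x : X) : D (sb g v D x) := by
  unfold sb
  by_cases hx : sbA g v D x
  · rw [if_pos hx]
    exact hD x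
  · rw [if_neg hx]
    by_contra h
    exact hx ⟨0, rfl, h⟩

theorem sb_surj (hv : ∀ x, v (g x) = x) {y : X} (h : D y) : ∃ x, sb g v D x = y := by
  by_cases hy : sbA g v D y
  · obtain ⟨n, h1, h2⟩ := hy
    rcases n with _ | n
    · exact absurd h h2
    · rw [Function.iterate_succ_apply' g, Function.iterate_succ_apply v] at h1
      rw [Function.iterate_succ_apply v] at h2
      have h3 : v y = g^[n] (v^[n] (v y)) := (congrArg v h1).symm.trans (hv _)
      have h4 : sbA g v D (v y) := ⟨n, h3.symm, h2⟩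
      refine ⟨v y, ?_⟩
      unfold sb
      rw [if_pos h4]
      exact (congrArg g h3).trans h1
  · exact ⟨y, by unfold sb; rw [if_neg hy]⟩

end

/-! ### Borel functions -/

section

variable {M : Type u} [ZM M]
variable {A : Type v₁} [Srt M A] [Sml M A] {B : Type v₂} [Srt M B] [Sml M B]
variable {C : Type v₃} [Srt M C] {ι : Type v₄}

variable (M) in
/-- a Borel function with values in the natural numbers -/
structure BorN (b : ι → A → Prop) (f : A → ℕ) : Prop where
  df : DF M f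
  bor : ∀ k, Bor M b fun a => f a = k

/-- a Borel map with values in the reals -/
structure BorR (b : ι → A → Prop) (F : A → Re M) : Prop where
  df : DF M F
  bor : ∀ n k, Bor M b fun a => F a n = k

variable {b : ι → A → Prop}

theorem BorN.const {i : ι} (h : DF M (b i)) (n : ℕ) : BorN M b fun _ => n :=
  ⟨DF.const n, fun k => Bor.const h (n = k)⟩

theorem BorN.congr {f g : A → ℕ} (h : BorN M b f) (he : ∀ a, f a = g a) : BorN M b g := by
  have : f = g := funext he
  rwa [← this]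

theorem Bor.rel1 {f : A → ℕ} (hf : BorN M b f) {r : ℕ → Prop} (hr : DF M r) :
    Bor M b fun a => r (f a) := by
  have h1 := hf.df
  refine (Bor.exN (P := fun n a => f a = n ∧ r n) (by fun_prop) fun n => ?_).congr fun a => ?_
  · by_cases hn : r n
    · exact (hf.bor n).congr fun a => by simp [hn]
    · exact ((hf.bor n).and (hf.bor n).not).congr fun a => by simp [hn]
  · simp

theorem Bor.rel2 {f g : A → ℕ} (hf : BorN M b f) (hg : BorN M b g) {r : ℕ → ℕ → Prop}
    (hr : DF M fun p : ℕ × ℕ => r p.1 p.2) : Bor M b fun a => r (f a) (g a) := by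
  have h1 := hf.df
  have h2 := hg.df
  refine (Bor.exN (P := fun n a => f a = n ∧ r n (g a)) (by fun_prop) fun n => ?_).congr
    fun a => ?_
  · exact (hf.bor n).and (Bor.rel1 hg (r := fun k => r n k) (by fun_prop))
  · simp

theorem Bor.rel3 {f g h : A → ℕ} (hf : BorN M b f) (hg : BorN M b g) (hh : BorN M b h)
    {r : ℕ → ℕ → ℕ → Prop} (hr : DF M fun p : ℕ × ℕ × ℕ => r p.1 p.2.1 p.2.2) :
    Bor M b fun a => r (f a) (g a) (h a) := by
  have h1 := hf.df
  have h2 := hg.df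
  have h3 := hh.df
  refine (Bor.exN (P := fun n a => f a = n ∧ r n (g a) (h a)) (by fun_prop) fun n => ?_).congr
    fun a => ?_
  · exact (hf.bor n).and (Bor.rel2 hg hh (r := fun k l => r n k l) (by fun_prop))
  · simp

theorem Bor.rel4 {f g h l : A → ℕ} (hf : BorN M b f) (hg : BorN M b g) (hh : BorN M b h)
    (hl : BorN M b l) {r : ℕ → ℕ → ℕ → ℕ → Prop}
    (hr : DF M fun p : ℕ × ℕ × ℕ × ℕ => r p.1 p.2.1 p.2.2.1 p.2.2.2) :
    Bor M b fun a => r (f a) (g a) (h a) (l a) := by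
  have h1 := hf.df
  have h2 := hg.df
  have h3 := hh.df
  have h4 := hl.df
  refine (Bor.exN (P := fun n a => f a = n ∧ r n (g a) (h a) (l a)) (by fun_prop)
    fun n => ?_).congr fun a => ?_
  · exact (hf.bor n).and (Bor.rel3 hg hh hl (r := fun k l m => r n k l m) (by fun_prop))
  · simp

theorem BorN.comp1 {f : A → ℕ} (hf : BorN M b f) {r : ℕ → ℕ} (hr : DF M r) :
    BorN M b fun a => r (f a) :=
  ⟨hr.comp hf.df, fun k => Bor.rel1 hf (r := fun n => r n = k) (by fun_prop)⟩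

theorem BorN.comp2 {f g : A → ℕ} (hf : BorN M b f) (hg : BorN M b g) {r : ℕ → ℕ → ℕ}
    (hr : DF M fun p : ℕ × ℕ => r p.1 p.2) : BorN M b fun a => r (f a) (g a) := by
  have h1 := hf.df
  have h2 := hg.df
  exact ⟨by fun_prop, fun k => Bor.rel2 hf hg (r := fun n m => r n m = k) (by fun_prop)⟩

theorem BorR.app {F : A → Re M} (hF : BorR b F) {f : A → ℕ} (hf : BorN M b f) :
    BorN M b fun a => F a (f a) := by
  have h1 := hF.df
  have h2 := hf.df
  refine ⟨by fun_prop, fun k => ?_⟩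
  refine (Bor.exN (P := fun n a => f a = n ∧ F a n = k) (by fun_prop) fun n => ?_).congr
    fun a => ?_
  · exact (hf.bor n).and (hF.bor n k)
  · simp

theorem BorR.app' {F : A → Re M} (hF : BorR b F) (n : ℕ) : BorN M b fun a => F a n := by
  have h1 := hF.df
  exact ⟨by fun_prop, fun k => hF.bor n k⟩

theorem BorR.of_coord {F : A → Re M} (hF : DF M fun p : A × ℕ => F p.1 p.2)
    (h : ∀ n, BorN M b fun a => F a n) : BorR b F :=
  ⟨DF.reMk hF, fun n k => (h n).bor k⟩

theorem BorR.congr {F G : A → Re M} (h : BorR b F) (he : ∀ a, F a = G a) : BorR b G := by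
  have : F = G := funext he
  rwa [← this]

theorem Bor.eqRe {F G : A → Re M} (hF : BorR b F) (hG : BorR b G) :
    Bor M b fun a => F a = G a := by
  have h1 := hF.df
  have h2 := hG.df
  refine (Bor.allN (P := fun n a => F a n = G a n) (by fun_prop) fun n => ?_).congr fun a => ?_
  · exact Bor.rel2 (hF.app' n) (hG.app' n) (r := fun k l => k = l) (by fun_prop)
  · exact ⟨fun h => Re.ext h, fun h n => by rw [h]⟩

/-- the basic sets of the space of reals -/
def bRe (i : ℕ × ℕ) (x : Re M) : Prop := x i.1 = i.2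

theorem bRe_df (i : ℕ × ℕ) : DF M (bRe (M := M) i) := by
  unfold bRe
  fun_prop

theorem BorR.id : BorR bRe fun x : Re M => x :=
  ⟨DF.id, fun n k => Bor.basic (bRe_df (n, k))⟩

theorem Bor.pullRe {F : A → Re M} (hF : BorR b F) {P : Re M → Prop} (hP : Bor M bRe P) :
    Bor M b fun a => P (F a) :=
  Bor.pull hF.df (fun k => hF.bor k.1 k.2) hP

theorem BorR.comp {G : Re M → Re M} (hG : BorR bRe G) {F : A → Re M} (hF : BorR b F) :
    BorR b fun a => G (F a) :=
  ⟨hG.df.comp hF.df, fun n k => Bor.pullRe hF (hG.bor n k)⟩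

theorem BorR.iterate {G : Re M → Re M} (hG : BorR bRe G) (n : ℕ) :
    BorR bRe fun x : Re M => G^[n] x := by
  induction n with
  | zero => exact BorR.id
  | succ n ih =>
    have h := BorR.comp hG ih
    refine h.congr fun x => ?_
    rw [Function.iterate_succ_apply']

open Classical in
theorem BorR.ite {P : A → Prop} (hP : Bor M b P) {F G : A → Re M} (hF : BorR b F)
    (hG : BorR b G) : BorR b fun a => if P a then F a else G a := by
  have h1 := hF.df
  have h2 := hG.df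
  have h3 := hP.df
  refine ⟨?_, fun n k => ?_⟩
  · refine DF.of_graph (P := fun a y => (P a ∧ F a = y) ∨ (¬ P a ∧ G a = y)) (by fun_prop)
      fun a y => ?_
    by_cases h : P a <;> simp [h]
  · refine ((hP.and (hF.bor n k)).or (hP.not.and (hG.bor n k))).congr fun a => ?_
    by_cases h : P a <;> simp [h]

/-- the Schroeder-Bernstein map is Borel -/
theorem BorR.sb {g v : Re M → Re M} {D : Re M → Prop} (hg : BorR bRe g) (hv : BorR bRe v)
    (hD : Bor M bRe D) : BorR bRe fun x : Re M => sb g v D x := by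
  have h1 := hg.df
  have h2 := hv.df
  have h3 := hD.df
  have hA : Bor M bRe fun x : Re M => sbA g v D x := by
    refine Bor.exN (P := fun n x => g^[n] (v^[n] x) = x ∧ ¬ D (v^[n] x)) ?_ fun n => ?_
    · have e1 : DF M fun p : ℕ × Re M => v^[p.1] p.2 := DF.natrec0 h2
      have e2 : DF M fun p : ℕ × Re M => g^[p.1] (v^[p.1] p.2) :=
        (DF.natrec0 h1).comp (f := fun p : ℕ × Re M => (p.1, v^[p.1] p.2)) (by fun_prop)
      fun_prop
    · exact (Bor.eqRe ((hg.iterate n).comp (hv.iterate n)) BorR.id).and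
        (Bor.pullRe (hv.iterate n) hD).not
  exact BorR.ite hA hg BorR.id

/-! ### Triples of reals -/

/-- the basic sets of the space of triples of reals -/
def b3 (i : Fin 3 × ℕ × ℕ) (t : (Re M × Re M) × Re M) : Prop :=
  (i.1 = 0 ∧ t.1.1 i.2.1 = i.2.2) ∨ (i.1 = 1 ∧ t.1.2 i.2.1 = i.2.2) ∨
    (i.1 = 2 ∧ t.2 i.2.1 = i.2.2)

theorem BorR.p1 : BorR b3 fun t : (Re M × Re M) × Re M => t.1.1 := by
  refine ⟨by fun_prop, fun n k => ?_⟩
  have h : DF M (b3 (M := M) (0, n, k)) := by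
    have : b3 (M := M) (0, n, k) = fun t => t.1.1 n = k := by
      funext t
      simp [b3]
    rw [this]
    fun_prop
  exact (Bor.basic h).congr fun t => by simp [b3]

theorem BorR.p2 : BorR b3 fun t : (Re M × Re M) × Re M => t.1.2 := by
  refine ⟨by fun_prop, fun n k => ?_⟩
  have h : DF M (b3 (M := M) (1, n, k)) := by
    have : b3 (M := M) (1, n, k) = fun t => t.1.2 n = k := by
      funext t
      simp [b3]
    rw [this]
    fun_prop
  exact (Bor.basic h).congr fun t => by simp [b3]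

theorem BorR.p3 : BorR b3 fun t : (Re M × Re M) × Re M => t.2 := by
  refine ⟨by fun_prop, fun n k => ?_⟩
  have h : DF M (b3 (M := M) (2, n, k)) := by
    have : b3 (M := M) (2, n, k) = fun t => t.2 n = k := by
      funext t
      simp [b3]
    rw [this]
    fun_prop
  exact (Bor.basic h).congr fun t => by simp [b3]

/-- the graph of a coordinatewise multiplication, transported by a Borel map, is Borel -/
theorem bor_graph {β : Re M → Re M} (hβ : BorR bRe β) {op : ℕ → ℕ → ℕ}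
    (hop : DF M fun p : ℕ × ℕ => op p.1 p.2) :
    Bor M b3 fun t : (Re M × Re M) × Re M => ∀ m, op (β t.1.1 m) (β t.1.2 m) = β t.2 m := by
  have h := hβ.df
  refine Bor.allN (P := fun m (t : (Re M × Re M) × Re M) =>
    op (β t.1.1 m) (β t.1.2 m) = β t.2 m) (by fun_prop)
    fun m => ?_
  exact Bor.rel3 ((hβ.comp BorR.p1).app' m) ((hβ.comp BorR.p2).app' m)
    ((hβ.comp BorR.p3).app' m) (r := fun k l n => op k l = n) (by fun_prop)

/-! ### The bridge to the first order statement -/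

variable {X : M}

theorem exists_triple_iff (hX : ∀ x, E x X ↔ IsFunc E x (wM M) (wM M)) {t : M} :
    (∃ x y z, IsTriple E X t x y z) ↔ ∃ τ : (Re M × Re M) × Re M, t = cod M τ := by
  constructor
  · rintro ⟨x, y, z, hx, hy, hz, p, hp, ht⟩
    obtain ⟨x, rfl⟩ := isFunc_iff_re.1 ((hX _).1 hx)
    obtain ⟨y, rfl⟩ := isFunc_iff_re.1 ((hX _).1 hy)
    obtain ⟨z, rfl⟩ := isFunc_iff_re.1 ((hX _).1 hz)
    rw [isPair_iff'] at hp ht
    subst hp ht
    exact ⟨((x, y), z), rfl⟩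
  · rintro ⟨⟨⟨x, y⟩, z⟩, rfl⟩
    exact ⟨cod M x, cod M y, cod M z, (hX _).2 (isFunc_iff_re.2 ⟨x, rfl⟩),
      (hX _).2 (isFunc_iff_re.2 ⟨y, rfl⟩), (hX _).2 (isFunc_iff_re.2 ⟨z, rfl⟩),
      pr (cod M x) (cod M y), isPair_pr _ _, isPair_pr _ _⟩

theorem isTriple_cod_iff (hX : ∀ x, E x X ↔ IsFunc E x (wM M) (wM M)) {t x y z : M} :
    IsTriple E X t x y z ↔ ∃ τ : (Re M × Re M) × Re M, t = cod M τ ∧ x = cod M τ.1.1 ∧
      y = cod M τ.1.2 ∧ z = cod M τ.2 := by
  constructor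
  · rintro ⟨hx, hy, hz, p, hp, ht⟩
    obtain ⟨x, rfl⟩ := isFunc_iff_re.1 ((hX _).1 hx)
    obtain ⟨y, rfl⟩ := isFunc_iff_re.1 ((hX _).1 hy)
    obtain ⟨z, rfl⟩ := isFunc_iff_re.1 ((hX _).1 hz)
    rw [isPair_iff'] at hp ht
    subst hp ht
    exact ⟨((x, y), z), rfl, rfl, rfl, rfl⟩
  · rintro ⟨⟨⟨x, y⟩, z⟩, rfl, rfl, rfl, rfl⟩
    exact ⟨(hX _).2 (isFunc_iff_re.2 ⟨x, rfl⟩),
      (hX _).2 (isFunc_iff_re.2 ⟨y, rfl⟩), (hX _).2 (isFunc_iff_re.2 ⟨z, rfl⟩),
      pr (cod M x) (cod M y), isPair_pr _ _, isPair_pr _ _⟩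

/-- **The bridge**: a Borel predicate on triples of reals defines a Borel set in the sense of the
first order statement. -/
theorem Bor.isBorel (hX : ∀ x, E x X ↔ IsFunc E x (wM M) (wM M))
    {P : (Re M × Re M) × Re M → Prop} (hP : Bor M b3 P) {S : M}
    (hS : ∀ t, E t S ↔ ∃ τ, P τ ∧ t = cod M τ) : IsBorel E (wM M) X S := by
  intro 𝒮 h𝒮
  have hc : DF M fun _ : MSet M ((Re M × Re M) × Re M) => 𝒮 := DF.const 𝒮
  have key : SigAlg b3 (mkS (fun T : MSet M ((Re M × Re M) × Re M) => E (cod M T) 𝒮)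
      (by fun_prop)) := by
    refine ⟨?_, ?_, ?_⟩
    · rintro ⟨i, n, k⟩ T hT
      rw [mem_mkS]
      have hi : i = 0 ∨ i = 1 ∨ i = 2 := by
        fin_cases i <;> simp
      rcases hi with rfl | rfl | rfl
      · refine h𝒮.basic1 _ (nM M n) (nM M k) (mem_wM.2 ⟨n, rfl⟩) (mem_wM.2 ⟨k, rfl⟩)
          fun t => ?_
        rw [mem_cod_MSet]
        constructor
        · rintro ⟨τ, h1, rfl⟩
          rw [hT] at h1
          refine ⟨_, _, _, (isTriple_cod_iff hX).2 ⟨τ, rfl, rfl, rfl, rfl⟩,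
            hasPair_re_nat.2 ?_⟩
          simpa [b3] using h1
        · rintro ⟨x, y, z, h1, h2⟩
          obtain ⟨τ, rfl, rfl, rfl, rfl⟩ := (isTriple_cod_iff hX).1 h1
          refine ⟨τ, (hT τ).2 ?_, rfl⟩
          have := hasPair_re_nat.1 h2
          simpa [b3] using this
      · refine h𝒮.basic2 _ (nM M n) (nM M k) (mem_wM.2 ⟨n, rfl⟩) (mem_wM.2 ⟨k, rfl⟩)
          fun t => ?_
        rw [mem_cod_MSet]
        constructor
        · rintro ⟨τ, h1, rfl⟩
          rw [hT] at h1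
          refine ⟨_, _, _, (isTriple_cod_iff hX).2 ⟨τ, rfl, rfl, rfl, rfl⟩,
            hasPair_re_nat.2 ?_⟩
          simpa [b3] using h1
        · rintro ⟨x, y, z, h1, h2⟩
          obtain ⟨τ, rfl, rfl, rfl, rfl⟩ := (isTriple_cod_iff hX).1 h1
          refine ⟨τ, (hT τ).2 ?_, rfl⟩
          have := hasPair_re_nat.1 h2
          simpa [b3] using this
      · refine h𝒮.basic3 _ (nM M n) (nM M k) (mem_wM.2 ⟨n, rfl⟩) (mem_wM.2 ⟨k, rfl⟩)
          fun t => ?_
        rw [mem_cod_MSet]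
        constructor
        · rintro ⟨τ, h1, rfl⟩
          rw [hT] at h1
          refine ⟨_, _, _, (isTriple_cod_iff hX).2 ⟨τ, rfl, rfl, rfl, rfl⟩,
            hasPair_re_nat.2 ?_⟩
          simpa [b3] using h1
        · rintro ⟨x, y, z, h1, h2⟩
          obtain ⟨τ, rfl, rfl, rfl, rfl⟩ := (isTriple_cod_iff hX).1 h1
          refine ⟨τ, (hT τ).2 ?_, rfl⟩
          have := hasPair_re_nat.1 h2
          simpa [b3] using this
    · intro S T h1 h2
      rw [mem_mkS] at h1 ⊢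
      refine h𝒮.compl _ _ h1 fun t => ?_
      rw [mem_cod_MSet]
      constructor
      · rintro ⟨τ, h3, rfl⟩
        exact ⟨(exists_triple_iff hX).2 ⟨τ, rfl⟩, fun h4 => (h2 τ).1 h3 (cod_mem_cod.1 h4)⟩
      · rintro ⟨h3, h4⟩
        obtain ⟨τ, rfl⟩ := (exists_triple_iff hX).1 h3
        exact ⟨τ, (h2 τ).2 fun h5 => h4 (cod_mem_cod.2 h5), rfl⟩
    · intro g hg h1 U hU
      rw [mem_mkS]
      have h1' : ∀ n, E (cod M (g n)) 𝒮 := fun n => h1 n
      have hd : DF M fun n : ℕ => pr (cod M n) (cod M (g n)) := by fun_prop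
      obtain ⟨G, hG⟩ := exists_image (M := M) (A := ℕ) (B := M) hd
      have hGp : ∀ a b, HasPair E G a b ↔ ∃ n, a = nM M n ∧ b = cod M (g n) := by
        intro a b
        rw [hasPair_iff', hG]
        have e : ∀ x : M, cod M x = x := fun x => rfl
        simp only [e, pr_inj_iff]
        rfl
      refine h𝒮.union G _ ⟨fun p hp => ?_, fun a ha => ?_, fun a c c' h h' => ?_⟩ fun t => ?_
      · obtain ⟨n, rfl⟩ := (hG p).1 hp
        exact ⟨_, _, mem_wM.2 ⟨n, rfl⟩, h1' n, isPair_pr _ _⟩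
      · obtain ⟨n, rfl⟩ := mem_wM.1 ha
        exact ⟨_, (hGp _ _).2 ⟨n, rfl, rfl⟩⟩
      · obtain ⟨n, rfl, rfl⟩ := (hGp _ _).1 h
        obtain ⟨m, h2, rfl⟩ := (hGp _ _).1 h'
        rw [nM_inj h2]
      · rw [mem_cod_MSet]
        constructor
        · rintro ⟨τ, h2, rfl⟩
          obtain ⟨n, h3⟩ := (hU τ).1 h2
          exact ⟨_, _, (hGp _ _).2 ⟨n, rfl, rfl⟩, cod_mem_cod.2 h3⟩
        · rintro ⟨a, S, h2, h3⟩
          obtain ⟨n, rfl, rfl⟩ := (hGp _ _).1 h2
          obtain ⟨τ, h4, rfl⟩ := mem_cod_MSet.1 h3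
          exact ⟨τ, (hU τ).2 ⟨n, h4⟩, rfl⟩
  have h1 := mem_mkS.1 (hP.mem _ key (mkS P hP.df) fun _ => mem_mkS)
  have h2 : S = cod M (mkS P hP.df) := ext fun t => by
    rw [hS, mem_cod_MSet]
    rfl
  rwa [h2]

end

end MP186633L

/-!
# Plan A: the combinatorial properties in the sort language
-/

set_option autoImplicit false

namespace MP186633L

open ZM

universe u

section

variable (M : Type u) [ZM M]

/-- largeness of a set of elements of a sort -/
def LargeS {A : Type} [Srt M A] (Z : MSet M A) : Prop :=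
  ∃ q : MSet M (ℕ × A), (∀ n z, (n, z) ∈ q → z ∈ Z) ∧ ∀ n : ℕ, ¬ ∃ F : MSet M ((A × ℕ) × A),
    (∀ x b b', (x, b) ∈ F → (x, b') ∈ F → b = b') ∧
      ∀ b, (n + 1, b) ∈ q → ∃ a k, (n, a) ∈ q ∧ ((a, k), b) ∈ F

/-- the combinatorial property of small sets -/
def PF1S {V Ed : Type} [Srt M V] (src tgt : Ed → V) : Prop :=
  ∀ Z : MSet M V, ¬ LargeS M Z → ∃ lt : V → V → Prop, DF M (fun p : V × V => lt p.1 p.2) ∧
    WellFounded lt ∧ (∀ z z', z ∈ Z → z' ∈ Z → lt z z' ∨ z = z' ∨ lt z' z) ∧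
    ∀ z, z ∈ Z → ∃ u : MSet M (ℕ × V), (∀ n x y, (n, x) ∈ u → (n, y) ∈ u → x = y) ∧
      ∀ z', z' ∈ Z → lt z' z → ((∃ e, src e = z' ∧ tgt e = z) ∨ (∃ e, src e = z ∧ tgt e = z')) →
        ∃ n : ℕ, (n, z') ∈ u

/-- the closure property -/
def PF2S {V Ed : Type} [Srt M V] (src tgt : Ed → V) : Prop :=
  ∀ F : V × V × ℕ → V, DF M F → ∃ (Z : MSet M V) (b : V),
    (∀ x y (n : ℕ), x ∈ Z → y ∈ Z → F (x, y, n) ∈ Z) ∧ b ∉ Z ∧
    ¬ ∃ u : MSet M (ℕ × V), (∀ n x y, (n, x) ∈ u → (n, y) ∈ u → x = y) ∧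
      ∀ a, a ∈ Z → (∃ e, src e = a ∧ tgt e = b) → ∃ n : ℕ, (n, a) ∈ u

end

end MP186633L

/-!
# Plan A: the bridge between the first order properties and the sort language
-/

set_option autoImplicit false

namespace MP186633L

open MP9708F ZM

universe u v₁ v₂ v₃ v₄

section

variable {M : Type u} [ZM M]
variable {A : Type v₁} [Srt M A] {B : Type v₂} [Srt M B] {C : Type v₃} [Srt M C] {D : Type v₄}
  [Srt M D]

theorem hasPair_cod {S : MSet M (A × B)} {x y : M} : HasPair E (cod M S) x y ↔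
    ∃ a b, x = cod M a ∧ y = cod M b ∧ (a, b) ∈ S := by
  rw [hasPair_iff', mem_cod_MSet]
  constructor
  · rintro ⟨⟨a, b⟩, h, h'⟩
    rw [cod_prod, pr_inj_iff] at h'
    exact ⟨a, b, h'.1, h'.2, h⟩
  · rintro ⟨a, b, rfl, rfl, h⟩
    exact ⟨(a, b), h, rfl⟩

theorem hasTrip_cod {S : MSet M ((A × B) × C)} {x y z : M} : HasTrip E (cod M S) x y z ↔
    ∃ a b c, x = cod M a ∧ y = cod M b ∧ z = cod M c ∧ ((a, b), c) ∈ S := by
  rw [hasTrip_iff', mem_cod_MSet]
  constructor
  · rintro ⟨⟨⟨a, b⟩, c⟩, h, h'⟩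
    rw [cod_prod, cod_prod, pr_inj_iff, pr_inj_iff] at h'
    exact ⟨a, b, c, h'.1.1, h'.1.2, h'.2, h⟩
  · rintro ⟨a, b, c, rfl, rfl, rfl, h⟩
    exact ⟨((a, b), c), h, rfl⟩

theorem hasQuad_cod {S : MSet M (((A × B) × C) × D)} {x y z t : M} :
    HasQuad E (cod M S) x y z t ↔ ∃ a b c d, x = cod M a ∧ y = cod M b ∧ z = cod M c ∧
      t = cod M d ∧ (((a, b), c), d) ∈ S := by
  rw [hasQuad_iff', mem_cod_MSet]
  constructor
  · rintro ⟨⟨⟨⟨a, b⟩, c⟩, d⟩, h, h'⟩
    rw [cod_prod, cod_prod, cod_prod, pr_inj_iff, pr_inj_iff, pr_inj_iff] at h'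
    exact ⟨a, b, c, d, h'.1.1.1, h'.1.1.2, h'.1.2, h'.2, h⟩
  · rintro ⟨a, b, c, d, rfl, rfl, rfl, rfl, h⟩
    exact ⟨(((a, b), c), d), h, rfl⟩

/-- the elements of a set of `M` which are codes of elements of a sort -/
theorem exists_trace (C : Type v₃) [Srt M C] (q : M) :
    ∃ S : MSet M C, ∀ c, c ∈ S ↔ E (cod M c) q :=
  exists_mset (P := fun c : C => E (cod M c) q) (by fun_prop) q fun _ h => h

theorem hasPair_codes {q : M} {a : A} {b : B} :
    HasPair E q (cod M a) (cod M b) ↔ E (cod M (a, b)) q := hasPair_iff'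

theorem hasTrip_codes {q : M} {a : A} {b : B} {c : C} :
    HasTrip E q (cod M a) (cod M b) (cod M c) ↔ E (cod M ((a, b), c)) q := hasTrip_iff'

end

section

variable {M : Type u} [ZM M]

/-- **largeness** -/
theorem isLarge_iff {A : Type} [Srt M A] (Z : MSet M A) :
    IsLarge E (wM M) (cod M Z) ↔ LargeS M Z := by
  constructor
  · rintro ⟨q, h1, h2⟩
    obtain ⟨q', hq'⟩ := exists_trace (ℕ × A) q
    refine ⟨q', fun n z h => ?_, fun n hF => ?_⟩
    · exact cod_mem_cod.1 (h1 (cod M n) (cod M z) (hasPair_codes.2 ((hq' _).1 h)))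
    · obtain ⟨F, hF1, hF2⟩ := hF
      refine h2 (nM M n) (nM M (n + 1)) (mem_wM.2 ⟨n, rfl⟩) (fun z => mem_nM_succ)
        ⟨cod M F, fun a k b b' h h' => ?_, fun b hb => ?_⟩
      · obtain ⟨x, j, y, rfl, rfl, rfl, h3⟩ := hasTrip_cod.1 h
        obtain ⟨x', j', y', h4, h5, rfl, h6⟩ := hasTrip_cod.1 h'
        rw [cod_inj_iff] at h4 h5
        subst h4 h5
        rw [hF1 _ _ _ h3 h6]
      · obtain ⟨y, -, rfl⟩ := mem_cod_MSet.1 (h1 _ _ hb)
        have h3 : (n + 1, y) ∈ q' := (hq' _).2 (hasPair_codes.1 hb)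
        obtain ⟨a, k, h4, h5⟩ := hF2 y h3
        exact ⟨cod M a, nM M k, mem_wM.2 ⟨k, rfl⟩, hasPair_codes.2 ((hq' _).1 h4),
          hasTrip_cod.2 ⟨a, k, y, rfl, rfl, rfl, h5⟩⟩
  · rintro ⟨q, h1, h2⟩
    refine ⟨cod M q, fun n z h => ?_, fun n m hn hm hF => ?_⟩
    · obtain ⟨i, a, rfl, rfl, h3⟩ := hasPair_cod.1 h
      exact cod_mem_cod.2 (h1 _ _ h3)
    · obtain ⟨i, rfl⟩ := mem_wM.1 hn
      have hm' : m = nM M (i + 1) := by
        rw [isSucc_iff'] at hm
        rw [hm]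
        rfl
      subst hm'
      obtain ⟨F, hF1, hF2⟩ := hF
      obtain ⟨F', hF'⟩ := exists_trace ((A × ℕ) × A) F
      refine h2 i ⟨F', fun x b b' h h' => ?_, fun b hb => ?_⟩
      · obtain ⟨a, k⟩ := x
        exact cod_inj M (hF1 _ _ _ _ (hasTrip_codes.2 ((hF' _).1 h))
          (hasTrip_codes.2 ((hF' _).1 h')))
      · obtain ⟨a, k, hk, h3, h4⟩ := hF2 (cod M b) (hasPair_cod.2 ⟨i + 1, b, rfl, rfl, hb⟩)
        obtain ⟨k, rfl⟩ := mem_wM.1 hk
        obtain ⟨i', a', h5, rfl, h6⟩ := hasPair_cod.1 h3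
        have h5 : i = i' := nM_inj h5
        subst h5
        exact ⟨a', k, h6, (hF' _).2 (hasTrip_codes.1 h4)⟩

variable {d e : M}

/-- the relation `HasPair E d` between natural numbers -/
def DRel (d : M) (a b : ℕ) : Prop := HasPair E d (nM M a) (nM M b)

theorem df_DRel (d : M) : DF M fun p : ℕ × ℕ => DRel d p.1 p.2 := by
  have h : DF M fun p : ℕ × ℕ => E (pr (cod M p.1) (cod M p.2)) d := by fun_prop
  exact h.pcongr fun p => hasPair_iff'.symm

theorem isBranch_iff {x : Re M} : IsBranch E (wM M) d (cod M x) ↔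
    ∀ n, DRel d (x n) (x (n + 1)) := by
  constructor
  · rintro ⟨-, h⟩ n
    exact h (nM M n) (nM M (n + 1)) _ _ (mem_wM.2 ⟨n, rfl⟩) (fun z => mem_nM_succ)
      (hasPair_re_nat.2 rfl) (hasPair_re_nat.2 rfl)
  · intro h
    refine ⟨isFunc_iff_re.2 ⟨x, rfl⟩, fun n m a b hn hm ha hb => ?_⟩
    obtain ⟨i, rfl⟩ := mem_wM.1 hn
    have hm' : m = nM M (i + 1) := by
      rw [isSucc_iff'] at hm
      rw [hm]
      rfl
    subst hm'
    obtain ⟨j, h1, rfl⟩ := hasPair_re.1 ha
    obtain ⟨l, h2, rfl⟩ := hasPair_re.1 hb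
    rw [← nM_inj h1, ← nM_inj h2]
    exact h i

theorem relR_iff {x y : Re M} : RelR E (wM M) d e (cod M x) (cod M y) ↔
    (∀ n, DRel d (x n) (x (n + 1))) ∧ (∀ n, DRel d (y n) (y (n + 1))) ∧
      ∃ k : ℕ, ∀ n, k ≤ n → DRel e (x n) (y n) := by
  unfold RelR
  rw [isBranch_iff, isBranch_iff]
  refine and_congr_right fun _ => and_congr_right fun _ => ?_
  constructor
  · rintro ⟨k, hk, h⟩
    obtain ⟨k, rfl⟩ := mem_wM.1 hk
    refine ⟨k, fun n hn => ?_⟩
    refine h (nM M n) (mem_wM.2 ⟨n, rfl⟩) ?_ _ _ (hasPair_re_nat.2 rfl) (hasPair_re_nat.2 rfl)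
    rcases Nat.eq_or_lt_of_le hn with rfl | h1
    · exact Or.inl rfl
    · exact Or.inr (nM_mem_iff.2 h1)
  · rintro ⟨k, h⟩
    refine ⟨nM M k, mem_wM.2 ⟨k, rfl⟩, fun n hn hk a b ha hb => ?_⟩
    obtain ⟨n, rfl⟩ := mem_wM.1 hn
    obtain ⟨j, h1, rfl⟩ := hasPair_re.1 ha
    obtain ⟨l, h2, rfl⟩ := hasPair_re.1 hb
    rw [← nM_inj h1, ← nM_inj h2]
    refine h n ?_
    rcases hk with hk | hk
    · exact (nM_inj hk).ge
    · exact (nM_mem_iff.1 hk).le

/-- the relation `R` between reals -/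
def RRe (d e : M) (x y : Re M) : Prop := (∀ n, DRel d (x n) (x (n + 1))) ∧
  (∀ n, DRel d (y n) (y (n + 1))) ∧ ∃ k : ℕ, ∀ n, k ≤ n → DRel e (x n) (y n)

theorem df_RRe (d e : M) : DF M fun p : Re M × Re M => RRe d e p.1 p.2 := by
  have h1 := df_DRel d
  have h2 := df_DRel e
  unfold RRe
  fun_prop

/-- **property (F1)** -/
theorem PrF1.sort (h : PrF1 E (wM M) d e) {Ed : Type} {src tgt : Ed → Re M}
    (hR : ∀ x y, (∃ ε, src ε = x ∧ tgt ε = y) ↔ RelR E (wM M) d e (cod M x) (cod M y)) :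
    PF1S M src tgt := by
  intro Z hZ
  obtain ⟨θ, κ, hθ, hκ, h1, h2, h3⟩ := h (cod M Z) (fun z hz => by
    obtain ⟨r, -, rfl⟩ := mem_cod_MSet.1 hz
    exact isFunc_iff_re.2 ⟨r, rfl⟩) (fun hL => hZ ((isLarge_iff Z).1 hL))
  classical
  -- the value of `κ`
  let g : Re M → M := fun z => if hz : ∃ α, HasPair E κ (cod M z) α then hz.choose else nM M 0
  have hg : ∀ z α, HasPair E κ (cod M z) α → g z = α := by
    intro z α hα
    have hz : ∃ α, HasPair E κ (cod M z) α := ⟨α, hα⟩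
    simp only [g, dif_pos hz]
    exact hκ _ _ _ hz.choose_spec hα
  refine ⟨fun z z' => ∃ α α', HasPair E κ (cod M z) α ∧ HasPair E κ (cod M z') α' ∧ E α α',
    ?_, ?_, ?_, ?_⟩
  · have h4 : DF M fun p : Re M × Re M => ∃ α α', E (pr (cod M p.1) α) κ ∧
        E (pr (cod M p.2) α') κ ∧ E α α' := by fun_prop
    refine h4.pcongr fun p => ?_
    simp only [hasPair_iff']
  · refine Subrelation.wf (r := fun z z' => E (g z) (g z')) ?_
      (InvImage.wf g (ZM.wf (M := M)))
    rintro z z' ⟨α, α', h4, h5, h6⟩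
    show E (g z) (g z')
    rw [hg z α h4, hg z' α' h5]
    exact h6
  · intro z z' hz hz'
    obtain ⟨α, hα, hα'⟩ := h1 (cod M z) (cod_mem_cod.2 hz)
    obtain ⟨β, hβ, hβ'⟩ := h1 (cod M z') (cod_mem_cod.2 hz')
    rcases ord_tri α β (hθ.elem hα) (hθ.elem hβ) with h4 | rfl | h4
    · exact Or.inl ⟨α, β, hα', hβ', h4⟩
    · exact Or.inr (Or.inl (cod_inj M (h2 _ _ _ (cod_mem_cod.2 hz) (cod_mem_cod.2 hz') hα' hβ')))
    · exact Or.inr (Or.inr ⟨β, α, hβ', hα', h4⟩)
  · intro z hz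
    obtain ⟨u, hu, hu'⟩ := h3 (cod M z) (cod_mem_cod.2 hz)
    obtain ⟨u', hu2⟩ := exists_trace (ℕ × Re M) u
    refine ⟨u', fun n x y hx hy => ?_, ?_⟩
    · exact cod_inj M (hu (cod M n) _ _ (hasPair_codes.2 ((hu2 _).1 hx))
        (hasPair_codes.2 ((hu2 _).1 hy)))
    · rintro z' hz' ⟨α', α, h4, h5, h6⟩ h7
      obtain ⟨n, hn, hn'⟩ := hu' (cod M z') α α' (cod_mem_cod.2 hz') h5 h4 h6
        (h7.imp (hR _ _).1 (hR _ _).1)
      obtain ⟨n, rfl⟩ := mem_wM.1 hn
      exact ⟨n, (hu2 _).2 (hasPair_codes.1 hn')⟩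

/-- **property (F2)** -/
theorem PrF2.sort (h : PrF2 E (wM M) d e) {Ed : Type} {src tgt : Ed → Re M}
    (hR : ∀ x y, (∃ ε, src ε = x ∧ tgt ε = y) ↔ RelR E (wM M) d e (cod M x) (cod M y)) :
    PF2S M src tgt := by
  intro F hF
  obtain ⟨S, hS⟩ : ∃ S : MSet M (((Re M × Re M) × ℕ) × Re M), ∀ c, c ∈ S ↔
      F (c.1.1.1, c.1.1.2, c.1.2) = c.2 :=
    ⟨MSet.of (fun c => F (c.1.1.1, c.1.1.2, c.1.2) = c.2) (by fun_prop), fun c => Iff.rfl⟩
  obtain ⟨Z, b, h1, h2, h3, h4, h5⟩ := h (cod M S) (by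
    intro a a' n b b' hb hb'
    obtain ⟨x, y, k, z, rfl, rfl, rfl, rfl, h3⟩ := hasQuad_cod.1 hb
    obtain ⟨x', y', k', z', h4, h5, h6, rfl, h7⟩ := hasQuad_cod.1 hb'
    rw [cod_inj_iff] at h4 h5 h6
    subst h4 h5 h6
    rw [hS] at h3 h7
    exact congrArg _ (h3.symm.trans h7))
  obtain ⟨b, rfl⟩ := isFunc_iff_re.1 h3
  obtain ⟨Z', hZ'⟩ := exists_trace (Re M) Z
  refine ⟨Z', b, fun x y n hx hy => ?_, fun hb => h4 ((hZ' b).1 hb), ?_⟩
  · rw [hZ'] at hx hy ⊢
    exact h2 _ _ (nM M n) _ hx hy (mem_wM.2 ⟨n, rfl⟩)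
      (hasQuad_cod.2 ⟨x, y, n, F (x, y, n), rfl, rfl, rfl, rfl, (hS _).2 rfl⟩)
      (isFunc_iff_re.2 ⟨_, rfl⟩)
  · rintro ⟨u, hu, hu'⟩
    refine h5 ⟨cod M u, fun a x y hx hy => ?_, fun a ha hab => ?_⟩
    · obtain ⟨n, r, rfl, rfl, h6⟩ := hasPair_cod.1 hx
      obtain ⟨n', r', h7, rfl, h8⟩ := hasPair_cod.1 hy
      rw [cod_inj_iff] at h7
      subst h7
      rw [hu _ _ _ h6 h8]
    · obtain ⟨r, rfl⟩ := isFunc_iff_re.1 (h1 a ha)
      obtain ⟨n, hn⟩ := hu' r ((hZ' r).2 ha) ((hR _ _).2 hab)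
      exact ⟨nM M n, mem_wM.2 ⟨n, rfl⟩, hasPair_cod.2 ⟨n, r, rfl, rfl, hn⟩⟩

end

end MP186633L

/-!
# MP_186633_lc, plan A, part 4: groups as sorts, and freeness inside `M`
-/

set_option autoImplicit false

namespace MP186633L

open MP9708F ZM

universe u v₁ v₂ v₃ v₄

section

variable {M : Type u} [ZM M]
variable {A : Type v₁} [Srt M A] {B : Type v₂} [Srt M B] {C : Type v₃} [Srt M C]
variable {G : Type v₄} [Srt M G] [Group G]

variable (M G) in
/-- A sort with a definable group multiplication. -/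
class SGrp : Prop where
  mul : DF M fun p : G × G => p.1 * p.2

@[fun_prop] theorem DF.gmul [SGrp M G] {f g : C → G} (hf : DF M f) (hg : DF M g) :
    DF M fun c => f c * g c :=
  (SGrp.mul (M := M) (G := G)).comp (f := fun c => (f c, g c)) (hf.prodMk hg)

@[fun_prop] theorem DF.ginv [SGrp M G] {f : C → G} (hf : DF M f) : DF M fun c => (f c)⁻¹ := by
  have h : DF M fun g : G => g⁻¹ := by
    refine DF.of_graph (P := fun a b => a * b = 1) (by fun_prop) fun a b => ?_
    rw [mul_eq_one_iff_inv_eq]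
  exact h.comp hf

/-! ### Generated subgroups -/

theorem mem_closure_iff_rtg {S : Set G} {g : G} : g ∈ Subgroup.closure S ↔
    Relation.ReflTransGen (fun x y => ∃ s, s ∈ S ∧ (y = x * s ∨ x = y * s)) 1 g := by
  constructor
  · have key : ∀ a b : G, Relation.ReflTransGen (fun x y => ∃ s, s ∈ S ∧ (y = x * s ∨ x = y * s))
        a b → ∀ c, Relation.ReflTransGen (fun x y => ∃ s, s ∈ S ∧ (y = x * s ∨ x = y * s))
        (c * a) (c * b) := by
      intro a b h c
      induction h with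
      | refl => exact Relation.ReflTransGen.refl
      | @tail b d _ hbd ih =>
        refine ih.tail ?_
        obtain ⟨s, hs, h | h⟩ := hbd
        · exact ⟨s, hs, Or.inl (by rw [h, mul_assoc])⟩
        · exact ⟨s, hs, Or.inr (by rw [h, mul_assoc])⟩
    have hsymm : ∀ a b : G, Relation.ReflTransGen (fun x y => ∃ s, s ∈ S ∧ (y = x * s ∨
        x = y * s)) a b → Relation.ReflTransGen (fun x y => ∃ s, s ∈ S ∧ (y = x * s ∨
        x = y * s)) b a := by
      intro a b h
      induction h with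
      | refl => exact Relation.ReflTransGen.refl
      | @tail b d _ hbd ih =>
        refine Relation.ReflTransGen.head ?_ ih
        obtain ⟨s, hs, h | h⟩ := hbd
        · exact ⟨s, hs, Or.inr h⟩
        · exact ⟨s, hs, Or.inl h⟩
    intro h
    induction h using Subgroup.closure_induction with
    | mem x hx => exact Relation.ReflTransGen.single ⟨x, hx, Or.inl (one_mul x).symm⟩
    | one => exact Relation.ReflTransGen.refl
    | mul x y _ _ ihx ihy =>
      have h1 := key 1 y ihy x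
      rw [mul_one] at h1
      exact ihx.trans h1
    | inv x _ ih =>
      have h1 := key 1 x ih x⁻¹
      rw [mul_one, inv_mul_cancel] at h1
      exact hsymm _ _ h1
  · intro h
    induction h with
    | refl => exact one_mem _
    | @tail b d _ hbd ih =>
      obtain ⟨s, hs, h | h⟩ := hbd
      · rw [h]
        exact mul_mem ih (Subgroup.subset_closure hs)
      · have h1 : d = b * s⁻¹ := by rw [h, mul_inv_cancel_right]
        rw [h1]
        exact mul_mem ih (inv_mem (Subgroup.subset_closure hs))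

/-- The subgroup generated by a definable set is definable. -/
@[fun_prop] theorem DF.closure [SGrp M G] {P : C → G → Prop} {f : C → G}
    (hP : DF M fun p : C × G => P p.1 p.2) (hf : DF M f) :
    DF M fun c => f c ∈ Subgroup.closure {g | P c g} := by
  have h : DF M fun c => Relation.ReflTransGen
      (fun x y => ∃ s, P c s ∧ (y = x * s ∨ x = y * s)) 1 (f c) := by fun_prop
  exact h.congr fun c => propext mem_closure_iff_rtg.symm

theorem DF.closureSet [SGrp M G] {P : G → Prop} (hP : DF M P) :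
    DF M fun g => g ∈ Subgroup.closure {g | P g} := by
  have h : DF M fun p : G × G => P p.2 := hP.comp DF.snd0
  exact DF.closure (C := G) (G := G) (P := fun _ g => P g) (f := fun g => g) h DF.id

/-! ### Sets of `M` given by sorts -/

variable (M A) in
/-- The set of the codes of a small sort. -/
noncomputable def univM [h : Sml M A] : M := h.out.choose

theorem mem_univM [Sml M A] {x : M} : E x (univM M A) ↔ ∃ a : A, x = cod M a :=
  (Sml.out (M := M) (A := A)).choose_spec x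

/-- The set of the codes of a definable subset of a small sort. -/
theorem exists_set [Sml M A] {P : A → Prop} (hP : DF M P) :
    ∃ m : M, ∀ x, E x m ↔ ∃ a, P a ∧ x = cod M a := by
  refine ⟨cod M (MSet.of P hP), fun x => ?_⟩
  rw [mem_cod_MSet]
  rfl

/-- The graph of a definable function on a small sort. -/
theorem exists_graph [Sml M A] {f : A → B} (hf : DF M f) :
    ∃ m : M, ∀ x, E x m ↔ ∃ a, x = pr (cod M a) (cod M (f a)) :=
  exists_image (A := A) (B := A × B) (f := fun a => (a, f a)) (DF.id.prodMk hf)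

variable (M G) in
/-- The multiplication of a small group sort. -/
noncomputable def mulM [SGrp M G] [Sml M G] : M :=
  (exists_graph (M := M) (SGrp.mul (M := M) (G := G))).choose

theorem hasTrip_mulM [SGrp M G] [Sml M G] {x y z : M} : HasTrip E (mulM M G) x y z ↔
    ∃ a b : G, x = cod M a ∧ y = cod M b ∧ z = cod M (a * b) := by
  rw [hasTrip_iff']
  refine ((exists_graph (M := M) (SGrp.mul (M := M) (G := G))).choose_spec _).trans ?_
  constructor
  · rintro ⟨⟨a, b⟩, h⟩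
    obtain ⟨h1, h2⟩ := pr_inj h
    rw [cod_prod] at h1
    obtain ⟨h3, h4⟩ := pr_inj h1
    exact ⟨a, b, h3, h4, h2⟩
  · rintro ⟨a, b, rfl, rfl, rfl⟩
    exact ⟨(a, b), rfl⟩

theorem isPair_cod {p : M} {a : A} {b : B} :
    IsPair E p (cod M a) (cod M b) ↔ p = cod M (a, b) := isPair_iff'

/-- A small group sort is a group in `M`. -/
theorem isGroup_univM [SGrp M G] [Sml M G] : IsGroup E (univM M G) (mulM M G) := by
  refine ⟨⟨?_, ?_, ?_⟩, ?_, ?_⟩
  · intro t ht
    obtain ⟨⟨a, b⟩, h⟩ := ((exists_graph (M := M) (SGrp.mul (M := M) (G := G))).choose_spec _).1 ht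
    exact ⟨cod M a, cod M b, cod M (a * b), cod M (a, b), mem_univM.2 ⟨a, rfl⟩,
      mem_univM.2 ⟨b, rfl⟩, mem_univM.2 ⟨_, rfl⟩, isPair_pr _ _, by rw [h]; exact isPair_pr _ _⟩
  · intro x y hx hy
    obtain ⟨a, rfl⟩ := mem_univM.1 hx
    obtain ⟨b, rfl⟩ := mem_univM.1 hy
    exact ⟨cod M (a * b), hasTrip_mulM.2 ⟨a, b, rfl, rfl, rfl⟩⟩
  · intro x y z z' h1 h2
    obtain ⟨a, b, rfl, rfl, rfl⟩ := hasTrip_mulM.1 h1
    obtain ⟨a', b', h3, h4, rfl⟩ := hasTrip_mulM.1 h2
    rw [cod_inj_iff] at h3 h4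
    rw [h3, h4]
  · intro x y z xy yz w h1 h2 h3
    obtain ⟨a, b, rfl, rfl, rfl⟩ := hasTrip_mulM.1 h1
    obtain ⟨b', c, h4, rfl, rfl⟩ := hasTrip_mulM.1 h2
    obtain ⟨ab, c', h5, h6, rfl⟩ := hasTrip_mulM.1 h3
    rw [cod_inj_iff] at h4 h5 h6
    subst h4 h5 h6
    exact hasTrip_mulM.2 ⟨a, b * c, rfl, rfl, by rw [mul_assoc]⟩
  · refine ⟨cod M (1 : G), mem_univM.2 ⟨1, rfl⟩, fun x hx => ?_⟩
    obtain ⟨a, rfl⟩ := mem_univM.1 hx
    exact ⟨hasTrip_mulM.2 ⟨1, a, rfl, rfl, by rw [one_mul]⟩,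
      hasTrip_mulM.2 ⟨a, 1, rfl, rfl, by rw [mul_one]⟩, cod M a⁻¹, mem_univM.2 ⟨_, rfl⟩,
      hasTrip_mulM.2 ⟨a, a⁻¹, rfl, rfl, by rw [mul_inv_cancel]⟩,
      hasTrip_mulM.2 ⟨a⁻¹, a, rfl, rfl, by rw [inv_mul_cancel]⟩⟩

/-- Subgroups in `M` are subgroups. -/
theorem exists_subgroup [SGrp M G] [Sml M G] {H : M}
    (hH : IsSubgroup E (univM M G) (mulM M G) H) :
    ∃ S : Subgroup G, ∀ x, E x H ↔ ∃ g ∈ S, x = cod M g := by
  obtain ⟨h1, ⟨x, hx⟩, h3⟩ := hH
  have hdiv : ∀ a b : G, E (cod M a) H → E (cod M b) H → E (cod M (a * b⁻¹)) H := fun a b ha hb =>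
    h3 _ _ _ ha hb (hasTrip_mulM.2 ⟨a * b⁻¹, b, rfl, rfl, by rw [inv_mul_cancel_right]⟩)
  obtain ⟨a₀, rfl⟩ := mem_univM.1 (h1 x hx)
  have hone : E (cod M (1 : G)) H := by
    have := hdiv a₀ a₀ hx hx
    rwa [mul_inv_cancel] at this
  have hinv : ∀ a : G, E (cod M a) H → E (cod M a⁻¹) H := fun a ha => by
    have := hdiv 1 a hone ha
    rwa [one_mul] at this
  refine ⟨{ carrier := {g | E (cod M g) H}
            mul_mem' := fun {a b} ha hb => ?_
            one_mem' := hone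
            inv_mem' := fun {a} ha => hinv a ha }, fun x => ?_⟩
  · have := hdiv a b⁻¹ ha (hinv b hb)
    rwa [inv_inv] at this
  · constructor
    · intro hx
      obtain ⟨a, rfl⟩ := mem_univM.1 (h1 x hx)
      exact ⟨a, hx, rfl⟩
    · rintro ⟨g, hg, rfl⟩
      exact hg

theorem isSubgroup_of [SGrp M G] [Sml M G] {H : M} (S : Subgroup G)
    (hS : ∀ x, E x H ↔ ∃ g ∈ S, x = cod M g) : IsSubgroup E (univM M G) (mulM M G) H := by
  refine ⟨fun x hx => ?_, ⟨cod M (1 : G), (hS _).2 ⟨1, S.one_mem, rfl⟩⟩, fun x y z hx hy h => ?_⟩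
  · obtain ⟨g, -, rfl⟩ := (hS x).1 hx
    exact mem_univM.2 ⟨g, rfl⟩
  · obtain ⟨c, b, rfl, rfl, rfl⟩ := hasTrip_mulM.1 h
    obtain ⟨g, hg, h1⟩ := (hS _).1 hx
    obtain ⟨g', hg', h2⟩ := (hS _).1 hy
    rw [cod_inj_iff] at h1 h2
    subst h2
    refine (hS _).2 ⟨c, ?_, rfl⟩
    have h3 : c = g * b⁻¹ := by rw [← h1, mul_inv_cancel_right]
    rw [h3]
    exact mul_mem hg (inv_mem hg')

/-! ### The elements of a set of `M` -/

theorem cod_El {K : M} (x : El K) : cod M x = x.1 := rfl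

@[fun_prop] theorem DF.val {K : M} {f : C → El K} (hf : DF M f) : DF M fun c => (f c).1 :=
  DF.elVal hf

theorem DF.of_val {K : M} {f : C → El K} (hf : DF M fun c => (f c).1) : DF M f := by
  refine DF.of_graph (P := fun c x => (f c).1 = x.1)
    (DF.eq (hf.comp DF.fst0) (DF.val DF.snd0)) fun c x => ?_
  exact ⟨fun h => congrArg _ h, fun h => Subtype.ext h⟩

section InternalGroup

variable {K k : M} (h : IsGroup E K k)

include h in
theorem exists_mulEl (a b : El K) : ∃ c : El K, HasTrip E k a.1 b.1 c.1 := by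
  obtain ⟨c, hc⟩ := h.1.2.1 a.1 b.1 a.2 b.2
  obtain ⟨p, hp, hp'⟩ := hc
  obtain ⟨t, ht, ht'⟩ := hp'
  obtain ⟨a', b', c', p', -, -, h3, h4, h5⟩ := h.1.1 t ht
  rw [isPair_iff'] at h5 ht'
  obtain ⟨-, h7⟩ := pr_inj (h5.symm.trans ht')
  refine ⟨⟨c, h7 ▸ h3⟩, p, hp, t, ht, ?_⟩
  rw [isPair_iff']
  exact ht'

/-- The product. -/
noncomputable def mulEl (a b : El K) : El K := (exists_mulEl h a b).choose

theorem mulEl_iff {a b c : El K} : mulEl h a b = c ↔ HasTrip E k a.1 b.1 c.1 :=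
  ⟨fun h' => h' ▸ (exists_mulEl h a b).choose_spec,
    fun h' => Subtype.ext (h.1.2.2 _ _ _ _ (exists_mulEl h a b).choose_spec h')⟩

/-- The unit. -/
noncomputable def oneEl : El K := ⟨h.2.2.choose, h.2.2.choose_spec.1⟩

theorem exists_invEl (a : El K) : ∃ b : El K, mulEl h b a = oneEl h := by
  obtain ⟨b, hb, -, h2⟩ := (h.2.2.choose_spec.2 a.1 a.2).2.2
  exact ⟨⟨b, hb⟩, (mulEl_iff h).2 h2⟩

/-- The group given by a group in `M`. -/
@[instance_reducible] noncomputable def grpEl : Group (El K) :=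
  letI : Mul (El K) := ⟨mulEl h⟩
  letI : One (El K) := ⟨oneEl h⟩
  letI : Inv (El K) := ⟨fun a => (exists_invEl h a).choose⟩
  Group.ofLeftAxioms
    (fun _ _ _ => ((mulEl_iff h).2 (h.2.1 _ _ _ _ _ _ ((mulEl_iff h).1 rfl) ((mulEl_iff h).1 rfl)
      ((mulEl_iff h).1 rfl))).symm)
    (fun a => (mulEl_iff h).2 (h.2.2.choose_spec.2 a.1 a.2).1)
    (fun a => (exists_invEl h a).choose_spec)

theorem mul_grpEl (a b : El K) : letI := grpEl h; a * b = mulEl h a b := rfl

theorem sgrpEl : letI := grpEl h; SGrp M (El K) := by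
  let _ := grpEl h
  refine ⟨DF.of_graph (P := fun p c => E (pr (pr p.1.1 p.2.1) c.1) k) ?_ ?_⟩
  · exact DF.E (DF.pr (DF.pr (DF.val (by fun_prop)) (DF.val (by fun_prop)))
      (DF.val (by fun_prop))) (DF.const k)
  · rintro ⟨a, b⟩ c
    rw [← hasTrip_iff']
    exact mulEl_iff h

end InternalGroup

end

end MP186633L

/-!
# MP_186633_lc, plan A, part 5: freeness inside `M`
-/

set_option autoImplicit false

namespace MP186633L

open MP9708F ZM

universe u v₁ v₂ v₃ v₄

section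

variable {M : Type u} [ZM M]
variable {A : Type v₁} [Srt M A] {B : Type v₂} [Srt M B] {C : Type v₃} [Srt M C]
variable {G : Type v₄} [Srt M G] [Group G] {G' : Type v₁} [Srt M G'] [Group G']

instance sgrpProd [SGrp M G] [SGrp M G'] : SGrp M (G × G') := by
  refine ⟨?_⟩
  have h : DF M fun p : (G × G') × G × G' => (p.1.1 * p.2.1, p.1.2 * p.2.2) := by fun_prop
  exact h

/-- **An external free basis gives freeness in `M`.** -/
theorem isFree_of [SGrp M G] [Sml M G] {H : M} (S : Subgroup G)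
    (hS : ∀ x, E x H ↔ ∃ g ∈ S, x = cod M g) (B : Set G) (hB : DF M fun g => g ∈ B)
    (hcl : Subgroup.closure B = S)
    (hlift : ∀ (K : Type u) [Group K] (f : G → K), ∃ φ : S →* K, ∀ b : S, b.1 ∈ B → φ b = f b.1) :
    IsFree E (univM M G) (mulM M G) H := by
  classical
  obtain ⟨Bm, hBm⟩ := exists_set hB
  refine ⟨Bm, fun x hx => ?_, fun S' hS' hBS' x hx => ?_, fun K k f hK hf => ?_⟩
  · obtain ⟨b, hb, rfl⟩ := (hBm x).1 hx
    exact (hS _).2 ⟨b, hcl ▸ Subgroup.subset_closure hb, rfl⟩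
  · obtain ⟨T, hT⟩ := exists_subgroup hS'
    obtain ⟨g, hg, rfl⟩ := (hS x).1 hx
    have h1 : Subgroup.closure B ≤ T := by
      rw [Subgroup.closure_le]
      intro b hb
      obtain ⟨g', hg', h2⟩ := (hT _).1 (hBS' _ ((hBm _).2 ⟨b, hb, rfl⟩))
      rw [cod_inj_iff] at h2
      rwa [h2]
    rw [← hcl] at hg
    exact (hT _).2 ⟨g, h1 hg, rfl⟩
  · let _ := grpEl hK
    have hsg : SGrp M (El K) := sgrpEl hK
    obtain ⟨hf1, hf2, hf3⟩ := hf
    -- the external function
    let fe : G → El K := fun g => if h : ∃ x : El K, HasPair E f (cod M g) x.1 then h.choose else 1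
    have hfe : ∀ b ∈ B, HasPair E f (cod M b) (fe b).1 := by
      intro b hb
      obtain ⟨x, hx⟩ := hf2 _ ((hBm _).2 ⟨b, hb, rfl⟩)
      have hxK : E x K := by
        rw [hasPair_iff'] at hx
        obtain ⟨a', b', -, h2, h3⟩ := hf1 _ hx
        rw [isPair_iff'] at h3
        rw [(pr_inj h3).2]
        exact h2
      have h4 : ∃ x : El K, HasPair E f (cod M b) x.1 := ⟨⟨x, hxK⟩, hx⟩
      simp only [fe, dif_pos h4]
      exact h4.choose_spec
    obtain ⟨φ, hφ⟩ := hlift (El K) fe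
    -- the graph of the homomorphism
    let Γ : Set (G × El K) := {p | p.1 ∈ B ∧ E (pr (cod M p.1) p.2.1) f}
    have hΓ : DF M fun p : G × El K => p.1 ∈ B ∧ E (pr (cod M p.1) p.2.1) f := by
      refine DF.and (hB.comp DF.fst0) (DF.E (DF.pr (DF.cod DF.fst0) (DF.val DF.snd0))
        (DF.const f))
    have hΓ' : DF M fun p : G × El K => p ∈ Subgroup.closure Γ := DF.closureSet hΓ
    have hΓB : ∀ p : G × El K, p ∈ Γ ↔ p.1 ∈ B ∧ p.2 = fe p.1 := by
      rintro ⟨g, x⟩
      constructor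
      · rintro ⟨h1, h2⟩
        exact ⟨h1, Subtype.ext (hf3 _ _ _ (hasPair_iff'.2 h2) (hfe g h1))⟩
      · rintro ⟨h1, h2⟩
        have h2 : x = fe g := h2
        subst h2
        exact ⟨h1, hasPair_iff'.1 (hfe g h1)⟩
    have key : ∀ (g : G) (x : El K), (g, x) ∈ Subgroup.closure Γ ↔ ∃ hg : g ∈ S, φ ⟨g, hg⟩ = x := by
      intro g x
      constructor
      · intro h
        have h1 : Subgroup.closure Γ ≤ Subgroup.map (MonoidHom.prod S.subtype φ) ⊤ := by
          rw [Subgroup.closure_le]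
          rintro ⟨b, y⟩ hby
          obtain ⟨hb, hy⟩ := (hΓB _).1 hby
          have hy : y = fe b := hy
          have hbS : b ∈ S := hcl ▸ Subgroup.subset_closure hb
          refine ⟨⟨b, hbS⟩, trivial, Prod.ext rfl ?_⟩
          rw [hy]
          exact hφ ⟨b, hbS⟩ hb
        obtain ⟨s, -, hs⟩ := h1 h
        have h2 : (s : G) = g := congrArg Prod.fst hs
        have h3 : φ s = x := congrArg Prod.snd hs
        subst h2
        exact ⟨s.2, h3⟩
      · rintro ⟨hg, rfl⟩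
        have h1 : ∀ g (hg : g ∈ Subgroup.closure B), ∀ hg' : g ∈ S,
            (g, φ ⟨g, hg'⟩) ∈ Subgroup.closure Γ := by
          intro g hg
          induction hg using Subgroup.closure_induction with
          | mem b hb =>
            intro hbS
            refine Subgroup.subset_closure ((hΓB _).2 ⟨hb, hφ ⟨b, hbS⟩ hb⟩)
          | one =>
            intro hS1
            have h2 : φ ⟨1, hS1⟩ = 1 := map_one φ
            rw [h2]
            exact one_mem _
          | mul a b ha hb iha ihb =>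
            intro hab
            have ha' : a ∈ S := hcl ▸ ha
            have hb' : b ∈ S := hcl ▸ hb
            have h2 : φ ⟨a * b, hab⟩ = φ ⟨a, ha'⟩ * φ ⟨b, hb'⟩ := by
              rw [← map_mul]
              rfl
            rw [h2]
            exact mul_mem (iha ha') (ihb hb')
          | inv a ha iha =>
            intro hai
            have ha' : a ∈ S := hcl ▸ ha
            have h2 : φ ⟨a⁻¹, hai⟩ = (φ ⟨a, ha'⟩)⁻¹ := by
              rw [← map_inv]
              rfl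
            rw [h2]
            exact inv_mem (iha ha')
        exact h1 g (hcl ▸ hg) hg
    obtain ⟨φm, hφm⟩ := exists_set hΓ'
    have hpair : ∀ x y, HasPair E φm x y ↔ ∃ (g : G) (hg : g ∈ S), x = cod M g ∧
        y = (φ ⟨g, hg⟩).1 := by
      intro x y
      rw [hasPair_iff', hφm]
      constructor
      · rintro ⟨⟨g, z⟩, h1, h2⟩
        obtain ⟨h3, h4⟩ := pr_inj h2
        obtain ⟨hg, h5⟩ := (key g z).1 h1
        exact ⟨g, hg, h3, h4.trans (by rw [h5]; rfl)⟩
      · rintro ⟨g, hg, rfl, rfl⟩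
        exact ⟨(g, φ ⟨g, hg⟩), (key _ _).2 ⟨hg, rfl⟩, rfl⟩
    refine ⟨φm, ⟨⟨fun p hp => ?_, fun x hx => ?_, fun x y y' h1 h2 => ?_⟩,
      fun a b c a' b' c' _ _ h1 h2 h3 h4 => ?_⟩, fun b x hbx => ?_⟩
    · obtain ⟨⟨g, z⟩, h1, rfl⟩ := (hφm p).1 hp
      obtain ⟨hg, h5⟩ := (key g z).1 h1
      exact ⟨cod M g, z.1, (hS _).2 ⟨g, hg, rfl⟩, z.2, isPair_pr _ _⟩
    · obtain ⟨g, hg, rfl⟩ := (hS x).1 hx
      exact ⟨_, (hpair _ _).2 ⟨g, hg, rfl, rfl⟩⟩
    · obtain ⟨g, hg, h3, rfl⟩ := (hpair _ _).1 h1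
      obtain ⟨g', hg', h4, rfl⟩ := (hpair _ _).1 h2
      rw [h3, cod_inj_iff] at h4
      subst h4
      rfl
    · obtain ⟨g, hg, rfl, rfl⟩ := (hpair _ _).1 h2
      obtain ⟨g', hg', rfl, rfl⟩ := (hpair _ _).1 h3
      obtain ⟨g'', hg'', rfl, rfl⟩ := (hpair _ _).1 h4
      obtain ⟨x, y, h5, h6, h7⟩ := hasTrip_mulM.1 h1
      rw [cod_inj_iff] at h5 h6 h7
      subst h5 h6 h7
      refine (mulEl_iff hK).1 ?_
      rw [← mul_grpEl hK, ← map_mul]
      rfl
    · have h1 := hasPair_iff'.1 hbx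
      obtain ⟨b', x', h2, h3, h4⟩ := hf1 _ h1
      rw [isPair_iff'] at h4
      obtain ⟨rfl, rfl⟩ := pr_inj h4
      obtain ⟨b₀, hb₀, rfl⟩ := (hBm b).1 h2
      have hbS : b₀ ∈ S := hcl ▸ Subgroup.subset_closure hb₀
      refine (hpair _ _).2 ⟨b₀, hbS, rfl, ?_⟩
      rw [hφ ⟨b₀, hbS⟩ hb₀]
      exact hf3 _ _ _ hbx (hfe b₀ hb₀)

/-- **Freeness in `M` gives an external generating set with extension of definable functions.** -/
theorem of_isFree [SGrp M G] [Sml M G]
    (h : IsFree E (univM M G) (mulM M G) (univM M G)) :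
    ∃ B : Set G, (DF M fun g => g ∈ B) ∧ Subgroup.closure B = ⊤ ∧
      ∀ f : G → G, DF M f → ∃ ρ : G →* G, ∀ b ∈ B, ρ b = f b := by
  classical
  obtain ⟨Bm, hsub, hgen, hext⟩ := h
  have hB : DF M fun g : G => E (cod M g) Bm := by fun_prop
  refine ⟨{g | E (cod M g) Bm}, hB, ?_, fun f hf => ?_⟩
  · have h1 : DF M fun g : G => g ∈ Subgroup.closure {g : G | E (cod M g) Bm} :=
      DF.closureSet hB
    obtain ⟨T, hT⟩ := exists_set h1
    have h2 := hgen T (isSubgroup_of _ hT) fun b hb => by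
      obtain ⟨g, rfl⟩ := mem_univM.1 (hsub b hb)
      exact (hT _).2 ⟨g, Subgroup.subset_closure hb, rfl⟩
    rw [eq_top_iff]
    intro g _
    obtain ⟨g', hg', h3⟩ := (hT _).1 (h2 _ (mem_univM.2 ⟨g, rfl⟩))
    rw [cod_inj_iff] at h3
    rwa [h3]
  · have h1 : DF M fun p : G × G => E (cod M p.1) Bm ∧ f p.1 = p.2 := by fun_prop
    obtain ⟨fm, hfm⟩ := exists_set h1
    have hfm' : ∀ x y, HasPair E fm x y ↔ ∃ g : G, E (cod M g) Bm ∧ x = cod M g ∧
        y = cod M (f g) := by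
      intro x y
      rw [hasPair_iff', hfm]
      constructor
      · rintro ⟨⟨g, g'⟩, ⟨h2, h3⟩, h4⟩
        obtain ⟨h5, h6⟩ := pr_inj h4
        exact ⟨g, h2, h5, h6.trans (congrArg _ h3.symm)⟩
      · rintro ⟨g, hg, rfl, rfl⟩
        exact ⟨(g, f g), ⟨hg, rfl⟩, rfl⟩
    obtain ⟨φ, ⟨⟨hφ1, hφ2, hφ3⟩, hφ4⟩, hφ5⟩ := hext (univM M G) (mulM M G) fm isGroup_univM
      ⟨fun p hp => by
        obtain ⟨⟨g, g'⟩, ⟨h2, h3⟩, rfl⟩ := (hfm p).1 hp
        exact ⟨cod M g, cod M g', h2, mem_univM.2 ⟨_, rfl⟩, isPair_pr _ _⟩,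
      fun a ha => by
        obtain ⟨g, rfl⟩ := mem_univM.1 (hsub a ha)
        exact ⟨cod M (f g), (hfm' _ _).2 ⟨g, ha, rfl, rfl⟩⟩,
      fun a b b' ha hb => by
        obtain ⟨g, -, h3, rfl⟩ := (hfm' _ _).1 ha
        obtain ⟨g', -, h4, rfl⟩ := (hfm' _ _).1 hb
        rw [h3, cod_inj_iff] at h4
        rw [h4]⟩
    have hex : ∀ g : G, ∃ g' : G, HasPair E φ (cod M g) (cod M g') := by
      intro g
      obtain ⟨y, hy⟩ := hφ2 _ (mem_univM.2 ⟨g, rfl⟩)
      have hy' := hasPair_iff'.1 hy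
      obtain ⟨a, b, -, h3, h4⟩ := hφ1 _ hy'
      rw [isPair_iff'] at h4
      obtain ⟨-, rfl⟩ := pr_inj h4
      obtain ⟨g', rfl⟩ := mem_univM.1 h3
      exact ⟨g', hy⟩
    choose r hr using hex
    refine ⟨MonoidHom.mk' r fun a b => ?_, fun b hb => ?_⟩
    · have h2 := hφ4 _ _ _ _ _ _ (mem_univM.2 ⟨a, rfl⟩) (mem_univM.2 ⟨b, rfl⟩)
        (hasTrip_mulM.2 ⟨a, b, rfl, rfl, rfl⟩) (hr a) (hr b) (hr (a * b))
      obtain ⟨a', b', h3, h4, h5⟩ := hasTrip_mulM.1 h2
      rw [cod_inj_iff] at h3 h4 h5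
      rw [h5, h3, h4]
    · have h2 := hφ5 _ _ ((hfm' _ _).2 ⟨b, hb, rfl, rfl⟩)
      exact cod_inj M (hφ3 _ _ _ (hr b) h2)

end

end MP186633L

/-!
# MP_186633_lc, plan A: external functions between countable sorts, and the existence of the model
-/

set_option autoImplicit false

namespace MP186633L

open MP9708F ZM

universe u v₁ v₂ v₃ v₄

section

variable {M : Type u} [ZM M]
variable {A : Type v₁} [Srt M A] {B : Type v₂} [Srt M B] {C : Type v₃} [Srt M C] {D : Type v₄}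
  [Srt M D]

variable (M A) in
/-- A countable sort with a definable coding by natural numbers. -/
class EncDF [Encodable A] : Prop where
  enc : DF M (Encodable.encode : A → ℕ)

@[fun_prop]
theorem DF.encode [Encodable A] [EncDF M A] {f : C → A} (hf : DF M f) :
    DF M fun c => Encodable.encode (f c) := (EncDF.enc (M := M) (A := A)).comp hf

instance : EncDF M ℕ := ⟨DF.id.congr fun n => (Encodable.encode_nat n).symm⟩

instance : EncDF M Bool := by
  refine ⟨DF.of_graph (P := fun b n => (b = true ∧ n = 1) ∨ (b = false ∧ n = 0)) (by fun_prop)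
    fun b n => ?_⟩
  cases b
  · simp [eq_comm]
  · simp [eq_comm]

instance [Encodable A] [EncDF M A] [Encodable B] [EncDF M B] : EncDF M (A × B) := by
  have h : DF M fun p : A × B => Nat.pair (Encodable.encode p.1) (Encodable.encode p.2) := by
    fun_prop
  exact ⟨h.congr fun p => (Encodable.encode_prod_val p.1 p.2).symm⟩

instance [Encodable A] [EncDF M A] [Encodable B] [EncDF M B] : EncDF M (A ⊕ B) := by
  have h : DF M fun s : A ⊕ B => Sum.elim (fun a => 2 * Encodable.encode a)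
      (fun b => 2 * Encodable.encode b + 1) s :=
    DF.sumElim (g := fun _ a => 2 * Encodable.encode a)
      (h := fun _ b => 2 * Encodable.encode b + 1) DF.id (by fun_prop) (by fun_prop)
  refine ⟨h.congr fun s => ?_⟩
  rcases s with a | b
  · exact (Encodable.encode_inl a).symm
  · exact (Encodable.encode_inr b).symm

instance [Encodable A] [EncDF M A] : EncDF M (Option A) := by
  have h : DF M fun o : Option A => o.elim 0 fun a => Encodable.encode a + 1 := by fun_prop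
  refine ⟨h.congr fun o => ?_⟩
  rcases o with _ | a
  · exact Encodable.encode_none.symm
  · exact (Encodable.encode_some a).symm

instance [Encodable A] [EncDF M A] : EncDF M (List A) := by
  have h : DF M fun l : List A => l.foldr (fun a n => Nat.pair (Encodable.encode a) n + 1) 0 := by
    fun_prop
  refine ⟨h.congr fun l => ?_⟩
  induction l with
  | nil => exact Encodable.encode_list_nil.symm
  | cons a l ih =>
    rw [List.foldr_cons, ih]
    exact (Encodable.encode_list_cons a l).symm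

/-- The set of natural numbers which codes an external function. -/
def gcode {A : Type v₁} {B : Type v₂} [Encodable A] [Encodable B] (f : A → B) : Set ℕ :=
  {n | ∃ a, n = Nat.pair (Encodable.encode a) (Encodable.encode (f a))}

/-- The set of natural numbers which codes an external predicate. -/
def pcode {A : Type v₁} [Encodable A] (P : A → Prop) : Set ℕ := {n | ∃ a, P a ∧ n = Encodable.encode a}

/-- An external function is definable if its code is. -/
theorem DF.of_gcode [Encodable A] [EncDF M A] [Encodable B] [EncDF M B] {f : A → B}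
    (h : DF M fun n : ℕ => n ∈ gcode f) : DF M f := by
  refine DF.of_graph (P := fun a b => Nat.pair (Encodable.encode a) (Encodable.encode b) ∈
    gcode f) (h.comp (f := fun p : A × B => Nat.pair (Encodable.encode p.1)
      (Encodable.encode p.2)) (by fun_prop)) fun a b => ?_
  constructor
  · rintro rfl
    exact ⟨a, rfl⟩
  · rintro ⟨a', h1⟩
    obtain ⟨h2, h3⟩ := Nat.pair_eq_pair.1 h1
    rw [Encodable.encode_injective h2]
    exact (Encodable.encode_injective h3).symm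

/-- An external predicate is definable if its code is. -/
theorem DF.of_pcode [Encodable A] [EncDF M A] {P : A → Prop}
    (h : DF M fun n : ℕ => n ∈ pcode P) : DF M P := by
  have h1 : DF M fun a : A => Encodable.encode a ∈ pcode P :=
    h.comp (f := fun a : A => Encodable.encode a) (by fun_prop)
  refine h1.pcongr fun a => ?_
  constructor
  · rintro ⟨a', h2, h3⟩
    rwa [Encodable.encode_injective h3]
  · exact fun h2 => ⟨a, h2, rfl⟩

end

/-- **Existence of the model.** -/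
theorem exists_zm (P : Type) [Preorder P] [Nonempty P] (A : ℕ → Set ℕ) :
    ∃ (M : Type 1) (_ : ZM M), Countable M ∧
      (∀ φ : SetFormula, (∀ (v : ℕ → Nam P) p, φ.Forces v p) →
        ∀ v : ℕ → M, φ.Holds (ZM.E : M → M → Prop) v) ∧
      ∀ i, DF M fun n : ℕ => n ∈ A i := by
  obtain ⟨M, E, hc, hwf, hZ, hF, nM', h0, hs, hA⟩ := Ctm.exists_ctm' P A
  let inst : ZM M := ⟨E, hZ, hwf⟩
  have hn : ∀ n, nM M n = nM' n := by
    intro n
    induction n with
    | zero =>
      exact MP186633L.ext fun z => ⟨fun h => absurd h (not_mem_nM_zero z), fun h => absurd h (h0 z)⟩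
    | succ n ih =>
      refine MP186633L.ext fun z => mem_nM_succ.trans ?_
      rw [ih]
      exact (hs n z).symm
  refine ⟨M, inst, hc, hF, fun i => ?_⟩
  obtain ⟨m, hm⟩ := hA i
  have h1 : DF M fun n : ℕ => ZM.E (cod M n) m := by fun_prop
  refine h1.pcongr fun n => (hm _).trans ?_
  constructor
  · rintro ⟨n', h2, h3⟩
    rw [← hn n'] at h3
    rwa [nM_inj (h3 : nM M n = nM M n')]
  · intro h2
    exact ⟨n, h2, hn n⟩

end MP186633L
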