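import Pool.Agent.Lib.MP_186633_lc.QG
import Pool.Agent.Lib.MP_186633_lc.QH
import Pool.Agent.Lib.MP_186633_lc.QT
import Pool.Agent.Lib.MP_186633_lc.QU

/-!
# MP_186633_lc, plan A: the telescope group over the reals of `M` as a sort
-/

set_option autoImplicit false

namespace MP186633L

open MP9708F ZM
open FreeGroup (of IsReduced)

universe u v₁ v₂ v₃

/-! ### The external stage function -/

theorem infinite_GT : Infinite GT := by
  refine Infinite.of_injective (fun n : ℕ => (Tel.l _ (Sum.inl ([], n, [])) : GT)) ?_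
  intro n m h
  have h2 : Tel.stage (cc rT rT (Prod.fst : List ℕ × List ℕ → List ℕ) Prod.snd) 0
      (of (Sum.inl (Sum.inl ([], n, [])))) = Tel.stage _ 0
      (of (Sum.inl (Sum.inl ([], m, [])))) := by
    rw [Tel.stage_inl, Tel.stage_inl]
    exact h
  have h3 := FreeGroup.of_injective (Tel.stage_injective _ 0 h2)
  simpa using h3

theorem nonempty_cGT : Nonempty (GT ≃ ℕ) := by
  have := infinite_GT
  obtain ⟨h⟩ := nonempty_denumerable GT
  exact ⟨Denumerable.eqv GT⟩

/-- a numbering of the truncated group -/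
noncomputable def cGT : GT ≃ ℕ := nonempty_cGT.some

/-- the number of the element of the truncated group with a given word at stage `K` -/
noncomputable def stg (K : ℕ) (v : List (LT × Bool)) : ℕ :=
  cGT (Tel.stage _ K (FreeGroup.mk v))

/-- multiplication of the numbers of elements of the truncated group -/
noncomputable def mulT (a b : ℕ) : ℕ := cGT (cGT.symm a * cGT.symm b)

section

variable (M : Type u) [ZM M]

/-- the external stage function belongs to `M` -/
class ExtM : Prop where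
  stg : DF M fun p : ℕ × List (LT × Bool) => stg p.1 p.2

variable {M}

theorem DF.stg [ExtM M] {C : Type v₁} [Srt M C] {f : C → ℕ} {g : C → List (LT × Bool)}
    (hf : DF M f) (hg : DF M g) : DF M fun c => stg (f c) (g c) :=
  (ExtM.stg (M := M)).comp (hf.prodMk hg)

theorem exists_stg (n : ℕ) : ∃ K v, stg K v = n := by
  obtain ⟨K, u, hu⟩ := Tel.exists_stage _ (cGT.symm n)
  refine ⟨K, u.toWord, ?_⟩
  rw [stg, FreeGroup.mk_toWord, hu, Equiv.apply_symm_apply]

theorem exists_stg2 (n m : ℕ) : ∃ K v v', stg K v = n ∧ stg K v' = m := by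
  obtain ⟨K, u, hu⟩ := Tel.exists_stage _ (cGT.symm n)
  obtain ⟨K', u', hu'⟩ := Tel.exists_stage _ (cGT.symm m)
  refine ⟨K + K', (Tel.trn (cc rT rT (Prod.fst : List ℕ × List ℕ → List ℕ) Prod.snd) K K' u).toWord,
    (Tel.trn (cc rT rT (Prod.fst : List ℕ × List ℕ → List ℕ) Prod.snd) K' K u').toWord, ?_, ?_⟩
  · rw [stg, FreeGroup.mk_toWord, Tel.stage_trn, hu, Equiv.apply_symm_apply]
  · rw [stg, FreeGroup.mk_toWord, add_comm, Tel.stage_trn, hu', Equiv.apply_symm_apply]

theorem mulT_stg (K : ℕ) (v v' : List (LT × Bool)) :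
    mulT (stg K v) (stg K v') = stg K (v ++ v') := by
  rw [mulT, stg, stg, stg, Equiv.symm_apply_apply, Equiv.symm_apply_apply, ← map_mul,
    FreeGroup.mul_mk]

@[fun_prop]
theorem DF.mulT [ExtM M] {C : Type v₁} [Srt M C] {f g : C → ℕ} (hf : DF M f) (hg : DF M g) :
    DF M fun c => mulT (f c) (g c) := by
  have h : DF M fun p : ℕ × ℕ => MP186633L.mulT p.1 p.2 := by
    refine DF.of_graph (P := fun p n => ∃ (K : ℕ) (v v' : List (LT × Bool)), MP186633L.stg K v = p.1 ∧
      MP186633L.stg K v' = p.2 ∧ MP186633L.stg K (v ++ v') = n) ?_ fun p n => ?_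
    · refine DF.ex (DF.ex (DF.ex (DF.and (DF.eq (DF.stg ?_ ?_) ?_) (DF.and (DF.eq (DF.stg ?_ ?_) ?_)
        (DF.eq (DF.stg ?_ ?_) ?_))))) <;> fun_prop
    · constructor
      · rintro rfl
        obtain ⟨K, v, v', h1, h2⟩ := exists_stg2 p.1 p.2
        exact ⟨K, v, v', h1, h2, by rw [← h1, ← h2, mulT_stg]⟩
      · rintro ⟨K, v, v', h1, h2, h3⟩
        rw [← h1, ← h2, mulT_stg, h3]
  exact h.comp (hf.prodMk hg)

end

/-! ### The letters over the reals of `M` -/

section

variable {M : Type u} [ZM M] (R : MSet M (Re M × Re M))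

/-- the edges -/
def EdM : Type := {p : Re M × Re M // p ∈ R}

/-- the left endpoint -/
def sM (e : EdM R) : Re M := e.1.1

/-- the right endpoint -/
def tM (e : EdM R) : Re M := e.1.2

/-- the nodes -/
def rM (x : Re M) (k : ℕ) : List ℕ := res x k

/-- the letters and edges -/
abbrev LtM : Type := Let (Re M) (Re M) (List ℕ) ⊕ EdM R

/-- the group -/
abbrev GM : Type := Tel (cc rM rM (sM R) (tM R))

/-- the generators belonging to the letters -/
abbrev lM (i : Let (Re M) (Re M) (List ℕ)) : GM R := Tel.l (cc rM rM (sM R) (tM R)) i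

/-- the generators belonging to the edges -/
abbrev teM (e : EdM R) (k : ℕ) : GM R := Tel.t (cc rM rM (sM R) (tM R)) e k

/-- the element with a given word at stage `K` -/
def stM (K : ℕ) (w : List (LtM R × Bool)) : GM R := Tel.stage _ K (FreeGroup.mk w)

/-- the relation between sequences -/
def rel' (x y : ℕ → ℕ) : Prop := ∃ p ∈ R, p.1.toFun = x ∧ p.2.toFun = y

/-- the inclusion of the letters -/
def iLM : Let (Re M) (Re M) (List ℕ) → Let (ℕ → ℕ) (ℕ → ℕ) (List ℕ) :=
  Sum.map (Prod.map MFun.toFun id) (Prod.map id (Prod.map id MFun.toFun))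

/-- the inclusion of the edges -/
def iEM (e : EdM R) : EdR (rel' R) := ⟨(e.1.1.toFun, e.1.2.toFun), e.1, e.2, rfl, rfl⟩

theorem toFun_injective : Function.Injective (MFun.toFun (M := M) (A := ℕ) (B := ℕ)) :=
  fun _ _ h => MFun.ext fun n => congrFun h n

theorem iLM_injective : Function.Injective (iLM (M := M)) := by
  refine Function.Injective.sumMap ?_ ?_
  · exact Function.Injective.prodMap toFun_injective Function.injective_id
  · exact Function.Injective.prodMap Function.injective_id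
      (Function.Injective.prodMap Function.injective_id toFun_injective)

theorem iEM_injective : Function.Injective (iEM R) := by
  rintro ⟨⟨x, y⟩, h⟩ ⟨⟨x', y'⟩, h'⟩ he
  have h1 := congrArg Subtype.val he
  simp only [iEM, Prod.mk.injEq] at h1
  have h2 : x = x' := toFun_injective h1.1
  have h3 : y = y' := toFun_injective h1.2
  subst h2 h3
  rfl

/-- the inclusion into the group of a relation between sequences -/
def jM : GM R →* GR (rel' R) :=
  Tel.map iLM (iEM R) (by
    intro e k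
    simp [cc, la, lb, iLM, sR, tR, iEM, sM, tM, rM])

theorem jM_injective : Function.Injective (jM R) :=
  Tel.map_injective _ _ _ iLM_injective (iEM_injective R)

theorem jM_stage (k : ℕ) (u : FreeGroup (LtM R)) : jM R (Tel.stage _ k u) =
    Tel.stage _ k (FreeGroup.map (Sum.map iLM (iEM R)) u) :=
  Tel.map_stage _ _ _ _ _

/-- truncation of letters -/
def trAM (m : ℕ) (a : LtM R) : LT := trA (rel' R) m (Sum.map iLM (iEM R) a)

/-- the code of an element, as a function -/
noncomputable def codF (g : GM R) (m : ℕ) : ℕ := cGT (Th (rel' R) (jM R g) m)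

theorem codF_injective : Function.Injective (codF R) := by
  intro g h he
  refine jM_injective R (Th_injective (rel' R) (funext fun m => ?_))
  exact cGT.injective (congrFun he m)

theorem codF_mul (g h : GM R) (m : ℕ) : codF R (g * h) m = mulT (codF R g m) (codF R h m) := by
  rw [codF, codF, codF, mulT, map_mul, map_mul, Equiv.symm_apply_apply, Equiv.symm_apply_apply]
  rfl

theorem codF_stM (K : ℕ) (w : List (LtM R × Bool)) (m : ℕ) :
    codF R (stM R K w) m = stg K (w.map fun a => (trAM R m a.1, a.2)) := by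
  rw [codF, stM]
  have h1 : Th (rel' R) (jM R (Tel.stage _ K (FreeGroup.mk w))) m =
      trG (rel' R) m (jM R (Tel.stage _ K (FreeGroup.mk w))) := rfl
  rw [h1, jM_stage, trG_stage, FreeGroup.map.mk, FreeGroup.map.mk, stg, List.map_map]
  rfl

theorem exists_stM (g : GM R) : ∃ K w, stM R K w = g := by
  classical
  obtain ⟨K, u, hu⟩ := Tel.exists_stage _ g
  exact ⟨K, u.toWord, by rw [stM, FreeGroup.mk_toWord, hu]⟩

noncomputable instance srtEdM : Srt M (EdM R) := srtSubtype R.df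

instance smlEdM : Sml M (EdM R) := sml_subtype R.df

theorem df_valEdM : DF M fun e : EdM R => e.1 := DF.subVal (hP := R.df)

theorem DF.sM {C : Type v₁} [Srt M C] {f : C → EdM R} (hf : DF M f) :
    DF M fun c => sM R (f c) :=
  ((df_valEdM R).comp hf).fst

theorem DF.tM {C : Type v₁} [Srt M C] {f : C → EdM R} (hf : DF M f) :
    DF M fun c => tM R (f c) :=
  ((df_valEdM R).comp hf).snd

theorem DF.trAM {C : Type v₁} [Srt M C] {m : C → ℕ} {a : C → LtM R} (hm : DF M m)
    (ha : DF M a) : DF M fun c => trAM R (m c) (a c) := by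
  have h : DF M fun p : ℕ × LtM R => MP186633L.trAM R p.1 p.2 := by
    have h1 : (fun p : ℕ × LtM R => MP186633L.trAM R p.1 p.2) = fun p : ℕ × LtM R =>
        Sum.elim ((fun (p : ℕ × LtM R) (l : Let (Re M) (Re M) (List ℕ)) =>
          Sum.elim ((fun (q : (ℕ × LtM R) × Let (Re M) (Re M) (List ℕ)) (l : Re M × ℕ × List ℕ) =>
              (Sum.inl (Sum.inl ((List.range q.1.1).map fun i => l.1 i, l.2.1, l.2.2.take q.1.1)) : LT))
              (p, l))
            ((fun (q : (ℕ × LtM R) × Let (Re M) (Re M) (List ℕ)) (l : List ℕ × ℕ × Re M) =>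
              (Sum.inl (Sum.inr (l.1.take q.1.1, l.2.1, (List.range q.1.1).map fun i => l.2.2 i)) : LT))
              (p, l)) l) p)
        ((fun (p : ℕ × LtM R) (e : EdM R) => (Sum.inr ((List.range p.1).map fun i => MP186633L.sM R e i,
          (List.range p.1).map fun i => MP186633L.tM R e i) : LT)) p) p.2 := by
      funext ⟨m, a⟩
      rcases a with (⟨x, k, s⟩ | ⟨s, k, y⟩) | e
      · rfl
      · rfl
      · rfl
    rw [h1]
    refine DF.sumElim (by fun_prop) ?_ ?_
    · refine DF.sumElim (by fun_prop) ?_ ?_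
      · fun_prop
      · fun_prop
    · refine DF.inr (DF.prodMk ?_ ?_)
      · exact DF.rangeMap (f := fun (q : (ℕ × LtM R) × EdM R) i => MP186633L.sM R q.2 i)
          (DF.app (DF.sM R (by fun_prop)) (by fun_prop)) (by fun_prop)
      · exact DF.rangeMap (f := fun (q : (ℕ × LtM R) × EdM R) i => MP186633L.tM R q.2 i)
          (DF.app (DF.tM R (by fun_prop)) (by fun_prop)) (by fun_prop)
  exact h.comp (hm.prodMk ha)

end

/-! ### The sort of the group -/

section

variable {M : Type u} [ZM M] [ExtM M] (R : MSet M (Re M × Re M))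

theorem df_codF2 : DF M fun p : (ℕ × List (LtM R × Bool)) × ℕ => codF R (stM R p.1.1 p.1.2) p.2 := by
  have h : (fun p : (ℕ × List (LtM R × Bool)) × ℕ => codF R (stM R p.1.1 p.1.2) p.2) =
      fun p => stg p.1.1 (p.1.2.map fun a => (trAM R p.2 a.1, a.2)) :=
    funext fun p => codF_stM R p.1.1 p.1.2 p.2
  rw [h]
  refine DF.stg (by fun_prop) ?_
  exact DF.map (f := fun (p : (ℕ × List (LtM R × Bool)) × ℕ) (a : LtM R × Bool) =>
    (trAM R p.2 a.1, a.2)) ((DF.trAM R (by fun_prop) (by fun_prop)).prodMk (by fun_prop))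
      (by fun_prop)

theorem df_codF (g : GM R) : DF M fun m => codF R g m := by
  obtain ⟨K, w, rfl⟩ := exists_stM R g
  exact (df_codF2 R).comp (f := fun m : ℕ => ((K, w), m)) (by fun_prop)

/-- the code of an element -/
noncomputable def codeM (g : GM R) : Re M := ⟨codF R g, df_codF R g⟩

theorem codeM_apply (g : GM R) (m : ℕ) : codeM R g m = codF R g m := rfl

theorem codeM_injective : Function.Injective (codeM R) := fun _ _ he =>
  codF_injective R (congrArg MFun.toFun he)

theorem range_codeM : DF M fun z : Re M => ∃ g, codeM R g = z := by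
  have h : DF M fun z : Re M => ∃ (K : ℕ) (w : List (LtM R × Bool)), ∀ m, codF R (stM R K w) m = z m := by
    have := df_codF2 R
    refine DF.ex (DF.ex (DF.all (DF.eq ?_ ?_)))
    · exact (df_codF2 R).comp (f := fun p : ((Re M × ℕ) × List (LtM R × Bool)) × ℕ =>
        ((p.1.1.2, p.1.2), p.2)) (by fun_prop)
    · fun_prop
  refine h.pcongr fun z => ?_
  constructor
  · rintro ⟨K, w, h⟩
    exact ⟨stM R K w, MFun.ext h⟩
  · rintro ⟨g, rfl⟩
    obtain ⟨K, w, rfl⟩ := exists_stM R g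
    exact ⟨K, w, fun m => rfl⟩

noncomputable instance srtGM : Srt M (GM R) := Srt.sub (codeM R) (codeM_injective R) (range_codeM R)

theorem df_codeM : DF M (codeM R) := DF.sub0

instance smlGM : Sml M (GM R) := Sml.of_inj (codeM_injective R) (df_codeM R)

/-- the value of the code -/
theorem df_codF3 : DF M fun p : GM R × ℕ => codF R p.1 p.2 := by
  have := df_codeM R
  exact DF.app (f := fun p : GM R × ℕ => codeM R p.1) (by fun_prop) (by fun_prop)

theorem DF.of_codF {C : Type v₁} [Srt M C] {f : C → GM R}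
    (h : DF M fun p : C × ℕ => codF R (f p.1) p.2) : DF M f :=
  DF.of_emb (codeM_injective R) (df_codeM R) (DF.lam h)

theorem df_stM : DF M fun p : ℕ × List (LtM R × Bool) => stM R p.1 p.2 :=
  DF.of_codF R (df_codF2 R)

theorem DF.stM {C : Type v₁} [Srt M C] {f : C → ℕ} {g : C → List (LtM R × Bool)}
    (hf : DF M f) (hg : DF M g) : DF M fun c => stM R (f c) (g c) :=
  (df_stM R).comp (hf.prodMk hg)

theorem df_mulGM : DF M fun p : GM R × GM R => p.1 * p.2 := by
  refine DF.of_codF R ?_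
  have h : (fun p : (GM R × GM R) × ℕ => codF R (p.1.1 * p.1.2) p.2) =
      fun p => MP186633L.mulT (codF R p.1.1 p.2) (codF R p.1.2 p.2) :=
    funext fun p => codF_mul R _ _ _
  rw [h]
  have h1 : DF M fun p : (GM R × GM R) × ℕ => codF R p.1.1 p.2 :=
    (df_codF3 R).comp (f := fun p : (GM R × GM R) × ℕ => (p.1.1, p.2)) (by fun_prop)
  have h2 : DF M fun p : (GM R × GM R) × ℕ => codF R p.1.2 p.2 :=
    (df_codF3 R).comp (f := fun p : (GM R × GM R) × ℕ => (p.1.2, p.2)) (by fun_prop)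
  fun_prop

omit [ExtM M] in
theorem stM_l (i : Let (Re M) (Re M) (List ℕ)) :
    stM R 0 [(Sum.inl i, true)] = lM R i := by
  have : FreeGroup.mk [((Sum.inl i : LtM R), true)] = of (Sum.inl i) := rfl
  rw [stM, this, Tel.stage_inl]

omit [ExtM M] in
theorem stM_t (e : EdM R) (k : ℕ) :
    stM R k [(Sum.inr e, true)] = teM R e k := by
  have : FreeGroup.mk [((Sum.inr e : LtM R), true)] = of (Sum.inr e) := rfl
  rw [stM, this, Tel.stage_inr]

theorem DF.lM {C : Type v₁} [Srt M C] {i : C → Let (Re M) (Re M) (List ℕ)} (hi : DF M i) :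
    DF M fun c => lM R (i c) := by
  refine DF.congr (f := fun c => MP186633L.stM R 0 [(Sum.inl (i c), true)]) (DF.stM R (by fun_prop) ?_)
    fun c => stM_l R _
  fun_prop

theorem DF.teM {C : Type v₁} [Srt M C] {e : C → EdM R} {k : C → ℕ} (he : DF M e)
    (hk : DF M k) : DF M fun c => teM R (e c) (k c) := by
  refine DF.congr (f := fun c => MP186633L.stM R (k c) [(Sum.inr (e c), true)]) (DF.stM R (by fun_prop) ?_)
    fun c => stM_t R _ _
  fun_prop

end

end MP186633L

/-!
# MP_186633_lc, plan A: the set of the codes of the elements of the group is Borel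
-/

set_option autoImplicit false

namespace MP186633L

open MP9708F ZM
open FreeGroup (of IsReduced)

universe u v₁

/-! ### Truncation of the truncated group -/

/-- truncation of truncated letters -/
def trcL (m : ℕ) : Let (List ℕ) (List ℕ) (List ℕ) → Let (List ℕ) (List ℕ) (List ℕ) :=
  Sum.map (fun p => (p.1.take m, p.2.1, p.2.2.take m)) fun p => (p.1.take m, p.2.1, p.2.2.take m)

/-- truncation of truncated edges -/
def trcE (m : ℕ) (e : List ℕ × List ℕ) : List ℕ × List ℕ := (e.1.take m, e.2.take m)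

/-- truncation of truncated letters and edges -/
def trc (m : ℕ) : LT → LT := Sum.map (trcL m) (trcE m)

/-- truncation of the truncated group -/
def trcG (m : ℕ) : GT →* GT := Tel.map (trcL m) (trcE m) (by
  intro e k
  simp [cc, la, lb, trcL, trcE, rT, List.take_take, min_comm])

/-- truncation of the numbers of the elements of the truncated group -/
noncomputable def trT (m a : ℕ) : ℕ := cGT (trcG m (cGT.symm a))

theorem trcG_stage (m k : ℕ) (u : FreeGroup LT) :
    trcG m (Tel.stage _ k u) = Tel.stage _ k (FreeGroup.map (trc m) u) :=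
  Tel.map_stage _ _ _ _ _

theorem trT_stg (m K : ℕ) (v : List (LT × Bool)) :
    trT m (stg K v) = stg K (v.map fun a => (trc m a.1, a.2)) := by
  rw [trT, stg, Equiv.symm_apply_apply, trcG_stage, FreeGroup.map.mk]
  rfl

theorem trc_trc {m m' : ℕ} (h : m ≤ m') (a : LT) : trc m (trc m' a) = trc m a := by
  rcases a with (⟨σ, k, s⟩ | ⟨s, k, τ⟩) | ⟨σ, τ⟩ <;>
    simp [trc, trcL, trcE, List.take_take, min_eq_left h]

section

variable {M : Type u} [ZM M] (R : MSet M (Re M × Re M))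

theorem res_length (x : ℕ → ℕ) (m : ℕ) : (res x m).length = m := by simp [res]

theorem take_res_le (x : ℕ → ℕ) {m m' : ℕ} (h : m ≤ m') : (res x m').take m = res x m := by
  rw [take_res, List.take_of_length_le (by rw [res_length]; exact h)]

theorem trc_trAM {m m' : ℕ} (h : m ≤ m') (a : LtM R) :
    trc m (trAM R m' a) = trAM R m a := by
  rcases a with (⟨x, k, s⟩ | ⟨s, k, y⟩) | e
  · simp [trc, trcL, trAM, trA, trL, iLM, take_res_le _ h, List.take_take, min_eq_left h]
  · simp [trc, trcL, trAM, trA, trL, iLM, take_res_le _ h, List.take_take, min_eq_left h]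
  · show (Sum.inr ((res e.1.1 m').take m, (res e.1.2 m').take m) : LT) =
      Sum.inr (res e.1.1 m, res e.1.2 m)
    rw [take_res_le _ h, take_res_le _ h]

theorem trAM_sep {a b : LtM R} (hab : a ≠ b) : ∃ n, ∀ m ≥ n, trAM R m a ≠ trAM R m b :=
  trA_sep (rel' R) fun h => hab ((Function.Injective.sumMap iLM_injective (iEM_injective R)) h)

theorem sml_list0 {A : Type v₁} [Srt M A] [Sml M A] : Sml M (List A) := by
  have h : ∀ L : List A, DF M fun p : ℕ × A => L[p.1]? = some p.2 := fun L => by fun_prop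
  refine Sml.of_inj (e := fun L => MSet.of _ (h L)) ?_ (DF.set ?_)
  · intro L L' he
    refine List.ext_getElem? fun i => Option.ext fun a => ?_
    have h1 : (i, a) ∈ MSet.of _ (h L) ↔ (i, a) ∈ MSet.of _ (h L') := by
      beta_reduce at he
      rw [he]
    exact h1
  · have h2 : DF M fun p : List A × ℕ × A => p.1[p.2.1]? = some p.2.2 := by fun_prop
    exact h2

variable (Dd Ee : ℕ → ℕ → Prop)

/-- `a` is a good truncated letter of level `m` -/
def good (m0 k m : ℕ) (a : LT) : Prop :=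
  Sum.elim (fun l : Let (List ℕ) (List ℕ) (List ℕ) => Sum.elim
      (fun p : List ℕ × ℕ × List ℕ => p.1.length = m ∧ p.2.2.length ≤ m0)
      (fun p : List ℕ × ℕ × List ℕ => p.2.2.length = m ∧ p.1.length ≤ m0) l)
    (fun e : List ℕ × List ℕ => e.1.length = m ∧ e.2.length = m ∧
      (∀ i a b, e.1[i]? = some a → e.1[i + 1]? = some b → Dd a b) ∧
      (∀ i a b, e.2[i]? = some a → e.2[i + 1]? = some b → Dd a b) ∧
      ∀ i a b, k ≤ i → e.1[i]? = some a → e.2[i]? = some b → Ee a b) a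

variable {Dd Ee}

theorem df_good (hD : DF M fun p : ℕ × ℕ => Dd p.1 p.2) (hE : DF M fun p : ℕ × ℕ => Ee p.1 p.2) :
    DF M fun q : (ℕ × ℕ × ℕ) × LT => good Dd Ee q.1.1 q.1.2.1 q.1.2.2 q.2 := by
  refine DF.sumElim (f := fun q : (ℕ × ℕ × ℕ) × LT => q.2)
    (g := fun (q : (ℕ × ℕ × ℕ) × LT) (l : Let (List ℕ) (List ℕ) (List ℕ)) => Sum.elim
      (fun p : List ℕ × ℕ × List ℕ => p.1.length = q.1.2.2 ∧ p.2.2.length ≤ q.1.1)
      (fun p : List ℕ × ℕ × List ℕ => p.2.2.length = q.1.2.2 ∧ p.1.length ≤ q.1.1) l)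
    (h := fun (q : (ℕ × ℕ × ℕ) × LT) (e : List ℕ × List ℕ) => e.1.length = q.1.2.2 ∧
      e.2.length = q.1.2.2 ∧ (∀ i a b, e.1[i]? = some a → e.1[i + 1]? = some b → Dd a b) ∧
      (∀ i a b, e.2[i]? = some a → e.2[i + 1]? = some b → Dd a b) ∧
      ∀ i a b, q.1.2.1 ≤ i → e.1[i]? = some a → e.2[i]? = some b → Ee a b)
    (by fun_prop) ?_ ?_
  · refine DF.sumElim (f := fun q : ((ℕ × ℕ × ℕ) × LT) × Let (List ℕ) (List ℕ) (List ℕ) => q.2)
      (g := fun (q : ((ℕ × ℕ × ℕ) × LT) × Let (List ℕ) (List ℕ) (List ℕ))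
        (p : List ℕ × ℕ × List ℕ) => p.1.length = q.1.1.2.2 ∧ p.2.2.length ≤ q.1.1.1)
      (h := fun (q : ((ℕ × ℕ × ℕ) × LT) × Let (List ℕ) (List ℕ) (List ℕ))
        (p : List ℕ × ℕ × List ℕ) => p.2.2.length = q.1.1.2.2 ∧ p.1.length ≤ q.1.1.1)
      (by fun_prop) (by fun_prop) (by fun_prop)
  · fun_prop

variable (Dd Ee)

/-- `v` is a good word -/
def GW (n m0 k m : ℕ) (v : List (LT × Bool)) : Prop :=
  v.length = n ∧ IsReduced v ∧ ∀ a ∈ v, good Dd Ee m0 k m a.1

/-- the closed condition -/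
def TT (K n m0 k m a b : ℕ) : Prop :=
  a = trT m b ∧ (m0 ≤ m → ∃ v, GW Dd Ee n m0 k m v ∧ stg K v = a)

variable {Dd Ee}

theorem df_GW (hD : DF M fun p : ℕ × ℕ => Dd p.1 p.2) (hE : DF M fun p : ℕ × ℕ => Ee p.1 p.2) :
    DF M fun q : (ℕ × ℕ × ℕ × ℕ) × List (LT × Bool) =>
      GW Dd Ee q.1.1 q.1.2.1 q.1.2.2.1 q.1.2.2.2 q.2 := by
  have h1 := df_good hD hE
  have h2 : DF M fun q : (ℕ × ℕ × ℕ × ℕ) × List (LT × Bool) => IsReduced q.2 :=
    DF.isChain (R := fun (_ : (ℕ × ℕ × ℕ × ℕ) × List (LT × Bool)) (a b : LT × Bool) =>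
      a.1 = b.1 → a.2 = b.2) (by fun_prop) (by fun_prop)
  have h3 : DF M fun q : (ℕ × ℕ × ℕ × ℕ) × List (LT × Bool) =>
      ∀ a ∈ q.2, good Dd Ee q.1.2.1 q.1.2.2.1 q.1.2.2.2 a.1 := by
    refine DF.ballList (P := fun (q : (ℕ × ℕ × ℕ × ℕ) × List (LT × Bool)) (a : LT × Bool) =>
      good Dd Ee q.1.2.1 q.1.2.2.1 q.1.2.2.2 a.1) ?_ (by fun_prop)
    exact h1.comp (f := fun p : ((ℕ × ℕ × ℕ × ℕ) × List (LT × Bool)) × LT × Bool =>
      ((p.1.1.2.1, p.1.1.2.2.1, p.1.1.2.2.2), p.2.1)) (by fun_prop)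
  exact DF.and (by fun_prop) (DF.and h2 h3)

theorem df_trc : DF M fun p : ℕ × LT => trc p.1 p.2 := by
  refine DF.congr (f := fun p : ℕ × LT => Sum.elim
    ((fun (p : ℕ × LT) (l : Let (List ℕ) (List ℕ) (List ℕ)) => Sum.elim
      ((fun (q : (ℕ × LT) × Let (List ℕ) (List ℕ) (List ℕ)) (r : List ℕ × ℕ × List ℕ) =>
        (Sum.inl (Sum.inl (r.1.take q.1.1, r.2.1, r.2.2.take q.1.1)) : LT)) (p, l))
      ((fun (q : (ℕ × LT) × Let (List ℕ) (List ℕ) (List ℕ)) (r : List ℕ × ℕ × List ℕ) =>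
        (Sum.inl (Sum.inr (r.1.take q.1.1, r.2.1, r.2.2.take q.1.1)) : LT)) (p, l)) l) p)
    ((fun (p : ℕ × LT) (e : List ℕ × List ℕ) =>
      (Sum.inr (e.1.take p.1, e.2.take p.1) : LT)) p) p.2) ?_ ?_
  · refine DF.sumElim (by fun_prop) ?_ (by fun_prop)
    exact DF.sumElim (by fun_prop) (by fun_prop) (by fun_prop)
  · rintro ⟨m, a⟩
    rcases a with (⟨σ, k, s⟩ | ⟨s, k, τ⟩) | ⟨σ, τ⟩ <;> rfl

theorem df_trT [ExtM M] : DF M fun p : ℕ × ℕ => trT p.1 p.2 := by
  refine DF.of_graph (P := fun p n => ∃ (K : ℕ) (v : List (LT × Bool)), stg K v = p.2 ∧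
    stg K (v.map fun a => (trc p.1 a.1, a.2)) = n) ?_ fun p n => ?_
  · refine DF.ex (DF.ex (DF.and (DF.eq (DF.stg (by fun_prop) (by fun_prop)) (by fun_prop))
      (DF.eq (DF.stg (by fun_prop) ?_) (by fun_prop))))
    refine DF.map (f := fun (q : (((ℕ × ℕ) × ℕ) × ℕ) × List (LT × Bool)) (a : LT × Bool) =>
      (trc q.1.1.1.1 a.1, a.2)) ?_ (by fun_prop)
    have := df_trc (M := M)
    fun_prop
  · constructor
    · rintro rfl
      obtain ⟨K, v, h⟩ := exists_stg p.2
      exact ⟨K, v, h, by rw [← h, trT_stg]⟩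
    · rintro ⟨K, v, h1, h2⟩
      rw [← h1, trT_stg, h2]

theorem df_TT [ExtM M] (hD : DF M fun p : ℕ × ℕ => Dd p.1 p.2)
    (hE : DF M fun p : ℕ × ℕ => Ee p.1 p.2) :
    DF M fun q : (ℕ × ℕ × ℕ × ℕ) × ℕ × ℕ × ℕ =>
      TT Dd Ee q.1.1 q.1.2.1 q.1.2.2.1 q.1.2.2.2 q.2.1 q.2.2.1 q.2.2.2 := by
  have h1 := df_trT (M := M)
  have h2 := df_GW hD hE
  refine DF.and (by fun_prop) (DF.imp (by fun_prop) (DF.ex (DF.and ?_
    (DF.eq (DF.stg (by fun_prop) (by fun_prop)) (by fun_prop)))))
  exact h2.comp (f := fun p : ((ℕ × ℕ × ℕ × ℕ) × ℕ × ℕ × ℕ) × List (LT × Bool) =>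
    ((p.1.1.2.1, p.1.1.2.2.1, p.1.1.2.2.2, p.1.2.1), p.2)) (by fun_prop)


/-! ### Limits of letters -/

theorem lim_string {S : ℕ → List ℕ} (hS : DF M S) {m0 : ℕ} (h1 : ∀ m, m0 ≤ m → (S m).length = m)
    (h2 : ∀ m m', m0 ≤ m → m ≤ m' → S m = (S m').take m) :
    ∃ x : Re M, ∀ m, m0 ≤ m → S m = res x m := by
  obtain ⟨x, hx, hx'⟩ := exists_choice (P := fun (i a : ℕ) => (S (m0 + i + 1))[i]? = some a)
    (by fun_prop) fun i => by
      have h3 := h1 (m0 + i + 1) (by omega)
      exact ⟨(S (m0 + i + 1))[i]'(by omega), List.getElem?_eq_getElem _⟩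
  refine ⟨⟨x, hx⟩, fun m hm => ?_⟩
  refine List.ext_getElem? fun i => ?_
  rcases lt_or_ge i m with hi | hi
  · have h3 : (res x m)[i]? = some (x i) := res_getElem? x hi
    show (S m)[i]? = (res x m)[i]?
    rw [h3, ← hx' i]
    rcases le_total m (m0 + i + 1) with h4 | h4
    · rw [h2 m (m0 + i + 1) hm h4, List.getElem?_take, if_pos hi]
    · rw [h2 (m0 + i + 1) m (by omega) h4, List.getElem?_take, if_pos (by omega)]
  · rw [List.getElem?_eq_none (by rw [h1 m hm]; exact hi),
      List.getElem?_eq_none (by rw [res_length]; exact hi)]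

/-- the strings of a truncated letter -/
def pL : LT → List ℕ := Sum.elim (fun l : Let (List ℕ) (List ℕ) (List ℕ) => Sum.elim
  (fun p : List ℕ × ℕ × List ℕ => p.1) (fun p : List ℕ × ℕ × List ℕ => p.2.2) l)
  (fun e : List ℕ × List ℕ => e.1)

/-- the second string of a truncated edge -/
def pR : LT → List ℕ := Sum.elim (fun _ : Let (List ℕ) (List ℕ) (List ℕ) => ([] : List ℕ))
  (fun e : List ℕ × List ℕ => e.2)

theorem df_pL : DF M pL := by
  refine DF.sumElim (f := fun a : LT => a)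
    (g := fun (_ : LT) (l : Let (List ℕ) (List ℕ) (List ℕ)) => Sum.elim
      (fun p : List ℕ × ℕ × List ℕ => p.1) (fun p : List ℕ × ℕ × List ℕ => p.2.2) l)
    (h := fun (_ : LT) (e : List ℕ × List ℕ) => e.1) (by fun_prop) ?_ (by fun_prop)
  exact DF.sumElim (f := fun q : LT × Let (List ℕ) (List ℕ) (List ℕ) => q.2)
    (g := fun (_ : LT × Let (List ℕ) (List ℕ) (List ℕ)) (p : List ℕ × ℕ × List ℕ) => p.1)
    (h := fun (_ : LT × Let (List ℕ) (List ℕ) (List ℕ)) (p : List ℕ × ℕ × List ℕ) => p.2.2)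
    (by fun_prop) (by fun_prop) (by fun_prop)

theorem df_pR : DF M pR := by
  exact DF.sumElim (f := fun a : LT => a)
    (g := fun (_ : LT) (_ : Let (List ℕ) (List ℕ) (List ℕ)) => ([] : List ℕ))
    (h := fun (_ : LT) (e : List ℕ × List ℕ) => e.2) (by fun_prop) (by fun_prop) (by fun_prop)

theorem lim_letter (hR : ∀ p : Re M × Re M, p ∈ R ↔ (∀ n, Dd (p.1 n) (p.1 (n + 1))) ∧
      (∀ n, Dd (p.2 n) (p.2 (n + 1))) ∧ ∃ k : ℕ, ∀ n, k ≤ n → Ee (p.1 n) (p.2 n))
    {L : ℕ → LT} (hL : DF M L) {m0 k : ℕ} (h1 : ∀ m, m0 ≤ m → good Dd Ee m0 k m (L m))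
    (h2 : ∀ m, m0 ≤ m → L m = trc m (L (m + 1))) :
    ∃ a : LtM R, ∀ m, m0 ≤ m → trAM R m a = L m := by
  have h3 : ∀ m n, m0 ≤ m → L m = trc m (L (m + n)) := by
    intro m n hm
    induction n with
    | zero => 
      rw [add_zero, h2 m hm, trc_trc le_rfl]
    | succ n ih =>
      rw [ih, h2 (m + n) (by omega), trc_trc (by omega)]
      rfl
  have h3 : ∀ m m', m0 ≤ m → m ≤ m' → L m = trc m (L m') := by
    intro m m' hm hm'
    obtain ⟨n, rfl⟩ := Nat.exists_eq_add_of_le hm'
    exact h3 m n hm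
  have dL := df_pL (M := M)
  have dR := df_pR (M := M)
  rcases hc : L m0 with (⟨σ0, j, s⟩ | ⟨s, j, τ0⟩) | ⟨σ0, τ0⟩
  · have hs : s.length ≤ m0 := by
      have := h1 m0 le_rfl
      rw [hc] at this
      exact this.2
    have h4 : ∀ m, m0 ≤ m → L m = Sum.inl (Sum.inl (pL (L m), j, s)) ∧ (pL (L m)).length = m := by
      intro m hm
      have h5 := h3 m0 m le_rfl hm
      have h6 := h1 m hm
      rw [hc] at h5
      rcases hm' : L m with (⟨σ, j', s'⟩ | ⟨s', j', τ⟩) | ⟨σ, τ⟩
      · rw [hm'] at h5 h6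
        simp only [trc, trcL, Sum.map_inl, Sum.inl.injEq, Prod.mk.injEq] at h5
        have h7 : s'.length ≤ m0 := h6.2
        rw [List.take_of_length_le h7] at h5
        refine ⟨?_, h6.1⟩
        rw [h5.2.1, h5.2.2]
        rfl
      · rw [hm'] at h5
        simp [trc, trcL] at h5
      · rw [hm'] at h5
        simp [trc] at h5
    obtain ⟨x, hx⟩ := lim_string (S := fun m => pL (L m)) (by fun_prop) (fun m hm => (h4 m hm).2)
      (fun m m' hm hm' => by
        have h5 := h3 m m' hm hm'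
        rw [(h4 m hm).1, (h4 m' (by omega)).1] at h5
        simp only [trc, trcL, Sum.map_inl, Sum.inl.injEq, Prod.mk.injEq] at h5
        exact h5.1)
    refine ⟨Sum.inl (Sum.inl (x, j, s)), fun m hm => ?_⟩
    rw [(h4 m hm).1, hx m hm]
    show (Sum.inl (Sum.inl (res x m, j, s.take m)) : LT) = _
    rw [List.take_of_length_le (by omega)]
  · have hs : s.length ≤ m0 := by
      have := h1 m0 le_rfl
      rw [hc] at this
      exact this.2
    have h4 : ∀ m, m0 ≤ m → L m = Sum.inl (Sum.inr (s, j, pL (L m))) ∧ (pL (L m)).length = m := by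
      intro m hm
      have h5 := h3 m0 m le_rfl hm
      have h6 := h1 m hm
      rw [hc] at h5
      rcases hm' : L m with (⟨σ, j', s'⟩ | ⟨s', j', τ⟩) | ⟨σ, τ⟩
      · rw [hm'] at h5
        simp [trc, trcL] at h5
      · rw [hm'] at h5 h6
        simp only [trc, trcL, Sum.map_inl, Sum.map_inr, Sum.inl.injEq, Sum.inr.injEq,
          Prod.mk.injEq] at h5
        have h7 : s'.length ≤ m0 := h6.2
        rw [List.take_of_length_le h7] at h5
        refine ⟨?_, h6.1⟩
        rw [h5.2.1, h5.1]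
        rfl
      · rw [hm'] at h5
        simp [trc] at h5
    obtain ⟨x, hx⟩ := lim_string (S := fun m => pL (L m)) (by fun_prop) (fun m hm => (h4 m hm).2)
      (fun m m' hm hm' => by
        have h5 := h3 m m' hm hm'
        rw [(h4 m hm).1, (h4 m' (by omega)).1] at h5
        simp only [trc, trcL, Sum.map_inl, Sum.map_inr, Sum.inl.injEq, Sum.inr.injEq,
          Prod.mk.injEq] at h5
        exact h5.2.2)
    refine ⟨Sum.inl (Sum.inr (s, j, x)), fun m hm => ?_⟩
    rw [(h4 m hm).1, hx m hm]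
    show (Sum.inl (Sum.inr (s.take m, j, res x m)) : LT) = _
    rw [List.take_of_length_le (by omega)]
  · have h4 : ∀ m, m0 ≤ m → L m = Sum.inr (pL (L m), pR (L m)) ∧ (pL (L m)).length = m ∧
        (pR (L m)).length = m := by
      intro m hm
      have h5 := h3 m0 m le_rfl hm
      have h6 := h1 m hm
      rw [hc] at h5
      rcases hm' : L m with (⟨σ, j', s'⟩ | ⟨s', j', τ⟩) | ⟨σ, τ⟩
      · rw [hm'] at h5
        simp [trc] at h5
      · rw [hm'] at h5
        simp [trc] at h5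
      · rw [hm'] at h6
        exact ⟨rfl, h6.1, h6.2.1⟩
    have h5 : ∀ m m', m0 ≤ m → m ≤ m' → pL (L m) = (pL (L m')).take m ∧
        pR (L m) = (pR (L m')).take m := by
      intro m m' hm hm'
      have h5 := h3 m m' hm hm'
      rw [(h4 m hm).1, (h4 m' (by omega)).1] at h5
      simp only [trc, trcE, Sum.map_inr, Sum.inr.injEq, Prod.mk.injEq] at h5
      exact h5
    obtain ⟨x, hx⟩ := lim_string (S := fun m => pL (L m)) (by fun_prop) (fun m hm => (h4 m hm).2.1)
      (fun m m' hm hm' => (h5 m m' hm hm').1)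
    obtain ⟨y, hy⟩ := lim_string (S := fun m => pR (L m)) (by fun_prop) (fun m hm => (h4 m hm).2.2)
      (fun m m' hm hm' => (h5 m m' hm hm').2)
    have h6 : ∀ m, m0 ≤ m → L m = Sum.inr (res x m, res y m) := by
      intro m hm
      rw [(h4 m hm).1, hx m hm, hy m hm]
    have h7 : (x, y) ∈ R := by
      rw [hR]
      refine ⟨fun n => ?_, fun n => ?_, k, fun n hn => ?_⟩
      · have h8 := h1 (m0 + n + 2) (by omega)
        rw [h6 _ (by omega)] at h8
        exact h8.2.2.1 n _ _ (res_getElem? x (by omega)) (res_getElem? x (by omega))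
      · have h8 := h1 (m0 + n + 2) (by omega)
        rw [h6 _ (by omega)] at h8
        exact h8.2.2.2.1 n _ _ (res_getElem? y (by omega)) (res_getElem? y (by omega))
      · have h8 := h1 (m0 + n + 2) (by omega)
        rw [h6 _ (by omega)] at h8
        exact h8.2.2.2.2 n _ _ hn (res_getElem? x (by omega)) (res_getElem? y (by omega))
    refine ⟨Sum.inr ⟨(x, y), h7⟩, fun m hm => ?_⟩
    rw [h6 m hm]
    rfl


/-! ### The description of the codes -/

theorem codF_trT (g : GM R) (m : ℕ) : codF R g m = trT m (codF R g (m + 1)) := by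
  obtain ⟨K, w, rfl⟩ := exists_stM R g
  rw [codF_stM, codF_stM, trT_stg, List.map_map]
  congr 1
  refine List.map_congr_left fun a _ => ?_
  show _ = (trc m (trAM R (m + 1) a.1), a.2)
  rw [trc_trAM R (by omega)]

theorem eq_of_stg {K : ℕ} {v v' : List (LT × Bool)} (hv : IsReduced v)
    (hl : v'.length = v.length) (h : stg K v = stg K v') : v = v' := by
  classical
  have h1 : FreeGroup.mk v = FreeGroup.mk v' :=
    Tel.stage_injective _ K (cGT.injective h)
  have h2 := congrArg FreeGroup.toWord h1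
  rw [FreeGroup.toWord_mk, FreeGroup.toWord_mk, hv.reduce_eq] at h2
  have h3 : (FreeGroup.reduce v').Sublist v' := FreeGroup.Red.sublist FreeGroup.reduce.red
  rw [← h2] at h3
  exact h3.eq_of_length hl.symm

theorem exists_of_TT [ExtM M] (hD : DF M fun p : ℕ × ℕ => Dd p.1 p.2)
    (hE : DF M fun p : ℕ × ℕ => Ee p.1 p.2)
    (hR : ∀ p : Re M × Re M, p ∈ R ↔ (∀ n, Dd (p.1 n) (p.1 (n + 1))) ∧
      (∀ n, Dd (p.2 n) (p.2 (n + 1))) ∧ ∃ k : ℕ, ∀ n, k ≤ n → Ee (p.1 n) (p.2 n))
    {z : Re M} {K n m0 k : ℕ} (h : ∀ m, TT Dd Ee K n m0 k m (z m) (z (m + 1))) :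
    ∃ g, codeM R g = z := by
  have hsm0 : Sml M (List ℕ) := sml_list0
  have hsm : Sml M (List (LT × Bool)) := sml_list0
  have hGW := df_GW hD hE
  obtain ⟨v, hv, hv'⟩ := exists_choice (M := M) (A := ℕ) (B := List (LT × Bool))
    (P := fun m v => m0 ≤ m → GW Dd Ee n m0 k m v ∧ stg K v = z m) (by
      refine DF.imp (by fun_prop) (DF.and ?_ (DF.eq (DF.stg (by fun_prop) (by fun_prop))
        (by fun_prop)))
      exact hGW.comp (f := fun p : ℕ × List (LT × Bool) => ((n, m0, k, p.1), p.2))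
        (by fun_prop)) fun m => by
      by_cases hm : m0 ≤ m
      · obtain ⟨v, hv⟩ := (h m).2 hm
        exact ⟨v, fun _ => hv⟩
      · exact ⟨[], fun h => absurd h hm⟩
  have hcomp : ∀ m, m0 ≤ m → v m = (v (m + 1)).map fun a => (trc m a.1, a.2) := by
    intro m hm
    obtain ⟨h1, h2⟩ := hv' m hm
    obtain ⟨h3, h4⟩ := hv' (m + 1) (by omega)
    refine eq_of_stg h1.2.1 (by rw [List.length_map, h3.1, h1.1]) (K := K) ?_
    rw [h2, ← trT_stg, h4]
    exact (h m).1
  have hp : ∀ p, p < n → ∃ b : LtM R × Bool, ∀ m, m0 ≤ m →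
      (v m)[p]? = some (trAM R m b.1, b.2) := by
    intro p hp
    obtain ⟨L, hL, hL'⟩ := exists_choice (M := M) (A := ℕ) (B := LT × Bool)
      (P := fun m a => m0 ≤ m → (v m)[p]? = some a) (by fun_prop) fun m => by
        by_cases hm : m0 ≤ m
        · have h1 := (hv' m hm).1.1
          exact ⟨(v m)[p]'(by omega), fun _ => List.getElem?_eq_getElem _⟩
        · exact ⟨(Sum.inr ([], []), true), fun h => absurd h hm⟩
    have h1 : ∀ m, m0 ≤ m → L m = (trc m (L (m + 1)).1, (L (m + 1)).2) := by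
      intro m hm
      have h2 := hL' m hm
      rw [hcomp m hm, List.getElem?_map, hL' (m + 1) (by omega)] at h2
      simpa using h2.symm
    have h2 : ∀ m, m0 ≤ m → (L m).2 = (L m0).2 := by
      intro m hm
      induction m, hm using Nat.le_induction with
      | base => rfl
      | succ m hm ih =>
        rw [← ih, h1 m hm]
    obtain ⟨a, ha⟩ := lim_letter R hR (L := fun m => (L m).1) (by fun_prop) (m0 := m0) (k := k)
      (fun m hm => (hv' m hm).1.2.2 _ (List.mem_of_getElem? (hL' m hm)))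
      (fun m hm => by rw [h1 m hm])
    refine ⟨(a, (L m0).2), fun m hm => ?_⟩
    rw [hL' m hm]
    refine congrArg some (Prod.ext ?_ (h2 m hm))
    exact (ha m hm).symm
  choose b hb using fun p : Fin n => hp p.1 p.2
  let w : List (LtM R × Bool) := List.ofFn b
  have hw : ∀ m, m0 ≤ m → v m = w.map fun a => (trAM R m a.1, a.2) := by
    intro m hm
    refine List.ext_getElem? fun i => ?_
    rcases lt_or_ge i n with hi | hi
    · rw [hb ⟨i, hi⟩ m hm, List.getElem?_map, List.getElem?_ofFn, dif_pos hi]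
      rfl
    · rw [List.getElem?_eq_none (by rw [(hv' m hm).1.1]; exact hi),
        List.getElem?_eq_none (by simp [w, hi])]
  refine ⟨stM R K w, MFun.ext fun m => ?_⟩
  show codF R (stM R K w) m = z m
  have key : ∀ d m, m0 ≤ m + d → codF R (stM R K w) m = z m := by
    intro d
    induction d with
    | zero =>
      intro m hm
      rw [codF_stM, ← hw m hm, (hv' m hm).2]
    | succ d ih =>
      intro m hm
      rw [codF_trT, ih (m + 1) (by omega)]
      exact (h m).1.symm
  exact key m0 m (by omega)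

theorem exists_bound_list {α : Type} {P : α → ℕ → Prop} (L : List α)
    (h : ∀ a ∈ L, ∃ k, ∀ k', k ≤ k' → P a k') : ∃ k, ∀ k', k ≤ k' → ∀ a ∈ L, P a k' := by
  induction L with
  | nil => exact ⟨0, fun _ _ a ha => absurd ha (by simp)⟩
  | cons a L ih =>
    obtain ⟨k1, h1⟩ := h a (by simp)
    obtain ⟨k2, h2⟩ := ih fun b hb => h b (by simp [hb])
    refine ⟨max k1 k2, fun k' hk' b hb => ?_⟩
    rcases List.mem_cons.1 hb with rfl | hb
    · exact h1 k' (le_trans (le_max_left _ _) hk')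
    · exact h2 k' (le_trans (le_max_right _ _) hk') b hb

theorem exists_TT (hR : ∀ p : Re M × Re M, p ∈ R ↔ (∀ n, Dd (p.1 n) (p.1 (n + 1))) ∧
      (∀ n, Dd (p.2 n) (p.2 (n + 1))) ∧ ∃ k : ℕ, ∀ n, k ≤ n → Ee (p.1 n) (p.2 n))
    (g : GM R) : ∃ K n m0 k : ℕ, ∀ m, TT Dd Ee K n m0 k m (codF R g m) (codF R g (m + 1)) := by
  classical
  obtain ⟨K, u, rfl⟩ := Tel.exists_stage _ g
  obtain ⟨N, hN⟩ := exists_sep_list (trAM R) (fun a b hab => trAM_sep R hab)
    (u.toWord.map Prod.fst)
  -- the nodes of the letters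
  obtain ⟨m1, hm1⟩ := exists_bound_list (α := LtM R × Bool) (P := fun a m0 =>
    ∀ l, a.1 = Sum.inl l → (∀ x j s, l = Sum.inl (x, j, s) → s.length ≤ m0) ∧
      ∀ x j s, l = Sum.inr (s, j, x) → s.length ≤ m0) u.toWord (by
    rintro ⟨(⟨x, j, s⟩ | ⟨s, j, y⟩) | e, ε⟩ -
    · refine ⟨s.length, fun k' hk' l hl => ?_⟩
      obtain rfl := Sum.inl_injective hl
      refine ⟨fun x' j' s' h => ?_, fun x' j' s' h => by simp at h⟩
      simp only [Sum.inl.injEq, Prod.mk.injEq] at h
      rw [← h.2.2]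
      exact hk'
    · refine ⟨s.length, fun k' hk' l hl => ?_⟩
      obtain rfl := Sum.inl_injective hl
      refine ⟨fun x' j' s' h => by simp at h, fun x' j' s' h => ?_⟩
      simp only [Sum.inr.injEq, Prod.mk.injEq] at h
      rw [← h.1]
      exact hk'
    · exact ⟨0, fun k' _ l hl => by simp at hl⟩)
  obtain ⟨k1, hk1⟩ := exists_bound_list (α := LtM R × Bool) (P := fun a k =>
    ∀ e : EdM R, a.1 = Sum.inr e → ∀ n, k ≤ n → Ee (e.1.1 n) (e.1.2 n)) u.toWord (by
    rintro ⟨l | e, ε⟩ -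
    · exact ⟨0, fun k' _ e hl => by simp at hl⟩
    · obtain ⟨k, hk⟩ := ((hR e.1).1 e.2).2.2
      refine ⟨k, fun k' hk' e' he' n hn => ?_⟩
      obtain rfl := Sum.inr_injective he'
      exact hk n (le_trans hk' hn))
  have hcod : ∀ m, codF R (Tel.stage _ K u) m =
      stg K (u.toWord.map fun a => (trAM R m a.1, a.2)) := by
    intro m
    rw [← codF_stM, stM, FreeGroup.mk_toWord]
  refine ⟨K, u.toWord.length, N + m1, k1, fun m => ⟨codF_trT R _ m, fun hm => ?_⟩⟩
  refine ⟨u.toWord.map fun a => (trAM R m a.1, a.2), ⟨List.length_map _, ?_, ?_⟩, (hcod m).symm⟩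
  · refine isReduced_map_of_injOn FreeGroup.isReduced_toWord _ fun a ha b hb hab => ?_
    exact hN m (by omega) a.1 (List.mem_map_of_mem ha) b.1 (List.mem_map_of_mem hb) hab
  · intro a ha
    obtain ⟨b, hb, rfl⟩ := List.mem_map.1 ha
    have h1 := hm1 (N + m1) (by omega) b hb
    have h2 := hk1 k1 le_rfl b hb
    obtain ⟨(⟨x, j, s⟩ | ⟨s, j, y⟩) | e, ε⟩ := b
    · refine ⟨res_length _ _, ?_⟩
      exact le_trans (List.length_take_le' _ _) ((h1 _ rfl).1 _ _ _ rfl)
    · refine ⟨res_length _ _, ?_⟩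
      exact le_trans (List.length_take_le' _ _) ((h1 _ rfl).2 _ _ _ rfl)
    · have h3 := (hR e.1).1 e.2
      have h2 := h2 e rfl
      have aux : ∀ (x : ℕ → ℕ) (i a : ℕ), (res x m)[i]? = some a → x i = a := by
        intro x i a h
        have hi : i < m := by
          by_contra hi
          rw [List.getElem?_eq_none (by rw [res_length]; omega)] at h
          simp at h
        rw [res_getElem? x hi] at h
        exact Option.some.inj h
      refine ⟨res_length _ _, res_length _ _, fun i a b ha hb => ?_, fun i a b ha hb => ?_,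
        fun i a b hi ha hb => ?_⟩
      · have e1 := aux _ _ _ ha
        have e2 := aux _ _ _ hb
        rw [← e1, ← e2]
        exact h3.1 i
      · have e1 := aux _ _ _ ha
        have e2 := aux _ _ _ hb
        rw [← e1, ← e2]
        exact h3.2.1 i
      · have e1 := aux _ _ _ ha
        have e2 := aux _ _ _ hb
        rw [← e1, ← e2]
        exact h2 i hi

/-- the set of the codes is Borel in `M` -/
theorem bor_D [ExtM M] (hD : DF M fun p : ℕ × ℕ => Dd p.1 p.2)
    (hE : DF M fun p : ℕ × ℕ => Ee p.1 p.2)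
    (hR : ∀ p : Re M × Re M, p ∈ R ↔ (∀ n, Dd (p.1 n) (p.1 (n + 1))) ∧
      (∀ n, Dd (p.2 n) (p.2 (n + 1))) ∧ ∃ k : ℕ, ∀ n, k ≤ n → Ee (p.1 n) (p.2 n)) :
    Bor M bRe fun z : Re M => ∃ g, codeM R g = z := by
  have hT := df_TT hD hE
  have h : Bor M bRe fun z : Re M => ∃ K n m0 k : ℕ, ∀ m, TT Dd Ee K n m0 k m (z m) (z (m + 1)) := by
    refine Bor.exN (P := fun K (z : Re M) => ∃ n m0 k : ℕ, ∀ m,
      TT Dd Ee K n m0 k m (z m) (z (m + 1))) ?_ fun K => ?_
    · refine DF.ex (DF.ex (DF.ex (DF.all ?_)))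
      exact hT.comp (f := fun p : ((((ℕ × Re M) × ℕ) × ℕ) × ℕ) × ℕ =>
        ((p.1.1.1.1.1, p.1.1.1.2, p.1.1.2, p.1.2), p.2, p.1.1.1.1.2 p.2,
          p.1.1.1.1.2 (p.2 + 1))) (by fun_prop)
    refine Bor.exN (P := fun n (z : Re M) => ∃ m0 k : ℕ, ∀ m,
      TT Dd Ee K n m0 k m (z m) (z (m + 1))) ?_ fun n => ?_
    · refine DF.ex (DF.ex (DF.all ?_))
      exact hT.comp (f := fun p : (((ℕ × Re M) × ℕ) × ℕ) × ℕ =>
        ((K, p.1.1.1.1, p.1.1.2, p.1.2), p.2, p.1.1.1.2 p.2,
          p.1.1.1.2 (p.2 + 1))) (by fun_prop)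
    refine Bor.exN (P := fun m0 (z : Re M) => ∃ k : ℕ, ∀ m,
      TT Dd Ee K n m0 k m (z m) (z (m + 1))) ?_ fun m0 => ?_
    · refine DF.ex (DF.all ?_)
      exact hT.comp (f := fun p : ((ℕ × Re M) × ℕ) × ℕ =>
        ((K, n, p.1.1.1, p.1.2), p.2, p.1.1.2 p.2, p.1.1.2 (p.2 + 1))) (by fun_prop)
    refine Bor.exN (P := fun k (z : Re M) => ∀ m,
      TT Dd Ee K n m0 k m (z m) (z (m + 1))) ?_ fun k => ?_
    · refine DF.all ?_
      exact hT.comp (f := fun p : (ℕ × Re M) × ℕ =>
        ((K, n, m0, p.1.1), p.2, p.1.2 p.2, p.1.2 (p.2 + 1))) (by fun_prop)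
    refine Bor.allN (P := fun m (z : Re M) =>
      TT Dd Ee K n m0 k m (z m) (z (m + 1))) ?_ fun m => ?_
    · exact hT.comp (f := fun p : ℕ × Re M =>
        ((K, n, m0, k), p.1, p.2 p.1, p.2 (p.1 + 1))) (by fun_prop)
    refine Bor.rel2 (BorR.id.app' m) (BorR.id.app' (m + 1))
      (r := fun a b => TT Dd Ee K n m0 k m a b) ?_
    exact hT.comp (f := fun p : ℕ × ℕ => ((K, n, m0, k), m, p.1, p.2)) (by fun_prop)
  refine h.congr fun z => ?_
  constructor
  · rintro ⟨K, n, m0, k, h1⟩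
    exact exists_of_TT R hD hE hR h1
  · rintro ⟨g, rfl⟩
    exact exists_TT R hR g


/-! ### The continuous injection of the reals into the set of the codes -/

theorem res_succ (x : ℕ → ℕ) (m : ℕ) : res x (m + 1) = res x m ++ [x m] := by
  simp [res, List.range_succ]

theorem bor_res (m : ℕ) : ∀ {P : List ℕ → Prop}, DF M P → Bor M bRe fun x : Re M => P (res x m) := by
  induction m with
  | zero =>
    intro P _
    exact (Bor.const (bRe_df (M := M) (0, 0)) (P [])).congr fun x => Iff.rfl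
  | succ m ih =>
    intro P hP
    have h : Bor M bRe fun x : Re M => ∃ a, x m = a ∧ P (res x m ++ [a]) := by
      refine Bor.exN (P := fun a (x : Re M) => x m = a ∧ P (res x m ++ [a])) ?_ fun a => ?_
      · have h1 : DF M fun p : ℕ × Re M => res p.2 m := by
          unfold res
          fun_prop
        fun_prop
      · exact (BorR.id.bor m a).and (ih (P := fun s => P (s ++ [a])) (by fun_prop))
    refine h.congr fun x => ?_
    rw [res_succ]
    simp

/-- the number of the letter of a string -/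
noncomputable def lst (σ : List ℕ) : ℕ := stg 0 [((Sum.inl (Sum.inl (σ, 0, [])) : LT), true)]

theorem lst_injective : Function.Injective lst := by
  intro σ τ h
  have h1 := Tel.stage_injective _ 0 (cGT.injective h)
  have h2 := FreeGroup.of_injective h1
  simpa using h2

theorem df_lst [ExtM M] : DF M lst := DF.stg (by fun_prop) (by fun_prop)

/-- the code of the letter of `x` -/
noncomputable def gamR [ExtM M] (x : Re M) : Re M := codeM R (lM R (Sum.inl (x, 0, [])))

theorem gamR_apply [ExtM M] (x : Re M) (m : ℕ) : gamR R x m = lst (res x m) := by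
  show codF R (lM R (Sum.inl (x, 0, []))) m = _
  rw [← stM_l, codF_stM]
  show stg 0 [((Sum.inl (Sum.inl (res x m, 0, List.take m [])) : LT), true)] = _
  rw [List.take_nil]
  rfl

theorem borR_gam [ExtM M] : BorR bRe (gamR R) := by
  have hl := df_lst (M := M)
  refine ⟨(df_codeM R).comp (DF.lM R (by fun_prop)), fun m k => ?_⟩
  refine (bor_res m (P := fun σ => lst σ = k) (by fun_prop)).congr fun x => ?_
  rw [gamR_apply]

theorem exists_inv [ExtM M] : ∃ v : Re M → Re M, BorR bRe v ∧ ∀ x, v (gamR R x) = x := by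
  have hl := df_lst (M := M)
  obtain ⟨h, hh, hh'⟩ := exists_choice' (M := M) (A := ℕ × ℕ) (B := ℕ)
    (P := fun p a => ∃ σ : List ℕ, lst σ = p.2 ∧ σ[p.1]? = some a) (by fun_prop)
  have h1 : ∀ z : Re M, DF M fun i => h (i, z (i + 1)) := fun z => by fun_prop
  refine ⟨fun z => ⟨_, h1 z⟩, ?_, fun x => MFun.ext fun i => ?_⟩
  · refine BorR.of_coord ?_ fun i => ?_
    · have h2 : DF M fun p : Re M × ℕ => h (p.2, p.1 (p.2 + 1)) := by fun_prop
      exact h2
    · exact (BorR.id.app' (i + 1)).comp1 (r := fun n => h (i, n)) (by fun_prop)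
  · show h (i, gamR R x (i + 1)) = x i
    rw [gamR_apply]
    obtain ⟨σ, h2, h3⟩ := hh' (i, lst (res x (i + 1)))
      ⟨x i, res x (i + 1), rfl, res_getElem? x (by omega)⟩
    rw [lst_injective h2] at h3
    have h4 := res_getElem? x (k := i + 1) (n := i) (by omega)
    rw [h4] at h3
    exact (Option.some.inj h3).symm

end

end MP186633L

/-!
# MP_186633_lc, plan A: a few more facts about sorts
-/

set_option autoImplicit false

namespace MP186633L

open MP9708F ZM

universe u v₁ v₂ v₃ v₄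

section

variable {M : Type u} [ZM M]
variable {A : Type v₁} [Srt M A] {B : Type v₂} [Srt M B] {C : Type v₃} [Srt M C]

@[fun_prop] theorem df_sInf {P : C → ℕ → Prop} (h : DF M fun p : C × ℕ => P p.1 p.2) :
    DF M fun c => sInf {n | P c n} := by
  refine DF.of_graph (P := fun c n => (P c n ∧ ∀ k : ℕ, k < n → ¬ P c k) ∨
    ((¬ ∃ k : ℕ, P c k) ∧ n = 0)) (by fun_prop) fun c n => ?_
  by_cases hne : ∃ k : ℕ, P c k
  · have h1 : P c (sInf {n | P c n}) := Nat.sInf_mem (s := {n | P c n}) hne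
    constructor
    · rintro rfl
      exact Or.inl ⟨h1, fun k hk hPk => absurd (Nat.sInf_le (s := {n | P c n}) hPk) (by omega)⟩
    · rintro (⟨h2, h3⟩ | ⟨h2, -⟩)
      · have h4 : sInf {n | P c n} ≤ n := Nat.sInf_le (s := {n | P c n}) h2
        by_contra h5
        exact h3 _ (by omega) h1
      · exact absurd hne h2
  · have h1 : sInf {n | P c n} = 0 := by
      rw [Nat.sInf_eq_zero]
      right
      ext k
      exact ⟨fun h => absurd ⟨k, h⟩ hne, fun h => absurd h (Set.notMem_empty k)⟩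
    rw [h1]
    constructor
    · rintro rfl
      exact Or.inr ⟨hne, rfl⟩
    · rintro (⟨h2, -⟩ | ⟨-, h2⟩)
      · exact absurd ⟨n, h2⟩ hne
      · exact h2.symm

instance smlList [Sml M A] : Sml M (List A) := by
  refine Sml.of_inj (B := MSet M (ℕ × A))
    (e := fun l => MSet.of (fun p : ℕ × A => l[p.1]? = some p.2) (by fun_prop)) ?_ ?_
  · intro l l' h
    refine List.ext_getElem? fun i => ?_
    have h1 : ∀ a, l[i]? = some a ↔ l'[i]? = some a := by
      intro a
      have h2 : (i, a) ∈ MSet.of (M := M) (fun p : ℕ × A => l[p.1]? = some p.2) (by fun_prop) ↔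
          (i, a) ∈ MSet.of (M := M) (fun p : ℕ × A => l'[p.1]? = some p.2) (by fun_prop) := by
        beta_reduce at h
        rw [h]
      exact h2
    exact Option.ext h1
  · refine DF.set ?_
    have h : DF M fun p : List A × ℕ × A => p.1[p.2.1]? = some p.2.2 := by fun_prop
    exact h

/-! ### Products of words -/

section lprod

variable {G : Type} [Group G] [Srt M G] [SGrp M G]

@[fun_prop] theorem df_lval {f : C → G × Bool} (hf : DF M f) : DF M fun c => lval (f c) := by
  unfold lval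
  exact DF.ite (by fun_prop) (by fun_prop) (by fun_prop)

/-- the value of an optional letter -/
def olval (o : Option (G × Bool)) : G := (o.map lval).getD 1

omit [Srt M G] [SGrp M G] in
theorem olval_eq (o : Option (G × Bool)) (g : G) : olval o = g ↔
    (o = none ∧ g = 1) ∨ ∃ x, o = some x ∧ g = lval x := by
  cases o with
  | none => simp [olval, eq_comm]
  | some x => simp [olval, eq_comm]

@[fun_prop] theorem df_olval {f : C → Option (G × Bool)} (hf : DF M f) :
    DF M fun c => olval (f c) := by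
  have h : DF M fun o : Option (G × Bool) => olval o :=
    DF.of_graph (P := fun o g => (o = none ∧ g = 1) ∨ ∃ x, o = some x ∧ g = lval x)
      (by fun_prop) olval_eq
  exact h.comp hf

omit [Srt M G] [SGrp M G] in
theorem rec_take (l : List (G × Bool)) (n : ℕ) :
    (Nat.rec 1 (fun k x => x * olval l[k]?) n : G) = lprod (l.take n) := by
  induction n with
  | zero => simp [lprod]
  | succ n ih =>
    show (Nat.rec 1 (fun k x => x * olval l[k]?) n : G) * olval l[n]? = _
    rw [ih, List.take_add_one]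
    cases h : l[n]? with
    | none => simp [olval]
    | some x => simp [olval, lprod]

@[fun_prop] theorem df_lprod {l : C → List (G × Bool)} (hl : DF M l) :
    DF M fun c => lprod (l c) := by
  have h1 := DF.natRec (M := M) (C := List (G × Bool)) (A := G) (f := fun _ => 1)
    (g := fun l k x => x * olval l[k]?) (by fun_prop) (by fun_prop)
  have h2 : DF M fun l : List (G × Bool) => lprod l := by
    refine (h1.comp (f := fun l : List (G × Bool) => (l, l.length)) (by fun_prop)).congr fun l => ?_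
    show (Nat.rec 1 (fun k x => x * olval l[k]?) l.length : G) = _
    rw [rec_take, List.take_length]
  exact h2.comp hl

end lprod

end

end MP186633L

/-!
# Plan A: small subgroups are free (in the sort language)
-/

set_option autoImplicit false

namespace MP186633L

open ZM

universe u

section

variable {M : Type u} [ZM M]

theorem large_transfer {A B : Type} [Srt M A] [Srt M B] [Sml M A] [Sml M B] [Nonempty B]
    {σ : B → List A} (hσ : DF M σ) {Z : MSet M A} {H : MSet M B}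
    (hZ : ∀ z ∈ Z, ∃ h ∈ H, ∃ i : ℕ, (σ h)[i]? = some z) (hL : LargeS M Z) : LargeS M H := by
  obtain ⟨q, hq, hq'⟩ := hL
  obtain ⟨f, hf, hf'⟩ := exists_choice (M := M)
    (P := fun (a : A) (b : B) => a ∈ Z → b ∈ H ∧ ∃ i : ℕ, (σ b)[i]? = some a)
    (by fun_prop) (by
      intro a
      by_cases ha : a ∈ Z
      · obtain ⟨h, hh, hi⟩ := hZ a ha
        exact ⟨h, fun _ => ⟨hh, hi⟩⟩
      · exact ⟨Classical.arbitrary B, fun h => absurd h ha⟩)
  refine ⟨MSet.of (fun x : ℕ × B => ∃ a, (x.1, a) ∈ q ∧ f a = x.2) (by fun_prop),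
    ?_, ?_⟩
  · rintro n z hz
    obtain ⟨a, ha, rfl⟩ := hz
    exact (hf' a (hq n a ha)).1
  · rintro n ⟨F', hF1, hF2⟩
    refine hq' n ⟨MSet.of (fun x : (A × ℕ) × A => ∃ g, ((f x.1.1, (Nat.unpair x.1.2).1), g) ∈ F' ∧
      (σ g)[(Nat.unpair x.1.2).2]? = some x.2) (by fun_prop), ?_, ?_⟩
    · intro x b b' hb hb'
      obtain ⟨g, hg, hg2⟩ := hb
      obtain ⟨g', hg', hg2'⟩ := hb'
      have h1 := hF1 _ _ _ hg hg'
      subst h1
      have h2 := hg2.symm.trans hg2'
      exact Option.some.inj h2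
    · intro b hb
      obtain ⟨x, i, hx, hF⟩ := hF2 (f b) (by
        exact ⟨b, hb, rfl⟩)
      obtain ⟨a, ha, hfa⟩ := hx
      obtain ⟨j, hj⟩ := (hf' b (hq _ b hb)).2
      refine ⟨a, Nat.pair i j, ha, ?_⟩
      refine ⟨f b, ?_, ?_⟩
      · simp only [Nat.unpair_pair]
        have hfa : f a = x := hfa
        rw [hfa]
        exact hF
      · simp only [Nat.unpair_pair]
        exact hj


/-! ### The group -/

section tel

variable {V T Ed : Type} [Srt M V] [Srt M T] [Srt M Ed]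

/-- everything about the telescope group is definable -/
structure TelDF (M : Type u) [ZM M] {V T Ed : Type} [Srt M V] [Srt M T] [Srt M Ed]
    (rV : V → ℕ → T) (src tgt : Ed → V) [Srt M (Tel (cc rV rV src tgt))] : Prop where
  grp : SGrp M (Tel (cc rV rV src tgt))
  dsrc : DF M src
  dtgt : DF M tgt
  drV : DF M fun p : V × ℕ => rV p.1 p.2
  ll : DF (B := Tel (cc rV rV src tgt)) M fun p : V × ℕ × T => Tel.l _ (Sum.inl p)
  lr : DF (B := Tel (cc rV rV src tgt)) M fun p : T × ℕ × V => Tel.l _ (Sum.inr p)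
  tt : DF (B := Tel (cc rV rV src tgt)) M fun p : Ed × ℕ => Tel.t _ p.1 p.2

theorem df_gens {C : Type} [Srt M C] {G : Type} [Srt M G] {LL : V × ℕ × T → G}
    {LR : T × ℕ × V → G} {TT : Ed × ℕ → G} {src tgt : Ed → V} (h1 : DF M LL) (h2 : DF M LR)
    (h3 : DF M TT) (h4 : DF M src) (h5 : DF M tgt) {S : C → V → Prop}
    (hS : DF M fun p : C × V => S p.1 p.2) : DF M fun p : C × G =>
      (∃ x, S p.1 x ∧ ∃ (k : ℕ) (s : T), p.2 = LL (x, k, s)) ∨
      (∃ y, S p.1 y ∧ ∃ (k : ℕ) (s : T), p.2 = LR (s, k, y)) ∨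
      ∃ e, S p.1 (src e) ∧ S p.1 (tgt e) ∧ ∃ k : ℕ, p.2 = TT (e, k) := by
  fun_prop

theorem df_kk {src tgt : Ed → V} {rV : V → ℕ → T} {ow : Ed → Prop} {ix : Ed → ℕ} {Z : V → Prop}
    (h1 : DF M src) (h2 : DF M tgt) (h3 : DF M fun p : V × ℕ => rV p.1 p.2) (h4 : DF M ow)
    (h5 : DF M ix) (h6 : DF M Z) :
    DF M (kkS rV rV src tgt {v | Z v} {v | Z v} ow ix) := by
  unfold kkS KKS
  simp only [Set.mem_ofPred_eq]
  fun_prop

theorem df_bas {G : Type} [Srt M G] {LL : V × ℕ × T → G}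
    {LR : T × ℕ × V → G} {TT : Ed × ℕ → G} {src tgt : Ed → V} {rV : V → ℕ → T} {ow : Ed → Prop}
    {kk : Ed → ℕ} {Z : V → Prop} (h1 : DF M LL) (h2 : DF M LR)
    (h3 : DF M TT) (h4 : DF M src) (h5 : DF M tgt) (h6 : DF M fun p : V × ℕ => rV p.1 p.2)
    (h7 : DF M ow) (h8 : DF M kk) (h9 : DF M Z) : DF M fun g : G =>
    (∃ (x : V) (k : ℕ) (s : T), Z x ∧ ¬ (∃ e, Z (src e) ∧ Z (tgt e) ∧ ow e ∧ kk e ≤ k ∧ src e = x ∧
      rV (tgt e) k = s) ∧ g = LL (x, k, s)) ∨
    (∃ (y : V) (k : ℕ) (s : T), Z y ∧ ¬ (∃ e, Z (src e) ∧ Z (tgt e) ∧ ¬ ow e ∧ kk e ≤ k ∧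
      tgt e = y ∧ rV (src e) k = s) ∧ g = LR (s, k, y)) ∨
    ∃ (e : Ed) (k : ℕ), Z (src e) ∧ Z (tgt e) ∧ kk e ≤ k ∧ g = TT (e, k) := by
  fun_prop

theorem df_schr {G : Type} [Group G] [Srt M G] [SGrp M G] {S H B : G → Prop}
    {r : G × Bool → G × Bool → Prop} (h1 : DF M S) (h2 : DF M H) (h3 : DF M B)
    (h4 : DF M fun p : (G × Bool) × (G × Bool) => r p.1 p.2) : DF M fun γ : G =>
      H γ ∧ ¬ γ = 1 ∧ ∃ t t' x,
        (S t ∧ ∀ g l l', S g → H (g * t⁻¹) →
          ((∀ (i : ℕ) (x : G × Bool), l[i]? = some x → B x.1) ∧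
            (∀ (i : ℕ) (x y : G × Bool), l[i]? = some x → l[i + 1]? = some y → x.1 = y.1 →
              x.2 = y.2) ∧ lprod l = g) →
          ((∀ (i : ℕ) (x : G × Bool), l'[i]? = some x → B x.1) ∧
            (∀ (i : ℕ) (x y : G × Bool), l'[i]? = some x → l'[i + 1]? = some y → x.1 = y.1 →
              x.2 = y.2) ∧ lprod l' = t) →
          ¬ (l.length < l'.length ∨ (l.length = l'.length ∧ ∃ (i : ℕ) (x y : G × Bool),
            l[i]? = some x ∧ l'[i]? = some y ∧ r x y ∧ ∀ (j : ℕ) (z : G × Bool), j < i →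
              (l[j]? = some z ↔ l'[j]? = some z)))) ∧
        (S t' ∧ ∀ g l l', S g → H (g * t'⁻¹) →
          ((∀ (i : ℕ) (x : G × Bool), l[i]? = some x → B x.1) ∧
            (∀ (i : ℕ) (x y : G × Bool), l[i]? = some x → l[i + 1]? = some y → x.1 = y.1 →
              x.2 = y.2) ∧ lprod l = g) →
          ((∀ (i : ℕ) (x : G × Bool), l'[i]? = some x → B x.1) ∧
            (∀ (i : ℕ) (x y : G × Bool), l'[i]? = some x → l'[i + 1]? = some y → x.1 = y.1 →
              x.2 = y.2) ∧ lprod l' = t') →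
          ¬ (l.length < l'.length ∨ (l.length = l'.length ∧ ∃ (i : ℕ) (x y : G × Bool),
            l[i]? = some x ∧ l'[i]? = some y ∧ r x y ∧ ∀ (j : ℕ) (z : G × Bool), j < i →
              (l[j]? = some z ↔ l'[j]? = some z)))) ∧
        B x ∧ γ = t * x * t'⁻¹ := by
  fun_prop

theorem df_GsS {C : Type} [Srt M C] {rV : V → ℕ → T} {src tgt : Ed → V}
    [Srt M (Tel (cc rV rV src tgt))] (hT : TelDF M rV src tgt) {S : C → V → Prop}
    (hS : DF M fun p : C × V => S p.1 p.2) : DF M fun p : C × Tel (cc rV rV src tgt) =>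
      p.2 ∈ GsS rV rV src tgt {v | S p.1 v} {v | S p.1 v} := by
  have := hT.grp
  have h1 := df_gens (C := C) hT.ll hT.lr hT.tt hT.dsrc hT.dtgt hS
  have h2 : DF M fun p : C × Tel (cc rV rV src tgt) =>
      p.2 ∈ gensS rV rV src tgt {v | S p.1 v} {v | S p.1 v} := h1.congr fun p => rfl
  exact DF.closure (C := C × Tel (cc rV rV src tgt))
    (P := fun p g => g ∈ gensS rV rV src tgt {v | S p.1 v} {v | S p.1 v}) (f := fun p => p.2)
    (h2.comp (f := fun q : (C × Tel (cc rV rV src tgt)) × Tel (cc rV rV src tgt) =>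
      (q.1.1, q.2)) (by fun_prop)) (by fun_prop)

/-- supports -/
theorem exists_supp [Sml M V] {rV : V → ℕ → T} {src tgt : Ed → V}
    [Srt M (Tel (cc rV rV src tgt))] [Sml M (Tel (cc rV rV src tgt))]
    (hT : TelDF M rV src tgt) : ∃ σ : Tel (cc rV rV src tgt) → List V, DF M σ ∧
      ∀ g, g ∈ GsS rV rV src tgt {v | ∃ i : ℕ, (σ g)[i]? = some v}
        {v | ∃ i : ℕ, (σ g)[i]? = some v} := by
  have hsupp : DF M fun p : Tel (cc rV rV src tgt) × List V =>
      p.1 ∈ GsS rV rV src tgt {v | ∃ i : ℕ, p.2[i]? = some v} {v | ∃ i : ℕ, p.2[i]? = some v} := by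
    have h2 := df_GsS (C := List V) hT (S := fun l v => ∃ i : ℕ, l[i]? = some v) (by fun_prop)
    exact h2.comp (f := fun p : Tel (cc rV rV src tgt) × List V => (p.2, p.1)) (by fun_prop)
  refine exists_choice (M := M) (A := Tel (cc rV rV src tgt)) (B := List V)
    (P := fun g l => g ∈ GsS rV rV src tgt {v | ∃ i : ℕ, l[i]? = some v}
      {v | ∃ i : ℕ, l[i]? = some v}) hsupp ?_
  intro g
  obtain ⟨SX, SY, hSX, hSY, hg⟩ := exists_suppS rV rV src tgt g
  obtain ⟨l, hl⟩ := (hSX.union hSY).exists_finset_coe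
  refine ⟨l.toList, GsS_mono rV rV src tgt ?_ ?_ hg⟩
  · intro v hv
    have h1 : v ∈ l.toList := by
      rw [Finset.mem_toList, ← Finset.mem_coe, hl]
      exact Or.inl hv
    exact List.mem_iff_getElem?.1 h1
  · intro v hv
    have h1 : v ∈ l.toList := by
      rw [Finset.mem_toList, ← Finset.mem_coe, hl]
      exact Or.inr hv
    exact List.mem_iff_getElem?.1 h1

/-- **small subgroups are free**, in the sort language -/
theorem small_free [Sml M V] {rV : V → ℕ → T} {src tgt : Ed → V}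
    [Srt M (Tel (cc rV rV src tgt))] [Sml M (Tel (cc rV rV src tgt))]
    (hT : TelDF M rV src tgt) (hsep : Sep rV)
    (hinj : ∀ e e', src e = src e' → tgt e = tgt e' → e = e') (hF1 : PF1S M src tgt)
    (H : Subgroup (Tel (cc rV rV src tgt))) (HS : MSet M (Tel (cc rV rV src tgt)))
    (hHS : ∀ g, g ∈ HS ↔ g ∈ H) (hL : ¬ LargeS M HS) :
    ∃ (BS : MSet M (Tel (cc rV rV src tgt))) (b : FreeGroupBasis {g | g ∈ BS} H),
      ∀ x, (b x : Tel (cc rV rV src tgt)) = x.1 := by
  classical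
  have hgrp := hT.grp
  have hsrc := hT.dsrc
  have htgt := hT.dtgt
  have hrV := hT.drV
  obtain ⟨σ, hσ, hσ'⟩ := exists_supp hT
  let Z : MSet M V := MSet.of (fun v => ∃ h, h ∈ HS ∧ ∃ i : ℕ, (σ h)[i]? = some v)
    (by fun_prop)
  have hZ : ∀ v, v ∈ Z ↔ ∃ h, h ∈ HS ∧ ∃ i : ℕ, (σ h)[i]? = some v := fun v => Iff.rfl
  have hZL : ¬ LargeS M Z := fun h => hL (large_transfer hσ (fun z hz => (hZ z).1 hz) h)
  have hHZ : H ≤ GsS rV rV src tgt {v | v ∈ Z} {v | v ∈ Z} := by
    intro g hg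
    have h1 : {v | ∃ i : ℕ, (σ g)[i]? = some v} ⊆ {v | v ∈ Z} :=
      fun v hv => (hZ v).2 ⟨g, (hHS g).2 hg, hv⟩
    exact GsS_mono rV rV src tgt h1 h1 (hσ' g)
  obtain ⟨lt, hlt, hwf, htri, hu⟩ := hF1 Z hZL
  obtain ⟨U, hU, hU'⟩ := exists_choice (M := M) (A := V) (B := MSet M (ℕ × V))
    (P := fun z u => z ∈ Z → (∀ n x y, (n, x) ∈ u → (n, y) ∈ u → x = y) ∧
      ∀ z', z' ∈ Z → lt z' z → ((∃ e, src e = z' ∧ tgt e = z) ∨ (∃ e, src e = z ∧ tgt e = z')) →
        ∃ n : ℕ, (n, z') ∈ u) (by fun_prop) (by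
      intro z
      by_cases hz : z ∈ Z
      · obtain ⟨u, hu⟩ := hu z hz
        exact ⟨u, fun _ => hu⟩
      · exact ⟨MSet.of (fun _ => False) (by fun_prop), fun h => absurd h hz⟩)
  let ow : Ed → Prop := fun e => lt (tgt e) (src e)
  let ix : Ed → ℕ := fun e => if lt (tgt e) (src e) then sInf {n : ℕ | (n, tgt e) ∈ U (src e)} else
    if src e = tgt e then 0 else sInf {n : ℕ | (n, src e) ∈ U (tgt e)} + 1
  have how : DF M ow := by
    show DF M fun e => lt (tgt e) (src e)
    fun_prop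
  have hix : DF M ix := by
    show DF M fun e => if lt (tgt e) (src e) then sInf {n : ℕ | (n, tgt e) ∈ U (src e)} else
      if src e = tgt e then 0 else sInf {n : ℕ | (n, src e) ∈ U (tgt e)} + 1
    fun_prop
  have hZd : DF M fun v => v ∈ Z := by fun_prop
  have hkk : DF M (kkS rV rV src tgt {v | v ∈ Z} {v | v ∈ Z} ow ix) :=
    df_kk hsrc htgt hrV how hix hZd
  have hbas : DF M fun g => g ∈ BasS rV rV src tgt {v | v ∈ Z} {v | v ∈ Z} ow
      (kkS rV rV src tgt {v | v ∈ Z} {v | v ∈ Z} ow ix) :=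
    df_bas hT.ll hT.lr hT.tt hsrc htgt hrV how hkk hZd
  -- the rank
  have : IsWellFounded V lt := ⟨hwf⟩
  let κ : V → Ordinal.{0} := fun v => IsWellFounded.rank lt v
  have hκ : ∀ z z', lt z z' → κ z < κ z' := fun z z' h => IsWellFounded.rank_lt_of_rel h
  let rk : {v | v ∈ Z} ⊕ {v | v ∈ Z} → Ordinal.{0} ×ₗ Bool :=
    Sum.elim (fun z => toLex (κ z.1, false)) (fun z => toLex (κ z.1, true))
  obtain ⟨b, hb⟩ := basis_BasS (rX := rV) (rY := rV) (src := src) (tgt := tgt)
    (SX := {v | v ∈ Z}) (SY := {v | v ∈ Z}) (ow := ow) (ix := ix) rk hsep hsep hinj (by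
      intro e h1 h2 h3
      simp only [rk, Sum.elim_inl, Sum.elim_inr]
      rw [Prod.Lex.toLex_lt_toLex]
      exact Or.inl (hκ _ _ h3)) (by
      intro e h1 h2 h3
      simp only [rk, Sum.elim_inl, Sum.elim_inr]
      rw [Prod.Lex.toLex_lt_toLex]
      rcases htri _ _ h1 h2 with h | h | h
      · exact Or.inl (hκ _ _ h)
      · exact Or.inr ⟨by rw [h], by simp⟩
      · exact absurd h h3) (by
      intro e e' h1 h2 h3 h4 h5 h6 h7
      have hn : (ix e, tgt e) ∈ U (src e) := by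
        have : ix e = sInf {n : ℕ | (n, tgt e) ∈ U (src e)} := if_pos h4
        rw [this]
        exact Nat.sInf_mem ((hU' _ h1).2 _ h2 h4 (Or.inr ⟨e, rfl, rfl⟩))
      have hn' : (ix e', tgt e') ∈ U (src e') := by
        have : ix e' = sInf {n : ℕ | (n, tgt e') ∈ U (src e')} := if_pos h5
        rw [this]
        exact Nat.sInf_mem ((hU' _ (h6 ▸ h1)).2 _ h3 h5 (Or.inr ⟨e', rfl, rfl⟩))
      refine hinj _ _ h6 ((hU' _ h1).1 (ix e) _ _ hn ?_)
      rw [h6, h7]
      exact hn') (by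
      intro e e' h1 h2 h3 h4 h5 h6 h7
      have key : ∀ e, src e ∈ Z → tgt e ∈ Z → ¬ ow e → ¬ src e = tgt e →
          ix e = sInf {n : ℕ | (n, src e) ∈ U (tgt e)} + 1 ∧
          (sInf {n : ℕ | (n, src e) ∈ U (tgt e)}, src e) ∈ U (tgt e) := by
        intro e h1 h2 h4 h8
        refine ⟨?_, ?_⟩
        · show (if lt (tgt e) (src e) then _ else _) = _
          rw [if_neg h4, if_neg h8]
        · refine Nat.sInf_mem (s := {n : ℕ | (n, src e) ∈ U (tgt e)}) ((hU' _ h2).2 _ h1 ?_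
            (Or.inl ⟨e, rfl, rfl⟩))
          rcases htri _ _ h1 h2 with h | h | h
          · exact h
          · exact absurd h h8
          · exact absurd h h4
      have key0 : ∀ e, ¬ ow e → src e = tgt e → ix e = 0 := by
        intro e h4 h8
        show (if lt (tgt e) (src e) then _ else _) = _
        rw [if_neg h4, if_pos h8]
      refine hinj _ _ ?_ h6
      by_cases h8 : src e = tgt e
      · by_cases h9 : src e' = tgt e'
        · rw [h8, h9, h6]
        · have h10 := (key e' h3 (h6 ▸ h2) h5 h9).1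
          rw [← h7, key0 e h4 h8] at h10
          omega
      · by_cases h9 : src e' = tgt e'
        · have h10 := (key e h1 h2 h4 h8).1
          rw [h7, key0 e' h5 h9] at h10
          omega
        · have h10 := key e h1 h2 h4 h8
          have h11 := key e' h3 (h6 ▸ h2) h5 h9
          have h12 : sInf {n : ℕ | (n, src e) ∈ U (tgt e)} =
              sInf {n : ℕ | (n, src e') ∈ U (tgt e')} := by
            have := h10.1.symm.trans (h7.trans h11.1)
            omega
          refine (hU' _ h2).1 _ _ _ h10.2 ?_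
          rw [h12, h6]
          exact h11.2)
  obtain ⟨r, hr, hrwf, hrtri⟩ := exists_wo (M := M) (A := Tel (cc rV rV src tgt) × Bool)
  obtain ⟨c, hc⟩ := schreier_in hHZ b hb r hrwf hrtri
  have hGs : DF M fun g => g ∈ GsS rV rV src tgt {v | v ∈ Z} {v | v ∈ Z} := by
    have h2 := df_GsS (C := ℕ) hT (S := fun _ v => v ∈ Z) (by fun_prop)
    exact h2.comp (f := fun g : Tel (cc rV rV src tgt) => (0, g)) (by fun_prop)
  have hHd : DF M fun g => g ∈ H := by
    have h1 : DF M fun g => g ∈ HS := by fun_prop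
    exact h1.pcongr hHS
  have hS : DF M fun γ => SchrS (GsS rV rV src tgt {v | v ∈ Z} {v | v ∈ Z}) H
      (BasS rV rV src tgt {v | v ∈ Z} {v | v ∈ Z} ow
      (kkS rV rV src tgt {v | v ∈ Z} {v | v ∈ Z} ow ix)) r γ :=
    df_schr hGs hHd hbas hr
  exact ⟨MSet.of _ hS, c, hc⟩

end tel

end

end MP186633L

/-!
# Plan A: the group is not free (in the sort language)
-/

set_option autoImplicit false

namespace MP186633L

open ZM

universe u

section

variable {M : Type u} [ZM M]

/-- every element of a group generated by `B` is the value of a word -/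
theorem exists_word {G : Type} [Group G] {B : Set G} (g : G) (hg : g ∈ Subgroup.closure B) :
    ∃ l : List (G × Bool), (∀ (i : ℕ) (x : G × Bool), l[i]? = some x → x.1 ∈ B) ∧
      lprod l = g := by
  suffices h : ∃ l : List (G × Bool), (∀ x ∈ l, x.1 ∈ B) ∧ lprod l = g by
    obtain ⟨l, h1, h2⟩ := h
    exact ⟨l, fun i x hx => h1 x (List.mem_of_getElem? hx), h2⟩
  induction hg using Subgroup.closure_induction with
  | mem x hx => exact ⟨[(x, true)], by simpa using hx, by simp [lprod, lval]⟩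
  | one => exact ⟨[], by simp, by simp [lprod]⟩
  | mul x y _ _ hx hy =>
    obtain ⟨l, h1, h2⟩ := hx
    obtain ⟨l', h1', h2'⟩ := hy
    refine ⟨l ++ l', fun z hz => ?_, by rw [← h2, ← h2']; simp [lprod]⟩
    rcases List.mem_append.1 hz with hz | hz
    · exact h1 z hz
    · exact h1' z hz
  | inv x _ hx =>
    obtain ⟨l, h1, h2⟩ := hx
    refine ⟨(l.map fun x => (x.1, !x.2)).reverse, fun z hz => ?_, ?_⟩
    · rw [List.mem_reverse, List.mem_map] at hz
      obtain ⟨w, hw, rfl⟩ := hz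
      exact h1 w hw
    · rw [← h2]
      clear h1 h2
      induction l with
      | nil => simp [lprod]
      | cons a l ih =>
        have h3 : ∀ l l' : List (G × Bool), lprod (l ++ l') = lprod l * lprod l' := by
          intro l l'; simp [lprod]
        have h4 : lprod (a :: l) = lval a * lprod l := by simp [lprod]
        have h5 : lprod [(a.1, !a.2)] = (lval a)⁻¹ := by
          rcases a with ⟨a, ε⟩
          cases ε <;> simp [lprod, lval]
        rw [List.map_cons, List.reverse_cons, h3, ih, h4, h5, mul_inv_rev]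

theorem lprod_mem {G : Type} [Group G] {S : Subgroup G} (l : List (G × Bool))
    (h : ∀ (i : ℕ) (x : G × Bool), l[i]? = some x → x.1 ∈ S) : lprod l ∈ S := by
  have h' : ∀ x ∈ l, x.1 ∈ S := by
    intro x hx
    obtain ⟨i, hi⟩ := List.mem_iff_getElem?.1 hx
    exact h i x hi
  refine Subgroup.list_prod_mem S fun y hy => ?_
  obtain ⟨x, hx, rfl⟩ := List.mem_map.1 hy
  rcases x with ⟨x, ε⟩
  cases ε
  · simpa [lval] using h' _ hx
  · simpa [lval] using h' _ hx

section tel

variable {V T Ed : Type} [Srt M V] [Srt M T] [Srt M Ed]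

/-- the closure of a point under a definable function is countable in `M` -/
theorem exists_countable_closure {F : V × V × ℕ → V} (hF : DF M F) (b : V) [Sml M V] :
    ∃ (C : V → Prop) (u : MSet M (ℕ × V)), DF M C ∧ C b ∧
      (∀ x y (n : ℕ), C x → C y → C (F (x, y, n))) ∧
      (∀ n x y, (n, x) ∈ u → (n, y) ∈ u → x = y) ∧ ∀ x, C x → ∃ n : ℕ, (n, x) ∈ u := by
  let P : MSet M (ℕ × V) → ℕ × V → Prop := fun u p =>
    ((Nat.unpair p.1).1 = 0 ∧ ((Nat.unpair p.1).2, p.2) ∈ u) ∨
    ((Nat.unpair p.1).1 = 1 ∧ ∃ (i j n : ℕ) (x y : V),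
      (Nat.unpair p.1).2 = Nat.pair i (Nat.pair j n) ∧ (i, x) ∈ u ∧ (j, y) ∈ u ∧
        p.2 = F (x, y, n))
  have hP : DF M fun q : MSet M (ℕ × V) × (ℕ × V) => P q.1 q.2 := by
    show DF M fun q : MSet M (ℕ × V) × (ℕ × V) =>
      (((Nat.unpair q.2.1).1 = 0 ∧ ((Nat.unpair q.2.1).2, q.2.2) ∈ q.1) ∨
      ((Nat.unpair q.2.1).1 = 1 ∧ ∃ (i j n : ℕ) (x y : V),
      (Nat.unpair q.2.1).2 = Nat.pair i (Nat.pair j n) ∧ (i, x) ∈ q.1 ∧ (j, y) ∈ q.1 ∧
        q.2.2 = F (x, y, n)))
    fun_prop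
  have hP' : ∀ u, DF M (P u) := fun u =>
    hP.comp (f := fun p : ℕ × V => (u, p)) (by fun_prop)
  let g : MSet M (ℕ × V) → MSet M (ℕ × V) := fun u => MSet.of (P u) (hP' u)
  have hg : DF M g := DF.set hP
  have hgm : ∀ u p, p ∈ g u ↔ P u p := fun u p => Iff.rfl
  let u0 : MSet M (ℕ × V) := MSet.of (fun p => p = (0, b)) (by fun_prop)
  have hu0 : ∀ p, p ∈ u0 ↔ p = (0, b) := fun p => Iff.rfl
  let un : ℕ → MSet M (ℕ × V) := fun n => g^[n] u0
  have hun : DF M un := (DF.natrec0 hg).comp (f := fun n : ℕ => (n, u0)) (by fun_prop)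
  have hsucc : ∀ n, un (n + 1) = g (un n) := fun n => Function.iterate_succ_apply' g n u0
  have hsv : ∀ n k x y, (k, x) ∈ un n → (k, y) ∈ un n → x = y := by
    intro n
    induction n with
    | zero =>
      intro k x y hx hy
      have hx := (hu0 _).1 hx
      have hy := (hu0 _).1 hy
      exact congrArg Prod.snd (hx.trans hy.symm)
    | succ n ih =>
      intro k x y hx hy
      rw [hsucc, hgm] at hx hy
      rcases hx with ⟨h1, h2⟩ | ⟨h1, i, j, m, x1, y1, h2, h3, h4, h5⟩
      · rcases hy with ⟨h1', h2'⟩ | ⟨h1', -⟩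
        · exact ih _ _ _ h2 h2'
        · exact absurd (h1.symm.trans h1') (by norm_num)
      · rcases hy with ⟨h1', h2'⟩ | ⟨h1', i', j', m', x1', y1', h2', h3', h4', h5'⟩
        · exact absurd (h1.symm.trans h1') (by norm_num)
        · have h6 := h2.symm.trans h2'
          rw [Nat.pair_eq_pair, Nat.pair_eq_pair] at h6
          obtain ⟨rfl, rfl, rfl⟩ := h6
          have h7 := ih _ _ _ h3 h3'
          have h8 := ih _ _ _ h4 h4'
          subst h7 h8
          exact h5.trans h5'.symm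
  have hmono : ∀ n m k x, n ≤ m → (k, x) ∈ un n → ∃ k', (k', x) ∈ un m := by
    intro n m k x hnm
    induction m, hnm using Nat.le_induction generalizing k with
    | base => exact fun h => ⟨k, h⟩
    | succ m _ ih =>
      intro h
      obtain ⟨k', hk'⟩ := ih k h
      refine ⟨Nat.pair 0 k', ?_⟩
      rw [hsucc, hgm]
      exact Or.inl ⟨by simp, by simpa using hk'⟩
  refine ⟨fun v => ∃ n k : ℕ, (k, v) ∈ un n, MSet.of (fun p : ℕ × V =>
    ((Nat.unpair p.1).2, p.2) ∈ un (Nat.unpair p.1).1) (by fun_prop), by fun_prop,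
    ⟨0, 0, (hu0 _).2 rfl⟩, ?_, ?_, ?_⟩
  · rintro x y m ⟨n, k, h⟩ ⟨n', k', h'⟩
    obtain ⟨i, hi⟩ := hmono n (max n n') k x (le_max_left _ _) h
    obtain ⟨j, hj⟩ := hmono n' (max n n') k' y (le_max_right _ _) h'
    refine ⟨max n n' + 1, Nat.pair 1 (Nat.pair i (Nat.pair j m)), ?_⟩
    rw [hsucc, hgm]
    exact Or.inr ⟨by simp, i, j, m, x, y, by simp, hi, hj, rfl⟩
  · intro n x y hx hy
    exact hsv _ _ _ _ hx hy
  · rintro x ⟨n, k, h⟩
    refine ⟨Nat.pair n k, ?_⟩
    simpa using h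

/-- choice where possible -/
theorem exists_choice_or {A B : Type} [Srt M A] [Srt M B] [Sml M A] [Sml M B] [Nonempty B]
    {P : A → B → Prop} (hP : DF M fun p : A × B => P p.1 p.2) :
    ∃ f : A → B, DF M f ∧ ∀ a b, P a b → P a (f a) := by
  obtain ⟨f, hf, hf'⟩ := exists_choice (M := M) (P := fun a b => (∃ b, P a b) → P a b)
    (by fun_prop) (by
      intro a
      by_cases h : ∃ b, P a b
      · obtain ⟨b, hb⟩ := h
        exact ⟨b, fun _ => hb⟩
      · exact ⟨Classical.arbitrary B, fun h' => absurd h' h⟩)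
  exact ⟨f, hf, fun a b h => hf' a ⟨b, h⟩⟩

theorem df_word {G : Type} [Group G] [Srt M G] [SGrp M G] {B : G → Prop} (hB : DF M B) :
    DF M fun p : G × List (G × Bool) => (∀ (i : ℕ) (x : G × Bool), p.2[i]? = some x → B x.1) ∧
      lprod p.2 = p.1 := by
  fun_prop

theorem exists_genf [Sml M V] {G : Type} [Srt M G] [Sml M G] [Nonempty G] {LL : V × ℕ × T → G}
    {LR : T × ℕ × V → G} {TT : Ed × ℕ → G} {src tgt : Ed → V} {en : ℕ → T} (h1 : DF M LL)
    (h2 : DF M LR) (h3 : DF M TT) (h4 : DF M src) (h5 : DF M tgt) (h6 : DF M en)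
    (hinj : ∀ e e', src e = src e' → tgt e = tgt e' → e = e') :
    ∃ f : V × V × ℕ → G, DF M f ∧
      (∀ x y (k c : ℕ), f (x, y, Nat.pair 0 (Nat.pair k c)) = LL (x, k, en c)) ∧
      (∀ x y (k c : ℕ), f (x, y, Nat.pair 1 (Nat.pair k c)) = LR (en c, k, x)) ∧
      ∀ e (k : ℕ), f (src e, tgt e, Nat.pair 2 k) = TT (e, k) := by
  obtain ⟨f, hf, hf'⟩ := exists_choice_or (M := M) (A := V × V × ℕ) (B := G)
    (P := fun a g => ((Nat.unpair a.2.2).1 = 0 ∧ g = LL (a.1, (Nat.unpair (Nat.unpair a.2.2).2).1,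
        en (Nat.unpair (Nat.unpair a.2.2).2).2)) ∨
      ((Nat.unpair a.2.2).1 = 1 ∧ g = LR (en (Nat.unpair (Nat.unpair a.2.2).2).2,
        (Nat.unpair (Nat.unpair a.2.2).2).1, a.1)) ∨
      ((Nat.unpair a.2.2).1 = 2 ∧ ∃ e, src e = a.1 ∧ tgt e = a.2.1 ∧
        g = TT (e, (Nat.unpair a.2.2).2))) (by fun_prop)
  refine ⟨f, hf, fun x y k c => ?_, fun x y k c => ?_, fun e k => ?_⟩
  · rcases hf' (x, y, Nat.pair 0 (Nat.pair k c)) (LL (x, k, en c)) (Or.inl ⟨by simp, by simp⟩) with
      h | h | h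
    · simpa using h.2
    · exact absurd h.1 (by simp)
    · exact absurd h.1 (by simp)
  · rcases hf' (x, y, Nat.pair 1 (Nat.pair k c)) (LR (en c, k, x))
      (Or.inr (Or.inl ⟨by simp, by simp⟩)) with h | h | h
    · exact absurd h.1 (by simp)
    · simpa using h.2
    · exact absurd h.1 (by simp)
  · rcases hf' (src e, tgt e, Nat.pair 2 k) (TT (e, k))
      (Or.inr (Or.inr ⟨by simp, e, rfl, rfl, by simp⟩)) with h | h | h
    · exact absurd h.1 (by simp)
    · exact absurd h.1 (by simp)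
    · obtain ⟨e', he1, he2, he3⟩ := h.2
      have h7 : e' = e := hinj _ _ he1 he2
      rw [he3, h7]
      simp

/-- **the group is not free**, in the sort language -/
theorem not_free [Sml M V] {rV : V → ℕ → T} {src tgt : Ed → V}
    [Srt M (Tel (cc rV rV src tgt))] [Sml M (Tel (cc rV rV src tgt))]
    (hT : TelDF M rV src tgt) (hsep : Sep rV)
    (hinj : ∀ e e', src e = src e' → tgt e = tgt e' → e = e') (hF2 : PF2S M src tgt)
    (hen : ∃ c : ℕ → T, DF M c ∧ Function.Surjective c)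
    {B : Set (Tel (cc rV rV src tgt))} (hB : DF M fun g => g ∈ B)
    (hcl : Subgroup.closure B = ⊤)
    (hext : ∀ f : Tel (cc rV rV src tgt) → Tel (cc rV rV src tgt), DF M f →
      ∃ ρ : Tel (cc rV rV src tgt) →* Tel (cc rV rV src tgt), ∀ b ∈ B, ρ b = f b) : False := by
  classical
  have hgrp := hT.grp
  have hsrc := hT.dsrc
  have htgt := hT.dtgt
  obtain ⟨σ, hσ, hσ'⟩ := exists_supp hT
  obtain ⟨en, hen1, hen2⟩ := hen
  -- words
  obtain ⟨W, hW, hW'⟩ := exists_choice (M := M) (A := Tel (cc rV rV src tgt))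
    (B := List (Tel (cc rV rV src tgt) × Bool))
    (P := fun g l => (∀ (i : ℕ) (x : Tel (cc rV rV src tgt) × Bool), l[i]? = some x → x.1 ∈ B) ∧
      lprod l = g) (df_word hB)
      (fun g => exists_word g (by rw [hcl]; exact Subgroup.mem_top g))
  -- generators
  obtain ⟨ge, hge, hge0, hge1, hge2⟩ := exists_genf (M := M) (G := Tel (cc rV rV src tgt))
    hT.ll hT.lr hT.tt hsrc htgt hen1 hinj
  by_cases hne : Nonempty V
  swap
  · -- no vertices
    obtain ⟨Z, b, -⟩ := hF2 (fun p => p.1) (by fun_prop)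
    exact hne ⟨b⟩
  obtain ⟨F, hF, hF'⟩ := exists_choice_or (M := M) (A := V × V × ℕ) (B := V)
    (P := fun a v => ∃ x : Tel (cc rV rV src tgt) × Bool,
      (W (ge (a.1, a.2.1, (Nat.unpair a.2.2).1)))[(Nat.unpair (Nat.unpair a.2.2).2).1]? = some x ∧
      (σ x.1)[(Nat.unpair (Nat.unpair a.2.2).2).2]? = some v) (by fun_prop)
  have hFe : ∀ x y (j i m : ℕ) (z : Tel (cc rV rV src tgt) × Bool) v,
      (W (ge (x, y, j)))[i]? = some z → (σ z.1)[m]? = some v →
      F (x, y, Nat.pair j (Nat.pair i m)) = v := by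
    intro x y j i m z v h1 h2
    obtain ⟨z', h3, h4⟩ := hF' (x, y, Nat.pair j (Nat.pair i m)) v
      ⟨z, by simpa using h1, by simpa using h2⟩
    simp only [Nat.unpair_pair] at h3 h4
    rw [h1] at h3
    have h5 := Option.some.inj h3
    subst h5
    rw [h2] at h4
    exact (Option.some.inj h4).symm
  -- closed sets
  have hclo : ∀ S : V → Prop, (∀ x y (n : ℕ), S x → S y → S (F (x, y, n))) →
      GsS rV rV src tgt {v | S v} {v | S v} ≤
        Subgroup.closure (B ∩ GsS rV rV src tgt {v | S v} {v | S v}) := by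
    intro S hS
    have key : ∀ x y (j : ℕ), S x → S y → ge (x, y, j) ∈
        Subgroup.closure (B ∩ GsS rV rV src tgt {v | S v} {v | S v}) := by
      intro x y j hx hy
      rw [← (hW' (ge (x, y, j))).2]
      refine lprod_mem _ fun i z hz => Subgroup.subset_closure ⟨(hW' _).1 i z hz, ?_⟩
      have h1 : {v | ∃ m : ℕ, (σ z.1)[m]? = some v} ⊆ {v | S v} := by
        rintro v ⟨m, hm⟩
        have h2 := hS x y (Nat.pair j (Nat.pair i m)) hx hy
        rw [hFe x y j i m z v hz hm] at h2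
        exact h2
      exact GsS_mono rV rV src tgt h1 h1 (hσ' z.1)
    rw [GsS, Subgroup.closure_le]
    rintro g (⟨x, hx, k, s, rfl⟩ | ⟨y, hy, k, s, rfl⟩ | ⟨e, h1, h2, k, rfl⟩)
    · obtain ⟨c, rfl⟩ := hen2 s
      have h3 := key x x (Nat.pair 0 (Nat.pair k c)) hx hx
      rw [hge0] at h3
      exact h3
    · obtain ⟨c, rfl⟩ := hen2 s
      have h3 := key y y (Nat.pair 1 (Nat.pair k c)) hy hy
      rw [hge1] at h3
      exact h3
    · have h3 := key (src e) (tgt e) (Nat.pair 2 k) h1 h2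
      rw [hge2] at h3
      exact h3
  obtain ⟨Z, b, hZ1, hZ2, hZ3⟩ := hF2 F hF
  obtain ⟨C, u, hC, hCb, hC1, hu, hCu⟩ := exists_countable_closure hF b
  have hedge : ∃ e, src e ∈ Z ∧ tgt e = b ∧ ¬ C (src e) := by
    by_contra hno
    push Not at hno
    refine hZ3 ⟨u, hu, ?_⟩
    rintro a ha ⟨e, rfl, he⟩
    exact hCu _ (hno e ha he)
  obtain ⟨e, he1, he2, he3⟩ := hedge
  have hGZ := df_GsS (C := ℕ) hT (S := fun _ v => v ∈ Z) (by fun_prop)
  have hGZ' : DF M fun g => g ∈ GsS rV rV src tgt {v | v ∈ Z} {v | v ∈ Z} :=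
    hGZ.comp (f := fun g : Tel (cc rV rV src tgt) => (0, g)) (by fun_prop)
  have hGC := df_GsS (C := ℕ) hT (S := fun _ v => C v) (by fun_prop)
  have hGC' : DF M fun g => g ∈ GsS rV rV src tgt {v | C v} {v | C v} :=
    hGC.comp (f := fun g : Tel (cc rV rV src tgt) => (0, g)) (by fun_prop)
  obtain ⟨ρ, hρ⟩ := hext (fun g => if g ∈ GsS rV rV src tgt {v | v ∈ Z} {v | v ∈ Z} ∨
    g ∈ GsS rV rV src tgt {v | C v} {v | C v} then 1 else g)
    (DF.ite (DF.or hGZ' hGC') (by fun_prop) (by fun_prop))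
  refine no_rho hsep hsep hinj hcl (hclo (fun v => v ∈ Z) fun x y n hx hy => hZ1 x y n hx hy)
    (hclo C hC1) ρ ?_ ?_ e he1 ?_ he3 ?_
  · intro g hg h
    rw [hρ g hg, if_pos h]
  · intro g hg h
    rw [hρ g hg, if_neg h]
  · rw [he2]
    exact hZ2
  · rw [he2]
    exact hCb

end tel

end

end MP186633L
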