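import Pool.Agent.Lib.MP_186633_lc.QE
import Pool.Agent.Lib.MP_186633_lc.QU
import Pool.Agent.Lib.MP_186633_lc.QV

/-!
# MP_186633_lc, plan A: the group inside the model
-/

set_option autoImplicit false

namespace MP186633L

open MP9708F ZM

universe u

section

variable {M : Type u} [ZM M] [ExtM M] (R : MSet M (Re M × Re M))

instance sgrpGM : SGrp M (GM R) := ⟨df_mulGM R⟩

theorem telDF : TelDF M (rM (M := M)) (sM R) (tM R) where
  grp := sgrpGM R
  dsrc := DF.sM R DF.id
  dtgt := DF.tM R DF.id
  drV := by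
    have h : DF M fun p : Re M × ℕ => (List.range p.2).map p.1 :=
      DF.rangeMap (f := fun (p : Re M × ℕ) i => p.1 i) (by fun_prop) (by fun_prop)
    exact h
  ll := DF.lM R (i := fun p : Re M × ℕ × List ℕ => Sum.inl p) (by fun_prop)
  lr := DF.lM R (i := fun p : List ℕ × ℕ × Re M => Sum.inr p) (by fun_prop)
  tt := DF.teM R (by fun_prop) (by fun_prop)

omit [ExtM M] in
theorem sep_rM : Sep (rM (M := M)) := by
  intro x x' hne
  exact sep_res x.toFun x'.toFun fun h => hne (toFun_injective h)

omit [ExtM M] in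
theorem inj_EdM (e e' : EdM R) (h : sM R e = sM R e') (h' : tM R e = tM R e') : e = e' :=
  Subtype.ext (Prod.ext h h')

end

/-! ### Transport to the reals -/

theorem basis_closure {ι G : Type} [Group G] (b : FreeGroupBasis ι G) :
    Subgroup.closure (Set.range b) = ⊤ := by
  rw [eq_top_iff]
  intro g _
  have h1 : b.repr g ∈ Subgroup.closure (Set.range (FreeGroup.of : ι → FreeGroup ι)) := by
    rw [FreeGroup.closure_range_of]
    exact Subgroup.mem_top _
  have h2 : ∀ w : FreeGroup ι, w ∈ Subgroup.closure (Set.range (FreeGroup.of : ι → FreeGroup ι)) →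
      b.repr.symm w ∈ Subgroup.closure (Set.range b) := by
    intro w hw
    induction hw using Subgroup.closure_induction with
    | mem x hx =>
      obtain ⟨i, rfl⟩ := hx
      exact Subgroup.subset_closure ⟨i, rfl⟩
    | one => rw [map_one]; exact Subgroup.one_mem _
    | mul y z _ _ hy hz => rw [map_mul]; exact Subgroup.mul_mem _ hy hz
    | inv y _ hy => rw [map_inv]; exact Subgroup.inv_mem _ hy
  have h3 := h2 _ h1
  rwa [MulEquiv.symm_apply_apply] at h3

section transport

variable {M : Type u} [ZM M] {V T Ed : Type} [Srt M V] [Srt M T] [Srt M Ed] [Sml M V]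
  {rV : V → ℕ → T} {src tgt : Ed → V} [Srt M (Tel (cc rV rV src tgt))]
  [Sml M (Tel (cc rV rV src tgt))] {X : Type} [Srt M X] [Sml M X] [Group X] [SGrp M X]
  (β : X ≃* Tel (cc rV rV src tgt)) (hβ : DF M β)

include hβ in
theorem df_symm : DF M β.symm := by
  refine DF.of_graph (P := fun g x => β x = g) (DF.eq (hβ.comp DF.snd0) DF.fst0) fun g x => ?_
  constructor
  · rintro rfl
    exact β.apply_symm_apply g
  · rintro rfl
    exact β.symm_apply_apply x

include hβ in
/-- subgroups which are not large are free in `M` -/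
theorem isFree_small (hT : TelDF M rV src tgt) (hsep : Sep rV)
    (hinj : ∀ e e', src e = src e' → tgt e = tgt e' → e = e') (hF1 : PF1S M src tgt)
    {H : M} (hH : IsSubgroup E (univM M X) (mulM M X) H) (hL : ¬ IsLarge E (wM M) H) :
    IsFree E (univM M X) (mulM M X) H := by
  obtain ⟨S, hS⟩ := exists_subgroup hH
  let HS : MSet M X := ⟨{x | x ∈ S}, ⟨H, fun x => (hS x).trans Iff.rfl⟩⟩
  have hHS : cod M HS = H := ext fun x => by
    rw [mem_cod_MSet, hS]
    exact Iff.rfl
  have hL' : ¬ LargeS M HS := by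
    rw [← isLarge_iff, hHS]
    exact hL
  have hSd : DF M fun x => x ∈ HS := by fun_prop
  have hsymm := df_symm β hβ
  let HT : MSet M (Tel (cc rV rV src tgt)) := MSet.of (fun g => β.symm g ∈ HS) (by fun_prop)
  have hHT : ∀ g, g ∈ HT ↔ g ∈ S.map (β : X →* Tel (cc rV rV src tgt)) := by
    intro g
    constructor
    · intro h
      exact ⟨β.symm g, h, β.apply_symm_apply g⟩
    · rintro ⟨x, hx, rfl⟩
      show β.symm (β x) ∈ S
      rw [β.symm_apply_apply]
      exact hx
  have hLT : ¬ LargeS M HT := fun h => hL' (large_transfer (M := M) (A := Tel (cc rV rV src tgt))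
    (B := X) (σ := fun x => [β x]) (by fun_prop) (fun g hg => ⟨β.symm g, hg, 0, by simp⟩) h)
  obtain ⟨BS, b, hb⟩ := small_free hT hsep hinj hF1 (S.map (β : X →* Tel (cc rV rV src tgt))) HT
    hHT hLT
  let f : S ≃* S.map (β : X →* Tel (cc rV rV src tgt)) := S.equivMapOfInjective _ β.injective
  have hf : ∀ x : S, (f x : Tel (cc rV rV src tgt)) = β x := fun x => rfl
  refine isFree_of S hS {x | β x ∈ BS} (by
    have h : DF M fun x => β x ∈ BS := by fun_prop
    exact h) ?_ ?_
  · -- generation
    have hgen : Subgroup.closure (Set.range b) = ⊤ := basis_closure b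
    apply le_antisymm
    · rw [Subgroup.closure_le]
      intro x hx
      have h1 : (b ⟨β x, hx⟩ : Tel (cc rV rV src tgt)) = β x := hb _
      have h2 : β x ∈ S.map (β : X →* Tel (cc rV rV src tgt)) := by
        rw [← h1]
        exact (b ⟨β x, hx⟩).2
      obtain ⟨y, hy, hxy⟩ := h2
      have : y = x := β.injective hxy
      rw [← this]
      exact hy
    · intro x hx
      have h1 : f ⟨x, hx⟩ ∈ Subgroup.closure (Set.range b) := by
        rw [hgen]
        exact Subgroup.mem_top _
      have h2 : ∀ y : S.map (β : X →* Tel (cc rV rV src tgt)),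
          y ∈ Subgroup.closure (Set.range b) →
          β.symm y ∈ Subgroup.closure {x | β x ∈ BS} := by
        intro y hy
        induction hy using Subgroup.closure_induction with
        | mem y hy =>
          obtain ⟨z, rfl⟩ := hy
          refine Subgroup.subset_closure ?_
          show β (β.symm (b z)) ∈ BS
          rw [β.apply_symm_apply, hb]
          exact z.2
        | one => rw [Subgroup.coe_one, map_one]; exact Subgroup.one_mem _
        | mul y z _ _ hy hz =>
          rw [Subgroup.coe_mul, map_mul]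
          exact Subgroup.mul_mem _ hy hz
        | inv y _ hy =>
          rw [Subgroup.coe_inv, map_inv]
          exact Subgroup.inv_mem _ hy
      have h3 := h2 _ h1
      rw [hf, β.symm_apply_apply] at h3
      exact h3
  · intro K _ φ
    refine ⟨(b.lift fun z => φ (β.symm z.1)).comp f.toMonoidHom, fun x hx => ?_⟩
    have h1 : f x = b ⟨β x, hx⟩ := Subtype.ext ((hf x).trans (hb ⟨β x, hx⟩).symm)
    rw [MonoidHom.comp_apply]
    show (b.lift fun z => φ (β.symm z.1)) (f x) = _
    rw [h1, FreeGroupBasis.lift_apply_apply, FreeGroupBasis.repr_apply_coe,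
      FreeGroup.lift_apply_of, β.symm_apply_apply]

include hβ in
/-- the group is not free in `M` -/
theorem not_isFree (hT : TelDF M rV src tgt) (hsep : Sep rV)
    (hinj : ∀ e e', src e = src e' → tgt e = tgt e' → e = e') (hF2 : PF2S M src tgt)
    (hen : ∃ c : ℕ → T, DF M c ∧ Function.Surjective c) :
    ¬ IsFree E (univM M X) (mulM M X) (univM M X) := by
  intro h
  obtain ⟨B, hB, hcl, hext⟩ := of_isFree h
  have hsymm := df_symm β hβ
  refine not_free hT hsep hinj hF2 hen (B := {g | β.symm g ∈ B}) (by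
    have h : DF M fun g => β.symm g ∈ B := hB.comp hsymm
    exact h) ?_ ?_
  · rw [eq_top_iff]
    intro g _
    have h1 : β.symm g ∈ Subgroup.closure B := by
      rw [hcl]
      exact Subgroup.mem_top _
    have h2 : ∀ x : X, x ∈ Subgroup.closure B → β x ∈ Subgroup.closure {g | β.symm g ∈ B} := by
      intro x hx
      induction hx using Subgroup.closure_induction with
      | mem x hx =>
        refine Subgroup.subset_closure ?_
        show β.symm (β x) ∈ B
        rwa [β.symm_apply_apply]
      | one => rw [map_one]; exact Subgroup.one_mem _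
      | mul y z _ _ hy hz => rw [map_mul]; exact Subgroup.mul_mem _ hy hz
      | inv y _ hy => rw [map_inv]; exact Subgroup.inv_mem _ hy
    have h3 := h2 _ h1
    rwa [β.apply_symm_apply] at h3
  · intro f hf
    obtain ⟨ρ, hρ⟩ := hext (fun x => β.symm (f (β x))) (by fun_prop)
    refine ⟨(β : X →* Tel (cc rV rV src tgt)).comp (ρ.comp
      (β.symm : Tel (cc rV rV src tgt) →* X)), fun g hg => ?_⟩
    show β (ρ (β.symm g)) = f g
    rw [hρ _ hg, β.apply_symm_apply, β.apply_symm_apply]

end transport

end MP186633L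

/-!
# MP_186633_lc, plan A: the end
-/

set_option autoImplicit false

namespace MP186633L

open MP9708F ZM

universe u

section

variable {M : Type u} [ZM M] [ExtM M] {R : MSet M (Re M × Re M)}

/-- the bad group, from a Borel bijection of the reals with the set of the codes -/
theorem badGroupIn_of (β : Re M ≃ GM R) (hβ : BorR bRe fun x => codeM R (β x))
    (hF1 : PF1S M (sM R) (tM R)) (hF2 : PF2S M (sM R) (tM R))
    (hen : ∃ c : ℕ → List ℕ, DF M c ∧ Function.Surjective c) : BadGroupIn (E : M → M → Prop) := by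
  have hβd : DF M β := DF.of_emb (codeM_injective R) (df_codeM R) hβ.df
  let _ : Group (Re M) := β.group
  let β' : Re M ≃* GM R := β.mulEquiv
  have hsymm : DF M β.symm := by
    refine DF.of_graph (P := fun g x => β x = g) (DF.eq (hβd.comp DF.snd0) DF.fst0) fun g x => ?_
    constructor
    · rintro rfl
      exact β.apply_symm_apply g
    · rintro rfl
      exact β.symm_apply_apply x
  have hmul : SGrp M (Re M) := by
    refine ⟨?_⟩
    have h : DF M fun p : Re M × Re M => β.symm (β p.1 * β p.2) := by fun_prop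
    exact h
  have hX : ∀ x, E x (univM M (Re M)) ↔ IsFunc E x (wM M) (wM M) := by
    intro x
    rw [mem_univM, isFunc_iff_re]
  refine ⟨wM M, univM M (Re M), mulM M (Re M), isOmega_iff'.2 rfl, hX, isGroup_univM, ?_, ?_, ?_⟩
  · refine Bor.isBorel hX (bor_graph hβ (op := mulT) (DF.mulT DF.fst0 DF.snd0)) fun t => ?_
    have h1 : E t (mulM M (Re M)) ↔ ∃ p : Re M × Re M, t = pr (cod M p) (cod M (p.1 * p.2)) :=
      (exists_graph (M := M) (SGrp.mul (M := M) (G := Re M))).choose_spec t
    rw [h1]
    have h2 : ∀ x y z : Re M, (∀ m, mulT (codeM R (β x) m) (codeM R (β y) m) =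
        codeM R (β z) m) ↔ x * y = z := by
      intro x y z
      have h3 : x * y = z ↔ β x * β y = β z := by
        rw [← β'.injective.eq_iff, map_mul]
        exact Iff.rfl
      rw [h3]
      constructor
      · intro h
        refine codeM_injective R (Re.ext fun m => ?_)
        rw [← h m, codeM_apply, codeM_apply, codeM_apply, codF_mul]
      · intro h m
        rw [← h, codeM_apply, codeM_apply, codeM_apply, codF_mul]
    constructor
    · rintro ⟨⟨x, y⟩, rfl⟩
      exact ⟨((x, y), x * y), (h2 x y _).2 rfl, rfl⟩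
    · rintro ⟨⟨⟨x, y⟩, z⟩, h, rfl⟩
      have h4 := (h2 x y z).1 h
      subst h4
      exact ⟨(x, y), rfl⟩
  · intro H hH hL
    exact isFree_small β' hβd (telDF R) sep_rM (inj_EdM R) hF1 hH hL
  · exact not_isFree β' hβd (telDF R) sep_rM (inj_EdM R) hF2 hen

end

section

variable {M : Type u} [ZM M] [ExtM M]

/-- the Borel bijection -/
theorem exists_beta (d e : M) (R : MSet M (Re M × Re M))
    (hR : ∀ x y, (x, y) ∈ R ↔ RRe d e x y) :
    ∃ β : Re M ≃ GM R, BorR bRe fun x => codeM R (β x) := by
  obtain ⟨v, hv1, hv2⟩ := exists_inv R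
  let D : Re M → Prop := fun z => ∃ g, codeM R g = z
  have hD : Bor M bRe D := bor_D R (Dd := DRel d) (Ee := DRel e) (df_DRel d)
    (df_DRel e) fun p => hR p.1 p.2
  have hsb : BorR bRe fun x : Re M => sb (gamR R) v D x := BorR.sb (borR_gam R) hv1 hD
  have hmem : ∀ x, ∃ g, codeM R g = sb (gamR R) v D x :=
    sb_mem (g := gamR R) (v := v) (D := D) fun x => ⟨_, rfl⟩
  choose b hb using hmem
  have hinj : Function.Injective b := by
    intro x y h
    refine sb_injective (D := D) hv2 ?_
    rw [← hb x, ← hb y, h]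
  have hsurj : Function.Surjective b := by
    intro g
    obtain ⟨x, hx⟩ := sb_surj (D := D) hv2 (y := codeM R g) ⟨g, rfl⟩
    exact ⟨x, codeM_injective R ((hb x).trans hx)⟩
  refine ⟨Equiv.ofBijective b ⟨hinj, hsurj⟩, ?_⟩
  have h : (fun x => codeM R (Equiv.ofBijective b ⟨hinj, hsurj⟩ x)) =
      fun x : Re M => sb (gamR R) v D x := funext fun x => hb x
  rw [h]
  exact hsb

/-- **the principle implies that there is a bad group**, inside the model -/
theorem badGroupIn_of_principle (h : Principle (E : M → M → Prop)) :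
    BadGroupIn (E : M → M → Prop) := by
  obtain ⟨w, d, e, hw, h1, h2⟩ := h
  rw [isOmega_iff'] at hw
  subst hw
  let R : MSet M (Re M × Re M) := MSet.of (fun p => RRe d e p.1 p.2) (df_RRe d e)
  have hR : ∀ x y, (x, y) ∈ R ↔ RRe d e x y := fun x y => Iff.rfl
  have hR' : ∀ x y, (∃ ε, sM R ε = x ∧ tM R ε = y) ↔
      RelR E (wM M) d e (cod M x) (cod M y) := by
    intro x y
    rw [relR_iff]
    constructor
    · rintro ⟨ε, rfl, rfl⟩
      exact ε.2
    · intro h
      exact ⟨⟨(x, y), h⟩, rfl, rfl⟩
  obtain ⟨β, hβ⟩ := exists_beta d e R hR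
  refine badGroupIn_of β hβ (h1.sort hR') (h2.sort hR') ?_
  obtain ⟨c, hc, hc'⟩ := exists_choice' (M := M) (A := ℕ) (B := List ℕ)
    (P := fun n l => Encodable.encode l = n) (by fun_prop)
  refine ⟨c, hc, fun l => ⟨Encodable.encode l, ?_⟩⟩
  exact Encodable.encode_injective (hc' (Encodable.encode l) ⟨l, rfl⟩)

end

/-- the model -/
theorem exists_zmExt (P : Type) [Preorder P] [Nonempty P] :
    ∃ (M : Type 1) (_ : ZM M), ExtM M ∧
      (∀ φ : SetFormula, (∀ (v : ℕ → Nam P) p, φ.Forces v p) →
        ∀ v : ℕ → M, φ.Holds (ZM.E : M → M → Prop) v) := by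
  obtain ⟨M, hM, -, hF, hA⟩ := exists_zm P fun _ =>
    gcode fun p : ℕ × List (LT × Bool) => stg p.1 p.2
  exact ⟨M, hM, ⟨DF.of_gcode (hA 0)⟩, hF⟩

/-- **Main theorem.** -/
theorem consistent_badGroupIn : ∃ (M : Type 1) (E : M → M → Prop), ModelsZFC E ∧ BadGroupIn E := by
  obtain ⟨M, hM, hE, hF⟩ := exists_zmExt SS
  exact ⟨M, ZM.E, ZM.zfc, badGroupIn_of_principle
    ((holds_princF ZM.E fun _ => nM M 0).1 (hF princF forces_princ _))⟩

end MP186633L
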