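import Pool.Agent.Lib.MP_186633_lc.Statement

/-!
# MP_186633_lc: the combinatorial principle inside a structure `(M, E)`

`E x y` is read as `x ∈ y`.
-/

namespace MP186633L

universe u

section

variable {M : Type u} (E : M → M → Prop)

/-- `(((a, a'), n), b) ∈ f`. -/
def HasQuad (f a a' n b : M) : Prop := ∃ p, IsPair E p a a' ∧ HasTrip E f p n b

/-- `f` is single valued -/
def SingleVal (f : M) : Prop := ∀ a b b', HasPair E f a b → HasPair E f a b' → b = b'

/-- `x` is a function `ω → ω` with `(x n, x (n+1)) ∈ d` for all `n` -/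
def IsBranch (w d x : M) : Prop :=
  IsFunc E x w w ∧ ∀ n m a b, E n w → IsSucc E m n → HasPair E x n a → HasPair E x m b →
    HasPair E d a b

/-- the relation `R(x, y)` with parameters `d`, `e`: both are branches, and `(x n, y n) ∈ e` for
all but finitely many `n` -/
def RelR (w d e x y : M) : Prop :=
  IsBranch E w d x ∧ IsBranch E w d y ∧ ∃ k, E k w ∧ ∀ n, E n w → (n = k ∨ E k n) →
    ∀ a b, HasPair E x n a → HasPair E y n b → HasPair E e a b

/-- `θ` is an ordinal: a transitive set of transitive sets -/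
def IsOrd (θ : M) : Prop :=
  (∀ x, E x θ → ∀ y, E y x → E y θ) ∧ ∀ x, E x θ → ∀ y, E y x → ∀ z, E z y → E z x

/-- property (F1): every set `Z` of functions `ω → ω` of cardinality less than `ℵ_ω` has an
injection `κ` into an ordinal such that for every `z ∈ Z` the set of all `z' ∈ Z` with smaller
`κ`-value which are in relation with `z` is covered by a countable set -/
def PrF1 (w d e : M) : Prop :=
  ∀ Z, (∀ z, E z Z → IsFunc E z w w) → ¬ IsLarge E w Z →
    ∃ θ κ, IsOrd E θ ∧ SingleVal E κ ∧ (∀ z, E z Z → ∃ α, E α θ ∧ HasPair E κ z α) ∧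
      (∀ z z' α, E z Z → E z' Z → HasPair E κ z α → HasPair E κ z' α → z = z') ∧
      ∀ z, E z Z → ∃ u, SingleVal E u ∧ ∀ z' α α', E z' Z → HasPair E κ z α →
        HasPair E κ z' α' → E α' α → (RelR E w d e z' z ∨ RelR E w d e z z') →
          ∃ n, E n w ∧ HasPair E u n z'

/-- property (F2): for every ternary function `F` there are a set `Z` of functions `ω → ω` closed
under `F` and `b ∉ Z` such that `{a ∈ Z : R(a, b)}` is not covered by a countable set -/
def PrF2 (w d e : M) : Prop :=
  ∀ F, (∀ a a' n b b', HasQuad E F a a' n b → HasQuad E F a a' n b' → b = b') →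
    ∃ Z b, (∀ z, E z Z → IsFunc E z w w) ∧
      (∀ x y n z, E x Z → E y Z → E n w → HasQuad E F x y n z → IsFunc E z w w → E z Z) ∧
      IsFunc E b w w ∧ ¬ E b Z ∧
      ¬ ∃ u, SingleVal E u ∧ ∀ a, E a Z → RelR E w d e a b → ∃ n, E n w ∧ HasPair E u n a

/-- **The principle.** -/
def Principle : Prop := ∃ w d e, IsOmega E w ∧ PrF1 E w d e ∧ PrF2 E w d e

end

end MP186633L
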